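import Pool.Agent.Lib.MP_4ccb00_al.L.Spec
import Pool.Agent.Lib.MP_4ccb00_al.E.Spec2

/-!
# MP_4ccb00_al, part (d): nondegenerate groups, definitions

`F` is a group generated by `x : Fin s → F` and `z : Fin t → F` (in the application the free group
of rank `s + t`), `S = gen x`, `R` a normal subgroup of `F` of `p`-power index, `G = F/R`, `H = SR/R`.
-/

set_option autoImplicit false

namespace Pool.Agent.Lib.MP4ccb00.N

open Subgroup Module E

/-- `R` is special for `S`: the derived group of `F/R` is the derived group of the image of `S`. -/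
def Spl {F : Type} [Group F] (S R : Subgroup F) : Prop :=
  ⁅(⊤ : Subgroup F), (⊤ : Subgroup F)⁆ ≤ ⁅S, S⁆ ⊔ R

/-- The preimage in `F` of the centralizer of `SR/R` in `[F,F]R/R` (for normal `R`; the normal core of
`R` is used to have a subgroup for every `R`). -/
def Cz {F : Type} [Group F] (S R : Subgroup F) : Subgroup F where
  carrier := {w | w ∈ ⁅(⊤ : Subgroup F), (⊤ : Subgroup F)⁆ ⊔ R ∧ ∀ y ∈ S, w * y * w⁻¹ * y⁻¹ ∈ R.normalCore}
  one_mem' := ⟨one_mem _, fun y _ => by simp⟩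
  mul_mem' := by
    rintro a b ⟨ha, ha'⟩ ⟨hb, hb'⟩
    refine ⟨mul_mem ha hb, fun y hy => ?_⟩
    have h1 : a * (b * y * b⁻¹ * y⁻¹) * a⁻¹ ∈ R.normalCore :=
      R.normalCore_normal.conj_mem _ (hb' y hy) a
    have h2 := mul_mem h1 (ha' y hy)
    have h3 : a * b * y * (a * b)⁻¹ * y⁻¹ =
        a * (b * y * b⁻¹ * y⁻¹) * a⁻¹ * (a * y * a⁻¹ * y⁻¹) := by group
    rw [h3]
    exact h2
  inv_mem' := by
    rintro a ⟨ha, ha'⟩
    refine ⟨inv_mem ha, fun y hy => ?_⟩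
    have h1 : a⁻¹ * (a * y * a⁻¹ * y⁻¹)⁻¹ * a⁻¹⁻¹ ∈ R.normalCore :=
      R.normalCore_normal.conj_mem _ (inv_mem (ha' y hy)) a⁻¹
    have h3 : a⁻¹ * y * a⁻¹⁻¹ * y⁻¹ = a⁻¹ * (a * y * a⁻¹ * y⁻¹)⁻¹ * a⁻¹⁻¹ := by group
    rw [h3]
    exact h1

/-- The special marked groups `R ≤ R₁` with parameters `f = log |Phi : [F,F]R|`,
`π = log |[F,F]R : A|`, `a = log |A : R|`, `a₁ = log |A ⊓ R₁ : R|`, where `A = Cz S R`. -/
def SP (p n f π a a₁ : ℕ) {F : Type} [Group F] (S R₁ : Subgroup F) : Set (Subgroup F) :=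
  {R | R ∈ Marked p n F ∧ Spl S R ∧ R ≤ R₁ ∧
    (⁅(⊤ : Subgroup F), (⊤ : Subgroup F)⁆ ⊔ R).relIndex (PhiP p ⊤) = p ^ f ∧
    (Cz S R).relIndex (⁅(⊤ : Subgroup F), (⊤ : Subgroup F)⁆ ⊔ R) = p ^ π ∧
    R.relIndex (Cz S R) = p ^ a ∧ R.relIndex (Cz S R ⊓ R₁) = p ^ a₁}

/-- The first `s` generators of the free group. -/
def xg (d s : ℕ) : Fin s → FG d := fun i => if h : i.1 < d then FreeGroup.of ⟨i.1, h⟩ else 1

/-- The last `d - s` generators of the free group. -/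
def zg (d s : ℕ) : Fin (d - s) → FG d :=
  fun i => if h : s + i.1 < d then FreeGroup.of ⟨s + i.1, h⟩ else 1

/-- The twist of `R` by a matrix. -/
noncomputable def tw (p : ℕ) {d : ℕ} (g : GLp p d) (R : Subgroup (FG d)) : Subgroup (FG d) :=
  R.comap (hm (can p (g : Matrix (Fin d) (Fin d) (ZMod p))))

/-- `C` is a union of classes of `Rel` in `X p d n`. -/
def Sat (p d n : ℕ) (C : Set (Subgroup (FG d))) : Prop :=
  C ⊆ X p d n ∧ ∀ R ∈ C, ∀ R' ∈ X p d n, Rel R R' → R' ∈ C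

/-- The exponent of the count of `SP`. -/
def eX (s t f π a₁ : ℕ) : ℕ :=
  f * (2 * (s + t) + f) + π * ((s + 1) * (s + f + π) + s) +
    a₁ * (s * (s + 1) / 2 + (s + 1) * (f + π)) + (a₁ + π) * (s * t) + a₁ * (t * (t + 1) / 2)

end Pool.Agent.Lib.MP4ccb00.N
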