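import Pool.Agent.Lib.MP_4ccb00_al.N.Spec

/-!
# MP_4ccb00_al, part (d): almost all groups

The number of isomorphism classes of groups of order `p ^ n` whose Frattini subgroup is not central
elementary abelian.
-/

set_option autoImplicit false

namespace Pool.Agent.Lib.MP4ccb00

open Subgroup Module E

open scoped commutatorElement

/-- The `p`-th powers and the commutators of elements of `G` are central and have order dividing `p`
(for a finite `p`-group: the Frattini subgroup of `G` is central and elementary abelian). -/
def PhiCentral (p : ℕ) (G : Type) [Group G] : Prop :=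
  ∀ x y z : G, x ^ p * z = z * x ^ p ∧ (x ^ p) ^ p = 1 ∧ ⁅x, y⁆ * z = z * ⁅x, y⁆ ∧ ⁅x, y⁆ ^ p = 1

/-- The number of isomorphism classes of groups of order `p ^ n` which are not `PhiCentral`. -/
noncomputable def numBad (p n : ℕ) : ℕ :=
  Nat.card (Quot (fun g h : {g : Group (Fin (p ^ n)) // ¬ @PhiCentral p (Fin (p ^ n)) g} =>
    Nonempty (@MulEquiv (Fin (p ^ n)) (Fin (p ^ n))
      (@Semigroup.toMul _ (@Monoid.toSemigroup _ (@DivInvMonoid.toMonoid _ (@Group.toDivInvMonoid _ g.1))))
      (@Semigroup.toMul _ (@Monoid.toSemigroup _ (@DivInvMonoid.toMonoid _ (@Group.toDivInvMonoid _ h.1)))))))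

/-- `DCB` (200 lines): the decomposition `DEC` for the groups which are not `PhiCentral`. PROOF. As `DEC` (only
`≤` is needed): every group `G` of order `p ^ n` is isomorphic to `FG d ⧸ R` with `R ∈ X p d n`; `PhiCentral` is
invariant under isomorphism, and `FG d ⧸ R` is `PhiCentral` iff `Psi ≤ R`: `Phi p ⊤` is generated by
the commutators and the `p`-th powers; `Psi ≤ R` iff the image of `Phi p ⊤` in `FG d ⧸ R` is central and of
exponent `p`, iff its generators are central of order dividing `p` (commuting elements of order
dividing `p` generate a group of exponent `p`). -/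
def SpecDCB : Prop := ∀ (p n : ℕ), p.Prime →
  numBad p n ≤ ∑ d ∈ Finset.range (n + 1), ncl (X p d n \ Good p d n)

/-- `ALM`: almost all groups of order `p ^ n` are `PhiCentral`, uniformly in `p`. -/
def SpecALM : Prop := ∃ n0 : ℕ, ∀ n ≥ n0, ∀ p : ℕ, p.Prime →
  numBad p n * p ^ (n ^ 2 / 200) ≤ numGroups (p ^ n)

end Pool.Agent.Lib.MP4ccb00
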