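import Pool.Agent.Lib.MP_4ccb00_al.N.Spec
import Pool.Agent.Lib.MP_4ccb00_al.N.Spec2

section
set_option autoImplicit false

namespace Pool.Agent.Lib.MP4ccb00.N.ACTM

open Subgroup E
open scoped commutatorElement

theorem cj {F : Type} [Group F] {R : Subgroup F} (hR : R.Normal) {u v : F} (h : u⁻¹ * v ∈ R)
    (y : F) : (u * y * u⁻¹)⁻¹ * (v * y * v⁻¹) ∈ R := by
  have h1 : (QuotientGroup.mk u : F ⧸ R) = QuotientGroup.mk v := QuotientGroup.eq.2 h
  rw [← QuotientGroup.eq]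
  show ((u * y * u⁻¹ : F) : F ⧸ R) = ((v * y * v⁻¹ : F) : F ⧸ R)
  rw [QuotientGroup.mk_mul, QuotientGroup.mk_mul, QuotientGroup.mk_inv, h1,
    ← QuotientGroup.mk_inv, ← QuotientGroup.mk_mul, ← QuotientGroup.mk_mul]

/-- a subgroup of finite index which is mapped into itself by a conjugation is normalized. -/
theorem mem_norm {F : Type} [Group F] {T : Subgroup F} (hT : T.index ≠ 0) {g : F}
    (h : ∀ y ∈ T, g * y * g⁻¹ ∈ T) : g ∈ Subgroup.normalizer (T : Set F) := by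
  have hle : T ≤ T.comap (MulAut.conj g).toMonoidHom := by
    intro y hy
    exact h y hy
  have hidx : (T.comap (MulAut.conj g).toMonoidHom).index = T.index :=
    Subgroup.index_comap_of_surjective _ (MulAut.conj g).surjective
  have h1 := Subgroup.relIndex_mul_index hle
  rw [hidx] at h1
  have h2 : T.relIndex (T.comap (MulAut.conj g).toMonoidHom) = 1 := by
    have h3 : T.relIndex (T.comap (MulAut.conj g).toMonoidHom) * T.index = 1 * T.index := by
      rw [h1, one_mul]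
    exact Nat.eq_of_mul_eq_mul_right (Nat.pos_of_ne_zero hT) h3
  have h4 : T.comap (MulAut.conj g).toMonoidHom ≤ T := Subgroup.relIndex_eq_one.1 h2
  rw [Subgroup.mem_normalizer_iff]
  intro y
  constructor
  · exact h y
  · intro hy
    exact h4 hy

end Pool.Agent.Lib.MP4ccb00.N.ACTM

namespace Pool.Agent.Lib.MP4ccb00.N

open Subgroup E ACTM
open scoped commutatorElement

theorem specACT : SpecACT := by
  intro p hp F _ s t x z R R' hxz hR hR' hRi hRi' hinf hcom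
  have hR0 : (R ⊓ R').Normal := Subgroup.normal_inf_normal R R'
  obtain ⟨m, hm⟩ := hRi
  obtain ⟨m', hm'⟩ := hRi'
  have hfR : R.FiniteIndex := ⟨by rw [hm]; exact pow_ne_zero _ hp.out.ne_zero⟩
  have hfR' : R'.FiniteIndex := ⟨by rw [hm']; exact pow_ne_zero _ hp.out.ne_zero⟩
  have hfR0 : (R ⊓ R').FiniteIndex := inferInstance
  have hfT : (gen x ⊔ (R ⊓ R')).index ≠ 0 :=
    (Subgroup.finiteIndex_of_le (le_sup_right : R ⊓ R' ≤ gen x ⊔ (R ⊓ R'))).index_ne_zero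
  have key : ∀ g : F, g ∈ Subgroup.normalizer ((gen x ⊔ (R ⊓ R') : Subgroup F) : Set F) := by
    have h1 : gen x ⊔ gen z ≤ Subgroup.normalizer ((gen x ⊔ (R ⊓ R') : Subgroup F) : Set F) := by
      rw [sup_le_iff]
      constructor
      · exact le_trans le_sup_left Subgroup.le_normalizer
      · unfold gen
        rw [Subgroup.closure_le]
        rintro _ ⟨i, rfl⟩
        refine mem_norm hfT ?_
        have h2 : gen x ⊔ (R ⊓ R') ≤
            (gen x ⊔ (R ⊓ R')).comap (MulAut.conj (z i)).toMonoidHom := by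
          rw [sup_le_iff]
          constructor
          · unfold gen
            rw [Subgroup.closure_le]
            rintro _ ⟨l, rfl⟩
            obtain ⟨u, hu, hu'⟩ := hcom l i
            show z i * x l * (z i)⁻¹ ∈ gen x ⊔ (R ⊓ R')
            have h3 : ⁅x l, z i⁆ ∈ gen x ⊔ (R ⊓ R') := by
              have := Subgroup.mul_mem_sup hu hu'
              rwa [mul_inv_cancel_left] at this
            have h4 : z i * x l * (z i)⁻¹ = ⁅x l, z i⁆⁻¹ * x l := by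
              rw [commutatorElement_def]; group
            rw [h4]
            exact mul_mem (inv_mem h3) (Subgroup.mem_sup_left (Subgroup.subset_closure ⟨l, rfl⟩))
          · intro y hy
            exact Subgroup.mem_sup_right (hR0.conj_mem y hy (z i))
        intro y hy
        exact h2 hy
    intro g
    exact h1 (by rw [hxz]; exact Subgroup.mem_top _)
  have h1 : ∀ g : F, ∀ y ∈ gen x, g * y * g⁻¹ ∈ gen x ⊔ (R ⊓ R') := fun g y hy =>
    (Subgroup.mem_normalizer_iff.1 (key g) y).1 (Subgroup.mem_sup_left hy)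
  refine ⟨h1, ?_⟩
  intro v u u' hu hu' hv hv' y hy
  have h2 := h1 v y hy
  rw [Subgroup.mem_sup_of_normal_right] at h2
  obtain ⟨y', hy', r0, hr0, hyr⟩ := h2
  have h3 : (u * y * u⁻¹)⁻¹ * y' ∈ R := by
    have h4 := mul_mem (cj hR hv y) (inv_mem hr0.1)
    have h5 : (u * y * u⁻¹)⁻¹ * (v * y * v⁻¹) * r0⁻¹ = (u * y * u⁻¹)⁻¹ * y' := by
      rw [← hyr]; group
    rwa [h5] at h4
  have h3' : (u' * y * u'⁻¹)⁻¹ * y' ∈ R' := by
    have h4 := mul_mem (cj hR' hv' y) (inv_mem hr0.2)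
    have h5 : (u' * y * u'⁻¹)⁻¹ * (v * y * v⁻¹) * r0⁻¹ = (u' * y * u'⁻¹)⁻¹ * y' := by
      rw [← hyr]; group
    rwa [h5] at h4
  have h6 : (u' * y * u'⁻¹)⁻¹ * y' ∈ gen x :=
    mul_mem (inv_mem (mul_mem (mul_mem hu' hy) (inv_mem hu'))) hy'
  have h7 : (u' * y * u'⁻¹)⁻¹ * y' ∈ R ⊓ gen x := by
    rw [hinf]; exact ⟨h3', h6⟩
  have h8 : (u * y * u⁻¹)⁻¹ * (u' * y * u'⁻¹) ∈ R := by
    have h9 := mul_mem h3 (inv_mem h7.1)
    have h10 : (u * y * u⁻¹)⁻¹ * y' * ((u' * y * u'⁻¹)⁻¹ * y')⁻¹ =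
        (u * y * u⁻¹)⁻¹ * (u' * y * u'⁻¹) := by group
    rwa [h10] at h9
  refine ⟨?_, ?_⟩
  · have h11 := hR.conj_mem _ h8 (y * u⁻¹)
    have h12 : y * u⁻¹ * ((u * y * u⁻¹)⁻¹ * (u' * y * u'⁻¹)) * (y * u⁻¹)⁻¹ = ⁅u⁻¹ * u', y⁆ := by
      rw [commutatorElement_def]; group
    rwa [h12] at h11
  · have hk : u⁻¹ * u' ∈ gen x := mul_mem (inv_mem hu) hu'
    have h13 : u⁻¹ * u' * y * (u⁻¹ * u')⁻¹ * y⁻¹ ∈ gen x :=
      mul_mem (mul_mem (mul_mem hk hy) (inv_mem hk)) (inv_mem hy)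
    exact h13

end Pool.Agent.Lib.MP4ccb00.N
end

section
/-!
# MP_4ccb00_al, part (d), module ADJ
-/
set_option autoImplicit false

namespace Pool.Agent.Lib.MP4ccb00.N

open Subgroup Module E

open scoped commutatorElement

/-- Specialness only depends on `S Phi`. -/
theorem specADJ (hBF : SpecBF) : SpecADJ := by
  intro p hpf F _ H H₂ R hR hRi hSpl hH
  set D := ⁅(⊤ : Subgroup F), (⊤ : Subgroup F)⁆ with hD
  set M := ⁅D, (⊤ : Subgroup F)⁆ ⊔ Subgroup.closure {x | ∃ d ∈ D, x = d ^ p} with hM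
  have hDn : D.Normal := Subgroup.commutator_normal _ _
  have hMD : M ≤ D := by
    rw [hM, sup_le_iff]
    constructor
    · rw [Subgroup.commutator_le]
      intro d hd g _
      have h1 : ⁅d, g⁆ = d * (g * d⁻¹ * g⁻¹) := by rw [commutatorElement_def]; group
      rw [h1]
      exact mul_mem hd (hDn.conj_mem _ (inv_mem hd) g)
    · rw [Subgroup.closure_le]
      rintro _ ⟨d, hd, rfl⟩
      exact pow_mem hd p
  have hcomD : ∀ d ∈ D, ∀ g : F, ⁅d, g⁆ ∈ M := fun d hd g =>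
    Subgroup.mem_sup_left (Subgroup.commutator_mem_commutator hd (Subgroup.mem_top g))
  have hMn : M.Normal := by
    constructor
    intro m hm g
    have h1 : g * m * g⁻¹ = ⁅m, g⁆⁻¹ * m := by rw [commutatorElement_def]; group
    rw [h1]
    exact mul_mem (inv_mem (hcomD m (hMD hm) g)) hm
  let π := QuotientGroup.mk' M
  have hπ1 : ∀ m, m ∈ M ↔ π m = 1 := fun m => (QuotientGroup.eq_one_iff m).symm
  have hcD : ∀ d ∈ D, ∀ g : F, π d * π g = π g * π d := by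
    intro d hd g
    have h1 := (hπ1 _).1 (hcomD d hd g)
    rw [map_commutatorElement, commutatorElement_eq_one_iff_mul_comm] at h1
    exact h1
  have hpD : ∀ d ∈ D, π d ^ p = 1 := by
    intro d hd
    rw [← map_pow]
    exact (hπ1 _).1 (Subgroup.mem_sup_right (Subgroup.subset_closure ⟨d, hd, rfl⟩))
  -- the image of the Frattini subgroup is central
  have hcen : PhiP p (⊤ : Subgroup F) ≤ (Subgroup.center (F ⧸ M)).comap π := by
    rw [PhiP, sup_le_iff]
    constructor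
    · intro d hd
      rw [Subgroup.mem_comap, Subgroup.mem_center_iff]
      intro q
      obtain ⟨g, rfl⟩ := QuotientGroup.mk'_surjective M q
      exact (hcD d hd g).symm
    · rw [Subgroup.closure_le]
      rintro _ ⟨u, -, rfl⟩
      rw [SetLike.mem_coe, Subgroup.mem_comap, Subgroup.mem_center_iff]
      intro q
      obtain ⟨h, rfl⟩ := QuotientGroup.mk'_surjective M q
      have h1 : ⁅h, u⁆ ∈ D :=
        Subgroup.commutator_mem_commutator (Subgroup.mem_top _) (Subgroup.mem_top _)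
      have h2 : π h * π u * (π h)⁻¹ = π ⁅h, u⁆ * π u := by
        rw [map_commutatorElement, commutatorElement_def]; group
      have h3 : π h * π (u ^ p) * (π h)⁻¹ = π (u ^ p) := by
        rw [map_pow]
        have h4 : π h * π u ^ p * (π h)⁻¹ = (π h * π u * (π h)⁻¹) ^ p := (conj_pow).symm
        rw [h4, h2, Commute.mul_pow (show Commute (π ⁅h, u⁆) (π u) from hcD _ h1 u), hpD _ h1,
          one_mul]
      change π h * π (u ^ p) = π (u ^ p) * π h
      calc π h * π (u ^ p) = (π h * π (u ^ p) * (π h)⁻¹) * π h := by group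
        _ = _ := by rw [h3]
  have hPn : (PhiP p (⊤ : Subgroup F)).Normal := by
    constructor
    intro x hx g
    have h1 : g * x * g⁻¹ = ⁅g, x⁆ * x := by rw [commutatorElement_def]; group
    rw [h1]
    exact mul_mem (Subgroup.mem_sup_left (Subgroup.commutator_mem_commutator
      (Subgroup.mem_top _) (Subgroup.mem_top _))) hx
  have hHH : ⁅H, H⁆ ≤ ⁅H₂, H₂⁆ ⊔ M := by
    rw [Subgroup.commutator_le]
    intro h hh h' hh'
    have e1 := hH hh
    have e2 := hH hh'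
    rw [Subgroup.mem_sup_of_normal_right] at e1 e2
    obtain ⟨a, ha, c, hc, rfl⟩ := e1
    obtain ⟨b, hb, c', hc', rfl⟩ := e2
    have h1 := Subgroup.mem_center_iff.1 (Subgroup.mem_comap.1 (hcen hc))
    have h2 := Subgroup.mem_center_iff.1 (Subgroup.mem_comap.1 (hcen hc'))
    have h3 : π ⁅a * c, b * c'⁆ = π ⁅a, b⁆ := by
      rw [map_commutatorElement, map_commutatorElement, map_mul, map_mul, commutatorElement_def,
        commutatorElement_def]
      calc π a * π c * (π b * π c') * (π a * π c)⁻¹ * (π b * π c')⁻¹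
          = π a * (π c * π b) * (π c' * ((π c)⁻¹ * (π a)⁻¹)) * ((π c')⁻¹ * (π b)⁻¹) := by group
        _ = π a * (π b * π c) * (π c' * ((π c)⁻¹ * (π a)⁻¹)) * ((π c')⁻¹ * (π b)⁻¹) := by
          rw [h1 (π b)]
        _ = π a * (π b * π c) * (((π c)⁻¹ * (π a)⁻¹) * π c') * ((π c')⁻¹ * (π b)⁻¹) := by
          rw [h2 ((π c)⁻¹ * (π a)⁻¹)]
        _ = π a * π b * (π a)⁻¹ * (π b)⁻¹ := by group
    have h4 : ⁅a, b⁆⁻¹ * ⁅a * c, b * c'⁆ ∈ M := by
      rw [hπ1, map_mul, map_inv, h3, inv_mul_cancel]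
    have h5 : ⁅a * c, b * c'⁆ = ⁅a, b⁆ * (⁅a, b⁆⁻¹ * ⁅a * c, b * c'⁆) := by group
    rw [h5]
    exact mul_mem (Subgroup.mem_sup_left (Subgroup.commutator_mem_commutator ha hb))
      (Subgroup.mem_sup_right h4)
  have hfin : D ≤ ⁅H₂, H₂⁆ ⊔ ⁅D, (⊤ : Subgroup F)⁆ ⊔
      Subgroup.closure {x | ∃ d ∈ D, x = d ^ p} ⊔ R := by
    have h1 : ⁅H, H⁆ ⊔ R ≤ ⁅H₂, H₂⁆ ⊔ M ⊔ R := sup_le_sup_right hHH R
    have h2 : ⁅H₂, H₂⁆ ⊔ M ⊔ R = ⁅H₂, H₂⁆ ⊔ ⁅D, (⊤ : Subgroup F)⁆ ⊔
      Subgroup.closure {x | ∃ d ∈ D, x = d ^ p} ⊔ R := by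
      rw [hM]; simp only [sup_assoc]
    rw [← h2]
    exact le_trans hSpl h1
  exact hBF p F ⊤ H₂ R inferInstance hR hRi le_top le_top hfin

end Pool.Agent.Lib.MP4ccb00.N
end

section
set_option autoImplicit false

namespace Pool.Agent.Lib.MP4ccb00.N

open Subgroup Module E

namespace MUPM

/-- The numerical part. -/
theorem numeric (c : ℝ) (hc : 0 < c) : ∃ n0 : ℕ, ∀ n ≥ n0, ∀ p : ℝ, 2 ≤ p → ∀ S B1 B2 : ℝ,
    p ^ (2 * n ^ 3 / 27 : ℕ) ≤ p ^ (n ^ 2 : ℕ) * S →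
    B1 ≤ (n + 1) * 2 * p ^ ((2 / 27 - c) * (n : ℝ) ^ 3) → B2 * p ^ (n ^ 2 / 100 : ℕ) ≤ 3 * S →
    (B1 + B2) * p ^ (n ^ 2 / 200 : ℕ) ≤ S := by
  obtain ⟨n1, hn1⟩ := exists_nat_ge (7 / c)
  refine ⟨max n1 30, fun n hn p hp S B1 B2 hS h1 h2 => ?_⟩
  have hn30 : 30 ≤ n := le_trans (le_max_right _ _) hn
  have hnn1 : n1 ≤ n := le_trans (le_max_left _ _) hn
  have hp0 : 0 < p := by linarith
  have hp1 : 1 ≤ p := by linarith
  have hnR : (30 : ℝ) ≤ n := by exact_mod_cast hn30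
  have hSpos : 0 < S := by
    have h3 : 0 < p ^ (2 * n ^ 3 / 27 : ℕ) := pow_pos hp0 _
    have h4 : 0 < p ^ (n ^ 2 : ℕ) := pow_pos hp0 _
    by_contra h
    have h := not_lt.1 h
    have := mul_nonpos_of_nonneg_of_nonpos h4.le h
    linarith
  -- second part
  have hA : B2 * p ^ (n ^ 2 / 200 : ℕ) ≤ S / 2 := by
    have h5 : (6 : ℝ) ≤ p ^ (n ^ 2 / 200 : ℕ) := by
      have h6 : 3 ≤ n ^ 2 / 200 := by
        rw [Nat.le_div_iff_mul_le (by norm_num)]
        nlinarith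
      calc (6 : ℝ) ≤ 2 ^ 3 := by norm_num
        _ ≤ p ^ 3 := pow_le_pow_left₀ (by norm_num) hp 3
        _ ≤ p ^ (n ^ 2 / 200 : ℕ) := pow_le_pow_right₀ hp1 h6
    have h7 : p ^ (n ^ 2 / 200 : ℕ) * p ^ (n ^ 2 / 200 : ℕ) ≤ p ^ (n ^ 2 / 100 : ℕ) := by
      rw [← pow_add]
      exact pow_le_pow_right₀ hp1 (by omega)
    rcases le_or_gt B2 0 with hB | hB
    · have := mul_nonpos_of_nonpos_of_nonneg hB (pow_pos hp0 (n ^ 2 / 200)).le
      linarith
    · have h8 : B2 * (p ^ (n ^ 2 / 200 : ℕ) * p ^ (n ^ 2 / 200 : ℕ)) ≤ 3 * S :=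
        le_trans (mul_le_mul_of_nonneg_left h7 hB.le) h2
      have h9 : 0 < p ^ (n ^ 2 / 200 : ℕ) := pow_pos hp0 _
      nlinarith
  -- first part
  have hB : B1 * p ^ (n ^ 2 / 200 : ℕ) ≤ S / 2 := by
    have e1 : (n + 1 : ℝ) * 2 * 2 ≤ p ^ ((n : ℝ) + 2) := by
      have h10 : n + 1 ≤ 2 ^ n := Nat.lt_two_pow_self
      have h11 : ((n : ℝ) + 1) ≤ 2 ^ n := by exact_mod_cast h10
      calc (n + 1 : ℝ) * 2 * 2 ≤ 2 ^ n * 2 * 2 := by nlinarith
        _ = 2 ^ (n + 2) := by ring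
        _ ≤ p ^ (n + 2) := pow_le_pow_left₀ (by norm_num) hp _
        _ = p ^ ((n : ℝ) + 2) := by rw [← Real.rpow_natCast p (n + 2)]; push_cast; rfl
    have e2 : p ^ (n ^ 2 / 200 : ℕ) ≤ p ^ ((n : ℝ) ^ 2) := by
      rw [← Real.rpow_natCast p (n ^ 2 / 200)]
      apply Real.rpow_le_rpow_of_exponent_le hp1
      have : ((n ^ 2 / 200 : ℕ) : ℝ) ≤ ((n ^ 2 : ℕ) : ℝ) := by
        exact_mod_cast Nat.div_le_self _ _
      push_cast at this ⊢
      exact this
    have e3 : p ^ ((2 : ℝ) * n ^ 3 / 27 - 1) ≤ p ^ (2 * n ^ 3 / 27 : ℕ) := by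
      rw [← Real.rpow_natCast p (2 * n ^ 3 / 27)]
      apply Real.rpow_le_rpow_of_exponent_le hp1
      have h12 : 2 * n ^ 3 < 27 * (2 * n ^ 3 / 27 + 1) := by
        have := Nat.lt_div_mul_add (a := 2 * n ^ 3) (b := 27) (by norm_num)
        omega
      have h13 : ((2 * n ^ 3 : ℕ) : ℝ) < ((27 * (2 * n ^ 3 / 27 + 1) : ℕ) : ℝ) := by
        exact_mod_cast h12
      push_cast at h13 ⊢
      linarith
    have e4 : p ^ ((n : ℝ) ^ 2) = p ^ (n ^ 2 : ℕ) := by
      rw [← Real.rpow_natCast p (n ^ 2)]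
      push_cast
      rfl
    have e5 : p ^ ((2 : ℝ) * n ^ 3 / 27 - 1 - n ^ 2) ≤ S := by
      rw [Real.rpow_sub hp0, div_le_iff₀ (Real.rpow_pos_of_pos hp0 _), e4]
      linarith
    have e6 : ((n : ℝ) + 2) + ((2 / 27 - c) * (n : ℝ) ^ 3 + (n : ℝ) ^ 2) ≤
        (2 : ℝ) * n ^ 3 / 27 - 1 - n ^ 2 := by
      have h14 : 7 ≤ c * n := by
        have h15 : 7 / c ≤ n := le_trans hn1 (by exact_mod_cast hnn1)
        rw [div_le_iff₀ hc] at h15
        linarith
      have h16 : 7 * (n : ℝ) ^ 2 ≤ c * n * n ^ 2 := mul_le_mul_of_nonneg_right h14 (by positivity)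
      nlinarith
    have e7 : p ^ ((n : ℝ) + 2) * (p ^ ((2 / 27 - c) * (n : ℝ) ^ 3) * p ^ ((n : ℝ) ^ 2)) ≤ S := by
      rw [← Real.rpow_add hp0, ← Real.rpow_add hp0]
      exact le_trans (Real.rpow_le_rpow_of_exponent_le hp1 e6) e5
    have e8 : 0 < p ^ ((2 / 27 - c) * (n : ℝ) ^ 3) := Real.rpow_pos_of_pos hp0 _
    have e9 : 0 < p ^ ((n : ℝ) ^ 2) := Real.rpow_pos_of_pos hp0 _
    have e10 : 0 < p ^ (n ^ 2 / 200 : ℕ) := pow_pos hp0 _
    calc B1 * p ^ (n ^ 2 / 200 : ℕ)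
        ≤ ((n + 1) * 2 * p ^ ((2 / 27 - c) * (n : ℝ) ^ 3)) * p ^ (n ^ 2 / 200 : ℕ) :=
          mul_le_mul_of_nonneg_right h1 e10.le
      _ ≤ ((n + 1) * 2 * p ^ ((2 / 27 - c) * (n : ℝ) ^ 3)) * p ^ ((n : ℝ) ^ 2) :=
          mul_le_mul_of_nonneg_left e2 (by positivity)
      _ = ((n + 1) * 2 * 2) * (p ^ ((2 / 27 - c) * (n : ℝ) ^ 3) * p ^ ((n : ℝ) ^ 2)) / 2 := by ring
      _ ≤ (p ^ ((n : ℝ) + 2) * (p ^ ((2 / 27 - c) * (n : ℝ) ^ 3) * p ^ ((n : ℝ) ^ 2))) / 2 := by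
          have := mul_le_mul_of_nonneg_right e1 (mul_pos e8 e9).le
          linarith
      _ ≤ S / 2 := by linarith
  linarith

theorem gen_of (d : ℕ) : gen (fun i : Fin d => (FreeGroup.of i : FG d)) = ⊤ := by
  unfold gen
  exact FreeGroup.closure_range_of (Fin d)

/-- the bad classes for one `d` in the main range -/
theorem near_bad (hCLS : SpecCLS) (p d n : ℕ) (hp : p.Prime) :
    (ncl (X p d n \ Good p d n) : ℝ) ≤
      ({R | R ∈ Marked p n (FG d) ∧ ¬ NonDeg 1000 n R}.ncard : ℝ) +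
      ((ncl {R | R ∈ ND0 p d n ∧ ∃ R' ∈ {Q : Subgroup (FG d) | ∃ u ≥ 3, Q ∈ NSp p d n u},
          R' ∈ ND0 p d n ∧ Rel R' R} : ℝ) +
        ((ncl {R | R ∈ ND12 p d n ∧ ImA p (R ⊔ Psi p (FG d)) ⊆ {1}} : ℝ) +
          (ncl {R | R ∈ ND12 p d n ∧ ¬ ImA p (R ⊔ Psi p (FG d)) ⊆ {1}} : ℝ))) := by
  obtain ⟨c1, -, c3, c4, -⟩ := hCLS p d n hp
  set A0 : Set (Subgroup (FG d)) := {R | R ∈ Marked p n (FG d) ∧ ¬ NonDeg 1000 n R} with hA0
  set A1 : Set (Subgroup (FG d)) := {R | R ∈ ND0 p d n ∧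
    ∃ R' ∈ {Q : Subgroup (FG d) | ∃ u ≥ 3, Q ∈ NSp p d n u}, R' ∈ ND0 p d n ∧ Rel R' R} with hA1
  set A2 : Set (Subgroup (FG d)) :=
    {R | R ∈ ND12 p d n ∧ ImA p (R ⊔ Psi p (FG d)) ⊆ {1}} with hA2
  set A3 : Set (Subgroup (FG d)) :=
    {R | R ∈ ND12 p d n ∧ ¬ ImA p (R ⊔ Psi p (FG d)) ⊆ {1}} with hA3
  have x0 : A0 ⊆ X p d n := fun R h => h.1
  have x1 : A1 ⊆ X p d n := fun R h => h.1.1
  have x2 : A2 ⊆ X p d n := fun R h => h.1.1.1
  have x3 : A3 ⊆ X p d n := fun R h => h.1.1.1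
  have hcov : X p d n \ Good p d n ⊆ A0 ∪ (A1 ∪ (A2 ∪ A3)) := by
    rintro R ⟨hX, hG⟩
    by_cases h0 : NonDeg 1000 n R
    · right
      have hND : R ∈ ND0 p d n := ⟨hX, h0, fun h => hG ⟨hX, h⟩⟩
      by_cases h1 : ∃ R' ∈ {Q : Subgroup (FG d) | ∃ u ≥ 3, Q ∈ NSp p d n u},
          R' ∈ ND0 p d n ∧ Rel R' R
      · left
        exact ⟨hND, h1⟩
      · right
        by_cases h2 : ImA p (R ⊔ Psi p (FG d)) ⊆ {1}
        · left
          exact ⟨⟨hND, h1⟩, h2⟩
        · right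
          exact ⟨⟨hND, h1⟩, h2⟩
    · left
      exact ⟨hX, h0⟩
  have s23 : A2 ∪ A3 ⊆ X p d n := Set.union_subset x2 x3
  have s123 : A1 ∪ (A2 ∪ A3) ⊆ X p d n := Set.union_subset x1 s23
  have s0 : A0 ∪ (A1 ∪ (A2 ∪ A3)) ⊆ X p d n := Set.union_subset x0 s123
  have e0 := c1 _ _ hcov s0
  have e1 := c3 _ _ s0
  have e2 := c3 _ _ s123
  have e3 := c3 _ _ s23
  have e4 := c4 _ x0
  have : ncl (X p d n \ Good p d n) ≤ A0.ncard + (ncl A1 + (ncl A2 + ncl A3)) := by omega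
  exact_mod_cast this

/-- All classes which are not good groups in the main range are negligible. -/
theorem bad (hCLS : SpecCLS) (hPT3 : SpecPT3) (hPTT : SpecPTT) (hPTN : SpecPTN) (hE7 : SpecE7)
    (hE8 : SpecE8) (hMAX : SpecMAX) (hABP : SpecABP) :
    ∃ n0 : ℕ, ∀ n ≥ n0, ∀ p : ℕ, p.Prime →
      (∑ d ∈ Finset.range (n + 1), (if d ∈ near n then (ncl (X p d n \ Good p d n) : ℝ) else
        (ncl (X p d n) : ℝ))) * (p : ℝ) ^ (n ^ 2 / 200) ≤ ∑ d ∈ near n, mass p d n := by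
  obtain ⟨n3, h3⟩ := hPT3
  obtain ⟨nt, ht⟩ := hPTT
  obtain ⟨nn, hnn⟩ := hPTN
  obtain ⟨c7, n7, c7pos, h7⟩ := hE7 1000 (by norm_num)
  obtain ⟨c8, n8, c8pos, h8⟩ := hE8 (1 / 300) (by norm_num)
  obtain ⟨nm, hm⟩ := hMAX
  obtain ⟨nu, hu⟩ := numeric (min c7 c8) (lt_min c7pos c8pos)
  refine ⟨max n3 (max nt (max nn (max n7 (max n8 (max nm nu))))), fun n hn p hp => ?_⟩
  have : Fact p.Prime := ⟨hp⟩
  simp only [ge_iff_le, max_le_iff] at hn
  obtain ⟨g3, gt, gn, g7, g8, gm, gu⟩ := hn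
  have hp2 : (2 : ℝ) ≤ p := by exact_mod_cast hp.two_le
  have hp0 : (0 : ℝ) < p := by linarith
  have hp1 : (1 : ℝ) ≤ p := by linarith
  have hmass : ∀ d, 0 ≤ mass p d n := fun d => by unfold mass; positivity
  set S := ∑ d ∈ near n, mass p d n with hSdef
  have hS : (p : ℝ) ^ (2 * n ^ 3 / 27) ≤ (p : ℝ) ^ (n ^ 2) * S := by
    obtain ⟨d, hd, hd'⟩ := hm n gm p hp
    refine le_trans hd' (mul_le_mul_of_nonneg_left ?_ (by positivity))
    exact Finset.single_le_sum (f := fun d => mass p d n) (fun i _ => hmass i) hd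
  set W : ℝ := (p : ℝ) ^ ((2 / 27 - min c7 c8) * (n : ℝ) ^ 3) with hW
  have hWpos : 0 < W := Real.rpow_pos_of_pos hp0 _
  have w7 : (p : ℝ) ^ ((2 / 27 - c7) * (n : ℝ) ^ 3) ≤ W := by
    apply Real.rpow_le_rpow_of_exponent_le hp1
    apply mul_le_mul_of_nonneg_right _ (by positivity)
    have := min_le_left c7 c8
    linarith
  have w8 : (p : ℝ) ^ ((2 / 27 - c8) * (n : ℝ) ^ 3) ≤ W := by
    apply Real.rpow_le_rpow_of_exponent_le hp1
    apply mul_le_mul_of_nonneg_right _ (by positivity)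
    have := min_le_right c7 c8
    linarith
  -- the terms
  set T : ℕ → ℝ := fun d => if d ∈ near n then (ncl (X p d n \ Good p d n) : ℝ) else
        (ncl (X p d n) : ℝ) with hT
  set B2 : ℝ := ∑ d ∈ near n, 3 * (mass p d n / (p : ℝ) ^ (n ^ 2 / 100)) with hB2
  have hterm : ∀ d ∈ Finset.range (n + 1), T d ≤ 2 * W +
      (if d ∈ near n then 3 * (mass p d n / (p : ℝ) ^ (n ^ 2 / 100)) else 0) := by
    intro d hd
    have hidx := (hABP p d hp).2.2.2.2.2
    by_cases hdn : d ∈ near n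
    · simp only [hT, hdn, if_true]
      have a0 := near_bad hCLS p d n hp
      have a1 := (h7 n g7 p (FG d) d (fun i => FreeGroup.of i) (gen_of d) hidx).2
      have b1 := h3 n g3 p hp d hdn
      have b2 := ht n gt p hp d hdn
      have b3 := hnn n gn p hp d hdn
      have hpp : (0 : ℝ) < (p : ℝ) ^ (n ^ 2 / 100) := by positivity
      rw [← le_div_iff₀ hpp] at b1 b2 b3
      linarith
    · simp only [hT, hdn, if_false, add_zero]
      have hfar : (1 / 300 : ℝ) * n ≤ |(d : ℝ) - 2 / 3 * n| := by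
        have hd1 : d < n + 1 := Finset.mem_range.1 hd
        have hnot : ¬ (300 * d ≤ 201 * n ∧ 199 * n ≤ 300 * d) := by
          intro hh
          apply hdn
          unfold near
          rw [Finset.mem_filter]
          exact ⟨hd, hh⟩
        rw [not_and_or, not_le, not_le] at hnot
        rcases hnot with h | h
        · have h' : (201 * n : ℝ) < 300 * d := by exact_mod_cast h
          rw [le_abs]
          left
          linarith
        · have h' : (300 * d : ℝ) < 199 * n := by exact_mod_cast h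
          rw [le_abs]
          right
          linarith
      have a1 := (h8 n g8 p (FG d) d (fun i => FreeGroup.of i) (gen_of d) hidx hfar).2
      have a2 : (ncl (X p d n) : ℝ) ≤ ((X p d n).ncard : ℝ) := by
        exact_mod_cast (hCLS p d n hp).2.2.2.1 _ (le_refl _)
      have a3 : ((X p d n).ncard : ℝ) ≤ (p : ℝ) ^ ((2 / 27 - c8) * (n : ℝ) ^ 3) := a1
      linarith
  have hsum : ∑ d ∈ Finset.range (n + 1), T d ≤ (n + 1) * 2 * W + B2 := by
    calc ∑ d ∈ Finset.range (n + 1), T d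
        ≤ ∑ d ∈ Finset.range (n + 1), (2 * W +
          (if d ∈ near n then 3 * (mass p d n / (p : ℝ) ^ (n ^ 2 / 100)) else 0)) :=
          Finset.sum_le_sum hterm
      _ = (n + 1) * 2 * W + B2 := by
          rw [Finset.sum_add_distrib, Finset.sum_const, Finset.card_range, ← Finset.sum_filter]
          have : (Finset.range (n + 1)).filter (fun d => d ∈ near n) = near n := by
            ext d
            simp only [Finset.mem_filter, near]
            tauto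
          rw [this, nsmul_eq_mul]
          push_cast
          ring
  have hB2' : B2 * (p : ℝ) ^ (n ^ 2 / 100) ≤ 3 * S := by
    have hpp : (0 : ℝ) < (p : ℝ) ^ (n ^ 2 / 100) := by positivity
    rw [hB2, hSdef, Finset.sum_mul, Finset.mul_sum]
    apply Finset.sum_le_sum
    intro d _
    rw [mul_assoc, div_mul_cancel₀ _ hpp.ne']
  have hfin := hu n gu (p : ℝ) hp2 S ((n + 1) * 2 * W) B2 hS (le_refl _) hB2'
  refine le_trans (mul_le_mul_of_nonneg_right hsum (by positivity)) hfin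

/-- The main bound in the sharp form. -/
theorem sharp (hDEC : SpecDEC) (hCLS : SpecCLS) (hEQV : SpecEQV) (hPT3 : SpecPT3) (hPTT : SpecPTT)
    (hPTN : SpecPTN) (hMGD : SpecMGD) (hE7 : SpecE7)
    (hE8 : SpecE8) (hMAX : SpecMAX) (hABP : SpecABP) :
    ∃ n0 : ℕ, ∀ n ≥ n0, ∀ p : ℕ, p.Prime →
      (numGroups (p ^ n) : ℝ) ≤ (1 + 2 / (p : ℝ) ^ (n ^ 2 / 200)) * ∑ d ∈ near n, mass p d n := by
  obtain ⟨nb, hb⟩ := bad hCLS hPT3 hPTT hPTN hE7 hE8 hMAX hABP
  obtain ⟨ng, hg⟩ := hMGD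
  refine ⟨max nb ng, fun n hn p hp => ?_⟩
  simp only [ge_iff_le, max_le_iff] at hn
  obtain ⟨gb', gg⟩ := hn
  have hp2 : (2 : ℝ) ≤ p := by exact_mod_cast hp.two_le
  have hp0 : (0 : ℝ) < p := by linarith
  have hp1 : (1 : ℝ) ≤ p := by linarith
  have hmass : ∀ d, 0 ≤ mass p d n := fun d => by unfold mass; positivity
  have hbad := hb n gb' p hp
  have hpp : (0 : ℝ) < (p : ℝ) ^ (n ^ 2 / 200) := by positivity
  rw [← le_div_iff₀ hpp] at hbad
  rw [hDEC p n hp]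
  push_cast
  have hsplit : ∀ d ∈ Finset.range (n + 1), (ncl (X p d n) : ℝ) =
      (if d ∈ near n then (ncl (X p d n \ Good p d n) : ℝ) else (ncl (X p d n) : ℝ)) +
      (if d ∈ near n then (ncl (Good p d n) : ℝ) else 0) := by
    intro d _
    by_cases hd : d ∈ near n
    · simp only [hd, if_true]
      have h1 := (hCLS p d n hp).2.1 (Good p d n) (X p d n) (fun R h => h.1) (le_refl _)
        (fun R hR R' hR' hrel => (hEQV p d n hp).2.2.2.1 R hR R' hR' hrel)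
      rw [h1]
      push_cast
      ring
    · simp [hd]
  rw [Finset.sum_congr rfl hsplit, Finset.sum_add_distrib, ← Finset.sum_filter]
  have hflt : (Finset.range (n + 1)).filter (fun d => d ∈ near n) = near n := by
    ext d
    simp only [Finset.mem_filter, near]
    tauto
  rw [hflt]
  have hgood : ∑ d ∈ near n, (ncl (Good p d n) : ℝ) ≤
      (1 + 1 / (p : ℝ) ^ (n ^ 2 / 200)) * ∑ d ∈ near n, mass p d n := by
    rw [Finset.mul_sum]
    apply Finset.sum_le_sum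
    intro d hd
    refine le_trans (hg n gg p hp d hd) (mul_le_mul_of_nonneg_right ?_ (hmass d))
    have h2 : (p : ℝ) ^ (n ^ 2 / 200) ≤ (p : ℝ) ^ (n ^ 2 / 20) :=
      pow_le_pow_right₀ hp1 (Nat.div_le_div_left (by norm_num) (by norm_num))
    have h3 : 1 / (p : ℝ) ^ (n ^ 2 / 20) ≤ 1 / (p : ℝ) ^ (n ^ 2 / 200) :=
      one_div_le_one_div_of_le hpp h2
    linarith
  have hfin : (∑ d ∈ near n, mass p d n) / (p : ℝ) ^ (n ^ 2 / 200) =
      1 / (p : ℝ) ^ (n ^ 2 / 200) * ∑ d ∈ near n, mass p d n := by ring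
  rw [hfin] at hbad
  have h4 : (1 + 2 / (p : ℝ) ^ (n ^ 2 / 200)) * ∑ d ∈ near n, mass p d n =
      1 / (p : ℝ) ^ (n ^ 2 / 200) * ∑ d ∈ near n, mass p d n +
      (1 + 1 / (p : ℝ) ^ (n ^ 2 / 200)) * ∑ d ∈ near n, mass p d n := by ring
  rw [h4]
  exact add_le_add hbad hgood

end MUPM

theorem specMUP (hDEC : SpecDEC) (hCLS : SpecCLS) (hEQV : SpecEQV) (hPT3 : SpecPT3)
    (hPTT : SpecPTT) (hPTN : SpecPTN) (hMGD : SpecMGD) (hE7 : SpecE7)
    (hE8 : SpecE8) (hMAX : SpecMAX) (hABP : SpecABP) : SpecMUP := by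
  obtain ⟨n0, h0⟩ := MUPM.sharp hDEC hCLS hEQV hPT3 hPTT hPTN hMGD hE7 hE8 hMAX hABP
  refine ⟨max n0 30, fun n hn p hp => ?_⟩
  simp only [ge_iff_le, max_le_iff] at hn
  obtain ⟨g0, g30⟩ := hn
  have hp2 : (2 : ℝ) ≤ p := by exact_mod_cast hp.two_le
  have hp0 : (0 : ℝ) < p := by linarith
  have hp1 : (1 : ℝ) ≤ p := by linarith
  have hmass : ∀ d, 0 ≤ mass p d n := fun d => by unfold mass; positivity
  refine le_trans (h0 n g0 p hp) (mul_le_mul_of_nonneg_right ?_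
    (Finset.sum_nonneg fun d _ => hmass d))
  have h6 : 3 ≤ n ^ 2 / 200 := by
    rw [Nat.le_div_iff_mul_le (by norm_num)]
    nlinarith
  have h1 : 2 * (p : ℝ) ^ 2 ≤ (p : ℝ) ^ (n ^ 2 / 200) := by
    calc 2 * (p : ℝ) ^ 2 ≤ (p : ℝ) ^ 3 := by nlinarith [sq_nonneg (p : ℝ)]
      _ ≤ _ := pow_le_pow_right₀ hp1 h6
  have h2 : 2 / (p : ℝ) ^ (n ^ 2 / 200) ≤ 1 / (p : ℝ) ^ 2 := by
    rw [div_le_div_iff₀ (by positivity) (by positivity)]
    linarith
  linarith

end Pool.Agent.Lib.MP4ccb00.N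
end

section
set_option autoImplicit false

namespace Pool.Agent.Lib.MP4ccb00

open Subgroup Module E N

theorem specALM (hDCB : SpecDCB) (hLBD : SpecLBD) (hCLS : SpecCLS) (hPT3 : SpecPT3)
    (hPTT : SpecPTT) (hPTN : SpecPTN) (hE7 : SpecE7) (hE8 : SpecE8) (hMAX : SpecMAX)
    (hABP : SpecABP) : SpecALM := by
  obtain ⟨n0, h0⟩ := MUPM.bad hCLS hPT3 hPTT hPTN hE7 hE8 hMAX hABP
  refine ⟨n0, fun n hn p hp => ?_⟩
  have hmass : ∀ d, 0 ≤ mass p d n := fun d => by unfold mass; positivity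
  have h1 := h0 n hn p hp
  have h2 := hDCB p n hp
  have h3 := hLBD p n hp
  have hpp : (0 : ℝ) < (p : ℝ) ^ (n ^ 2 / 200) := by
    have : (0 : ℝ) < p := by exact_mod_cast hp.pos
    positivity
  have h4 : (numBad p n : ℝ) ≤ ∑ d ∈ Finset.range (n + 1),
      (if d ∈ near n then (ncl (X p d n \ Good p d n) : ℝ) else (ncl (X p d n) : ℝ)) := by
    refine le_trans (Nat.cast_le.2 h2) ?_
    push_cast
    apply Finset.sum_le_sum
    intro d _
    by_cases hd : d ∈ near n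
    · simp [hd]
    · simp only [hd, if_false]
      have hc := (hCLS p d n hp).1 (X p d n \ Good p d n) (X p d n) (fun R h => h.1) (le_refl _)
      exact_mod_cast hc
  have h5 : ∑ d ∈ near n, mass p d n ≤ ∑ d ∈ Finset.range (n + 1), mass p d n :=
    Finset.sum_le_sum_of_subset_of_nonneg (Finset.filter_subset _ _) (fun d _ _ => hmass d)
  have h6 : (numBad p n : ℝ) * (p : ℝ) ^ (n ^ 2 / 200) ≤ (numGroups (p ^ n) : ℝ) :=
    le_trans (le_trans (mul_le_mul_of_nonneg_right h4 hpp.le) h1) (le_trans h5 h3)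
  exact_mod_cast h6

end Pool.Agent.Lib.MP4ccb00
end

section
/-!
# MP_4ccb00_al, part (d), module DED: passage from `F` to `S`
-/
set_option autoImplicit false

namespace Pool.Agent.Lib.MP4ccb00.N

open Subgroup Module E

open scoped commutatorElement

namespace DEDM

theorem mem_Cz {F : Type} [Group F] {S R : Subgroup F} (hR : R.Normal) {w : F} :
    w ∈ Cz S R ↔ w ∈ ⁅(⊤ : Subgroup F), (⊤ : Subgroup F)⁆ ⊔ R ∧ ∀ y ∈ S, w * y * w⁻¹ * y⁻¹ ∈ R := by
  have h : R.normalCore = R := Subgroup.normalCore_eq_self R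
  change (w ∈ ⁅(⊤ : Subgroup F), (⊤ : Subgroup F)⁆ ⊔ R ∧ ∀ y ∈ S, w * y * w⁻¹ * y⁻¹ ∈ R.normalCore) ↔ _
  rw [h]

/-- the modular law -/
theorem eq_sup {F : Type} [Group F] {S K L : Subgroup F} (hK : K.Normal) (hKL : K ≤ L)
    (hL : L ≤ S ⊔ K) : L = (L ⊓ S) ⊔ K := by
  apply le_antisymm
  · intro x hx
    obtain ⟨s, hs, k, hk, rfl⟩ := Subgroup.mem_sup_of_normal_right.1 (hL hx)
    have h1 : s ∈ L := by
      have := mul_mem hx (inv_mem (hKL hk))
      simpa using this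
    exact Subgroup.mul_mem_sup ⟨h1, hs⟩ hk
  · exact sup_le inf_le_left hKL

theorem rel {F : Type} [Group F] {S K L : Subgroup F} (hK : K.Normal) (hKL : K ≤ L)
    (hL : L ≤ S ⊔ K) : (K.subgroupOf S).relIndex (L.subgroupOf S) = K.relIndex L := by
  have h1 : L.subgroupOf S = (L ⊓ S).subgroupOf S := (Subgroup.inf_subgroupOf_right L S).symm
  rw [h1, Subgroup.relIndex_subgroupOf inf_le_right]
  conv_rhs => rw [eq_sup hK hKL hL]
  rw [Subgroup.relIndex_sup_right]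

theorem rel_dvd {F : Type} [Group F] {N A B : Subgroup F} (hN : N.Normal) (hAB : A ≤ B) :
    N.relIndex A ∣ N.relIndex B := by
  rw [← Subgroup.relIndex_subgroupOf (H := N) hAB]
  exact Subgroup.relIndex_dvd_index_of_normal _ _

theorem comm_le_self {F : Type} [Group F] (S : Subgroup F) : ⁅S, S⁆ ≤ S := by
  rw [Subgroup.commutator_le]
  intro a ha b hb
  rw [commutatorElement_def]
  exact mul_mem (mul_mem (mul_mem ha hb) (inv_mem ha)) (inv_mem hb)

end DEDM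

open DEDM in
theorem specDED : SpecDED := by
  intro p _ F _ S R R₁ hR hR₁ _ hRR₁ _ hspl
  have hD : ⁅(⊤ : Subgroup F), (⊤ : Subgroup F)⁆ ≤ S ⊔ R :=
    hspl.trans (sup_le_sup_right (comm_le_self S) R)
  have hDR : ⁅(⊤ : Subgroup F), (⊤ : Subgroup F)⁆ ⊔ R ≤ S ⊔ R := sup_le hD le_sup_right
  have hDn : (⁅(⊤ : Subgroup F), (⊤ : Subgroup F)⁆ ⊔ R).Normal := Subgroup.sup_normal _ _
  have hRC : R ≤ Cz S R := by
    intro r hr
    rw [mem_Cz hR]
    refine ⟨Subgroup.mem_sup_right hr, fun y _ => ?_⟩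
    have h1 : r * y * r⁻¹ * y⁻¹ = r * (y * r⁻¹ * y⁻¹) := by group
    rw [h1]
    exact mul_mem hr (hR.conj_mem _ (inv_mem hr) y)
  have hCD : Cz S R ≤ ⁅(⊤ : Subgroup F), (⊤ : Subgroup F)⁆ ⊔ R := fun w hw => hw.1
  have hCn : (Cz S R).Normal := by
    constructor
    intro w hw g
    rw [mem_Cz hR] at hw ⊢
    refine ⟨hDn.conj_mem _ hw.1 g, fun y hy => ?_⟩
    have h1 : g⁻¹ * y * g ∈ S ⊔ R := by
      have h2 : g⁻¹ * y * g = y * ⁅y⁻¹, g⁻¹⁆ := by
        rw [commutatorElement_def]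
        group
      rw [h2]
      exact mul_mem (Subgroup.mem_sup_left hy)
        (hD (Subgroup.commutator_mem_commutator (Subgroup.mem_top _) (Subgroup.mem_top _)))
    obtain ⟨y', hy', r, hr, hyr⟩ := Subgroup.mem_sup_of_normal_right.1 h1
    have h3 : g * w * g⁻¹ * y * (g * w * g⁻¹)⁻¹ * y⁻¹ =
        g * (w * (g⁻¹ * y * g) * w⁻¹ * (g⁻¹ * y * g)⁻¹) * g⁻¹ := by group
    rw [h3]
    refine hR.conj_mem _ ?_ g
    rw [← hyr]
    have h4 : w * (y' * r) * w⁻¹ * (y' * r)⁻¹ =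
        (w * y' * w⁻¹ * y'⁻¹) * (y' * (w * r * w⁻¹ * r⁻¹) * y'⁻¹) := by group
    rw [h4]
    exact mul_mem (hw.2 y' hy') (hR.conj_mem _ (mul_mem (hR.conj_mem _ hr w) (inv_mem hr)) y')
  refine ⟨hCn, hRC, hCD, ?_, ?_, ?_, ?_, ?_⟩
  · rw [Subgroup.commutator_le]
    intro a ha y _
    rw [Subgroup.mem_subgroupOf] at ha ⊢
    rw [mem_Cz hR] at ha
    exact ha.2 (y : F) y.2
  · exact rel hR (le_inf hRC hRR₁) (inf_le_left.trans (hCD.trans hDR))
  · exact rel hCn hCD (hDR.trans (sup_le_sup_left hRC S))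
  · apply le_antisymm
    · intro s hs
      rw [Subgroup.mem_subgroupOf] at hs
      have h1 : (s : F) ∈ ⁅S, S⁆ ⊔ R := sup_le hspl le_sup_right hs
      obtain ⟨c, hc, r, hr, hcr⟩ := Subgroup.mem_sup_of_normal_right.1 h1
      rw [← Subgroup.map_subtype_commutator] at hc
      obtain ⟨c', hc', rfl⟩ := hc
      have h2 : s = c' * (c'⁻¹ * s) := by group
      rw [h2]
      refine Subgroup.mul_mem_sup hc' ?_
      rw [Subgroup.mem_subgroupOf]
      have h3 : ((c'⁻¹ * s : S) : F) = r := by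
        change (c' : F)⁻¹ * (s : F) = r
        rw [← hcr]
        change (c' : F)⁻¹ * ((c' : F) * r) = r
        group
      rw [h3]
      exact hr
    · rw [sup_le_iff]
      constructor
      · rw [Subgroup.commutator_le]
        intro a _ b _
        rw [Subgroup.mem_subgroupOf]
        exact Subgroup.mem_sup_left
          (Subgroup.commutator_mem_commutator (Subgroup.mem_top _) (Subgroup.mem_top _))
      · intro r hr
        rw [Subgroup.mem_subgroupOf] at hr ⊢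
        exact Subgroup.mem_sup_right hr
  · have h1 : (PhiP p ⊤ : Subgroup F).subgroupOf S = ((PhiP p ⊤ : Subgroup F) ⊓ S).subgroupOf S :=
      (Subgroup.inf_subgroupOf_right _ S).symm
    rw [h1, Subgroup.relIndex_subgroupOf inf_le_right]
    exact rel_dvd hDn inf_le_left

end Pool.Agent.Lib.MP4ccb00.N
end

section
/-!
# MP_4ccb00_al, part N, module DET: `R` is determined by the data
-/
set_option autoImplicit false

namespace Pool.Agent.Lib.MP4ccb00.N

open Subgroup Module E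

open scoped commutatorElement

namespace DETM

variable {F : Type} [Group F]

/-- if all pairs of generators commute modulo a normal subgroup, it contains the derived group -/
theorem comm_le (N : Subgroup F) (hN : N.Normal) (X : Set F) (hX : Subgroup.closure X = ⊤)
    (h : ∀ a ∈ X, ∀ b ∈ X, ⁅a, b⁆ ∈ N) : ⁅(⊤ : Subgroup F), (⊤ : Subgroup F)⁆ ≤ N := by
  have key : ∀ a b : F, ⁅a, b⁆ ∈ N ↔
      (QuotientGroup.mk' N a) * (QuotientGroup.mk' N b) =
        (QuotientGroup.mk' N b) * (QuotientGroup.mk' N a) := by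
    intro a b
    rw [← QuotientGroup.eq_one_iff, ← QuotientGroup.mk'_apply, map_commutatorElement,
      commutatorElement_eq_one_iff_mul_comm]
  -- step 1
  have h1 : ∀ a ∈ X, ∀ g : F, ⁅a, g⁆ ∈ N := by
    intro a ha g
    have hg : g ∈ Subgroup.closure X := by rw [hX]; trivial
    rw [key]
    induction hg using Subgroup.closure_induction with
    | mem x hx => exact (key a x).1 (h a ha x hx)
    | one => simp
    | mul x y _ _ hx hy =>
      rw [map_mul, ← mul_assoc, hx, mul_assoc, hy, mul_assoc]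
    | inv x _ hx =>
      rw [map_inv]
      exact (Commute.inv_right (a := QuotientGroup.mk' N a) (b := QuotientGroup.mk' N x) hx)
  have h2 : ∀ f g : F, ⁅f, g⁆ ∈ N := by
    intro f g
    have hf : f ∈ Subgroup.closure X := by rw [hX]; trivial
    rw [key]
    induction hf using Subgroup.closure_induction with
    | mem x hx => exact (key x g).1 (h1 x hx g)
    | one => simp
    | mul x y _ _ hx hy =>
      rw [map_mul, mul_assoc, hy, ← mul_assoc, hx, mul_assoc]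
    | inv x _ hx =>
      rw [map_inv]
      exact (Commute.inv_left (a := QuotientGroup.mk' N x) (b := QuotientGroup.mk' N g) hx)
  rw [Subgroup.commutator_le]
  intro f _ g _
  exact h2 f g

theorem one_side (S R R' T : Subgroup F) (hR : R.Normal) (hR' : R'.Normal)
    (hS : R ⊓ S = R' ⊓ S) (hT : T ≤ S ⊔ (R ⊓ R')) (hRT : R ≤ T) : R ≤ R' := by
  intro r hr
  have h1 : r ∈ S ⊔ (R ⊓ R') := hT (hRT hr)
  have hn : (R ⊓ R').Normal := inferInstance
  rw [Subgroup.mem_sup_of_normal_right] at h1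
  obtain ⟨y, hy, q, hq, rfl⟩ := h1
  have h2 : y ∈ R := by
    have := mul_mem hr (inv_mem hq.1)
    simpa using this
  have h3 : y ∈ R' ⊓ S := by
    rw [← hS]
    exact ⟨h2, hy⟩
  exact mul_mem h3.1 hq.2

end DETM

open DETM in
theorem specDET (hACT : SpecACT) : SpecDET := by
  intro p hp F _ s t x z w R R' T hgen hR hR' hm hm' hS hxz hzz hw hT hRT hRT'
  obtain ⟨hact, -⟩ := hACT p F s t x z R R' hgen hR hR' hm hm' hS hxz
  set S₁ : Subgroup F := gen x ⊔ (R ⊓ R') with hS₁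
  have hn : (R ⊓ R').Normal := inferInstance
  have hS₁n : S₁.Normal := by
    constructor
    intro n hn' g
    have hle : S₁ ≤ S₁.comap (MulAut.conj g).toMonoidHom := by
      rw [hS₁, sup_le_iff]
      constructor
      · intro y hy
        rw [Subgroup.mem_comap]
        exact hact g y hy
      · intro y hy
        rw [Subgroup.mem_comap]
        exact Subgroup.mem_sup_right (hn.conj_mem y hy g)
    exact hle hn'
  have hxS : ∀ l, x l ∈ S₁ := fun l =>
    Subgroup.mem_sup_left (Subgroup.subset_closure ⟨l, rfl⟩)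
  have hlift : ∀ v : F, (∃ u ∈ gen x, u⁻¹ * v ∈ R ⊓ R') → v ∈ S₁ := by
    rintro v ⟨u, hu, huv⟩
    have : v = u * (u⁻¹ * v) := by group
    rw [this]
    exact Subgroup.mul_mem_sup hu huv
  have hD : ⁅(⊤ : Subgroup F), (⊤ : Subgroup F)⁆ ≤ S₁ := by
    refine comm_le S₁ hS₁n (Set.range x ∪ Set.range z) ?_ ?_
    · rw [Subgroup.closure_union]
      exact hgen
    · have hleft : ∀ a ∈ S₁, ∀ b : F, ⁅a, b⁆ ∈ S₁ := by
        intro a ha b
        rw [commutatorElement_def, mul_assoc, mul_assoc, ← mul_assoc b]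
        exact mul_mem ha (hS₁n.conj_mem _ (inv_mem ha) b)
      have hright : ∀ a ∈ S₁, ∀ b : F, ⁅b, a⁆ ∈ S₁ := by
        intro a ha b
        rw [commutatorElement_def]
        exact mul_mem (hS₁n.conj_mem _ ha b) (inv_mem ha)
      rintro a (⟨l, rfl⟩ | ⟨i, rfl⟩) b hb
      · exact hleft _ (hxS l) b
      · rcases hb with ⟨l, rfl⟩ | ⟨j, rfl⟩
        · exact hright _ (hxS l) _
        · rcases lt_trichotomy i j with h | h | h
          · exact hlift _ (hzz i j h)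
          · subst h
            rw [commutatorElement_self]
            exact one_mem _
          · rw [← commutatorElement_inv]
            exact inv_mem (hlift _ (hzz j i h))
  have hTle : T ≤ gen x ⊔ (R ⊓ R') := by
    have h1 : gen x ⊔ T ≤ S₁ := by
      rw [← hT]
      refine sup_le (sup_le le_sup_left hD) ?_
      unfold gen
      rw [Subgroup.closure_le]
      rintro _ ⟨j, rfl⟩
      exact hlift _ (hw j)
    exact le_sup_right.trans h1
  refine le_antisymm ?_ ?_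
  · exact one_side (gen x) R R' T hR hR' hS hTle hRT
  · refine one_side (gen x) R' R T hR' hR hS.symm ?_ hRT'
    rw [inf_comm]
    exact hTle

end Pool.Agent.Lib.MP4ccb00.N
end

section
/-!
Module FBR: the number of special `R` with given `D ⊔ R` and `R ⊓ S`.
-/
set_option autoImplicit false

namespace Pool.Agent.Lib.MP4ccb00.N

open Subgroup Module E

open scoped commutatorElement

namespace FBRM

/-- the number of left cosets of `Rs` in `u₀ B` -/
theorem coset_count {F : Type} [Group F] (Rs B : Subgroup F) (hB : Rs.relIndex B ≠ 0) (u₀ : F) :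
    {q : F ⧸ Rs | ∃ b ∈ B, q = ((u₀ * b : F) : F ⧸ Rs)}.Finite ∧
      {q : F ⧸ Rs | ∃ b ∈ B, q = ((u₀ * b : F) : F ⧸ Rs)}.ncard ≤ Rs.relIndex B := by
  have hfin : Finite (↥B ⧸ Rs.subgroupOf B) := Nat.finite_of_card_ne_zero hB
  let ψ : (↥B ⧸ Rs.subgroupOf B) → F ⧸ Rs :=
    Quotient.lift (fun b : ↥B => ((u₀ * b.1 : F) : F ⧸ Rs)) (by
      intro b b' h
      have h1 : b⁻¹ * b' ∈ Rs.subgroupOf B := QuotientGroup.leftRel_apply.1 h
      have h2 : b.1⁻¹ * b'.1 ∈ Rs := h1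
      show ((u₀ * b.1 : F) : F ⧸ Rs) = ((u₀ * b'.1 : F) : F ⧸ Rs)
      rw [QuotientGroup.eq]
      have h3 : (u₀ * b.1)⁻¹ * (u₀ * b'.1) = b.1⁻¹ * b'.1 := by group
      rw [h3]
      exact h2)
  have hset : {q : F ⧸ Rs | ∃ b ∈ B, q = ((u₀ * b : F) : F ⧸ Rs)} = ψ '' Set.univ := by
    ext q
    constructor
    · rintro ⟨b, hb, rfl⟩
      exact ⟨((⟨b, hb⟩ : ↥B) : ↥B ⧸ Rs.subgroupOf B), Set.mem_univ _, rfl⟩
    · rintro ⟨c, -, rfl⟩
      induction c using QuotientGroup.induction_on with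
      | H b => exact ⟨b.1, b.2, rfl⟩
  rw [hset]
  refine ⟨Set.finite_univ.image _, (Set.ncard_image_le Set.finite_univ).trans ?_⟩
  rw [Set.ncard_univ]
  exact le_rfl

/-- functions with values in given finite sets -/
theorem pi_count {ι Λ : Type} [Fintype ι] (C : ι → Set Λ) (N : ℕ)
    (hC : ∀ i, (C i).Finite ∧ (C i).ncard ≤ N) :
    {g : ι → Λ | ∀ i, g i ∈ C i}.Finite ∧
      {g : ι → Λ | ∀ i, g i ∈ C i}.ncard ≤ N ^ Fintype.card ι := by
  classical
  have h1 : {g : ι → Λ | ∀ i, g i ∈ C i} =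
      ↑(Fintype.piFinset fun i => (hC i).1.toFinset) := by
    ext g
    simp
  rw [h1]
  refine ⟨Finset.finite_toSet _, ?_⟩
  rw [Set.ncard_coe_finset, Fintype.card_piFinset]
  calc ∏ i, (hC i).1.toFinset.card ≤ ∏ _i : ι, N :=
        Finset.prod_le_prod' fun i _ => by
          rw [← Set.ncard_eq_toFinset_card _ (hC i).1]
          exact (hC i).2
    _ = N ^ Fintype.card ι := by rw [Finset.prod_const, Finset.card_univ]

theorem relIndex_inf {F : Type} [Group F] (R S B : Subgroup F) (hB : B ≤ S) :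
    (R ⊓ S).relIndex B = R.relIndex B := by
  have h1 : R ⊓ S ⊓ B = R ⊓ B := by
    rw [inf_assoc, inf_eq_right.2 hB]
  rw [← Subgroup.inf_relIndex_right (R ⊓ S) B, h1, Subgroup.inf_relIndex_right]

/-- the second index set -/
abbrev J (t : ℕ) : Type := Σ j : Fin t, Fin (j.1 + 1)

theorem card_J (t : ℕ) : Fintype.card (J t) = t * (t + 1) / 2 := by
  have h1 : ∀ t : ℕ, (∑ j : Fin t, (j.1 + 1)) * 2 = t * (t + 1) := by
    intro t
    induction t with
    | zero => simp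
    | succ t ih =>
      rw [Fin.sum_univ_castSucc, add_mul]
      simp only [Fin.val_castSucc, Fin.val_last]
      rw [ih]
      ring
  have h2 : Fintype.card (J t) = ∑ j : Fin t, (j.1 + 1) := by
    simp [J, Fintype.card_sigma]
  rw [h2, ← h1, Nat.mul_div_cancel _ (by norm_num)]

/-- the words of the second data -/
def vw {F : Type} [Group F] {t : ℕ} (z w : Fin t → F) (k : J t) : F :=
  if h : k.2.1 < k.1.1 then ⁅z ⟨k.2.1, h.trans k.1.2⟩, z k.1⁆ else w k.1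

end FBRM

open FBRM in
theorem specFBR (hFIB : SpecFIB) (hDET : SpecDET) (hWRD : SpecWRD) : SpecFBR := by
  intro p hfp F _ s t n f π a a₁ x z R₁ T Rs hgen hR₁
  classical
  have hp : p.Prime := hfp.out
  set Z : Set (Subgroup F) := {R : Subgroup F | R ∈ SP p n f π a a₁ (gen x) R₁ ∧
    ⁅(⊤ : Subgroup F), (⊤ : Subgroup F)⁆ ⊔ R = T ∧ R ⊓ gen x = Rs} with hZ
  rcases Z.eq_empty_or_nonempty with hZe | ⟨R₀, hR₀⟩
  · rw [hZe]
    exact ⟨Set.finite_empty, by rw [Set.ncard_empty]; exact Nat.zero_le _⟩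
  have hDT : ⁅(⊤ : Subgroup F), (⊤ : Subgroup F)⁆ ≤ T := by
    rw [← hR₀.2.1]; exact le_sup_left
  obtain ⟨w, hwT, hw⟩ := hWRD F s t x z T hgen hDT
  have hu : ∀ R, R ∈ Z → ∀ v, v ∈ T → ∃ u, u ∈ gen x ∧ u ∈ T ∧ u⁻¹ * v ∈ R := by
    rintro R ⟨⟨hM, hspl, hRR₁, hf, hπ, ha, ha₁⟩, hT, hRs⟩ v hv
    have hRn : R.Normal := hM.1
    have h1 : v ∈ ⁅gen x, gen x⁆ ⊔ R := by
      have h2 : T ≤ ⁅gen x, gen x⁆ ⊔ R := by rw [← hT]; exact sup_le hspl le_sup_right
      exact h2 hv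
    obtain ⟨u, hu, r, hr, rfl⟩ := Subgroup.mem_sup_of_normal_right.1 h1
    refine ⟨u, DEDM.comm_le_self _ hu, hDT (commutator_mono le_top le_top hu), ?_⟩
    simpa using hr
  choose! u hu using hu
  -- values
  have hF1 : ∀ R ∈ Z, ∀ R' ∈ Z, ∀ v ∈ T, (u R v)⁻¹ * u R' v ∈ gen x ∧
      (u R v)⁻¹ * u R' v ∈ T ∧ (u R v)⁻¹ * u R' v ∈ R₁ := by
    intro R hR R' hR' v hv
    obtain ⟨h1, h2, h3⟩ := hu R hR v hv
    obtain ⟨k1, k2, k3⟩ := hu R' hR' v hv
    refine ⟨mul_mem (inv_mem h1) k1, mul_mem (inv_mem h2) k2, ?_⟩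
    have h4 : (u R v)⁻¹ * u R' v = ((u R v)⁻¹ * v) * ((u R' v)⁻¹ * v)⁻¹ := by group
    rw [h4]
    exact mul_mem (hR.1.2.2.1 h3) (inv_mem (hR'.1.2.2.1 k3))
  -- equality of classes
  have hE : ∀ R ∈ Z, ∀ R' ∈ Z, ∀ v ∈ T,
      ((u R v : F) : F ⧸ Rs) = ((u R' v : F) : F ⧸ Rs) →
      ∃ y ∈ gen x, y⁻¹ * v ∈ R ⊓ R' := by
    intro R hR R' hR' v hv h
    obtain ⟨h1, h2, h3⟩ := hu R hR v hv
    obtain ⟨k1, k2, k3⟩ := hu R' hR' v hv
    have h4 : (u R v)⁻¹ * u R' v ∈ Rs := QuotientGroup.eq.1 h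
    rw [← hR'.2.2] at h4
    refine ⟨u R v, h1, h3, ?_⟩
    have h5 : (u R v)⁻¹ * v = ((u R v)⁻¹ * u R' v) * ((u R' v)⁻¹ * v) := by group
    rw [h5]
    exact mul_mem h4.1 k3
  -- the subgroups
  have hDED : ∀ R ∈ Z, (Cz (gen x) R).Normal ∧ R ≤ Cz (gen x) R ∧ Cz (gen x) R ≤ T := by
    intro R hR
    obtain ⟨⟨hM, hspl, hRR₁, hf, hπ, ha, ha₁⟩, hT, hRs⟩ := hR
    obtain ⟨h1, h2, h3, -⟩ := specDED p F (gen x) R R₁ hM.1 hR₁ ⟨n, hM.2.2⟩ hRR₁ hM.2.1 hspl
    rw [hT] at h3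
    exact ⟨h1, h2, h3⟩
  have hA : ∀ R ∈ Z, Rs.relIndex (gen x ⊓ Cz (gen x) R ⊓ R₁) ∣ p ^ a₁ := by
    intro R hR
    obtain ⟨⟨hM, hspl, hRR₁, hf, hπ, ha, ha₁⟩, hT, hRs⟩ := hR
    rw [← hRs, relIndex_inf R (gen x) _ (inf_le_left.trans inf_le_left), ← ha₁]
    refine DEDM.rel_dvd hM.1 ?_
    exact le_inf (inf_le_left.trans inf_le_right) inf_le_right
  have hB : ∀ R ∈ Z, Rs.relIndex (gen x ⊓ T ⊓ R₁) ∣ p ^ (a₁ + π) := by
    intro R hR
    obtain ⟨d1, d2, d3⟩ := hDED R hR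
    have h1 := hA R hR
    obtain ⟨⟨hM, hspl, hRR₁, hf, hπ, ha, ha₁⟩, hT, hRs⟩ := hR
    have hle1 : Rs ≤ gen x ⊓ Cz (gen x) R ⊓ R₁ := by
      rw [← hRs]
      exact le_inf (le_inf inf_le_right (inf_le_left.trans d2)) (inf_le_left.trans hRR₁)
    have hle2 : gen x ⊓ Cz (gen x) R ⊓ R₁ ≤ gen x ⊓ T ⊓ R₁ :=
      inf_le_inf_right _ (inf_le_inf_left _ d3)
    have h2 : (gen x ⊓ Cz (gen x) R ⊓ R₁).relIndex (gen x ⊓ T ⊓ R₁) ∣ p ^ π := by
      have h3 : (gen x ⊓ Cz (gen x) R ⊓ R₁) ⊓ (gen x ⊓ T ⊓ R₁) =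
          Cz (gen x) R ⊓ (gen x ⊓ T ⊓ R₁) := by
        apply le_antisymm
        · exact inf_le_inf_right _ (inf_le_left.trans inf_le_right)
        · rintro y ⟨hy1, hy2⟩
          exact ⟨⟨⟨hy2.1.1, hy1⟩, hy2.2⟩, hy2⟩
      rw [← Subgroup.inf_relIndex_right, h3, Subgroup.inf_relIndex_right, ← hπ, hT]
      exact DEDM.rel_dvd d1 (inf_le_left.trans inf_le_right)
    rw [← Subgroup.relIndex_mul_relIndex _ _ _ hle1 hle2, pow_add]
    exact Nat.mul_dvd_mul h1 h2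
  have hne : ∀ {m k : ℕ}, m ∣ p ^ k → m ≠ 0 ∧ m ≤ p ^ k := by
    intro m k h
    refine ⟨?_, Nat.le_of_dvd (pow_pos hp.pos k) h⟩
    rintro rfl
    exact (pow_pos hp.pos k).ne' (Nat.eq_zero_of_zero_dvd h)
  have hcom : ∀ g h : F, ⁅g, h⁆ ∈ T := fun g h =>
    hDT (commutator_mem_commutator (mem_top g) (mem_top h))
  have hvw : ∀ k : J t, vw z w k ∈ T := by
    intro k
    unfold vw
    split_ifs with h
    · exact hcom _ _
    · exact hwT _
  -- the first data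
  let φ₁ : Subgroup F → (Fin s × Fin t → F ⧸ Rs) := fun R li => ((u R ⁅x li.1, z li.2⁆ : F) : F ⧸ Rs)
  let φ₂ : Subgroup F → (J t → F ⧸ Rs) := fun R k => ((u R (vw z w k) : F) : F ⧸ Rs)
  let C₁ : Fin s × Fin t → Set (F ⧸ Rs) := fun li =>
    {q | ∃ b ∈ gen x ⊓ T ⊓ R₁, q = ((u R₀ ⁅x li.1, z li.2⁆ * b : F) : F ⧸ Rs)}
  have hC₁ : ∀ li, (C₁ li).Finite ∧ (C₁ li).ncard ≤ p ^ (a₁ + π) := by
    intro li
    obtain ⟨h1, h2⟩ := hne (hB R₀ hR₀)
    obtain ⟨h3, h4⟩ := coset_count Rs (gen x ⊓ T ⊓ R₁) h1 (u R₀ ⁅x li.1, z li.2⁆)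
    exact ⟨h3, h4.trans h2⟩
  obtain ⟨hp1, hp2⟩ := pi_count C₁ (p ^ (a₁ + π)) hC₁
  have hp2' : {g : Fin s × Fin t → F ⧸ Rs | ∀ i, g i ∈ C₁ i}.ncard ≤
      p ^ ((a₁ + π) * (s * t)) := by
    refine hp2.trans (le_of_eq ?_)
    rw [Fintype.card_prod, Fintype.card_fin, Fintype.card_fin, ← pow_mul]
  rw [pow_add]
  refine hFIB (Subgroup F) (Fin s × Fin t → F ⧸ Rs) φ₁ Z
    {g : Fin s × Fin t → F ⧸ Rs | ∀ i, g i ∈ C₁ i} _ _ hp1 hp2' ?_ ?_
  · intro R hR li
    obtain ⟨h1, h2, h3⟩ := hF1 R₀ hR₀ R hR ⁅x li.1, z li.2⁆ (hcom _ _)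
    refine ⟨_, ⟨⟨h1, h2⟩, h3⟩, ?_⟩
    rw [mul_inv_cancel_left]
  · intro g _
    rcases Set.eq_empty_or_nonempty {R | R ∈ Z ∧ φ₁ R = g} with he | ⟨R', hR', hg⟩
    · rw [he]
      exact ⟨Set.finite_empty, by rw [Set.ncard_empty]; exact Nat.zero_le _⟩
    · let C₂ : J t → Set (F ⧸ Rs) := fun k =>
        {q | ∃ b ∈ gen x ⊓ Cz (gen x) R' ⊓ R₁, q = ((u R' (vw z w k) * b : F) : F ⧸ Rs)}
      have hC₂ : ∀ k, (C₂ k).Finite ∧ (C₂ k).ncard ≤ p ^ a₁ := by
        intro k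
        obtain ⟨h1, h2⟩ := hne (hA R' hR')
        obtain ⟨h3, h4⟩ := coset_count Rs (gen x ⊓ Cz (gen x) R' ⊓ R₁) h1 (u R' (vw z w k))
        exact ⟨h3, h4.trans h2⟩
      obtain ⟨hq1, hq2⟩ := pi_count C₂ (p ^ a₁) hC₂
      have hq2' : {g : J t → F ⧸ Rs | ∀ i, g i ∈ C₂ i}.ncard ≤
          p ^ (a₁ * (t * (t + 1) / 2)) := by
        refine hq2.trans (le_of_eq ?_)
        rw [card_J, pow_mul]
      -- two members of the fibre
      have hpair : ∀ R ∈ Z, φ₁ R = g → ∀ R'' ∈ Z, φ₁ R'' = g →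
          ∀ l i, ∃ y ∈ gen x, y⁻¹ * ⁅x l, z i⁆ ∈ R ⊓ R'' := by
        intro R hR hRg R'' hR'' hRg'' l i
        exact hE R hR R'' hR'' _ (hcom _ _) (congrFun (hRg.trans hRg''.symm) (l, i))
      have hmaps : ∀ R ∈ {R | R ∈ Z ∧ φ₁ R = g}, φ₂ R ∈ {g : J t → F ⧸ Rs | ∀ i, g i ∈ C₂ i} := by
        rintro R ⟨hR, hRg⟩ k
        obtain ⟨h1, h2, h3⟩ := hF1 R' hR' R hR (vw z w k) (hvw k)
        obtain ⟨-, hact⟩ := specACT p F s t x z R' R hgen hR'.1.1.1 hR.1.1.1 ⟨n, hR'.1.1.2.2⟩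
          ⟨n, hR.1.1.2.2⟩ (hR'.2.2.trans hR.2.2.symm) (hpair R' hR' hg R hR hRg)
        have h4 := hact (vw z w k) (u R' (vw z w k)) (u R (vw z w k)) (hu R' hR' _ (hvw k)).1
          (hu R hR _ (hvw k)).1 (hu R' hR' _ (hvw k)).2.2 (hu R hR _ (hvw k)).2.2
        refine ⟨_, ⟨⟨h1, (DEDM.mem_Cz hR'.1.1.1).2 ⟨?_, fun y hy => ?_⟩⟩, h3⟩, ?_⟩
        · rw [hR'.2.1]
          exact h2
        · exact (h4 y hy).1
        · rw [mul_inv_cancel_left]
      have hinj : Set.InjOn φ₂ {R | R ∈ Z ∧ φ₁ R = g} := by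
        rintro R ⟨hR, hRg⟩ R'' ⟨hR'', hRg''⟩ h
        refine hDET p F s t x z w R R'' T hgen hR.1.1.1 hR''.1.1.1 ⟨n, hR.1.1.2.2⟩
          ⟨n, hR''.1.1.2.2⟩ (hR.2.2.trans hR''.2.2.symm) (hpair R hR hRg R'' hR'' hRg'') ?_ ?_ hw
          ?_ ?_
        · intro i j hij
          have hij' : i.1 < j.1 := hij
          have h1 := congrFun h ⟨j, ⟨i.1, by omega⟩⟩
          have h2 : vw z w (⟨j, ⟨i.1, by omega⟩⟩ : J t) = ⁅z i, z j⁆ := by
            unfold vw
            rw [dif_pos hij']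
          have h3 := hE R hR R'' hR'' _ (hvw ⟨j, ⟨i.1, by omega⟩⟩) h1
          rw [h2] at h3
          exact h3
        · intro j
          have h1 := congrFun h ⟨j, ⟨j.1, by omega⟩⟩
          have h2 : vw z w (⟨j, ⟨j.1, by omega⟩⟩ : J t) = w j := by
            unfold vw
            rw [dif_neg (lt_irrefl _)]
          have h3 := hE R hR R'' hR'' _ (hvw ⟨j, ⟨j.1, by omega⟩⟩) h1
          rw [h2] at h3
          exact h3
        · rw [← hR.2.1]; exact le_sup_right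
        · rw [← hR''.2.1]; exact le_sup_right
      have hfin : {R | R ∈ Z ∧ φ₁ R = g}.Finite := Set.Finite.of_injOn hmaps hinj hq1
      exact ⟨hfin, (Set.ncard_le_ncard_of_injOn φ₂ hmaps hinj hq1).trans hq2'⟩

end Pool.Agent.Lib.MP4ccb00.N
end

section
/-!
# MP_4ccb00_al, part (d), module GLV
-/
set_option autoImplicit false

namespace Pool.Agent.Lib.MP4ccb00.N

open Subgroup Module E

namespace GLVM

theorem sumExtend_inl {ι K V : Type} [DivisionRing K] [AddCommGroup V] [Module K V] {v : ι → V}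
    (hv : LinearIndependent K v) (i : ι) : Module.Basis.sumExtend hv (Sum.inl i) = v i := by
  simp only [Module.Basis.sumExtend, Module.Basis.reindex_apply, Module.Basis.extend_apply_self]
  rfl

/-- a basis with given first vectors -/
theorem exists_gl (p d s : ℕ) (hp : p.Prime) (hs : s ≤ d) (v : Fin s → (Fin d → ZMod p))
    (hv : LinearIndependent (ZMod p) v) :
    ∃ g : GLp p d, ∀ (i : Fin s) (h : i.1 < d),
      (g : Matrix (Fin d) (Fin d) (ZMod p)) ⟨i.1, h⟩ = v i := by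
  have : Fact p.Prime := ⟨hp⟩
  classical
  let b := Module.Basis.sumExtend hv
  have : Finite (Fin s ⊕ Module.Basis.sumExtendIndex hv) := Module.Finite.finite_basis b
  have : Finite (Module.Basis.sumExtendIndex hv) := Finite.sum_right (Fin s)
  have := Fintype.ofFinite (Module.Basis.sumExtendIndex hv)
  have hcard : Fintype.card (Module.Basis.sumExtendIndex hv) = d - s := by
    have h1 := Module.finrank_eq_card_basis b
    rw [Module.finrank_fin_fun, Fintype.card_sum, Fintype.card_fin] at h1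
    omega
  let e1 : Fin (d - s) ≃ Module.Basis.sumExtendIndex hv :=
    (Fintype.equivFinOfCardEq hcard).symm
  let e2 : Fin d ≃ Fin s ⊕ Module.Basis.sumExtendIndex hv :=
    ((finCongr (by omega : d = s + (d - s))).trans finSumFinEquiv.symm).trans
      (Equiv.sumCongr (Equiv.refl _) e1)
  let b' := b.reindex e2.symm
  have hb' : ∀ (i : Fin s) (h : i.1 < d), b' ⟨i.1, h⟩ = v i := by
    intro i h
    have h2 : e2 ⟨i.1, h⟩ = Sum.inl i := by
      have h3 : (finCongr (by omega : d = s + (d - s))) ⟨i.1, h⟩ = Fin.castAdd (d - s) i := by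
        ext; rfl
      simp only [e2, Equiv.trans_apply, h3, finSumFinEquiv_symm_apply_castAdd]
      rfl
    simp only [b', Module.Basis.reindex_apply, Equiv.symm_symm, h2]
    exact sumExtend_inl hv i
  let A : Matrix (Fin d) (Fin d) (ZMod p) := Matrix.of fun i => b' i
  have hA : IsUnit A := by
    rw [← Matrix.linearIndependent_rows_iff_isUnit]
    exact b'.linearIndependent
  obtain ⟨g, hg⟩ := hA
  refine ⟨g, fun i h => ?_⟩
  rw [hg]
  exact hb' i h

end GLVM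

open GLVM in
/-- Matrices with given first rows. -/
theorem specGLV : SpecGLV := by
  intro p d s hp hs v hv
  have : Fact p.Prime := ⟨hp⟩
  classical
  obtain ⟨gv, hgv⟩ := exists_gl p d s hp hs v hv
  refine ⟨?_, gv, hgv⟩
  -- first rows
  let ρ : GLp p d → (Fin s → Fin d → ZMod p) :=
    fun g i => (g : Matrix (Fin d) (Fin d) (ZMod p)) ⟨i.1, lt_of_lt_of_le i.2 hs⟩
  let c : (Fin s → Fin d → ZMod p) → GLp p d :=
    fun w => if h : ∃ g, ρ g = w then h.choose else 1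
  have hc : ∀ g, ρ (c (ρ g)) = ρ g := by
    intro g
    have h : ∃ g', ρ g' = ρ g := ⟨g, rfl⟩
    simp only [c, dif_pos h]
    exact h.choose_spec
  let f : GLp p d → (Fin s → Fin d → ZMod p) × {g : GLp p d // ∀ (i : Fin s) (h : i.1 < d),
      (g : Matrix (Fin d) (Fin d) (ZMod p)) ⟨i.1, h⟩ = v i} := fun g =>
    (ρ g, ⟨g * ((c (ρ g))⁻¹ * gv), by
      intro i h
      have h1 : ∀ (A B : Matrix (Fin d) (Fin d) (ZMod p)) (k : Fin d),
          (A * B) k = Matrix.vecMul (A k) B := fun A B k => rfl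
      have h2 : (g : Matrix (Fin d) (Fin d) (ZMod p)) ⟨i.1, h⟩ =
          (c (ρ g) : Matrix (Fin d) (Fin d) (ZMod p)) ⟨i.1, h⟩ := (congrFun (hc g) i).symm
      rw [Units.val_mul, h1, h2, ← h1, ← Units.val_mul, mul_inv_cancel_left]
      exact hgv i h⟩)
  have hf : Function.Injective f := by
    intro g g' hgg
    have h1 : ρ g = ρ g' := congrArg Prod.fst hgg
    have h2 : g * ((c (ρ g))⁻¹ * gv) = g' * ((c (ρ g'))⁻¹ * gv) :=
      congrArg (fun x => x.2.1) hgg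
    rw [h1] at h2
    exact mul_right_cancel h2
  have h := Nat.card_le_card_of_injective f hf
  have hcd : Nat.card (Fin s → Fin d → ZMod p) = p ^ (d * s) := by
    rw [Nat.card_eq_fintype_card, Fintype.card_fun, Fintype.card_fun, Fintype.card_fin,
      Fintype.card_fin, ZMod.card, ← pow_mul]
  rwa [Nat.card_prod, hcd] at h

end Pool.Agent.Lib.MP4ccb00.N
end

section
/-!
# MP_4ccb00_al, module NSD: decomposition of `NSp`
-/
set_option autoImplicit false

namespace Pool.Agent.Lib.MP4ccb00.N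

open Subgroup Module E

namespace NSDM

/-- chain of subgroups between `R` and `⊤` -/
theorem chain (p : ℕ) (hp : p.Prime) {F : Type} [Group F] (R A T P : Subgroup F) (h1 : R ≤ A)
    (h2 : A ≤ T) (h3 : T ≤ P) (n d : ℕ) (hn : R.index = p ^ n) (hd : P.index = p ^ d) :
    ∃ a π f : ℕ, R.relIndex A = p ^ a ∧ A.relIndex T = p ^ π ∧ T.relIndex P = p ^ f ∧
      A.relIndex P = p ^ (f + π) ∧ a + π + f + d = n := by
  have e1 : R.relIndex A * A.index = p ^ n := by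
    rw [← hn]
    exact relIndex_mul_index h1
  have e2 : A.relIndex T * T.index = A.index := relIndex_mul_index h2
  have e3 : T.relIndex P * P.index = T.index := relIndex_mul_index h3
  have e4 : A.relIndex T * T.relIndex P = A.relIndex P := relIndex_mul_relIndex A T P h2 h3
  have e5 : R.relIndex A * (A.relIndex T * (T.relIndex P * P.index)) = p ^ n := by
    rw [e3, e2, e1]
  obtain ⟨a, -, ha⟩ := (Nat.dvd_prime_pow hp).1 (Dvd.intro _ e5 : R.relIndex A ∣ p ^ n)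
  have e6 : A.relIndex T ∣ p ^ n := by
    rw [← e5]
    exact Dvd.dvd.mul_left (Dvd.intro _ rfl) _
  obtain ⟨π, -, hπ⟩ := (Nat.dvd_prime_pow hp).1 e6
  have e7 : T.relIndex P ∣ p ^ n := by
    rw [← e5]
    exact Dvd.dvd.mul_left (Dvd.dvd.mul_left (Dvd.intro _ rfl) _) _
  obtain ⟨f, -, hf⟩ := (Nat.dvd_prime_pow hp).1 e7
  refine ⟨a, π, f, ha, hπ, hf, ?_, ?_⟩
  · rw [← e4, hπ, hf, ← pow_add, add_comm]
  · rw [ha, hπ, hf, hd, ← pow_add, ← pow_add, ← pow_add] at e5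
    have := Nat.pow_right_injective hp.two_le e5
    omega

end NSDM

open NSDM in
theorem specNSD (hDED : SpecDED) (hKAP : SpecKAP) (hXZG : SpecXZG) (hABP : SpecABP) :
    SpecNSD := by
  intro p d n hp hs hdn
  haveI : Fact p.Prime := ⟨hp⟩
  have hPhi : (PhiP p (⊤ : Subgroup (FG d))).index = p ^ d := (hABP p d hp).2.2.2.2.2
  set s := n / 1000 with hsdef
  have hgen := hXZG d s hs
  have hidx : (PhiP p (⊤ : Subgroup (FG d))).index = p ^ (s + (d - s)) := by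
    rw [hPhi]
    congr 1
    omega
  -- the basic facts for a special marked group
  have key : ∀ R ∈ X p d n, Spl (gen (xg d s)) R → ∃ a π f : ℕ, a + π + f + d = n ∧
      (Cz (gen (xg d s)) R).relIndex (PhiP p ⊤) = p ^ (f + π) ∧
      R ∈ SP p n f π a a (gen (xg d s)) ⊤ ∧
      R.relIndex (R ⊔ Psi p (FG d)) ≤ p ^ ((f + π) * s + f) := by
    intro R hR hspl
    obtain ⟨hRn, hRP, hRi⟩ := hR
    obtain ⟨-, h1, h2, -⟩ := hDED p (FG d) (gen (xg d s)) R ⊤ hRn inferInstance ⟨n, hRi⟩ le_top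
      hRP hspl
    have h3 : ⁅(⊤ : Subgroup (FG d)), (⊤ : Subgroup (FG d))⁆ ⊔ R ≤ PhiP p ⊤ :=
      sup_le le_sup_left hRP
    obtain ⟨a, π, f, ha, hπ, hf, hfπ, hsum⟩ := chain p hp R _ _ _ h1 h2 h3 n d hRi hPhi
    have hSP : R ∈ SP p n f π a a (gen (xg d s)) ⊤ := by
      refine ⟨⟨hRn, hRP, hRi⟩, hspl, le_top, hf, hπ, ha, ?_⟩
      rw [inf_top_eq]
      exact ha
    exact ⟨a, π, f, hsum, hfπ, hSP,
      hKAP p (FG d) s (d - s) n f π a a (xg d s) (zg d s) ⊤ hgen hidx inferInstance R hSP⟩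
  refine ⟨?_, ?_⟩
  · rintro u R ⟨hR, hspl, hu⟩
    obtain ⟨a, π, f, hsum, hfπ, hSP, hle⟩ := key R hR.1 hspl
    have h4 : f + π = u := by
      rw [hfπ] at hu
      exact Nat.pow_right_injective hp.two_le hu
    have h5 : n - d - u = a := by omega
    refine ⟨f, π, h4, by omega, ?_, ?_⟩
    · rw [h5]
      exact hSP
    · rw [← h4]
      exact hle
  · intro R hR hspl
    obtain ⟨a, π, f, hsum, hfπ, hSP, hle⟩ := key R hR.1 hspl
    refine ⟨f + π, ?_, hR, hspl, hfπ⟩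
    by_contra h0
    have hf0 : f = 0 := by omega
    have hπ0 : π = 0 := by omega
    rw [hf0, hπ0] at hle
    simp only [add_zero, zero_mul, pow_zero] at hle
    have hR0 : R.index ≠ 0 := by
      rw [hR.1.2.2]
      exact (pow_pos hp.pos n).ne'
    have h6 : R.relIndex (R ⊔ Psi p (FG d)) ≠ 0 := fun h => by
      have := relIndex_mul_index (le_sup_left : R ≤ R ⊔ Psi p (FG d))
      rw [h, zero_mul] at this
      exact hR0 this.symm
    have h7 : R.relIndex (R ⊔ Psi p (FG d)) = 1 := by omega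
    have h8 : R ⊔ Psi p (FG d) ≤ R := relIndex_eq_one.1 h7
    exact hR.2.2 (le_sup_right.trans h8)

end Pool.Agent.Lib.MP4ccb00.N
end

section
/-!
# MP_4ccb00_al, part (d): common lemmas for `PT3`, `PTT`, `PTM`, `PTN`
-/
set_option autoImplicit false

namespace Pool.Agent.Lib.MP4ccb00.N.PTUM

open Subgroup Module E

/-- The sum of two triangular numbers. -/
theorem tri (s t : ℕ) : (s + t) * (s + t + 1) / 2 = s * (s + 1) / 2 + t * (t + 1) / 2 + s * t := by
  have h1 : 2 * (s * (s + 1) / 2) = s * (s + 1) :=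
    Nat.mul_div_cancel' (Nat.even_mul_succ_self s).two_dvd
  have h2 : 2 * (t * (t + 1) / 2) = t * (t + 1) :=
    Nat.mul_div_cancel' (Nat.even_mul_succ_self t).two_dvd
  have h3 : 2 * ((s + t) * (s + t + 1) / 2) = (s + t) * (s + t + 1) :=
    Nat.mul_div_cancel' (Nat.even_mul_succ_self (s + t)).two_dvd
  have h4 : (s + t) * (s + t + 1) = s * (s + 1) + t * (t + 1) + 2 * (s * t) := by ring
  omega

/-- The main bound for the exponent `eX`. -/
theorem eX_le (s t f π a e n : ℕ) (hn : s + t + e = n) (h : a + (f + π) ≤ e) :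
    eX s t f π a ≤ a * ((s + t) * (s + t + 1) / 2) + (f + π) * (s * n + 2 * s + 2 * n) := by
  unfold eX
  rw [tri s t]
  generalize s * (s + 1) / 2 = A
  generalize t * (t + 1) / 2 = B
  subst hn
  have hX : 2 * (s + t) + f + a * (s + 1) ≤ s * (s + t + e) + 2 * s + 2 * (s + t + e) := by
    have h1 : a * s ≤ e * s := Nat.mul_le_mul_right s (by omega)
    nlinarith
  have hY : (s + 1) * (s + f + π) + s + s * t + a * (s + 1) ≤
      s * (s + t + e) + 2 * s + 2 * (s + t + e) := by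
    have h1 : (s + 1) * (s + f + π) + a * (s + 1) = (s + 1) * (s + (a + (f + π))) := by ring
    have h2 : (s + 1) * (s + (a + (f + π))) ≤ (s + 1) * (s + e) :=
      Nat.mul_le_mul_left _ (by omega)
    nlinarith
  have e1 := Nat.mul_le_mul_left f hX
  have e2 := Nat.mul_le_mul_left π hY
  nlinarith

/-- Facts about `near`. -/
theorem near_facts {n d : ℕ} (hd : d ∈ near n) :
    d ≤ n ∧ 300 * d ≤ 201 * n ∧ 199 * n ≤ 300 * d ∧ 300 * (n - d) ≤ 101 * n ∧
      99 * n ≤ 300 * (n - d) ∧ n / 1000 ≤ d := by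
  simp only [near, Finset.mem_filter, Finset.mem_range] at hd
  omega

/-- Twice the triangular number. -/
theorem two_m (d : ℕ) : 2 * (d * (d + 1) / 2) = d * (d + 1) :=
  Nat.mul_div_cancel' (Nat.even_mul_succ_self d).two_dvd

/-- The basic quadratic inequalities. -/
theorem quad {n d : ℕ} (hd : d ∈ near n) :
    90000 * (d * d) ≤ 40401 * (n * n) ∧ 39601 * (n * n) ≤ 90000 * (d * d) ∧
    90000 * ((n - d) * (n - d)) ≤ 10201 * (n * n) ∧ 1000 * (n / 1000 * n) ≤ n * n ∧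
    100 * (n ^ 2 / 100) ≤ n * n ∧ 39601 * (n * n) ≤ 180000 * (d * (d + 1) / 2) := by
  obtain ⟨h0, h1, h2, h3, h4, h5⟩ := near_facts hd
  have a1 := Nat.mul_le_mul h1 h1
  have a2 := Nat.mul_le_mul h2 h2
  have a3 := Nat.mul_le_mul h3 h3
  have a4 : 1000 * (n / 1000) * n ≤ n * n := Nat.mul_le_mul_right n (Nat.mul_div_le n 1000)
  have a5 : 100 * (n ^ 2 / 100) ≤ n ^ 2 := Nat.mul_div_le (n ^ 2) 100
  have a6 := two_m d
  refine ⟨by nlinarith, by nlinarith, by nlinarith, by nlinarith, by nlinarith, by nlinarith⟩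

/-- Counting with a finite cover. -/
theorem cover {α ι : Type} (I : Finset ι) (T : ι → Set α) (M Y : ℕ)
    (hfin : ∀ i ∈ I, (T i).Finite) (hM : ∀ i ∈ I, (T i).ncard * Y ≤ M) :
    (⋃ i ∈ I, T i).Finite ∧ (⋃ i ∈ I, T i).ncard * Y ≤ I.card * M := by
  classical
  induction I using Finset.induction_on with
  | empty => simp
  | insert a I ha ih =>
    obtain ⟨f1, b1⟩ := ih (fun i hi => hfin i (Finset.mem_insert_of_mem hi))
      (fun i hi => hM i (Finset.mem_insert_of_mem hi))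
    have f2 := hfin a (Finset.mem_insert_self a I)
    have b2 := hM a (Finset.mem_insert_self a I)
    rw [Finset.set_biUnion_insert]
    refine ⟨f2.union f1, ?_⟩
    rw [Finset.card_insert_of_notMem ha]
    calc (T a ∪ ⋃ i ∈ I, T i).ncard * Y ≤ ((T a).ncard + (⋃ i ∈ I, T i).ncard) * Y :=
          Nat.mul_le_mul_right _ (Set.ncard_union_le _ _)
      _ = (T a).ncard * Y + (⋃ i ∈ I, T i).ncard * Y := by ring
      _ ≤ M + I.card * M := Nat.add_le_add b2 b1
      _ = (I.card + 1) * M := by ring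

/-- Counting with a finite cover. -/
theorem cover_sub {α ι : Type} (I : Finset ι) (S : Set α) (T : ι → Set α) (M Y : ℕ)
    (hfin : ∀ i ∈ I, (T i).Finite) (hM : ∀ i ∈ I, (T i).ncard * Y ≤ M)
    (hsub : ∀ x ∈ S, ∃ i ∈ I, x ∈ T i) :
    S.Finite ∧ S.ncard * Y ≤ I.card * M := by
  obtain ⟨f1, b1⟩ := cover I T M Y hfin hM
  have hs : S ⊆ ⋃ i ∈ I, T i := by
    intro x hx
    obtain ⟨i, hi, hxi⟩ := hsub x hx
    exact Set.mem_biUnion hi hxi
  exact ⟨f1.subset hs, le_trans (Nat.mul_le_mul_right _ (Set.ncard_le_ncard hs f1)) b1⟩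

/-- Elementary: `n + 1 ≤ p ^ n`. -/
theorem succ_le_pow {p : ℕ} (hp : p.Prime) (n : ℕ) : n + 1 ≤ p ^ n := by
  calc n + 1 ≤ 2 ^ n := Nat.lt_two_pow_self
    _ ≤ p ^ n := Nat.pow_le_pow_left hp.two_le n

/-- A special element of `ND12` lies in `NSp u` with `u ∈ {1, 2}`. -/
theorem small_u (hEQV : SpecEQV) (hNSD : SpecNSD) {p d n : ℕ} (hp : p.Prime) (hs : n / 1000 ≤ d)
    (hd : d ≤ n) {R : Subgroup (FG d)} (hR : R ∈ ND12 p d n)
    (hS : Spl (gen (xg d (n / 1000))) R) :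
    ∃ f π : ℕ, 1 ≤ f + π ∧ f + π ≤ 2 ∧ f + π ≤ n - d ∧
      R ∈ SP p n f π (n - d - (f + π)) (n - d - (f + π)) (gen (xg d (n / 1000))) ⊤ ∧
      R.relIndex (R ⊔ Psi p (FG d)) ≤ p ^ (2 * (n / 1000) + 2) := by
  obtain ⟨hR0, hR1⟩ := hR
  obtain ⟨n1, n2⟩ := hNSD p d n hp hs hd
  obtain ⟨u, hu1, hu⟩ := n2 R hR0 hS
  have hu2 : u ≤ 2 := by
    by_contra hc
    exact hR1 ⟨R, ⟨u, by omega, hu⟩, hR0, (hEQV p d n hp).1 R⟩
  obtain ⟨f, π, hf, hue, hSP, hK⟩ := n1 u R hu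
  subst hf
  refine ⟨f, π, hu1, hu2, hue, hSP, le_trans hK ?_⟩
  apply Nat.pow_le_pow_right hp.pos
  have : (f + π) * (n / 1000) ≤ 2 * (n / 1000) := Nat.mul_le_mul_right _ hu2
  omega

/-- The five pairs. -/
def five : Finset (ℕ × ℕ) := {(1, 0), (0, 1), (2, 0), (1, 1), (0, 2)}

theorem card_five : five.card = 5 := by decide

theorem mem_five {f π : ℕ} (h1 : 1 ≤ f + π) (h2 : f + π ≤ 2) : (f, π) ∈ five := by
  have hf : f ≤ 2 := by omega
  have hπ : π ≤ 2 := by omega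
  interval_cases f <;> interval_cases π <;> simp_all [five]

theorem five_le {x : ℕ × ℕ} (h : x ∈ five) : 1 ≤ x.1 + x.2 ∧ x.1 + x.2 ≤ 2 := by
  simp only [five, Finset.mem_insert, Finset.mem_singleton] at h
  rcases h with h | h | h | h | h <;> subst h <;> simp

end Pool.Agent.Lib.MP4ccb00.N.PTUM
end

section
/-!
# MP_4ccb00_al, part (d), module `PT3`
-/
set_option autoImplicit false

namespace Pool.Agent.Lib.MP4ccb00.N.PT3M

open Subgroup Module E PTUM

/-- The numerical inequality. -/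
theorem expo {n d f π : ℕ} (hd : d ∈ near n) (hn : 1000 ≤ n) (hu : 3 ≤ f + π)
    (hue : f + π ≤ n - d) :
    eX (n / 1000) (d - n / 1000) f π (n - d - (f + π)) + 2 * (n - d) + n ^ 2 / 100 + d * d ≤
      (n - d) * (d * (d + 1) / 2 - (n - d)) ∧ n - d ≤ d * (d + 1) / 2 := by
  obtain ⟨h0, h1, h2, h3, h4, h5⟩ := near_facts hd
  obtain ⟨q1, q2, q3, q4, q5, q6⟩ := quad hd
  have hst : n / 1000 + (d - n / 1000) = d := by omega
  have hb := eX_le (n / 1000) (d - n / 1000) f π (n - d - (f + π)) (n - d) n (by omega) (by omega)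
  rw [hst] at hb
  have hnn : 1000 * n ≤ n * n := Nat.mul_le_mul_right n hn
  have c4 : n / 1000 ≤ n := Nat.div_le_self _ _
  have hem : n - d ≤ d * (d + 1) / 2 := by omega
  refine ⟨?_, hem⟩
  generalize hm : d * (d + 1) / 2 = m at *
  generalize hE : n - d = e at *
  generalize hU : f + π = u at *
  generalize hK : n / 1000 * n + 2 * (n / 1000) + 2 * n = K at *
  have hKm : K ≤ m := by
    generalize n / 1000 * n = w at *
    omega
  -- three times
  have h3m : 3 * K + 2 * n + n ^ 2 / 100 + d * d + e * e ≤ 3 * m := by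
    generalize n / 1000 * n = w at *
    generalize n * n = nn at *
    generalize d * d = dd at *
    generalize e * e = ee at *
    omega
  have hu3 : u * K + 2 * n + n ^ 2 / 100 + d * d + e * e ≤ u * m := by
    obtain ⟨r, rfl⟩ := Nat.exists_eq_add_of_le hKm
    obtain ⟨v, rfl⟩ := Nat.exists_eq_add_of_le hu
    have : 3 * r ≤ (3 + v) * r := Nat.mul_le_mul_right r (by omega)
    nlinarith
  have hsplit : e * (m - e) + e * e = (e - u) * m + u * m := by
    have e1 : e * (m - e) + e * e = e * m := by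
      rw [← Nat.mul_add, Nat.sub_add_cancel hem]
    have e2 : (e - u) * m + u * m = e * m := by
      rw [← Nat.add_mul, Nat.sub_add_cancel hue]
    rw [e1, e2]
  have he : e ≤ n := by omega
  omega

end Pool.Agent.Lib.MP4ccb00.N.PT3M

namespace Pool.Agent.Lib.MP4ccb00.N

open Subgroup Module E PTUM PT3M

theorem specPT3 (hABP : SpecABP) (hEQV : SpecEQV) (hMLB : SpecMLB) (hXZG : SpecXZG)
    (hREP : SpecREP) (hSNG : SpecSNG) (hNSD : SpecNSD) (hND1 : SpecND1) : SpecPT3 := by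
  refine ⟨1000, fun n hn p hp d hd => ?_⟩
  have : Fact p.Prime := ⟨hp⟩
  obtain ⟨h0, h1, h2, h3, h4, h5⟩ := near_facts hd
  have hst : n / 1000 + (d - n / 1000) = d := by omega
  have hgen := hXZG d (n / 1000) h5
  have hidx : (PhiP p (⊤ : Subgroup (FG d))).index = p ^ (n / 1000 + (d - n / 1000)) := by
    rw [hst]
    exact (hABP p d hp).2.2.2.2.2
  obtain ⟨n1, n2⟩ := hNSD p d n hp h5 h0
  set P : Set (Subgroup (FG d)) := {Q : Subgroup (FG d) | ∃ u ≥ 3, Q ∈ NSp p d n u} with hP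
  set C : Set (Subgroup (FG d)) := {R | R ∈ ND0 p d n ∧ ∃ R' ∈ P, R' ∈ ND0 p d n ∧ Rel R' R}
    with hC
  have hsat : Sat p d n C := (((hSNG p d n hp).2.2.2.1) (ND0 p d n) P (hSNG p d n hp).1).1
  have hrep := hREP p d n hp C P hsat (by
    rintro R ⟨hR, R', hR'P, hR', hrel⟩
    exact ⟨R', hR'P, ⟨hR', R', hR'P, hR', (hEQV p d n hp).1 R'⟩, hrel⟩)
  -- exponents
  set I : Finset (ℕ × ℕ) := (Finset.range (n - d + 1) ×ˢ Finset.range (n - d + 1)).filter
    (fun x => 3 ≤ x.1 + x.2 ∧ x.1 + x.2 ≤ n - d) with hI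
  have hIc : I.card ≤ p ^ (2 * (n - d)) := by
    calc I.card ≤ (Finset.range (n - d + 1) ×ˢ Finset.range (n - d + 1)).card :=
          Finset.card_filter_le _ _
      _ = (n - d + 1) * (n - d + 1) := by rw [Finset.card_product, Finset.card_range]
      _ ≤ p ^ (n - d) * p ^ (n - d) := Nat.mul_le_mul (succ_le_pow hp _) (succ_le_pow hp _)
      _ = p ^ (2 * (n - d)) := by rw [← pow_add]; congr 1; omega
  have key := cover_sub I {R | R ∈ C ∧ R ∈ P}
    (fun i => SP p n i.1 i.2 (n - d - (i.1 + i.2)) (n - d - (i.1 + i.2))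
      (gen (xg d (n / 1000))) ⊤)
    (p ^ ((n - d) * (d * (d + 1) / 2 - (n - d)))) (p ^ (2 * (n - d) + n ^ 2 / 100 + d * d))
    (fun i _ => (hND1 p (FG d) (n / 1000) (d - n / 1000) n i.1 i.2 (n - d - (i.1 + i.2))
      (n - d - (i.1 + i.2)) (xg d (n / 1000)) (zg d (n / 1000)) ⊤ hgen hidx inferInstance).1)
    (fun i hi => by
      rw [hI, Finset.mem_filter] at hi
      obtain ⟨-, hi1, hi2⟩ := hi
      refine le_trans (Nat.mul_le_mul_right _ (hND1 p (FG d) (n / 1000) (d - n / 1000) n i.1 i.2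
        (n - d - (i.1 + i.2)) (n - d - (i.1 + i.2)) (xg d (n / 1000)) (zg d (n / 1000)) ⊤ hgen
        hidx inferInstance).2) ?_
      rw [← pow_add]
      refine Nat.pow_le_pow_right hp.pos ?_
      have := (expo hd hn hi1 hi2).1
      omega)
    (by
      rintro R ⟨-, u, hu, hRu⟩
      obtain ⟨f, π, hf, hue, hSP, -⟩ := n1 u R hRu
      subst hf
      refine ⟨(f, π), ?_, hSP⟩
      rw [hI, Finset.mem_filter, Finset.mem_product, Finset.mem_range, Finset.mem_range]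
      dsimp only
      omega)
  have hcount : ncl C * p ^ (n ^ 2 / 100) * p ^ (d * d) ≤
      p ^ ((n - d) * (d * (d + 1) / 2 - (n - d))) := by
    have h := le_trans key.2 (Nat.mul_le_mul_right _ hIc)
    have h' : {R | R ∈ C ∧ R ∈ P}.ncard * p ^ (n ^ 2 / 100) * p ^ (d * d) * p ^ (2 * (n - d)) ≤
        p ^ ((n - d) * (d * (d + 1) / 2 - (n - d))) * p ^ (2 * (n - d)) := by
      calc _ = {R | R ∈ C ∧ R ∈ P}.ncard * p ^ (2 * (n - d) + n ^ 2 / 100 + d * d) := by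
            rw [pow_add, pow_add]; ring
        _ ≤ _ := h
        _ = _ := by ring
    have h'' := Nat.le_of_mul_le_mul_right h' (pow_pos hp.pos _)
    refine le_trans ?_ h''
    exact Nat.mul_le_mul_right _ (Nat.mul_le_mul_right _ hrep)
  have hem : n - d ≤ d * (d + 1) / 2 := by
    obtain ⟨q1, q2, q3, q4, q5, q6⟩ := quad hd
    have hnn : 1000 * n ≤ n * n := Nat.mul_le_mul_right n hn
    omega
  have hm := (hMLB p d n hp h0 hem).1
  have hpos : (0 : ℝ) < (p : ℝ) ^ (d * d) := pow_pos (by exact_mod_cast hp.pos) _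
  have hcR : (ncl C : ℝ) * (p : ℝ) ^ (n ^ 2 / 100) * (p : ℝ) ^ (d * d) ≤
      (p : ℝ) ^ ((n - d) * (d * (d + 1) / 2 - (n - d))) := by exact_mod_cast hcount
  exact le_of_mul_le_mul_right (le_trans hcR hm) hpos

end Pool.Agent.Lib.MP4ccb00.N
end

section
/-!
# MP_4ccb00_al, part (d), module `PTM`
-/
set_option autoImplicit false

namespace Pool.Agent.Lib.MP4ccb00.N.PTMM

open Subgroup Module E PTUM

/-- The exponent. -/
theorem expo {n d κ f π a₁ : ℕ} (hd : d ∈ near n) (hn : 1000 ≤ n) (hκ : κ ≤ 2 * (n / 1000) + 2)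
    (hu : f + π ≤ 2) (ha : a₁ ≤ κ) :
    eX (n / 1000) (d - n / 1000) f π a₁ ≤ κ * (d * (d + 1) / 2) + n ^ 2 / 400 + 10 * n := by
  obtain ⟨h0, h1, h2, h3, h4, h5⟩ := near_facts hd
  obtain ⟨q1, q2, q3, q4, q5, q6⟩ := quad hd
  have hst : n / 1000 + (d - n / 1000) = d := by omega
  have hb := eX_le (n / 1000) (d - n / 1000) f π a₁ (n - d) n (by omega) (by omega)
  rw [hst] at hb
  refine le_trans hb ?_
  have c1 : a₁ * (d * (d + 1) / 2) ≤ κ * (d * (d + 1) / 2) := Nat.mul_le_mul_right _ ha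
  have c2 : (f + π) * (n / 1000 * n + 2 * (n / 1000) + 2 * n) ≤
      2 * (n / 1000 * n + 2 * (n / 1000) + 2 * n) := Nat.mul_le_mul_right _ hu
  have c3 : n * n < 400 * (n ^ 2 / 400 + 1) := by
    have := Nat.lt_mul_div_succ (n ^ 2) (b := 400) (by norm_num)
    calc n * n = n ^ 2 := by ring
      _ < _ := this
  have c4 : n / 1000 ≤ n := Nat.div_le_self _ _
  generalize n / 1000 * n = w at *
  omega

/-- `R ≤ Cz S R` for normal `R`. -/
theorem le_Cz {F : Type} [Group F] (S R : Subgroup F) (hR : R.Normal) : R ≤ Cz S R := by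
  intro w hw
  refine ⟨Subgroup.mem_sup_right hw, fun y _ => ?_⟩
  have e1 : R.normalCore = R := Subgroup.normalCore_eq_self R
  rw [e1]
  have h1 : y * w⁻¹ * y⁻¹ ∈ R := hR.conj_mem _ (R.inv_mem hw) y
  have h2 := R.mul_mem hw h1
  have h3 : w * (y * w⁻¹ * y⁻¹) = w * y * w⁻¹ * y⁻¹ := by group
  rwa [h3] at h2

end Pool.Agent.Lib.MP4ccb00.N.PTMM

namespace Pool.Agent.Lib.MP4ccb00.N

open Subgroup Module E PTUM PTMM

theorem specPTM (hABP : SpecABP) (hEQV : SpecEQV) (hXZG : SpecXZG) (hNSD : SpecNSD)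
    (hND1 : SpecND1) : SpecPTM := by
  refine ⟨1000, fun n hn p hp d hd κ hκ Q hQ => ?_⟩
  have : Fact p.Prime := ⟨hp⟩
  obtain ⟨h0, h1, h2, h3, h4, h5⟩ := near_facts hd
  have hst : n / 1000 + (d - n / 1000) = d := by omega
  have hgen := hXZG d (n / 1000) h5
  have hidx : (PhiP p (⊤ : Subgroup (FG d))).index = p ^ (n / 1000 + (d - n / 1000)) := by
    rw [hst]
    exact (hABP p d hp).2.2.2.2.2
  have hQn : Q.Normal := hQ.1.1
  have key := cover_sub (five ×ˢ Finset.range (κ + 1))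
    {R | R ∈ ND12 p d n ∧ R.relIndex (R ⊔ Psi p (FG d)) = p ^ κ ∧
      Spl (gen (xg d (n / 1000))) R ∧ R ⊔ Psi p (FG d) = Q}
    (fun i => SP p n i.1.1 i.1.2 (n - d - (i.1.1 + i.1.2)) i.2 (gen (xg d (n / 1000))) Q)
    (p ^ (κ * (d * (d + 1) / 2) + n ^ 2 / 400 + 10 * n)) 1
    (fun i _ => (hND1 p (FG d) (n / 1000) (d - n / 1000) n i.1.1 i.1.2 (n - d - (i.1.1 + i.1.2))
      i.2 (xg d (n / 1000)) (zg d (n / 1000)) Q hgen hidx hQn).1)
    (fun i hi => by
      rw [Finset.mem_product, Finset.mem_range] at hi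
      obtain ⟨hi1, hi2⟩ := hi
      rw [mul_one]
      refine le_trans (hND1 p (FG d) (n / 1000) (d - n / 1000) n i.1.1 i.1.2
        (n - d - (i.1.1 + i.1.2)) i.2 (xg d (n / 1000)) (zg d (n / 1000)) Q hgen hidx hQn).2 ?_
      exact Nat.pow_le_pow_right hp.pos (expo hd hn hκ (five_le hi1).2 (by omega)))
    (by
      rintro R ⟨hR, hκR, hS, hRQ⟩
      obtain ⟨f, π, hu1, hu2, hue, hSP, hK⟩ := small_u hEQV hNSD hp h5 h0 hR hS
      have hRn : R.Normal := hR.1.1.1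
      obtain ⟨hM, hSpl, -, e1, e2, e3, e4⟩ := hSP
      have hRQ' : R ≤ Q := hRQ ▸ le_sup_left
      have hRC : R ≤ Cz (gen (xg d (n / 1000))) R := le_Cz _ _ hRn
      have hmul := Subgroup.relIndex_mul_relIndex R (Cz (gen (xg d (n / 1000))) R ⊓ Q) Q
        (le_inf hRC hRQ') inf_le_right
      have hRQi : R.relIndex Q = p ^ κ := by rw [← hκR, hRQ]
      rw [hRQi] at hmul
      obtain ⟨a₁, ha₁, hea⟩ := (Nat.dvd_prime_pow hp).1 (Dvd.intro _ hmul)
      refine ⟨((f, π), a₁), ?_, hM, hSpl, hRQ', e1, e2, e3, hea⟩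
      rw [Finset.mem_product, Finset.mem_range]
      exact ⟨mem_five hu1 hu2, by simpa using Nat.lt_succ_of_le ha₁⟩)
  have h := key.2
  rw [mul_one, Finset.card_product, card_five, Finset.card_range] at h
  exact h

end Pool.Agent.Lib.MP4ccb00.N
end

section
/-!
# MP_4ccb00_al, part (d), module `PTT`
-/
set_option autoImplicit false

namespace Pool.Agent.Lib.MP4ccb00.N.PTTM

open Subgroup Module E PTUM

/-- The numerical inequality. -/
theorem expo {n d : ℕ} (hd : d ∈ near n) (hn : 10000 ≤ n) :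
    d * (n / 1000) + n ^ 2 / 100 + (5 + (2 * (n / 1000) + 2)) +
      ((n - d - 1) * (d * (d + 1) / 2) + 2 * (n / 1000 * n + 2 * (n / 1000) + 2 * n)) ≤
      (n - d) * (d * (d + 1) / 2 - (n - d)) +
        (n - d - 2 - (2 * (n / 1000) + 2)) ^ 2 ∧ n - d ≤ d * (d + 1) / 2 := by
  obtain ⟨h0, h1, h2, h3, h4, h5⟩ := near_facts hd
  obtain ⟨q1, q2, q3, q4, q5, q6⟩ := quad hd
  have hnn : 10000 * n ≤ n * n := Nat.mul_le_mul_right n hn
  have c4 : n / 1000 ≤ n := Nat.div_le_self _ _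
  have hem : n - d ≤ d * (d + 1) / 2 := by omega
  refine ⟨?_, hem⟩
  have hds : d * (n / 1000) ≤ n / 1000 * n := by
    rw [mul_comm]; exact Nat.mul_le_mul_left _ h0
  have hes : (n - d) * (n / 1000) ≤ n / 1000 * n := by
    rw [mul_comm]; exact Nat.mul_le_mul_left _ (Nat.sub_le _ _)
  generalize hm : d * (d + 1) / 2 = m at *
  have he1 : 1 ≤ n - d := by omega
  have hw : ∃ w, n - d = w + (2 * (n / 1000) + 4) := ⟨n - d - (2 * (n / 1000) + 4), by omega⟩
  obtain ⟨w, hw⟩ := hw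
  have hw2 : n - d - 2 - (2 * (n / 1000) + 2) = w := by omega
  rw [hw2]
  have hsq : w ^ 2 + 2 * ((n - d) * (2 * (n / 1000) + 4)) =
      (n - d) * (n - d) + (2 * (n / 1000) + 4) ^ 2 := by
    rw [hw]; ring
  have hexp : 2 * ((n - d) * (2 * (n / 1000) + 4)) = 4 * ((n - d) * (n / 1000)) + 8 * (n - d) := by
    ring
  generalize hE : n - d = e at *
  have e1 : e * (m - e) + e * e = e * m := by
    rw [← Nat.mul_add, Nat.sub_add_cancel hem]
  have e2 : (e - 1) * m + m = e * m := by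
    rw [← Nat.succ_mul, Nat.succ_eq_add_one, Nat.sub_add_cancel he1]
  have e3 : 0 ≤ (2 * (n / 1000) + 4) ^ 2 := Nat.zero_le _
  have hen : e ≤ n := by omega
  generalize n / 1000 * n = x at *
  generalize d * (n / 1000) = y at *
  generalize e * (n / 1000) = z at *
  generalize e * (m - e) = E1 at *
  generalize (e - 1) * m = E2 at *
  generalize e * m = E3 at *
  generalize e * e = E4 at *
  generalize (2 * (n / 1000) + 4) ^ 2 = E5 at *
  generalize e * (2 * (n / 1000) + 4) = E6 at *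
  generalize w ^ 2 = E7 at *
  generalize n * n = nn at *
  generalize d * d = dd at *
  omega

/-- From `ncl * |GL| ≤ ..` to the mass. -/
theorem to_mass (hGBB : SpecGBB) {p n d : ℕ} (hp : p.Prime) (hem : n - d ≤ d * (d + 1) / 2)
    {N k : ℕ} (h : N * Nat.card (GLp p d) * p ^ k ≤ p ^ ((n - d) * (d * (d + 1) / 2 - (n - d)))) :
    (N : ℝ) * (p : ℝ) ^ k ≤ mass p d n := by
  have : Fact p.Prime := ⟨hp⟩
  have hg := (hGBB p (d * (d + 1) / 2) (n - d) hp hem).1
  have hGL : 0 < Nat.card (GLp p d) := Nat.card_pos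
  have hGLR : (0 : ℝ) < (Nat.card (GLp p d) : ℝ) := by exact_mod_cast hGL
  unfold mass
  rw [le_div_iff₀ hGLR]
  have h2 := le_trans h hg
  have h3 : (N : ℝ) * (Nat.card (GLp p d) : ℝ) * (p : ℝ) ^ k ≤
      (gb p (d * (d + 1) / 2) (n - d) : ℝ) := by exact_mod_cast h2
  calc (N : ℝ) * (p : ℝ) ^ k * (Nat.card (GLp p d) : ℝ) =
      (N : ℝ) * (Nat.card (GLp p d) : ℝ) * (p : ℝ) ^ k := by ring
    _ ≤ _ := h3

end Pool.Agent.Lib.MP4ccb00.N.PTTM

namespace Pool.Agent.Lib.MP4ccb00.N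

open Subgroup Module E PTUM PTTM

theorem specPTT (hABP : SpecABP) (hEQV : SpecEQV) (hSUP : SpecSUP) (hGBB : SpecGBB)
    (hXZG : SpecXZG) (hTRI : SpecTRI) (hSNG : SpecSNG) (hNSD : SpecNSD) (hND2 : SpecND2) :
    SpecPTT := by
  refine ⟨10000, fun n hn p hp d hd => ?_⟩
  have : Fact p.Prime := ⟨hp⟩
  obtain ⟨h0, h1, h2, h3, h4, h5⟩ := near_facts hd
  have hst : n / 1000 + (d - n / 1000) = d := by omega
  have hgen := hXZG d (n / 1000) h5
  have hidx : (PhiP p (⊤ : Subgroup (FG d))).index = p ^ (n / 1000 + (d - n / 1000)) := by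
    rw [hst]
    exact (hABP p d hp).2.2.2.2.2
  obtain ⟨hexp, hem⟩ := expo hd hn
  obtain ⟨sat0, -, sat3, sat4, -⟩ := hSNG p d n hp
  have hsat12 : Sat p d n (ND12 p d n) := (sat4 (ND0 p d n) _ sat0).2
  set C : Set (Subgroup (FG d)) := {R | R ∈ ND12 p d n ∧ ImA p (R ⊔ Psi p (FG d)) ⊆ {1}} with hC
  have hsat : Sat p d n C := (sat3 _ hsat12).1
  have htri := hTRI p d n 1000 (n / 1000) hp (by norm_num) le_rfl h5 C hsat (by
    rintro R ⟨hR, hA⟩
    exact ⟨hR.1.2.1, le_trans (hSUP p d n hp R hR.1.1).2 hA⟩)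
  have key := cover_sub five {R | R ∈ C ∧ Spl (gen (xg d (n / 1000))) R}
    (fun i => {R : Subgroup (FG d) | R ∈ SP p n i.1 i.2 (n - d - (i.1 + i.2))
      (n - d - (i.1 + i.2)) (gen (xg d (n / 1000))) ⊤ ∧
      R.relIndex (R ⊔ Psi p (FG d)) ≤ p ^ (2 * (n / 1000) + 2)})
    (4 * (2 * (n / 1000) + 2 + 1) * p ^ ((n - d - 1) * (d * (d + 1) / 2) +
      2 * (n / 1000 * n + 2 * (n / 1000) + 2 * n)))
    (p ^ ((n - d - 2 - (2 * (n / 1000) + 2)) ^ 2))
    (fun i _ => (hND2 p (FG d) (n / 1000) (d - n / 1000) n i.1 i.2 (n - d - (i.1 + i.2))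
      (2 * (n / 1000) + 2) (xg d (n / 1000)) (zg d (n / 1000)) hgen hidx).1)
    (fun i hi => by
      obtain ⟨hi1, hi2⟩ := five_le hi
      refine le_trans (Nat.mul_le_mul_left _ ?_) (le_trans (hND2 p (FG d) (n / 1000)
        (d - n / 1000) n i.1 i.2 (n - d - (i.1 + i.2)) (2 * (n / 1000) + 2) (xg d (n / 1000))
        (zg d (n / 1000)) hgen hidx).2 ?_)
      · refine Nat.pow_le_pow_right hp.pos (Nat.pow_le_pow_left ?_ 2)
        omega
      · refine Nat.mul_le_mul_left _ (Nat.pow_le_pow_right hp.pos ?_)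
        have hb := eX_le (n / 1000) (d - n / 1000) i.1 i.2 (n - d - (i.1 + i.2)) (n - d) n
          (by omega) (by omega)
        rw [hst] at hb
        refine le_trans hb (Nat.add_le_add (Nat.mul_le_mul_right _ (by omega))
          (Nat.mul_le_mul_right _ hi2)))
    (by
      rintro R ⟨⟨hR, -⟩, hS⟩
      obtain ⟨f, π, hu1, hu2, hue, hSP, hK⟩ := small_u hEQV hNSD hp h5 h0 hR hS
      exact ⟨(f, π), mem_five hu1 hu2, hSP, hK⟩)
  rw [card_five] at key
  refine to_mass hGBB hp hem ?_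
  have h20 : 5 * (4 * (2 * (n / 1000) + 2 + 1)) ≤ p ^ (5 + (2 * (n / 1000) + 2)) := by
    calc 5 * (4 * (2 * (n / 1000) + 2 + 1)) = 20 * (2 * (n / 1000) + 2 + 1) := by ring
      _ ≤ 2 ^ 5 * (2 * (n / 1000) + 2 + 1) := Nat.mul_le_mul_right _ (by norm_num)
      _ ≤ p ^ 5 * p ^ (2 * (n / 1000) + 2) :=
          Nat.mul_le_mul (Nat.pow_le_pow_left hp.two_le 5) (succ_le_pow hp _)
      _ = _ := by rw [← pow_add]
  have hfin : (ncl C * Nat.card (GLp p d) * p ^ (n ^ 2 / 100)) *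
      p ^ ((n - d - 2 - (2 * (n / 1000) + 2)) ^ 2) ≤
      p ^ ((n - d) * (d * (d + 1) / 2 - (n - d))) *
        p ^ ((n - d - 2 - (2 * (n / 1000) + 2)) ^ 2) := by
    calc (ncl C * Nat.card (GLp p d) * p ^ (n ^ 2 / 100)) *
        p ^ ((n - d - 2 - (2 * (n / 1000) + 2)) ^ 2) ≤
        (p ^ (d * (n / 1000)) * {R | R ∈ C ∧ Spl (gen (xg d (n / 1000))) R}.ncard *
          p ^ (n ^ 2 / 100)) * p ^ ((n - d - 2 - (2 * (n / 1000) + 2)) ^ 2) :=
          Nat.mul_le_mul_right _ (Nat.mul_le_mul_right _ htri)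
      _ = p ^ (d * (n / 1000)) * p ^ (n ^ 2 / 100) *
          ({R | R ∈ C ∧ Spl (gen (xg d (n / 1000))) R}.ncard *
            p ^ ((n - d - 2 - (2 * (n / 1000) + 2)) ^ 2)) := by ring
      _ ≤ p ^ (d * (n / 1000)) * p ^ (n ^ 2 / 100) *
          (5 * (4 * (2 * (n / 1000) + 2 + 1) * p ^ ((n - d - 1) * (d * (d + 1) / 2) +
            2 * (n / 1000 * n + 2 * (n / 1000) + 2 * n)))) := Nat.mul_le_mul_left _ key.2
      _ = p ^ (d * (n / 1000)) * p ^ (n ^ 2 / 100) *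
          ((5 * (4 * (2 * (n / 1000) + 2 + 1))) * p ^ ((n - d - 1) * (d * (d + 1) / 2) +
            2 * (n / 1000 * n + 2 * (n / 1000) + 2 * n))) := by ring
      _ ≤ p ^ (d * (n / 1000)) * p ^ (n ^ 2 / 100) *
          (p ^ (5 + (2 * (n / 1000) + 2)) * p ^ ((n - d - 1) * (d * (d + 1) / 2) +
            2 * (n / 1000 * n + 2 * (n / 1000) + 2 * n))) :=
          Nat.mul_le_mul_left _ (Nat.mul_le_mul_right _ h20)
      _ = p ^ (d * (n / 1000) + n ^ 2 / 100 + (5 + (2 * (n / 1000) + 2)) +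
          ((n - d - 1) * (d * (d + 1) / 2) +
            2 * (n / 1000 * n + 2 * (n / 1000) + 2 * n))) := by
          simp only [pow_add]; ring
      _ ≤ p ^ ((n - d) * (d * (d + 1) / 2 - (n - d)) +
          (n - d - 2 - (2 * (n / 1000) + 2)) ^ 2) := Nat.pow_le_pow_right hp.pos hexp
      _ = _ := pow_add _ _ _
  exact Nat.le_of_mul_le_mul_right hfin (pow_pos hp.pos _)

end Pool.Agent.Lib.MP4ccb00.N
end

section
/-!
# MP_4ccb00_al, part (d), module `PTN`
-/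
set_option autoImplicit false

namespace Pool.Agent.Lib.MP4ccb00.N.PTNM

open Subgroup Module E PTUM

/-- The exponent for one `κ`. -/
theorem expo1 {n d κ : ℕ} (hem : n - d ≤ d * (d + 1) / 2) (hκ : κ ≤ 2 * (n / 1000) + 2)
    (hκe : κ ≤ n - d) :
    κ * (d * (d + 1) / 2) + (n - d - κ) * (d * (d + 1) / 2 - (n - d - κ)) ≤
      (n - d) * (d * (d + 1) / 2 - (n - d)) + 2 * ((n - d) * (2 * (n / 1000) + 2)) := by
  generalize d * (d + 1) / 2 = m at *
  generalize n - d = e at *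
  obtain ⟨g, rfl⟩ := Nat.exists_eq_add_of_le hκe
  have hg : κ + g - κ = g := by omega
  rw [hg]
  have e1 : g * (m - g) + g * g = g * m := by
    rw [← Nat.mul_add, Nat.sub_add_cancel (by omega)]
  have e2 : (κ + g) * (m - (κ + g)) + (κ + g) * (κ + g) = (κ + g) * m := by
    rw [← Nat.mul_add, Nat.sub_add_cancel hem]
  have e3 : (κ + g) * κ ≤ (κ + g) * (2 * (n / 1000) + 2) := Nat.mul_le_mul_left _ hκ
  nlinarith

/-- The final numerical inequality. -/
theorem expo2 {n d : ℕ} (hd : d ∈ near n) (hn : 10000 ≤ n) :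
    n ^ 2 / 100 + (d * (n / 1000) + (4 + 2 * (2 * (n / 1000) + 2)) + (n ^ 2 / 400 + 10 * n) +
      2 * ((n - d) * (2 * (n / 1000) + 2))) ≤ n ^ 2 / 20 := by
  obtain ⟨h0, h1, h2, h3, h4, h5⟩ := near_facts hd
  obtain ⟨q1, q2, q3, q4, q5, q6⟩ := quad hd
  have hnn : 10000 * n ≤ n * n := Nat.mul_le_mul_right n hn
  have c4 : n / 1000 ≤ n := Nat.div_le_self _ _
  have hds : d * (n / 1000) ≤ n / 1000 * n := by
    rw [mul_comm]; exact Nat.mul_le_mul_left _ h0
  have hes : (n - d) * (n / 1000) ≤ n / 1000 * n := by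
    rw [mul_comm]; exact Nat.mul_le_mul_left _ (Nat.sub_le _ _)
  have hexp : 2 * ((n - d) * (2 * (n / 1000) + 2)) = 4 * ((n - d) * (n / 1000)) + 4 * (n - d) := by
    ring
  have hsq : n ^ 2 = n * n := by ring
  rw [hexp, hsq] at *
  generalize n / 1000 * n = x at *
  generalize d * (n / 1000) = y at *
  generalize (n - d) * (n / 1000) = z at *
  generalize n * n = nn at *
  generalize d * d = dd at *
  omega

end Pool.Agent.Lib.MP4ccb00.N.PTNM

namespace Pool.Agent.Lib.MP4ccb00.N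

open Subgroup Module E PTUM PTTM PTNM

theorem specPTN (hXFIN : SpecXFIN) (hEQV : SpecEQV) (hSUP : SpecSUP) (hCLS : SpecCLS)
    (hGBB : SpecGBB) (hTWI : SpecTWI) (hSPT : SpecSPT) (hGLV : SpecGLV) (hOVR : SpecOVR)
    (hNTR : SpecNTR) (hFXG : SpecFXG) (hPTM : SpecPTM) (hSNG : SpecSNG) (hNSD : SpecNSD) :
    SpecPTN := by
  obtain ⟨nF, hF⟩ := hFXG
  obtain ⟨nM, hMM⟩ := hPTM
  refine ⟨max 10000 (max nF nM), fun n hn p hp d hd => ?_⟩
  have hn1 : 10000 ≤ n := le_trans (le_max_left _ _) hn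
  have hn2 : nF ≤ n := le_trans (le_trans (le_max_left _ _) (le_max_right _ _)) hn
  have hn3 : nM ≤ n := le_trans (le_trans (le_max_right _ _) (le_max_right _ _)) hn
  have : Fact p.Prime := ⟨hp⟩
  obtain ⟨h0, h1, h2, h3, h4, h5⟩ := near_facts hd
  obtain ⟨-, hem⟩ := PTTM.expo hd hn1
  obtain ⟨sat0, sat2, sat3, sat4, -⟩ := hSNG p d n hp
  have hsat12 : Sat p d n (ND12 p d n) := (sat4 (ND0 p d n) _ sat0).2
  set C : Set (Subgroup (FG d)) := {R | R ∈ ND12 p d n ∧ ¬ ImA p (R ⊔ Psi p (FG d)) ⊆ {1}}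
    with hC
  have hsat : Sat p d n C := (sat3 _ hsat12).2
  set m : ℕ := d * (d + 1) / 2 with hm
  set s : ℕ := n / 1000 with hs
  -- the index
  have hidx : ∀ R ∈ C, ∃ κ, κ ∈ Finset.range (2 * s + 3) ∧
      R.relIndex (R ⊔ Psi p (FG d)) = p ^ κ := by
    rintro R ⟨hR, -⟩
    have hRX : R ∈ X p d n := hR.1.1
    obtain ⟨k, hk, -, hkk⟩ := (hSUP p d n hp R hRX).1
    obtain ⟨v, hv, hvg⟩ := hSPT p d n 1000 s hp (by norm_num) le_rfl h5 R hRX hR.1.2.1
    obtain ⟨g, hg⟩ := (hGLV p d s hp h5 v hv).2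
    have hspl := hvg g hg
    obtain ⟨t1, t2, -, t4, -⟩ := hTWI p d n hp R hRX g
    have ht12 : tw p g R ∈ ND12 p d n :=
      hsat12.2 R hR _ t1 ((hEQV p d n hp).2.1 _ t1 _ hRX t2)
    obtain ⟨f, π, -, -, -, -, hK⟩ := small_u hEQV hNSD hp h5 h0 ht12 hspl
    rw [t4, hkk] at hK
    have hk2 := (Nat.pow_le_pow_iff_right hp.one_lt).1 hK
    exact ⟨k, Finset.mem_range.2 (by omega), hkk⟩
  -- one class of indices
  have hone : ∀ κ ∈ Finset.range (2 * s + 3),
      ncl {R | R ∈ C ∧ R.relIndex (R ⊔ Psi p (FG d)) = p ^ κ} * Nat.card (GLp p d) *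
        p ^ (n ^ 2 / 20) ≤
      p ^ (d * s) * (10 * (2 * s + 2 + 1)) * p ^ (n ^ 2 / 400 + 10 * n +
        ((n - d) * (m - (n - d)) + 2 * ((n - d) * (2 * s + 2)))) := by
    intro κ hκ
    rw [Finset.mem_range] at hκ
    have hκ' : κ ≤ 2 * s + 2 := by omega
    have hκe : κ ≤ n - d := by omega
    set Cκ : Set (Subgroup (FG d)) := {R | R ∈ C ∧ R.relIndex (R ⊔ Psi p (FG d)) = p ^ κ}
      with hCκ
    have hsatκ : Sat p d n Cκ := sat2 C hsat κ
    set Q : Set (Subgroup (FG d)) := {Q | ∃ R ∈ Cκ, Q = R ⊔ Psi p (FG d)} with hQ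
    obtain ⟨hQsat, hQgood⟩ := (hSNG p d n hp).2.2.2.2 Cκ κ hκe hsatκ (fun R hR => hR.2)
    have hovr := hOVR p d n 1000 s κ (5 * (κ + 1) * p ^ (κ * m + n ^ 2 / 400 + 10 * n)) hp
      (by norm_num) le_rfl h5 Cκ hsatκ (fun R hR => ⟨hR.1.1.1.2.1, hR.2⟩) (by
        intro Q₀ hQ₀
        refine le_trans (Set.ncard_le_ncard ?_ ?_) (hMM n hn3 p hp d hd κ hκ' Q₀ hQ₀)
        · rintro R ⟨hR, hS, hRQ⟩
          exact ⟨hR.1.1, hR.2, hS, hRQ⟩
        · exact (hXFIN p d n hp).subset (fun R hR => hR.1.1.1))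
    have hntr := hNTR p d (n - κ) hp Q hQsat (by
      rintro Q₀ ⟨R, hR, rfl⟩
      have hne := hR.1.2
      rw [Set.subset_def] at hne
      push Not at hne
      obtain ⟨g, hg, hg1⟩ := hne
      exact ⟨g, hg, by simpa using hg1⟩)
    have hfxg := hF n hn2 p hp d (n - d - κ) h1 h2 (by omega) (by omega)
    have hnk : d + (n - d - κ) = n - κ := by omega
    rw [hnk] at hfxg
    have hsub : {x : Subgroup (FG d) × GLp p d | x.1 ∈ Q ∧ x.2 ≠ 1 ∧ x.2 ∈ ImA p x.1}.ncard ≤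
        {x : Subgroup (FG d) × GLp p d | x.1 ∈ Good p d (n - κ) ∧ x.2 ≠ 1 ∧
          x.2 ∈ ImA p x.1}.ncard := by
      refine Set.ncard_le_ncard ?_ ?_
      · rintro x ⟨hx1, hx2, hx3⟩
        exact ⟨hQgood hx1, hx2, hx3⟩
      · refine Set.Finite.subset (((hXFIN p d (n - κ) hp).prod
          (Set.finite_univ (α := GLp p d)))) ?_
        rintro x ⟨hx1, -, -⟩
        exact ⟨hx1.1, Set.mem_univ _⟩
    have hexp1 := expo1 (n := n) (d := d) hem hκ' hκe
    calc ncl Cκ * Nat.card (GLp p d) * p ^ (n ^ 2 / 20) ≤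
        (p ^ (d * s) * (5 * (κ + 1) * p ^ (κ * m + n ^ 2 / 400 + 10 * n)) * ncl Q) *
          Nat.card (GLp p d) * p ^ (n ^ 2 / 20) :=
          Nat.mul_le_mul_right _ (Nat.mul_le_mul_right _ hovr)
      _ = p ^ (d * s) * (5 * (κ + 1) * p ^ (κ * m + n ^ 2 / 400 + 10 * n)) *
          ((ncl Q * Nat.card (GLp p d)) * p ^ (n ^ 2 / 20)) := by ring
      _ ≤ p ^ (d * s) * (5 * (κ + 1) * p ^ (κ * m + n ^ 2 / 400 + 10 * n)) *
          ((2 * {x : Subgroup (FG d) × GLp p d | x.1 ∈ Good p d (n - κ) ∧ x.2 ≠ 1 ∧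
          x.2 ∈ ImA p x.1}.ncard) * p ^ (n ^ 2 / 20)) :=
          Nat.mul_le_mul_left _ (Nat.mul_le_mul_right _
            (le_trans hntr (Nat.mul_le_mul_left _ hsub)))
      _ = p ^ (d * s) * (10 * (κ + 1)) * p ^ (κ * m + n ^ 2 / 400 + 10 * n) *
          ({x : Subgroup (FG d) × GLp p d | x.1 ∈ Good p d (n - κ) ∧ x.2 ≠ 1 ∧
          x.2 ∈ ImA p x.1}.ncard * p ^ (n ^ 2 / 20)) := by ring
      _ ≤ p ^ (d * s) * (10 * (κ + 1)) * p ^ (κ * m + n ^ 2 / 400 + 10 * n) *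
          p ^ ((n - d - κ) * (m - (n - d - κ))) := Nat.mul_le_mul_left _ hfxg
      _ = p ^ (d * s) * (10 * (κ + 1)) * p ^ (κ * m + n ^ 2 / 400 + 10 * n +
          (n - d - κ) * (m - (n - d - κ))) := by
          rw [mul_assoc, ← pow_add]
      _ ≤ p ^ (d * s) * (10 * (2 * s + 2 + 1)) * p ^ (n ^ 2 / 400 + 10 * n +
        ((n - d) * (m - (n - d)) + 2 * ((n - d) * (2 * s + 2)))) := by
          refine Nat.mul_le_mul (Nat.mul_le_mul_left _ (Nat.mul_le_mul_left _ (by omega)))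
            (Nat.pow_le_pow_right hp.pos ?_)
          calc κ * m + n ^ 2 / 400 + 10 * n + (n - d - κ) * (m - (n - d - κ)) =
              n ^ 2 / 400 + 10 * n + (κ * m + (n - d - κ) * (m - (n - d - κ))) := by ring
            _ ≤ _ := Nat.add_le_add_left hexp1 _
  -- the sum
  have hunion : ncl C ≤ ∑ κ ∈ Finset.range (2 * s + 3),
      ncl {R | R ∈ C ∧ R.relIndex (R ⊔ Psi p (FG d)) = p ^ κ} := by
    have hcov : C = ⋃ κ ∈ Finset.range (2 * s + 3),
        {R | R ∈ C ∧ R.relIndex (R ⊔ Psi p (FG d)) = p ^ κ} := by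
      ext R
      simp only [Set.mem_iUnion, Set.mem_ofPred_eq]
      constructor
      · intro hR
        obtain ⟨κ, hκ, hκR⟩ := hidx R hR
        exact ⟨κ, hκ, hR, hκR⟩
      · rintro ⟨κ, -, hR, -⟩
        exact hR
    have := (hCLS p d n hp).2.2.2.2 ℕ (Finset.range (2 * s + 3))
      (fun κ => {R | R ∈ C ∧ R.relIndex (R ⊔ Psi p (FG d)) = p ^ κ})
      (fun κ _ R hR => hsat.1 hR.1)
    rw [← hcov] at this
    exact this
  refine to_mass hGBB hp hem ?_
  have hexp2 := expo2 hd hn1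
  rw [← hs] at hexp2
  have h10 : (2 * s + 2 + 1) * (10 * (2 * s + 2 + 1)) ≤ p ^ (4 + 2 * (2 * s + 2)) := by
    calc (2 * s + 2 + 1) * (10 * (2 * s + 2 + 1)) = 10 * ((2 * s + 2 + 1) * (2 * s + 2 + 1)) := by
          ring
      _ ≤ 2 ^ 4 * (p ^ (2 * s + 2) * p ^ (2 * s + 2)) :=
          Nat.mul_le_mul (by norm_num) (Nat.mul_le_mul (succ_le_pow hp _) (succ_le_pow hp _))
      _ ≤ p ^ 4 * (p ^ (2 * s + 2) * p ^ (2 * s + 2)) :=
          Nat.mul_le_mul_right _ (Nat.pow_le_pow_left hp.two_le 4)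
      _ = _ := by rw [← pow_add, ← pow_add]; congr 1; omega
  have hsum : ncl C * Nat.card (GLp p d) * p ^ (n ^ 2 / 20) ≤
      p ^ (d * s + (4 + 2 * (2 * s + 2)) + (n ^ 2 / 400 + 10 * n +
        ((n - d) * (m - (n - d)) + 2 * ((n - d) * (2 * s + 2))))) := by
    calc ncl C * Nat.card (GLp p d) * p ^ (n ^ 2 / 20) ≤
        (∑ κ ∈ Finset.range (2 * s + 3),
          ncl {R | R ∈ C ∧ R.relIndex (R ⊔ Psi p (FG d)) = p ^ κ}) * Nat.card (GLp p d) *
          p ^ (n ^ 2 / 20) := Nat.mul_le_mul_right _ (Nat.mul_le_mul_right _ hunion)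
      _ = ∑ κ ∈ Finset.range (2 * s + 3),
          (ncl {R | R ∈ C ∧ R.relIndex (R ⊔ Psi p (FG d)) = p ^ κ} * Nat.card (GLp p d) *
          p ^ (n ^ 2 / 20)) := by rw [Finset.sum_mul, Finset.sum_mul]
      _ ≤ ∑ κ ∈ Finset.range (2 * s + 3), (p ^ (d * s) * (10 * (2 * s + 2 + 1)) *
          p ^ (n ^ 2 / 400 + 10 * n +
            ((n - d) * (m - (n - d)) + 2 * ((n - d) * (2 * s + 2))))) := Finset.sum_le_sum hone
      _ = p ^ (d * s) * ((2 * s + 2 + 1) * (10 * (2 * s + 2 + 1))) *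
          p ^ (n ^ 2 / 400 + 10 * n +
            ((n - d) * (m - (n - d)) + 2 * ((n - d) * (2 * s + 2)))) := by
          rw [Finset.sum_const, Finset.card_range, smul_eq_mul]; ring
      _ ≤ p ^ (d * s) * p ^ (4 + 2 * (2 * s + 2)) *
          p ^ (n ^ 2 / 400 + 10 * n +
            ((n - d) * (m - (n - d)) + 2 * ((n - d) * (2 * s + 2)))) :=
          Nat.mul_le_mul_right _ (Nat.mul_le_mul_left _ h10)
      _ = _ := by rw [← pow_add, ← pow_add]
  have hle : n ^ 2 / 100 ≤ n ^ 2 / 20 := by omega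
  have hfin : (ncl C * Nat.card (GLp p d) * p ^ (n ^ 2 / 100)) * p ^ (n ^ 2 / 20 - n ^ 2 / 100) ≤
      p ^ ((n - d) * (m - (n - d))) * p ^ (n ^ 2 / 20 - n ^ 2 / 100) := by
    calc (ncl C * Nat.card (GLp p d) * p ^ (n ^ 2 / 100)) * p ^ (n ^ 2 / 20 - n ^ 2 / 100) =
        ncl C * Nat.card (GLp p d) * p ^ (n ^ 2 / 20) := by
          rw [mul_assoc, ← pow_add, Nat.add_sub_cancel' hle]
      _ ≤ _ := hsum
      _ ≤ p ^ ((n - d) * (m - (n - d)) + (n ^ 2 / 20 - n ^ 2 / 100)) :=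
          Nat.pow_le_pow_right hp.pos (by omega)
      _ = _ := pow_add _ _ _
  exact Nat.le_of_mul_le_mul_right hfin (pow_pos hp.pos _)

end Pool.Agent.Lib.MP4ccb00.N
end

section
/-!
# MP_4ccb00_al, part (d), module SPT
-/
set_option autoImplicit false

namespace Pool.Agent.Lib.MP4ccb00.N

open Subgroup Module E

namespace SPTM

/-- linearly independent vectors whose span contains given vectors -/
theorem exists_li (p d s s' : ℕ) (hp : p.Prime) (hs' : s' ≤ s) (hs : s ≤ d)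
    (u : Fin s' → (Fin d → ZMod p)) :
    ∃ v : Fin s → (Fin d → ZMod p), LinearIndependent (ZMod p) v ∧
      ∀ j, u j ∈ Submodule.span (ZMod p) (Set.range v) := by
  have : Fact p.Prime := ⟨hp⟩
  let W := Submodule.span (ZMod p) (Set.range u)
  have hW : finrank (ZMod p) W ≤ s' := by
    have h := finrank_range_le_card (R := ZMod p) u
    simpa [Set.finrank] using h
  let b := Module.finBasis (ZMod p) W
  have hb : LinearIndependent (ZMod p) (fun i => (b i : Fin d → ZMod p)) :=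
    b.linearIndependent.map' W.subtype (Submodule.ker_subtype W)
  obtain ⟨g, hg⟩ := GLVM.exists_gl p d (finrank (ZMod p) W) hp (by omega) _ hb
  have hrows : LinearIndependent (ZMod p) (g : Matrix (Fin d) (Fin d) (ZMod p)).row :=
    Matrix.linearIndependent_rows_iff_isUnit.2 g.isUnit
  refine ⟨fun i => (g : Matrix (Fin d) (Fin d) (ZMod p)) (Fin.castLE hs i),
    hrows.comp (Fin.castLE hs) (Fin.castLE_injective hs), ?_⟩
  have hle : W ≤ Submodule.span (ZMod p) (Set.range fun i : Fin s =>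
      (g : Matrix (Fin d) (Fin d) (ZMod p)) (Fin.castLE hs i)) := by
    have h1 : W = Submodule.span (ZMod p) (Set.range fun i => (b i : Fin d → ZMod p)) := by
      have h2 : Submodule.map W.subtype (Submodule.span (ZMod p) (Set.range b)) =
          Submodule.map W.subtype ⊤ := by rw [b.span_eq]
      rw [Submodule.map_top, Submodule.range_subtype, Submodule.map_span, ← Set.range_comp] at h2
      exact h2.symm
    rw [h1, Submodule.span_le]
    rintro _ ⟨i, rfl⟩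
    apply Submodule.subset_span
    refine ⟨⟨i.1, by have := i.2; omega⟩, ?_⟩
    exact hg i (by have := i.2; omega)
  intro j
  exact hle (Submodule.subset_span ⟨j, rfl⟩)

/-- the image of a subgroup under `ab` is a subspace -/
theorem span_mem (p d : ℕ) (hp : p.Prime) (G' : Subgroup (FG d)) (S : Set (Fin d → ZMod p))
    (hS : ∀ u ∈ S, ∃ w ∈ G', Multiplicative.toAdd (ab p w) = u) :
    ∀ u ∈ Submodule.span (ZMod p) S, ∃ w ∈ G', Multiplicative.toAdd (ab p w) = u := by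
  have : Fact p.Prime := ⟨hp⟩
  intro u hu
  induction hu using Submodule.span_induction with
  | mem x hx => exact hS x hx
  | zero => exact ⟨1, one_mem _, by rw [map_one, toAdd_one]⟩
  | add x y _ _ hx hy =>
    obtain ⟨w, hw, rfl⟩ := hx
    obtain ⟨w', hw', rfl⟩ := hy
    exact ⟨w * w', mul_mem hw hw', by rw [map_mul, toAdd_mul]⟩
  | smul c x _ hx =>
    obtain ⟨w, hw, rfl⟩ := hx
    refine ⟨w ^ c.val, pow_mem hw _, ?_⟩
    rw [map_pow, toAdd_pow]
    have h1 : (c.val : ZMod p) = c := ZMod.natCast_zmod_val c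
    conv_rhs => rw [← h1]
    rw [Nat.cast_smul_eq_nsmul]

end SPTM

open SPTM in
/-- Special twists. -/
theorem specSPT (hTWI : SpecTWI) (hADJ : SpecADJ) (hABP : SpecABP) : SpecSPT := by
  intro p d n k s hp hk hns hsd R hR hND
  have hpf : Fact p.Prime := ⟨hp⟩
  obtain ⟨s', h, hs', hcomm⟩ := hND
  have hss : s' ≤ s := ((Nat.le_div_iff_mul_le hk).2 hs').trans hns
  obtain ⟨hker, -, hmulv, -, hcan, -⟩ := hABP p d hp
  obtain ⟨v, hv, hspan⟩ := exists_li p d s s' hp hss hsd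
    (fun j => Multiplicative.toAdd (ab p (h j)))
  refine ⟨v, hv, fun g hg => ?_⟩
  obtain ⟨-, -, -, -, hspl, -, -⟩ := hTWI p d n hp R hR g
  rw [hspl s]
  refine hADJ p (FG d) (gen h) _ R hR.1 ⟨n, hR.2.2⟩ hcomm ?_
  rw [gen, Subgroup.closure_le]
  rintro _ ⟨j, rfl⟩
  obtain ⟨w, hw, hwj⟩ := span_mem p d hp
    (gen fun i => hm (can p (g : Matrix (Fin d) (Fin d) (ZMod p))) (xg d s i))
    (Set.range v) (by
      rintro _ ⟨i, rfl⟩
      refine ⟨_, Subgroup.subset_closure ⟨i, rfl⟩, ?_⟩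
      have hi : i.1 < d := lt_of_lt_of_le i.2 hsd
      have h1 : hm (can p (g : Matrix (Fin d) (Fin d) (ZMod p))) (xg d s i) =
          can p (g : Matrix (Fin d) (Fin d) (ZMod p)) ⟨i.1, hi⟩ := by
        simp [xg, hi, hm]
      change Multiplicative.toAdd (ab p (hm (can p (g : Matrix (Fin d) (Fin d) (ZMod p)))
        (xg d s i))) = v i
      rw [h1, ← hg i hi]
      have h2 := hcan (g : Matrix (Fin d) (Fin d) (ZMod p))
      funext l
      exact congrFun (congrFun h2 ⟨i.1, hi⟩) l) _ (hspan j)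
  have h3 : w⁻¹ * h j ∈ PhiP p (⊤ : Subgroup (FG d)) := by
    have h4 : w⁻¹ * h j ∈ (ab p : FG d →* _).ker := by
      rw [MonoidHom.mem_ker, map_mul, map_inv]
      have h5 : ab p w = ab p (h j) := Multiplicative.toAdd.injective hwj
      rw [h5, inv_mul_cancel]
    rw [hker] at h4
    exact h4
  have h6 : h j = w * (w⁻¹ * h j) := by group
  rw [SetLike.mem_coe, h6]
  exact mul_mem (Subgroup.mem_sup_left hw) (Subgroup.mem_sup_right h3)

end Pool.Agent.Lib.MP4ccb00.N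
end
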