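import Pool.Agent.Lib.MP_4ccb00_al.N.Defs

/-!
# MP_4ccb00_al, part (d): nondegenerate groups, exact statements

Every module `NAME` proves `theorem specNAME (h.. : Spec..) : SpecNAME` in `N/NAME.lean`, own lemmas in
the namespace `Pool.Agent.Lib.MP4ccb00.N.NAMEM`. Any Spec of `E`, `L`, `N` may be used as a hypothesis
(no circles: the docstrings name what is needed).

Notation in the proofs: `D = ⁅⊤,⊤⁆` (derived group of `F`), `Phi = PhiP p ⊤`, `A = Cz S R`; for normal `R`: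
`w ∈ A ↔ w ∈ D ⊔ R ∧ ∀ y ∈ S, ⁅w,y⁆ ∈ R` (`Subgroup.normalCore_eq_self`).
-/

set_option autoImplicit false

namespace Pool.Agent.Lib.MP4ccb00.N

open Subgroup Module E

open scoped commutatorElement

/-! ## Part A: the count of special marked groups -/

/-- `FIB` (40 lines): counting by fibres. PROOF. `Set.ncard` of a finite union (fibres over the finite set
`T`); `S = ⋃_{b ∈ T} (S ∩ φ⁻¹ b)`. -/
def SpecFIB : Prop := ∀ (α β : Type) (φ : α → β) (S : Set α) (T : Set β) (N M : ℕ),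
  T.Finite → T.ncard ≤ N → (∀ a ∈ S, φ a ∈ T) →
  (∀ b ∈ T, {a | a ∈ S ∧ φ a = b}.Finite ∧ {a | a ∈ S ∧ φ a = b}.ncard ≤ M) →
  S.Finite ∧ S.ncard ≤ N * M

/-- `PHS` (100 lines): the Frattini subgroup of `S`. PROOF. `F/Phi` is elementary abelian of order
`p^(s+t)` and is the product of the images of `gen x` (at most `p^s` elements) and `gen z` (at most `p^t`
elements: `x_1^{i_1} .. x_s^{i_s}`, `0 ≤ i < p`), so these have exactly `p^s`, `p^t` elements: the index of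
`Phi.subgroupOf S` in `S` is `p^s`. `PhiP p ⊤` of the group `↥S` is contained in it and has index at most
`p^s` in `S` (the quotient is commutative of exponent `p`, generated by `s` elements). So they are
equal. -/
def SpecPHS : Prop := ∀ (p : ℕ) [Fact p.Prime] (F : Type) [Group F] (s t : ℕ) (x : Fin s → F)
  (z : Fin t → F), gen x ⊔ gen z = ⊤ → (PhiP p (⊤ : Subgroup F)).index = p ^ (s + t) →
  (PhiP p (⊤ : Subgroup F)).subgroupOf (gen x) = PhiP p (⊤ : Subgroup ↥(gen x)) ∧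
  (PhiP p (⊤ : Subgroup ↥(gen x))).index = p ^ s

/-- `DED` (150 lines): passage from `F` to `S`. PROOF. `D ⊔ R = ⁅S,S⁆ ⊔ R` (`Spl`, and `⁅S,S⁆ ≤ D`).
(1) `A` is normal in `F`: `D ⊔ R` is; let `w ∈ A`, `g ∈ F`, `y ∈ S`: `⁅g w g⁻¹, y⁆ = g ⁅w, g⁻¹ y g⁆ g⁻¹`,
and `g⁻¹ y g = y ⁅y⁻¹, g⁻¹⁆ ∈ y D`, `D ≤ S ⊔ R`, so `g⁻¹ y g = y' r` with `y' ∈ S`, `r ∈ R`, and
`⁅w, y' r⁆ = ⁅w, y'⁆ (y' ⁅w, r⁆ y'⁻¹) ∈ R`. `R ≤ A ≤ D ⊔ R`.
(2) `⁅a, y⁆ ∈ R ⊓ S` for `a ∈ A ⊓ S`, `y ∈ S`.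
(3) For normal `R ≤ C ≤ C' ≤ S ⊔ R`: `C = (C ⊓ S) R`, `C' = (C' ⊓ S) R` (modular law), and
`C'/C = (C' ⊓ S) C / C ≅ (C' ⊓ S)/(C ⊓ S)`. Apply with `C = R`, `C' = A ⊓ R₁`; `C = A`, `C' = D ⊔ R`;
(`relIndex` in `↥S`: `Subgroup.relIndex_subgroupOf` or `Subgroup.relIndex` of the intersections).
(4) `(D ⊔ R) ⊓ S = ⁅S,S⁆ (R ⊓ S)` (modular law), and `⁅S,S⁆` is the image of `⁅⊤,⊤⁆` of `↥S`.
(5) `(Phi ⊓ S)/((D ⊔ R) ⊓ S)` embeds in `Phi/(D ⊔ R)`, a normal section (`D ⊔ R` normal), so its order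
divides `p^f`. -/
def SpecDED : Prop := ∀ (p : ℕ) [Fact p.Prime] (F : Type) [Group F] (S R R₁ : Subgroup F), R.Normal →
  R₁.Normal → (∃ m, R.index = p ^ m) → R ≤ R₁ → R ≤ PhiP p ⊤ → Spl S R →
  (Cz S R).Normal ∧ R ≤ Cz S R ∧ Cz S R ≤ ⁅(⊤ : Subgroup F), (⊤ : Subgroup F)⁆ ⊔ R ∧
  ⁅(Cz S R).subgroupOf S, (⊤ : Subgroup ↥S)⁆ ≤ R.subgroupOf S ∧
  (R.subgroupOf S).relIndex ((Cz S R ⊓ R₁).subgroupOf S) = R.relIndex (Cz S R ⊓ R₁) ∧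
  ((Cz S R).subgroupOf S).relIndex ((⁅(⊤ : Subgroup F), (⊤ : Subgroup F)⁆ ⊔ R).subgroupOf S) =
    (Cz S R).relIndex (⁅(⊤ : Subgroup F), (⊤ : Subgroup F)⁆ ⊔ R) ∧
  (⁅(⊤ : Subgroup F), (⊤ : Subgroup F)⁆ ⊔ R).subgroupOf S =
    ⁅(⊤ : Subgroup ↥S), (⊤ : Subgroup ↥S)⁆ ⊔ R.subgroupOf S ∧
  ((⁅(⊤ : Subgroup F), (⊤ : Subgroup F)⁆ ⊔ R).subgroupOf S).relIndex ((PhiP p ⊤ : Subgroup F).subgroupOf S) ∣
    (⁅(⊤ : Subgroup F), (⊤ : Subgroup F)⁆ ⊔ R).relIndex (PhiP p ⊤)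

/-- `NDT` (80 lines): the number of possible `T = D ⊔ R`. PROOF. Induction on `f`. `f = 0`: `T = Phi`.
`f + 1`: `TOP`/`BOT` (for `T < Phi`) give a normal `T₁ > T`, `T.relIndex T₁ = p`, so
`T₁.relIndex Phi = p^f`, `T₁.index = p^(d+f)`. For given `T₁` the number of such `T` is at most `p^(2d+f)`
by `NXT` with `D = ⁅⊤,⊤⁆` (`T₁ ⊓ D ≤ T`) and `E2` with `N = ⊤`, `K = 0`: `YY p ⊤ T₁ D` has dimension at most
`(d + f) + d`. Total exponent `∑_{i<f} (2 d + i) ≤ f (2 d + f)`. -/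
def SpecNDT : Prop := ∀ (p : ℕ) [Fact p.Prime] (F : Type) [Group F] (d f : ℕ) (x : Fin d → F),
  gen x = ⊤ → (PhiP p (⊤ : Subgroup F)).index = p ^ d →
  {T : Subgroup F | T.Normal ∧ ⁅(⊤ : Subgroup F), (⊤ : Subgroup F)⁆ ≤ T ∧ T ≤ PhiP p ⊤ ∧
    T.relIndex (PhiP p ⊤) = p ^ f}.Finite ∧
  {T : Subgroup F | T.Normal ∧ ⁅(⊤ : Subgroup F), (⊤ : Subgroup F)⁆ ≤ T ∧ T ≤ PhiP p ⊤ ∧
    T.relIndex (PhiP p ⊤) = p ^ f}.ncard ≤ p ^ (f * (2 * d + f))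

/-- `NAA` (60 lines): crude count of normal subgroups below `T`. PROOF. Induction on `π` as in `NDT`, with
`NXT` (`D = ⊥`) and `AY`: for `A₁` of index `p^(m+i)` at most `p^((s+1)(m+i)+s)`. -/
def SpecNAA : Prop := ∀ (p : ℕ) [Fact p.Prime] (Γ : Type) [Group Γ] (s m π : ℕ) (x : Fin s → Γ)
  (T : Subgroup Γ), gen x = ⊤ → T.Normal → T.index = p ^ m →
  {A : Subgroup Γ | A.Normal ∧ A ≤ T ∧ A.relIndex T = p ^ π}.Finite ∧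
  {A : Subgroup Γ | A.Normal ∧ A ≤ T ∧ A.relIndex T = p ^ π}.ncard ≤ p ^ (π * ((s + 1) * (m + π) + s))

/-- `YPH` (120 lines): the base of the fine bound. PROOF. `φ ∈ YY p ⊤ Phi ⊥` is determined by the values
`φ (x_i ^ p)` and `φ ⁅x_i, x_j⁆`, `i < j` (`s (s+1)/2` values): if all are `0`, let `N = {r ∈ Phi | φ r = 0}`, a
normal subgroup of `Γ`; in `Γ ⧸ N` the `p`-th powers of the generators are `1` and the generators commute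
(`φ ⁅x_j, x_i⁆ = - φ ⁅x_i, x_j⁆`, `φ ⁅x_i, x_i⁆ = 0`), so `Γ ⧸ N` is commutative of exponent `p`,
`Phi ≤ N`, `φ = 0`. Injective linear map to `ZMod p ^ (s (s+1)/2)` (index set: `i ≤ j`). -/
def SpecYPH : Prop := ∀ (p : ℕ) [Fact p.Prime] (Γ : Type) [Group Γ] (s : ℕ) (x : Fin s → Γ),
  gen x = ⊤ → DLE (YY p ⊤ (PhiP p (⊤ : Subgroup Γ)) ⊥) (s * (s + 1) / 2)

/-- `YFI` (60 lines): the fine bound (uses `YPH`, `BOT`, `CYC`, `EXT`). PROOF. Induction on `j`; `j = 0`: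
`YPH`. `j + 1`: `BOT` for `A < Phi` gives a normal `A₁`, `A < A₁ ≤ Phi`, `A.relIndex A₁ = p`, any
`z ∈ A₁`, `z ∉ A` (`CYC`), `EXT` with `D = ⊥`, `C = ⊥`, `k = s`. -/
def SpecYFI : Prop := ∀ (p : ℕ) [Fact p.Prime] (Γ : Type) [Group Γ] (s j : ℕ) (x : Fin s → Γ)
  (A : Subgroup Γ), gen x = ⊤ → A.Normal → A ≤ PhiP p ⊤ → A.relIndex (PhiP p ⊤) = p ^ j →
  (∃ m, A.index = p ^ m) →
  DLE (YY p ⊤ A ⊥) (s * (s + 1) / 2 + (s + 1) * j)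

/-- `RNK` (120 lines): the `p`-rank of an abelian group does not increase when one passes to a subgroup
of index `p`. PROOF. All subgroups between `⁅A,⊤⁆` and `A` are normal. If `T' = T` nothing to do; otherwise
`T' < T`, fix `z ∈ T`, `z ∉ T'` (`CYC`: every `x ∈ T` is `z^i t'`, `⁅z, g⁆ ∈ T'`, `z^p ∈ T'`). The restriction
map `res : YY p ⊤ T D → YY p ⊤ T' D` (function restricted to `T'`, zero outside; zero on `T' ⊓ D`). Its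
kernel has dimension exactly `1`: it contains the nonzero function `z^i t' ↦ i` (it vanishes on
`T ⊓ D ≤ T'`, since `D ≤ T'`), and a function of the kernel is determined by its value at `z`.
Its image contains `{φ ∈ YY p ⊤ T' D | φ (z^p) = 0}`: `φ' (z^i t') = φ t'` is well defined, additive
(`t'` and `z` commute modulo `⁅A,⊤⁆ ≤ D` and `φ` vanishes on `T' ⊓ D`), invariant (every `⁅y, g⁆` with
`y ∈ A` is in `D`). So `dim YY T' ≤ dim image + 1 = dim YY T - 1 + 1`. -/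
def SpecRNK : Prop := ∀ (p : ℕ) [Fact p.Prime] (Γ : Type) [Group Γ] (y : ℕ) (A D T T' : Subgroup Γ),
  A.Normal → D.Normal → T.Normal → T'.Normal → ⁅A, (⊤ : Subgroup Γ)⁆ ≤ D → D ≤ T' → T' ≤ T → T ≤ A →
  (∃ m, T'.index = p ^ m) → T'.relIndex T = p → DLE (YY p ⊤ T D) y → DLE (YY p ⊤ T' D) y

/-- `CRS` (100 lines): the count of `R ⊓ S` (uses `RNK`, `NXT`, `TOP`/`BOT`). PROOF. `D = ⁅A,⊤⁆`. All subgroups
between `D` and `A` are normal. From `T = A` down to `T` (steps of index `p`, all containing `D`; `BOT` in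
the group) `RNK` gives `DLE (YY p ⊤ T D) y` for every `T` with `D ≤ T ≤ A` of finite index; at the top
`YY p ⊤ A D ≤ YY p ⊤ A ⊥`. Then induction on `c` with `NXT`: at most `p^y` subgroups of index `p` in each
step. -/
def SpecCRS : Prop := ∀ (p : ℕ) [Fact p.Prime] (Γ : Type) [Group Γ] (y c : ℕ) (A T : Subgroup Γ),
  A.Normal → ⁅A, (⊤ : Subgroup Γ)⁆ ≤ T → T ≤ A → (∃ m, T.index = p ^ m) → DLE (YY p ⊤ A ⊥) y →
  {R : Subgroup Γ | ⁅A, (⊤ : Subgroup Γ)⁆ ≤ R ∧ R ≤ T ∧ R.relIndex T = p ^ c}.Finite ∧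
  {R : Subgroup Γ | ⁅A, (⊤ : Subgroup Γ)⁆ ≤ R ∧ R ≤ T ∧ R.relIndex T = p ^ c}.ncard ≤ p ^ (c * y)

/-- `CRG` (150 lines): the same with the Grassmannian saving (uses `CRS`, `GBF`, `GBB`). PROOF. Let
`P = ⁅A,⊤⁆ ⊔ closure {p-th powers of A}`, `Y = YY p ⊤ A ⊥`, `y' = dim Y ≤ y`. For `R` in the set put
`R₁ = R ⊔ P`; `P ≤ R₁ ≤ A`, `R.relIndex R₁ = p^b'`, `b' ≤ b`, `R₁.relIndex A = p^e`, `e = c - b'`.
(i) number of `R₁` with `P ≤ R₁ ≤ A`, `R₁.relIndex A = p^e`: send `R₁` to `W = {φ ∈ Y | φ = 0 on R₁}`, of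
dimension `e` (dual of the elementary abelian group `A/R₁`; the functions of `W` are exactly the
homomorphisms of `A/R₁`), injective (`R₁` is the common zero set in `A`). So at most `gb p y' e`,
which is `0` if `e > y'`, and at most `4 p^(e (y'-e)) ≤ 4 p^(e(y-e))` otherwise.
(ii) `R` from `R₁`: `CRS` with `T = R₁`: at most `p^(b' y)`. Product: `4 p^(c y - e^2)` with `e ≥ c - b`. Sum over
`b' = 0..b`. -/
def SpecCRG : Prop := ∀ (p : ℕ) [Fact p.Prime] (Γ : Type) [Group Γ] (y c b : ℕ) (A : Subgroup Γ),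
  A.Normal → (∃ m, A.index = p ^ m) → DLE (YY p ⊤ A ⊥) y →
  {R : Subgroup Γ | ⁅A, (⊤ : Subgroup Γ)⁆ ≤ R ∧ R ≤ A ∧ R.relIndex A = p ^ c ∧
    R.relIndex (R ⊔ closure {w | ∃ u ∈ A, w = u ^ p}) ≤ p ^ b}.Finite ∧
  {R : Subgroup Γ | ⁅A, (⊤ : Subgroup Γ)⁆ ≤ R ∧ R ≤ A ∧ R.relIndex A = p ^ c ∧
    R.relIndex (R ⊔ closure {w | ∃ u ∈ A, w = u ^ p}) ≤ p ^ b}.ncard * p ^ ((c - b) ^ 2) ≤
      4 * (b + 1) * p ^ (c * y)

/-- `ACT` (120 lines): the action on `H` is determined by the commutators `⁅x_l, z_i⁆`. PROOF. Put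
`R₀ = R ⊓ R'` (normal, finite index). (1) `Z = {g | ∀ y ∈ S, g y g⁻¹ ∈ S ⊔ R₀}` is closed under
products, contains `S`, and contains `z_i`: it is enough to look at `y = x_l`, and
`z_i x_l z_i⁻¹ = ⁅x_l, z_i⁆⁻¹ x_l`, `⁅x_l, z_i⁆ = u (u⁻¹ ⁅x_l, z_i⁆) ∈ S R₀`. Inverses: a positive power of
every element is in `R₀`, so the inverse of `g` is `g^k r₀` for some `k : ℕ`, `r₀ ∈ R₀ ≤ Z`. So `Z = ⊤`.
(2) `y ∈ S`: `v y v⁻¹ = y' r₀` by (1). `v = u r`, `r ∈ R`: `v y v⁻¹ ∈ (u y u⁻¹) R`, so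
`y'⁻¹ (u y u⁻¹) ∈ R`, and in `S`, so in `R ⊓ S = R' ⊓ S`. In the same way `y'⁻¹ (u' y u'⁻¹) ∈ R' ⊓ S`. So
`(u y u⁻¹)⁻¹ (u' y u'⁻¹) ∈ R ⊓ S`, which is normal in `S`: conjugate with `u⁻¹` to get `⁅u⁻¹ u', y⁆ ∈ R`. -/
def SpecACT : Prop := ∀ (p : ℕ) [Fact p.Prime] (F : Type) [Group F] (s t : ℕ) (x : Fin s → F)
  (z : Fin t → F) (R R' : Subgroup F), gen x ⊔ gen z = ⊤ → R.Normal → R'.Normal →
  (∃ m, R.index = p ^ m) → (∃ m, R'.index = p ^ m) → R ⊓ gen x = R' ⊓ gen x →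
  (∀ l i, ∃ u ∈ gen x, u⁻¹ * ⁅x l, z i⁆ ∈ R ⊓ R') →
  (∀ g : F, ∀ y ∈ gen x, g * y * g⁻¹ ∈ gen x ⊔ (R ⊓ R')) ∧
  (∀ v u u' : F, u ∈ gen x → u' ∈ gen x → u⁻¹ * v ∈ R → u'⁻¹ * v ∈ R' →
    ∀ y ∈ gen x, ⁅u⁻¹ * u', y⁆ ∈ R ⊓ gen x)

/-- `DET` (80 lines): `R` is determined by the data (uses `ACT`). PROOF. `S₁ = S ⊔ (R ⊓ R')` is a normal
subgroup by `ACT` (1), it contains `⁅x_l, x_k⁆`, `⁅x_l, z_i⁆`, `⁅z_i, z_j⁆`, so `D ≤ S₁` (in `F ⧸ S₁` the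
generators commute), and it contains all `w j`. So `S ⊔ T = S ⊔ D ⊔ gen w ≤ S₁`, and
`R ≤ T ≤ S ⊔ (R ⊓ R')`. Modular law: `R = (S ⊓ R) ⊔ (R ⊓ R')` and `S ⊓ R = S ⊓ R' ≤ R'`: `R ≤ R'`. By symmetry
`R' ≤ R`. -/
def SpecDET : Prop := ∀ (p : ℕ) [Fact p.Prime] (F : Type) [Group F] (s t : ℕ) (x : Fin s → F)
  (z w : Fin t → F) (R R' T : Subgroup F), gen x ⊔ gen z = ⊤ → R.Normal → R'.Normal →
  (∃ m, R.index = p ^ m) → (∃ m, R'.index = p ^ m) → R ⊓ gen x = R' ⊓ gen x →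
  (∀ l i, ∃ u ∈ gen x, u⁻¹ * ⁅x l, z i⁆ ∈ R ⊓ R') →
  (∀ i j, i < j → ∃ u ∈ gen x, u⁻¹ * ⁅z i, z j⁆ ∈ R ⊓ R') →
  (∀ j, ∃ u ∈ gen x, u⁻¹ * w j ∈ R ⊓ R') →
  gen x ⊔ ⁅(⊤ : Subgroup F), (⊤ : Subgroup F)⁆ ⊔ gen w = gen x ⊔ T → R ≤ T → R' ≤ T → R = R'

/-- `WRD` (80 lines): relators. PROOF. `F/(S ⊔ D)` is an abelian group generated by `t` elements (the
images of the `z_i`); every subgroup of it is generated by at most `t` elements (submodules of `ℤ^t`: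
`Submodule.nonempty_basis_of_pid` or `Module.Finite` and rank), in particular the image of `T`; choose
generators in the image of `T` and lift them to `T` (fill up with `1`). -/
def SpecWRD : Prop := ∀ (F : Type) [Group F] (s t : ℕ) (x : Fin s → F) (z : Fin t → F)
  (T : Subgroup F), gen x ⊔ gen z = ⊤ → ⁅(⊤ : Subgroup F), (⊤ : Subgroup F)⁆ ≤ T →
  ∃ w : Fin t → F, (∀ j, w j ∈ T) ∧
    gen x ⊔ ⁅(⊤ : Subgroup F), (⊤ : Subgroup F)⁆ ⊔ gen w = gen x ⊔ T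

/-- `FBR` (300 lines): the number of `R` with given `T = D ⊔ R` and `Rs = R ⊓ S` (uses `FIB`, `ACT`, `DET`,
`WRD`, `DED`). PROOF. If the set is empty nothing to do. `S = gen x`, `w` from `WRD` for `T`. For `R` in the set
`D ≤ ⁅S,S⁆ ⊔ R`, so for every `v ∈ T = D ⊔ R` there is `u ∈ S ⊓ T` with `u⁻¹ v ∈ R`; `u` is unique modulo `Rs`
(`u⁻¹ u' ∈ R ⊓ S`). Let `Λ` be the set of left cosets `F ⧸ Rs` (a type), and let `κ_R(v) ∈ Λ` be the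
class of `u`. First data: `κ_R ⁅x_l, z_i⁆`, `s t` values. Fix `R°` in the set, `u°` for `R°`; for `R` in
the set `u⁻¹ u° ∈ R R° ≤ R₁` and `∈ S ⊓ T`, so `κ_R(v)` is in the set of classes of
`u° (S ⊓ T ⊓ R₁)`, which has `|S ⊓ T ⊓ R₁ : Rs| ≤ |S ⊓ T : S ⊓ A| |S ⊓ A ⊓ R₁ : Rs| = p^(π + a₁)` elements (`DED`
(3) for `R°`; `A = Cz S R°`). So at most `p^((π + a₁) s t)` values of the first data. Second data:
`κ_R ⁅z_i, z_j⁆`, `i < j`, and `κ_R (w j)`: `t (t+1)/2` values. Fix `R°` among the `R` with a given first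
data. For `R` with the same first data, `ACT` (2) gives: `u⁻¹ u°` satisfies `⁅u⁻¹ u°, y⁆ ∈ Rs` for all
`y ∈ S`, i.e. `u⁻¹ u° ∈ Cz S R°` (and `∈ S`, `∈ R₁`): at most `|S ⊓ A ⊓ R₁ : Rs| = p^(a₁)` values for each.
(`ACT` and `DET` ask for one `u` with `u⁻¹ v ∈ R ⊓ R'`: if `κ_R(v) = κ_R'(v)` then `u' = u r`, `r ∈ Rs ≤ R'`,
and `u⁻¹ v = r u'⁻¹ v ∈ R'`.) Finally `R` is determined by all data (`DET`). -/
def SpecFBR : Prop := ∀ (p : ℕ) [Fact p.Prime] (F : Type) [Group F] (s t n f π a a₁ : ℕ)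
  (x : Fin s → F) (z : Fin t → F) (R₁ T Rs : Subgroup F), gen x ⊔ gen z = ⊤ → R₁.Normal →
  {R : Subgroup F | R ∈ SP p n f π a a₁ (gen x) R₁ ∧ ⁅(⊤ : Subgroup F), (⊤ : Subgroup F)⁆ ⊔ R = T ∧
    R ⊓ gen x = Rs}.Finite ∧
  {R : Subgroup F | R ∈ SP p n f π a a₁ (gen x) R₁ ∧ ⁅(⊤ : Subgroup F), (⊤ : Subgroup F)⁆ ⊔ R = T ∧
    R ⊓ gen x = Rs}.ncard ≤ p ^ ((a₁ + π) * (s * t) + a₁ * (t * (t + 1) / 2))

/-- `ND1` (200 lines): the count (uses `FIB`, `PHS`, `DED`, `NDT`, `NAA`, `YFI`, `CRS`, `FBR`). PROOF. Three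
times `FIB`. `R ↦ T = D ⊔ R`: at most `p^(f (2 (s+t) + f))` values (`NDT`, generators `x, z`). For given `T`
let `Γ = ↥S`, `T_s = T.subgroupOf S`; by `PHS` and `DED` (5) its index in `Γ` is `p^m`, `m ≤ s + f`.
`R ↦ A_s = (Cz S R).subgroupOf S`: normal in `Γ`, contained in `T_s` with index `p^π` (`DED`): at most
`p^(π ((s+1)(s+f+π)+s))` values (`NAA`). For given `A_s`: `A_s ≤ T_s ≤ PhiP p ⊤` of `Γ` (`PHS`), index
`p^j` with `j ≤ f + π`, so `DLE (YY p ⊤ A_s ⊥) y` with `y = s(s+1)/2 + (s+1)(f+π)` (`YFI`, monotone). `R_s = R.subgroupOf S` satisfies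
`⁅A_s,⊤⁆ ≤ R_s ≤ T' = (Cz S R ⊓ R₁).subgroupOf S = A_s ⊓ R₁.subgroupOf S` (depends only on `A_s`), index
`p^(a₁)`: at most `p^(a₁ y)` values (`CRS`; if the set is nonempty then `⁅A_s,⊤⁆ ≤ T'`). For given
`T, R_s` (i.e. `R ⊓ S`) at most `p^((a₁+π) s t + a₁ t(t+1)/2)` groups `R` (`FBR`). -/
def SpecND1 : Prop := ∀ (p : ℕ) [Fact p.Prime] (F : Type) [Group F] (s t n f π a a₁ : ℕ)
  (x : Fin s → F) (z : Fin t → F) (R₁ : Subgroup F), gen x ⊔ gen z = ⊤ →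
  (PhiP p (⊤ : Subgroup F)).index = p ^ (s + t) → R₁.Normal →
  (SP p n f π a a₁ (gen x) R₁).Finite ∧
  (SP p n f π a a₁ (gen x) R₁).ncard ≤ p ^ eX s t f π a₁

/-- `ND2` (120 lines): the count with the Grassmannian saving. PROOF. As `ND1` with `R₁ = ⊤`, `a₁ = a`, and
`CRG` instead of `CRS`: `R_s ⊔ (p-th powers of A_s) ≤ (R ⊔ Psi).subgroupOf S` because
`A ≤ D ⊔ R ≤ Phi`, so `R_s.relIndex (R_s ⊔ ..) ≤ R.relIndex (R ⊔ Psi p F) ≤ p^b` (a section of `S` embeds in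
the section of `F`). -/
def SpecND2 : Prop := ∀ (p : ℕ) [Fact p.Prime] (F : Type) [Group F] (s t n f π a b : ℕ)
  (x : Fin s → F) (z : Fin t → F), gen x ⊔ gen z = ⊤ →
  (PhiP p (⊤ : Subgroup F)).index = p ^ (s + t) →
  {R : Subgroup F | R ∈ SP p n f π a a (gen x) ⊤ ∧ R.relIndex (R ⊔ Psi p F) ≤ p ^ b}.Finite ∧
  {R : Subgroup F | R ∈ SP p n f π a a (gen x) ⊤ ∧ R.relIndex (R ⊔ Psi p F) ≤ p ^ b}.ncard *
    p ^ ((a - b) ^ 2) ≤ 4 * (b + 1) * p ^ eX s t f π a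

/-! ## Part B: small commutators -/

/-- `KKK` (120 lines). PROOF. Induction on `j`. `j + 1`: `BOT` (for `C < C'`) gives a normal `C₁`, `C < C₁ ≤ C'`,
`C.relIndex C₁ = p`; by induction (`C₁, C'`) it is enough to treat `j = 1`, i.e. `C' = C₁`. Let
`L = ⁅C,⊤⁆ ⊔ R`, normal. In `Γ ⧸ L` the image of `C` is central. `z ∈ C₁`, `z ∉ C` (`CYC` with `R' = C`:
`C₁ = ⋃ z^i C`, `⁅z, g⁆ ∈ C`, `z^p ∈ C`). Modulo `L`: `⁅z^i c, g⁆ ≡ ⁅z, g⁆^i`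
(`⁅z, g⁆ ∈ C` is central mod `L`), `g ↦ ⁅z, g⁆` is a homomorphism to the abelian group `C/L` mod..,
`⁅z, g⁆^p ≡ ⁅z^p, g⁆ ≡ 1`. So `⁅C₁,⊤⁆ L / L` is generated by the `s` commuting elements `⁅z, x_i⁆` of
order dividing `p`: at most `p^s` elements. -/
def SpecKKK : Prop := ∀ (p : ℕ) [Fact p.Prime] (Γ : Type) [Group Γ] (s j : ℕ) (x : Fin s → Γ)
  (R C C' : Subgroup Γ), gen x = ⊤ → R.Normal → C.Normal → C'.Normal → (∃ m, R.index = p ^ m) →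
  R ≤ C → C ≤ C' → C.relIndex C' = p ^ j →
  (⁅C, (⊤ : Subgroup Γ)⁆ ⊔ R).relIndex (⁅C', (⊤ : Subgroup Γ)⁆ ⊔ R) ≤ p ^ (j * s)

/-- `KAP` (200 lines): `|R Psi : R| ≤ p^((f+π) s + f)` for special `R` (uses `KKK`, `DED`, `PHS`). PROOF.
`S = gen x`, `Γ = ↥S`, `R_s = R.subgroupOf S`, `A_s`, `T_s = (D ⊔ R).subgroupOf S`, `Phi_s = PhiP p ⊤` of `Γ`
(`= Phi.subgroupOf S`, `PHS`). `KKK` with `C = A_s`, `C' = T_s` (index `p^π`) and then with `C = T_s`,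
`C' = Phi_s` (index `p^f'`, `f' ≤ f`, `DED` (5)), `⁅A_s,⊤⁆ ≤ R_s`: `|⁅Phi_s,⊤⁆ R_s : R_s| ≤ p^((f+π) s)`. Let
`P = ⁅Phi ⊓ S, S⁆ ⊔ R` (in `F`): `R.relIndex P ≤ p^((f+π)s)` (if `P` is a subgroup of `F`; it is the product
of the image of `⁅Phi_s,⊤⁆` and `R`).
(1) `⁅D, F⁆ ≤ ⁅⁅S,S⁆,S⁆ ⊔ R ≤ P`: let `L = ⁅⁅S,S⁆,S⁆ ⊔ R`. For `g ∈ F`, `x ∈ S`: `g x g⁻¹ = c x` with
`c ∈ D ≤ ⁅S,S⁆ R`, so modulo `R`, `c ∈ ⁅S,S⁆`, and for `x, y ∈ S`: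
`g ⁅x, y⁆ g⁻¹ = ⁅c x, c' y⁆ ≡ ⁅x, y⁆` modulo `⁅⁅S,S⁆,S⁆ R` (`⁅⁅S,S⁆,S⁆` is normal in `S`; inside the group `S R / R`).
So `g` acts trivially on `⁅S,S⁆ R / L`, `L` is normal in `F` and `⁅D,F⁆ ≤ ⁅⁅S,S⁆ R, F⁆ ≤ L`.
(2) `d ∈ D` implies `d^p ∈ P`: modulo `L` the group `D` is central (by (1)) hence abelian, generated by the
`⁅x, y⁆`, `x, y ∈ S`, and `⁅x, y⁆^p ≡ ⁅x^p, y⁆ ∈ ⁅Phi ⊓ S, S⁆` (class 2 identity modulo `L`).
(3) `⁅Phi, F⁆ ≤ P`: `Phi = D ⊔ closure (p-th powers)`, `⁅D,F⁆ ≤ L ≤ P`, `⁅g^p, h⁆ ≡ ⁅g, h⁆^p` modulo `L`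
(`⁅g,h⁆ ∈ D` is central modulo `L`), which is in `P` by (2). In particular `P` is normal:
`⁅P, F⁆ ≤ ⁅Phi, F⁆ ⊔ R ≤ P`.
(4) `p`-th powers of `Phi` modulo `P`: `Phi/P` is abelian (3), `(D ⊔ R)/P`.. is killed by `p` (2), so
`u ↦ u^p P` factors through `Phi/(D ⊔ R)P`, which has at most `p^f` elements. So
`|R Psi : R| ≤ |P : R| |P (p-th powers of Phi) : P| ≤ p^((f+π)s) p^f`. (`Psi = ⁅Phi,⊤⁆ ⊔ p-th powers`.) -/
def SpecKAP : Prop := ∀ (p : ℕ) [Fact p.Prime] (F : Type) [Group F] (s t n f π a a₁ : ℕ)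
  (x : Fin s → F) (z : Fin t → F) (R₁ : Subgroup F), gen x ⊔ gen z = ⊤ →
  (PhiP p (⊤ : Subgroup F)).index = p ^ (s + t) → R₁.Normal →
  ∀ R ∈ SP p n f π a a₁ (gen x) R₁, R.relIndex (R ⊔ Psi p F) ≤ p ^ ((f + π) * s + f)

/-- `ADJ` (100 lines): specialness only depends on `S Phi` (uses `BF`). PROOF. `BF` with `N = ⊤`: it is enough that
`D ≤ ⁅H₂,H₂⁆ ⊔ ⁅D,⊤⁆ ⊔ (p-th powers of D) ⊔ R`. Let `M = ⁅D,⊤⁆ ⊔ (p-th powers of D)`, normal;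
`⁅Phi, ⊤⁆ ≤ M`: `Phi = D ⊔ closure (p-th powers)` and `⁅g^p, h⁆ ≡ ⁅g, h⁆^p` modulo `⁅D,⊤⁆`. For
`h, h' ∈ H`, `h = h₂ c`, `h' = h₂' c'` with `c, c' ∈ Phi`: `⁅h, h'⁆ ≡ ⁅h₂, h₂'⁆` modulo `M` (the image of `Phi` is
central). So `⁅H,H⁆ ≤ ⁅H₂,H₂⁆ ⊔ M`. -/
def SpecADJ : Prop := ∀ (p : ℕ) [Fact p.Prime] (F : Type) [Group F] (H H₂ R : Subgroup F),
  R.Normal → (∃ m, R.index = p ^ m) → Spl H R → H ≤ H₂ ⊔ PhiP p ⊤ → Spl H₂ R

/-! ## Part C: twists and classes -/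

/-- `XZG` (30 lines). PROOF. The generators of `FG d` are the values of `xg` and `zg`. -/
def SpecXZG : Prop := ∀ d s : ℕ, s ≤ d → gen (xg d s) ⊔ gen (zg d s) = (⊤ : Subgroup (FG d))

/-- `TWI` (200 lines): twists (uses `ABP`, `EQV`). PROOF. `y = can p g`, `mat p y = g` (`ABP`). `ker ab = Phi`, so
`w ∈ Phi ↔ hm y w ∈ Phi` (`ab (hm y w) = ab w * g`, `g` invertible). (1) `range (hm y) ⊔ Phi = ⊤` and `R` has
`p`-power index, so `range (hm y) ⊔ R = ⊤` (in the finite `p`-group `F ⧸ R` a subgroup which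
generates it together with the Frattini subgroup is everything; as in `DEC`), hence
`F ⧸ tw g R → F ⧸ R` is an isomorphism: `tw g R ∈ X p d n`, `Rel (tw g R) R`.
(2) the isomorphism maps the image of `Psi` onto the image of `Psi` (`Psi` is verbal:
`hm y Psi ≤ Psi`, and `Psi ≤ hm y Psi ⊔ R`, because `F = range (hm y) R`).
(3) `Spl S (tw g R)`: `D ≤ ⁅S,S⁆ ⊔ tw g R`; apply the isomorphism:
`D ≤ ⁅hm y S, hm y S⁆ ⊔ R`, and `hm y (gen (xg d s)) = gen (hm y ∘ xg d s)`.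
(4) if `tw g R = tw g' R`, both isomorphisms `F ⧸ tw → F ⧸ R` give an automorphism of `F ⧸ R`; choose
`a i` with class the image of `x_i`: `hm a (y_i) ≡ y'_i` modulo `R`; matrices (`R ≤ Phi`): `g * mat a = g'`, and
`R ≤ comap (hm a) R`. So `g⁻¹ g' ∈ ImA p R`.
(5) `1 ∈ ImA p R` (`y = of`, `hm y = id`). -/
def SpecTWI : Prop := ∀ (p d n : ℕ), p.Prime → ∀ R ∈ X p d n, ∀ g : GLp p d,
  tw p g R ∈ X p d n ∧ Rel (tw p g R) R ∧ tw p g R ⊔ Psi p (FG d) = tw p g (R ⊔ Psi p (FG d)) ∧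
  (tw p g R).relIndex (tw p g R ⊔ Psi p (FG d)) = R.relIndex (R ⊔ Psi p (FG d)) ∧
  (∀ s : ℕ, Spl (gen (xg d s)) (tw p g R) ↔
    Spl (gen (fun i => hm (can p (g : Matrix (Fin d) (Fin d) (ZMod p))) (xg d s i))) R) ∧
  (∀ g' : GLp p d, tw p g R = tw p g' R → g⁻¹ * g' ∈ ImA p R) ∧ 1 ∈ ImA p R

/-- `SPT` (120 lines): special twists (uses `TWI`, `ADJ`, `ABP`). PROOF. `NonDeg`: `h : Fin s' → F`,
`s' * k ≤ n`, so `s' ≤ n / k ≤ s` (`k ≥ 1`). The span of the vectors `ab (h j)` has dimension at most `s' ≤ s ≤ d`: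
choose linearly independent `v_1..v_s` whose span contains it. If the first `s` rows of `g` are `v`, then
`hm y (xg d s i) = y_i` with `ab y_i = v_i`, so `gen h ≤ gen (hm y ∘ xg) ⊔ Phi` (`ker ab = Phi`), and `ADJ`, `TWI`
(3). -/
def SpecSPT : Prop := ∀ (p d n k s : ℕ), p.Prime → 1 ≤ k → n / k ≤ s → s ≤ d → ∀ R ∈ X p d n,
  NonDeg k n R → ∃ v : Fin s → (Fin d → ZMod p), LinearIndependent (ZMod p) v ∧
    ∀ g : GLp p d, (∀ (i : Fin s) (h : i.1 < d), (g : Matrix (Fin d) (Fin d) (ZMod p)) ⟨i.1, h⟩ = v i) →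
      Spl (gen (xg d s)) (tw p g R)

/-- `GLV` (80 lines): matrices with given first rows. PROOF. Linearly independent `d`-tuples = `GL`
(Mathlib `Matrix.GeneralLinearGroup`, `LinearIndependent` rows). The number with given first `s` rows
`v` does not depend on `v`: `∏_{i=s}^{d-1} (p^d - p^i)`; or: `GL` acts transitively by right multiplication
on the linearly independent `s`-tuples, whose number is at most `p^(d s)`. -/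
def SpecGLV : Prop := ∀ (p d s : ℕ), p.Prime → s ≤ d → ∀ v : Fin s → (Fin d → ZMod p),
  LinearIndependent (ZMod p) v →
  Nat.card (GLp p d) ≤ p ^ (d * s) * Nat.card {g : GLp p d // ∀ (i : Fin s) (h : i.1 < d),
    (g : Matrix (Fin d) (Fin d) (ZMod p)) ⟨i.1, h⟩ = v i} ∧
  ∃ g : GLp p d, ∀ (i : Fin s) (h : i.1 < d), (g : Matrix (Fin d) (Fin d) (ZMod p)) ⟨i.1, h⟩ = v i

/-- `REP` (60 lines): representatives (uses `XFIN`, `EQV`). PROOF. Every class of `C` contains an element of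
`P`, distinct classes give distinct elements. -/
def SpecREP : Prop := ∀ (p d n : ℕ), p.Prime → ∀ C P : Set (Subgroup (FG d)), Sat p d n C →
  (∀ R ∈ C, ∃ R' ∈ P, R' ∈ C ∧ Rel R' R) → ncl C ≤ {R | R ∈ C ∧ R ∈ P}.ncard

/-- `TRI` (150 lines): groups without automorphisms acting on `F/Phi` (uses `TWI`, `SPT`, `GLV`, `XFIN`,
`EQV`). PROOF. It is enough to show for each class `K` of `C`:
`|GL| ≤ p^(d s) #{R ∈ K | special}`. Fix `R ∈ K`, `v` from `SPT`. The map `g ↦ tw g R` is injective (`TWI` (4),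
`ImA p R ⊆ {1}`) with values in `K`, and for the `g` with first rows `v` the values are special; their
number is at least `|GL| / p^(d s)` (`GLV`). -/
def SpecTRI : Prop := ∀ (p d n k s : ℕ), p.Prime → 1 ≤ k → n / k ≤ s → s ≤ d →
  ∀ C : Set (Subgroup (FG d)), Sat p d n C → (∀ R ∈ C, NonDeg k n R ∧ ImA p R ⊆ {1}) →
  ncl C * Nat.card (GLp p d) ≤ p ^ (d * s) * {R | R ∈ C ∧ Spl (gen (xg d s)) R}.ncard

/-- `OVR` (200 lines): classes over a class of `R ⊔ Psi` (uses `TWI`, `SPT`, `GLV`, `XFIN`, `EQV`, `SUP`).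
PROOF. Send the class of `R ∈ C` to the class of `R ⊔ Psi` in `Q`: well defined (`Rel R R'` with tuple
`y`: `R ⊔ Psi = comap (hm y) (R' ⊔ Psi)`, as in `TWI` (2)). Fix `Q₀ ∈ Q`; the classes over the class of `Q₀`
contain an `R` with `R ⊔ Psi = Q₀` (if `Rel (R ⊔ Psi) Q₀` twist: `Rel Q₀ (R ⊔ Psi)` with a tuple `y` with
matrix `g ∈ GL` (`EQV`) gives `Q₀ = comap (hm y) (R ⊔ Psi)`; `comap (hm y) R` is in the class of `R`). For such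
`R` take `v` from `SPT` and the matrix `g_v` from `GLV` (chosen once for each `v`): `tw g_v R` is
special, in `C`, and `tw g_v R ⊔ Psi = tw g_v Q₀`. The class is determined by `v` (at most `p^(d s)`
values) and by `tw g_v R`, one of at most `M` elements. -/
def SpecOVR : Prop := ∀ (p d n k s κ M : ℕ), p.Prime → 1 ≤ k → n / k ≤ s → s ≤ d →
  ∀ C : Set (Subgroup (FG d)), Sat p d n C →
  (∀ R ∈ C, NonDeg k n R ∧ R.relIndex (R ⊔ Psi p (FG d)) = p ^ κ) →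
  (∀ Q ∈ Good p d (n - κ), {R | R ∈ C ∧ Spl (gen (xg d s)) R ∧ R ⊔ Psi p (FG d) = Q}.ncard ≤ M) →
  ncl C ≤ p ^ (d * s) * M * ncl {Q | ∃ R ∈ C, Q = R ⊔ Psi p (FG d)}

/-- `NTR` (60 lines): classes with nontrivial `ImA` (uses `BUR`, `XFIN`). PROOF. `1 ∈ ImA Q`; `ImA Q` has at least
two elements, so it has at most twice as many elements as `ImA Q \ {1}`; `BUR`. -/
def SpecNTR : Prop := ∀ (p d n : ℕ), p.Prime → ∀ Q : Set (Subgroup (FG d)), Sat p d n Q →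
  (∀ R ∈ Q, ∃ g ∈ ImA p R, g ≠ 1) →
  ncl Q * Nat.card (GLp p d) ≤ 2 * {x : Subgroup (FG d) × GLp p d | x.1 ∈ Q ∧ x.2 ≠ 1 ∧
    x.2 ∈ ImA p x.1}.ncard

/-- `FXG` (60 lines): from `FIX` to good groups (uses `FIX`, `GOO`, `XFIN`). PROOF. The map
`(R, g) ↦ (g, YY p ⊤ Phi R)` is injective on the good `R` of index `p^(d+e)`, and its values are in the
set of `FIX` (`GOO`). -/
def SpecFXG : Prop := ∃ n0 : ℕ, ∀ n ≥ n0, ∀ p : ℕ, p.Prime → ∀ d e : ℕ,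
  300 * d ≤ 201 * n → 199 * n ≤ 300 * d → 300 * e ≤ 101 * n → 98 * n ≤ 300 * e →
  {x : Subgroup (FG d) × GLp p d | x.1 ∈ Good p d (d + e) ∧ x.2 ≠ 1 ∧ x.2 ∈ ImA p x.1}.ncard *
    p ^ (n ^ 2 / 20) ≤ p ^ (e * (d * (d + 1) / 2 - e))

/-! ## Part D: the final count -/

/-- The nondegenerate marked groups whose Frattini subgroup is not central elementary abelian. -/
def ND0 (p d n : ℕ) : Set (Subgroup (FG d)) :=
  {R | R ∈ X p d n ∧ NonDeg 1000 n R ∧ ¬ Psi p (FG d) ≤ R}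

/-- The special elements of `ND0` with `f + π = u` (`= log |Phi : Cz|`). -/
def NSp (p d n u : ℕ) : Set (Subgroup (FG d)) :=
  {R | R ∈ ND0 p d n ∧ Spl (gen (xg d (n / 1000))) R ∧
    (Cz (gen (xg d (n / 1000))) R).relIndex (PhiP p ⊤) = p ^ u}

/-- `NSD` (100 lines): decomposition of `NSp` (uses `DED`, `KAP`, `XZG`, `ABP`). PROOF. `|Phi : Cz| =
|Phi : D ⊔ R| |D ⊔ R : Cz|`, all are powers of `p` (they divide the index of `R`), and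
`|Phi : Cz| |Cz : R| = p^(n-d)`. (3) `KAP` with `f + π = u`, `f ≤ u`. (4) if `u = 0` then `R ⊔ Psi = R`. -/
def SpecNSD : Prop := ∀ (p d n : ℕ), p.Prime → n / 1000 ≤ d → d ≤ n →
  (∀ u, ∀ R ∈ NSp p d n u, ∃ f π : ℕ, f + π = u ∧ u ≤ n - d ∧
    R ∈ SP p n f π (n - d - u) (n - d - u) (gen (xg d (n / 1000))) ⊤ ∧
    R.relIndex (R ⊔ Psi p (FG d)) ≤ p ^ (u * (n / 1000) + f)) ∧
  (∀ R ∈ ND0 p d n, Spl (gen (xg d (n / 1000))) R → ∃ u, 1 ≤ u ∧ R ∈ NSp p d n u)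

/-- `SNG` (100 lines): saturation. PROOF. `NonDeg` is invariant under `Rel` (if `Rel R R'` with tuple `y`,
`R = comap (hm y) R'`: `D ≤ ⁅gen h, gen h⁆ ⊔ R` gives
`D ≤ ⁅gen (hm y ∘ h), gen (hm y ∘ h)⁆ ⊔ R'`, because `hm y` induces an isomorphism `F ⧸ R → F ⧸ R'`),
`Psi ≤ R` and `R.relIndex (R ⊔ Psi)` too (`EQV`), and `ImA p (R ⊔ Psi) ⊆ {1}`: if `Rel Q Q'` with matrix
`g` then `ImA Q = g (ImA Q') g⁻¹` or the inverse order; in any case one is trivial iff the other is.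
`{Q | ∃ R ∈ C, Q = R ⊔ Psi}` is saturated if `C` is (and all elements have the same relative index
`p^κ`): if `Rel (R ⊔ Psi) Q'` with tuple `y`, `Q' ∈ X`, then with a tuple `z` for `Rel Q' (R ⊔ Psi)`
(`EQV`) `R' = comap (hm z) R` is in `C` and `R' ⊔ Psi = Q'`. -/
def SpecSNG : Prop := ∀ (p d n : ℕ), p.Prime →
  Sat p d n (ND0 p d n) ∧
  (∀ C : Set (Subgroup (FG d)), Sat p d n C → ∀ κ : ℕ,
    Sat p d n {R | R ∈ C ∧ R.relIndex (R ⊔ Psi p (FG d)) = p ^ κ}) ∧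
  (∀ C : Set (Subgroup (FG d)), Sat p d n C →
    Sat p d n {R | R ∈ C ∧ ImA p (R ⊔ Psi p (FG d)) ⊆ {1}} ∧
    Sat p d n {R | R ∈ C ∧ ¬ ImA p (R ⊔ Psi p (FG d)) ⊆ {1}}) ∧
  (∀ C P : Set (Subgroup (FG d)), Sat p d n C →
    Sat p d n {R | R ∈ C ∧ ∃ R' ∈ P, R' ∈ C ∧ Rel R' R} ∧
    Sat p d n {R | R ∈ C ∧ ¬ ∃ R' ∈ P, R' ∈ C ∧ Rel R' R}) ∧
  (∀ (C : Set (Subgroup (FG d))) (κ : ℕ), κ ≤ n - d → Sat p d n C →
    (∀ R ∈ C, R.relIndex (R ⊔ Psi p (FG d)) = p ^ κ) →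
    Sat p d (n - κ) {Q | ∃ R ∈ C, Q = R ⊔ Psi p (FG d)} ∧
    {Q | ∃ R ∈ C, Q = R ⊔ Psi p (FG d)} ⊆ Good p d (n - κ))

/-- `PT3` (150 lines): classes with a special member with `u ≥ 3` (uses `REP`, `SNG`, `NSD`, `ND1`, `XZG`, `ABP`,
`MLB`). PROOF. `C = {R ∈ ND0 | ∃ R' ∈ P, R' ∈ ND0 ∧ Rel R' R}`, `P = ⋃_{u ≥ 3} NSp u`. `REP`:
`ncl C ≤ ncard (P ∩ ND0) ≤ ∑_{f + π = u, 3 ≤ u ≤ e} p^(eX s t f π (e - u))` with `s = n/1000`, `t = d - s`,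
`e = n - d`, `m = d(d+1)/2 = s(s+1)/2 + s t + t(t+1)/2`. `eX ≤ (e-u) m + u (5 s n + 10 n)
≤ (e-u) m + u (n^2/200 + 10 n)`. And `mass * p^(d^2) ≥ p^(e (m-e))`. So it is enough that
`u (m - n^2/200 - 10 n) ≥ e^2 + d^2 + n^2/100 + 2 n` (`(n+1)^2 ≤ 2^(2n)`), and
`3 (0.2199 - 0.005) = 0.644`, `e^2 + d^2 ≤ 0.558 n^2`. -/
def SpecPT3 : Prop := ∃ n0 : ℕ, ∀ n ≥ n0, ∀ p : ℕ, p.Prime → ∀ d ∈ near n,
  (ncl {R | R ∈ ND0 p d n ∧ ∃ R' ∈ {Q : Subgroup (FG d) | ∃ u ≥ 3, Q ∈ NSp p d n u},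
    R' ∈ ND0 p d n ∧ Rel R' R} : ℝ) * (p : ℝ) ^ (n ^ 2 / 100) ≤ mass p d n

/-- The remaining classes: every special member has `u ≤ 2`. -/
def ND12 (p d n : ℕ) : Set (Subgroup (FG d)) :=
  {R | R ∈ ND0 p d n ∧ ¬ ∃ R' ∈ {Q : Subgroup (FG d) | ∃ u ≥ 3, Q ∈ NSp p d n u},
    R' ∈ ND0 p d n ∧ Rel R' R}

/-- `PTT` (200 lines): trivial `ImA p (R ⊔ Psi)` (uses `TRI`, `SNG`, `NSD`, `ND2`, `SUP`, `XZG`, `ABP`, `MLB`).
PROOF. `ImA p R ⊆ ImA p (R ⊔ Psi)` (`SUP`), so `TRI`: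
`ncl * |GL| ≤ p^(d s) #{special members}`. A special member `R` is in `NSp u` with `1 ≤ u ≤ 2` (`NSD`; the
relation `Rel R R`), so in `SP p n f π a a` with `f + π = u`, `a = e - u`, and
`R.relIndex (R ⊔ Psi) ≤ p^(2 s + 2)`. `ND2` with `b = 2 s + 2`: the number is at most
`5 * 4 (2 s + 3) p^(eX - (a-b)^2)`, `eX ≤ a m + 2 (n^2/200 + 10 n)`, `a ≤ e - 1`,
`(a - b)^2 ≥ e^2 - 2 e (2 s + 4)`. Exponent at most
`e (m - e) - m + n^2/100 + 20 n + 2 e (2 s + 4) + d s`, and `|GL| * mass = gb ≥ p^(e (m-e))`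
(`GBB`; `mass` is by definition `gb / |GL|`). `m ≥ 0.2199 n^2`; `2 e (2 s + 4) ≤ 0.0014 n^2 + 4 n`, `d s ≤ 0.0007 n^2`. -/
def SpecPTT : Prop := ∃ n0 : ℕ, ∀ n ≥ n0, ∀ p : ℕ, p.Prime → ∀ d ∈ near n,
  (ncl {R | R ∈ ND12 p d n ∧ ImA p (R ⊔ Psi p (FG d)) ⊆ {1}} : ℝ) * (p : ℝ) ^ (n ^ 2 / 100) ≤
    mass p d n

/-- `PTM` (150 lines): the number of special groups over a given `Q` (uses `ND1`, `NSD`, `SUP`, `XZG`, `ABP`).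
PROOF. `R` in the set: `R ∈ NSp u`, `u ∈ {1,2}`, `f + π = u`, `a = e - u`, `Q = R ⊔ Psi` is normal,
`R ∈ SP p n f π a a₁ S Q` with `p^(a₁) = |Cz ⊓ Q : R|`, `a₁ ≤ κ`. `ND1` with `R₁ = Q`; at most `5 (κ + 1)` triples
`(f, π, a₁)`; `eX s t f π a₁ ≤ a₁ m + n^2/400 + 10 n ≤ κ m + n^2/400 + 10 n` for `κ ≤ 2 s + 2`:
`f (2 d + f) ≤ 5 n`, `π ((s+1)(s+2)+s) ≤ 2 (s^2 + 4 s + 2)`, `a₁ (s+1) 2 ≤ 4 (s+1)^2`, `π s t ≤ 2 s n ≤ n^2/500`. -/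
def SpecPTM : Prop := ∃ n0 : ℕ, ∀ n ≥ n0, ∀ p : ℕ, p.Prime → ∀ d ∈ near n, ∀ κ ≤ 2 * (n / 1000) + 2,
  ∀ Q ∈ Good p d (n - κ),
  {R | R ∈ ND12 p d n ∧ R.relIndex (R ⊔ Psi p (FG d)) = p ^ κ ∧ Spl (gen (xg d (n / 1000))) R ∧
    R ⊔ Psi p (FG d) = Q}.ncard ≤ 5 * (κ + 1) * p ^ (κ * (d * (d + 1) / 2) + n ^ 2 / 400 + 10 * n)

/-- `PTN` (200 lines): nontrivial `ImA p (R ⊔ Psi)` (uses `OVR`, `NTR`, `FXG`, `PTM`, `SNG`, `NSD`, `SPT`, `CLS`, `GBB`).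
PROOF. For `R` in the set `R.relIndex (R ⊔ Psi) = p^κ` with `1 ≤ κ ≤ 2 s + 2` (a special twist has
`u ≤ 2`, `NSD`, and the index is invariant: `TWI`). Split by `κ` (`CLS`). `OVR` with `M` from `PTM`, `Q`-classes:
all `Q` have nontrivial `ImA`; `NTR`, `FXG` with `e - κ` (`e = n - d`, `98 n ≤ 300 (e - κ)`, index
`p^(n - κ)`, `n - κ = d + (e - κ)`). So
`ncl_κ * |GL| ≤ p^(d s) 5 (κ+1) p^(κ m + n^2/400 + 10 n) 2 p^((e-κ)(m-e+κ) - n^2/20)` and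
`(e-κ)(m-e+κ) + κ m = e(m-e) + 2 e κ - κ^2`, `2 e κ ≤ 2 (0.337) (2 s + 2) n`. Sum of the errors:
`0.0007 + 0.0025 + 0.0014 < 0.05 - 0.01`. `gb ≥ p^(e(m-e))`. -/
def SpecPTN : Prop := ∃ n0 : ℕ, ∀ n ≥ n0, ∀ p : ℕ, p.Prime → ∀ d ∈ near n,
  (ncl {R | R ∈ ND12 p d n ∧ ¬ ImA p (R ⊔ Psi p (FG d)) ⊆ {1}} : ℝ) * (p : ℝ) ^ (n ^ 2 / 100) ≤
    mass p d n

/-- `MGD` (120 lines): the good groups (uses `BUR`, `FXG`, `CNT`, `EQV`, `GBB`, `XFIN`). PROOF. `Good` is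
saturated (`EQV`), `BUR`: `ncl * |GL| ≤ #{(R,g)} ≤ |Good| + #{(R,g) | g ≠ 1}`, `|Good| = gb`, and `FXG` with
`e = n - d`: the second term times `p^(n^2/20)` is at most `p^(e(m-e)) ≤ gb`. -/
def SpecMGD : Prop := ∃ n0 : ℕ, ∀ n ≥ n0, ∀ p : ℕ, p.Prime → ∀ d ∈ near n,
  (ncl (Good p d n) : ℝ) ≤ (1 + 1 / (p : ℝ) ^ (n ^ 2 / 20)) * mass p d n

/-- `MUP` (250 lines): the main upper bound (uses `DEC`, `CLS`, `SNG`, `EQV`, `PT3`, `PTT`, `PTN`, `MGD`, `E7` (k = 1000),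
`E8` (`ε = 1/300`), `SMD`.. , `MAX`, `ABP`). PROOF. `numGroups (p^n) = ∑_{d ≤ n} ncl (X p d n)`. For `d ∉ near n`:
`|d - 2n/3| ≥ n/300`, so `ncl X ≤ ncard X ≤ p^((2/27 - c) n^3)` (`E8`, `X = Marked`, generators
`FreeGroup.of`, `ABP` (5)). For `d ∈ near n`: `X = Good ∪ {¬ NonDeg 1000} ∪ ND0`, `ND0` is the union of the
three sets of `PT3`, `PTT`, `PTN`:
`ncl X ≤ (1 + p^(-n^2/20)) mass + p^((2/27-c) n^3) + 3 p^(-n^2/100) mass`. By `MAX` some mass is at least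
`p^(2 n^3/27 - n^2)` (up to the floor), so all terms `p^((2/27 - c) n^3)` together are at most
`(n+1) p^(-c n^3 + n^2 + 1)` times the sum of the masses. For large `n` the sum of all error factors is at
most `1/p^2`. -/
def SpecMUP : Prop := MainUpper

end Pool.Agent.Lib.MP4ccb00.N
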