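import Pool.Agent.Lib.MP_4ccb00_al.E.Spec
import Pool.Agent.Lib.MP_4ccb00_al.E.Spec2
import Pool.Agent.Lib.MP_4ccb00_al.N.Spec

section
/-!
# MP_4ccb00_al, part (e), module CEN: central elements in normal sections of `p`-groups
-/
namespace Pool.Agent.Lib.MP4ccb00.E

open scoped commutatorElement

namespace CENM

/-- a nontrivial normal subgroup of a finite `p`-group contains a central element of order `p` -/
theorem key (p : ℕ) [Fact p.Prime] (G : Type) [Group G] [Finite G] (hP : IsPGroup p G)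
    (Q : Subgroup G) [Q.Normal] (hQ : Q ≠ ⊥) : ∃ y ∈ Q, y ≠ 1 ∧ y ^ p = 1 ∧ ∀ g, g * y = y * g := by
  have hPC : IsPGroup p (ConjAct G) := hP.of_equiv ConjAct.toConjAct
  have hPQ : IsPGroup p Q := hP.to_subgroup Q
  have : Nontrivial Q := (Subgroup.nontrivial_iff_ne_bot Q).2 hQ
  obtain ⟨n, hn0, hn⟩ := hPQ.nontrivial_iff_card.mp inferInstance
  have dvd : p ∣ Nat.card Q := hn.symm ▸ dvd_pow_self _ (ne_of_gt hn0)
  have h1 : (1 : Q) ∈ MulAction.fixedPoints (ConjAct G) Q := by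
    intro g
    exact smul_one g
  obtain ⟨b, hb, hb1⟩ :=
    hPC.exists_fixed_point_of_prime_dvd_card_of_fixed_point (α := Q) dvd h1
  -- `b` is central
  have hbc : ∀ g : G, g * (b : G) = b * g := by
    intro g
    have h := hb (ConjAct.toConjAct g)
    have h2 := congrArg (fun x : Q => (x : G)) h
    rw [ConjAct.Subgroup.val_conj_smul, ConjAct.smul_def, ConjAct.ofConjAct_toConjAct] at h2
    calc g * (b : G) = (g * b * g⁻¹) * g := by group
      _ = b * g := by rw [h2]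
  -- a power has order `p`
  obtain ⟨k, hk⟩ := hPQ b
  have hne : ∃ j : ℕ, b ^ p ^ j = 1 := ⟨k, hk⟩
  classical
  have hj := Nat.find_spec hne
  have hj0 : Nat.find hne ≠ 0 := by
    intro h0
    rw [h0] at hj
    simp at hj
    exact hb1 hj.symm
  obtain ⟨j, hjj⟩ := Nat.exists_eq_succ_of_ne_zero hj0
  have hmin : b ^ p ^ j ≠ 1 := by
    intro h
    have := Nat.find_min' hne h
    omega
  refine ⟨((b ^ p ^ j : Q) : G), (b ^ p ^ j).2, ?_, ?_, ?_⟩
  · intro h
    apply hmin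
    exact Subtype.ext (by simpa using h)
  · rw [hjj, pow_succ, pow_mul] at hj
    have := congrArg (fun x : Q => (x : G)) hj
    simpa using this
  · intro g
    have : Commute g (b : G) := hbc g
    have h3 := this.pow_right (p ^ j)
    simpa using h3.eq

end CENM

theorem specCEN : SpecCEN := by
  intro p _ F _ R A B hA hB hm hRB hBA
  obtain ⟨m, hm⟩ := hm
  have := hB
  have := hA
  have hp : p.Prime := Fact.out
  obtain ⟨k, -, hk⟩ := (Nat.dvd_prime_pow hp).1 (hm ▸ Subgroup.index_dvd_of_le hRB)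
  have hcard : Nat.card (F ⧸ B) = p ^ k := by
    rw [← Subgroup.index_eq_card]
    exact hk
  have hfin : Finite (F ⧸ B) := Nat.finite_of_card_ne_zero (by
    rw [hcard]
    exact pow_ne_zero _ hp.ne_zero)
  have hP : IsPGroup p (F ⧸ B) := IsPGroup.of_card hcard
  have hQn : (A.map (QuotientGroup.mk' B)).Normal :=
    hA.map _ (QuotientGroup.mk'_surjective B)
  have hQ : A.map (QuotientGroup.mk' B) ≠ ⊥ := by
    intro h
    rw [Subgroup.map_eq_bot_iff, QuotientGroup.ker_mk'] at h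
    exact absurd h (not_le_of_gt hBA)
  obtain ⟨y, hy, hy1, hyp, hyc⟩ := CENM.key p (F ⧸ B) hP _ hQ
  obtain ⟨z, hz, rfl⟩ := hy
  refine ⟨z, hz, ?_, ?_, ?_⟩
  · intro h
    exact hy1 ((QuotientGroup.eq_one_iff z).2 h)
  · rw [← QuotientGroup.eq_one_iff]
    simpa using hyp
  · intro g
    rw [← QuotientGroup.eq_one_iff]
    have h := hyc (QuotientGroup.mk' B g)
    have h2 : ((⁅z, g⁆ : F) : F ⧸ B) = ⁅(QuotientGroup.mk' B z), (QuotientGroup.mk' B g)⁆ := by
      rw [← map_commutatorElement]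
      rfl
    rw [h2, commutatorElement_eq_one_iff_mul_comm]
    exact h.symm

end Pool.Agent.Lib.MP4ccb00.E
end

section
/-!
# MP_4ccb00_al, part (e): common small lemmas
-/
namespace Pool.Agent.Lib.MP4ccb00.E

open scoped commutatorElement

namespace Base

/-! ### Subgroups -/

theorem le_of_comm {F : Type} [Group F] {R' : Subgroup F} (hR' : R'.Normal) {z : F}
    (hz : ∀ g, ⁅z, g⁆ ∈ R') (g : F) : g * z * g⁻¹ ∈ R' ⊔ Subgroup.zpowers z := by
  have h1 : g * z * g⁻¹ = ⁅z, g⁆⁻¹ * z := by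
    rw [commutatorElement_def]
    group
  rw [h1]
  exact Subgroup.mul_mem_sup (inv_mem (hz g)) (Subgroup.mem_zpowers z)

/-- adding a central element to a normal subgroup gives a normal subgroup -/
theorem step_normal {F : Type} [Group F] {R' : Subgroup F} (hR' : R'.Normal) {z : F}
    (hz : ∀ g, ⁅z, g⁆ ∈ R') : (R' ⊔ Subgroup.zpowers z).Normal := by
  constructor
  intro x hx g
  have hle : R' ⊔ Subgroup.zpowers z ≤
      (R' ⊔ Subgroup.zpowers z).comap (MulAut.conj g).toMonoidHom := by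
    rw [sup_le_iff]
    constructor
    · intro y hy
      rw [Subgroup.mem_comap]
      exact Subgroup.mem_sup_left (hR'.conj_mem y hy g)
    · rw [Subgroup.zpowers_le, Subgroup.mem_comap]
      exact le_of_comm hR' hz g
  exact hle hx

theorem step_mem {F : Type} [Group F] {R' : Subgroup F} (hR' : R'.Normal) (z x : F) :
    x ∈ R' ⊔ Subgroup.zpowers z ↔ ∃ i : ℤ, (z ^ i)⁻¹ * x ∈ R' := by
  constructor
  · intro hx
    rw [sup_comm, Subgroup.mem_sup_of_normal_right] at hx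
    obtain ⟨y, hy, r, hr, rfl⟩ := hx
    obtain ⟨i, rfl⟩ := Subgroup.mem_zpowers_iff.1 hy
    exact ⟨i, by simpa using hr⟩
  · rintro ⟨i, hi⟩
    have : x = z ^ i * ((z ^ i)⁻¹ * x) := by group
    rw [this]
    exact mul_mem (Subgroup.mem_sup_right (Subgroup.zpow_mem_zpowers z i))
      (Subgroup.mem_sup_left hi)

theorem relIndex_map {F : Type} [Group F] (R' : Subgroup F) [hR' : R'.Normal] (S : Subgroup F) :
    R'.relIndex S = Nat.card (S.map (QuotientGroup.mk' R')) := by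
  conv_lhs => rw [← QuotientGroup.ker_mk' R']
  exact Subgroup.relIndex_ker S _

theorem step_relIndex {p : ℕ} [hp : Fact p.Prime] {F : Type} [Group F] {R' : Subgroup F}
    (hR' : R'.Normal) {z : F} (hz : z ∉ R') (hzp : z ^ p ∈ R') :
    R'.relIndex (R' ⊔ Subgroup.zpowers z) = p := by
  rw [sup_comm, Subgroup.relIndex_sup_right, relIndex_map, MonoidHom.map_zpowers, Nat.card_zpowers]
  apply orderOf_eq_prime
  · have := (QuotientGroup.eq_one_iff (N := R') (z ^ p)).2 hzp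
    simpa using this
  · intro h
    exact hz ((QuotientGroup.eq_one_iff z).1 h)

/-! ### Dimensions -/

theorem dle_mono {p : ℕ} [Fact p.Prime] {V : Type} [AddCommGroup V] [Module (ZMod p) V]
    {Y : Submodule (ZMod p) V} {k l : ℕ} (h : DLE Y k) (hkl : k ≤ l) : DLE Y l :=
  ⟨h.1, h.2.trans hkl⟩

/-- kernel and image -/
theorem dle_add {p : ℕ} [Fact p.Prime] {V : Type} [AddCommGroup V] [Module (ZMod p) V]
    {Y : Submodule (ZMod p) V} {W : Type} [AddCommGroup W] [Module (ZMod p) W]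
    {V' : Type} [AddCommGroup V'] [Module (ZMod p) V'] {Z : Submodule (ZMod p) W}
    {Y' : Submodule (ZMod p) V'} {a b : ℕ}
    (f : Y →ₗ[ZMod p] W) (hf : ∀ y, f y ∈ Z) (hZ : DLE Z a)
    (g : LinearMap.ker f →ₗ[ZMod p] V') (hg : ∀ y, g y ∈ Y') (hY' : DLE Y' b)
    (hinj : ∀ y, g y = 0 → y = 0) : DLE Y (a + b) := by
  obtain ⟨hZ1, hZ2⟩ := hZ
  obtain ⟨hY1, hY2⟩ := hY'
  -- the kernel
  let g' : LinearMap.ker f →ₗ[ZMod p] Y' := g.codRestrict Y' hg
  have hg' : Function.Injective g' := by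
    rw [← LinearMap.ker_eq_bot, LinearMap.ker_eq_bot']
    intro y hy
    apply hinj
    exact congrArg (fun x : Y' => (x : V')) hy
  have hk1 : Module.Finite (ZMod p) (LinearMap.ker f) := Module.Finite.of_injective g' hg'
  have hk2 : Module.finrank (ZMod p) (LinearMap.ker f) ≤ b :=
    (LinearMap.finrank_le_finrank_of_injective hg').trans hY2
  -- the image
  let f' : Y →ₗ[ZMod p] Z := f.codRestrict Z hf
  have hker : LinearMap.ker f' = LinearMap.ker f := LinearMap.ker_codRestrict _ _ _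
  have hr1 : Module.Finite (ZMod p) (LinearMap.range f') := inferInstance
  have hk1' : Module.Finite (ZMod p) (LinearMap.ker f') := by rw [hker]; exact hk1
  have hY : Module.Finite (ZMod p) Y := by
    have e := f'.quotKerEquivRange
    have : Module.Finite (ZMod p) (Y ⧸ LinearMap.ker f') := Module.Finite.equiv e.symm
    exact Module.Finite.of_submodule_quotient (LinearMap.ker f')
  refine ⟨hY, ?_⟩
  have h := LinearMap.finrank_range_add_finrank_ker f'
  have h1 : Module.finrank (ZMod p) (LinearMap.range f') ≤ a :=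
    (Submodule.finrank_le _).trans hZ2
  rw [hker] at h
  omega

/-- injective image -/
theorem dle_inj {p : ℕ} [Fact p.Prime] {V : Type} [AddCommGroup V] [Module (ZMod p) V]
    {Y : Submodule (ZMod p) V} {V' : Type} [AddCommGroup V'] [Module (ZMod p) V']
    {Y' : Submodule (ZMod p) V'} {b : ℕ}
    (g : Y →ₗ[ZMod p] V') (hg : ∀ y, g y ∈ Y') (hY' : DLE Y' b)
    (hinj : ∀ y, g y = 0 → y = 0) : DLE Y b := by
  obtain ⟨hY1, hY2⟩ := hY'
  let g' : Y →ₗ[ZMod p] Y' := g.codRestrict Y' hg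
  have hg' : Function.Injective g' := by
    rw [← LinearMap.ker_eq_bot, LinearMap.ker_eq_bot']
    intro y hy
    apply hinj
    exact congrArg (fun x : Y' => (x : V')) hy
  exact ⟨Module.Finite.of_injective g' hg',
    (LinearMap.finrank_le_finrank_of_injective hg').trans hY2⟩

theorem dle_le {p : ℕ} [Fact p.Prime] {V : Type} [AddCommGroup V] [Module (ZMod p) V]
    {Y Y' : Submodule (ZMod p) V} {b : ℕ} (h : Y ≤ Y') (hY' : DLE Y' b) : DLE Y b :=
  dle_inj Y.subtype (fun y => h y.2) hY' (fun y hy => Subtype.ext hy)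

/-- coordinate spaces -/
theorem dle_fun (p : ℕ) [Fact p.Prime] (k : ℕ) :
    DLE (⊤ : Submodule (ZMod p) (Fin k → ZMod p)) k := by
  refine ⟨inferInstance, ?_⟩
  rw [finrank_top, Module.finrank_fin_fun]

theorem dle_fun_prod (p : ℕ) [Fact p.Prime] (k : ℕ) :
    DLE (⊤ : Submodule (ZMod p) ((Fin k → ZMod p) × ZMod p)) (k + 1) := by
  refine ⟨inferInstance, ?_⟩
  rw [finrank_top, Module.finrank_prod, Module.finrank_fin_fun, Module.finrank_self]

/-! ### Elementary facts on `YY` -/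

section YYfacts

variable {p : ℕ} {F : Type} [Group F] {A R D : Subgroup F} {φ : F → ZMod p}

theorem yy_out (h : φ ∈ YY p A R D) {x : F} (hx : x ∉ R) : φ x = 0 := h.1 x hx

theorem yy_mul (h : φ ∈ YY p A R D) {x y : F} (hx : x ∈ R) (hy : y ∈ R) :
    φ (x * y) = φ x + φ y := h.2.1 x hx y hy

theorem yy_conj (h : φ ∈ YY p A R D) {g x : F} (hg : g ∈ A) (hx : x ∈ R) :
    φ (g * x * g⁻¹) = φ x := h.2.2.1 g hg x hx

theorem yy_zero (h : φ ∈ YY p A R D) {x : F} (hx : x ∈ R) (hd : x ∈ D) : φ x = 0 :=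
  h.2.2.2 x hx hd

theorem yy_one (h : φ ∈ YY p A R D) : φ 1 = 0 := by
  have := yy_mul h (one_mem R) (one_mem R)
  simpa using this

theorem yy_inv (h : φ ∈ YY p A R D) {x : F} (hx : x ∈ R) : φ x⁻¹ = - φ x := by
  have := yy_mul h hx (inv_mem hx)
  rw [mul_inv_cancel, yy_one h] at this
  exact (neg_eq_of_add_eq_zero_right this.symm).symm

theorem yy_pow (h : φ ∈ YY p A R D) {x : F} (hx : x ∈ R) (i : ℕ) : φ (x ^ i) = i * φ x := by
  induction i with
  | zero => simpa using yy_one h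
  | succ i ih =>
    rw [pow_succ, yy_mul h (pow_mem hx i) hx, ih]
    push_cast
    ring

theorem yy_pow_p (h : φ ∈ YY p A R D) {x : F} (hx : x ∈ R) : φ (x ^ p) = 0 := by
  rw [yy_pow h hx, ZMod.natCast_self, zero_mul]

theorem yy_mono {A' D' : Subgroup F} (hA : A' ≤ A) (hD : D' ≤ D) : YY p A R D ≤ YY p A' R D' :=
  fun _ h => ⟨h.1, h.2.1, fun g hg x hx => h.2.2.1 g (hA hg) x hx,
    fun x hx hd => h.2.2.2 x hx (hD hd)⟩

/-- a function of `YY` which vanishes on a set vanishes on the subgroup it generates -/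
theorem yy_closure (h : φ ∈ YY p A R D) {S : Set F} (hS : ∀ x ∈ S, x ∈ R ∧ φ x = 0) :
    ∀ x ∈ Subgroup.closure S, x ∈ R ∧ φ x = 0 := by
  intro x hx
  induction hx using Subgroup.closure_induction with
  | mem x hx => exact hS x hx
  | one => exact ⟨one_mem _, yy_one h⟩
  | mul x y _ _ hx hy => exact ⟨mul_mem hx.1 hy.1, by rw [yy_mul h hx.1 hy.1, hx.2, hy.2, add_zero]⟩
  | inv x _ hx => exact ⟨inv_mem hx.1, by rw [yy_inv h hx.1, hx.2, neg_zero]⟩

end YYfacts

end Base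

end Pool.Agent.Lib.MP4ccb00.E
end

section
/-!
# MP_4ccb00_al, part (e), modules BOT, TOP, CYC
-/
namespace Pool.Agent.Lib.MP4ccb00.E

open scoped commutatorElement

theorem specBOT : SpecBOT := by
  intro p hp F _ R' R hR' hR hm hlt
  obtain ⟨z, hz, hz', hzp, hzc⟩ := specCEN p F R' R R' hR hR' hm le_rfl hlt
  refine ⟨R' ⊔ Subgroup.zpowers z, Base.step_normal hR' hzc, ?_, ?_, ?_⟩
  · refine lt_of_le_of_ne le_sup_left ?_
    intro h
    apply hz'
    rw [h]
    exact Subgroup.mem_sup_right (Subgroup.mem_zpowers z)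
  · rw [sup_le_iff, Subgroup.zpowers_le]
    exact ⟨hlt.le, hz⟩
  · exact Base.step_relIndex hR' hz' hzp

theorem specTOP : SpecTOP := by
  intro p hp F _ R' R hR' hR hm hlt
  -- induction on the index of `R'`
  obtain ⟨m, hm⟩ := hm
  induction m using Nat.strong_induction_on generalizing R' with
  | _ m ih =>
    obtain ⟨S, hS, hRS, hSR, hidx⟩ := specBOT p F R' R hR' hR ⟨m, hm⟩ hlt
    rcases eq_or_lt_of_le hSR with h | h
    · subst h
      exact ⟨R', hR', le_rfl, hlt, hidx⟩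
    · have hprime : p.Prime := Fact.out
      have h1 : p * S.index = p ^ m := by
        rw [← hm, ← hidx]
        exact Subgroup.relIndex_mul_index hRS.le
      obtain ⟨m', hm', hS'⟩ : ∃ m', m' < m ∧ S.index = p ^ m' := by
        cases m with
        | zero =>
          exfalso
          have : p ∣ 1 := ⟨S.index, by simpa using h1.symm⟩
          exact hprime.one_lt.ne' (Nat.dvd_one.1 this)
        | succ m' =>
          refine ⟨m', Nat.lt_succ_self _, ?_⟩
          rw [pow_succ, mul_comm] at h1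
          exact Nat.eq_of_mul_eq_mul_right hprime.pos h1
      obtain ⟨R1, a, b, c, d⟩ := ih m' hm' S hS h hS'
      exact ⟨R1, a, hRS.le.trans b, c, d⟩

theorem specCYC : SpecCYC := by
  intro p hp F _ R' R hR' hR hm hle hidx
  have hprime : p.Prime := Fact.out
  have hn := hR'
  obtain ⟨m, hm⟩ := hm
  have hcard : Nat.card (F ⧸ R') = p ^ m := by
    rw [← Subgroup.index_eq_card]
    exact hm
  have hfin : Finite (F ⧸ R') := Nat.finite_of_card_ne_zero (by
    rw [hcard]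
    exact pow_ne_zero _ hprime.ne_zero)
  have hP : IsPGroup p (F ⧸ R') := IsPGroup.of_card hcard
  set Q := R.map (QuotientGroup.mk' R') with hQdef
  have hQn : Q.Normal := hR.map _ (QuotientGroup.mk'_surjective R')
  have hQcard : Nat.card Q = p := by
    rw [← Base.relIndex_map, hidx]
  have hQ : Q ≠ ⊥ := by
    intro h
    rw [h] at hQcard
    have : Nat.card (⊥ : Subgroup (F ⧸ R')) = 1 := Subgroup.card_bot
    rw [this] at hQcard
    exact hprime.one_lt.ne hQcard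
  obtain ⟨y, hy, hy1, hyp, hyc⟩ := CENM.key p (F ⧸ R') hP Q hQ
  -- `Q` is cyclic, generated by any nontrivial element
  have hgen : ∀ w ∈ Q, w ≠ 1 → ∀ u ∈ Q, ∃ i : ℕ, w ^ i = u := by
    intro w hw hw1 u hu
    have hw' : (⟨w, hw⟩ : Q) ≠ 1 := by
      intro h
      exact hw1 (congrArg (fun x : Q => (x : F ⧸ R')) h)
    have h1 : (⟨u, hu⟩ : Q) ∈ Subgroup.zpowers (⟨w, hw⟩ : Q) :=
      mem_zpowers_of_prime_card hQcard hw'
    have h2 := (mem_powers_iff_mem_zpowers (x := (⟨w, hw⟩ : Q)) (y := ⟨u, hu⟩)).2 h1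
    obtain ⟨i, hi⟩ := h2
    exact ⟨i, congrArg (fun x : Q => (x : F ⧸ R')) hi⟩
  have hmem : ∀ r ∈ R, (QuotientGroup.mk' R' r) ∈ Q := fun r hr => ⟨r, hr, rfl⟩
  refine ⟨?_, ?_, ?_⟩
  · intro r hr
    rw [← QuotientGroup.eq_one_iff]
    have h : (⟨QuotientGroup.mk' R' r, hmem r hr⟩ : Q) ^ p = 1 := by
      rw [← hQcard]
      exact pow_card_eq_one'
    have h2 := congrArg (fun x : Q => (x : F ⧸ R')) h
    simpa using h2
  · rw [Subgroup.commutator_le]
    intro r hr g _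
    rw [← QuotientGroup.eq_one_iff]
    have h2 : ((⁅r, g⁆ : F) : F ⧸ R') = ⁅(QuotientGroup.mk' R' r), (QuotientGroup.mk' R' g)⁆ := by
      rw [← map_commutatorElement]
      rfl
    rw [h2, commutatorElement_eq_one_iff_mul_comm]
    obtain ⟨i, hi⟩ := hgen y hy hy1 _ (hmem r hr)
    rw [← hi]
    have hcomm : Commute (QuotientGroup.mk' R' g) y := hyc _
    exact (hcomm.pow_right i).eq.symm
  · intro z hz hz' x hx
    have hz1 : QuotientGroup.mk' R' z ≠ 1 := by
      intro h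
      exact hz' ((QuotientGroup.eq_one_iff z).1 h)
    obtain ⟨i, hi⟩ := hgen _ (hmem z hz) hz1 _ (hmem x hx)
    refine ⟨i, ?_⟩
    rw [← QuotientGroup.eq_one_iff]
    have h3 : (((z ^ i)⁻¹ * x : F) : F ⧸ R') =
        ((QuotientGroup.mk' R' z) ^ i)⁻¹ * (QuotientGroup.mk' R' x) := rfl
    rw [h3, hi, inv_mul_cancel]

end Pool.Agent.Lib.MP4ccb00.E
end

section
/-!
# MP_4ccb00_al, part (e), module EXT: extension of invariant homomorphisms by one central step
-/
namespace Pool.Agent.Lib.MP4ccb00.E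

open scoped commutatorElement

namespace EXTM

/-- the order of `z` modulo `R'` is `p` -/
theorem dvd_of_mem {p : ℕ} [Fact p.Prime] {F : Type} [Group F] {R' : Subgroup F}
    (hR' : R'.Normal) {z : F} (hz : z ∉ R') (hzp : z ^ p ∈ R') {i : ℕ} (hi : z ^ i ∈ R') :
    p ∣ i := by
  have ho : orderOf (z : F ⧸ R') = p := by
    apply orderOf_eq_prime
    · have := (QuotientGroup.eq_one_iff (N := R') (z ^ p)).2 hzp
      simpa using this
    · intro h
      exact hz ((QuotientGroup.eq_one_iff z).1 h)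
  rw [← ho]
  apply orderOf_dvd_of_pow_eq_one
  have := (QuotientGroup.eq_one_iff (N := R') (z ^ i)).2 hi
  simpa using this

variable {p : ℕ} [Fact p.Prime] {F : Type} [Group F] {R' R D : Subgroup F} {z : F}
  {f : F → ZMod p}

theorem pow_zero_val (hR' : R'.Normal) (hz : z ∉ R') (hzp : z ^ p ∈ R')
    (hf : f ∈ YY p ⊤ R' D) (h2 : f (z ^ p) = 0) {i : ℕ} (hi : z ^ i ∈ R') : f (z ^ i) = 0 := by
  obtain ⟨q, rfl⟩ := dvd_of_mem hR' hz hzp hi
  rw [pow_mul, Base.yy_pow hf hzp, h2, mul_zero]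

theorem all_comm (hf : f ∈ YY p ⊤ R' D) (hcom : ∀ y, ⁅z, y⁆ ∈ R') {k : ℕ} {g : Fin k → F}
    {C : Subgroup F} (hC : ∀ c ∈ C, ⁅z, c⁆ ∈ D) (hgen : gen g ⊔ C = ⊤)
    (h1 : ∀ i, f ⁅z, g i⁆ = 0) (y : F) : f ⁅z, y⁆ = 0 := by
  let S : Subgroup F :=
    { carrier := {y | f ⁅z, y⁆ = 0}
      one_mem' := by
        change f ⁅z, (1 : F)⁆ = 0
        rw [commutatorElement_one_right]
        exact Base.yy_one hf
      mul_mem' := fun {x y} hx hy => by
        have hx' : f ⁅z, x⁆ = 0 := hx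
        have hy' : f ⁅z, y⁆ = 0 := hy
        change f ⁅z, x * y⁆ = 0
        have : ⁅z, x * y⁆ = ⁅z, x⁆ * (x * ⁅z, y⁆ * x⁻¹) := by
          simp only [commutatorElement_def]
          group
        have hn : x * ⁅z, y⁆ * x⁻¹ ∈ R' := by
          have h3 : x * ⁅z, y⁆ * x⁻¹ = ⁅z, x⁆⁻¹ * ⁅z, x * y⁆ := by rw [this]; group
          rw [h3]
          exact mul_mem (inv_mem (hcom x)) (hcom _)
        rw [this, Base.yy_mul hf (hcom x) hn, Base.yy_conj hf (Subgroup.mem_top x) (hcom y), hx',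
          hy', add_zero]
      inv_mem' := fun {x} hx => by
        have hx' : f ⁅z, x⁆ = 0 := hx
        change f ⁅z, x⁻¹⁆ = 0
        have : ⁅z, x⁻¹⁆ = x⁻¹ * ⁅z, x⁆⁻¹ * x⁻¹⁻¹ := by
          simp only [commutatorElement_def]
          group
        rw [this, Base.yy_conj hf (Subgroup.mem_top _) (inv_mem (hcom x)),
          Base.yy_inv hf (hcom x), hx', neg_zero] }
  have hS : S = ⊤ := by
    rw [eq_top_iff, ← hgen, sup_le_iff]
    constructor
    · unfold gen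
      rw [Subgroup.closure_le]
      rintro _ ⟨i, rfl⟩
      exact h1 i
    · intro c hc
      exact Base.yy_zero hf (hcom c) (hC c hc)
  have : y ∈ S := by
    rw [hS]
    trivial
  exact this

/-- independence of the choice of the representative -/
theorem val_indep (hR' : R'.Normal) (hz : z ∉ R') (hzp : z ^ p ∈ R')
    (hf : f ∈ YY p ⊤ R' D) (h2 : f (z ^ p) = 0) {i j : ℕ} {r w : F} (hr : r ∈ R') (hw : w ∈ R')
    (h : z ^ i * r = z ^ j * w) : f r = f w := by
  have key : ∀ {i j : ℕ} {r w : F}, r ∈ R' → w ∈ R' → i ≤ j → z ^ i * r = z ^ j * w →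
      f r = f w := by
    intro i j r w hr hw hij h
    have h3 : r = z ^ (j - i) * w := by
      have h4 : z ^ j = z ^ i * z ^ (j - i) := by
        rw [← pow_add]
        congr 1
        omega
      rw [h4, mul_assoc] at h
      exact mul_left_cancel h
    have h5 : z ^ (j - i) ∈ R' := by
      have : z ^ (j - i) = r * w⁻¹ := by rw [h3]; group
      rw [this]
      exact mul_mem hr (inv_mem hw)
    rw [h3, Base.yy_mul hf h5 hw, pow_zero_val hR' hz hzp hf h2 h5, zero_add]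
  rcases le_total i j with hij | hij
  · exact key hr hw hij h
  · exact (key hw hr hij h.symm).symm

end EXTM

theorem specEXT : SpecEXT := by
  intro p hp F _ R' R D C z k n g hR' hR hD hle hz hz' hzp hcyc hcom hC hgen hor hY
  classical
  let Ψ : YY p ⊤ R' D →ₗ[ZMod p] ((Fin k → ZMod p) × ZMod p) :=
    { toFun := fun φ => (fun i => φ.1 ⁅z, g i⁆, φ.1 (z ^ p))
      map_add' := fun φ ψ => rfl
      map_smul' := fun c φ => rfl }
  choose! κ hκ using hcyc
  let E : LinearMap.ker Ψ →ₗ[ZMod p] (F → ZMod p) :=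
    { toFun := fun φ x => if x ∈ R then φ.1.1 ((z ^ κ x)⁻¹ * x) else 0
      map_add' := fun φ ψ => by
        funext x
        by_cases hx : x ∈ R
        · simp [hx]
        · simp [hx]
      map_smul' := fun c φ => by
        funext x
        by_cases hx : x ∈ R
        · simp [hx]
        · simp [hx] }
  -- values of `E`
  have hval : ∀ φ : LinearMap.ker Ψ, ∀ (i : ℕ) (r : F), r ∈ R' → E φ (z ^ i * r) = φ.1.1 r := by
    intro φ i r hr
    have h2 : φ.1.1 (z ^ p) = 0 := congrArg Prod.snd (LinearMap.mem_ker.1 φ.2)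
    have hx : z ^ i * r ∈ R := mul_mem (pow_mem hz i) (hle hr)
    change (if z ^ i * r ∈ R then φ.1.1 ((z ^ κ (z ^ i * r))⁻¹ * (z ^ i * r)) else 0) = _
    rw [if_pos hx]
    have hw := hκ _ hx
    apply EXTM.val_indep hR' hz' hzp φ.1.2 h2 hw hr (i := κ (z ^ i * r)) (j := i)
    group
  have hrep : ∀ x ∈ R, ∃ (i : ℕ) (r : F), r ∈ R' ∧ x = z ^ i * r := by
    intro x hx
    exact ⟨κ x, _, hκ x hx, by group⟩
  have hbase : ∀ φ : LinearMap.ker Ψ, E φ ∈ YY p ⊥ R ⊥ := by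
    intro φ
    have hf := φ.1.2
    refine ⟨?_, ?_, ?_, ?_⟩
    · intro x hx
      change (if x ∈ R then φ.1.1 ((z ^ κ x)⁻¹ * x) else 0) = 0
      rw [if_neg hx]
    · intro x hx y hy
      obtain ⟨i, r, hr, rfl⟩ := hrep x hx
      obtain ⟨j, s, hs, rfl⟩ := hrep y hy
      have h1 : z ^ i * r * (z ^ j * s) = z ^ (i + j) * (((z ^ j)⁻¹ * r * (z ^ j)⁻¹⁻¹) * s) := by
        rw [pow_add]
        group
      have h2 : (z ^ j)⁻¹ * r * (z ^ j)⁻¹⁻¹ ∈ R' := hR'.conj_mem r hr _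
      rw [h1, hval φ _ _ (mul_mem h2 hs), hval φ _ _ hr, hval φ _ _ hs,
        Base.yy_mul hf h2 hs, Base.yy_conj hf (Subgroup.mem_top _) hr]
    · intro y hy x hx
      rw [Subgroup.mem_bot] at hy
      subst hy
      simp
    · intro x hx hx1
      rw [Subgroup.mem_bot] at hx1
      subst hx1
      have := hval φ 0 1 (one_mem R')
      simpa [Base.yy_one hf] using this
  have hE : ∀ φ : LinearMap.ker Ψ, E φ ∈ YY p ⊤ R D := by
    intro φ
    have hf := φ.1.2
    have hb := hbase φ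
    have h1 : ∀ i, φ.1.1 ⁅z, g i⁆ = 0 := fun i =>
      congrFun (congrArg Prod.fst (LinearMap.mem_ker.1 φ.2)) i
    have hall := EXTM.all_comm hf hcom hC hgen h1
    refine ⟨hb.1, hb.2.1, ?_, ?_⟩
    · intro y _ x hx
      obtain ⟨i, r, hr, rfl⟩ := hrep x hx
      have hyz : y * z * y⁻¹ ∈ R := hR.conj_mem z hz y
      have h2 : y * (z ^ i * r) * y⁻¹ = (y * z * y⁻¹) ^ i * (y * r * y⁻¹) := by
        rw [conj_pow]
        group
      have h3 : E φ (y * z * y⁻¹) = 0 := by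
        have h4 : y * z * y⁻¹ = z ^ 1 * (z⁻¹ * ⁅z, y⁆⁻¹ * z⁻¹⁻¹) := by
          simp only [commutatorElement_def]
          group
        have h5 : z⁻¹ * ⁅z, y⁆⁻¹ * z⁻¹⁻¹ ∈ R' := hR'.conj_mem _ (inv_mem (hcom y)) _
        rw [h4, hval φ _ _ h5, Base.yy_conj hf (Subgroup.mem_top _) (inv_mem (hcom y)),
          Base.yy_inv hf (hcom y), hall y, neg_zero]
      have hyr : y * r * y⁻¹ ∈ R' := hR'.conj_mem r hr y
      have h6 : E φ (y * r * y⁻¹) = φ.1.1 r := by
        have h7 := hval φ 0 _ hyr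
        rw [pow_zero, one_mul] at h7
        rw [h7, Base.yy_conj hf (Subgroup.mem_top _) hr]
      rw [h2, Base.yy_mul hb (pow_mem hyz i) (hle hyr), Base.yy_pow hb hyz, h3, mul_zero,
        zero_add, h6, hval φ i r hr]
    · intro x hx hxD
      rcases hor with hor | hor
      · have hx' : x ∈ R' := hor ⟨hx, hxD⟩
        have h7 := hval φ 0 x hx'
        rw [pow_zero, one_mul] at h7
        rw [h7]
        exact Base.yy_zero hf hx' hxD
      · obtain ⟨i, r, hr, rfl⟩ := hrep x hx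
        rw [hval φ i r hr]
        apply Base.yy_zero hf hr
        have : r = (z ^ i)⁻¹ * (z ^ i * r) := by group
        rw [this]
        exact mul_mem (inv_mem (pow_mem hor i)) hxD
  refine Base.dle_add Ψ (fun _ => Submodule.mem_top) (Base.dle_fun_prod p k) E hE hY ?_
  intro φ hφ
  have h : φ.1.1 = 0 := by
    funext x
    by_cases hx : x ∈ R'
    · have h7 := hval φ 0 x hx
      rw [pow_zero, one_mul, hφ] at h7
      exact h7.symm
    · exact Base.yy_out φ.1.2 hx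
  exact Subtype.ext (Subtype.ext h)

end Pool.Agent.Lib.MP4ccb00.E
end

section
/-!
# MP_4ccb00_al, part (e), modules GEN, HOM
-/
namespace Pool.Agent.Lib.MP4ccb00.E

open scoped commutatorElement

theorem specGEN : SpecGEN := by
  intro p hp F _ N K hK
  have hprime : p.Prime := Fact.out
  induction K using Nat.strong_induction_on generalizing N with
  | _ K ih =>
    by_cases hN : N = ⊤
    · subst hN
      exact ⟨fun _ => 1, by simp⟩
    · obtain ⟨x, hx⟩ : ∃ x, x ∉ N := by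
        by_contra h
        push Not at h
        exact hN (eq_top_iff.2 fun x _ => h x)
      have hlt : N < N ⊔ Subgroup.zpowers x := by
        refine lt_of_le_of_ne le_sup_left ?_
        intro h
        apply hx
        rw [h]
        exact Subgroup.mem_sup_right (Subgroup.mem_zpowers x)
      have hdvd : (N ⊔ Subgroup.zpowers x).index ∣ p ^ K :=
        hK ▸ Subgroup.index_dvd_of_le hlt.le
      obtain ⟨K', hK', hN1⟩ := (Nat.dvd_prime_pow hprime).1 hdvd
      have hfin : N.FiniteIndex := ⟨by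
        rw [hK]
        exact pow_ne_zero _ hprime.ne_zero⟩
      have hKlt : K' < K := by
        have h1 := Subgroup.index_strictAnti hlt
        rw [hN1, hK] at h1
        exact (Nat.pow_lt_pow_iff_right hprime.one_lt).1 h1
      obtain ⟨g, hg⟩ := ih K' hKlt _ hN1
      refine ⟨fun j => if h : j.1 < K' then g ⟨j.1, h⟩ else x, ?_⟩
      rw [eq_top_iff, ← hg, sup_le_iff]
      constructor
      · unfold gen
        rw [Subgroup.closure_le]
        rintro _ ⟨j, rfl⟩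
        apply Subgroup.mem_sup_left
        apply Subgroup.subset_closure
        refine ⟨⟨j.1, j.2.trans hKlt⟩, ?_⟩
        simp [j.2]
      · rw [sup_le_iff, Subgroup.zpowers_le]
        refine ⟨le_sup_right, ?_⟩
        apply Subgroup.mem_sup_left
        apply Subgroup.subset_closure
        refine ⟨⟨K', hKlt⟩, ?_⟩
        simp

theorem specHOM : SpecHOM := by
  intro p hp F _ A D R m hdvd
  have hprime : p.Prime := Fact.out
  obtain ⟨j, hj, hidx⟩ := (Nat.dvd_prime_pow hprime).1 hdvd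
  obtain ⟨g, hg⟩ := specGEN p (↥D) (R.subgroupOf D) j hidx
  let Ψ : YY p A D R →ₗ[ZMod p] (Fin j → ZMod p) :=
    { toFun := fun φ i => φ.1 (g i)
      map_add' := fun φ ψ => rfl
      map_smul' := fun c φ => rfl }
  refine Base.dle_mono (Base.dle_inj Ψ (fun _ => Submodule.mem_top) (Base.dle_fun p j) ?_) hj
  intro φ hφ
  have hφ' : ∀ i, φ.1 (g i) = 0 := fun i => congrFun hφ i
  -- the zero set, as a subgroup of `D`
  let S : Subgroup D :=
    { carrier := {x | φ.1 x = 0}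
      one_mem' := Base.yy_one φ.2
      mul_mem' := fun {x y} hx hy => by
        have hx' : φ.1 x = 0 := hx
        have hy' : φ.1 y = 0 := hy
        change φ.1 ((x : F) * y) = 0
        rw [Base.yy_mul φ.2 x.2 y.2, hx', hy', add_zero]
      inv_mem' := fun {x} hx => by
        have hx' : φ.1 x = 0 := hx
        change φ.1 ((x : F)⁻¹) = 0
        rw [Base.yy_inv φ.2 x.2, hx', neg_zero] }
  have hS : S = ⊤ := by
    rw [eq_top_iff, ← hg, sup_le_iff]
    constructor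
    · unfold gen
      rw [Subgroup.closure_le]
      rintro _ ⟨i, rfl⟩
      exact hφ' i
    · intro x hx
      exact Base.yy_zero φ.2 x.2 (Subgroup.mem_subgroupOf.1 hx)
  apply Subtype.ext
  funext x
  by_cases hx : x ∈ D
  · have : (⟨x, hx⟩ : D) ∈ S := by
      rw [hS]
      trivial
    exact this
  · exact Base.yy_out φ.2 hx

end Pool.Agent.Lib.MP4ccb00.E
end

section
/-!
# MP_4ccb00_al, part (e), modules AY, E3, E2: dimensions of spaces of invariant homomorphisms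
-/
namespace Pool.Agent.Lib.MP4ccb00.E

open scoped commutatorElement

namespace AYM

/-- a step of index `p` above a given subgroup, with the element `z` -/
theorem step (p : ℕ) [Fact p.Prime] (F : Type) [Group F] (R' R : Subgroup F) (hR' : R'.Normal)
    (hR : R.Normal) (m : ℕ) (hm : R'.index = p ^ m) (hlt : R' < R) :
    ∃ (R1 : Subgroup F) (m1 : ℕ), R1.Normal ∧ R' < R1 ∧ R1 ≤ R ∧ R'.relIndex R1 = p ∧
      m = m1 + 1 ∧ R1.index = p ^ m1 ∧
      (∀ r ∈ R1, r ^ p ∈ R') ∧ (∀ r ∈ R1, ∀ y, ⁅r, y⁆ ∈ R') ∧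
      ∀ z ∈ R1, z ∉ R' → ∀ x ∈ R1, ∃ i : ℕ, (z ^ i)⁻¹ * x ∈ R' := by
  have hprime : p.Prime := Fact.out
  obtain ⟨R1, hR1, hlt1, hle1, hidx⟩ := specBOT p F R' R hR' hR ⟨m, hm⟩ hlt
  obtain ⟨h1, h2, h3⟩ := specCYC p F R' R1 hR' hR1 ⟨m, hm⟩ hlt1.le hidx
  have h4 : p * R1.index = p ^ m := by
    rw [← hm, ← hidx]
    exact Subgroup.relIndex_mul_index hlt1.le
  cases m with
  | zero =>
    exfalso
    have : p ∣ 1 := ⟨R1.index, by simpa using h4.symm⟩
    exact hprime.one_lt.ne' (Nat.dvd_one.1 this)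
  | succ m1 =>
    refine ⟨R1, m1, hR1, hlt1, hle1, hidx, rfl, ?_, h1, ?_, h3⟩
    · rw [pow_succ, mul_comm] at h4
      exact Nat.eq_of_mul_eq_mul_right hprime.pos h4
    · intro r hr y
      exact h2 (Subgroup.commutator_mem_commutator hr (Subgroup.mem_top y))

/-- the generators of a subgroup, seen inside it -/
theorem gen_restrict {F : Type} [Group F] {s : ℕ} (h : Fin s → F) :
    gen (fun j => (⟨h j, Subgroup.subset_closure ⟨j, rfl⟩⟩ : gen h)) = ⊤ := by
  have h1 := Subgroup.closure_closure_coe_preimage (k := Set.range h)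
  unfold gen
  rw [← h1]
  congr 1
  ext x
  constructor
  · rintro ⟨j, rfl⟩
    exact ⟨j, rfl⟩
  · rintro ⟨j, hj⟩
    exact ⟨j, Subtype.ext hj⟩

/-- homomorphisms of a finitely generated group are determined by the generators -/
theorem top_dle (p : ℕ) [Fact p.Prime] (F : Type) [Group F] (s : ℕ) (h : Fin s → F)
    (hh : gen h = ⊤) (D : Subgroup F) : DLE (YY p ⊤ (⊤ : Subgroup F) D) s := by
  let Ψ : YY p ⊤ (⊤ : Subgroup F) D →ₗ[ZMod p] (Fin s → ZMod p) :=
    { toFun := fun φ i => φ.1 (h i)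
      map_add' := fun φ ψ => rfl
      map_smul' := fun c φ => rfl }
  refine Base.dle_inj Ψ (fun _ => Submodule.mem_top) (Base.dle_fun p s) ?_
  intro φ hφ
  have hφ' : ∀ i, φ.1 (h i) = 0 := fun i => congrFun hφ i
  apply Subtype.ext
  funext x
  have hx : x ∈ Subgroup.closure (Set.range h) := by
    have : x ∈ gen h := by
      rw [hh]
      trivial
    exact this
  exact (Base.yy_closure φ.2 (S := Set.range h) (by
    rintro _ ⟨i, rfl⟩
    exact ⟨Subgroup.mem_top _, hφ' i⟩) x hx).2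

end AYM

theorem specAY : SpecAY := by
  intro p hp F _ s m h R hh hR hm
  induction m generalizing R with
  | zero =>
    have : R = ⊤ := Subgroup.index_eq_one.1 (by simpa using hm)
    subst this
    simpa using AYM.top_dle p F s h hh ⊥
  | succ m ih =>
    have hne : R ≠ ⊤ := by
      intro h
      rw [h, Subgroup.index_top] at hm
      have : 1 < p ^ (m + 1) := Nat.one_lt_pow (Nat.succ_ne_zero m) (Nat.Prime.one_lt Fact.out)
      omega
    obtain ⟨R1, m1, hR1, hlt1, -, hidx, hmm, hR1i, hpow, hcom, hcyc⟩ :=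
      AYM.step p F R ⊤ hR inferInstance (m + 1) hm (lt_top_iff_ne_top.2 hne)
    obtain rfl : m = m1 := by omega
    obtain ⟨z, hz, hz'⟩ := SetLike.exists_of_lt hlt1
    have h1 := ih R1 hR1 hR1i
    have h2 := specEXT p F R R1 ⊥ ⊥ z s ((s + 1) * m + s) h hR hR1 inferInstance hlt1.le hz hz'
      (hpow z hz) (hcyc z hz hz') (hcom z hz)
      (fun c hc => by rw [Subgroup.mem_bot.1 hc, commutatorElement_one_right]; exact one_mem _)
      (by rw [hh, top_sup_eq]) (Or.inl (by simp)) h1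
    refine Base.dle_mono h2 ?_
    ring_nf
    omega

theorem specE3 : SpecE3 := by
  intro p hp F _ d K f N hf hN hNK
  have hprime : p.Prime := Fact.out
  obtain ⟨g, hg⟩ := specGEN p F N K hNK
  set L : Subgroup F := gen g with hL
  -- `L` is generated by the `g j`
  let g' : Fin K → L := fun j => ⟨g j, Subgroup.subset_closure ⟨j, rfl⟩⟩
  have hg' : gen g' = ⊤ := AYM.gen_restrict g
  have hNL : (N.subgroupOf L).Normal := hN.subgroupOf L
  have hidx : (N.subgroupOf L).index = p ^ K := by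
    have h1 : N.relIndex (L ⊔ N) = N.relIndex L := Subgroup.relIndex_sup_right L N
    rw [hg, Subgroup.relIndex_top_right] at h1
    have h2 : (N.subgroupOf L).index = N.relIndex L := rfl
    rw [h2, ← h1, hNK]
  have hAY := specAY p L K K g' (N.subgroupOf L) hg' hNL hidx
  -- restriction to `L`
  let Ψ : YY p ⊤ N ⊥ →ₗ[ZMod p] (L → ZMod p) :=
    { toFun := fun φ x => φ.1 x
      map_add' := fun φ ψ => rfl
      map_smul' := fun c φ => rfl }
  have hΨ : ∀ φ, Ψ φ ∈ YY p ⊤ (N.subgroupOf L) ⊥ := by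
    intro φ
    refine ⟨?_, ?_, ?_, ?_⟩
    · intro x hx
      apply Base.yy_out φ.2
      intro h
      exact hx (Subgroup.mem_subgroupOf.2 h)
    · intro x hx y hy
      exact Base.yy_mul φ.2 (Subgroup.mem_subgroupOf.1 hx) (Subgroup.mem_subgroupOf.1 hy)
    · intro y _ x hx
      exact Base.yy_conj φ.2 (Subgroup.mem_top _) (Subgroup.mem_subgroupOf.1 hx)
    · intro x hx hx1
      rw [Subgroup.mem_bot] at hx1
      subst hx1
      have h0 : φ.1 1 = 0 := Base.yy_one φ.2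
      exact h0
  -- extension of the elements of the kernel to `F`
  have hdec : ∀ x : F, ∃ y ∈ N, ∃ l ∈ L, y * l = x := by
    intro x
    have hx : x ∈ N ⊔ L := by
      rw [sup_comm, hg]
      trivial
    rwa [Subgroup.mem_sup_of_normal_left] at hx
  choose ν hν hν2 using hdec
  let E : LinearMap.ker Ψ →ₗ[ZMod p] (F → ZMod p) :=
    { toFun := fun φ x => φ.1.1 (ν x)
      map_add' := fun φ ψ => rfl
      map_smul' := fun c φ => rfl }
  have hval : ∀ φ : LinearMap.ker Ψ, ∀ y ∈ N, ∀ l ∈ L, E φ (y * l) = φ.1.1 y := by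
    intro φ y hy l hl
    change φ.1.1 (ν (y * l)) = φ.1.1 y
    obtain ⟨l', hl', hl2⟩ := hν2 (y * l)
    have hw := hν (y * l)
    set w := ν (y * l)
    have h1 : w = y * (l * l'⁻¹) := by
      calc w = (w * l') * l'⁻¹ := by group
        _ = (y * l) * l'⁻¹ := by rw [hl2]
        _ = y * (l * l'⁻¹) := by group
    have h2 : l * l'⁻¹ ∈ L := mul_mem hl (inv_mem hl')
    have h3 : l * l'⁻¹ ∈ N := by
      have : l * l'⁻¹ = y⁻¹ * w := by rw [h1]; group
      rw [this]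
      exact mul_mem (inv_mem hy) hw
    have h4 : φ.1.1 (l * l'⁻¹) = 0 := congrFun (LinearMap.mem_ker.1 φ.2) ⟨_, h2⟩
    rw [h1, Base.yy_mul φ.1.2 hy h3, h4, add_zero]
  have hE : ∀ φ, E φ ∈ YY p ⊤ (⊤ : Subgroup F) ⊥ := by
    intro φ
    have hadd : ∀ x y, E φ (x * y) = E φ x + E φ y := by
      intro x y
      obtain ⟨l, hl, hlx⟩ := hν2 x
      obtain ⟨k, hk, hky⟩ := hν2 y
      have hx := hν x
      have hy := hν y
      rw [← hlx, ← hky, hval φ _ hx l hl, hval φ _ hy k hk]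
      have h1 : ν x * l * (ν y * k) = (ν x * (l * ν y * l⁻¹)) * (l * k) := by group
      have h2 : l * ν y * l⁻¹ ∈ N := hN.conj_mem _ hy l
      rw [h1, hval φ _ (mul_mem hx h2) _ (mul_mem hl hk), Base.yy_mul φ.1.2 hx h2,
        Base.yy_conj φ.1.2 (Subgroup.mem_top _) hy]
    refine ⟨?_, ?_, ?_, ?_⟩
    · intro x hx
      exact absurd (Subgroup.mem_top x) hx
    · intro x _ y _
      exact hadd x y
    · intro g _ x _
      have h1 : E φ (g * x * g⁻¹) + E φ g = E φ g + E φ x := by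
        rw [← hadd, ← hadd]
        congr 1
        group
      have h2 : E φ (g * x * g⁻¹) + E φ g = E φ x + E φ g := by rw [h1, add_comm]
      exact add_right_cancel h2
    · intro x _ hx1
      rw [Subgroup.mem_bot] at hx1
      subst hx1
      have := hadd 1 1
      simpa using this
  have h1 := Base.dle_add Ψ hΨ hAY E hE (AYM.top_dle p F d f hf ⊥) (by
    intro φ hφ
    have h : φ.1.1 = 0 := by
      funext x
      by_cases hx : x ∈ N
      · have h7 := hval φ x hx 1 (one_mem L)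
        rw [mul_one, hφ] at h7
        exact h7.symm
      · exact Base.yy_out φ.1.2 hx
    exact Subtype.ext (Subtype.ext h))
  exact Base.dle_mono h1 (by omega)

theorem specE2 : SpecE2 := by
  intro p hp F _ d K m f N R hf hN hR hle hNK hRm
  have hprime : p.Prime := Fact.out
  obtain ⟨g, hg⟩ := specGEN p F N K hNK
  have h3 := specE3 p F d K f N hf hN hNK
  induction m generalizing R with
  | zero =>
    have : R = ⊤ := Subgroup.index_eq_one.1 (by simpa using hRm)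
    subst this
    have hN' : N = ⊤ := top_le_iff.1 hle
    subst hN'
    refine Base.dle_mono (Base.dle_le (Base.yy_mono le_rfl bot_le) h3) ?_
    omega
  | succ m ih =>
    rcases eq_or_lt_of_le hle with heq | hlt
    · subst heq
      refine Base.dle_mono (Base.dle_le (Base.yy_mono le_rfl bot_le) h3) ?_
      exact Nat.le_add_left _ _
    · obtain ⟨R1, m1, hR1, hlt1, hle1, hidx, hmm, hR1i, hpow, hcom, hcyc⟩ :=
        AYM.step p F R N hR hN (m + 1) hRm hlt
      obtain rfl : m = m1 := by omega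
      have h1 := ih R1 hR1 hle1 hR1i
      -- choice of `z`
      obtain ⟨z, hz, hz', hor⟩ : ∃ z ∈ R1, z ∉ R ∧ (R1 ⊓ ⁅N, N⁆ ≤ R ∨ z ∈ ⁅N, N⁆) := by
        by_cases h : R1 ⊓ ⁅N, N⁆ ≤ R
        · obtain ⟨z, hz, hz'⟩ := SetLike.exists_of_lt hlt1
          exact ⟨z, hz, hz', Or.inl h⟩
        · obtain ⟨z, hz, hz'⟩ := SetLike.not_le_iff_exists.1 h
          exact ⟨z, hz.1, hz', Or.inr hz.2⟩
      have h2 := specEXT p F R R1 ⁅N, N⁆ N z K _ g hR hR1 inferInstance hlt1.le hz hz'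
        (hpow z hz) (hcyc z hz hz') (hcom z hz)
        (fun c hc => Subgroup.commutator_mem_commutator (hle1 hz) hc) hg hor h1
      refine Base.dle_mono h2 ?_
      ring_nf
      omega

end Pool.Agent.Lib.MP4ccb00.E
end

section
/-!
# MP_4ccb00_al, part (e), modules BST, BF: derived groups of subgroups
-/
namespace Pool.Agent.Lib.MP4ccb00.E

open scoped commutatorElement

namespace BSTM

theorem comm_prod {Q : Type} [Group Q] {a b c d : Q} (hbc : b * c = c * b) (hbd : b * d = d * b)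
    (hda : d * a = a * d) : ⁅a * b, c * d⁆ = ⁅a, c⁆ := by
  have h1 : b * (c * d) * b⁻¹ = c * d := by
    rw [← mul_assoc, hbc, mul_assoc c b d, hbd]
    group
  have h2 : d * a⁻¹ = a⁻¹ * d := by
    calc d * a⁻¹ = a⁻¹ * (a * d) * a⁻¹ := by group
      _ = a⁻¹ * (d * a) * a⁻¹ := by rw [hda]
      _ = a⁻¹ * d := by group
  calc ⁅a * b, c * d⁆ = a * (b * (c * d) * b⁻¹) * a⁻¹ * (d⁻¹ * c⁻¹) := by
        rw [commutatorElement_def]
        group
    _ = a * (c * d) * a⁻¹ * (d⁻¹ * c⁻¹) := by rw [h1]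
    _ = a * c * (d * a⁻¹) * (d⁻¹ * c⁻¹) := by group
    _ = a * c * (a⁻¹ * d) * (d⁻¹ * c⁻¹) := by rw [h2]
    _ = ⁅a, c⁆ := by
        rw [commutatorElement_def]
        group

/-- `⁅h r, h' r'⁆ ≡ ⁅h, h'⁆` modulo `R'` -/
theorem comm_mem {F : Type} [Group F] {N H R R' : Subgroup F} (hR' : R'.Normal) (hRN : R ≤ N)
    (hHN : H ≤ N) (hcom : ⁅R, N⁆ ≤ R') {h1 h2 r1 r2 : F} (hh1 : h1 ∈ H) (hh2 : h2 ∈ H)
    (hr1 : r1 ∈ R) (hr2 : r2 ∈ R) : ⁅h1 * r1, h2 * r2⁆ ∈ ⁅H, H⁆ ⊔ R' := by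
  have hc : ∀ r ∈ R, ∀ n ∈ N, (r : F ⧸ R') * (n : F ⧸ R') = (n : F ⧸ R') * (r : F ⧸ R') := by
    intro r hr n hn
    have h := (QuotientGroup.eq_one_iff (N := R') _).2
      (hcom (Subgroup.commutator_mem_commutator hr hn))
    have h2 : ((⁅r, n⁆ : F) : F ⧸ R') = ⁅(r : F ⧸ R'), (n : F ⧸ R')⁆ :=
      map_commutatorElement (QuotientGroup.mk' R') r n
    rw [h2, commutatorElement_eq_one_iff_mul_comm] at h
    exact h
  have h3 : ((⁅h1 * r1, h2 * r2⁆ : F) : F ⧸ R') = ((⁅h1, h2⁆ : F) : F ⧸ R') := by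
    have e1 : ((⁅h1 * r1, h2 * r2⁆ : F) : F ⧸ R') =
        ⁅(h1 : F ⧸ R') * (r1 : F ⧸ R'), (h2 : F ⧸ R') * (r2 : F ⧸ R')⁆ :=
      map_commutatorElement (QuotientGroup.mk' R') _ _
    have e2 : ((⁅h1, h2⁆ : F) : F ⧸ R') = ⁅(h1 : F ⧸ R'), (h2 : F ⧸ R')⁆ :=
      map_commutatorElement (QuotientGroup.mk' R') h1 h2
    rw [e1, e2]
    exact comm_prod (hc r1 hr1 h2 (hHN hh2)) (hc r1 hr1 r2 (hRN hr2)) (hc r2 hr2 h1 (hHN hh1))
  have h4 : ⁅h1, h2⁆⁻¹ * ⁅h1 * r1, h2 * r2⁆ ∈ R' := QuotientGroup.eq.1 h3.symm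
  have h5 : ⁅h1 * r1, h2 * r2⁆ = ⁅h1, h2⁆ * (⁅h1, h2⁆⁻¹ * ⁅h1 * r1, h2 * r2⁆) := by group
  rw [h5]
  exact Subgroup.mul_mem_sup (Subgroup.commutator_mem_commutator hh1 hh2) h4

end BSTM

theorem specBST : SpecBST := by
  intro p F _ N H R R' hR hR' hR'R hRN hHN hcom hpow hD
  have hKH : ⁅H, H⁆ ≤ H := Subgroup.commutator_le_self H
  have hdec : ∀ d ∈ ⁅N, N⁆, ∃ k ∈ ⁅H, H⁆, ∃ r ∈ R, k * r = d := by
    intro d hd
    exact Subgroup.mem_sup_of_normal_right.1 (hD hd)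
  have hconj : ∀ n ∈ N, ∀ h ∈ H, ∃ h1 ∈ H, ∃ r1 ∈ R, n * h * n⁻¹ = h1 * r1 := by
    intro n hn h hh
    obtain ⟨k, hk, r, hr, hkr⟩ := hdec ⁅n, h⁆ (Subgroup.commutator_mem_commutator hn (hHN hh))
    refine ⟨k * h, mul_mem (hKH hk) hh, h⁻¹ * r * h⁻¹⁻¹, hR.conj_mem r hr _, ?_⟩
    have h1 : n * h * n⁻¹ = ⁅n, h⁆ * h := by
      rw [commutatorElement_def]
      group
    rw [h1, ← hkr]
    group
  have first : ∀ n ∈ N, ∀ x ∈ ⁅H, H⁆ ⊔ R', n * x * n⁻¹ ∈ ⁅H, H⁆ ⊔ R' := by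
    intro n hn x hx
    have hle : ⁅H, H⁆ ⊔ R' ≤ (⁅H, H⁆ ⊔ R').comap (MulAut.conj n).toMonoidHom := by
      rw [sup_le_iff]
      constructor
      · rw [Subgroup.commutator_le]
        intro h hh h' hh'
        rw [Subgroup.mem_comap, map_commutatorElement]
        change ⁅n * h * n⁻¹, n * h' * n⁻¹⁆ ∈ _
        obtain ⟨h1, hh1, r1, hr1, e1⟩ := hconj n hn h hh
        obtain ⟨h2, hh2, r2, hr2, e2⟩ := hconj n hn h' hh'
        rw [e1, e2]
        exact BSTM.comm_mem hR' hRN hHN hcom hh1 hh2 hr1 hr2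
      · intro y hy
        rw [Subgroup.mem_comap]
        exact Subgroup.mem_sup_right (hR'.conj_mem y hy n)
    exact hle hx
  refine ⟨first, ?_, ?_⟩
  · rw [Subgroup.commutator_le]
    intro d hd n hn
    obtain ⟨k, hk, r, hr, rfl⟩ := hdec d hd
    have h1 : ⁅k * r, n⁆ = k * ⁅r, n⁆ * (n * k⁻¹ * n⁻¹) := by
      simp only [commutatorElement_def]
      group
    rw [h1]
    refine mul_mem (mul_mem (Subgroup.mem_sup_left hk) (Subgroup.mem_sup_right ?_)) ?_
    · exact hcom (Subgroup.commutator_mem_commutator hr hn)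
    · exact first n hn _ (inv_mem (Subgroup.mem_sup_left hk))
  · intro d hd
    obtain ⟨k, hk, r, hr, rfl⟩ := hdec d hd
    have hc : Commute (k : F ⧸ R') (r : F ⧸ R') := by
      have h := (QuotientGroup.eq_one_iff (N := R') _).2
        (hcom (Subgroup.commutator_mem_commutator hr (hHN (hKH hk))))
      have h2 : ((⁅r, k⁆ : F) : F ⧸ R') = ⁅(r : F ⧸ R'), (k : F ⧸ R')⁆ :=
        map_commutatorElement (QuotientGroup.mk' R') r k
      rw [h2, commutatorElement_eq_one_iff_mul_comm] at h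
      exact h.symm
    have h3 : (((k * r) ^ p : F) : F ⧸ R') = ((k ^ p : F) : F ⧸ R') := by
      have h4 : ((r ^ p : F) : F ⧸ R') = 1 := (QuotientGroup.eq_one_iff _).2 (hpow r hr)
      calc (((k * r) ^ p : F) : F ⧸ R') = ((k : F ⧸ R') * (r : F ⧸ R')) ^ p := rfl
        _ = (k : F ⧸ R') ^ p * (r : F ⧸ R') ^ p := hc.mul_pow p
        _ = (k : F ⧸ R') ^ p * ((r ^ p : F) : F ⧸ R') := rfl
        _ = ((k ^ p : F) : F ⧸ R') := by rw [h4, mul_one]; rfl
    have h4 : (k ^ p)⁻¹ * (k * r) ^ p ∈ R' := QuotientGroup.eq.1 h3.symm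
    have h5 : (k * r) ^ p = k ^ p * ((k ^ p)⁻¹ * (k * r) ^ p) := by group
    rw [h5]
    exact Subgroup.mul_mem_sup (pow_mem hk p) h4

theorem specBF : SpecBF := by
  intro p hp F _ N H R hN hR hm hRN hHN hD
  obtain ⟨m, hm⟩ := hm
  -- all normal subgroups between `R` and `N`
  have key : ∀ (j : ℕ) (S : Subgroup F), S.Normal → R ≤ S → S ≤ N → S.index = p ^ j →
      ⁅N, N⁆ ≤ ⁅H, H⁆ ⊔ S := by
    intro j
    induction j with
    | zero =>
      intro S _ _ _ hj
      have : S = ⊤ := Subgroup.index_eq_one.1 (by simpa using hj)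
      subst this
      simp
    | succ j ih =>
      intro S hS hRS hSN hj
      rcases eq_or_lt_of_le hSN with heq | hlt
      · subst heq
        exact (Subgroup.commutator_le_self S).trans le_sup_right
      · obtain ⟨S1, m1, hS1, hlt1, hle1, hidx, hmm, hS1i, hpow, hcom, -⟩ :=
          AYM.step p F S N hS hN (j + 1) hj hlt
        obtain rfl : j = m1 := by omega
        have h1 := ih S1 hS1 (hRS.trans hlt1.le) hle1 hS1i
        obtain ⟨-, h2, h3⟩ := specBST p F N H S1 S hS1 hS hlt1.le hle1 hHN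
          (by
            rw [Subgroup.commutator_le]
            intro r hr n _
            exact hcom r hr n) hpow h1
        refine hD.trans ?_
        rw [sup_le_iff, sup_le_iff, sup_le_iff, Subgroup.closure_le]
        refine ⟨⟨⟨le_sup_left, h2⟩, ?_⟩, hRS.trans le_sup_right⟩
        rintro x ⟨d, hd, rfl⟩
        exact h3 d hd
  exact key m R hR le_rfl hRN hm

end Pool.Agent.Lib.MP4ccb00.E
end

section
/-!
# MP_4ccb00_al, part (e), module E5: one stage
-/
set_option autoImplicit false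

namespace Pool.Agent.Lib.MP4ccb00.E

open scoped commutatorElement

namespace E5M

open Base

/-! ## Quotients of exponent `p` -/

/-- A quotient of exponent `p`, as a vector space. -/
theorem exists_space {p : ℕ} [hp : Fact p.Prime] {G : Type} [Group G] (K : Subgroup G)
    (hK : K.Normal) (hc : ∀ x y : G, ⁅x, y⁆ ∈ K) (hpw : ∀ x : G, x ^ p ∈ K) :
    ∃ (V : Type) (_ : AddCommGroup V) (_ : Module (ZMod p) V) (π : G → V),
      Function.Surjective π ∧ (∀ x y, π (x * y) = π x + π y) ∧ (∀ x, π x = 0 ↔ x ∈ K) ∧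
        Nat.card V = K.index := by
  let inst : CommGroup (G ⧸ K) :=
    { (inferInstance : Group (G ⧸ K)) with
      mul_comm := by
        intro a b
        obtain ⟨x, rfl⟩ := QuotientGroup.mk_surjective a
        obtain ⟨y, rfl⟩ := QuotientGroup.mk_surjective b
        change ((x * y : G) : G ⧸ K) = ((y * x : G) : G ⧸ K)
        rw [QuotientGroup.eq]
        have h1 : (x * y)⁻¹ * (y * x) = ⁅y⁻¹, x⁻¹⁆ := by
          rw [commutatorElement_def]
          group
        rw [h1]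
        exact hc _ _ }
  have hmod : ∀ v : Additive (G ⧸ K), p • v = 0 := by
    intro v
    obtain ⟨x, hx⟩ := QuotientGroup.mk_surjective (Additive.toMul v)
    have h1 : (Additive.toMul v) ^ p = 1 := by
      rw [← hx]
      change ((x ^ p : G) : G ⧸ K) = 1
      rw [QuotientGroup.eq_one_iff]
      exact hpw x
    exact congrArg Additive.ofMul h1
  refine ⟨Additive (G ⧸ K), inferInstance, AddCommGroup.zmodModule hmod,
    fun x => Additive.ofMul (x : G ⧸ K), ?_, ?_, ?_, ?_⟩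
  · intro v
    obtain ⟨x, hx⟩ := QuotientGroup.mk_surjective (Additive.toMul v)
    exact ⟨x, congrArg Additive.ofMul hx⟩
  · intro x y
    rfl
  · intro x
    constructor
    · intro h
      have h1 : (x : G ⧸ K) = 1 := congrArg Additive.toMul h
      exact (QuotientGroup.eq_one_iff x).1 h1
    · intro h
      have h1 : (x : G ⧸ K) = 1 := (QuotientGroup.eq_one_iff x).2 h
      exact congrArg Additive.ofMul h1
  · rfl

/-- A non-zero functional. -/
theorem exists_functional {p : ℕ} [hp : Fact p.Prime] {G : Type} [Group G] (K : Subgroup G)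
    (hK : K.Normal) (hc : ∀ x y : G, ⁅x, y⁆ ∈ K) (hpw : ∀ x : G, x ^ p ∈ K) {x : G}
    (hx : x ∉ K) : ∃ f : G → ZMod p, (∀ y z, f (y * z) = f y + f z) ∧ (∀ y ∈ K, f y = 0) ∧
      f x ≠ 0 := by
  obtain ⟨V, _, _, π, -, hadd, hker, -⟩ := exists_space (p := p) K hK hc hpw
  have h1 : π x ≠ 0 := fun h => hx ((hker x).1 h)
  obtain ⟨φ, hφ⟩ : ∃ φ : Module.Dual (ZMod p) V, φ (π x) ≠ 0 := by
    by_contra h
    push Not at h
    exact h1 ((Module.forall_dual_apply_eq_zero_iff (ZMod p) (π x)).1 h)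
  refine ⟨fun y => φ (π y), fun y z => ?_, fun y hy => ?_, hφ⟩
  · change φ (π (y * z)) = φ (π y) + φ (π z)
    rw [hadd, map_add]
  · change φ (π y) = 0
    rw [(hker y).2 hy, map_zero]

/-! ## Normal subgroups -/

variable {F : Type} [Group F]

theorem phiP_normal (p : ℕ) {N : Subgroup F} (hN : N.Normal) : (PhiP p N).Normal := by
  have h1 : (Subgroup.closure {x : F | ∃ y ∈ N, x = y ^ p}).Normal := by
    refine ⟨fun x hx g => ?_⟩
    induction hx using Subgroup.closure_induction with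
    | mem x hx =>
      obtain ⟨y, hy, rfl⟩ := hx
      exact Subgroup.subset_closure ⟨g * y * g⁻¹, hN.conj_mem y hy g, by rw [conj_pow]⟩
    | one =>
      rw [mul_one, mul_inv_cancel]
      exact one_mem _
    | mul x y _ _ hx hy =>
      have : g * (x * y) * g⁻¹ = (g * x * g⁻¹) * (g * y * g⁻¹) := by group
      rw [this]
      exact mul_mem hx hy
    | inv x _ hx =>
      have : g * x⁻¹ * g⁻¹ = (g * x * g⁻¹)⁻¹ := by group
      rw [this]
      exact inv_mem hx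
  have h2 : (⁅N, N⁆).Normal := Subgroup.commutator_normal N N
  exact Subgroup.sup_normal _ _

/-! ## Forms -/

section Form

variable {p : ℕ} [hp : Fact p.Prime] {N R : Subgroup F} {lam : F → ZMod p}

omit hp in
theorem comm_le : ⁅N, N⁆ ≤ N := by
  rw [Subgroup.commutator_le]
  intro x hx y hy
  exact mul_mem (mul_mem (mul_mem hx hy) (inv_mem hx)) (inv_mem hy)

theorem comm_mem {x y : F} (hx : x ∈ N) (hy : y ∈ N) : ⁅x, y⁆ ∈ ⁅N, N⁆ :=
  Subgroup.commutator_mem_commutator hx hy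

theorem add_l (h : lam ∈ YY p N ⁅N, N⁆ R) {x x' y : F} (hx : x ∈ N) (hx' : x' ∈ N) (hy : y ∈ N) :
    lam ⁅x * x', y⁆ = lam ⁅x, y⁆ + lam ⁅x', y⁆ := by
  have h1 : ⁅x * x', y⁆ = (x * ⁅x', y⁆ * x⁻¹) * ⁅x, y⁆ := by
    simp only [commutatorElement_def]
    group
  have h2 : x * ⁅x', y⁆ * x⁻¹ ∈ ⁅N, N⁆ := by
    have h3 : x * ⁅x', y⁆ * x⁻¹ = ⁅x, ⁅x', y⁆⁆ * ⁅x', y⁆ := by
      simp only [commutatorElement_def]
      group
    rw [h3]
    exact mul_mem (comm_mem hx (comm_le (comm_mem hx' hy))) (comm_mem hx' hy)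
  rw [h1, yy_mul h h2 (comm_mem hx hy), yy_conj h hx (comm_mem hx' hy), add_comm]

theorem anti (h : lam ∈ YY p N ⁅N, N⁆ R) {x y : F} (hx : x ∈ N) (hy : y ∈ N) :
    lam ⁅x, y⁆ = -lam ⁅y, x⁆ := by
  rw [← commutatorElement_inv, yy_inv h (comm_mem hy hx)]

theorem add_r (h : lam ∈ YY p N ⁅N, N⁆ R) {x y y' : F} (hx : x ∈ N) (hy : y ∈ N) (hy' : y' ∈ N) :
    lam ⁅x, y * y'⁆ = lam ⁅x, y⁆ + lam ⁅x, y'⁆ := by
  rw [anti h hx (mul_mem hy hy'), add_l h hy hy' hx, anti h hx hy, anti h hx hy', neg_add]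

/-- the elements `x` of `N` with `lam ⁅x, y⁆ = 0` -/
def perp (h : lam ∈ YY p N ⁅N, N⁆ R) {y : F} (hy : y ∈ N) : Subgroup F where
  carrier := {x | x ∈ N ∧ lam ⁅x, y⁆ = 0}
  one_mem' := ⟨one_mem _, by rw [commutatorElement_one_left, yy_one h]⟩
  mul_mem' := by
    rintro x x' ⟨hx, h1⟩ ⟨hx', h2⟩
    exact ⟨mul_mem hx hx', by rw [add_l h hx hx' hy, h1, h2, add_zero]⟩
  inv_mem' := by
    rintro x ⟨hx, h1⟩
    refine ⟨inv_mem hx, ?_⟩
    have h2 := add_l h hx (inv_mem hx) hy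
    rw [mul_inv_cancel, commutatorElement_one_left, yy_one h, h1, zero_add] at h2
    exact h2.symm

theorem perp_le (hN : N.Normal) (hR : R.Normal) (hRN : R ≤ N) (h : lam ∈ YY p N ⁅N, N⁆ R) {y : F}
    (hy : y ∈ N) : PhiP p N ⊔ R ≤ perp h hy := by
  have hDN : ⁅N, N⁆ ≤ N := comm_le
  have hD : (⁅N, N⁆).Normal := Subgroup.commutator_normal N N
  refine sup_le (sup_le ?_ ?_) ?_
  · intro d hd
    refine ⟨hDN hd, ?_⟩
    have h1 : ⁅d, y⁆ = d * (y * d⁻¹ * y⁻¹) := by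
      rw [commutatorElement_def]
      group
    rw [h1, yy_mul h hd (hD.conj_mem _ (inv_mem hd) y), yy_conj h hy (inv_mem hd), yy_inv h hd,
      add_neg_cancel]
  · rw [Subgroup.closure_le]
    rintro _ ⟨x, hx, rfl⟩
    refine ⟨pow_mem hx p, ?_⟩
    have h1 : ∀ i : ℕ, lam ⁅x ^ i, y⁆ = i * lam ⁅x, y⁆ := by
      intro i
      induction i with
      | zero => rw [pow_zero, commutatorElement_one_left, yy_one h, Nat.cast_zero, zero_mul]
      | succ i ih =>
        rw [pow_succ, add_l h (pow_mem hx i) hx hy, ih]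
        push_cast
        ring
    rw [h1, ZMod.natCast_self, zero_mul]
  · intro r hr
    refine ⟨hRN hr, yy_zero h (comm_mem (hRN hr) hy) ?_⟩
    have h1 : ⁅r, y⁆ = r * (y * r⁻¹ * y⁻¹) := by
      rw [commutatorElement_def]
      group
    rw [h1]
    exact mul_mem hr (hR.conj_mem _ (inv_mem hr) y)

variable {V : Type} [AddCommGroup V] [Module (ZMod p) V] {π : N → V} {σ : V → N}

/-- the data of the quotient of `N` by `PhiP p N ⊔ R` -/
structure Data (p : ℕ) {F : Type} [Group F] (N R : Subgroup F) {V : Type} [AddCommGroup V]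
    (π : N → V) (σ : V → N) : Prop where
  sec : ∀ v, π (σ v) = v
  add : ∀ x y, π (x * y) = π x + π y
  ker : ∀ x, π x = 0 ↔ (x : F) ∈ PhiP p N ⊔ R

omit hp [Module (ZMod p) V] in
theorem eq_mem (D : Data p N R π σ) {x x' : N} (h : π x = π x') :
    ((x'⁻¹ * x : N) : F) ∈ PhiP p N ⊔ R := by
  rw [← D.ker, D.add, h, ← D.add, inv_mul_cancel]
  have h1 := D.add 1 1
  rw [mul_one] at h1
  exact left_eq_add.1 h1

omit [Module (ZMod p) V] in
theorem formula (hN : N.Normal) (hR : R.Normal) (hRN : R ≤ N) (D : Data p N R π σ)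
    (h : lam ∈ YY p N ⁅N, N⁆ R) {x x' y y' : N} (hx : π x = π x') (hy : π y = π y') :
    lam ⁅(x : F), y⁆ = lam ⁅(x' : F), y'⁆ := by
  have key : ∀ {x x' : N} (y : N), π x = π x' → lam ⁅(x : F), y⁆ = lam ⁅(x' : F), y⁆ := by
    intro x x' y hx
    have h1 := (perp_le hN hR hRN h y.2 (eq_mem D hx)).2
    have h2 : (x : F) = x' * ((x'⁻¹ * x : N) : F) := by
      push_cast
      group
    rw [h2, add_l h x'.2 (x'⁻¹ * x : N).2 y.2, h1, add_zero]
  rw [key y hx, anti h x'.2 y.2, key x' hy, ← anti h x'.2 y'.2]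

/-- the form attached to `lam` -/
noncomputable def form (hN : N.Normal) (hR : R.Normal) (hRN : R ≤ N) (D : Data p N R π σ) :
    YY p N ⁅N, N⁆ R →ₗ[ZMod p] (V →ₗ[ZMod p] V →ₗ[ZMod p] ZMod p) where
  toFun lam := AddMonoidHom.toZModLinearMap p (AddMonoidHom.mk'
    (fun u => AddMonoidHom.toZModLinearMap p (AddMonoidHom.mk'
      (fun v => lam.1 ⁅(σ u : F), (σ v : F)⁆) (by
        intro v v'
        have h1 : π (σ (v + v')) = π (σ v * σ v') := by
          rw [D.add, D.sec, D.sec, D.sec]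
        rw [formula hN hR hRN D lam.2 (rfl : π (σ u) = π (σ u)) h1]
        exact add_r lam.2 (σ u).2 (σ v).2 (σ v').2))) (by
    intro u u'
    ext v
    change lam.1 ⁅(σ (u + u') : F), (σ v : F)⁆ =
      lam.1 ⁅(σ u : F), (σ v : F)⁆ + lam.1 ⁅(σ u' : F), (σ v : F)⁆
    have h1 : π (σ (u + u')) = π (σ u * σ u') := by
      rw [D.add, D.sec, D.sec, D.sec]
    rw [formula hN hR hRN D lam.2 h1 (rfl : π (σ v) = π (σ v))]
    exact add_l lam.2 (σ u).2 (σ u').2 (σ v).2))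
  map_add' lam lam' := by
    ext u v
    rfl
  map_smul' t lam := by
    ext u v
    rfl

theorem form_apply (hN : N.Normal) (hR : R.Normal) (hRN : R ≤ N) (D : Data p N R π σ)
    (lam : YY p N ⁅N, N⁆ R) (x y : N) :
    form hN hR hRN D lam (π x) (π y) = lam.1 ⁅(x : F), (y : F)⁆ := by
  change lam.1 ⁅(σ (π x) : F), (σ (π y) : F)⁆ = _
  exact formula hN hR hRN D lam.2 (D.sec _) (D.sec _)

/-! ## Conjugation -/

omit hp in
theorem conj_mem_YY (hN : N.Normal) (hR : R.Normal) (h : lam ∈ YY p N ⁅N, N⁆ R) (y : F) :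
    (fun z => lam (y * z * y⁻¹)) ∈ YY p N ⁅N, N⁆ R := by
  have hD : (⁅N, N⁆).Normal := Subgroup.commutator_normal N N
  refine ⟨fun z hz => h.1 _ fun h1 => hz ?_, fun z hz z' hz' => ?_, fun n hn z hz => ?_,
    fun z hz hzR => ?_⟩
  · have h2 := hD.conj_mem _ h1 y⁻¹
    have h3 : y⁻¹ * (y * z * y⁻¹) * y⁻¹⁻¹ = z := by group
    rwa [h3] at h2
  · have h1 : y * (z * z') * y⁻¹ = (y * z * y⁻¹) * (y * z' * y⁻¹) := by group
    change lam (y * (z * z') * y⁻¹) = lam (y * z * y⁻¹) + lam (y * z' * y⁻¹)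
    rw [h1]
    exact h.2.1 _ (hD.conj_mem z hz y) _ (hD.conj_mem z' hz' y)
  · have h1 : y * (n * z * n⁻¹) * y⁻¹ =
        (y * n * y⁻¹) * (y * z * y⁻¹) * (y * n * y⁻¹)⁻¹ := by group
    change lam (y * (n * z * n⁻¹) * y⁻¹) = lam (y * z * y⁻¹)
    rw [h1]
    exact h.2.2.1 _ (hN.conj_mem n hn y) _ (hD.conj_mem z hz y)
  · exact h.2.2.2 _ (hD.conj_mem z hz y) (hR.conj_mem z hzR y)

/-- conjugation on `N` -/
def cj (hN : N.Normal) (y : F) (x : N) : N := ⟨y * x * y⁻¹, hN.conj_mem x x.2 y⟩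

omit hp [Module (ZMod p) V] in
theorem cj_wd (hN : N.Normal) (hR : R.Normal) (D : Data p N R π σ) (y : F) {x x' : N}
    (h : π x = π x') : π (cj hN y x) = π (cj hN y x') := by
  have h0 : π 1 = 0 := by
    have h1 := D.add 1 1
    rw [mul_one] at h1
    exact left_eq_add.1 h1
  have hQ : (PhiP p N ⊔ R).Normal := by
    have := phiP_normal p hN
    exact Subgroup.sup_normal _ _
  have h1 := hQ.conj_mem _ (eq_mem D h) y
  have h2 : π ((cj hN y x')⁻¹ * cj hN y x) = 0 := by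
    rw [D.ker]
    have h3 : (((cj hN y x')⁻¹ * cj hN y x : N) : F) = y * ((x'⁻¹ * x : N) : F) * y⁻¹ := by
      change (y * x' * y⁻¹)⁻¹ * (y * x * y⁻¹) = y * ((x' : F)⁻¹ * x) * y⁻¹
      group
    rw [h3]
    exact h1
  have h3 : π (cj hN y x') + π ((cj hN y x')⁻¹ * cj hN y x) = π (cj hN y x) := by
    rw [← D.add, mul_inv_cancel_left]
  rw [h2, add_zero] at h3
  exact h3.symm

omit hp in
theorem cj_mul (hN : N.Normal) (y : F) (x x' : N) :
    cj hN y (x * x') = cj hN y x * cj hN y x' := by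
  apply Subtype.ext
  change y * (x * x') * y⁻¹ = (y * x * y⁻¹) * (y * x' * y⁻¹)
  group

omit hp in
theorem cj_cj (hN : N.Normal) (y : F) (x : N) : cj hN y (cj hN y⁻¹ x) = x := by
  apply Subtype.ext
  change y * (y⁻¹ * x * y⁻¹⁻¹) * y⁻¹ = x
  group

/-- conjugation on `V` as a linear map -/
noncomputable def cl (hN : N.Normal) (hR : R.Normal) (D : Data p N R π σ) (y : F) :
    V →ₗ[ZMod p] V :=
  AddMonoidHom.toZModLinearMap p (AddMonoidHom.mk' (fun v => π (cj hN y (σ v))) (by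
    intro v v'
    have h1 : π (σ (v + v')) = π (σ v * σ v') := by
      rw [D.add, D.sec, D.sec, D.sec]
    rw [cj_wd hN hR D y h1, cj_mul, D.add]))

theorem cl_apply (hN : N.Normal) (hR : R.Normal) (D : Data p N R π σ) (y : F) (x : N) :
    cl hN hR D y (π x) = π (cj hN y x) := cj_wd hN hR D y (D.sec _)

theorem cl_cl (hN : N.Normal) (hR : R.Normal) (D : Data p N R π σ) (y : F) :
    (cl hN hR D y).comp (cl hN hR D y⁻¹) = LinearMap.id := by
  ext v
  have h1 : v = π (σ v) := (D.sec v).symm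
  rw [h1, LinearMap.comp_apply, cl_apply, cl_apply, cj_cj, LinearMap.id_apply]

theorem cl_cl' (hN : N.Normal) (hR : R.Normal) (D : Data p N R π σ) (y : F) :
    (cl hN hR D y⁻¹).comp (cl hN hR D y) = LinearMap.id := by
  have := cl_cl hN hR D y⁻¹
  rwa [inv_inv] at this

end Form

end E5M

open E5M Base

theorem specE5 (hLAD : SpecLAD) (hBF : SpecBF) (hHOM : SpecHOM) : SpecE5 := by
  classical
  intro k hk
  obtain ⟨B, k', n₀, hk', hL⟩ := hLAD k hk
  refine ⟨B, k', n₀, hk', ?_⟩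
  intro n hn p hp F _ N R hN hR hRN hm
  obtain ⟨m, hmn, hm⟩ := hm
  have hD : (⁅N, N⁆).Normal := Subgroup.commutator_normal N N
  have hDN : ⁅N, N⁆ ≤ N := comm_le
  have hQn : (PhiP p N ⊔ R).Normal := by
    have := phiP_normal p hN
    exact Subgroup.sup_normal _ _
  have hp1 : 1 < p := hp.out.one_lt
  -- the space
  have hKn : ((PhiP p N ⊔ R).subgroupOf N).Normal := hQn.subgroupOf N
  obtain ⟨V, _, _, π, hsurj, hadd, hker, hcard⟩ := exists_space (p := p)
    ((PhiP p N ⊔ R).subgroupOf N) hKn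
    (fun x y => Subgroup.mem_sup_left (Subgroup.mem_sup_left (comm_mem x.2 y.2)))
    (fun x => Subgroup.mem_sup_left (Subgroup.mem_sup_right
      (Subgroup.subset_closure ⟨x, x.2, rfl⟩)))
  obtain ⟨σ, hσ⟩ := hsurj.hasRightInverse
  have D : Data p N R π σ := ⟨hσ, hadd, hker⟩
  have hcard' : Nat.card V ∣ p ^ m := by
    rw [hcard, ← hm]
    change (PhiP p N ⊔ R).relIndex N ∣ _
    exact (Subgroup.relIndex_dvd_of_le_left N le_sup_right).trans
      (Subgroup.relIndex_dvd_index_of_normal R N)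
  have hVf : Finite V := by
    refine Nat.finite_of_card_ne_zero fun h => ?_
    rw [h] at hcard'
    exact (pow_pos hp.out.pos m).ne' (Nat.eq_zero_of_zero_dvd hcard')
  have hVm : Module.Finite (ZMod p) V := inferInstance
  have hcv := Module.natCard_eq_pow_finrank (K := ZMod p) (V := V)
  rw [Nat.card_zmod] at hcv
  have hVn : Module.finrank (ZMod p) V ≤ n := by
    refine le_trans ?_ hmn
    rw [hcv] at hcard'
    exact (Nat.pow_dvd_pow_iff_le_right hp1).1 hcard'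
  have hRD : R.relIndex ⁅N, N⁆ ∣ p ^ n :=
    ((Subgroup.relIndex_dvd_index_of_normal R ⁅N, N⁆).trans (by rw [hm])).trans
      (pow_dvd_pow p hmn)
  have hY := hHOM p F N ⁅N, N⁆ R n hRD
  obtain ⟨hYf, hYd⟩ := hY
  set B₁ := form hN hR hRN D with hB₁
  have hS : Module.finrank (ZMod p) (LinearMap.range B₁) ≤ n :=
    (LinearMap.finrank_range_le B₁).trans hYd
  have halt : ∀ β ∈ LinearMap.range B₁, ∀ x, β x x = 0 := by
    rintro _ ⟨lam, rfl⟩ v
    rw [← D.sec v, form_apply, commutatorElement_self, yy_one lam.2]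
  rcases hL n hn p V (LinearMap.range B₁) halt hS hVn with ⟨W, hWk, hW⟩ | ⟨U, hUB, hUinv, T, hTS,
    hTU, hTn⟩
  · -- first case
    left
    have b := Module.finBasis (ZMod p) W
    refine ⟨Module.finrank (ZMod p) W, fun i => (σ (b i : V) : F), hWk, fun i => (σ _).2, ?_⟩
    set h : Fin (Module.finrank (ZMod p) W) → F := fun i => (σ (b i : V) : F) with hh
    have hHN : gen h ≤ N := by
      rw [gen, Subgroup.closure_le]
      rintro _ ⟨i, rfl⟩
      exact (σ _).2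
    refine hBF p F N (gen h) R hN hR ⟨m, hm⟩ hRN hHN ?_
    set M : Subgroup F := ⁅gen h, gen h⁆ ⊔ ⁅⁅N, N⁆, N⁆ ⊔
      Subgroup.closure {x | ∃ d ∈ ⁅N, N⁆, x = d ^ p} ⊔ R with hM
    by_contra hcon
    obtain ⟨x, hxD, hxM⟩ := SetLike.not_le_iff_exists.1 hcon
    have hDNM : ⁅⁅N, N⁆, N⁆ ≤ M :=
      le_sup_right.trans (le_sup_left.trans (le_sup_left (b := R)))
    have hM1 : ∀ n' ∈ N, ∀ d ∈ ⁅N, N⁆, ⁅n', d⁆ ∈ M := by
      intro n' hn' d hd
      rw [← commutatorElement_inv]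
      exact inv_mem (hDNM (Subgroup.commutator_mem_commutator hd hn'))
    have hMn : (M.subgroupOf ⁅N, N⁆).Normal := by
      refine ⟨fun z hz y => ?_⟩
      rw [Subgroup.mem_subgroupOf] at hz ⊢
      have h1 : ((y * z * y⁻¹ : ↥(⁅N, N⁆)) : F) = ⁅(y : F), (z : F)⁆ * z := by
        push_cast
        rw [commutatorElement_def]
        group
      rw [h1]
      exact mul_mem (hM1 y (hDN y.2) z z.2) hz
    obtain ⟨f, hfadd, hfK, hfx⟩ := exists_functional (p := p) (M.subgroupOf ⁅N, N⁆) hMn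
      (fun y z => by
        rw [Subgroup.mem_subgroupOf]
        exact hM1 y (hDN y.2) z z.2)
      (fun y => by
        rw [Subgroup.mem_subgroupOf]
        exact Subgroup.mem_sup_left (Subgroup.mem_sup_right
          (Subgroup.subset_closure ⟨y, y.2, rfl⟩)))
      (x := ⟨x, hxD⟩) (by
        rw [Subgroup.mem_subgroupOf]
        exact hxM)
    -- the function on `F`
    let lam : F → ZMod p := fun y => if hy : y ∈ ⁅N, N⁆ then f ⟨y, hy⟩ else 0
    have hlam : ∀ y (hy : y ∈ ⁅N, N⁆), lam y = f ⟨y, hy⟩ := fun y hy => dif_pos hy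
    have hlam0 : ∀ y ∈ ⁅N, N⁆, y ∈ M → lam y = 0 := by
      intro y hy hyM
      rw [hlam y hy]
      exact hfK _ hyM
    have hladd : ∀ y ∈ ⁅N, N⁆, ∀ z ∈ ⁅N, N⁆, lam (y * z) = lam y + lam z := by
      intro y hy z hz
      rw [hlam y hy, hlam z hz, hlam _ (mul_mem hy hz)]
      exact hfadd ⟨y, hy⟩ ⟨z, hz⟩
    have hlY : lam ∈ YY p N ⁅N, N⁆ R := by
      refine ⟨fun y hy => dif_neg hy, hladd, fun n' hn' d hd => ?_, fun y hy hyR =>
        hlam0 y hy (Subgroup.mem_sup_right hyR)⟩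
      have h1 : n' * d * n'⁻¹ = ⁅n', d⁆ * d := by
        rw [commutatorElement_def]
        group
      have h2 : ⁅n', d⁆ ∈ ⁅N, N⁆ := comm_mem hn' (hDN hd)
      rw [h1, hladd _ h2 d hd, hlam0 _ h2 (hM1 n' hn' d hd), zero_add]
    have hB0 : B₁ ⟨lam, hlY⟩ = 0 := by
      refine hW _ ⟨_, rfl⟩ ?_
      have hb : ∀ i j, B₁ ⟨lam, hlY⟩ (b i : V) (b j : V) = 0 := by
        intro i j
        have h1 := form_apply hN hR hRN D ⟨lam, hlY⟩ (σ (b i : V)) (σ (b j : V))
        rw [D.sec, D.sec] at h1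
        rw [h1]
        have h2 : ⁅(σ (b i : V) : F), (σ (b j : V) : F)⁆ ∈ ⁅gen h, gen h⁆ :=
          Subgroup.commutator_mem_commutator (Subgroup.subset_closure ⟨i, rfl⟩)
            (Subgroup.subset_closure ⟨j, rfl⟩)
        exact hlam0 _ (comm_mem (σ _).2 (σ _).2)
          (Subgroup.mem_sup_left (Subgroup.mem_sup_left (Subgroup.mem_sup_left h2)))
      -- the form on `W`
      let βW : W →ₗ[ZMod p] W →ₗ[ZMod p] ZMod p :=
        (B₁ ⟨lam, hlY⟩).compl₁₂ W.subtype W.subtype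
      have hβW : βW = 0 := by
        refine b.ext fun i => b.ext fun j => ?_
        exact hb i j
      intro y hy z hz
      exact congrFun (congrArg DFunLike.coe (congrFun (congrArg DFunLike.coe hβW) ⟨y, hy⟩)) ⟨z, hz⟩
    have hcom : ∀ y ∈ N, ∀ z ∈ N, lam ⁅y, z⁆ = 0 := by
      intro y hy z hz
      have h1 := form_apply hN hR hRN D ⟨lam, hlY⟩ ⟨y, hy⟩ ⟨z, hz⟩
      rw [← hB₁, hB0] at h1
      exact h1.symm
    have hx0 : lam x = 0 := by
      have h1 : x ∈ Subgroup.closure {g | ∃ g₁ ∈ N, ∃ g₂ ∈ N, ⁅g₁, g₂⁆ = g} := by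
        rw [← Subgroup.commutator_def]
        exact hxD
      refine (yy_closure hlY ?_ x h1).2
      rintro _ ⟨y, hy, z, hz, rfl⟩
      exact ⟨comm_mem hy hz, hcom y hy z hz⟩
    apply hfx
    rw [← hlam x hxD]
    exact hx0
  · -- second case
    right
    let N' : Subgroup F :=
      { carrier := {x | ∃ hx : x ∈ N, π ⟨x, hx⟩ ∈ U}
        one_mem' := by
          refine ⟨one_mem N, ?_⟩
          have h1 : π (1 : N) = 0 := (D.ker 1).2 (one_mem _)
          change π (1 : N) ∈ U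
          rw [h1]
          exact U.zero_mem
        mul_mem' := by
          rintro x y ⟨hx, hx'⟩ ⟨hy, hy'⟩
          refine ⟨mul_mem hx hy, ?_⟩
          change π (⟨x, hx⟩ * ⟨y, hy⟩) ∈ U
          rw [D.add]
          exact U.add_mem hx' hy'
        inv_mem' := by
          rintro x ⟨hx, hx'⟩
          refine ⟨inv_mem hx, ?_⟩
          change π (⟨x, hx⟩ : N)⁻¹ ∈ U
          have h1 : π (1 : N) = 0 := (D.ker 1).2 (one_mem _)
          have h2 := D.add ⟨x, hx⟩ (⟨x, hx⟩ : N)⁻¹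
          rw [mul_inv_cancel, h1] at h2
          rw [← neg_eq_of_add_eq_zero_right h2.symm]
          exact U.neg_mem hx' }
    have hN'N : N' ≤ N := fun x hx => hx.1
    have hN'n : N'.Normal := by
      refine ⟨fun x hx y => ?_⟩
      obtain ⟨hx, hx'⟩ := hx
      refine ⟨hN.conj_mem x hx y, ?_⟩
      have h1 : π ⟨y * x * y⁻¹, hN.conj_mem x hx y⟩ = cl hN hR D y (π ⟨x, hx⟩) := by
        rw [cl_apply]
        rfl
      rw [h1]
      let g : V ≃ₗ[ZMod p] V :=
        LinearEquiv.ofLinearMap (cl hN hR D y) (cl hN hR D y⁻¹) (cl_cl hN hR D y) (cl_cl' hN hR D y)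
      refine hUinv g ?_ _ hx'
      rintro _ ⟨lam, rfl⟩
      refine ⟨⟨_, conj_mem_YY hN hR lam.2 y⟩, ?_⟩
      ext u v
      rw [← D.sec u, ← D.sec v, form_apply]
      change lam.1 (y * ⁅(σ u : F), (σ v : F)⁆ * y⁻¹) =
        B₁ lam (cl hN hR D y (π (σ u))) (cl hN hR D y (π (σ v)))
      rw [cl_apply, cl_apply, form_apply]
      have h9 : y * ⁅(σ u : F), (σ v : F)⁆ * y⁻¹ =
          ⁅((cj hN y (σ u) : N) : F), ((cj hN y (σ v) : N) : F)⁆ := by
        change y * ⁅(σ u : F), (σ v : F)⁆ * y⁻¹ = ⁅y * (σ u : F) * y⁻¹, y * (σ v : F) * y⁻¹⁆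
        simp only [commutatorElement_def]
        group
      rw [h9]
    have hRN' : R ≤ N' := by
      intro r hr
      refine ⟨hRN hr, ?_⟩
      rw [(D.ker ⟨r, hRN hr⟩).2 (Subgroup.mem_sup_right hr)]
      exact U.zero_mem
    refine ⟨N', hN'n, hRN', hN'N, ⟨Module.finrank (ZMod p) (V ⧸ U), hUB, ?_⟩, ?_⟩
    · -- the index
      let ψ : N →* Multiplicative (V ⧸ U) :=
        { toFun := fun x => Multiplicative.ofAdd (Submodule.Quotient.mk (π x))
          map_one' := by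
            rw [(D.ker 1).2 (one_mem _)]
            rfl
          map_mul' := by
            intro x y
            rw [D.add]
            rfl }
      have hker' : ψ.ker = N'.subgroupOf N := by
        ext x
        rw [MonoidHom.mem_ker, Subgroup.mem_subgroupOf]
        constructor
        · intro h1
          have h2 : (Submodule.Quotient.mk (π x) : V ⧸ U) = 0 := congrArg Multiplicative.toAdd h1
          rw [Submodule.Quotient.mk_eq_zero] at h2
          exact ⟨x.2, h2⟩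
        · rintro ⟨_, h1⟩
          have h2 : (Submodule.Quotient.mk (π x) : V ⧸ U) = 0 := by
            rw [Submodule.Quotient.mk_eq_zero]
            exact h1
          exact congrArg Multiplicative.ofAdd h2
      have hrange : ψ.range = ⊤ := by
        rw [MonoidHom.range_eq_top]
        intro v
        obtain ⟨u, hu⟩ := Submodule.Quotient.mk_surjective U (Multiplicative.toAdd v)
        refine ⟨σ u, ?_⟩
        change Multiplicative.ofAdd (Submodule.Quotient.mk (π (σ u))) = v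
        rw [D.sec, hu]
        rfl
      have h1 := Subgroup.index_ker ψ
      rw [hker', hrange, Subgroup.card_top] at h1
      change (N'.subgroupOf N).index = _
      rw [h1]
      have h2 := Module.natCard_eq_pow_finrank (K := ZMod p) (V := V ⧸ U)
      rw [Nat.card_zmod] at h2
      exact h2
    · -- the derived group
      have hdvd : (⁅N', N'⁆ ⊔ R).relIndex ⁅N, N⁆ ∣ p ^ n :=
        (Subgroup.relIndex_dvd_of_le_left ⁅N, N⁆ le_sup_right).trans hRD
      obtain ⟨j, -, hj⟩ := (Nat.dvd_prime_pow hp.out).1 hdvd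
      refine ⟨j, ?_, hj⟩
      refine hTn.trans (Nat.mul_le_mul_left k' ?_)
      obtain ⟨hf1, hf2⟩ := hHOM p F N ⁅N, N⁆ (⁅N', N'⁆ ⊔ R) j (by rw [hj])
      have hle : YY p N ⁅N, N⁆ (⁅N', N'⁆ ⊔ R) ≤ YY p N ⁅N, N⁆ R :=
        yy_mono le_rfl le_sup_right
      let B₂ := B₁.comp (Submodule.inclusion hle)
      have hTr : T ≤ LinearMap.range B₂ := by
        intro β hβ
        obtain ⟨lam, rfl⟩ := hTS hβ
        have hl : lam.1 ∈ YY p N ⁅N, N⁆ (⁅N', N'⁆ ⊔ R) := by
          refine ⟨lam.2.1, lam.2.2.1, lam.2.2.2.1, fun x hx hxN' => ?_⟩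
          rw [Subgroup.mem_sup_of_normal_right] at hxN'
          obtain ⟨c, hc, r, hr, rfl⟩ := hxN'
          have hcD : c ∈ ⁅N, N⁆ := Subgroup.commutator_mono hN'N hN'N hc
          have hrD : r ∈ ⁅N, N⁆ := by
            have := mul_mem (inv_mem hcD) hx
            rwa [inv_mul_cancel_left] at this
          rw [yy_mul lam.2 hcD hrD, yy_zero lam.2 hrD hr, add_zero]
          have h1 : c ∈ Subgroup.closure {g | ∃ g₁ ∈ N', ∃ g₂ ∈ N', ⁅g₁, g₂⁆ = g} := by
            rw [← Subgroup.commutator_def]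
            exact hc
          refine (yy_closure lam.2 ?_ c h1).2
          rintro _ ⟨y, ⟨hy, hy'⟩, z, ⟨hz, hz'⟩, rfl⟩
          refine ⟨comm_mem hy hz, ?_⟩
          have h2 := form_apply hN hR hRN D lam ⟨y, hy⟩ ⟨z, hz⟩
          rw [← h2]
          exact hTU _ hβ _ hy' _ hz'
        exact ⟨⟨lam.1, hl⟩, rfl⟩
      calc Module.finrank (ZMod p) T ≤ Module.finrank (ZMod p) (LinearMap.range B₂) :=
            Submodule.finrank_mono hTr
        _ ≤ Module.finrank (ZMod p) (YY p N ⁅N, N⁆ (⁅N', N'⁆ ⊔ R)) := LinearMap.finrank_range_le B₂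
        _ ≤ j := hf2

end Pool.Agent.Lib.MP4ccb00.E
end

section
/-!
# MP_4ccb00_al, part (e), module DEL: the number `δ`
-/
set_option autoImplicit false

namespace Pool.Agent.Lib.MP4ccb00.E

open scoped commutatorElement

namespace DELM

theorem exp_le {p a n : ℕ} [hp : Fact p.Prime] (h : p ^ a ∣ p ^ n) : a ≤ n :=
  (Nat.pow_dvd_pow_iff_le_right hp.out.one_lt).1 h

/-- Homomorphisms of `N` which vanish on `Q`. -/
theorem le_finrank {p : ℕ} [hp : Fact p.Prime] {F : Type} [Group F] {N Q : Subgroup F}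
    {δ k : ℕ} (hN : N.Normal) (hQ : Q.Normal) (hc : ⁅N, ⊤⁆ ≤ Q) (hpQ : PhiP p N ≤ Q)
    (hδ : Q.relIndex N = p ^ δ) (hk : DLE (YY p ⊤ N ⊥) k) : δ ≤ k := by
  classical
  obtain ⟨V, _, _, π, hsurj, hadd, hker, hcard⟩ := E5M.exists_space (p := p) (G := N)
    (Q.subgroupOf N) inferInstance
    (fun x y => hc (Subgroup.commutator_mem_commutator x.2 (Subgroup.mem_top (y : F))))
    (fun x => hpQ (Subgroup.mem_sup_right (Subgroup.subset_closure ⟨x, x.2, rfl⟩)))
  have hcard' : Nat.card V = p ^ δ := by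
    rw [hcard]
    exact hδ
  have hpos : 0 < Nat.card V := by
    rw [hcard']
    exact pow_pos hp.out.pos _
  have hfin : Finite V := (Nat.card_pos_iff.1 hpos).2
  have hfinr : Module.finrank (ZMod p) V = δ := by
    have h1 := Module.natCard_eq_pow_finrank (K := ZMod p) (V := V)
    rw [Nat.card_zmod, hcard'] at h1
    exact (Nat.pow_right_injective hp.out.two_le h1).symm
  -- the map from the dual space
  let Θ : Module.Dual (ZMod p) V →ₗ[ZMod p] (F → ZMod p) :=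
    { toFun := fun ℓ x => if h : x ∈ N then ℓ (π ⟨x, h⟩) else 0
      map_add' := by
        intro ℓ ℓ'
        funext x
        by_cases h : x ∈ N
        · simp [h]
        · simp [h]
      map_smul' := by
        intro c ℓ
        funext x
        by_cases h : x ∈ N
        · simp [h]
        · simp [h] }
  have hΘ : ∀ (ℓ : Module.Dual (ZMod p) V) (x : F) (h : x ∈ N), Θ ℓ x = ℓ (π ⟨x, h⟩) := by
    intro ℓ x h
    change (if h : x ∈ N then ℓ (π ⟨x, h⟩) else 0) = _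
    rw [dif_pos h]
  have hmem : ∀ ℓ, Θ ℓ ∈ YY p ⊤ N ⊥ := by
    intro ℓ
    refine ⟨?_, ?_, ?_, ?_⟩
    · intro x hx
      change (if h : x ∈ N then ℓ (π ⟨x, h⟩) else 0) = _
      rw [dif_neg hx]
    · intro x hx y hy
      rw [hΘ ℓ x hx, hΘ ℓ y hy, hΘ ℓ (x * y) (mul_mem hx hy), ← map_add, ← hadd]
      rfl
    · intro g _ x hx
      rw [hΘ ℓ x hx, hΘ ℓ (g * x * g⁻¹) (hN.conj_mem x hx g)]
      have h1 : (⟨g * x * g⁻¹, hN.conj_mem x hx g⟩ : N) =
          (⟨⁅g, x⁆, by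
            have := mul_mem (hN.conj_mem x hx g) (inv_mem hx)
            simpa [commutatorElement_def] using this⟩ : N) * ⟨x, hx⟩ := by
        apply Subtype.ext
        change g * x * g⁻¹ = ⁅g, x⁆ * x
        rw [commutatorElement_def]
        group
      rw [h1, hadd, (hker _).2, zero_add]
      rw [Subgroup.mem_subgroupOf]
      change ⁅g, x⁆ ∈ Q
      rw [← commutatorElement_inv]
      exact inv_mem (hc (Subgroup.commutator_mem_commutator hx (Subgroup.mem_top g)))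
    · intro x hx hx1
      rw [Subgroup.mem_bot] at hx1
      subst hx1
      rw [hΘ ℓ 1 hx, (hker _).2, map_zero]
      exact one_mem _
  let Θ' : Module.Dual (ZMod p) V →ₗ[ZMod p] YY p ⊤ N ⊥ := Θ.codRestrict _ hmem
  have hinj : Function.Injective Θ' := by
    rw [← LinearMap.ker_eq_bot, LinearMap.ker_eq_bot']
    intro ℓ hℓ
    ext v
    obtain ⟨x, rfl⟩ := hsurj v
    have h1 : Θ ℓ x = 0 := by
      have h2 : Θ ℓ = 0 := congrArg (fun z : YY p ⊤ N ⊥ => (z : F → ZMod p)) hℓ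
      rw [h2]
      rfl
    rw [hΘ ℓ x x.2] at h1
    exact h1
  have := hk.1
  have h3 := LinearMap.finrank_le_finrank_of_injective hinj
  rw [Subspace.dual_finrank_eq, hfinr] at h3
  exact h3.trans hk.2

end DELM

open DELM

theorem specDEL (hE3 : SpecE3) : SpecDEL := by
  intro p hp F _ d K δ f N R hf hd hN hR hRN hRP hK hδ
  have hPn : (PhiP p N).Normal := E5M.phiP_normal p hN
  have hP : (PhiP p (⊤ : Subgroup F)).Normal := E5M.phiP_normal p inferInstance
  have hCn : (⁅N, (⊤ : Subgroup F)⁆).Normal := Subgroup.commutator_normal N ⊤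
  have hQ1 : (PhiP p N ⊔ R).Normal := Subgroup.sup_normal _ _
  have hQ : (⁅N, (⊤ : Subgroup F)⁆ ⊔ (PhiP p N ⊔ R)).Normal := Subgroup.sup_normal _ _
  constructor
  · have hQP : ⁅N, (⊤ : Subgroup F)⁆ ⊔ (PhiP p N ⊔ R) ≤ PhiP p ⊤ := by
      refine sup_le ?_ (sup_le ?_ hRP)
      · exact (Subgroup.commutator_mono le_top le_top).trans le_sup_left
      · refine sup_le_sup (Subgroup.commutator_mono le_top le_top) (Subgroup.closure_mono ?_)
        rintro x ⟨y, -, rfl⟩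
        exact ⟨y, Subgroup.mem_top y, rfl⟩
    have h1 : (PhiP p (⊤ : Subgroup F)).relIndex N ∣ p ^ δ := by
      rw [← hδ]
      exact Subgroup.relIndex_dvd_of_le_left N hQP
    have h2 := Subgroup.relIndex_mul_index (le_sup_right : PhiP p (⊤ : Subgroup F) ≤ N ⊔ PhiP p ⊤)
    rw [Subgroup.relIndex_sup_right, hd] at h2
    have h3 : (N ⊔ PhiP p (⊤ : Subgroup F)).index ∣ p ^ K := by
      rw [← hK]
      exact Subgroup.index_dvd_of_le le_sup_left
    apply exp_le (p := p)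
    rw [← h2, pow_add]
    exact mul_dvd_mul h1 h3
  · exact le_finrank hN hQ le_sup_left (le_sup_left.trans le_sup_right) hδ (hE3 p F d K f N hf hN hK)

end Pool.Agent.Lib.MP4ccb00.E
end

section
/-!
# MP_4ccb00_al, part (e), module DIM: dimensions
-/
set_option autoImplicit false

namespace Pool.Agent.Lib.MP4ccb00.E

open scoped commutatorElement

namespace DIMM

/-- the index of `K` in the product of a subgroup and the normal subgroup `K` -/
theorem relIndex_sup' {F : Type} [Group F] {K : Subgroup F} (hK : K.Normal) (H : Subgroup F) :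
    K.relIndex (H ⊔ K) = K.relIndex H := Subgroup.relIndex_sup_right H K

/-- `p^a` divides `p^b * x`-type facts -/
theorem exp_le {p a n : ℕ} [hp : Fact p.Prime] (h : p ^ a ∣ p ^ n) : a ≤ n :=
  (Nat.pow_dvd_pow_iff_le_right hp.out.one_lt).1 h

end DIMM

open DIMM

theorem specDIM : SpecDIM := by
  intro p hp F _ d n K c v j N R hd hR hN hRN hK hc hv hj
  obtain ⟨hRn, hRP, hRi⟩ := hR
  have hCn : (⁅N, N⁆).Normal := Subgroup.commutator_normal N N
  have hCR : (⁅N, N⁆ ⊔ R).Normal := Subgroup.sup_normal _ _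
  have hCN : ⁅N, N⁆ ≤ N := Subgroup.commutator_le_left N N
  have h1 : R.relIndex (⁅N, N⁆ ⊔ R) = p ^ c := by rw [relIndex_sup' hRn, hc]
  constructor
  · have h2 : ⁅N, N⁆ ⊔ R ≤ N := sup_le hCN hRN
    have h3 : p ^ v ∣ (⁅N, N⁆ ⊔ R).relIndex N := by
      rw [← hv]
      exact Subgroup.relIndex_dvd_of_le_left N (sup_le_sup_right le_sup_left R)
    have h4 := Subgroup.relIndex_mul_index (le_sup_right : R ≤ ⁅N, N⁆ ⊔ R)
    have h5 := Subgroup.relIndex_mul_index h2
    rw [h1, hRi] at h4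
    rw [hK] at h5
    apply exp_le (p := p)
    rw [← h4, ← h5]
    have h6 : p ^ (K + v + c) = p ^ c * (p ^ v * p ^ K) := by ring
    rw [h6]
    exact mul_dvd_mul_left _ (mul_dvd_mul_right h3 _)
  · have h2 : ⁅N, N⁆ ⊔ R ≤ ⁅(⊤ : Subgroup F), ⊤⁆ ⊔ R :=
      sup_le_sup_right (Subgroup.commutator_mono le_top le_top) R
    have h3 : ⁅(⊤ : Subgroup F), ⊤⁆ ⊔ R ≤ PhiP p ⊤ := sup_le le_sup_left hRP
    have h4 := Subgroup.relIndex_mul_index (le_sup_right : R ≤ ⁅N, N⁆ ⊔ R)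
    have h5 := Subgroup.relIndex_mul_index h2
    have h6 := Subgroup.relIndex_mul_index h3
    have h7 : (⁅N, N⁆ ⊔ R).relIndex (⁅(⊤ : Subgroup F), ⊤⁆ ⊔ R) = p ^ j := by
      have h8 : ⁅(⊤ : Subgroup F), ⊤⁆ ⊔ R = ⁅(⊤ : Subgroup F), ⊤⁆ ⊔ (⁅N, N⁆ ⊔ R) := by
        rw [← sup_assoc, sup_eq_left.2 (Subgroup.commutator_mono le_top le_top)]
      rw [h8, relIndex_sup' hCR, hj]
    rw [h1, hRi] at h4
    rw [h7] at h5
    rw [hd] at h6
    apply exp_le (p := p)
    rw [← h4, ← h5, ← h6]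
    have h9 : p ^ (c + j + d) = p ^ c * (p ^ j * (1 * p ^ d)) := by ring
    rw [h9]
    exact mul_dvd_mul_left _ (mul_dvd_mul_left _ (mul_dvd_mul_right (one_dvd _) _))

end Pool.Agent.Lib.MP4ccb00.E
end

section
/-!
# MP_4ccb00_al, part (e), module LAM: the homomorphism `lam (k r) = phi r` on the derived group
-/
namespace Pool.Agent.Lib.MP4ccb00.E

open scoped commutatorElement

namespace LAMM

/-- the kernel of `φ`, as a normal subgroup -/
def kerS {p : ℕ} {F : Type} [Group F] {R H : Subgroup F} (φ : YY p ⊤ R H) : Subgroup F where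
  carrier := {x | x ∈ R ∧ φ.1 x = 0}
  one_mem' := ⟨one_mem R, Base.yy_one φ.2⟩
  mul_mem' := fun {x y} hx hy =>
    ⟨mul_mem hx.1 hy.1, by rw [Base.yy_mul φ.2 hx.1 hy.1, hx.2, hy.2, add_zero]⟩
  inv_mem' := fun {x} hx => ⟨inv_mem hx.1, by rw [Base.yy_inv φ.2 hx.1, hx.2, neg_zero]⟩

theorem kerS_normal {p : ℕ} {F : Type} [Group F] {R H : Subgroup F} (hR : R.Normal)
    (φ : YY p ⊤ R H) : (kerS φ).Normal :=
  ⟨fun x hx g => ⟨hR.conj_mem x hx.1 g, by
    rw [Base.yy_conj φ.2 (Subgroup.mem_top g) hx.1, hx.2]⟩⟩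

end LAMM

theorem specLAM : SpecLAM := by
  intro p hp F _ N H R hN hR hRN hHN hD
  classical
  have hdec : ∀ x ∈ ⁅N, N⁆, ∃ k ∈ ⁅H, H⁆, k⁻¹ * x ∈ R := by
    intro d hd
    obtain ⟨k, hk, r, hr, hkr⟩ := Subgroup.mem_sup_of_normal_right.1 (hD hd)
    refine ⟨k, hk, ?_⟩
    rw [← hkr]
    have : k⁻¹ * (k * r) = r := by group
    rw [this]
    exact hr
  choose! κ hκ hκ2 using hdec
  have hKH : ⁅H, H⁆ ≤ H := Subgroup.commutator_le_self H
  let Λ : YY p ⊤ R H →ₗ[ZMod p] (F → ZMod p) :=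
    { toFun := fun φ x => if x ∈ ⁅N, N⁆ then φ.1 ((κ x)⁻¹ * x) else 0
      map_add' := fun φ ψ => by
        funext x
        by_cases hx : x ∈ ⁅N, N⁆
        · simp [hx]
        · simp [hx]
      map_smul' := fun c φ => by
        funext x
        by_cases hx : x ∈ ⁅N, N⁆
        · simp [hx]
        · simp [hx] }
  have hval : ∀ φ : YY p ⊤ R H, ∀ k ∈ ⁅H, H⁆, ∀ r ∈ R, k * r ∈ ⁅N, N⁆ →
      Λ φ (k * r) = φ.1 r := by
    intro φ k hk r hr hx
    change (if k * r ∈ ⁅N, N⁆ then φ.1 ((κ (k * r))⁻¹ * (k * r)) else 0) = φ.1 r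
    rw [if_pos hx]
    have hk' := hκ _ hx
    have hr' := hκ2 _ hx
    set k' := κ (k * r)
    have h1 : k'⁻¹ * (k * r) = (k'⁻¹ * k) * r := by group
    have h2 : k'⁻¹ * k ∈ R := by
      have : k'⁻¹ * k = (k'⁻¹ * (k * r)) * r⁻¹ := by group
      rw [this]
      exact mul_mem hr' (inv_mem hr)
    have h3 : k'⁻¹ * k ∈ H := mul_mem (inv_mem (hKH hk')) (hKH hk)
    rw [h1, Base.yy_mul φ.2 h2 hr, Base.yy_zero φ.2 h2 h3, zero_add]
  have hrep : ∀ x ∈ ⁅N, N⁆, ∃ k ∈ ⁅H, H⁆, ∃ r ∈ R, x = k * r := by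
    intro x hx
    exact ⟨κ x, hκ x hx, _, hκ2 x hx, by group⟩
  refine ⟨Λ, ?_⟩
  intro φ
  have hadd : ∀ x ∈ ⁅N, N⁆, ∀ y ∈ ⁅N, N⁆, Λ φ (x * y) = Λ φ x + Λ φ y := by
    intro x hx y hy
    obtain ⟨k, hk, r, hr, rfl⟩ := hrep x hx
    obtain ⟨l, hl, s, hs, rfl⟩ := hrep y hy
    have h1 : k * r * (l * s) = (k * l) * ((l⁻¹ * r * l⁻¹⁻¹) * s) := by group
    have h2 : l⁻¹ * r * l⁻¹⁻¹ ∈ R := hR.conj_mem r hr _
    have h3 : k * l * ((l⁻¹ * r * l⁻¹⁻¹) * s) ∈ ⁅N, N⁆ := by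
      rw [← h1]
      exact mul_mem hx hy
    rw [h1, hval φ _ (mul_mem hk hl) _ (mul_mem h2 hs) h3, hval φ k hk r hr hx,
      hval φ l hl s hs hy, Base.yy_mul φ.2 h2 hs, Base.yy_conj φ.2 (Subgroup.mem_top _) hr]
  have hres : ∀ x ∈ ⁅N, N⁆, x ∈ R → Λ φ x = φ.1 x := by
    intro x hx hxR
    have := hval φ 1 (one_mem _) x hxR (by rwa [one_mul])
    rwa [one_mul] at this
  refine ⟨⟨?_, hadd, ?_, ?_⟩, hres⟩
  · intro x hx
    change (if x ∈ ⁅N, N⁆ then φ.1 ((κ x)⁻¹ * x) else 0) = 0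
    rw [if_neg hx]
  · intro n hn d hd
    -- the kernel of `φ`
    have hR'n := LAMM.kerS_normal hR φ
    obtain ⟨-, h2, -⟩ := specBST p F N H R (LAMM.kerS φ) hR hR'n (fun x hx => hx.1) hRN hHN
      (by
        rw [Subgroup.commutator_le]
        intro r hr n' _
        have h5 : n' * r⁻¹ * n'⁻¹ ∈ R := hR.conj_mem _ (inv_mem hr) n'
        have h6 : ⁅r, n'⁆ = r * (n' * r⁻¹ * n'⁻¹) := by
          rw [commutatorElement_def]
          group
        refine ⟨?_, ?_⟩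
        · rw [h6]
          exact mul_mem hr h5
        · rw [h6, Base.yy_mul φ.2 hr h5, Base.yy_conj φ.2 (Subgroup.mem_top _) (inv_mem hr),
            Base.yy_inv φ.2 hr, add_neg_cancel])
      (fun r hr => ⟨pow_mem hr p, Base.yy_pow_p φ.2 hr⟩) hD
    have h3 : ⁅d, n⁆ ∈ ⁅H, H⁆ ⊔ LAMM.kerS φ :=
      h2 (Subgroup.commutator_mem_commutator hd hn)
    have h3' : ⁅d, n⁆ ∈ ⁅N, N⁆ := by
      have h7 : n * d⁻¹ * n⁻¹ ∈ ⁅N, N⁆ :=
        (inferInstance : (⁅N, N⁆ : Subgroup F).Normal).conj_mem _ (inv_mem hd) n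
      have h8 : ⁅d, n⁆ = d * (n * d⁻¹ * n⁻¹) := by
        rw [commutatorElement_def]
        group
      rw [h8]
      exact mul_mem hd h7
    obtain ⟨k, hk, r, hr, hkr⟩ := (Subgroup.mem_sup_of_normal_right (ht := hR'n)).1 h3
    have h4 : Λ φ ⁅d, n⁆ = 0 := by
      rw [← hkr, hval φ k hk r hr.1 (by rw [hkr]; exact h3'), hr.2]
    have h9 : n * d * n⁻¹ = (⁅d, n⁆)⁻¹ * d := by
      rw [commutatorElement_def]
      group
    have hinv : Λ φ (⁅d, n⁆)⁻¹ = 0 := by
      have h10 := hadd _ (inv_mem h3') _ h3'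
      rw [inv_mul_cancel, h4, add_zero] at h10
      rw [← h10]
      have h11 := hadd 1 (one_mem _) 1 (one_mem _)
      simpa using h11
    rw [h9, hadd _ (inv_mem h3') _ hd, hinv, zero_add]
  · intro x hx hx1
    rw [Subgroup.mem_bot] at hx1
    subst hx1
    have h11 := hadd 1 (one_mem _) 1 (one_mem _)
    simpa using h11

end Pool.Agent.Lib.MP4ccb00.E
end

section
/-!
# MP_4ccb00_al, part (e), module E1: the number of central steps
-/
namespace Pool.Agent.Lib.MP4ccb00.E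

open scoped commutatorElement

namespace E1M

/-- finitely many elements which determine the homomorphisms on `D` which vanish on `R` -/
theorem exists_gens (p : ℕ) [Fact p.Prime] (F : Type) [Group F] (D R : Subgroup F) (m : ℕ)
    (hdvd : R.relIndex D ∣ p ^ m) : ∃ (j : ℕ) (u : Fin j → F), j ≤ m ∧ (∀ i, u i ∈ D) ∧
      ∀ φ ∈ YY p ⊥ D R, (∀ i, φ (u i) = 0) → ∀ x ∈ D, φ x = 0 := by
  have hprime : p.Prime := Fact.out
  obtain ⟨j, hj, hidx⟩ := (Nat.dvd_prime_pow hprime).1 hdvd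
  obtain ⟨g, hg⟩ := specGEN p (↥D) (R.subgroupOf D) j hidx
  refine ⟨j, fun i => g i, hj, fun i => (g i).2, ?_⟩
  intro φ hφY hφ'
  let S : Subgroup D :=
    { carrier := {x | φ x = 0}
      one_mem' := Base.yy_one hφY
      mul_mem' := fun {x y} hx hy => by
        have hx' : φ x = 0 := hx
        have hy' : φ y = 0 := hy
        change φ ((x : F) * y) = 0
        rw [Base.yy_mul hφY x.2 y.2, hx', hy', add_zero]
      inv_mem' := fun {x} hx => by
        have hx' : φ x = 0 := hx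
        change φ ((x : F)⁻¹) = 0
        rw [Base.yy_inv hφY x.2, hx', neg_zero] }
  have hS : S = ⊤ := by
    rw [eq_top_iff, ← hg, sup_le_iff]
    constructor
    · unfold gen
      rw [Subgroup.closure_le]
      rintro _ ⟨i, rfl⟩
      exact hφ' i
    · intro x hx
      exact Base.yy_zero hφY x.2 (Subgroup.mem_subgroupOf.1 hx)
  intro x hx
  have : (⟨x, hx⟩ : D) ∈ S := by
    rw [hS]
    trivial
  exact this

/-- coordinates indexed by a product -/
theorem dle_fun2 (p : ℕ) [Fact p.Prime] (k j : ℕ) :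
    DLE (⊤ : Submodule (ZMod p) (Fin k → Fin j → ZMod p)) (k * j) := by
  refine ⟨inferInstance, ?_⟩
  rw [finrank_top, Module.finrank_pi_fintype]
  simp

section Form

variable {p : ℕ} [Fact p.Prime] {F : Type} [Group F] {N R : Subgroup F} {l : F → ZMod p}

theorem comm_mem_D {x y : F} (hx : x ∈ N) (hy : y ∈ N) : ⁅x, y⁆ ∈ ⁅N, N⁆ :=
  Subgroup.commutator_mem_commutator hx hy

theorem conj_mem_D (hN : N.Normal) {x : F} (g : F) (hx : x ∈ ⁅N, N⁆) : g * x * g⁻¹ ∈ ⁅N, N⁆ :=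
  (inferInstance : (⁅N, N⁆ : Subgroup F).Normal).conj_mem x hx g

theorem add_left (hN : N.Normal) (hl : l ∈ YY p N ⁅N, N⁆ ⊥) {x x' y : F} (hx : x ∈ N)
    (hx' : x' ∈ N) (hy : y ∈ N) : l ⁅x * x', y⁆ = l ⁅x, y⁆ + l ⁅x', y⁆ := by
  have h1 : ⁅x * x', y⁆ = (x * ⁅x', y⁆ * x⁻¹) * ⁅x, y⁆ := by
    simp only [commutatorElement_def]
    group
  rw [h1, Base.yy_mul hl (conj_mem_D hN x (comm_mem_D hx' hy)) (comm_mem_D hx hy),
    Base.yy_conj hl hx (comm_mem_D hx' hy), add_comm]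

theorem add_right (hN : N.Normal) (hl : l ∈ YY p N ⁅N, N⁆ ⊥) {x y y' : F} (hx : x ∈ N)
    (hy : y ∈ N) (hy' : y' ∈ N) : l ⁅x, y * y'⁆ = l ⁅x, y⁆ + l ⁅x, y'⁆ := by
  have h1 : ⁅x, y * y'⁆ = ⁅x, y⁆ * (y * ⁅x, y'⁆ * y⁻¹) := by
    simp only [commutatorElement_def]
    group
  rw [h1, Base.yy_mul hl (comm_mem_D hx hy) (conj_mem_D hN y (comm_mem_D hx hy')),
    Base.yy_conj hl hy (comm_mem_D hx hy')]

/-- the elements orthogonal to everything -/
def rad (hN : N.Normal) (hl : l ∈ YY p N ⁅N, N⁆ ⊥) : Subgroup F where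
  carrier := {x | x ∈ N ∧ ∀ y ∈ N, l ⁅x, y⁆ = 0}
  one_mem' := ⟨one_mem N, fun y _ => by
    rw [commutatorElement_one_left]
    exact Base.yy_one hl⟩
  mul_mem' := fun {x x'} hx hx' => ⟨mul_mem hx.1 hx'.1, fun y hy => by
    rw [add_left hN hl hx.1 hx'.1 hy, hx.2 y hy, hx'.2 y hy, add_zero]⟩
  inv_mem' := fun {x} hx => ⟨inv_mem hx.1, fun y hy => by
    have h1 := add_left hN hl hx.1 (inv_mem hx.1) hy
    rw [mul_inv_cancel, commutatorElement_one_left, Base.yy_one hl, hx.2 y hy, zero_add] at h1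
    exact h1.symm⟩

theorem rad_pow (hN : N.Normal) (hl : l ∈ YY p N ⁅N, N⁆ ⊥) {x : F} (hx : x ∈ N) :
    x ^ p ∈ rad hN hl := by
  refine ⟨pow_mem hx p, fun y hy => ?_⟩
  have h1 : ∀ i : ℕ, l ⁅x ^ i, y⁆ = i * l ⁅x, y⁆ := by
    intro i
    induction i with
    | zero =>
      rw [pow_zero, commutatorElement_one_left, Base.yy_one hl]
      simp
    | succ i ih =>
      rw [pow_succ, add_left hN hl (pow_mem hx i) hx hy, ih]
      push_cast
      ring
  rw [h1 p, ZMod.natCast_self, zero_mul]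

theorem rad_D (hN : N.Normal) (hl : l ∈ YY p N ⁅N, N⁆ ⊥) {x : F} (hx : x ∈ ⁅N, N⁆) :
    x ∈ rad hN hl := by
  refine ⟨Subgroup.commutator_le_self N hx, fun y hy => ?_⟩
  have h1 : ⁅x, y⁆ = x * (y * x⁻¹ * y⁻¹) := by
    rw [commutatorElement_def]
    group
  rw [h1, Base.yy_mul hl hx (conj_mem_D hN y (inv_mem hx)), Base.yy_conj hl hy (inv_mem hx),
    Base.yy_inv hl hx, add_neg_cancel]

theorem rad_PhiP (hN : N.Normal) (hl : l ∈ YY p N ⁅N, N⁆ ⊥) : PhiP p N ≤ rad hN hl := by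
  unfold PhiP
  rw [sup_le_iff, Subgroup.closure_le]
  refine ⟨fun x hx => rad_D hN hl hx, ?_⟩
  rintro _ ⟨y, hy, rfl⟩
  exact rad_pow hN hl hy

theorem zero_of_comm (hl : l ∈ YY p N ⁅N, N⁆ ⊥) (h : ∀ x ∈ N, ∀ y ∈ N, l ⁅x, y⁆ = 0) :
    ∀ x ∈ ⁅N, N⁆, l x = 0 := by
  intro x hx
  rw [Subgroup.commutator_def] at hx
  refine (Base.yy_closure hl (S := {g | ∃ g₁ ∈ N, ∃ g₂ ∈ N, ⁅g₁, g₂⁆ = g}) ?_ x hx).2
  rintro _ ⟨a, ha, b, hb, rfl⟩
  exact ⟨comm_mem_D ha hb, h a ha b hb⟩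

end Form

end E1M

theorem specE1 (hINV : SpecINV) : SpecE1 := by
  intro p hp F _ d K m s v δ f N R h hf hN hR hRN hNK hRm hh hD hv hδ
  classical
  have hprime : p.Prime := Fact.out
  have hHN : gen h ≤ N := by
    unfold gen
    rw [Subgroup.closure_le]
    rintro _ ⟨j, rfl⟩
    exact hh j
  have hE2 := specE2 p F d K m f N R hf hN hR hRN hNK hRm
  obtain ⟨g, hg⟩ := specGEN p F N K hNK
  obtain ⟨Λ, hΛ⟩ := specLAM p F N (gen h) R hN hR hRN hHN hD
  -- generators of the derived group modulo `R`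
  have hdvdD : R.relIndex ⁅N, N⁆ ∣ p ^ m := by
    rw [← hRm]
    exact Subgroup.relIndex_dvd_index_of_normal R _
  obtain ⟨j, u, hj, hu, hu0⟩ := E1M.exists_gens p F ⁅N, N⁆ R m hdvdD
  -- step C and B: the second map
  let Ψ2 : YY p ⊤ R (gen h) →ₗ[ZMod p] (Fin K → Fin j → ZMod p) :=
    { toFun := fun φ a b => Λ φ (g a * u b * (g a)⁻¹) - Λ φ (u b)
      map_add' := fun φ ψ => by
        funext a b
        simp only [map_add, Pi.add_apply]
        ring
      map_smul' := fun c φ => by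
        funext a b
        simp only [map_smul, Pi.smul_apply, smul_eq_mul, RingHom.id_apply]
        ring }
  -- invariance
  have hinv : ∀ φ : LinearMap.ker Ψ2, ∀ y, ∀ x ∈ ⁅N, N⁆, Λ φ.1 (y * x * y⁻¹) = Λ φ.1 x := by
    intro φ
    have hl := (hΛ φ.1).1
    let S : Subgroup F :=
      { carrier := {y | ∀ x ∈ ⁅N, N⁆, Λ φ.1 (y * x * y⁻¹) = Λ φ.1 x}
        one_mem' := fun x _ => by simp
        mul_mem' := fun {y z} hy hz x hx => by
          have h1 : y * z * x * (y * z)⁻¹ = y * (z * x * z⁻¹) * y⁻¹ := by group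
          rw [h1, hy _ (E1M.conj_mem_D hN z hx), hz x hx]
        inv_mem' := fun {y} hy x hx => by
          have h1 := hy _ (E1M.conj_mem_D hN y⁻¹ hx)
          rw [← h1]
          congr 1
          group }
    have hS : S = ⊤ := by
      rw [eq_top_iff, ← hg, sup_le_iff]
      constructor
      · unfold gen
        rw [Subgroup.closure_le]
        rintro _ ⟨a, rfl⟩
        -- the difference vanishes on `R`
        have hμ : (fun x => Λ φ.1 (g a * x * (g a)⁻¹) - Λ φ.1 x) ∈ YY p ⊥ ⁅N, N⁆ R := by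
          refine ⟨?_, ?_, ?_, ?_⟩
          · intro x hx
            have hx2 : g a * x * (g a)⁻¹ ∉ ⁅N, N⁆ := by
              intro h3
              apply hx
              have h4 := E1M.conj_mem_D hN (g a)⁻¹ h3
              have h5 : (g a)⁻¹ * (g a * x * (g a)⁻¹) * (g a)⁻¹⁻¹ = x := by group
              rwa [h5] at h4
            simp only [Base.yy_out hl hx, Base.yy_out hl hx2, sub_zero]
          · intro x hx y hy
            have h3 : g a * (x * y) * (g a)⁻¹ = (g a * x * (g a)⁻¹) * (g a * y * (g a)⁻¹) := by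
              group
            simp only [h3, Base.yy_mul hl hx hy,
              Base.yy_mul hl (E1M.conj_mem_D hN (g a) hx) (E1M.conj_mem_D hN (g a) hy)]
            ring
          · intro y hy x hx
            rw [Subgroup.mem_bot] at hy
            subst hy
            simp
          · intro x hx hxR
            have h3 : g a * x * (g a)⁻¹ ∈ R := hR.conj_mem x hxR _
            simp only
            rw [(hΛ φ.1).2 x hx hxR, (hΛ φ.1).2 _ (E1M.conj_mem_D hN (g a) hx) h3,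
              Base.yy_conj φ.1.2 (Subgroup.mem_top _) hxR, sub_self]
        have hμ0 := hu0 _ hμ (fun b => by
          have := congrFun (congrFun (LinearMap.mem_ker.1 φ.2) a) b
          exact this)
        intro x hx
        exact sub_eq_zero.1 (hμ0 x hx)
      · intro n hn x hx
        exact Base.yy_conj hl hn hx
    intro y x hx
    have : y ∈ S := by
      rw [hS]
      trivial
    exact this x hx
  -- the form
  let B : LinearMap.ker Ψ2 →ₗ[ZMod p] (F → F → ZMod p) :=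
    { toFun := fun φ x y => if x ∈ N ∧ y ∈ N then Λ φ.1 ⁅x, y⁆ else 0
      map_add' := fun φ ψ => by
        funext x y
        by_cases hxy : x ∈ N ∧ y ∈ N
        · simp [hxy]
        · simp [hxy]
      map_smul' := fun c φ => by
        funext x y
        by_cases hxy : x ∈ N ∧ y ∈ N
        · simp [hxy]
        · simp [hxy] }
  have hBval : ∀ φ x y, x ∈ N → y ∈ N → B φ x y = Λ φ.1 ⁅x, y⁆ := by
    intro φ x y hx hy
    exact if_pos ⟨hx, hy⟩
  have hB : ∀ φ, B φ ∈ AltInv p N (PhiP p N ⊔ R) := by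
    intro φ
    have hl := (hΛ φ.1).1
    refine ⟨?_, ?_, ?_, ?_, ?_, ?_⟩
    · intro x y hxy
      have h1 : ¬ (x ∈ N ∧ y ∈ N) := by tauto
      exact if_neg h1
    · intro x hx x' hx' y hy
      rw [hBval φ _ _ (mul_mem hx hx') hy, hBval φ _ _ hx hy, hBval φ _ _ hx' hy]
      exact E1M.add_left hN hl hx hx' hy
    · intro x hx y hy y' hy'
      rw [hBval φ _ _ hx (mul_mem hy hy'), hBval φ _ _ hx hy, hBval φ _ _ hx hy']
      exact E1M.add_right hN hl hx hy hy'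
    · intro x hx
      rw [hBval φ _ _ hx hx, commutatorElement_self]
      exact Base.yy_one hl
    · intro x hx y hy hxR
      have hle : PhiP p N ⊔ R ≤ E1M.rad hN hl := by
        rw [sup_le_iff]
        refine ⟨E1M.rad_PhiP hN hl, ?_⟩
        intro r hr
        refine ⟨hRN hr, fun y hy => ?_⟩
        have h5 : y * r⁻¹ * y⁻¹ ∈ R := hR.conj_mem _ (inv_mem hr) y
        have h6 : ⁅r, y⁆ = r * (y * r⁻¹ * y⁻¹) := by
          rw [commutatorElement_def]
          group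
        have h7 : ⁅r, y⁆ ∈ R := by
          rw [h6]
          exact mul_mem hr h5
        rw [(hΛ φ.1).2 _ (E1M.comm_mem_D (hRN hr) hy) h7, h6, Base.yy_mul φ.1.2 hr h5,
          Base.yy_conj φ.1.2 (Subgroup.mem_top _) (inv_mem hr), Base.yy_inv φ.1.2 hr,
          add_neg_cancel]
      rw [hBval φ _ _ hx hy]
      exact (hle hxR).2 y hy
    · intro y x hx z hz
      have h1 : y * x * y⁻¹ ∈ N := hN.conj_mem x hx y
      have h2 : y * z * y⁻¹ ∈ N := hN.conj_mem z hz y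
      have h3 : ⁅y * x * y⁻¹, y * z * y⁻¹⁆ = y * ⁅x, z⁆ * y⁻¹ := by
        simp only [commutatorElement_def]
        group
      rw [hBval φ _ _ h1 h2, hBval φ _ _ hx hz, h3]
      exact hinv φ y _ (E1M.comm_mem_D hx hz)
  -- INV
  have hPn : (PhiP p N ⊔ R).Normal := by
    have h1 : (PhiP p N).Normal := by
      unfold PhiP
      have h2 : (Subgroup.closure {x | ∃ y ∈ N, x = y ^ p}).Normal := by
        constructor
        intro x hx y
        have hle : Subgroup.closure {x | ∃ y ∈ N, x = y ^ p} ≤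
            (Subgroup.closure {x | ∃ y ∈ N, x = y ^ p}).comap (MulAut.conj y).toMonoidHom := by
          rw [Subgroup.closure_le]
          rintro _ ⟨z, hz, rfl⟩
          apply Subgroup.subset_closure
          refine ⟨y * z * y⁻¹, hN.conj_mem z hz y, ?_⟩
          change y * z ^ p * y⁻¹ = _
          rw [conj_pow]
        exact hle hx
      exact Subgroup.sup_normal _ _
    exact Subgroup.sup_normal _ _
  have hPN : PhiP p N ⊔ R ≤ N := by
    rw [sup_le_iff]
    refine ⟨?_, hRN⟩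
    unfold PhiP
    rw [sup_le_iff, Subgroup.closure_le]
    refine ⟨Subgroup.commutator_le_self N, ?_⟩
    rintro _ ⟨z, hz, rfl⟩
    exact pow_mem hz p
  have hPidx : ∃ m', (PhiP p N ⊔ R).index = p ^ m' := by
    have h1 : (PhiP p N ⊔ R).index ∣ p ^ m := hRm ▸ Subgroup.index_dvd_of_le le_sup_right
    obtain ⟨m', -, hm'⟩ := (Nat.dvd_prime_pow hprime).1 h1
    exact ⟨m', hm'⟩
  have hAlt : DLE (AltInv p N (PhiP p N ⊔ R)) ((δ ^ 2 + (v - δ) ^ 2) / 2) :=
    hINV p F N _ v δ hN hPn hPN hPidx le_sup_left hv hδ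
  -- step C
  let E3' : LinearMap.ker B →ₗ[ZMod p] (F → ZMod p) :=
    { toFun := fun φ => φ.1.1.1
      map_add' := fun φ ψ => rfl
      map_smul' := fun c φ => rfl }
  have hC : DLE (LinearMap.ker Ψ2) ((δ ^ 2 + (v - δ) ^ 2) / 2 +
      ((K + 1) * m + (d + ((K + 1) * K + K)))) := by
    refine Base.dle_add B hB hAlt E3' ?_ hE2 ?_
    · intro φ
      have hl := (hΛ φ.1.1).1
      have hY := φ.1.1.2
      refine ⟨hY.1, hY.2.1, hY.2.2.1, ?_⟩
      intro x hx hxD
      have h0 : ∀ a ∈ N, ∀ b ∈ N, Λ φ.1.1 ⁅a, b⁆ = 0 := by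
        intro a ha b hb
        rw [← hBval φ.1 a b ha hb, LinearMap.mem_ker.1 φ.2]
        rfl
      have h1 := E1M.zero_of_comm hl h0 x hxD
      rw [(hΛ φ.1.1).2 x hxD hx] at h1
      exact h1
    · intro φ hφ
      apply Subtype.ext
      apply Subtype.ext
      apply Subtype.ext
      exact hφ
  -- step B
  have hBdim : DLE (YY p ⊤ R (gen h)) (K * j + ((δ ^ 2 + (v - δ) ^ 2) / 2 +
      ((K + 1) * m + (d + ((K + 1) * K + K))))) := by
    refine Base.dle_add Ψ2 (fun _ => Submodule.mem_top) (E1M.dle_fun2 p K j)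
      (LinearMap.ker Ψ2).subtype (fun y => y.2) hC ?_
    intro y hy
    exact Subtype.ext hy
  -- step A
  have hHR : (R.subgroupOf (gen h)).Normal := hR.subgroupOf _
  have hdvdH : (R.subgroupOf (gen h)).index ∣ p ^ m := by
    rw [← hRm]
    exact Subgroup.relIndex_dvd_index_of_normal R _
  obtain ⟨i, hi, hidx⟩ := (Nat.dvd_prime_pow hprime).1 hdvdH
  have hAY := specAY p (gen h) s i _ (R.subgroupOf (gen h)) (AYM.gen_restrict h) hHR hidx
  let Ψ1 : YY p ⊤ R ⊥ →ₗ[ZMod p] (gen h → ZMod p) :=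
    { toFun := fun φ x => φ.1 x
      map_add' := fun φ ψ => rfl
      map_smul' := fun c φ => rfl }
  have hΨ1 : ∀ φ, Ψ1 φ ∈ YY p ⊤ (R.subgroupOf (gen h)) ⊥ := by
    intro φ
    refine ⟨?_, ?_, ?_, ?_⟩
    · intro x hx
      apply Base.yy_out φ.2
      intro h
      exact hx (Subgroup.mem_subgroupOf.2 h)
    · intro x hx y hy
      exact Base.yy_mul φ.2 (Subgroup.mem_subgroupOf.1 hx) (Subgroup.mem_subgroupOf.1 hy)
    · intro y _ x hx
      exact Base.yy_conj φ.2 (Subgroup.mem_top _) (Subgroup.mem_subgroupOf.1 hx)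
    · intro x hx hx1
      rw [Subgroup.mem_bot] at hx1
      subst hx1
      have h0 : φ.1 1 = 0 := Base.yy_one φ.2
      exact h0
  let E1' : LinearMap.ker Ψ1 →ₗ[ZMod p] (F → ZMod p) :=
    { toFun := fun φ => φ.1.1
      map_add' := fun φ ψ => rfl
      map_smul' := fun c φ => rfl }
  have hA := Base.dle_add Ψ1 hΨ1 hAY E1' (Y' := YY p ⊤ R (gen h)) (by
    intro φ
    have hY := φ.1.2
    refine ⟨hY.1, hY.2.1, hY.2.2.1, ?_⟩
    intro x _ hxH
    exact congrFun (LinearMap.mem_ker.1 φ.2) ⟨x, hxH⟩) hBdim (by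
    intro φ hφ
    apply Subtype.ext
    apply Subtype.ext
    exact hφ)
  refine Base.dle_mono hA ?_
  have h1 : (s + 1) * i ≤ (s + 1) * m := Nat.mul_le_mul_left _ hi
  have h2 : K * j ≤ K * m := Nat.mul_le_mul_left _ hj
  omega

end Pool.Agent.Lib.MP4ccb00.E
end

section
/-!
# MP_4ccb00_al, part (e), modules NXT, CNTA: counting normal subgroups
-/
namespace Pool.Agent.Lib.MP4ccb00.E

open scoped commutatorElement

namespace NXTM

/-- the homomorphism with a given kernel of index `p` -/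
theorem exists_hom (p : ℕ) [Fact p.Prime] (F : Type) [Group F] (R' R D : Subgroup F)
    (hR' : R'.Normal) (hR : R.Normal) (hm : ∃ m, R'.index = p ^ m) (hle : R' ≤ R)
    (hidx : R'.relIndex R = p) (hD : R ⊓ D ≤ R') :
    ∃ φ ∈ YY p ⊤ R D, ∀ x, x ∈ R' ↔ x ∈ R ∧ φ x = 0 := by
  classical
  have hprime : p.Prime := Fact.out
  obtain ⟨hpow, hcom, hcyc⟩ := specCYC p F R' R hR' hR hm hle hidx
  have hcom' : ∀ r ∈ R, ∀ y, ⁅r, y⁆ ∈ R' := fun r hr y =>
    hcom (Subgroup.commutator_mem_commutator hr (Subgroup.mem_top y))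
  have hne : ¬ R ≤ R' := by
    intro h
    have : R' = R := le_antisymm hle h
    rw [this, Subgroup.relIndex_self] at hidx
    exact hprime.one_lt.ne hidx
  obtain ⟨z, hz, hz'⟩ := SetLike.not_le_iff_exists.1 hne
  choose! κ hκ using hcyc z hz hz'
  have hdvd : ∀ i j : ℕ, (z ^ i)⁻¹ * z ^ j ∈ R' → (i : ZMod p) = j := by
    have key : ∀ i j : ℕ, i ≤ j → (z ^ i)⁻¹ * z ^ j ∈ R' → (i : ZMod p) = j := by
      intro i j hij h
      have h1 : (z ^ i)⁻¹ * z ^ j = z ^ (j - i) := by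
        have h4 : z ^ j = z ^ i * z ^ (j - i) := by
          rw [← pow_add]
          congr 1
          omega
        rw [h4]
        group
      rw [h1] at h
      have h2 := EXTM.dvd_of_mem hR' hz' (hpow z hz) h
      obtain ⟨q, hq⟩ := h2
      have h3 : j = i + p * q := by omega
      rw [h3]
      push_cast
      simp
    intro i j h
    rcases le_total i j with hij | hij
    · exact key i j hij h
    · refine (key j i hij ?_).symm
      have : (z ^ j)⁻¹ * z ^ i = ((z ^ i)⁻¹ * z ^ j)⁻¹ := by group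
      rw [this]
      exact inv_mem h
  let φ : F → ZMod p := fun x => if x ∈ R then (κ x : ZMod p) else 0
  -- values
  have hval : ∀ (i : ℕ) (r : F), r ∈ R' → φ (z ^ i * r) = i := by
    intro i r hr
    have hx : z ^ i * r ∈ R := mul_mem (pow_mem hz i) (hle hr)
    change (if z ^ i * r ∈ R then (κ (z ^ i * r) : ZMod p) else 0) = i
    rw [if_pos hx]
    apply hdvd
    have h1 := hκ _ hx
    have h2 : (z ^ κ (z ^ i * r))⁻¹ * z ^ i = ((z ^ κ (z ^ i * r))⁻¹ * (z ^ i * r)) * r⁻¹ := by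
      group
    rw [h2]
    exact mul_mem h1 (inv_mem hr)
  have hrep : ∀ x ∈ R, ∃ (i : ℕ) (r : F), r ∈ R' ∧ x = z ^ i * r := by
    intro x hx
    exact ⟨κ x, _, hκ x hx, by group⟩
  have hzero : ∀ x, x ∈ R' → φ x = 0 := by
    intro x hx
    have := hval 0 x hx
    simpa using this
  refine ⟨φ, ⟨?_, ?_, ?_, ?_⟩, ?_⟩
  · intro x hx
    change (if x ∈ R then (κ x : ZMod p) else 0) = 0
    rw [if_neg hx]
  · intro x hx y hy
    obtain ⟨i, r, hr, rfl⟩ := hrep x hx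
    obtain ⟨j, s, hs, rfl⟩ := hrep y hy
    have h1 : z ^ i * r * (z ^ j * s) = z ^ (i + j) * (((z ^ j)⁻¹ * r * (z ^ j)⁻¹⁻¹) * s) := by
      rw [pow_add]
      group
    have h2 : (z ^ j)⁻¹ * r * (z ^ j)⁻¹⁻¹ ∈ R' := hR'.conj_mem r hr _
    rw [h1, hval _ _ (mul_mem h2 hs), hval _ _ hr, hval _ _ hs]
    push_cast
    ring
  · intro g _ x hx
    obtain ⟨i, r, hr, rfl⟩ := hrep x hx
    have h1 : g * (z ^ i * r) * g⁻¹ =
        z ^ i * (((z ^ i)⁻¹ * ⁅z ^ i * r, g⁆⁻¹ * (z ^ i)⁻¹⁻¹) * r) := by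
      simp only [commutatorElement_def]
      group
    have h2 : ((z ^ i)⁻¹ * ⁅z ^ i * r, g⁆⁻¹ * (z ^ i)⁻¹⁻¹) * r ∈ R' :=
      mul_mem (hR'.conj_mem _ (inv_mem (hcom' _ hx g)) _) hr
    rw [h1, hval _ _ h2, hval _ _ hr]
  · intro x hx hd
    exact hzero x (hD ⟨hx, hd⟩)
  · intro x
    constructor
    · intro hx
      exact ⟨hle hx, hzero x hx⟩
    · rintro ⟨hx, h0⟩
      obtain ⟨i, r, hr, rfl⟩ := hrep x hx
      rw [hval _ _ hr] at h0
      have h3 : p ∣ i := (ZMod.natCast_eq_zero_iff i p).1 h0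
      obtain ⟨q, rfl⟩ := h3
      rw [pow_mul]
      exact mul_mem (pow_mem (hpow z hz) q) hr

end NXTM

theorem specNXT : SpecNXT := by
  intro p hp F _ R D k hR hm hY
  classical
  have hprime : p.Prime := Fact.out
  obtain ⟨m, hm⟩ := hm
  obtain ⟨hY1, hY2⟩ := hY
  have hfin : Finite (YY p ⊤ R D) := Module.finite_of_finite (ZMod p)
  have hcard : Nat.card (YY p ⊤ R D) = p ^ Module.finrank (ZMod p) (YY p ⊤ R D) := by
    rw [Module.natCard_eq_pow_finrank (K := ZMod p), Nat.card_zmod]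
  set S : Set (Subgroup F) := {R' | R'.Normal ∧ R' ≤ R ∧ R'.relIndex R = p ∧ R ⊓ D ≤ R'} with hS
  have hex : ∀ R' : S, ∃ φ : YY p ⊤ R D, ∀ x, x ∈ R'.1 ↔ x ∈ R ∧ φ.1 x = 0 := by
    rintro ⟨R', h1, h2, h3, h4⟩
    have hidx : ∃ m', R'.index = p ^ m' := by
      refine ⟨m + 1, ?_⟩
      have := Subgroup.relIndex_mul_index h2
      rw [h3, hm] at this
      rw [← this, pow_succ, mul_comm]
    obtain ⟨φ, hφ, hx⟩ := NXTM.exists_hom p F R' R D h1 hR hidx h2 h3 h4
    exact ⟨⟨φ, hφ⟩, hx⟩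
  choose Φ hΦ using hex
  have hinj : Function.Injective Φ := by
    intro R1 R2 h
    apply Subtype.ext
    ext x
    rw [hΦ R1 x, hΦ R2 x, h]
  have hSfin : Finite S := Finite.of_injective Φ hinj
  refine ⟨Set.toFinite S, ?_⟩
  calc S.ncard = Nat.card S := rfl
    _ ≤ Nat.card (YY p ⊤ R D) := Nat.card_le_card_of_injective Φ hinj
    _ = p ^ Module.finrank (ZMod p) (YY p ⊤ R D) := hcard
    _ ≤ p ^ k := Nat.pow_le_pow_right hprime.pos hY2

theorem specCNTA : SpecCNTA := by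
  intro p hp F _ d n f hf
  classical
  have hprime : p.Prime := Fact.out
  induction n with
  | zero =>
    have h1 : {R : Subgroup F | R.Normal ∧ R.index = p ^ 0} ⊆ {⊤} := by
      rintro R ⟨-, hR⟩
      exact Subgroup.index_eq_one.1 (by simpa using hR)
    refine ⟨(Set.finite_singleton _).subset h1, ?_⟩
    calc _ ≤ ({⊤} : Set (Subgroup F)).ncard := Set.ncard_le_ncard h1 (Set.finite_singleton _)
      _ = 1 := Set.ncard_singleton _
      _ ≤ _ := Nat.one_le_pow _ _ hprime.pos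
  | succ n ih =>
    obtain ⟨ihf, ihc⟩ := ih
    set A : Set (Subgroup F) := {R | R.Normal ∧ R.index = p ^ n} with hA
    let T : Subgroup F → Set (Subgroup F) := fun R =>
      {R' | R'.Normal ∧ R' ≤ R ∧ R'.relIndex R = p ∧ R ⊓ ⊥ ≤ R'}
    have hT : ∀ R ∈ A, (T R).Finite ∧ (T R).ncard ≤ p ^ ((d + 1) * n + d) := by
      rintro R ⟨hR, hRi⟩
      exact specNXT p F R ⊥ _ hR ⟨n, hRi⟩ (specAY p F d n f R hf hR hRi)
    have hsub : {R : Subgroup F | R.Normal ∧ R.index = p ^ (n + 1)} ⊆ ⋃ R ∈ A, T R := by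
      rintro R' ⟨hR', hidx⟩
      have hne : R' ≠ ⊤ := by
        intro h
        rw [h, Subgroup.index_top] at hidx
        have : 1 < p ^ (n + 1) := Nat.one_lt_pow (Nat.succ_ne_zero n) hprime.one_lt
        omega
      obtain ⟨R1, m1, hR1, hlt1, -, hidx1, hmm, hR1i, -⟩ :=
        AYM.step p F R' ⊤ hR' inferInstance (n + 1) hidx (lt_top_iff_ne_top.2 hne)
      obtain rfl : n = m1 := by omega
      simp only [Set.mem_iUnion]
      exact ⟨R1, ⟨hR1, hR1i⟩, hR', hlt1.le, hidx1, by simp⟩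
    have hfin : (⋃ R ∈ A, T R).Finite := ihf.biUnion fun R hR => (hT R hR).1
    refine ⟨hfin.subset hsub, ?_⟩
    have hcard : (⋃ R ∈ A, T R).ncard ≤ A.ncard * p ^ ((d + 1) * n + d) := by
      have h1 : (⋃ R ∈ A, T R) = ⋃ R ∈ ihf.toFinset, T R := by
        ext x
        simp
      rw [h1]
      calc _ ≤ ∑ R ∈ ihf.toFinset, (T R).ncard :=
            Finset.set_ncard_biUnion_le _ _
        _ ≤ ∑ _R ∈ ihf.toFinset, p ^ ((d + 1) * n + d) :=
            Finset.sum_le_sum fun R hR => (hT R (ihf.mem_toFinset.1 hR)).2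
        _ = A.ncard * p ^ ((d + 1) * n + d) := by
            rw [Finset.sum_const, smul_eq_mul, Set.ncard_eq_toFinset_card _ ihf]
    calc _ ≤ (⋃ R ∈ A, T R).ncard := Set.ncard_le_ncard hsub hfin
      _ ≤ A.ncard * p ^ ((d + 1) * n + d) := hcard
      _ ≤ p ^ ((d + 1) * (n * (n - 1) / 2) + d * n) * p ^ ((d + 1) * n + d) :=
          Nat.mul_le_mul_right _ ihc
      _ = p ^ ((d + 1) * ((n + 1) * (n + 1 - 1) / 2) + d * (n + 1)) := by
          rw [← pow_add]
          congr 1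
          have h1 : (n + 1) * (n + 1 - 1) / 2 = n * (n - 1) / 2 + n := by
            cases n with
            | zero => rfl
            | succ n =>
              have h2 : (n + 1 + 1) * (n + 1 + 1 - 1) = (n + 1) * (n + 1 - 1) + 2 * (n + 1) := by
                simp only [Nat.add_sub_cancel]
                ring
              rw [h2, Nat.add_mul_div_left _ _ (by norm_num)]
          rw [h1]
          ring

end Pool.Agent.Lib.MP4ccb00.E
end

section
/-!
# MP_4ccb00_al, part (e), module E4: the counting tree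
-/
namespace Pool.Agent.Lib.MP4ccb00.E

open scoped commutatorElement

namespace E4M

/-- a union of at most `a` sets with at most `b` elements -/
theorem union_bound {α ι : Type*} (I : Set ι) (hI : I.Finite) (f : ι → Set α) (a b : ℕ)
    (ha : I.ncard ≤ a) (hf : ∀ i ∈ I, (f i).Finite ∧ (f i).ncard ≤ b) :
    (⋃ i ∈ I, f i).Finite ∧ (⋃ i ∈ I, f i).ncard ≤ a * b := by
  classical
  refine ⟨hI.biUnion fun i hi => (hf i hi).1, ?_⟩
  have h1 : (⋃ i ∈ I, f i) = ⋃ i ∈ hI.toFinset, f i := by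
    ext x
    simp
  rw [h1]
  calc _ ≤ ∑ i ∈ hI.toFinset, (f i).ncard := Finset.set_ncard_biUnion_le _ _
    _ ≤ ∑ _i ∈ hI.toFinset, b := Finset.sum_le_sum fun i hi => (hf i (hI.mem_toFinset.1 hi)).2
    _ = I.ncard * b := by
        rw [Finset.sum_const, smul_eq_mul, Set.ncard_eq_toFinset_card _ hI]
    _ ≤ a * b := Nat.mul_le_mul_right _ ha

/-- representatives of the cosets of a subgroup of index `p` -/
theorem reps {F : Type} [Group F] (R1 R : Subgroup F) (p : ℕ) (hp : p ≠ 0)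
    (h : R1.relIndex R = p) :
    ∃ ρ : Fin p → F, (∀ i, ρ i ∈ R) ∧ ∀ x ∈ R, ∃ i, (ρ i)⁻¹ * x ∈ R1 := by
  have hc : Nat.card (R ⧸ R1.subgroupOf R) = p := h
  have hfin : Finite (R ⧸ R1.subgroupOf R) := Nat.finite_of_card_ne_zero (by rw [hc]; exact hp)
  let e : (R ⧸ R1.subgroupOf R) ≃ Fin p := Finite.equivFinOfCardEq hc
  refine ⟨fun i => ((e.symm i).out : R), fun i => ((e.symm i).out : R).2, ?_⟩
  intro x hx
  refine ⟨e (QuotientGroup.mk (⟨x, hx⟩ : R)), ?_⟩
  have h1 : (QuotientGroup.mk ((e.symm (e (QuotientGroup.mk (⟨x, hx⟩ : R)))).out : R) :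
      R ⧸ R1.subgroupOf R) = QuotientGroup.mk (⟨x, hx⟩ : R) := by
    rw [Equiv.symm_apply_apply]
    exact Quotient.out_eq' _
  rw [QuotientGroup.eq, Subgroup.mem_subgroupOf] at h1
  simpa using h1

/-- `⁅gen h, gen h⁆ R` depends only on `h` modulo `R` -/
theorem comm_gen_le {F : Type} [Group F] (R : Subgroup F) (hR : R.Normal) {s : ℕ}
    (h h' : Fin s → F) (hh : ∀ j, (h j)⁻¹ * h' j ∈ R) :
    ⁅gen h', gen h'⁆ ≤ ⁅gen h, gen h⁆ ⊔ R := by
  have h1 : (gen h').map (QuotientGroup.mk' R) = (gen h).map (QuotientGroup.mk' R) := by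
    unfold gen
    rw [MonoidHom.map_closure, MonoidHom.map_closure]
    congr 1
    ext y
    constructor
    · rintro ⟨_, ⟨j, rfl⟩, rfl⟩
      exact ⟨h j, ⟨j, rfl⟩, QuotientGroup.eq.2 (hh j)⟩
    · rintro ⟨_, ⟨j, rfl⟩, rfl⟩
      exact ⟨h' j, ⟨j, rfl⟩, (QuotientGroup.eq.2 (hh j)).symm⟩
  have h2 : (⁅gen h', gen h'⁆).map (QuotientGroup.mk' R) =
      (⁅gen h, gen h⁆).map (QuotientGroup.mk' R) := by
    rw [Subgroup.map_commutator, Subgroup.map_commutator, h1]
  have h3 := Subgroup.comap_map_eq (QuotientGroup.mk' R) ⁅gen h, gen h⁆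
  rw [QuotientGroup.ker_mk'] at h3
  rw [← h3, ← Subgroup.map_le_iff_le_comap, h2]

/-- indices of subgroups above a subgroup of `p`-power index -/
theorem relIndex_pow {p : ℕ} (hp : p.Prime) {F : Type} [Group F] {R Q N : Subgroup F} {m : ℕ}
    (hR : R.index = p ^ m) (hRQ : R ≤ Q) (hRN : R ≤ N) : ∃ v ≤ m, Q.relIndex N = p ^ v := by
  have h1 : Q.relIndex N ∣ R.relIndex N := Subgroup.relIndex_dvd_of_le_left N hRQ
  have h2 : R.relIndex N ∣ R.index := ⟨N.index, (Subgroup.relIndex_mul_index hRN).symm⟩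
  rw [hR] at h2
  exact (Nat.dvd_prime_pow hp).1 (h1.trans h2)

/-- the part of a step inside `⁅N,N⁆` -/
theorem inf_relIndex {p : ℕ} (hp : p.Prime) {F : Type} [Group F] (D R1 R : Subgroup F)
    (hR1 : R1.Normal) (hle : R1 ≤ R) (h : R1.relIndex R = p) :
    (D ⊓ R1).relIndex (D ⊓ R) = 1 ∨ (D ⊓ R1).relIndex (D ⊓ R) = p := by
  have h1 : (D ⊓ R1).relIndex (D ⊓ R) = R1.relIndex (D ⊓ R) := by
    have : D ⊓ R1 = R1 ⊓ (D ⊓ R) := by
      ext x
      simp only [Subgroup.mem_inf]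
      constructor
      · rintro ⟨h1, h2⟩
        exact ⟨h2, h1, hle h2⟩
      · rintro ⟨h1, h2, _⟩
        exact ⟨h2, h1⟩
    rw [this, Subgroup.inf_relIndex_right]
  have h2 : R1.relIndex (D ⊓ R) ∣ R1.relIndex R := by
    rw [Base.relIndex_map, Base.relIndex_map]
    exact Subgroup.card_dvd_of_le (Subgroup.map_mono inf_le_right)
  rw [h1]
  rw [h] at h2
  exact (Nat.dvd_prime hp).1 h2

end E4M

open E4M in
theorem specE4 (hE1 : SpecE1) (hDEL : SpecDEL) : SpecE4 := by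
  intro p hp F _ d K m s n c v f N R h hf hd hN hR hRN hRP hNK hRm hmn hhN
  have hprime : p.Prime := Fact.out
  obtain ⟨k, hk⟩ : ∃ k, n - m = k := ⟨_, rfl⟩
  rw [hk]
  induction k generalizing m c R h with
  | zero =>
    have hm : m = n := by omega
    subst hm
    have hsub : TT p N R h m c v ⊆ {R} := by
      rintro R' ⟨-, hle, hidx, -⟩
      rw [Set.mem_singleton_iff]
      refine le_antisymm hle ?_
      have h1 := Subgroup.relIndex_mul_index hle
      rw [hidx, hRm] at h1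
      have h2 : R'.relIndex R = 1 := by
        have : 0 < p ^ m := pow_pos hprime.pos m
        exact Nat.eq_of_mul_eq_mul_right this (by rw [h1, one_mul])
      exact Subgroup.relIndex_eq_one.1 h2
    refine ⟨(Set.finite_singleton _).subset hsub, ?_⟩
    calc _ ≤ ({R} : Set (Subgroup F)).ncard := Set.ncard_le_ncard hsub (Set.finite_singleton _)
      _ = 1 := Set.ncard_singleton _
      _ ≤ _ := Nat.one_le_pow _ _ hprime.pos
  | succ k ih =>
    rcases Set.eq_empty_or_nonempty (TT p N R h n c v) with hemp | ⟨R₀, hR₀⟩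
    · rw [hemp]
      exact ⟨Set.finite_empty, by simp⟩
    -- data for E1
    obtain ⟨hR₀n, hR₀le, hR₀i, hR₀c, hR₀v, h₀, hh₀, hcom₀⟩ := hR₀
    have hgen : ⁅N, N⁆ ≤ ⁅gen h, gen h⁆ ⊔ R := by
      refine hcom₀.trans (sup_le (comm_gen_le R hR h h₀ hh₀) (hR₀le.trans le_sup_right))
    obtain ⟨vR, hvRm, hvR⟩ := relIndex_pow (Q := PhiP p N ⊔ R) hprime hRm le_sup_right hRN
    obtain ⟨δ, hδm, hδ⟩ := relIndex_pow (Q := ⁅N, ⊤⁆ ⊔ (PhiP p N ⊔ R)) hprime hRm
      (le_sup_right.trans le_sup_right) hRN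
    have hvle : vR ≤ v := by
      have h1 : (PhiP p N ⊔ R).relIndex N ∣ (PhiP p N ⊔ R₀).relIndex N :=
        Subgroup.relIndex_dvd_of_le_left N (sup_le_sup_left hR₀le _)
      have h2 : 0 < (PhiP p N ⊔ R₀).relIndex N := by
        obtain ⟨w, -, hw⟩ := relIndex_pow (Q := PhiP p N ⊔ R₀) hprime hR₀i le_sup_right
          (hR₀le.trans hRN)
        rw [hw]
        exact pow_pos hprime.pos _
      have h3 := (Nat.le_of_dvd h2 h1).trans hR₀v
      rw [hvR] at h3
      exact (Nat.pow_le_pow_iff_right hprime.one_lt).1 h3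
    obtain ⟨hδ1, hδ2⟩ := hDEL p F d K δ f N R hf hd hN hR hRN hRP hNK hδ
    have hdim1 := hE1 p F d K m s vR δ f N R h hf hN hR hRN hNK hRm hhN hgen hvR hδ
    have hdim2 := specE2 p F d K m f N R hf hN hR hRN hNK hRm
    -- the exponents
    obtain ⟨rest, hrest⟩ : ∃ r, r = ((s + 1) * n + s) + K * n +
      ((K + 1) * n + (d + ((K + 1) * K + K))) := ⟨_, rfl⟩
    have hB2 : B2 d K n s = s + 1 + rest := by rw [hrest]; rfl
    have hb1 : (δ ^ 2 + (vR - δ) ^ 2) / 2 ≤ B1 d K v := by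
      unfold B1
      refine Nat.div_le_div_right (add_le_add (Nat.pow_le_pow_left hδ2 2) ?_)
      exact Nat.pow_le_pow_left (by omega) 2
    have hm : m ≤ n := hmn
    have hdim1' : DLE (YY p ⊤ R ⊥) (B1 d K v + rest) := by
      refine Base.dle_mono hdim1 ?_
      have e1 : (s + 1) * m ≤ (s + 1) * n := Nat.mul_le_mul_left _ hm
      have e2 : K * m ≤ K * n := Nat.mul_le_mul_left _ hm
      have e3 : (K + 1) * m ≤ (K + 1) * n := Nat.mul_le_mul_left _ hm
      rw [hrest]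
      omega
    have hdim2' : DLE (YY p ⊤ R ⁅N, N⁆) rest := by
      refine Base.dle_mono hdim2 ?_
      have e3 : (K + 1) * m ≤ (K + 1) * n := Nat.mul_le_mul_left _ hm
      rw [hrest]
      omega
    -- the sets of the next subgroups
    obtain ⟨hA1, hA2⟩ := specNXT p F R ⁅N, N⁆ rest hR ⟨m, hRm⟩ hdim2'
    obtain ⟨hC1, hC2⟩ := specNXT p F R ⊥ (B1 d K v + rest) hR ⟨m, hRm⟩ hdim1'
    set SA : Set (Subgroup F) := {R' | R'.Normal ∧ R' ≤ R ∧ R'.relIndex R = p ∧ R ⊓ ⁅N, N⁆ ≤ R'}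
      with hSA
    set SC : Set (Subgroup F) := {R' | R'.Normal ∧ R' ≤ R ∧ R'.relIndex R = p ∧ R ⊓ ⊥ ≤ R'}
      with hSC
    -- representatives
    have hrep : ∀ R1 : Subgroup F, ∃ ρ : Fin p → F, R1.relIndex R = p →
        (∀ i, ρ i ∈ R) ∧ ∀ x ∈ R, ∃ i, (ρ i)⁻¹ * x ∈ R1 := by
      intro R1
      by_cases hi : R1.relIndex R = p
      · obtain ⟨ρ, h1, h2⟩ := reps R1 R p hprime.ne_zero hi
        exact ⟨ρ, fun _ => ⟨h1, h2⟩⟩
      · exact ⟨fun _ => 1, fun h => absurd h hi⟩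
    choose ρ hρ using hrep
    let h1 : Subgroup F → (Fin s → Fin p) → Fin s → F := fun R1 t j => h j * ρ R1 (t j)
    let V : ℕ → Subgroup F → Set (Subgroup F) := fun c1 R1 =>
      ⋃ t ∈ (Set.univ : Set (Fin s → Fin p)), TT p N R1 (h1 R1 t) n c1 v
    have hV : ∀ (c1 : ℕ) (R1 : Subgroup F), R1.Normal → R1 ≤ R → R1.relIndex R = p →
        (V c1 R1).Finite ∧ (V c1 R1).ncard ≤ p ^ s * p ^ (c1 * B1 d K v + k * B2 d K n s) := by
      intro c1 R1 hR1 hle hi
      refine union_bound _ Set.finite_univ _ _ _ ?_ ?_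
      · rw [Set.ncard_univ, Nat.card_fun, Nat.card_fin, Nat.card_fin]
      · intro t _
        refine ih (m + 1) c1 R1 (h1 R1 t) hR1 (hle.trans hRN) (hle.trans hRP) ?_ (by omega) ?_
          (by omega)
        · rw [← Subgroup.relIndex_mul_index hle, hi, hRm, pow_succ, mul_comm]
        · intro j
          exact mul_mem (hhN j) (hRN ((hρ R1 hi).1 _))
    -- every element of `TT` is in one of these sets
    have hmem : ∀ R' ∈ TT p N R h n c v,
        (∃ R1 ∈ SA, R' ∈ V c R1) ∨ (1 ≤ c ∧ ∃ R1 ∈ SC, R' ∈ V (c - 1) R1) := by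
      rintro R' ⟨hR'n, hR'le, hR'i, hR'c, hR'v, h', hh', hcom'⟩
      have hlt : R' < R := by
        refine lt_of_le_of_ne hR'le ?_
        rintro rfl
        rw [hR'i] at hRm
        have := Nat.pow_right_injective hprime.two_le hRm
        omega
      obtain ⟨R1, hR1n, hR'R1, hR1lt, hR1i⟩ := specTOP p F R' R hR'n hR ⟨n, hR'i⟩ hlt
      -- the lift
      have ht : ∀ j, ∃ i : Fin p, (ρ R1 i)⁻¹ * ((h j)⁻¹ * h' j) ∈ R1 :=
        fun j => (hρ R1 hR1i).2 _ (hh' j)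
      choose t ht using ht
      have hlift : ∀ j, (h1 R1 t j)⁻¹ * h' j ∈ R1 := by
        intro j
        have e : (h1 R1 t j)⁻¹ * h' j = (ρ R1 (t j))⁻¹ * ((h j)⁻¹ * h' j) := by
          change (h j * ρ R1 (t j))⁻¹ * h' j = _
          group
        rw [e]
        exact ht j
      have hmul : (⁅N, N⁆ ⊓ R').relIndex (⁅N, N⁆ ⊓ R1) * (⁅N, N⁆ ⊓ R1).relIndex (⁅N, N⁆ ⊓ R) =
          (⁅N, N⁆ ⊓ R').relIndex (⁅N, N⁆ ⊓ R) :=
        Subgroup.relIndex_mul_relIndex _ _ _ (inf_le_inf_left _ hR'R1)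
          (inf_le_inf_left _ hR1lt.le)
      rcases inf_relIndex hprime ⁅N, N⁆ R1 R hR1n hR1lt.le hR1i with h2 | h2
      · left
        have h3 : ⁅N, N⁆ ⊓ R ≤ ⁅N, N⁆ ⊓ R1 := Subgroup.relIndex_eq_one.1 h2
        refine ⟨R1, ⟨hR1n, hR1lt.le, hR1i, ?_⟩, ?_⟩
        · rw [inf_comm]
          exact h3.trans inf_le_right
        · simp only [V, Set.mem_iUnion]
          refine ⟨t, Set.mem_univ _, hR'n, hR'R1, hR'i, ?_, hR'v, h', hlift, hcom'⟩
          rw [h2, mul_one, hR'c] at hmul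
          exact hmul
      · right
        rw [h2, hR'c] at hmul
        have hc : 1 ≤ c := by
          rcases Nat.eq_zero_or_pos c with rfl | hc
          · rw [pow_zero] at hmul
            have := Nat.eq_one_of_mul_eq_one_left hmul
            exact absurd this hprime.one_lt.ne'
          · exact hc
        refine ⟨hc, R1, ⟨hR1n, hR1lt.le, hR1i, by simp⟩, ?_⟩
        simp only [V, Set.mem_iUnion]
        refine ⟨t, Set.mem_univ _, hR'n, hR'R1, hR'i, ?_, hR'v, h', hlift, hcom'⟩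
        obtain ⟨c', rfl⟩ : ∃ c', c = c' + 1 := ⟨c - 1, by omega⟩
        rw [pow_succ] at hmul
        simpa using Nat.eq_of_mul_eq_mul_right hprime.pos hmul
    -- the bounds for the two unions
    obtain ⟨uA1, uA2⟩ := union_bound SA hA1 (V c) (p ^ rest)
      (p ^ s * p ^ (c * B1 d K v + k * B2 d K n s)) hA2
      (fun R1 hR1 => hV c R1 hR1.1 hR1.2.1 hR1.2.2.1)
    obtain ⟨uC1, uC2⟩ := union_bound SC hC1 (V (c - 1)) (p ^ (B1 d K v + rest))
      (p ^ s * p ^ ((c - 1) * B1 d K v + k * B2 d K n s)) hC2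
      (fun R1 hR1 => hV (c - 1) R1 hR1.1 hR1.2.1 hR1.2.2.1)
    obtain ⟨b, hb⟩ : ∃ b, b = B1 d K v := ⟨_, rfl⟩
    obtain ⟨b2, hb2⟩ : ∃ b, b = B2 d K n s := ⟨_, rfl⟩
    rw [← hb] at uA2 uC2 ⊢
    rw [← hb2] at uA2 uC2 ⊢
    have hfin : (⋃ R1 ∈ SA, V c R1).Finite := uA1
    have hX : (p ^ rest * (p ^ s * p ^ (c * b + k * b2))) = p ^ (s + rest + (c * b + k * b2)) := by
      rw [← pow_add, ← pow_add]
      congr 1
      ring
    have hlast : 2 * p ^ (s + rest + (c * b + k * b2)) ≤ p ^ (c * b + (k + 1) * b2) := by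
      calc 2 * p ^ (s + rest + (c * b + k * b2)) ≤ p * p ^ (s + rest + (c * b + k * b2)) :=
            Nat.mul_le_mul_right _ hprime.two_le
        _ = p ^ (c * b + (k + 1) * b2) := by
            rw [← pow_succ']
            congr 1
            rw [hb2, hB2]
            ring
    rcases Nat.eq_zero_or_pos c with hc0 | hcpos
    · have hsub : TT p N R h n c v ⊆ ⋃ R1 ∈ SA, V c R1 := by
        intro R' hR'
        rcases hmem R' hR' with ⟨R1, hR1, hx⟩ | ⟨hc, -⟩
        · exact Set.mem_biUnion hR1 hx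
        · omega
      refine ⟨hfin.subset hsub, ?_⟩
      have := (Set.ncard_le_ncard hsub hfin).trans uA2
      rw [hX] at this
      omega
    · have hsub : TT p N R h n c v ⊆ (⋃ R1 ∈ SA, V c R1) ∪ (⋃ R1 ∈ SC, V (c - 1) R1) := by
        intro R' hR'
        rcases hmem R' hR' with ⟨R1, hR1, hx⟩ | ⟨-, R1, hR1, hx⟩
        · exact Or.inl (Set.mem_biUnion hR1 hx)
        · exact Or.inr (Set.mem_biUnion hR1 hx)
      have hfin2 := uA1.union uC1
      refine ⟨hfin2.subset hsub, ?_⟩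
      have h5 := (Set.ncard_le_ncard hsub hfin2).trans (Set.ncard_union_le _ _)
      have hY : (p ^ (b + rest) * (p ^ s * p ^ ((c - 1) * b + k * b2))) =
          p ^ (s + rest + (c * b + k * b2)) := by
        obtain ⟨c', rfl⟩ : ∃ c', c = c' + 1 := ⟨c - 1, by omega⟩
        rw [← pow_add, ← pow_add]
        congr 1
        simp only [Nat.add_sub_cancel]
        ring
      rw [hX] at uA2
      rw [hY] at uC2
      omega

end Pool.Agent.Lib.MP4ccb00.E
end

section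
/-!
# Module E6: iteration of the stages
-/
namespace Pool.Agent.Lib.MP4ccb00.E

open scoped commutatorElement

namespace E6M

/-- `|D : D ∩ R| = |A : A ∩ R| |D : D ∩ AR|` for `A ≤ D`, `A`, `R` normal -/
theorem relIndex_mul {F : Type} [Group F] (A D R : Subgroup F) [A.Normal] [R.Normal] (h : A ≤ D) :
    R.relIndex A * (A ⊔ R).relIndex D = R.relIndex D := by
  have h1 : R.relIndex (A ⊔ R) * (A ⊔ R).relIndex (D ⊔ R) = R.relIndex (D ⊔ R) :=
    Subgroup.relIndex_mul_relIndex _ _ _ le_sup_right (sup_le_sup_right h R)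
  rw [Subgroup.relIndex_sup_right, Subgroup.relIndex_sup_right] at h1
  have h2 : D ⊔ R = D ⊔ (A ⊔ R) := by
    rw [← sup_assoc, sup_eq_left.2 h]
  rw [h2, Subgroup.relIndex_sup_right] at h1
  exact h1

end E6M

open E6M in
theorem specE6 (hE5 : SpecE5) : SpecE6 := by
  intro k hk
  obtain ⟨B, k', n₀, hk', H⟩ := hE5 k hk
  refine ⟨B * k', max n₀ 1, ?_⟩
  intro n hn p _ F _ N₁ R hN₁ hR hRN₁ hidx
  have hn1 : 1 ≤ n := (le_max_right _ _).trans hn
  have hp : 1 < p := (Fact.out : p.Prime).one_lt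
  -- the number `c`
  have hc : ∀ A : Subgroup F, ∃ c ≤ n, R.relIndex A = p ^ c := by
    intro A
    obtain ⟨m, hm, hm2⟩ := hidx
    have h1 : R.relIndex A ∣ p ^ m := hm2 ▸ Subgroup.relIndex_dvd_index_of_normal R A
    obtain ⟨c, hc, hc2⟩ := (Nat.dvd_prime_pow (Fact.out : p.Prime)).1 h1
    exact ⟨c, hc.trans hm, hc2⟩
  have key : ∀ (t : ℕ) (N : Subgroup F), N.Normal → R ≤ N → ∀ c, R.relIndex ⁅N, N⁆ = p ^ c →
      k' * c ≤ t * n →
      ∃ (N' : Subgroup F) (s : ℕ) (h : Fin s → F), N'.Normal ∧ R ≤ N' ∧ N' ≤ N ∧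
        (∃ b ≤ B * t, N'.relIndex N = p ^ b) ∧ s * k ≤ n ∧ (∀ j, h j ∈ N') ∧
        ⁅N', N'⁆ ≤ ⁅gen h, gen h⁆ ⊔ R := by
    intro t
    induction t with
    | zero =>
      intro N hN hRN c hc1 hc2
      rcases H n ((le_max_left _ _).trans hn) p F N R hN hR hRN hidx with
        ⟨s, h, h1, h2, h3⟩ | ⟨N', h1, h2, h3, _, j, h5, h6⟩
      · exact ⟨N, s, h, hN, hRN, le_rfl, ⟨0, Nat.zero_le _, by rw [Subgroup.relIndex_self, pow_zero]⟩,
          h1, h2, h3⟩
      · exfalso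
        have h7 : R.relIndex ⁅N', N'⁆ * (⁅N', N'⁆ ⊔ R).relIndex ⁅N, N⁆ = R.relIndex ⁅N, N⁆ :=
          relIndex_mul _ _ _ (Subgroup.commutator_mono h3 h3)
        obtain ⟨c', _, hc'⟩ := hc ⁅N', N'⁆
        rw [hc', h6, hc1, ← pow_add] at h7
        have h8 := Nat.pow_right_injective hp h7
        have h9 : k' * j ≤ k' * c := Nat.mul_le_mul_left _ (by omega)
        omega
    | succ t ih =>
      intro N hN hRN c hc1 hc2
      rcases H n ((le_max_left _ _).trans hn) p F N R hN hR hRN hidx with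
        ⟨s, h, h1, h2, h3⟩ | ⟨N', h1, h2, h3, ⟨b, hb, hb2⟩, j, h5, h6⟩
      · exact ⟨N, s, h, hN, hRN, le_rfl, ⟨0, Nat.zero_le _, by rw [Subgroup.relIndex_self, pow_zero]⟩,
          h1, h2, h3⟩
      · have h7 : R.relIndex ⁅N', N'⁆ * (⁅N', N'⁆ ⊔ R).relIndex ⁅N, N⁆ = R.relIndex ⁅N, N⁆ :=
          relIndex_mul _ _ _ (Subgroup.commutator_mono h3 h3)
        obtain ⟨c', _, hc'⟩ := hc ⁅N', N'⁆
        rw [hc', h6, hc1, ← pow_add] at h7
        have h8 : c' + j = c := Nat.pow_right_injective hp h7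
        have h9 : k' * c' ≤ t * n := by
          have h10 : k' * c = k' * c' + k' * j := by rw [← h8]; ring
          have h11 : (t + 1) * n = t * n + n := by ring
          omega
        obtain ⟨N'', s, h, a1, a2, a3, ⟨b', hb', hb2'⟩, a5, a6, a7⟩ := ih N' h1 h2 c' hc' h9
        refine ⟨N'', s, h, a1, a2, a3.trans h3, ⟨b' + b, ?_, ?_⟩, a5, a6, a7⟩
        · have : B * (t + 1) = B * t + B := by ring
          omega
        · rw [← Subgroup.relIndex_mul_relIndex _ _ _ a3 h3, hb2', hb2, pow_add]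
  obtain ⟨c, hc1, hc2⟩ := hc ⁅N₁, N₁⁆
  exact key k' N₁ hN₁ hRN₁ c hc2 (Nat.mul_le_mul_left _ hc1)

end Pool.Agent.Lib.MP4ccb00.E
end

section
/-!
# MP_4ccb00_al, part (e): module E7 (degenerate groups)
-/
set_option autoImplicit false

namespace Pool.Agent.Lib.MP4ccb00.E

open scoped commutatorElement

namespace E7M

/-- the constant in the bound of the exponent -/
def Cc (K₁ : ℕ) : ℕ := (2 * K₁ ^ 2 + K₁) + 1 +
  (2 * ((K₁ + 1) * K₁ + K₁) + ((K₁ + 1) * K₁ + K₁) ^ 2 + 2 * K₁ + K₁ ^ 2) +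
  (6 + 2 * K₁ + ((K₁ + 1) * K₁ + K₁))

theorem bound_A {d K n v K₁ : ℕ} (hn : 1 ≤ n) (hK : K ≤ K₁) (hd : d ≤ n) (hv : v ≤ n) :
    (d + ((K + 1) * K + K)) ^ 2 + (v + K - d) ^ 2 ≤ d ^ 2 + (v - d) ^ 2 +
      (2 * ((K₁ + 1) * K₁ + K₁) + ((K₁ + 1) * K₁ + K₁) ^ 2 + 2 * K₁ + K₁ ^ 2) * n := by
  have h1 : (K + 1) * K + K ≤ (K₁ + 1) * K₁ + K₁ := by gcongr
  obtain ⟨κ, hκ⟩ : ∃ κ, κ = (K₁ + 1) * K₁ + K₁ := ⟨_, rfl⟩
  rw [← hκ] at h1 ⊢
  obtain ⟨w, hw⟩ : ∃ w, w = v - d := ⟨_, rfl⟩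
  rw [← hw]
  have hwn : w ≤ n := by omega
  have h2 : v + K - d ≤ w + K₁ := by omega
  have h3 : (d + ((K + 1) * K + K)) ^ 2 ≤ (d + κ) ^ 2 := by gcongr
  have h4 : (v + K - d) ^ 2 ≤ (w + K₁) ^ 2 := by gcongr
  have h5 : κ * d ≤ κ * n := Nat.mul_le_mul_left _ hd
  have h6 : K₁ * w ≤ K₁ * n := Nat.mul_le_mul_left _ hwn
  have h7 : κ ^ 2 ≤ κ ^ 2 * n := Nat.le_mul_of_pos_right _ hn
  have h8 : K₁ ^ 2 ≤ K₁ ^ 2 * n := Nat.le_mul_of_pos_right _ hn
  nlinarith

theorem exponent {d K n s c v K₁ : ℕ} (hn : 1 ≤ n) (hK : K ≤ K₁) (hd : d ≤ n) (hs : s ≤ n)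
    (hc : c ≤ n) (hv : v ≤ n) :
    ((((d + 1) * (K * (K - 1) / 2) + d * K) + d * s + c * B1 d K v + n * B2 d K n s : ℕ) : ℝ) ≤
      (c : ℝ) * ((d : ℝ) ^ 2 + ((v - d : ℕ) : ℝ) ^ 2) / 2 + (s : ℝ) * (n : ℝ) ^ 2 +
        (Cc K₁ : ℝ) * (n : ℝ) ^ 2 := by
  have hA := bound_A hn hK hd hv
  have h1 : (K + 1) * K + K ≤ (K₁ + 1) * K₁ + K₁ := by gcongr
  obtain ⟨κ, hκ⟩ : ∃ κ, κ = (K₁ + 1) * K₁ + K₁ := ⟨_, rfl⟩
  obtain ⟨w, hw⟩ : ∃ w, w = v - d := ⟨_, rfl⟩
  obtain ⟨C3, hC3⟩ : ∃ C3, C3 = 2 * κ + κ ^ 2 + 2 * K₁ + K₁ ^ 2 := ⟨_, rfl⟩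
  rw [← hκ, ← hC3, ← hw] at hA
  rw [← hκ] at h1
  have hn2 : n ≤ n ^ 2 := by nlinarith
  -- first part
  have p1 : (d + 1) * (K * (K - 1) / 2) + d * K ≤ (2 * K₁ ^ 2 + K₁) * n ^ 2 := by
    have e1 : K * (K - 1) / 2 ≤ K₁ ^ 2 := by
      calc K * (K - 1) / 2 ≤ K * (K - 1) := Nat.div_le_self _ _
        _ ≤ K₁ * K₁ := Nat.mul_le_mul hK (by omega)
        _ = K₁ ^ 2 := (sq K₁).symm
    have e2 : (d + 1) * (K * (K - 1) / 2) ≤ (2 * n) * K₁ ^ 2 := Nat.mul_le_mul (by omega) e1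
    have e3 : d * K ≤ n * K₁ := Nat.mul_le_mul hd hK
    have e4 : K₁ ^ 2 * n ≤ K₁ ^ 2 * n ^ 2 := Nat.mul_le_mul_left _ hn2
    have e5 : K₁ * n ≤ K₁ * n ^ 2 := Nat.mul_le_mul_left _ hn2
    nlinarith
  have p2 : d * s ≤ n ^ 2 := by
    calc d * s ≤ n * n := Nat.mul_le_mul hd hs
      _ = n ^ 2 := (sq n).symm
  have p4 : n * B2 d K n s ≤ s * n ^ 2 + (6 + 2 * K₁ + κ) * n ^ 2 := by
    have e1 : B2 d K n s ≤ s * n + (6 + 2 * K₁ + κ) * n := by
      unfold B2
      have f1 : K * n ≤ K₁ * n := Nat.mul_le_mul_right _ hK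
      have f2 : κ ≤ κ * n := Nat.le_mul_of_pos_right _ hn
      nlinarith
    calc n * B2 d K n s ≤ n * (s * n + (6 + 2 * K₁ + κ) * n) := Nat.mul_le_mul_left _ e1
      _ = s * n ^ 2 + (6 + 2 * K₁ + κ) * n ^ 2 := by ring
  have p3 : (c : ℝ) * (B1 d K v : ℝ) ≤ (c : ℝ) * ((d : ℝ) ^ 2 + (w : ℝ) ^ 2) / 2 +
      (C3 : ℝ) * (n : ℝ) ^ 2 := by
    have e1 : (B1 d K v : ℝ) ≤ (((d + ((K + 1) * K + K)) ^ 2 + (v + K - d) ^ 2 : ℕ) : ℝ) / 2 := by
      unfold B1
      exact Nat.cast_div_le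
    have e2 : (((d + ((K + 1) * K + K)) ^ 2 + (v + K - d) ^ 2 : ℕ) : ℝ) ≤
        (d : ℝ) ^ 2 + (w : ℝ) ^ 2 + (C3 : ℝ) * n := by
      exact_mod_cast hA
    have e3 : (B1 d K v : ℝ) ≤ ((d : ℝ) ^ 2 + (w : ℝ) ^ 2 + (C3 : ℝ) * n) / 2 := by linarith
    have e4 : (c : ℝ) ≤ n := by exact_mod_cast hc
    have e5 : (0 : ℝ) ≤ c := Nat.cast_nonneg c
    calc (c : ℝ) * (B1 d K v : ℝ) ≤ (c : ℝ) * (((d : ℝ) ^ 2 + (w : ℝ) ^ 2 + (C3 : ℝ) * n) / 2) :=
          mul_le_mul_of_nonneg_left e3 e5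
      _ = (c : ℝ) * ((d : ℝ) ^ 2 + (w : ℝ) ^ 2) / 2 + (c : ℝ) * ((C3 : ℝ) * n) / 2 := by ring
      _ ≤ (c : ℝ) * ((d : ℝ) ^ 2 + (w : ℝ) ^ 2) / 2 + (n : ℝ) * ((C3 : ℝ) * n) / 2 := by gcongr
      _ ≤ (c : ℝ) * ((d : ℝ) ^ 2 + (w : ℝ) ^ 2) / 2 + (C3 : ℝ) * (n : ℝ) ^ 2 := by
          have : (0 : ℝ) ≤ (C3 : ℝ) * (n : ℝ) ^ 2 := by positivity
          nlinarith
  have q1 : (((d + 1) * (K * (K - 1) / 2) + d * K : ℕ) : ℝ) ≤ (2 * (K₁ : ℝ) ^ 2 + K₁) * n ^ 2 := by
    exact_mod_cast p1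
  have q2 : ((d * s : ℕ) : ℝ) ≤ (n : ℝ) ^ 2 := by exact_mod_cast p2
  have q4 : ((n * B2 d K n s : ℕ) : ℝ) ≤ (s : ℝ) * (n : ℝ) ^ 2 + (6 + 2 * K₁ + κ) * (n : ℝ) ^ 2 := by
    exact_mod_cast p4
  have hCc : (Cc K₁ : ℝ) = (2 * (K₁ : ℝ) ^ 2 + K₁) + 1 + C3 + (6 + 2 * K₁ + κ) := by
    have : Cc K₁ = (2 * K₁ ^ 2 + K₁) + 1 + C3 + (6 + 2 * K₁ + κ) := by
      rw [hC3, hκ]
      rfl
    rw [this]
    push_cast
    ring
  rw [hCc, ← hw]
  have hsplit : ((((d + 1) * (K * (K - 1) / 2) + d * K) + d * s + c * B1 d K v +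
      n * B2 d K n s : ℕ) : ℝ) = (((d + 1) * (K * (K - 1) / 2) + d * K : ℕ) : ℝ) +
      ((d * s : ℕ) : ℝ) + (c : ℝ) * (B1 d K v : ℝ) + ((n * B2 d K n s : ℕ) : ℝ) := by
    push_cast
    ring
  rw [hsplit]
  linarith

/-- counting groups with a structure -/
theorem count (hSTR : SpecSTR) (η : ℝ) (hη : 0 < η) (K₁ k2 : ℕ) (hk2 : 4 ≤ η * k2) :
    ∃ n₀ : ℕ, ∀ n : ℕ, n₀ ≤ n → ∀ (p : ℕ) [Fact p.Prime] (F : Type) [Group F] (d : ℕ)
      (f : Fin d → F), gen f = ⊤ → (PhiP p (⊤ : Subgroup F)).index = p ^ d →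
      ∀ X : Set (Subgroup F), (∀ R ∈ X, ∃ K s c v, K ≤ K₁ ∧ s * k2 ≤ n ∧ c ≤ n ∧ v ≤ n ∧ d ≤ n ∧
        R ∈ Str p n K s c v F ∧
        (c : ℝ) * ((d : ℝ) ^ 2 + ((v - d : ℕ) : ℝ) ^ 2) / 2 ≤ (2/27 - η) * (n : ℝ) ^ 3) →
      X.Finite ∧ (X.ncard : ℝ) ≤ (p : ℝ) ^ ((2/27 - η / 2) * (n : ℝ) ^ 3) := by
  classical
  obtain ⟨n₀, hn₀⟩ := exists_nat_ge (4 * ((K₁ : ℝ) + 3 + Cc K₁) / η)
  refine ⟨n₀ + 1, ?_⟩
  intro n hn p _ F _ d f hf hd X hX
  have hp1 : 1 < p := (Fact.out : p.Prime).one_lt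
  have hp1' : (1 : ℝ) ≤ p := by exact_mod_cast hp1.le
  rcases X.eq_empty_or_nonempty with rfl | ⟨R₀, hR₀⟩
  · refine ⟨Set.finite_empty, ?_⟩
    rw [Set.ncard_empty, Nat.cast_zero]
    positivity
  have hdn : d ≤ n := by
    obtain ⟨_, _, _, _, _, _, _, _, h, _⟩ := hX R₀ hR₀
    exact h
  have hn1 : 1 ≤ n := by omega
  have hk0 : 1 ≤ k2 := by
    rcases Nat.eq_zero_or_pos k2 with h | h
    · rw [h] at hk2
      norm_num at hk2
    · exact h
  -- the exponent
  set M : ℝ := (2/27 - 3 * η / 4) * (n : ℝ) ^ 3 + (Cc K₁ : ℝ) * (n : ℝ) ^ 2 with hM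
  set T : Finset (ℕ × ℕ × ℕ × ℕ) := (Finset.range (K₁ + 1) ×ˢ Finset.range (n + 1) ×ˢ
    Finset.range (n + 1) ×ˢ Finset.range (n + 1)).filter fun t => t.2.1 * k2 ≤ n ∧
      (t.2.2.1 : ℝ) * ((d : ℝ) ^ 2 + ((t.2.2.2 - d : ℕ) : ℝ) ^ 2) / 2 ≤ (2/27 - η) * (n : ℝ) ^ 3
    with hT
  have hsn : ∀ s : ℕ, s * k2 ≤ n → s ≤ n := fun s hs =>
    (Nat.le_mul_of_pos_right s hk0).trans hs
  have hsub : X ⊆ ⋃ t ∈ T, Str p n t.1 t.2.1 t.2.2.1 t.2.2.2 F := by
    intro R hR
    obtain ⟨K, s, c, v, hK, hs, hc, hv, _, hSt, hnum⟩ := hX R hR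
    refine Set.mem_biUnion (x := (K, s, c, v)) ?_ hSt
    rw [Finset.mem_coe, hT, Finset.mem_filter]
    simp only [Finset.mem_product, Finset.mem_range]
    have := hsn s hs
    exact ⟨⟨by omega, by omega, by omega, by omega⟩, hs, hnum⟩
  have hbd : ∀ t ∈ T, (Str p n t.1 t.2.1 t.2.2.1 t.2.2.2 F).Finite ∧
      ((Str p n t.1 t.2.1 t.2.2.1 t.2.2.2 F).ncard : ℝ) ≤ (p : ℝ) ^ M := by
    rintro ⟨K, s, c, v⟩ ht
    rw [hT, Finset.mem_filter] at ht
    simp only [Finset.mem_product, Finset.mem_range] at ht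
    obtain ⟨⟨h1, h2, h3, h4⟩, h5, h6⟩ := ht
    obtain ⟨g1, g2⟩ := hSTR p F d n K s c v f hf hd
    refine ⟨g1, ?_⟩
    have e1 := exponent (d := d) (K := K) (n := n) (s := s) (c := c) (v := v) (K₁ := K₁) hn1
      (by omega) hdn (hsn s h5) (by omega) (by omega)
    have e2 : (s : ℝ) * (n : ℝ) ^ 2 ≤ η / 4 * (n : ℝ) ^ 3 := by
      have f1 : (s : ℝ) * k2 ≤ n := by exact_mod_cast h5
      have f2 : (s : ℝ) * 4 ≤ η * n := by
        calc (s : ℝ) * 4 ≤ (s : ℝ) * (η * k2) := by gcongr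
          _ = η * ((s : ℝ) * k2) := by ring
          _ ≤ η * n := by gcongr
      have f3 : (s : ℝ) ≤ η / 4 * n := by linarith
      calc (s : ℝ) * (n : ℝ) ^ 2 ≤ (η / 4 * n) * (n : ℝ) ^ 2 := by gcongr
        _ = η / 4 * (n : ℝ) ^ 3 := by ring
    calc ((Str p n K s c v F).ncard : ℝ) ≤ ((p ^ (((d + 1) * (K * (K - 1) / 2) + d * K) + d * s +
          c * B1 d K v + n * B2 d K n s) : ℕ) : ℝ) := by exact_mod_cast g2
      _ = (p : ℝ) ^ ((((d + 1) * (K * (K - 1) / 2) + d * K) + d * s +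
          c * B1 d K v + n * B2 d K n s : ℕ) : ℝ) := by
          rw [Real.rpow_natCast]
          push_cast
          rfl
      _ ≤ (p : ℝ) ^ M := by
          refine Real.rpow_le_rpow_of_exponent_le hp1' (e1.trans ?_)
          rw [hM]
          linarith
  have hfin : (⋃ t ∈ T, Str p n t.1 t.2.1 t.2.2.1 t.2.2.2 F).Finite :=
    T.finite_toSet.biUnion fun t ht => (hbd t ht).1
  refine ⟨hfin.subset hsub, ?_⟩
  have hTc : (T.card : ℝ) ≤ (p : ℝ) ^ ((K₁ : ℝ) + 3 * n) := by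
    have e1 : T.card ≤ (K₁ + 1) * ((n + 1) * ((n + 1) * (n + 1))) := by
      refine (Finset.card_filter_le _ _).trans ?_
      simp only [Finset.card_product, Finset.card_range]
      exact le_rfl
    have e2 : ∀ a : ℕ, a + 1 ≤ p ^ a := fun a =>
      (Nat.lt_two_pow_self).trans_le (Nat.pow_le_pow_left hp1 a)
    have e3 : T.card ≤ p ^ (K₁ + 3 * n) := by
      calc T.card ≤ (K₁ + 1) * ((n + 1) * ((n + 1) * (n + 1))) := e1
        _ ≤ p ^ K₁ * (p ^ n * (p ^ n * p ^ n)) :=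
            Nat.mul_le_mul (e2 _) (Nat.mul_le_mul (e2 _) (Nat.mul_le_mul (e2 _) (e2 _)))
        _ = p ^ (K₁ + 3 * n) := by ring
    have e4 : (p : ℝ) ^ ((K₁ : ℝ) + 3 * n) = ((p ^ (K₁ + 3 * n) : ℕ) : ℝ) := by
      rw [Nat.cast_pow, ← Real.rpow_natCast]
      congr 1
      push_cast
      ring
    rw [e4]
    exact_mod_cast e3
  have hlast : (K₁ : ℝ) + 3 * n + M ≤ (2/27 - η / 2) * (n : ℝ) ^ 3 := by
    have f1 : 4 * ((K₁ : ℝ) + 3 + Cc K₁) / η ≤ n := by
      refine hn₀.trans ?_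
      exact_mod_cast (by omega : n₀ ≤ n)
    have f2 : (K₁ : ℝ) + 3 + Cc K₁ ≤ η / 4 * n := by
      rw [div_le_iff₀ hη] at f1
      linarith
    have f3 : (1 : ℝ) ≤ n := by exact_mod_cast hn1
    have f4 : (n : ℝ) ≤ (n : ℝ) ^ 2 := by nlinarith
    have f5 : (1 : ℝ) ≤ (n : ℝ) ^ 2 := by nlinarith
    have f6 : (K₁ : ℝ) + 3 * n + Cc K₁ * (n : ℝ) ^ 2 ≤ ((K₁ : ℝ) + 3 + Cc K₁) * (n : ℝ) ^ 2 := by
      have g1 : (K₁ : ℝ) ≤ K₁ * (n : ℝ) ^ 2 := by
        have : (0 : ℝ) ≤ K₁ := Nat.cast_nonneg _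
        nlinarith
      nlinarith
    have f7 : ((K₁ : ℝ) + 3 + Cc K₁) * (n : ℝ) ^ 2 ≤ (η / 4 * n) * (n : ℝ) ^ 2 := by gcongr
    have f8 : (η / 4 * n) * (n : ℝ) ^ 2 = η / 4 * (n : ℝ) ^ 3 := by ring
    rw [hM]
    linarith
  have hp0 : (0 : ℝ) < p := lt_of_lt_of_le one_pos hp1'
  calc (X.ncard : ℝ) ≤ ((⋃ t ∈ T, Str p n t.1 t.2.1 t.2.2.1 t.2.2.2 F).ncard : ℝ) := by
        exact_mod_cast Set.ncard_le_ncard hsub hfin
    _ ≤ ((∑ t ∈ T, (Str p n t.1 t.2.1 t.2.2.1 t.2.2.2 F).ncard : ℕ) : ℝ) := by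
        exact_mod_cast Finset.set_ncard_biUnion_le T _
    _ = ∑ t ∈ T, ((Str p n t.1 t.2.1 t.2.2.1 t.2.2.2 F).ncard : ℝ) := by push_cast; rfl
    _ ≤ ∑ t ∈ T, (p : ℝ) ^ M := Finset.sum_le_sum fun t ht => (hbd t ht).2
    _ = (T.card : ℝ) * (p : ℝ) ^ M := by rw [Finset.sum_const, nsmul_eq_mul]
    _ ≤ (p : ℝ) ^ ((K₁ : ℝ) + 3 * n) * (p : ℝ) ^ M := by gcongr
    _ = (p : ℝ) ^ ((K₁ : ℝ) + 3 * n + M) := (Real.rpow_add hp0 _ _).symm
    _ ≤ (p : ℝ) ^ ((2/27 - η / 2) * (n : ℝ) ^ 3) :=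
        Real.rpow_le_rpow_of_exponent_le hp1' hlast

theorem PhiP_le (p : ℕ) {F : Type} [Group F] (N : Subgroup F) : PhiP p N ≤ N := by
  unfold PhiP
  refine sup_le (Subgroup.commutator_le_self N) ?_
  rw [Subgroup.closure_le]
  rintro x ⟨y, hy, rfl⟩
  exact N.pow_mem hy p

/-- the data of a structure -/
theorem data (hDIM : SpecDIM) {p : ℕ} [Fact p.Prime] {F : Type} [Group F] {d n K s : ℕ}
    {N R : Subgroup F} {h : Fin s → F} (hd : (PhiP p (⊤ : Subgroup F)).index = p ^ d)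
    (hR : R ∈ Marked p n F) (hN : N.Normal) (hRN : R ≤ N) (hNK : N.index = p ^ K)
    (hh : ∀ j, h j ∈ N) (hc : ⁅N, N⁆ ≤ ⁅gen h, gen h⁆ ⊔ R) :
    ∃ c v j, R ∈ Str p n K s c v F ∧ (⁅N, N⁆ ⊔ R).relIndex ⁅(⊤ : Subgroup F), ⊤⁆ = p ^ j ∧
      K + v + c ≤ n ∧ c + j + d ≤ n := by
  have hp : p.Prime := Fact.out
  obtain ⟨hRn, hRP, hRi⟩ := id hR
  obtain ⟨c, _, hc1⟩ : ∃ c ≤ n, R.relIndex ⁅N, N⁆ = p ^ c := by
    have h1 : R.relIndex ⁅N, N⁆ ∣ p ^ n := hRi ▸ Subgroup.relIndex_dvd_index_of_normal R _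
    exact (Nat.dvd_prime_pow hp).1 h1
  obtain ⟨v, _, hv1⟩ : ∃ v ≤ n, (PhiP p N ⊔ R).relIndex N = p ^ v := by
    have h1 : (PhiP p N ⊔ R).relIndex N ∣ p ^ n := by
      have h2 : (PhiP p N ⊔ R).relIndex N ∣ (PhiP p N ⊔ R).index :=
        ⟨N.index, (Subgroup.relIndex_mul_index (sup_le (PhiP_le p N) hRN)).symm⟩
      exact h2.trans (hRi ▸ Subgroup.index_dvd_of_le le_sup_right)
    exact (Nat.dvd_prime_pow hp).1 h1
  obtain ⟨j, _, hj1⟩ : ∃ j ≤ n, (⁅N, N⁆ ⊔ R).relIndex ⁅(⊤ : Subgroup F), ⊤⁆ = p ^ j := by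
    have h1 : (⁅N, N⁆ ⊔ R).relIndex ⁅(⊤ : Subgroup F), ⊤⁆ ∣ p ^ n := by
      refine (Subgroup.relIndex_dvd_of_le_left (H := R) (K := ⁅N, N⁆ ⊔ R) _ le_sup_right).trans ?_
      exact hRi ▸ Subgroup.relIndex_dvd_index_of_normal R _
    exact (Nat.dvd_prime_pow hp).1 h1
  obtain ⟨h2, h3⟩ := hDIM p F d n K c v j N R hd hR hN hRN hNK hc1 hv1 hj1
  exact ⟨c, v, j, ⟨hR, N, h, hN, hRN, hNK, hh, hc, hc1, hv1⟩, hj1, h2, h3⟩

/-- the numerical condition -/
theorem numeric {ε η : ℝ} (hNUM : ∀ y x C : ℝ, 7/50 ≤ y → 0 ≤ x → 0 ≤ C → y + C ≤ 1 →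
    x + y + C ≤ 1 → (y + C ≤ 1 - ε ∨ ε ≤ |y - 2/3|) → C * (y ^ 2 + x ^ 2) / 2 ≤ 2/27 - η)
    {n d c v : ℕ} (hn : 1 ≤ n) (hd : 7/50 * (n : ℝ) ≤ d) (h1 : v + c ≤ n) (h2 : c + d ≤ n)
    (h3 : (d : ℝ) + c ≤ (1 - ε) * n ∨ ε * n ≤ |(d : ℝ) - 2/3 * n|) :
    (c : ℝ) * ((d : ℝ) ^ 2 + ((v - d : ℕ) : ℝ) ^ 2) / 2 ≤ (2/27 - η) * (n : ℝ) ^ 3 := by
  have hn0 : (0 : ℝ) < n := by exact_mod_cast hn
  have e1 : (c : ℝ) + d ≤ n := by exact_mod_cast h2
  have e2 : ((v - d : ℕ) : ℝ) + d + c ≤ n := by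
    have : (v - d) + d + c ≤ n := by omega
    exact_mod_cast this
  have key := hNUM (d / n) (((v - d : ℕ) : ℝ) / n) (c / n) (by rw [le_div_iff₀ hn0]; exact hd)
    (by positivity) (by positivity) (by rw [← add_div, div_le_one hn0]; linarith)
    (by rw [← add_div, ← add_div, div_le_one hn0]; exact e2) (by
      rcases h3 with h3 | h3
      · left
        rw [← add_div, div_le_iff₀ hn0]
        exact h3
      · right
        have e3 : (d : ℝ) / n - 2/3 = ((d : ℝ) - 2/3 * n) / n := by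
          field_simp
        rw [e3, abs_div, abs_of_pos hn0, le_div_iff₀ hn0]
        exact h3)
  have e4 : (c : ℝ) * ((d : ℝ) ^ 2 + ((v - d : ℕ) : ℝ) ^ 2) / 2 =
      ((c / n : ℝ) * (((d : ℝ) / n) ^ 2 + (((v - d : ℕ) : ℝ) / n) ^ 2) / 2) * (n : ℝ) ^ 3 := by
    field_simp
  rw [e4]
  exact mul_le_mul_of_nonneg_right key (by positivity)

end E7M

open E7M in
theorem specE7 (hE5 : SpecE5) (hE6 : SpecE6) (hSTR : SpecSTR) (hDIM : SpecDIM) (hNUM : SpecNUM)
    (hSMD : SpecSMD) : SpecE7 := by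
  intro k hk
  obtain ⟨B, k', n₅, hk', hE5'⟩ := hE5 k hk
  have hk'0 : (0 : ℝ) < k' := by exact_mod_cast hk'
  obtain ⟨η, hη, hN⟩ := hNUM (1 / k') (by positivity)
  obtain ⟨k2, hk2⟩ := exists_nat_ge (4 / η)
  have hk2' : 4 ≤ η * k2 := by
    rw [div_le_iff₀ hη] at hk2
    linarith
  have hk20 : 1 ≤ k2 := by
    rcases Nat.eq_zero_or_pos k2 with h | h
    · rw [h] at hk2'
      norm_num at hk2'
    · exact h
  obtain ⟨K₀, n₆, hE6'⟩ := hE6 k2 hk20
  obtain ⟨cs, ns, hcs, hSMD'⟩ := hSMD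
  obtain ⟨n₇, hcount⟩ := count hSTR η hη (B + K₀) k2 hk2'
  refine ⟨min cs (η / 2), n₅ + n₆ + ns + n₇ + 1, lt_min hcs (half_pos hη), ?_⟩
  intro n hn p _ F _ d f hf hd
  have hp : p.Prime := Fact.out
  have hp1 : (1 : ℝ) ≤ p := by exact_mod_cast hp.one_lt.le
  have hn1 : 1 ≤ n := by omega
  set X : Set (Subgroup F) := {R | R ∈ Marked p n F ∧ ¬ NonDeg k n R} with hX
  have hmon : ∀ a : ℝ, min cs (η / 2) ≤ a →
      (p : ℝ) ^ ((2/27 - a) * (n : ℝ) ^ 3) ≤ (p : ℝ) ^ ((2/27 - min cs (η / 2)) * (n : ℝ) ^ 3) := by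
    intro a ha
    refine Real.rpow_le_rpow_of_exponent_le hp1 ?_
    have : (0 : ℝ) ≤ (n : ℝ) ^ 3 := by positivity
    nlinarith
  rcases le_or_gt (d : ℝ) (7/50 * n) with hdn | hdn
  · obtain ⟨h1, h2⟩ := hSMD' n (by omega) p F d f hf hdn
    have hsub : X ⊆ Marked p n F := fun R hR => hR.1
    refine ⟨h1.subset hsub, ?_⟩
    have h3 : (X.ncard : ℝ) ≤ (Marked p n F).ncard := by exact_mod_cast Set.ncard_le_ncard hsub h1
    exact h3.trans (h2.trans (hmon cs (min_le_left _ _)))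
  · obtain ⟨h1, h2⟩ := hcount n (by omega) p F d f hf hd X (by
      rintro R ⟨hR, hnd⟩
      obtain ⟨hRn, hRP, hRi⟩ := id hR
      have hex : ∃ m ≤ n, R.index = p ^ m := ⟨n, le_rfl, hRi⟩
      have hcase := hE5' n (by omega) p F ⊤ R inferInstance hRn le_top hex
      rcases hcase with ⟨s, h, hs, _, hh⟩ | ⟨N', hN'n, hRN', _, ⟨b, hb, hNb⟩, j, hj, hj'⟩
      · exact absurd ⟨s, h, hs, hh⟩ hnd
      · obtain ⟨N, s, h, hNn, hRN, hNN', ⟨b', hb', hNb'⟩, hs, hh, hc⟩ :=
          hE6' n (by omega) p F N' R hN'n hRn hRN' hex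
        have hNK : N.index = p ^ (b' + b) := by
          rw [← Subgroup.relIndex_mul_index hNN', hNb', ← Subgroup.relIndex_top_right N', hNb,
            pow_add]
        obtain ⟨c, v, j2, hSt, hj2, e1, e2⟩ := data hDIM hd hR hNn hRN hNK hh hc
        have hjj : j ≤ j2 := by
          have g1 : ⁅N, N⁆ ⊔ R ≤ ⁅N', N'⁆ ⊔ R :=
            sup_le_sup_right (Subgroup.commutator_mono hNN' hNN') R
          have g2 : p ^ j ∣ p ^ j2 := by
            rw [← hj', ← hj2]
            exact Subgroup.relIndex_dvd_of_le_left _ g1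
          exact (Nat.pow_dvd_pow_iff_le_right hp.one_lt).1 g2
        refine ⟨b' + b, s, c, v, by omega, hs, by omega, by omega, by omega, hSt, ?_⟩
        refine numeric hN hn1 hdn.le (by omega) (by omega) (Or.inl ?_)
        have g3 : (n : ℝ) ≤ k' * j2 := by
          have : n ≤ k' * j2 := hj.trans (Nat.mul_le_mul_left _ hjj)
          exact_mod_cast this
        have g4 : (c : ℝ) + j2 + d ≤ n := by exact_mod_cast e2
        have g5 : (n : ℝ) / k' ≤ j2 := by
          rw [div_le_iff₀ hk'0]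
          linarith
        have g6 : (1 - 1 / (k' : ℝ)) * n = n - n / k' := by
          field_simp
        rw [g6]
        linarith)
    exact ⟨h1, h2.trans (hmon _ (min_le_right _ _))⟩

end Pool.Agent.Lib.MP4ccb00.E
end

section
/-!
# MP_4ccb00_al, part (e): module E8 (`d` far from `2n/3`)
-/
set_option autoImplicit false

namespace Pool.Agent.Lib.MP4ccb00.E

open scoped commutatorElement

open E7M in
theorem specE8 (hE6 : SpecE6) (hSTR : SpecSTR) (hDIM : SpecDIM) (hNUM : SpecNUM)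
    (hSMD : SpecSMD) : SpecE8 := by
  intro ε hε
  obtain ⟨η, hη, hN⟩ := hNUM ε hε
  obtain ⟨k2, hk2⟩ := exists_nat_ge (4 / η)
  have hk2' : 4 ≤ η * k2 := by
    rw [div_le_iff₀ hη] at hk2
    linarith
  have hk20 : 1 ≤ k2 := by
    rcases Nat.eq_zero_or_pos k2 with h | h
    · rw [h] at hk2'
      norm_num at hk2'
    · exact h
  obtain ⟨K₀, n₆, hE6'⟩ := hE6 k2 hk20
  obtain ⟨cs, ns, hcs, hSMD'⟩ := hSMD
  obtain ⟨n₇, hcount⟩ := count hSTR η hη K₀ k2 hk2'
  refine ⟨min cs (η / 2), n₆ + ns + n₇ + 1, lt_min hcs (half_pos hη), ?_⟩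
  intro n hn p _ F _ d f hf hd hfar
  have hp : p.Prime := Fact.out
  have hp1 : (1 : ℝ) ≤ p := by exact_mod_cast hp.one_lt.le
  have hn1 : 1 ≤ n := by omega
  have hmon : ∀ a : ℝ, min cs (η / 2) ≤ a →
      (p : ℝ) ^ ((2/27 - a) * (n : ℝ) ^ 3) ≤ (p : ℝ) ^ ((2/27 - min cs (η / 2)) * (n : ℝ) ^ 3) := by
    intro a ha
    refine Real.rpow_le_rpow_of_exponent_le hp1 ?_
    have : (0 : ℝ) ≤ (n : ℝ) ^ 3 := by positivity
    nlinarith
  rcases le_or_gt (d : ℝ) (7/50 * n) with hdn | hdn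
  · obtain ⟨h1, h2⟩ := hSMD' n (by omega) p F d f hf hdn
    exact ⟨h1, h2.trans (hmon cs (min_le_left _ _))⟩
  · obtain ⟨h1, h2⟩ := hcount n (by omega) p F d f hf hd (Marked p n F) (by
      intro R hR
      obtain ⟨hRn, hRP, hRi⟩ := id hR
      have hex : ∃ m ≤ n, R.index = p ^ m := ⟨n, le_rfl, hRi⟩
      obtain ⟨N, s, h, hNn, hRN, _, ⟨b, hb, hNb⟩, hs, hh, hc⟩ :=
        hE6' n (by omega) p F ⊤ R inferInstance hRn le_top hex
      have hNK : N.index = p ^ b := by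
        rw [← Subgroup.relIndex_top_right N, hNb]
      obtain ⟨c, v, j2, hSt, hj2, e1, e2⟩ := data hDIM hd hR hNn hRN hNK hh hc
      refine ⟨b, s, c, v, by omega, hs, by omega, by omega, by omega, hSt, ?_⟩
      exact numeric hN hn1 hdn.le (by omega) (by omega) (Or.inr hfar))
    exact ⟨h1, h2.trans (hmon _ (min_le_right _ _))⟩

end Pool.Agent.Lib.MP4ccb00.E
end

section
/-!
# MP_4ccb00_al, part N, module FIB: counting by fibres
-/
set_option autoImplicit false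

namespace Pool.Agent.Lib.MP4ccb00.N

open Subgroup Module E

theorem specFIB : SpecFIB := by
  intro α β φ S T N M hT hN hφ hM
  have hsub : S ⊆ ⋃ b ∈ T, {a | a ∈ S ∧ φ a = b} := by
    intro a ha
    simp only [Set.mem_iUnion]
    exact ⟨φ a, hφ a ha, ha, rfl⟩
  obtain ⟨h1, h2⟩ := E4M.union_bound T hT (fun b => {a | a ∈ S ∧ φ a = b}) N M hN hM
  exact ⟨h1.subset hsub, (Set.ncard_le_ncard hsub h1).trans h2⟩

end Pool.Agent.Lib.MP4ccb00.N
end

section
/-!
# MP_4ccb00_al, part N, module YFI: the fine bound for subgroups of the Frattini subgroup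
-/
set_option autoImplicit false

namespace Pool.Agent.Lib.MP4ccb00.N

open Subgroup Module E

open scoped commutatorElement

theorem specYFI (hYPH : SpecYPH) : SpecYFI := by
  intro p hp Γ _ s j x A hx hA hAP hj hm
  have hprime : p.Prime := Fact.out
  have hP : (PhiP p (⊤ : Subgroup Γ)).Normal := by
    constructor
    intro n hn g
    have h1 : g * n * g⁻¹ = ⁅g, n⁆ * n := by
      rw [commutatorElement_def]
      group
    rw [h1]
    exact mul_mem (Subgroup.mem_sup_left (Subgroup.commutator_mem_commutator trivial trivial)) hn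
  induction j generalizing A with
  | zero =>
    rw [pow_zero, Subgroup.relIndex_eq_one] at hj
    have : A = PhiP p (⊤ : Subgroup Γ) := le_antisymm hAP hj
    subst this
    exact Base.dle_mono (hYPH p Γ s x hx) (Nat.le_add_right _ _)
  | succ j ih =>
    obtain ⟨m, hm⟩ := hm
    have hlt : A < PhiP p (⊤ : Subgroup Γ) := by
      refine lt_of_le_of_ne hAP ?_
      rintro h
      rw [h, Subgroup.relIndex_self] at hj
      have : 1 < p ^ (j + 1) := Nat.one_lt_pow (Nat.succ_ne_zero j) hprime.one_lt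
      omega
    obtain ⟨R1, m1, hR1, hlt1, hle1, hidx, hmm, hR1i, hpow, hcom, hcyc⟩ :=
      AYM.step p Γ A _ hA hP m hm hlt
    obtain ⟨z, hz, hz'⟩ := SetLike.exists_of_lt hlt1
    have hj1 : R1.relIndex (PhiP p (⊤ : Subgroup Γ)) = p ^ j := by
      have h5 := Subgroup.relIndex_mul_relIndex A R1 _ hlt1.le hle1
      rw [hidx, hj, pow_succ, mul_comm] at h5
      exact Nat.eq_of_mul_eq_mul_right hprime.pos h5
    have h1 := ih R1 hR1 hle1 hj1 ⟨m1, hR1i⟩
    have h2 := specEXT p Γ A R1 ⊥ ⊥ z s (s * (s + 1) / 2 + (s + 1) * j) x hA hR1 inferInstance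
      hlt1.le hz hz' (hpow z hz) (hcyc z hz hz') (hcom z hz)
      (fun c hc => by rw [Subgroup.mem_bot.1 hc, commutatorElement_one_right]; exact one_mem _)
      (by rw [hx, top_sup_eq]) (Or.inl (by simp)) h1
    refine Base.dle_mono h2 ?_
    have : (s + 1) * (j + 1) = (s + 1) * j + (s + 1) := by ring
    omega

end Pool.Agent.Lib.MP4ccb00.N
end
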