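import Pool.Agent.Lib.MP_4ccb00_al.N.Spec
import Pool.Agent.Lib.MP_4ccb00_al.N.YFI
import Pool.Agent.Lib.MP_4ccb00_al.N.SPT

section
/-!
Module CRG: the count of `R` between `⁅A,⊤⁆` and `A` with the Grassmannian saving.
-/
set_option autoImplicit false

namespace Pool.Agent.Lib.MP4ccb00.N

open Subgroup Module E

open scoped commutatorElement

namespace CRGM

variable {Γ : Type} [Group Γ]

/-- `A / R` as a vector space -/
theorem exists_space (p : ℕ) {A R : Subgroup Γ}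
    (hc : ⁅A, (⊤ : Subgroup Γ)⁆ ≤ R) (hpw : ∀ u ∈ A, u ^ p ∈ R) :
    ∃ (V : Type) (_ : AddCommGroup V) (_ : Module (ZMod p) V) (q : ↥A → V),
      Function.Surjective q ∧ (∀ a b, q (a * b) = q a + q b) ∧ (∀ a, q a = 0 ↔ a.1 ∈ R) ∧
      Nat.card V = R.relIndex A := by
  set N : Subgroup ↥A := R.subgroupOf A with hN
  have hcm : ∀ a : ↥A, ∀ g : Γ, ⁅a.1, g⁆ ∈ R := fun a g =>
    hc (commutator_mem_commutator a.2 (mem_top g))
  have hNn : N.Normal := by
    refine ⟨fun n hn g => ?_⟩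
    have hn' : n.1 ∈ R := hn
    show (g * n * g⁻¹).1 ∈ R
    have h1 : (g * n * g⁻¹).1 = ⁅g.1, n.1⁆ * n.1 := by
      rw [commutatorElement_def]
      push_cast
      group
    rw [h1]
    exact mul_mem (hcm g n.1) hn'
  have hcomm : ∀ a b : ↥A ⧸ N, a * b = b * a := by
    intro a b
    induction a using QuotientGroup.induction_on with
    | H a =>
      induction b using QuotientGroup.induction_on with
      | H b =>
        rw [← QuotientGroup.mk_mul, ← QuotientGroup.mk_mul, QuotientGroup.eq]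
        show ((a * b)⁻¹ * (b * a)).1 ∈ R
        have h1 : ((a * b)⁻¹ * (b * a)).1 = ⁅b.1⁻¹, a.1⁻¹⁆ := by
          rw [commutatorElement_def]
          push_cast
          group
        rw [h1]
        exact hcm b⁻¹ a.1⁻¹
  let hG : AddCommGroup (Additive (↥A ⧸ N)) :=
    { (inferInstance : AddGroup (Additive (↥A ⧸ N))) with
      add_comm := fun a b => hcomm a.toMul b.toMul }
  have hM : ∀ x : Additive (↥A ⧸ N), p • x = 0 := by
    intro x
    obtain ⟨a, ha⟩ := QuotientGroup.mk_surjective (Additive.toMul x)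
    have h1 : ((a ^ p : ↥A) : ↥A ⧸ N) = 1 := by
      rw [QuotientGroup.eq_one_iff]
      exact hpw a.1 a.2
    have h2 : (Additive.toMul x) ^ p = 1 := by
      rw [← ha, ← QuotientGroup.mk_pow, h1]
    exact h2
  refine ⟨Additive (↥A ⧸ N), hG, AddCommGroup.zmodModule hM,
    fun a => Additive.ofMul (a : ↥A ⧸ N), ?_, ?_, ?_, rfl⟩
  · intro x
    obtain ⟨a, ha⟩ := QuotientGroup.mk_surjective (Additive.toMul x)
    exact ⟨a, congrArg Additive.ofMul ha⟩
  · intro a b
    rfl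
  · intro a
    exact QuotientGroup.eq_one_iff (N := N) a

theorem dual (p : ℕ) [hfp : Fact p.Prime] {A R : Subgroup Γ} (hA : A.Normal)
    (hc : ⁅A, (⊤ : Subgroup Γ)⁆ ≤ R) (hpw : ∀ u ∈ A, u ^ p ∈ R) {e : ℕ}
    (he : R.relIndex A = p ^ e) :
    finrank (ZMod p) (YY p ⊤ A R) = e ∧ ∀ x ∈ A, (∀ φ ∈ YY p ⊤ A R, φ x = 0) → x ∈ R := by
  classical
  have hp : p.Prime := hfp.out
  obtain ⟨V, i1, i2, q, hq, hqm, hq0, hcard⟩ := exists_space p hc hpw
  rw [he] at hcard
  have hfin : Finite V :=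
    Nat.finite_of_card_ne_zero (by rw [hcard]; exact (pow_pos hp.pos e).ne')
  have hfr : finrank (ZMod p) V = e := by
    have h1 := Module.natCard_eq_pow_finrank (K := ZMod p) (V := V)
    rw [hcard, Nat.card_zmod] at h1
    exact (Nat.pow_right_injective hp.two_le h1).symm
  have hqe : ∀ a b : ↥A, a.1 * b.1⁻¹ ∈ R → q a = q b := by
    intro a b h
    have h1 : q (a * b⁻¹) = 0 := (hq0 _).2 h
    have h2 : a = (a * b⁻¹) * b := by group
    rw [h2, hqm, h1, zero_add]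
  have hval : ∀ ψ : Module.Dual (ZMod p) V,
      (fun x : Γ => if h : x ∈ A then ψ (q ⟨x, h⟩) else 0) ∈ YY p ⊤ A R := by
    intro ψ
    refine ⟨?_, ?_, ?_, ?_⟩
    · intro x hx
      simp only [dif_neg hx]
    · intro x hx y hy
      simp only [dif_pos hx, dif_pos hy, dif_pos (mul_mem hx hy)]
      rw [← map_add, ← hqm]
      rfl
    · intro g _ x hx
      simp only [dif_pos hx, dif_pos (hA.conj_mem x hx g)]
      congr 1
      apply hqe
      show (g * x * g⁻¹) * x⁻¹ ∈ R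
      have h1 : (g * x * g⁻¹) * x⁻¹ = (⁅x, g⁆)⁻¹ := by
        rw [commutatorElement_def]; group
      rw [h1]
      exact inv_mem (hc (commutator_mem_commutator hx (mem_top g)))
    · intro x hx hxR
      simp only [dif_pos hx]
      rw [(hq0 ⟨x, hx⟩).2 hxR, map_zero]
  let Φ : Module.Dual (ZMod p) V →ₗ[ZMod p] YY p ⊤ A R :=
    { toFun := fun ψ => ⟨_, hval ψ⟩
      map_add' := by
        intro ψ ψ'
        apply Subtype.ext
        funext x
        by_cases h : x ∈ A <;> simp [h]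
      map_smul' := by
        intro c ψ
        apply Subtype.ext
        funext x
        by_cases h : x ∈ A <;> simp [h] }
  have hΦ : Function.Injective Φ := by
    intro ψ ψ' h
    apply LinearMap.ext
    intro x
    obtain ⟨a, rfl⟩ := hq x
    have h1 := congrFun (congrArg Subtype.val h) a.1
    have h2 : ∀ θ : Module.Dual (ZMod p) V, (Φ θ).1 a.1 = θ (q a) := fun θ => dif_pos a.2
    rw [h2, h2] at h1
    exact h1
  obtain ⟨hf1, hf2⟩ := specHOM p Γ ⊤ A R e (dvd_of_eq he)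
  constructor
  · apply le_antisymm hf2
    have h1 := LinearMap.finrank_le_finrank_of_injective hΦ
    rw [Subspace.dual_finrank_eq, hfr] at h1
    exact h1
  · intro x hx h
    have h1 : ∀ ψ : Module.Dual (ZMod p) V, ψ (q ⟨x, hx⟩) = 0 := by
      intro ψ
      have h2 := h _ (hval ψ)
      simp only [dif_pos hx] at h2
      exact h2
    exact (hq0 ⟨x, hx⟩).1 ((Module.forall_dual_apply_eq_zero_iff (ZMod p) _).1 h1)

/-- the subgroup generated by the `p`-th powers of the elements of `A` -/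
abbrev Pw (p : ℕ) (A : Subgroup Γ) : Subgroup Γ := closure {w | ∃ u ∈ A, w = u ^ p}

/-- the subgroups with elementary abelian central quotient of order `p ^ e` -/
def TopSet (p e : ℕ) (A : Subgroup Γ) : Set (Subgroup Γ) :=
  {R | ⁅A, (⊤ : Subgroup Γ)⁆ ≤ R ∧ Pw p A ≤ R ∧ R ≤ A ∧ R.relIndex A = p ^ e}

theorem top_count (hGBF : SpecGBF) (p : ℕ) [hfp : Fact p.Prime] {A : Subgroup Γ} (hA : A.Normal)
    (hY : Module.Finite (ZMod p) (YY p ⊤ A ⊥)) (e : ℕ) :
    (TopSet p e A).Finite ∧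
      (TopSet p e A).ncard ≤ gb p (finrank (ZMod p) (YY p ⊤ A ⊥)) e := by
  classical
  have hp : p.Prime := hfp.out
  have hdual : ∀ R ∈ TopSet p e A, finrank (ZMod p) (YY p ⊤ A R) = e ∧
      ∀ x ∈ A, (∀ φ ∈ YY p ⊤ A R, φ x = 0) → x ∈ R := by
    rintro R ⟨h1, h2, h3, h4⟩
    exact dual p hA h1 (fun u hu => h2 (Subgroup.subset_closure ⟨u, hu, rfl⟩)) h4
  have hle : ∀ R : Subgroup Γ, YY p ⊤ A R ≤ YY p ⊤ A ⊥ := fun R => Base.yy_mono le_rfl bot_le
  let Ψ : TopSet p e A → {W : Submodule (ZMod p) (YY p ⊤ A ⊥) // finrank (ZMod p) W = e} :=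
    fun R => ⟨(YY p ⊤ A R.1).comap (YY p ⊤ A ⊥).subtype, by
      rw [(Submodule.comapSubtypeEquivOfLe (hle R.1)).finrank_eq]
      exact (hdual R.1 R.2).1⟩
  have hΨ : Function.Injective Ψ := by
    intro R R' h
    have h1 : (YY p ⊤ A R.1).comap (YY p ⊤ A ⊥).subtype =
      (YY p ⊤ A R'.1).comap (YY p ⊤ A ⊥).subtype := congrArg Subtype.val h
    have h2 : ∀ φ, φ ∈ YY p ⊤ A R.1 ↔ φ ∈ YY p ⊤ A R'.1 := by
      intro φ
      constructor
      · intro hφ
        have h3 : (⟨φ, hle _ hφ⟩ : YY p ⊤ A ⊥) ∈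
            (YY p ⊤ A R.1).comap (YY p ⊤ A ⊥).subtype := hφ
        rw [h1] at h3
        exact h3
      · intro hφ
        have h3 : (⟨φ, hle _ hφ⟩ : YY p ⊤ A ⊥) ∈
            (YY p ⊤ A R'.1).comap (YY p ⊤ A ⊥).subtype := hφ
        rw [← h1] at h3
        exact h3
    apply Subtype.ext
    apply le_antisymm
    · intro x hx
      refine (hdual R'.1 R'.2).2 x (R.2.2.2.1 hx) ?_
      intro φ hφ
      exact ((h2 φ).2 hφ).2.2.2 x (R.2.2.2.1 hx) hx
    · intro x hx
      refine (hdual R.1 R.2).2 x (R'.2.2.2.1 hx) ?_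
      intro φ hφ
      exact ((h2 φ).1 hφ).2.2.2 x (R'.2.2.2.1 hx) hx
  have hfinY : Finite (YY p ⊤ A ⊥) := Module.finite_of_finite (ZMod p)
  have hfin1 : Finite {W : Submodule (ZMod p) (YY p ⊤ A ⊥) // finrank (ZMod p) W = e} := by
    have : Finite (Submodule (ZMod p) (YY p ⊤ A ⊥)) := inferInstance
    infer_instance
  have hfin2 : Finite (TopSet p e A) := Finite.of_injective Ψ hΨ
  refine ⟨Set.toFinite _, ?_⟩
  calc (TopSet p e A).ncard = Nat.card (TopSet p e A) := rfl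
    _ ≤ Nat.card {W : Submodule (ZMod p) (YY p ⊤ A ⊥) // finrank (ZMod p) W = e} :=
        Nat.card_le_card_of_injective Ψ hΨ
    _ = gb p (finrank (ZMod p) (YY p ⊤ A ⊥)) e :=
        (hGBF p (finrank (ZMod p) (YY p ⊤ A ⊥)) e hp).2.2 _ rfl

end CRGM

open CRGM in
theorem specCRG (hFIB : SpecFIB) (hCRS : SpecCRS) (hGBF : SpecGBF) (hGBB : SpecGBB) :
    SpecCRG := by
  intro p hfp Γ _ y c b A hA hAi hY
  classical
  have hp : p.Prime := hfp.out
  set y' := finrank (ZMod p) (YY p ⊤ A ⊥) with hy'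
  have hyy : y' ≤ y := hY.2
  set S : ℕ → Set (Subgroup Γ) := fun b' => {R | ⁅A, (⊤ : Subgroup Γ)⁆ ≤ R ∧ R ≤ A ∧
    R.relIndex A = p ^ c ∧ R.relIndex (R ⊔ Pw p A) = p ^ b'} with hS
  have hPA : Pw p A ≤ A := by
    rw [closure_le]
    rintro _ ⟨u, hu, rfl⟩
    exact pow_mem hu p
  -- one value of `b'`
  have hone : ∀ b' ≤ c, (S b').Finite ∧ (S b').ncard ≤ gb p y' (c - b') * p ^ (b' * y) := by
    intro b' hb'
    obtain ⟨ht1, ht2⟩ := top_count hGBF p hA hY.1 (c - b')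
    refine hFIB (Subgroup Γ) (Subgroup Γ) (fun R => R ⊔ Pw p A) (S b') (TopSet p (c - b') A) _ _
      ht1 ht2 ?_ ?_
    · rintro R ⟨h1, h2, h3, h4⟩
      refine ⟨h1.trans le_sup_left, le_sup_right, sup_le h2 hPA, ?_⟩
      have h5 := Subgroup.relIndex_mul_relIndex R (R ⊔ Pw p A) A le_sup_left (sup_le h2 hPA)
      rw [h4, h3] at h5
      have h6 : p ^ c = p ^ b' * p ^ (c - b') := by rw [← pow_add]; congr 1; omega
      rw [h6] at h5
      exact Nat.eq_of_mul_eq_mul_left (pow_pos hp.pos b') h5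
    · rintro T ⟨h1, h2, h3, h4⟩
      have hTi : ∃ m, T.index = p ^ m := by
        obtain ⟨m, hm⟩ := hAi
        refine ⟨(c - b') + m, ?_⟩
        rw [← Subgroup.relIndex_mul_index h3, h4, hm, pow_add]
      obtain ⟨hc1, hc2⟩ := hCRS p Γ y b' A T hA h1 h3 hTi hY
      have hsub : {R | R ∈ S b' ∧ R ⊔ Pw p A = T} ⊆
          {R : Subgroup Γ | ⁅A, (⊤ : Subgroup Γ)⁆ ≤ R ∧ R ≤ T ∧ R.relIndex T = p ^ b'} := by
        rintro R ⟨⟨k1, k2, k3, k4⟩, hRT⟩
        refine ⟨k1, ?_, ?_⟩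
        · rw [← hRT]; exact le_sup_left
        · rw [← hRT]; exact k4
      exact ⟨hc1.subset hsub, (Set.ncard_le_ncard hsub hc1).trans hc2⟩
  have hbig : ∀ b', c < b' → S b' = ∅ := by
    intro b' hb'
    rw [Set.eq_empty_iff_forall_notMem]
    rintro R ⟨h1, h2, h3, h4⟩
    have h5 := Subgroup.relIndex_mul_relIndex R (R ⊔ Pw p A) A le_sup_left (sup_le h2 hPA)
    rw [h4, h3] at h5
    have h6 : p ^ b' ∣ p ^ c := ⟨_, h5.symm⟩
    have h7 := (Nat.pow_dvd_pow_iff_le_right hp.one_lt).1 h6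
    omega
  have hfin : ∀ b', (S b').Finite := by
    intro b'
    rcases le_or_gt b' c with h | h
    · exact (hone b' h).1
    · rw [hbig b' h]; exact Set.finite_empty
  have hbd : ∀ b' ≤ b, (S b').ncard * p ^ ((c - b) ^ 2) ≤ 4 * p ^ (c * y) := by
    intro b' hb'
    rcases le_or_gt b' c with h | h
    · have h1 := (hone b' h).2
      rcases le_or_gt (c - b') y' with he | he
      · have h2 := (hGBB p y' (c - b') hp he).2
        set e := c - b' with hedef
        have hce : c = e + b' := by omega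
        calc (S b').ncard * p ^ ((c - b) ^ 2)
            ≤ ((4 * p ^ (e * (y' - e))) * p ^ (b' * y)) * p ^ ((c - b) ^ 2) :=
              Nat.mul_le_mul_right _ (h1.trans (Nat.mul_le_mul_right _ h2))
          _ = 4 * p ^ (e * (y' - e) + b' * y + (c - b) ^ 2) := by
              rw [pow_add, pow_add]; ring
          _ ≤ 4 * p ^ (c * y) := by
              refine Nat.mul_le_mul_left _ (Nat.pow_le_pow_right hp.pos ?_)
              have h3 : (c - b) ^ 2 ≤ e ^ 2 := Nat.pow_le_pow_left (by omega) 2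
              have h4 : e * (y' - e) + e ^ 2 = e * y' := by
                rw [pow_two, ← Nat.mul_add, Nat.sub_add_cancel he]
              have h5 : e * y' ≤ e * y := Nat.mul_le_mul_left _ hyy
              have h6 : c * y = e * y + b' * y := by rw [hce]; ring
              omega
      · have h2 := (hGBF p y' (c - b') hp).2.1 he
        rw [h2, zero_mul] at h1
        have h3 : (S b').ncard = 0 := Nat.le_zero.1 h1
        rw [h3, zero_mul]
        exact Nat.zero_le _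
    · rw [hbig b' h, Set.ncard_empty, zero_mul]
      exact Nat.zero_le _
  set G : Set (Subgroup Γ) := {R : Subgroup Γ | ⁅A, (⊤ : Subgroup Γ)⁆ ≤ R ∧ R ≤ A ∧
    R.relIndex A = p ^ c ∧
    R.relIndex (R ⊔ closure {w | ∃ u ∈ A, w = u ^ p}) ≤ p ^ b} with hG
  have hGS : G ⊆ ⋃ b' ∈ Finset.range (b + 1), S b' := by
    rintro R ⟨h1, h2, h3, h4⟩
    have h5 := Subgroup.relIndex_mul_relIndex R (R ⊔ Pw p A) A le_sup_left (sup_le h2 hPA)
    rw [h3] at h5
    obtain ⟨b', -, hb'⟩ := (Nat.dvd_prime_pow hp).1 (Dvd.intro _ h5)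
    have h6 : b' ≤ b := by
      have h7 : p ^ b' ≤ p ^ b := by rw [← hb']; exact h4
      exact (Nat.pow_le_pow_iff_right hp.one_lt).1 h7
    simp only [Set.mem_iUnion, Finset.mem_range]
    exact ⟨b', by omega, h1, h2, h3, hb'⟩
  have hUfin : (⋃ b' ∈ Finset.range (b + 1), S b').Finite :=
    Set.Finite.biUnion (Finset.finite_toSet _) (fun b' _ => hfin b')
  refine ⟨hUfin.subset hGS, ?_⟩
  calc G.ncard * p ^ ((c - b) ^ 2)
      ≤ (⋃ b' ∈ Finset.range (b + 1), S b').ncard * p ^ ((c - b) ^ 2) :=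
        Nat.mul_le_mul_right _ (Set.ncard_le_ncard hGS hUfin)
    _ ≤ (∑ b' ∈ Finset.range (b + 1), (S b').ncard) * p ^ ((c - b) ^ 2) :=
        Nat.mul_le_mul_right _ (Finset.set_ncard_biUnion_le _ _)
    _ = ∑ b' ∈ Finset.range (b + 1), (S b').ncard * p ^ ((c - b) ^ 2) := Finset.sum_mul _ _ _
    _ ≤ ∑ _b' ∈ Finset.range (b + 1), 4 * p ^ (c * y) :=
        Finset.sum_le_sum fun b' hb' => hbd b' (by rw [Finset.mem_range] at hb'; omega)
    _ = 4 * (b + 1) * p ^ (c * y) := by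
        rw [Finset.sum_const, Finset.card_range, smul_eq_mul]; ring

end Pool.Agent.Lib.MP4ccb00.N
end

section
/-!
# MP_4ccb00_al, part (d), module PHS
-/
set_option autoImplicit false

namespace Pool.Agent.Lib.MP4ccb00.N

open Subgroup Module E

open scoped commutatorElement

namespace PHSM

theorem phi_map_le (p : ℕ) {F G : Type} [Group F] [Group G] (f : F →* G) :
    (PhiP p (⊤ : Subgroup F)).map f ≤ PhiP p (⊤ : Subgroup G) := by
  rw [PhiP, Subgroup.map_sup, Subgroup.map_commutator]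
  apply sup_le
  · exact le_sup_of_le_left (Subgroup.commutator_mono le_top le_top)
  · apply le_sup_of_le_right
    rw [MonoidHom.map_closure]
    apply Subgroup.closure_mono
    rintro _ ⟨_, ⟨y, -, rfl⟩, rfl⟩
    exact ⟨f y, Subgroup.mem_top _, by rw [map_pow]⟩

theorem phi_normal (p : ℕ) (F : Type) [Group F] : (PhiP p (⊤ : Subgroup F)).Normal := by
  constructor
  intro x hx g
  have h := phi_map_le p (MulAut.conj g).toMonoidHom (Subgroup.mem_map_of_mem _ hx)
  exact h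

/-- the Frattini quotient of a group with `s` generators -/
theorem index_phi_dvd (hABP : SpecABP) (p : ℕ) (hp : p.Prime) (Γ : Type) [Group Γ] (s : ℕ)
    (x : Fin s → Γ) (hx : gen x = ⊤) : (PhiP p (⊤ : Subgroup Γ)).index ∣ p ^ s := by
  have h1 : (Phi p (⊤ : Subgroup (FG s))).index = p ^ s := (hABP p s hp).2.2.2.2.2
  let f : FG s →* Γ := FreeGroup.lift x
  have hf : Function.Surjective f := by
    rw [← MonoidHom.range_eq_top, FreeGroup.range_lift_eq_closure]
    exact hx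
  have h2 : Phi p (⊤ : Subgroup (FG s)) ≤ (PhiP p (⊤ : Subgroup Γ)).comap f := by
    rw [← Subgroup.map_le_iff_le_comap]
    exact phi_map_le p f
  rw [← h1, ← Subgroup.index_comap_of_surjective _ hf]
  exact Subgroup.index_dvd_of_le h2

theorem relIndex_mul_ge {F : Type} [Group F] (S T P : Subgroup F) (hP : P.Normal)
    (hS : (S ⊔ P).Normal) (hST : S ⊔ T = ⊤) (h0 : P.index ≠ 0) :
    P.index ≤ P.relIndex S * P.relIndex T := by
  have : Finite (F ⧸ P) := by
    rw [Subgroup.index] at h0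
    exact (Nat.finite_of_card_ne_zero h0)
  rw [Base.relIndex_map P S, Base.relIndex_map P T, ← Nat.card_prod, Subgroup.index]
  refine Nat.card_le_card_of_surjective
    (fun x : S.map (QuotientGroup.mk' P) × T.map (QuotientGroup.mk' P) =>
      (x.2.1 * x.1.1 : F ⧸ P)) ?_
  intro q
  obtain ⟨g, rfl⟩ := QuotientGroup.mk'_surjective P q
  have hg : g ∈ T ⊔ (S ⊔ P) := by
    have h1 : (⊤ : Subgroup F) ≤ T ⊔ (S ⊔ P) := by
      rw [← hST]
      exact sup_le (le_sup_of_le_right le_sup_left) le_sup_left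
    exact h1 (Subgroup.mem_top g)
  rw [Subgroup.mem_sup_of_normal_right] at hg
  obtain ⟨y, hy, w, hw, rfl⟩ := hg
  rw [Subgroup.mem_sup_of_normal_right] at hw
  obtain ⟨u, hu, v, hv, rfl⟩ := hw
  refine ⟨⟨⟨QuotientGroup.mk' P u, Subgroup.mem_map_of_mem _ hu⟩,
    ⟨QuotientGroup.mk' P y, Subgroup.mem_map_of_mem _ hy⟩⟩, ?_⟩
  have hv1 : QuotientGroup.mk' P v = 1 := (QuotientGroup.eq_one_iff v).2 hv
  simp only [map_mul, hv1, mul_one]

theorem normal_of_comm {F : Type} [Group F] (N : Subgroup F)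
    (h : ⁅(⊤ : Subgroup F), (⊤ : Subgroup F)⁆ ≤ N) : N.Normal := by
  constructor
  intro x hx g
  have h1 : ⁅g, x⁆ ∈ N := h (Subgroup.commutator_mem_commutator (Subgroup.mem_top g)
    (Subgroup.mem_top x))
  have h2 : g * x * g⁻¹ = ⁅g, x⁆ * x := by
    rw [commutatorElement_def]; group
  rw [h2]
  exact mul_mem h1 hx

end PHSM

open PHSM in
/-- The Frattini subgroup of `S`. -/
theorem specPHS (hABP : SpecABP) : SpecPHS := by
  intro p hpf F _ s t x z hxz hidx
  have hp : p.Prime := hpf.out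
  set S := gen x with hS
  set T := gen z with hT
  set P := PhiP p (⊤ : Subgroup F) with hP
  have hPn : P.Normal := phi_normal p F
  -- index of the Frattini subgroup of a subgroup generated by `s` elements
  have key : ∀ (k : ℕ) (y : Fin k → F), (PhiP p (⊤ : Subgroup ↥(gen y))).index ∣ p ^ k := by
    intro k y
    let y' : Fin k → gen y := fun i => ⟨y i, Subgroup.subset_closure ⟨i, rfl⟩⟩
    refine index_phi_dvd hABP p hp (gen y) k y' ?_
    have h1 : (gen y').map (gen y).subtype = gen y := by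
      change (Subgroup.closure (Set.range y')).map (gen y).subtype = gen y
      rw [MonoidHom.map_closure, ← Set.range_comp]
      rfl
    have h2 : (⊤ : Subgroup ↥(gen y)).map (gen y).subtype = gen y := by
      rw [← MonoidHom.range_eq_map, Subgroup.range_subtype]
    exact Subgroup.map_injective (Subgroup.subtype_injective _) (h1.trans h2.symm)
  have hle : ∀ (k : ℕ) (y : Fin k → F), PhiP p (⊤ : Subgroup ↥(gen y)) ≤ P.subgroupOf (gen y) := by
    intro k y
    rw [Subgroup.subgroupOf, ← Subgroup.map_le_iff_le_comap]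
    exact phi_map_le p _
  have hdvd : ∀ (k : ℕ) (y : Fin k → F), P.relIndex (gen y) ∣ p ^ k := by
    intro k y
    exact (Subgroup.index_dvd_of_le (hle k y)).trans (key k y)
  have hcomm : ⁅(⊤ : Subgroup F), (⊤ : Subgroup F)⁆ ≤ S ⊔ P :=
    le_sup_of_le_right (by rw [hP, PhiP]; exact le_sup_left)
  have hge := relIndex_mul_ge S T P hPn (normal_of_comm _ hcomm) hxz
    (by rw [hidx]; exact pow_ne_zero _ hp.ne_zero)
  have hs1 : P.relIndex S ≤ p ^ s := Nat.le_of_dvd (pow_pos hp.pos _) (hdvd s x)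
  have ht1 : P.relIndex T ≤ p ^ t := Nat.le_of_dvd (pow_pos hp.pos _) (hdvd t z)
  have hs2 : P.relIndex S = p ^ s := by
    apply le_antisymm hs1
    by_contra hcon
    rw [not_le] at hcon
    have h3 : P.relIndex S * P.relIndex T < p ^ s * p ^ t :=
      Nat.mul_lt_mul_of_lt_of_le hcon ht1 (pow_pos hp.pos _)
    rw [hidx, pow_add] at hge
    exact absurd (hge.trans_lt h3) (lt_irrefl _)
  have hS3 : (P.subgroupOf S).index = p ^ s := hs2
  have hle' : PhiP p (⊤ : Subgroup ↥S) ≤ P.subgroupOf S := hle s x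
  have hdv : (PhiP p (⊤ : Subgroup ↥S)).index ∣ p ^ s := key s x
  have hmul := Subgroup.relIndex_mul_index hle'
  have hidx2 : (PhiP p (⊤ : Subgroup ↥S)).index = p ^ s := by
    apply Nat.dvd_antisymm hdv
    rw [← hS3]
    exact Subgroup.index_dvd_of_le hle'
  refine ⟨?_, hidx2⟩
  apply le_antisymm _ hle'
  rw [hS3, hidx2] at hmul
  have h5 : (PhiP p (⊤ : Subgroup ↥S)).relIndex (P.subgroupOf S) = 1 := by
    have h6 : (PhiP p (⊤ : Subgroup ↥S)).relIndex (P.subgroupOf S) * p ^ s = 1 * p ^ s := by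
      rw [hmul, one_mul]
    exact Nat.eq_of_mul_eq_mul_right (pow_pos hp.pos _) h6
  exact Subgroup.relIndex_eq_one.1 h5

end Pool.Agent.Lib.MP4ccb00.N
end

section
/-!
# MP_4ccb00_al, part (d), module KAP: `|R Psi : R|` for special `R` (helper19)
-/
set_option autoImplicit false

namespace Pool.Agent.Lib.MP4ccb00.N

open Subgroup Module E

open scoped commutatorElement

namespace KAPM

/-- commutators modulo a normal subgroup -/
theorem comm_sup_le {F : Type} [Group F] (A B R : Subgroup F) [R.Normal] :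
    ⁅A ⊔ R, B ⊔ R⁆ ≤ ⁅A, B⁆ ⊔ R := by
  have hmap : ∀ A : Subgroup F, (A ⊔ R).map (QuotientGroup.mk' R) = A.map (QuotientGroup.mk' R) := by
    intro A
    rw [Subgroup.map_sup]
    have : R.map (QuotientGroup.mk' R) = ⊥ := by
      rw [Subgroup.map_eq_bot_iff, QuotientGroup.ker_mk']
    rw [this, sup_bot_eq]
  rw [sup_comm ⁅A, B⁆ R, ← QuotientGroup.comap_map_mk' R ⁅A, B⁆, ← Subgroup.map_le_iff_le_comap,
    Subgroup.map_commutator, Subgroup.map_commutator, hmap, hmap]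

/-- a class two identity -/
theorem comm_pow {G : Type} [Group G] (x y : G) (h : Commute ⁅x, y⁆ y) (n : ℕ) :
    ⁅x, y ^ n⁆ = ⁅x, y⁆ ^ n := by
  have h1 : x * y * x⁻¹ = ⁅x, y⁆ * y := by rw [commutatorElement_def]; group
  have h2 : ⁅x, y ^ n⁆ = (x * y * x⁻¹) ^ n * (y ^ n)⁻¹ := by
    rw [conj_pow, commutatorElement_def]
  rw [h2, h1, h.mul_pow, mul_assoc, mul_inv_cancel, mul_one]

/-- the derived group modulo `P` is central of exponent `p` -/
structure Cen (p : ℕ) {F : Type} [Group F] (P : Subgroup F) : Prop where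
  nor : P.Normal
  cen : ∀ d ∈ ⁅(⊤ : Subgroup F), (⊤ : Subgroup F)⁆, ∀ g : F, ⁅d, g⁆ ∈ P
  pow : ∀ d ∈ ⁅(⊤ : Subgroup F), (⊤ : Subgroup F)⁆, d ^ p ∈ P

/-- the Frattini subgroup modulo `P` is central -/
theorem Cen.phi {p : ℕ} {F : Type} [Group F] {P : Subgroup F} (h : Cen p P) :
    ∀ u ∈ PhiP p (⊤ : Subgroup F), ∀ g : F, ⁅u, g⁆ ∈ P := by
  have hn := h.nor
  let π := QuotientGroup.mk' P
  have hπ1 : ∀ m, m ∈ P ↔ π m = 1 := fun m => (QuotientGroup.eq_one_iff m).symm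
  have hcD : ∀ d ∈ ⁅(⊤ : Subgroup F), (⊤ : Subgroup F)⁆, ∀ g : F, π d * π g = π g * π d := by
    intro d hd g
    have h1 := (hπ1 _).1 (h.cen d hd g)
    rw [map_commutatorElement, commutatorElement_eq_one_iff_mul_comm] at h1
    exact h1
  have hcen : PhiP p (⊤ : Subgroup F) ≤ (Subgroup.center (F ⧸ P)).comap π := by
    rw [PhiP, sup_le_iff]
    constructor
    · intro d hd
      rw [Subgroup.mem_comap, Subgroup.mem_center_iff]
      intro q
      obtain ⟨g, rfl⟩ := QuotientGroup.mk'_surjective P q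
      exact (hcD d hd g).symm
    · rw [Subgroup.closure_le]
      rintro _ ⟨u, -, rfl⟩
      rw [SetLike.mem_coe, Subgroup.mem_comap, Subgroup.mem_center_iff]
      intro q
      obtain ⟨g, rfl⟩ := QuotientGroup.mk'_surjective P q
      have h1 : ⁅g, u⁆ ∈ ⁅(⊤ : Subgroup F), (⊤ : Subgroup F)⁆ :=
        Subgroup.commutator_mem_commutator (Subgroup.mem_top _) (Subgroup.mem_top _)
      have h2 : ⁅π g, π u ^ p⁆ = 1 := by
        rw [comm_pow _ _ (by rw [← map_commutatorElement]; exact hcD _ h1 u),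
          ← map_commutatorElement, ← map_pow]
        exact (hπ1 _).1 (h.pow _ h1)
      rw [commutatorElement_eq_one_iff_mul_comm] at h2
      rw [map_pow]
      exact h2
  intro u hu g
  have h1 := Subgroup.mem_center_iff.1 (Subgroup.mem_comap.1 (hcen hu)) (π g)
  rw [hπ1, map_commutatorElement, commutatorElement_eq_one_iff_mul_comm]
  exact h1.symm

/-- the count of the `p`-th powers of the Frattini subgroup -/
theorem Cen.psi {p : ℕ} {F : Type} [Group F] {P R : Subgroup F} (h : Cen p P) (hRP : R ≤ P)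
    {f : ℕ} (hp : p ≠ 0)
    (hf : (⁅(⊤ : Subgroup F), (⊤ : Subgroup F)⁆ ⊔ R).relIndex (PhiP p ⊤) = p ^ f) :
    P.relIndex (P ⊔ Psi p F) ≤ p ^ f := by
  have hn := h.nor
  have hphi := h.phi
  let π := QuotientGroup.mk' P
  have hπ1 : ∀ m, m ∈ P ↔ π m = 1 := fun m => (QuotientGroup.eq_one_iff m).symm
  have hcom : ∀ u ∈ PhiP p (⊤ : Subgroup F), ∀ g : F, Commute (π u) (π g) := by
    intro u hu g
    have h1 := (hπ1 _).1 (hphi u hu g)
    rw [map_commutatorElement, commutatorElement_eq_one_iff_mul_comm] at h1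
    exact h1
  let θ : ↥(PhiP p (⊤ : Subgroup F)) →* F ⧸ P := MonoidHom.mk' (fun u => π (u : F) ^ p) (by
    intro u v
    change π ((u : F) * v) ^ p = _
    rw [map_mul, (hcom u u.2 v).mul_pow])
  have hθ : ∀ u, θ u = π (u : F) ^ p := fun _ => rfl
  have hker : (⁅(⊤ : Subgroup F), (⊤ : Subgroup F)⁆ ⊔ R).subgroupOf (PhiP p ⊤) ≤ θ.ker := by
    intro u hu
    rw [Subgroup.mem_subgroupOf] at hu
    have hsub : ⁅(⊤ : Subgroup F), (⊤ : Subgroup F)⁆ ⊔ R ≤
        ⁅(⊤ : Subgroup F), (⊤ : Subgroup F)⁆ ⊔ P := sup_le_sup_left hRP _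
    obtain ⟨d, hd, r, hr, hdr⟩ := Subgroup.mem_sup_of_normal_right.1 (hsub hu)
    rw [MonoidHom.mem_ker, hθ, ← hdr, map_mul, (hπ1 r).1 hr, mul_one, ← map_pow]
    exact (hπ1 _).1 (h.pow d hd)
  have h1 : Nat.card θ.range ≤ p ^ f := by
    rw [← Subgroup.index_ker]
    have h2 : θ.ker.index ∣ p ^ f := by
      rw [← hf]
      exact Subgroup.index_dvd_of_le hker
    exact Nat.le_of_dvd (pow_pos (Nat.pos_of_ne_zero hp) _) h2
  have hfin : Finite θ.range := by
    apply Nat.finite_of_card_ne_zero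
    rw [← Subgroup.index_ker]
    have h2 : θ.ker.index ∣ p ^ f := by
      rw [← hf]
      exact Subgroup.index_dvd_of_le hker
    exact fun h0 => pow_ne_zero f hp (by rw [h0, zero_dvd_iff] at h2; exact h2)
  rw [sup_comm, Subgroup.relIndex_sup_right, Base.relIndex_map]
  refine le_trans ?_ h1
  have hle : (Psi p F).map (QuotientGroup.mk' P) ≤ θ.range := by
    rw [Subgroup.map_le_iff_le_comap, Psi, sup_le_iff]
    constructor
    · rw [Subgroup.commutator_le]
      intro u hu g _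
      rw [Subgroup.mem_comap]
      have : (QuotientGroup.mk' P) ⁅u, g⁆ = 1 := (hπ1 _).1 (hphi u hu g)
      rw [this]
      exact one_mem _
    · rw [Subgroup.closure_le]
      rintro _ ⟨u, hu, rfl⟩
      rw [SetLike.mem_coe, Subgroup.mem_comap]
      exact ⟨⟨u, hu⟩, by rw [hθ, map_pow]⟩
  exact Nat.card_le_card_of_injective _ (Subgroup.inclusion_injective hle)

/-- the subgroup `P` -/
theorem cenP {p : ℕ} {F : Type} [Group F] {S R : Subgroup F} (hR : R.Normal)
    (hRP : R ≤ PhiP p (⊤ : Subgroup F)) (hspl : Spl S R) :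
    Cen p (⁅PhiP p (⊤ : Subgroup F) ⊓ S, S⁆ ⊔ R) := by
  set D := ⁅(⊤ : Subgroup F), (⊤ : Subgroup F)⁆ with hD
  set Φ := PhiP p (⊤ : Subgroup F) with hΦ
  have hΦn : Φ.Normal := PHSM.phi_normal p F
  have hDΦ : D ≤ Φ := by rw [hΦ, PhiP]; exact le_sup_left
  have hDS : D ≤ S ⊔ R := hspl.trans (sup_le_sup_right (DEDM.comm_le_self S) R)
  have hSRn : (S ⊔ R).Normal := PHSM.normal_of_comm _ hDS
  have hPS : Φ ⊓ (S ⊔ R) = (Φ ⊓ S) ⊔ R := by
    apply le_antisymm
    · rintro u ⟨hu1, hu2⟩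
      obtain ⟨s, hs, r, hr, rfl⟩ := Subgroup.mem_sup_of_normal_right.1 hu2
      refine Subgroup.mul_mem_sup ⟨?_, hs⟩ hr
      have h1 : s * r * r⁻¹ ∈ Φ := mul_mem hu1 (inv_mem (hRP hr))
      rwa [mul_inv_cancel_right] at h1
    · refine sup_le (inf_le_inf_left _ le_sup_left) (le_inf hRP le_sup_right)
  have hPSn : ((Φ ⊓ S) ⊔ R).Normal := by
    rw [← hPS]
    exact Subgroup.normal_inf_normal _ _
  have hcom : ⁅(Φ ⊓ S) ⊔ R, S ⊔ R⁆ ≤ ⁅Φ ⊓ S, S⁆ ⊔ R := comm_sup_le _ _ _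
  have hPeq : ⁅Φ ⊓ S, S⁆ ⊔ R = ⁅(Φ ⊓ S) ⊔ R, S ⊔ R⁆ ⊔ R := by
    apply le_antisymm
    · exact sup_le_sup_right (Subgroup.commutator_mono le_sup_left le_sup_left) R
    · exact sup_le hcom le_sup_right
  have hPn : (⁅Φ ⊓ S, S⁆ ⊔ R).Normal := by
    rw [hPeq]
    have : (⁅(Φ ⊓ S) ⊔ R, S ⊔ R⁆).Normal := Subgroup.commutator_normal _ _
    exact Subgroup.sup_normal _ _
  set P := ⁅Φ ⊓ S, S⁆ ⊔ R with hP
  have hDPS : D ≤ (Φ ⊓ S) ⊔ R := by
    rw [← hPS]
    exact le_inf hDΦ hDS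
  let π := QuotientGroup.mk' P
  have hπ1 : ∀ m, m ∈ P ↔ π m = 1 := fun m => (QuotientGroup.eq_one_iff m).symm
  have hRbot : R.map π = ⊥ := by
    rw [Subgroup.map_eq_bot_iff, QuotientGroup.ker_mk']
    exact le_sup_right
  have hmapbot : ∀ A : Subgroup F, A ≤ P → A.map π = ⊥ := by
    intro A hA
    rw [Subgroup.map_eq_bot_iff, QuotientGroup.ker_mk']
    exact hA
  -- the derived group of the quotient is the derived group of the image of `S`
  have hDmap : D.map π = ⁅S.map π, S.map π⁆ := by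
    apply le_antisymm
    · have h1 : D.map π ≤ (⁅S, S⁆ ⊔ R).map π := Subgroup.map_mono hspl
      rwa [Subgroup.map_sup, hRbot, sup_bot_eq, Subgroup.map_commutator S S] at h1
    · rw [← Subgroup.map_commutator]
      exact Subgroup.map_mono (Subgroup.commutator_mono le_top le_top)
  have hDS' : ⁅D, S⁆ ≤ P := by
    refine le_trans (Subgroup.commutator_mono hDPS (le_sup_left : S ≤ S ⊔ R)) hcom
  have hcen : ⁅⁅S.map π, S.map π⁆, (⊤ : Subgroup (F ⧸ P))⁆ = ⊥ := by
    have htop : (⊤ : Subgroup F).map π = ⊤ :=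
      Subgroup.map_top_of_surjective _ (QuotientGroup.mk'_surjective P)
    have k1 : ⁅⁅S.map π, (⊤ : Subgroup (F ⧸ P))⁆, S.map π⁆ = ⊥ := by
      rw [← htop, ← Subgroup.map_commutator, ← Subgroup.map_commutator]
      apply hmapbot
      exact le_trans (Subgroup.commutator_mono (Subgroup.commutator_mono le_top le_top) le_rfl) hDS'
    have k2 : ⁅⁅(⊤ : Subgroup (F ⧸ P)), S.map π⁆, S.map π⁆ = ⊥ := by
      rw [Subgroup.commutator_comm ⊤ (S.map π)]
      exact k1
    exact Subgroup.commutator_commutator_eq_bot_of_rotate k1 k2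
  have hcenD : ∀ d ∈ D, ∀ g : F, ⁅d, g⁆ ∈ P := by
    intro d hd g
    rw [hπ1, map_commutatorElement]
    have h1 : π d ∈ ⁅S.map π, S.map π⁆ := by
      rw [← hDmap]
      exact Subgroup.mem_map_of_mem _ hd
    have h2 : ⁅π d, π g⁆ ∈ ⁅⁅S.map π, S.map π⁆, (⊤ : Subgroup (F ⧸ P))⁆ :=
      Subgroup.commutator_mem_commutator h1 (Subgroup.mem_top _)
    rw [hcen, Subgroup.mem_bot] at h2
    exact h2
  refine ⟨hPn, hcenD, ?_⟩
  -- `p`-th powers of the derived group
  have hcc : ∀ d ∈ D, ∀ g : F, Commute (π d) (π g) := by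
    intro d hd g
    have h1 := (hπ1 _).1 (hcenD d hd g)
    rw [map_commutatorElement, commutatorElement_eq_one_iff_mul_comm] at h1
    exact h1
  -- the elements whose `p`-th power is in `P`
  let K : Subgroup F :=
    { carrier := {d | d ∈ D ∧ d ^ p ∈ P}
      one_mem' := ⟨one_mem _, by rw [one_pow]; exact one_mem _⟩
      mul_mem' := by
        rintro a b ⟨ha, ha'⟩ ⟨hb, hb'⟩
        refine ⟨mul_mem ha hb, ?_⟩
        rw [hπ1, map_pow, map_mul, (hcc a ha b).mul_pow, ← map_pow, ← map_pow, (hπ1 _).1 ha',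
          (hπ1 _).1 hb', one_mul]
      inv_mem' := by
        rintro a ⟨ha, ha'⟩
        refine ⟨inv_mem ha, ?_⟩
        rw [inv_pow]
        exact inv_mem ha' }
  have hK : ⁅S, S⁆ ≤ K := by
    rw [Subgroup.commutator_le]
    intro x hx y hy
    have h1 : ⁅x, y⁆ ∈ D := Subgroup.commutator_mem_commutator (Subgroup.mem_top _)
      (Subgroup.mem_top _)
    refine ⟨h1, ?_⟩
    have h2 : ⁅x, y ^ p⁆ ∈ P := by
      have h3 : y ^ p ∈ Φ ⊓ S := by
        refine ⟨?_, pow_mem hy p⟩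
        rw [hΦ, PhiP]
        exact Subgroup.mem_sup_right (Subgroup.subset_closure ⟨y, Subgroup.mem_top _, rfl⟩)
      have h4 : ⁅y ^ p, x⁆ ∈ P := Subgroup.mem_sup_left (Subgroup.commutator_mem_commutator h3 hx)
      rw [← commutatorElement_inv]
      exact inv_mem h4
    have h5 : π (⁅x, y⁆ ^ p) = π ⁅x, y ^ p⁆ := by
      rw [map_pow, map_commutatorElement, map_commutatorElement, map_pow, comm_pow]
      rw [← map_commutatorElement]
      exact hcc _ h1 y
    rw [hπ1, h5]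
    exact (hπ1 _).1 h2
  intro d hd
  obtain ⟨c, hc, r, hr, rfl⟩ := Subgroup.mem_sup_of_normal_right.1 (hspl hd)
  have hr' : π r = 1 := (hπ1 _).1 (Subgroup.mem_sup_right hr)
  rw [hπ1, map_pow, map_mul, hr', mul_one, ← map_pow]
  exact (hπ1 _).1 (hK hc).2

end KAPM

open KAPM in
/-- `|R Psi : R|` for special `R`. -/
theorem specKAP (hKKK : SpecKKK) (hDED : SpecDED) (hPHS : SpecPHS) : SpecKAP := by
  intro p hpf F _ s t n f π a a₁ x z R₁ hgen hidx hR₁ R hRSP
  have hp : p.Prime := hpf.out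
  obtain ⟨⟨hR, hRΦ, hRn⟩, hspl, hRR₁, hf, hπ, -, -⟩ := hRSP
  set S := gen x with hS
  obtain ⟨hP1, -⟩ := hPHS p F s t x z hgen hidx
  obtain ⟨hCn, hRC, hCD, hCcomm, -, hCπ, -, hfd⟩ :=
    hDED p F S R R₁ hR hR₁ ⟨n, hRn⟩ hRR₁ hRΦ hspl
  set D := ⁅(⊤ : Subgroup F), (⊤ : Subgroup F)⁆ with hD
  set Φ := PhiP p (⊤ : Subgroup F) with hΦ
  have hcen := cenP hR hRΦ hspl
  -- the bound for `P`
  have hDRn : (D ⊔ R).Normal := Subgroup.sup_normal _ _
  have hΦn : Φ.Normal := PHSM.phi_normal p F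
  have hgen' : gen (fun i => (⟨x i, Subgroup.subset_closure ⟨i, rfl⟩⟩ : S)) = ⊤ := by
    have h1 : (gen (fun i => (⟨x i, Subgroup.subset_closure ⟨i, rfl⟩⟩ : S))).map S.subtype = S := by
      change (Subgroup.closure (Set.range _)).map S.subtype = S
      rw [MonoidHom.map_closure, ← Set.range_comp]
      rfl
    have h2 : (⊤ : Subgroup ↥S).map S.subtype = S := by
      rw [← MonoidHom.range_eq_map, Subgroup.range_subtype]
    exact Subgroup.map_injective (Subgroup.subtype_injective _) (h1.trans h2.symm)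
  have hRs : ∃ m, (R.subgroupOf S).index = p ^ m := by
    have h1 : R.relIndex S ∣ R.index := Subgroup.relIndex_dvd_index_of_normal _ _
    rw [hRn] at h1
    obtain ⟨m, -, hm⟩ := (Nat.dvd_prime_pow hp).1 h1
    exact ⟨m, hm⟩
  have hDRΦ : D ⊔ R ≤ Φ := sup_le (by rw [hΦ, PhiP]; exact le_sup_left) hRΦ
  obtain ⟨f', hf', hfe⟩ := (Nat.dvd_prime_pow hp).1 (hf ▸ hfd)
  have hRsn : (R.subgroupOf S).Normal := Subgroup.normal_subgroupOf
  have hAsn : ((Cz S R).subgroupOf S).Normal := Subgroup.normal_subgroupOf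
  have hTsn : ((D ⊔ R).subgroupOf S).Normal := Subgroup.normal_subgroupOf
  have hΦsn : (Φ.subgroupOf S).Normal := Subgroup.normal_subgroupOf
  have k1 := hKKK p S s π _ (R.subgroupOf S) ((Cz S R).subgroupOf S) ((D ⊔ R).subgroupOf S) hgen'
    hRsn hAsn hTsn hRs (Subgroup.comap_mono hRC) (Subgroup.comap_mono hCD) (hCπ.trans hπ)
  have k2 := hKKK p S s f' _ (R.subgroupOf S) ((D ⊔ R).subgroupOf S) (Φ.subgroupOf S) hgen'
    hRsn hTsn hΦsn hRs (Subgroup.comap_mono le_sup_right) (Subgroup.comap_mono hDRΦ) hfe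
  have e1 : ⁅(Cz S R).subgroupOf S, (⊤ : Subgroup ↥S)⁆ ⊔ R.subgroupOf S = R.subgroupOf S :=
    sup_eq_right.2 hCcomm
  rw [e1] at k1
  have hle1 : R.subgroupOf S ≤ ⁅(D ⊔ R).subgroupOf S, (⊤ : Subgroup ↥S)⁆ ⊔ R.subgroupOf S :=
    le_sup_right
  have hle2 : ⁅(D ⊔ R).subgroupOf S, (⊤ : Subgroup ↥S)⁆ ⊔ R.subgroupOf S ≤
      ⁅Φ.subgroupOf S, (⊤ : Subgroup ↥S)⁆ ⊔ R.subgroupOf S :=
    sup_le_sup_right (Subgroup.commutator_mono (Subgroup.comap_mono hDRΦ) le_rfl) _
  have k3 := Subgroup.relIndex_mul_relIndex _ _ _ hle1 hle2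
  have k4 : (R.subgroupOf S).relIndex (⁅Φ.subgroupOf S, (⊤ : Subgroup ↥S)⁆ ⊔ R.subgroupOf S) ≤
      p ^ ((f + π) * s) := by
    rw [← k3]
    refine (Nat.mul_le_mul k1 k2).trans ?_
    rw [← pow_add]
    refine Nat.pow_le_pow_right hp.pos ?_
    have := Nat.mul_le_mul_right s hf'
    nlinarith [this]
  -- back to `F`
  set P := ⁅Φ ⊓ S, S⁆ ⊔ R with hP
  have hPS : P ≤ S ⊔ R := by
    refine sup_le ?_ le_sup_right
    exact le_sup_of_le_left ((Subgroup.commutator_mono inf_le_right le_rfl).trans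
      (DEDM.comm_le_self S))
  have hPs : P.subgroupOf S ≤ ⁅Φ.subgroupOf S, (⊤ : Subgroup ↥S)⁆ ⊔ R.subgroupOf S := by
    intro u hu
    rw [Subgroup.mem_subgroupOf] at hu
    obtain ⟨c, hc, r, hr, hcr⟩ := Subgroup.mem_sup_of_normal_right.1 hu
    have hmap : (⁅Φ.subgroupOf S, (⊤ : Subgroup ↥S)⁆).map S.subtype = ⁅Φ ⊓ S, S⁆ := by
      rw [Subgroup.map_commutator, Subgroup.subgroupOf_map_subtype, ← MonoidHom.range_eq_map,
        Subgroup.range_subtype]
    rw [← hmap] at hc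
    obtain ⟨c', hc', rfl⟩ := hc
    have h2 : u = c' * (c'⁻¹ * u) := by group
    rw [h2]
    refine Subgroup.mul_mem_sup hc' ?_
    rw [Subgroup.mem_subgroupOf]
    have h3 : ((c'⁻¹ * u : S) : F) = r := by
      change (c' : F)⁻¹ * (u : F) = r
      rw [← hcr]
      change (c' : F)⁻¹ * ((c' : F) * r) = r
      group
    rw [h3]
    exact hr
  have hRne : R.index ≠ 0 := by rw [hRn]; exact pow_ne_zero _ hp.ne_zero
  have hRsne : ∀ Q : Subgroup S, (R.subgroupOf S).relIndex Q ≠ 0 := by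
    intro Q h0
    obtain ⟨m, hm⟩ := hRs
    have h1 : (R.subgroupOf S).relIndex Q ∣ (R.subgroupOf S).index :=
      Subgroup.relIndex_dvd_index_of_normal _ _
    rw [h0, hm, zero_dvd_iff] at h1
    exact pow_ne_zero _ hp.ne_zero h1
  have k5 : R.relIndex P ≤ p ^ ((f + π) * s) := by
    rw [← DEDM.rel hR le_sup_right hPS]
    exact (Subgroup.relIndex_le_of_le_right hPs (hRsne _)).trans k4
  have k6 : P.relIndex (P ⊔ Psi p F) ≤ p ^ f := hcen.psi le_sup_right hp.ne_zero hf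
  have k7 := Subgroup.relIndex_mul_relIndex R P (P ⊔ Psi p F) le_sup_right le_sup_left
  have hRne' : R.relIndex (P ⊔ Psi p F) ≠ 0 := by
    intro h0
    have h1 : R.relIndex (P ⊔ Psi p F) ∣ R.index := Subgroup.relIndex_dvd_index_of_normal _ _
    rw [h0, zero_dvd_iff] at h1
    exact hRne h1
  have hle3 : R ⊔ Psi p F ≤ P ⊔ Psi p F := sup_le_sup_right le_sup_right _
  refine (Subgroup.relIndex_le_of_le_right hle3 hRne').trans ?_
  rw [← k7, pow_add]
  exact Nat.mul_le_mul k5 k6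

end Pool.Agent.Lib.MP4ccb00.N
end

section
/-!
# MP_4ccb00_al, part (d), module KKK
-/
set_option autoImplicit false

namespace Pool.Agent.Lib.MP4ccb00.N

open Subgroup Module E

open scoped commutatorElement

namespace KKKM

theorem sup_normal {F : Type} [Group F] (C R : Subgroup F) (hC : C.Normal) (hR : R.Normal) :
    (⁅C, (⊤ : Subgroup F)⁆ ⊔ R).Normal := by
  have h1 : (⁅C, (⊤ : Subgroup F)⁆).Normal := Subgroup.commutator_normal C ⊤
  exact Subgroup.sup_normal _ _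

theorem step (hABP : SpecABP) (hCYC : SpecCYC) (p : ℕ) [hpf : Fact p.Prime] (Γ : Type) [Group Γ]
    (s : ℕ) (x : Fin s → Γ) (R C C₁ : Subgroup Γ) (hx : gen x = ⊤) (hR : R.Normal) (hC : C.Normal)
    (hC₁ : C₁.Normal) (hidx : ∃ m, C.index = p ^ m) (hCC : C ≤ C₁)
    (hrel : C.relIndex C₁ = p) :
    (⁅C, (⊤ : Subgroup Γ)⁆ ⊔ R).relIndex (⁅C₁, (⊤ : Subgroup Γ)⁆ ⊔ R) ≤ p ^ s := by
  have hp : p.Prime := hpf.out
  set L := ⁅C, (⊤ : Subgroup Γ)⁆ ⊔ R with hL
  have hLn : L.Normal := sup_normal C R hC hR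
  obtain ⟨hpow, hcom, hgen⟩ := hCYC p Γ C C₁ hC hC₁ hidx hCC hrel
  -- elements of `C` are central modulo `L`
  have hcen : ∀ c ∈ C, ∀ g : Γ, (QuotientGroup.mk' L) (g * c * g⁻¹) = QuotientGroup.mk' L c := by
    intro c hc g
    have h1 : ⁅c, g⁆ ∈ L := Subgroup.mem_sup_left
      (Subgroup.commutator_mem_commutator hc (Subgroup.mem_top g))
    have h2 : g * c * g⁻¹ = ⁅c, g⁆⁻¹ * c := by
      rw [commutatorElement_def]; group
    rw [h2, map_mul, map_inv]
    have h3 : QuotientGroup.mk' L ⁅c, g⁆ = 1 := (QuotientGroup.eq_one_iff _).2 h1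
    rw [h3, inv_one, one_mul]
  obtain ⟨z, hz, hzC⟩ : ∃ z ∈ C₁, z ∉ C := by
    by_contra hcon
    push Not at hcon
    have h1 : C.relIndex C₁ = 1 := Subgroup.relIndex_eq_one.2 hcon
    rw [hrel] at h1
    exact hp.one_lt.ne' h1
  have hzg : ∀ g, ⁅z, g⁆ ∈ C := fun g =>
    hcom (Subgroup.commutator_mem_commutator hz (Subgroup.mem_top g))
  let ψ : Γ →* Γ ⧸ L := MonoidHom.mk' (fun g => QuotientGroup.mk' L ⁅z, g⁆) (by
    intro g h
    have h1 : ⁅z, g * h⁆ = ⁅z, g⁆ * (g * ⁅z, h⁆ * g⁻¹) := by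
      simp only [commutatorElement_def]; group
    change QuotientGroup.mk' L ⁅z, g * h⁆ = _
    rw [h1, map_mul, hcen _ (hzg h) g])
  have hψ : ∀ g, ψ g = QuotientGroup.mk' L ⁅z, g⁆ := fun g => rfl
  have hpw : ∀ (n : ℕ) (g : Γ), QuotientGroup.mk' L ⁅z ^ n, g⁆ = ψ g ^ n := by
    intro n g
    induction n with
    | zero =>
      rw [pow_zero, pow_zero, commutatorElement_one_left, map_one]
    | succ n ih =>
      have h1 : ⁅z ^ (n + 1), g⁆ = z ^ n * ⁅z, g⁆ * (z ^ n)⁻¹ * ⁅z ^ n, g⁆ := by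
        simp only [commutatorElement_def, pow_succ]; group
      rw [h1, map_mul, hcen _ (hzg g), ih, hψ, pow_succ']
  have hker : PhiP p (⊤ : Subgroup Γ) ≤ ψ.ker := by
    rw [PhiP, sup_le_iff]
    constructor
    · rw [Subgroup.commutator_le]
      intro g _ h _
      rw [MonoidHom.mem_ker, map_commutatorElement, hψ, hψ, ← map_commutatorElement]
      apply (QuotientGroup.eq_one_iff _).2
      exact Subgroup.mem_sup_left (Subgroup.commutator_mem_commutator (hzg g) (Subgroup.mem_top _))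
    · rw [Subgroup.closure_le]
      rintro _ ⟨y, -, rfl⟩
      rw [SetLike.mem_coe, MonoidHom.mem_ker, map_pow, ← hpw]
      apply (QuotientGroup.eq_one_iff _).2
      exact Subgroup.mem_sup_left
        (Subgroup.commutator_mem_commutator (hpow z hz) (Subgroup.mem_top _))
  have hcard : Nat.card ψ.range ∣ p ^ s := by
    have h1 : Nat.card ψ.range = ψ.ker.index := (Subgroup.index_ker ψ).symm
    rw [h1]
    exact (Subgroup.index_dvd_of_le hker).trans (PHSM.index_phi_dvd hABP p hp Γ s x hx)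
  have hpos : 0 < Nat.card ψ.range :=
    Nat.pos_of_ne_zero (fun h => by
      rw [h, zero_dvd_iff] at hcard
      exact pow_ne_zero _ hp.ne_zero hcard)
  have : Finite ψ.range := Nat.finite_of_card_ne_zero hpos.ne'
  rw [Base.relIndex_map L]
  refine le_trans (Subgroup.card_le_of_le (K := ψ.range) ?_)
    (Nat.le_of_dvd (pow_pos hp.pos _) hcard)
  rw [Subgroup.map_le_iff_le_comap, sup_le_iff]
  constructor
  · rw [Subgroup.commutator_le]
    intro c hc g _
    obtain ⟨i, hi⟩ := hgen z hz hzC c hc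
    have h1 : c = z ^ i * ((z ^ i)⁻¹ * c) := by group
    set c' := (z ^ i)⁻¹ * c with hc'
    have h2 : ⁅c, g⁆ = z ^ i * ⁅c', g⁆ * (z ^ i)⁻¹ * ⁅z ^ i, g⁆ := by
      rw [h1]
      simp only [commutatorElement_def]; group
    have h3 : ⁅c', g⁆ ∈ L := Subgroup.mem_sup_left
      (Subgroup.commutator_mem_commutator hi (Subgroup.mem_top g))
    have h4 : QuotientGroup.mk' L (z ^ i * ⁅c', g⁆ * (z ^ i)⁻¹) = 1 :=
      (QuotientGroup.eq_one_iff _).2 (hLn.conj_mem _ h3 _)
    rw [Subgroup.mem_comap, h2, map_mul, h4, one_mul, hpw]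
    exact ⟨g ^ i, by rw [map_pow]⟩
  · intro r hr
    rw [Subgroup.mem_comap]
    have h1 : QuotientGroup.mk' L r = 1 := (QuotientGroup.eq_one_iff _).2 (Subgroup.mem_sup_right hr)
    rw [h1]
    exact one_mem _

end KKKM

open KKKM in
/-- Small commutators. -/
theorem specKKK (hABP : SpecABP) (hBOT : SpecBOT) (hCYC : SpecCYC) : SpecKKK := by
  intro p hpf Γ _ s j x R C C' hx hR hC hC' hRi hRC hCC hrel
  have hp : p.Prime := hpf.out
  obtain ⟨m, hm⟩ := hRi
  have hidx : ∀ B : Subgroup Γ, R ≤ B → ∃ m, B.index = p ^ m := by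
    intro B hB
    have h1 := Subgroup.index_dvd_of_le hB
    rw [hm] at h1
    obtain ⟨k, -, hk⟩ := (Nat.dvd_prime_pow hp).1 h1
    exact ⟨k, hk⟩
  induction j generalizing C with
  | zero =>
    rw [pow_zero, Subgroup.relIndex_eq_one] at hrel
    have h1 : C = C' := le_antisymm hCC hrel
    rw [h1, Subgroup.relIndex_self, zero_mul, pow_zero]
  | succ j ih =>
    have hlt : C < C' := by
      apply lt_of_le_of_ne hCC
      rintro rfl
      rw [Subgroup.relIndex_self] at hrel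
      exact absurd hrel.symm (Nat.one_lt_pow (Nat.succ_ne_zero j) hp.one_lt).ne'
    obtain ⟨C₁, hC₁, hlt₁, hle₁, hrel₁⟩ := hBOT p Γ C C' hC hC' (hidx C hRC) hlt
    have h2 : C₁.relIndex C' = p ^ j := by
      have h3 := Subgroup.relIndex_mul_relIndex C C₁ C' hlt₁.le hle₁
      rw [hrel₁, hrel, pow_succ'] at h3
      exact Nat.eq_of_mul_eq_mul_left hp.pos h3
    have h4 := ih C₁ hC₁ (hRC.trans hlt₁.le) hle₁ h2
    have h5 := step hABP hCYC p Γ s x R C C₁ hx hR hC hC₁ (hidx C hRC) hlt₁.le hrel₁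
    have h6 := Subgroup.relIndex_mul_relIndex (⁅C, (⊤ : Subgroup Γ)⁆ ⊔ R)
      (⁅C₁, (⊤ : Subgroup Γ)⁆ ⊔ R) (⁅C', (⊤ : Subgroup Γ)⁆ ⊔ R)
      (sup_le_sup_right (Subgroup.commutator_mono hlt₁.le le_rfl) _)
      (sup_le_sup_right (Subgroup.commutator_mono hle₁ le_rfl) _)
    rw [← h6]
    calc _ ≤ p ^ s * p ^ (j * s) := Nat.mul_le_mul h5 h4
      _ = p ^ ((j + 1) * s) := by rw [← pow_add]; congr 1; ring

end Pool.Agent.Lib.MP4ccb00.N
end
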