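import Pool.Agent.Lib.MP_4ccb00_al.L.Spec
import Pool.Agent.Lib.MP_4ccb00_al.N.YFI
import Pool.Agent.Lib.MP_4ccb00_al.N.Spec2
import Pool.Agent.Lib.MP_4ccb00_al.N.Spec

section
set_option autoImplicit false

namespace Pool.Agent.Lib.MP4ccb00.ABPM

open Subgroup E
open scoped commutatorElement

variable {p d : ℕ}

theorem ab_of (i : Fin d) : ab p (FreeGroup.of i) = Multiplicative.ofAdd (Pi.single i (1 : ZMod p)) := by
  simp [ab]

theorem hm_of (y : Fin d → FG d) (i : Fin d) : hm y (FreeGroup.of i) = y i := by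
  simp [hm]

theorem phi_le_ker : Phi p (⊤ : Subgroup (FG d)) ≤ (ab p : FG d →* _).ker := by
  refine sup_le ?_ ?_
  · rw [Subgroup.commutator_le]
    intro a _ b _
    rw [MonoidHom.mem_ker, map_commutatorElement, commutatorElement_eq_one_iff_mul_comm, mul_comm]
  · rw [Subgroup.closure_le]
    rintro x ⟨h, -, rfl⟩
    show ab p (h ^ p) = 1
    rw [map_pow]
    apply Multiplicative.toAdd.injective
    rw [toAdd_pow, toAdd_one]
    funext i
    simp

/-- `Phi p ⊤` is normal. -/
theorem phi_normal {F : Type} [Group F] : (Phi p (⊤ : Subgroup F)).Normal := by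
  constructor
  intro n hn g
  have key : Phi p (⊤ : Subgroup F) ≤ (Phi p (⊤ : Subgroup F)).comap (MulAut.conj g).toMonoidHom := by
    refine sup_le ?_ ?_
    · rw [Subgroup.commutator_le]
      intro a _ b _
      rw [Subgroup.mem_comap]
      show (MulAut.conj g) ⁅a, b⁆ ∈ _
      rw [map_commutatorElement]
      exact Subgroup.mem_sup_left (Subgroup.commutator_mem_commutator
        (Subgroup.mem_top _) (Subgroup.mem_top _))
    · rw [Subgroup.closure_le]
      rintro x ⟨h, -, rfl⟩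
      show (MulAut.conj g) (h ^ p) ∈ Phi p (⊤ : Subgroup F)
      rw [map_pow]
      exact Subgroup.mem_sup_right (Subgroup.subset_closure
        ⟨_, Subgroup.mem_top _, rfl⟩)
  exact key hn

theorem mem_phi_comm {F : Type} [Group F] (a b : F) : ⁅a, b⁆ ∈ Phi p (⊤ : Subgroup F) :=
  Subgroup.mem_sup_left (Subgroup.commutator_mem_commutator
        (Subgroup.mem_top _) (Subgroup.mem_top _))

theorem mem_phi_pow {F : Type} [Group F] (a : F) : a ^ p ∈ Phi p (⊤ : Subgroup F) :=
  Subgroup.mem_sup_right (Subgroup.subset_closure ⟨_, Subgroup.mem_top _, rfl⟩)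

theorem ker_le_phi (hp : p.Prime) : (ab p : FG d →* _).ker ≤ Phi p (⊤ : Subgroup (FG d)) := by
  haveI := Fact.mk hp
  haveI hn : (Phi p (⊤ : Subgroup (FG d))).Normal := phi_normal
  letI : CommGroup (FG d ⧸ Phi p (⊤ : Subgroup (FG d))) :=
    { (inferInstance : Group (FG d ⧸ Phi p (⊤ : Subgroup (FG d)))) with
      mul_comm := by
        intro a b
        induction a using QuotientGroup.induction_on with
        | H a =>
        induction b using QuotientGroup.induction_on with
        | H b =>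
        rw [← QuotientGroup.mk_mul, ← QuotientGroup.mk_mul, QuotientGroup.eq]
        have h := mem_phi_comm (p := p) b⁻¹ a⁻¹
        simpa [commutatorElement_def, mul_assoc] using h }
  letI : Module (ZMod p) (Additive (FG d ⧸ Phi p (⊤ : Subgroup (FG d)))) :=
    AddCommGroup.zmodModule (by
      intro x
      induction x using Additive.rec with
      | ofMul x =>
      rw [← ofMul_pow]
      apply congrArg Additive.ofMul (?_ : x ^ p = 1)
      induction x using QuotientGroup.induction_on with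
      | H x =>
      rw [← QuotientGroup.mk_pow, QuotientGroup.eq_one_iff]
      exact mem_phi_pow x)
  let f : (Fin d → ZMod p) →ₗ[ZMod p] Additive (FG d ⧸ Phi p (⊤ : Subgroup (FG d))) :=
    (Pi.basisFun (ZMod p) (Fin d)).constr (ZMod p)
      (fun i => Additive.ofMul (QuotientGroup.mk (FreeGroup.of i)))
  let f' : (Fin d → ZMod p) →+ Additive (FG d ⧸ Phi p (⊤ : Subgroup (FG d))) := f.toAddMonoidHom
  let t : Multiplicative (Fin d → ZMod p) →* (FG d ⧸ Phi p (⊤ : Subgroup (FG d))) :=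
    AddMonoidHom.toMultiplicativeLeft f'
  have ht : t.comp (ab p) = QuotientGroup.mk' (Phi p (⊤ : Subgroup (FG d))) := by
    refine FreeGroup.ext_hom _ _ fun i => ?_
    rw [MonoidHom.comp_apply, ab_of]
    show Additive.toMul (f' (Pi.single i 1)) = _
    have : f' (Pi.single i 1) = Additive.ofMul (QuotientGroup.mk (FreeGroup.of i)) := by
      have := (Pi.basisFun (ZMod p) (Fin d)).constr_basis (ZMod p)
        (fun i => Additive.ofMul ((QuotientGroup.mk (FreeGroup.of i)) :
          FG d ⧸ Phi p (⊤ : Subgroup (FG d)))) i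
      rw [Pi.basisFun_apply] at this
      exact this
    rw [this]
    rfl
  intro x hx
  have h1 := DFunLike.congr_fun ht x
  rw [MonoidHom.comp_apply, (MonoidHom.mem_ker.mp hx), map_one] at h1
  exact (QuotientGroup.eq_one_iff x).mp h1.symm

theorem ab_list (k : Fin d → ℕ) :
    Multiplicative.toAdd (ab p ((List.ofFn fun j : Fin d => FreeGroup.of j ^ k j).prod)) =
      fun j => (k j : ZMod p) := by
  rw [map_list_prod, List.map_ofFn, List.prod_ofFn, toAdd_prod]
  funext i
  rw [Finset.sum_apply, Finset.sum_eq_single i]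
  · simp [ab_of]
  · intro j _ hj
    simp [ab_of, Pi.single_eq_of_ne hj.symm]
  · intro h
    exact absurd (Finset.mem_univ i) h

theorem ab_hm (y : Fin d → FG d) (w : FG d) :
    Multiplicative.toAdd (ab p (hm y w)) = Matrix.vecMul (Multiplicative.toAdd (ab p w)) (mat p y) := by
  induction w using FreeGroup.induction_on with
  | C1 => simp
  | of i =>
    rw [hm_of, ab_of, toAdd_ofAdd, Matrix.single_one_vecMul]
    rfl
  | inv_of i hi =>
    rw [map_inv, map_inv, toAdd_inv, map_inv, toAdd_inv, Matrix.neg_vecMul, hi]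
  | mul a b ha hb =>
    rw [map_mul, map_mul, toAdd_mul, map_mul, toAdd_mul, Matrix.add_vecMul, ha, hb]

end Pool.Agent.Lib.MP4ccb00.ABPM

namespace Pool.Agent.Lib.MP4ccb00

open Subgroup E

theorem specABP : SpecABP := by
  intro p d hp
  haveI := Fact.mk hp
  have hsurj : Function.Surjective (ab p : FG d →* Multiplicative (Fin d → ZMod p)) := by
    intro v
    refine ⟨(List.ofFn fun j : Fin d => FreeGroup.of j ^ ((Multiplicative.toAdd v) j).val).prod, ?_⟩
    apply Multiplicative.toAdd.injective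
    rw [ABPM.ab_list]
    funext j
    simp
  have hker : (ab p : FG d →* _).ker = Phi p (⊤ : Subgroup (FG d)) :=
    le_antisymm (ABPM.ker_le_phi hp) ABPM.phi_le_ker
  refine ⟨hker, hsurj, ABPM.ab_hm, ?_, ?_, ?_⟩
  · intro y z
    ext i j
    have h := congrFun (ABPM.ab_hm (p := p) z (y i)) j
    rw [Matrix.mul_apply_eq_vecMul]
    exact h
  · intro g
    ext i j
    have h := congrFun (ABPM.ab_list (p := p) (fun j => (g i j).val)) j
    show Multiplicative.toAdd (ab p (can p g i)) j = g i j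
    rw [can, h]
    simp
  · rw [← hker, Subgroup.index_ker, MonoidHom.range_eq_top.mpr hsurj]
    rw [Nat.card_congr (Subgroup.topEquiv.toEquiv), Nat.card_congr (Multiplicative.toAdd)]
    simp

end Pool.Agent.Lib.MP4ccb00
end

section
/-!
# Module ALT: rank on alternating forms
-/
set_option autoImplicit false

namespace Pool.Agent.Lib.MP4ccb00

open Module

namespace ALTM

variable {F : Type} [Field F] {d k : ℕ}

/-- the vector of a functional -/
def row (f : (Fin d → F) →ₗ[F] F) : Fin d → F := fun j => f (Pi.single j 1)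

lemma row_dot (f : (Fin d → F) →ₗ[F] F) (x : Fin d → F) : row f ⬝ᵥ x = f x := by
  conv_rhs => rw [← Finset.univ_sum_single x]
  rw [map_sum]
  unfold dotProduct row
  apply Finset.sum_congr rfl
  intro j _
  have : (Pi.single j (x j) : Fin d → F) = x j • Pi.single j 1 := by
    ext l
    by_cases h : l = j
    · subst h; simp
    · simp [h]
  rw [this, map_smul, smul_eq_mul, mul_comm]

/-- dual vectors -/
lemma dual (v t : Fin k → (Fin d → F)) (h : LinearIndependent F (Sum.elim v t)) :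
    ∃ (u : Fin (d - 2 * k) → (Fin d → F)) (φt : Fin k → (Fin d → F))
      (φu : Fin (d - 2 * k) → (Fin d → F)),
      (∀ i j, φt i ⬝ᵥ t j = if i = j then 1 else 0) ∧
      (∀ i j, φu i ⬝ᵥ u j = if i = j then 1 else 0) ∧
      (∀ i j, φu i ⬝ᵥ t j = 0) ∧ (∀ i j, φt i ⬝ᵥ v j = 0) ∧ (∀ i j, φu i ⬝ᵥ v j = 0) := by
  classical
  set b := Basis.sumExtend h with hb
  have hfin : Finite ((Fin k ⊕ Fin k) ⊕ Basis.sumExtendIndex h) := Module.Finite.finite_basis b
  have hfin2 : Finite (Basis.sumExtendIndex h) :=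
    Finite.of_injective (Sum.inr : _ → (Fin k ⊕ Fin k) ⊕ Basis.sumExtendIndex h) Sum.inr_injective
  have hcard : Nat.card (Basis.sumExtendIndex h) = d - 2 * k := by
    have h1 := Module.finrank_eq_nat_card_basis b
    rw [Module.finrank_fin_fun] at h1
    have h2 : Nat.card ((Fin k ⊕ Fin k) ⊕ Basis.sumExtendIndex h) =
        k + k + Nat.card (Basis.sumExtendIndex h) := by
      rw [Nat.card_sum, Nat.card_sum, Nat.card_fin]
    omega
  let e : Fin (d - 2 * k) ≃ Basis.sumExtendIndex h :=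
    (Finite.equivFinOfCardEq hcard).symm
  have hinl : ∀ i, b (Sum.inl i) = Sum.elim v t i := by
    intro i
    have hsub : Set.range (Sum.elim v t) ⊆
        h.linearIndepOn_id.extend (Set.subset_univ (Set.range (Sum.elim v t))) :=
      h.linearIndepOn_id.subset_extend _
    letI := Classical.decPred (· ∈ Set.range (Sum.elim v t))
    have e1 : b (Sum.inl i) = ((Equiv.Set.sumDiffSubset hsub
        (Sum.inl (Equiv.ofInjective (Sum.elim v t) h.injective i))) : Fin d → F) := by
      simp only [hb, Basis.sumExtend, Basis.coe_reindex, Basis.coe_extend, Function.comp_apply]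
      rfl
    rw [e1, Equiv.Set.sumDiffSubset_apply_inl]
    rfl
  have hv : ∀ j, b (Sum.inl (Sum.inl j)) = v j := fun j => hinl _
  have ht : ∀ j, b (Sum.inl (Sum.inr j)) = t j := fun j => hinl _
  refine ⟨fun l => b (Sum.inr (e l)), fun i => row (b.coord (Sum.inl (Sum.inr i))),
    fun l => row (b.coord (Sum.inr (e l))), ?_, ?_, ?_, ?_, ?_⟩
  · intro i j
    rw [row_dot, ← ht, Basis.coord_apply, Basis.repr_self, Finsupp.single_apply]
    congr 1
    simp only [Sum.inl.injEq, Sum.inr.injEq, eq_iff_iff]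
    exact eq_comm
  · intro i j
    rw [row_dot, Basis.coord_apply, Basis.repr_self, Finsupp.single_apply]
    congr 1
    simp only [Sum.inr.injEq, eq_iff_iff, EmbeddingLike.apply_eq_iff_eq]
    exact eq_comm
  · intro i j
    rw [row_dot, ← ht, Basis.coord_apply, Basis.repr_self, Finsupp.single_apply]
    simp
  · intro i j
    rw [row_dot, ← hv, Basis.coord_apply, Basis.repr_self, Finsupp.single_apply]
    simp
  · intro i j
    rw [row_dot, ← hv, Basis.coord_apply, Basis.repr_self, Finsupp.single_apply]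
    simp

/-- the alternating matrices -/
def BB (φt : Fin k → (Fin d → F)) (φu : Fin (d - 2 * k) → (Fin d → F)) :
    (Fin k × Fin (d - 2 * k) → F) →ₗ[F] Matrix (Fin d) (Fin d) F where
  toFun c := ∑ x : Fin k × Fin (d - 2 * k),
    c x • (Matrix.vecMulVec (φt x.1) (φu x.2) - Matrix.vecMulVec (φu x.2) (φt x.1))
  map_add' c c' := by
    rw [← Finset.sum_add_distrib]
    exact Finset.sum_congr rfl fun x _ => by rw [Pi.add_apply, add_smul]
  map_smul' a c := by
    rw [RingHom.id_apply, Finset.smul_sum]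
    exact Finset.sum_congr rfl fun x _ => by rw [Pi.smul_apply, smul_eq_mul, mul_smul]

lemma BB_apply (φt : Fin k → (Fin d → F)) (φu : Fin (d - 2 * k) → (Fin d → F))
    (c : Fin k × Fin (d - 2 * k) → F) (i j : Fin d) :
    BB φt φu c i j = ∑ x : Fin k × Fin (d - 2 * k),
      c x * (φt x.1 i * φu x.2 j - φu x.2 i * φt x.1 j) := by
  simp only [BB, LinearMap.coe_mk, AddHom.coe_mk, Matrix.sum_apply, Matrix.smul_apply,
    Matrix.sub_apply, Matrix.vecMulVec_apply, smul_eq_mul]

lemma BB_form (φt : Fin k → (Fin d → F)) (φu : Fin (d - 2 * k) → (Fin d → F))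
    (c : Fin k × Fin (d - 2 * k) → F) (x y : Fin d → F) :
    x ⬝ᵥ (BB φt φu c).mulVec y = ∑ z : Fin k × Fin (d - 2 * k),
      c z * ((φt z.1 ⬝ᵥ x) * (φu z.2 ⬝ᵥ y) - (φu z.2 ⬝ᵥ x) * (φt z.1 ⬝ᵥ y)) := by
  simp only [BB, LinearMap.coe_mk, AddHom.coe_mk]
  rw [Matrix.sum_mulVec, dotProduct_sum]
  apply Finset.sum_congr rfl
  intro z _
  rw [Matrix.smul_mulVec, dotProduct_smul, Matrix.sub_mulVec, dotProduct_sub,
    Matrix.vecMulVec_mulVec, Matrix.vecMulVec_mulVec, smul_eq_mul]
  simp only [dotProduct_smul, MulOpposite.smul_eq_mul_unop, MulOpposite.unop_op]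
  rw [dotProduct_comm x, dotProduct_comm x]

end ALTM

open ALTM in
theorem specALT (hIND : SpecIND) : SpecALT := by
  intro p d k hp hkd g hg b
  have : Fact p.Prime := ⟨hp⟩
  refine ⟨_, ?_, rfl⟩
  set G : Matrix (Fin d) (Fin d) (ZMod p) := (g : Matrix (Fin d) (Fin d) (ZMod p)) with hG
  obtain ⟨v, hv⟩ := hIND p k hp (Fin d → ZMod p) (by rw [Module.finrank_fin_fun]; exact hkd)
    (Matrix.mulVecLin G.transpose) (by
      intro a
      have h1 : Matrix.mulVecLin G.transpose - a • LinearMap.id =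
          Matrix.mulVecLin (G - Matrix.scalar (Fin d) a).transpose := by
        apply LinearMap.ext
        intro x
        ext i
        simp [Matrix.transpose_sub]
      rw [h1]
      have h2 := hg a
      rw [← Matrix.rank_transpose] at h2
      exact h2)
  obtain ⟨u, φt, φu, h1, h2, h3, h4, h5⟩ := dual v (fun i => Matrix.mulVecLin G.transpose (v i)) hv
  set Gi : Matrix (Fin d) (Fin d) (ZMod p) := ((g⁻¹ : GLp p d) : Matrix (Fin d) (Fin d) (ZMod p))
    with hGi
  have hGG : Gi * G = 1 := by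
    rw [hG, hGi, ← Units.val_mul, inv_mul_cancel, Units.val_one]
  have hw : ∀ l, G.transpose.mulVec (Gi.transpose.mulVec (u l)) = u l := by
    intro l
    rw [Matrix.mulVec_mulVec, ← Matrix.transpose_mul, hGG, Matrix.transpose_one,
      Matrix.one_mulVec]
  set L : Matrix (Fin d) (Fin d) (ZMod p) →ₗ[ZMod p] Matrix (Fin d) (Fin d) (ZMod p) :=
    LinearMap.mulLeft (ZMod p) G ∘ₗ LinearMap.mulRight (ZMod p) G.transpose - b • LinearMap.id
    with hL
  have key : ∀ (c : Fin k × Fin (d - 2 * k) → ZMod p) (i : Fin k) (l : Fin (d - 2 * k)),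
      v i ⬝ᵥ (L (BB φt φu c)).mulVec (Gi.transpose.mulVec (u l)) = c (i, l) := by
    intro c i l
    have e1 : L (BB φt φu c) = G * (BB φt φu c * G.transpose) - b • BB φt φu c := by
      simp [hL]
    rw [e1, Matrix.sub_mulVec, dotProduct_sub, ← Matrix.mulVec_mulVec, ← Matrix.mulVec_mulVec, hw,
      Matrix.smul_mulVec, dotProduct_smul, Matrix.dotProduct_mulVec, ← Matrix.mulVec_transpose,
      BB_form, BB_form]
    have e2 : ∑ z : Fin k × Fin (d - 2 * k), c z * ((φt z.1 ⬝ᵥ v i) *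
        (φu z.2 ⬝ᵥ Gi.transpose.mulVec (u l)) - (φu z.2 ⬝ᵥ v i) *
        (φt z.1 ⬝ᵥ Gi.transpose.mulVec (u l))) = 0 := by
      apply Finset.sum_eq_zero
      intro z _
      rw [h4, h5]
      ring
    rw [e2, smul_zero, sub_zero]
    rw [Finset.sum_eq_single (i, l)]
    · have := h1 i i
      simp only [Matrix.mulVecLin_apply] at this
      have h3' := h3 l i
      simp only [Matrix.mulVecLin_apply] at h3'
      simp only [this, h2 l l, h3', if_true]
      ring
    · intro z _ hz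
      have a1 := h1 z.1 i
      have a3 := h3 z.2 i
      simp only [Matrix.mulVecLin_apply] at a1 a3
      rw [a1, a3, h2]
      by_cases hz1 : z.1 = i
      · have hz2 : z.2 ≠ l := fun h => hz (Prod.ext hz1 h)
        rw [if_neg hz2]
        ring
      · rw [if_neg hz1]
        ring
    · intro h
      exact absurd (Finset.mem_univ _) h
  have hinj : Function.Injective (L ∘ₗ BB φt φu) := by
    rw [← LinearMap.ker_eq_bot, LinearMap.ker_eq_bot']
    intro c hc
    ext ⟨i, l⟩
    rw [← key c i l]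
    have : L (BB φt φu c) = 0 := hc
    rw [this]
    simp
  have hle : LinearMap.range (L ∘ₗ BB φt φu) ≤ (Alt2 p d).map L := by
    rintro _ ⟨c, rfl⟩
    refine ⟨BB φt φu c, ⟨?_, ?_⟩, rfl⟩
    · intro i
      rw [BB_apply]
      apply Finset.sum_eq_zero
      intro z _
      ring
    · intro i j
      rw [BB_apply, BB_apply, ← Finset.sum_neg_distrib]
      apply Finset.sum_congr rfl
      intro z _
      ring
  have hf := LinearMap.finrank_range_of_inj hinj
  rw [Module.finrank_fintype_fun_eq_card, Fintype.card_prod, Fintype.card_fin,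
    Fintype.card_fin] at hf
  rw [← hf]
  exact Submodule.finrank_mono hle

end Pool.Agent.Lib.MP4ccb00
end

section
set_option autoImplicit false

namespace Pool.Agent.Lib.MP4ccb00.EQVM

open Subgroup
open scoped commutatorElement

theorem hm_of {d : ℕ} (y : Fin d → FG d) (i : Fin d) : hm y (FreeGroup.of i) = y i := by
  simp [hm]

theorem hm_id {d : ℕ} : hm (fun i : Fin d => FreeGroup.of i) = MonoidHom.id (FG d) := by
  refine FreeGroup.ext_hom _ _ fun i => ?_
  simp [hm]

theorem hm_comp {d : ℕ} (y z : Fin d → FG d) :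
    hm (fun i => hm z (y i)) = (hm z).comp (hm y) := by
  refine FreeGroup.ext_hom _ _ fun i => ?_
  rw [MonoidHom.comp_apply, hm_of, hm_of]

theorem rel_refl {d : ℕ} (R : Subgroup (FG d)) : Rel R R := by
  refine ⟨fun i => FreeGroup.of i, ?_, ?_⟩
  · rw [hm_id, Subgroup.comap_id]
  · rw [hm_id, MonoidHom.range_eq_top.2 Function.surjective_id, sup_top_eq]

theorem rel_trans {d : ℕ} {R R' R'' : Subgroup (FG d)} (h1 : Rel R R') (h2 : Rel R' R'') :
    Rel R R'' := by
  obtain ⟨y, hy, hy'⟩ := h1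
  obtain ⟨z, hz, hz'⟩ := h2
  refine ⟨fun i => hm z (y i), ?_, ?_⟩
  · rw [hm_comp, ← Subgroup.comap_comap, ← hz, hy]
  · rw [hm_comp, eq_top_iff, ← hz', sup_le_iff]
    refine ⟨le_sup_left, ?_⟩
    rw [MonoidHom.range_eq_map (hm z), ← hy', Subgroup.map_sup, sup_le_iff]
    constructor
    · refine le_trans ?_ le_sup_left
      rw [Subgroup.map_le_iff_le_comap, ← hz]
    · refine le_trans ?_ le_sup_right
      rintro _ ⟨_, ⟨w, rfl⟩, rfl⟩
      exact ⟨w, rfl⟩

theorem symm_data {d : ℕ} {R R' : Subgroup (FG d)} (hR' : R'.Normal)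
    (y : Fin d → FG d) (h1 : R = R'.comap (hm y)) (h2 : R' ⊔ (hm y).range = ⊤) :
    ∃ z : Fin d → FG d, (∀ w, w⁻¹ * hm y (hm z w) ∈ R') ∧ R' = R.comap (hm z) ∧
      R ⊔ (hm z).range = ⊤ := by
  have hex : ∀ i : Fin d, ∃ u : FG d, (FreeGroup.of i)⁻¹ * hm y u ∈ R' := by
    intro i
    have hi : FreeGroup.of i ∈ R' ⊔ (hm y).range := by rw [h2]; exact Subgroup.mem_top _
    rw [Subgroup.mem_sup_of_normal_left] at hi
    obtain ⟨r, hr, s, ⟨u, rfl⟩, hrs⟩ := hi
    refine ⟨u, ?_⟩
    have : (FreeGroup.of i)⁻¹ * hm y u = (FreeGroup.of i)⁻¹ * r⁻¹ * (FreeGroup.of i)⁻¹⁻¹ := by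
      rw [← hrs]; group
    rw [this]
    exact hR'.conj_mem _ (inv_mem hr) _
  choose z hz using hex
  have key : ∀ w, w⁻¹ * hm y (hm z w) ∈ R' := by
    have : ((QuotientGroup.mk' R').comp ((hm y).comp (hm z))) = QuotientGroup.mk' R' := by
      refine FreeGroup.ext_hom _ _ fun i => ?_
      rw [MonoidHom.comp_apply, MonoidHom.comp_apply, hm_of]
      exact (QuotientGroup.eq.2 (hz i)).symm
    intro w
    have hw := DFunLike.congr_fun this w
    exact QuotientGroup.eq.1 hw.symm
  refine ⟨z, key, ?_, ?_⟩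
  · ext w
    rw [h1, Subgroup.mem_comap, Subgroup.mem_comap]
    constructor
    · intro hw
      have := mul_mem hw (key w)
      simpa using this
    · intro hw
      have := mul_mem hw (inv_mem (key w))
      have h3 : hm y (hm z w) * (w⁻¹ * hm y (hm z w))⁻¹ = w := by group
      rwa [h3] at this
  · rw [eq_top_iff]
    intro w _
    have h3 := key (hm y w)
    have h4 : w⁻¹ * hm z (hm y w) ∈ R := by
      rw [h1, Subgroup.mem_comap, map_mul, map_inv]
      exact h3
    have h5 : w = hm z (hm y w) * (w⁻¹ * hm z (hm y w))⁻¹ := by group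
    rw [h5]
    exact mul_mem (Subgroup.mem_sup_right ⟨_, rfl⟩) (Subgroup.mem_sup_left (inv_mem h4))

theorem phi_hm {p d : ℕ} (z : Fin d → FG d) :
    Phi p (⊤ : Subgroup (FG d)) ≤ (Phi p (⊤ : Subgroup (FG d))).comap (hm z) := by
  show E.PhiP p ⊤ ≤ (E.PhiP p ⊤).comap (hm z)
  unfold E.PhiP
  rw [sup_le_iff]
  constructor
  · rw [Subgroup.commutator_le]
    intro a _ b _
    rw [Subgroup.mem_comap, map_commutatorElement]
    exact Subgroup.mem_sup_left (Subgroup.commutator_mem_commutator (Subgroup.mem_top _)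
      (Subgroup.mem_top _))
  · rw [Subgroup.closure_le]
    rintro _ ⟨y, -, rfl⟩
    rw [SetLike.mem_coe, Subgroup.mem_comap, map_pow]
    exact Subgroup.mem_sup_right (Subgroup.subset_closure ⟨hm z y, Subgroup.mem_top _, rfl⟩)

theorem psi_hm {p d : ℕ} (z : Fin d → FG d) :
    Psi p (FG d) ≤ (Psi p (FG d)).comap (hm z) := by
  unfold Psi
  rw [sup_le_iff]
  constructor
  · rw [Subgroup.commutator_le]
    intro a ha b _
    rw [Subgroup.mem_comap, map_commutatorElement]
    exact Subgroup.mem_sup_left (Subgroup.commutator_mem_commutator (phi_hm z ha)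
      (Subgroup.mem_top _))
  · rw [Subgroup.closure_le]
    rintro _ ⟨y, hy, rfl⟩
    rw [SetLike.mem_coe, Subgroup.mem_comap, map_pow]
    exact Subgroup.mem_sup_right (Subgroup.subset_closure ⟨hm z y, phi_hm z hy, rfl⟩)

end Pool.Agent.Lib.MP4ccb00.EQVM

namespace Pool.Agent.Lib.MP4ccb00

open Subgroup EQVM

theorem specEQV (hA : SpecABP) : SpecEQV := by
  intro p d n hp
  obtain ⟨hker, -, -, hmul, -, -⟩ := hA p d hp
  refine ⟨rel_refl, ?_, fun _ _ _ => rel_trans, ?_, ?_⟩
  · rintro R - R' hR' ⟨y, h1, h2⟩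
    obtain ⟨z, -, h3, h4⟩ := symm_data hR'.1 y h1 h2
    exact ⟨z, h3, h4⟩
  · rintro R hR R' hR' ⟨y, h1, h2⟩
    obtain ⟨z, -, h3, h4⟩ := symm_data hR'.1 y h1 h2
    refine ⟨hR', ?_⟩
    rw [h3]
    exact (psi_hm z).trans (Subgroup.comap_mono hR.2)
  · intro R hR R' hR' y h1 h2
    obtain ⟨z, hz, -, -⟩ := symm_data hR'.1 y h1 h2
    have h3 : mat p z * mat p y = 1 := by
      rw [← hmul]
      ext i j
      have h4 := hz (FreeGroup.of i)
      rw [hm_of] at h4
      have h5 := hR'.2.1 h4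
      rw [← hker, MonoidHom.mem_ker, map_mul, map_inv, inv_mul_eq_one] at h5
      show Multiplicative.toAdd (ab p (hm y (z i))) j = _
      rw [← h5]
      simp [ab, Matrix.one_apply, Pi.single_apply, eq_comm]
    exact IsUnit.of_mul_eq_one _ (mul_eq_one_comm.1 h3)

end Pool.Agent.Lib.MP4ccb00
end

section
/-!
Module BUR (helper23): the upper Burnside bound.
-/
set_option autoImplicit false

namespace Pool.Agent.Lib.MP4ccb00.BURM

open Subgroup EQVM
open scoped commutatorElement

/-- Frattini argument in a finite `p`-group. -/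
theorem frat {p : ℕ} (hp : p.Prime) {G : Type} [Group G] [Finite G] (hG : IsPGroup p G)
    (H : Subgroup G) (h : H ⊔ Phi p (⊤ : Subgroup G) = ⊤) : H = ⊤ := by
  have : Fact p.Prime := ⟨hp⟩
  by_contra hne
  obtain ⟨M, hM, hHM⟩ := (eq_top_or_exists_le_coatom H).resolve_left hne
  have : Group.IsNilpotent G := hG.isNilpotent
  have hMn : M.Normal :=
    NormalizerCondition.normal_of_coatom M Group.normalizerCondition_of_isNilpotent hM
  have hQ : IsPGroup p (G ⧸ M) := hG.to_quotient M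
  have hdvd : p ∣ Nat.card (G ⧸ M) := by
    rcases hQ.card_eq_or_dvd with h1 | h1
    · exfalso
      apply hM.1
      exact Subgroup.index_eq_one.1 h1
    · exact h1
  obtain ⟨x, hx⟩ := exists_prime_orderOf_dvd_card' p hdvd
  have hx1 : x ≠ 1 := by
    intro h1
    rw [h1, orderOf_one] at hx
    exact hp.one_lt.ne hx
  have htop : ∀ g : G, ∃ k : ℤ, x ^ k = QuotientGroup.mk' M g := by
    have h1 : (zpowers x).comap (QuotientGroup.mk' M) = ⊤ := by
      apply hM.2
      refine lt_of_le_of_ne ?_ ?_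
      · intro g hg
        have h2 : QuotientGroup.mk' M g = 1 := (QuotientGroup.eq_one_iff g).2 hg
        rw [mem_comap, h2]
        exact one_mem _
      · intro heq
        obtain ⟨g, hg⟩ := QuotientGroup.mk'_surjective M x
        have h2 : g ∈ (zpowers x).comap (QuotientGroup.mk' M) := by
          rw [mem_comap, hg]
          exact mem_zpowers x
        rw [← heq] at h2
        apply hx1
        rw [← hg]
        exact (QuotientGroup.eq_one_iff g).2 h2
    intro g
    have h2 : g ∈ (zpowers x).comap (QuotientGroup.mk' M) := by rw [h1]; exact mem_top _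
    exact mem_zpowers_iff.1 h2
  have hPhi : Phi p (⊤ : Subgroup G) ≤ M := by
    show E.PhiP p ⊤ ≤ M
    unfold E.PhiP
    rw [sup_le_iff, Subgroup.commutator_le, Subgroup.closure_le]
    constructor
    · intro a _ b _
      obtain ⟨k, hk⟩ := htop a
      obtain ⟨l, hl⟩ := htop b
      apply (QuotientGroup.eq_one_iff _).1
      show QuotientGroup.mk' M ⁅a, b⁆ = 1
      rw [commutatorElement_def, map_mul, map_mul, map_mul, map_inv, map_inv,
        ← hk, ← hl, ← zpow_neg, ← zpow_neg, ← zpow_add, ← zpow_add, ← zpow_add]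
      have : k + l + -k + -l = 0 := by ring
      rw [this, zpow_zero]
    · rintro _ ⟨y, -, rfl⟩
      obtain ⟨k, hk⟩ := htop y
      rw [SetLike.mem_coe]
      apply (QuotientGroup.eq_one_iff _).1
      show QuotientGroup.mk' M (y ^ p) = 1
      rw [map_pow, ← hk, ← zpow_natCast, ← zpow_mul, mul_comm, zpow_mul, zpow_natCast, ← hx,
        pow_orderOf_eq_one, one_zpow]
  apply hM.1
  rw [eq_top_iff, ← h, sup_le_iff]
  exact ⟨hHM, hPhi⟩

/-- Frattini argument for marked groups. -/
theorem gen (hA : SpecABP) {p d n : ℕ} (hp : p.Prime) {R : Subgroup (FG d)} (hR : R ∈ X p d n)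
    {y : Fin d → FG d} (hy : IsUnit (mat p y)) : R ⊔ (hm y).range = ⊤ := by
  obtain ⟨hker, -, hvec, -, -, -⟩ := hA p d hp
  have hRn : R.Normal := hR.1
  have hfin : Finite (FG d ⧸ R) := by
    apply Nat.finite_of_card_ne_zero
    have : Nat.card (FG d ⧸ R) = p ^ n := hR.2.2
    rw [this]
    exact pow_ne_zero _ hp.ne_zero
  have hG : IsPGroup p (FG d ⧸ R) := IsPGroup.of_card (n := n) hR.2.2
  have h1 := frat hp hG ((hm y).range.map (QuotientGroup.mk' R)) (by
    rw [eq_top_iff]
    intro g _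
    obtain ⟨w, rfl⟩ := QuotientGroup.mk'_surjective R g
    -- a word with the same image in `ab`
    obtain ⟨g', hg'⟩ := hy.exists_left_inv
    obtain ⟨-, hsurj, -, -, -, -⟩ := hA p d hp
    obtain ⟨v, hv⟩ := hsurj (Multiplicative.ofAdd
      (Matrix.vecMul (Multiplicative.toAdd (ab p w)) g'))
    have h2 : ab p (hm y v) = ab p w := by
      apply Multiplicative.toAdd.injective
      rw [hvec, hv, toAdd_ofAdd, Matrix.vecMul_vecMul, hg', Matrix.vecMul_one]
    have h3 : (hm y v)⁻¹ * w ∈ Phi p (⊤ : Subgroup (FG d)) := by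
      rw [← hker, MonoidHom.mem_ker, map_mul, map_inv, h2, inv_mul_cancel]
    have h4 : w = hm y v * ((hm y v)⁻¹ * w) := by group
    rw [h4, map_mul]
    apply mul_mem
    · exact mem_sup_left ⟨_, ⟨v, rfl⟩, rfl⟩
    · apply mem_sup_right
      have h5 : (Phi p (⊤ : Subgroup (FG d))) ≤
          (Phi p (⊤ : Subgroup (FG d ⧸ R))).comap (QuotientGroup.mk' R) := by
        show E.PhiP p ⊤ ≤ (E.PhiP p ⊤).comap (QuotientGroup.mk' R)
        unfold E.PhiP
        rw [sup_le_iff]
        constructor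
        · rw [Subgroup.commutator_le]
          intro a _ b _
          rw [Subgroup.mem_comap, map_commutatorElement]
          exact Subgroup.mem_sup_left (Subgroup.commutator_mem_commutator (Subgroup.mem_top _)
            (Subgroup.mem_top _))
        · rw [Subgroup.closure_le]
          rintro _ ⟨z, -, rfl⟩
          rw [SetLike.mem_coe, Subgroup.mem_comap, map_pow]
          exact Subgroup.mem_sup_right (Subgroup.subset_closure ⟨_, Subgroup.mem_top _, rfl⟩)
      exact h5 h3)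
  rw [eq_top_iff]
  intro w _
  have h2 : QuotientGroup.mk' R w ∈ (hm y).range.map (QuotientGroup.mk' R) := by
    rw [h1]; exact mem_top _
  obtain ⟨v, hv, hvw⟩ := h2
  have h3 : v⁻¹ * w ∈ R := QuotientGroup.eq.1 hvw
  have h4 : w = v * (v⁻¹ * w) := by group
  rw [h4]
  exact mul_mem (mem_sup_right hv) (mem_sup_left h3)

/-- the group attached to a matrix -/
noncomputable def Rg (p : ℕ) {d : ℕ} (R : Subgroup (FG d)) (g : GLp p d) : Subgroup (FG d) :=
  R.comap (hm (can p (g : Matrix (Fin d) (Fin d) (ZMod p))))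

theorem Rg_mem (hA : SpecABP) {p d n : ℕ} (hp : p.Prime) {R : Subgroup (FG d)}
    (hR : R ∈ X p d n) (g : GLp p d) :
    Rg p R g ∈ X p d n ∧ Rel (Rg p R g) R := by
  obtain ⟨hker, -, hvec, -, hcan, -⟩ := hA p d hp
  have hy : IsUnit (mat p (can p (g : Matrix (Fin d) (Fin d) (ZMod p)))) := by
    rw [hcan]
    exact g.isUnit
  have h1 := gen hA hp hR hy
  have hRn : R.Normal := hR.1
  refine ⟨⟨?_, ?_, ?_⟩, ⟨_, rfl, h1⟩⟩
  · unfold Rg
    infer_instance
  · intro w hw
    have h2 := hR.2.1 (show hm (can p (g : Matrix (Fin d) (Fin d) (ZMod p))) w ∈ R from hw)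
    rw [← hker, MonoidHom.mem_ker] at h2 ⊢
    have h3 := hvec (can p (g : Matrix (Fin d) (Fin d) (ZMod p))) w
    rw [h2, hcan, toAdd_one] at h3
    have h4 : Matrix.vecMul (Matrix.vecMul (Multiplicative.toAdd (ab p w))
        (g : Matrix (Fin d) (Fin d) (ZMod p))) ((g⁻¹ : GLp p d) : Matrix (Fin d) (Fin d) (ZMod p))
        = Multiplicative.toAdd (ab p w) := by
      rw [Matrix.vecMul_vecMul, ← Units.val_mul, mul_inv_cancel, Units.val_one, Matrix.vecMul_one]
    rw [← h3, Matrix.zero_vecMul] at h4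
    exact h4.symm
  · unfold Rg
    rw [Subgroup.index_comap, ← Subgroup.relIndex_sup_left, h1, relIndex_top_right]
    exact hR.2.2

theorem ImA_mem (hA : SpecABP) {p d n : ℕ} (hp : p.Prime) {R : Subgroup (FG d)}
    (hR : R ∈ X p d n) (g g0 : GLp p d) (h : Rg p R g = Rg p R g0) :
    g * g0⁻¹ ∈ ImA p (Rg p R g) := by
  obtain ⟨hker, -, hvec, hmul, hcan, -⟩ := hA p d hp
  have hRn : R.Normal := hR.1
  have hy0 : IsUnit (mat p (can p (g0 : Matrix (Fin d) (Fin d) (ZMod p)))) := by
    rw [hcan]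
    exact g0.isUnit
  have h1 := gen hA hp hR hy0
  set y := can p (g : Matrix (Fin d) (Fin d) (ZMod p)) with hydef
  set y0 := can p (g0 : Matrix (Fin d) (Fin d) (ZMod p)) with hy0def
  have hex : ∀ i : Fin d, ∃ u : FG d, (y i)⁻¹ * hm y0 u ∈ R := by
    intro i
    have hi : y i ∈ (hm y0).range ⊔ R := by rw [sup_comm, h1]; exact Subgroup.mem_top _
    rw [Subgroup.mem_sup_of_normal_right] at hi
    obtain ⟨s, ⟨u, rfl⟩, r, hr, hrs⟩ := hi
    refine ⟨u, ?_⟩
    have : (y i)⁻¹ * hm y0 u = r⁻¹ := by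
      rw [← hrs]; group
    rw [this]
    exact inv_mem hr
  choose a ha using hex
  have key : ∀ w, (hm y w)⁻¹ * hm y0 (hm a w) ∈ R := by
    have : ((QuotientGroup.mk' R).comp ((hm y0).comp (hm a))) =
        (QuotientGroup.mk' R).comp (hm y) := by
      refine FreeGroup.ext_hom _ _ fun i => ?_
      rw [MonoidHom.comp_apply, MonoidHom.comp_apply, MonoidHom.comp_apply, hm_of, hm_of]
      exact (QuotientGroup.eq.2 (ha i)).symm
    intro w
    have hw := DFunLike.congr_fun this w
    exact QuotientGroup.eq.1 hw.symm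
  refine ⟨a, ?_, ?_⟩
  · have h2 : mat p (fun i => hm y0 (a i)) = mat p y := by
      ext i j
      have h3 := hR.2.1 (ha i)
      rw [← hker, MonoidHom.mem_ker, map_mul, map_inv, inv_mul_eq_one] at h3
      unfold mat
      rw [h3]
    rw [hmul, hcan, hcan] at h2
    rw [Units.val_mul, ← h2, mul_assoc, ← Units.val_mul, mul_inv_cancel, Units.val_one, mul_one]
  · intro w hw
    rw [mem_comap]
    rw [h]
    show hm y0 (hm a w) ∈ R
    have h2 : hm y w ∈ R := hw
    have h3 := mul_mem h2 (key w)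
    have h4 : hm y w * ((hm y w)⁻¹ * hm y0 (hm a w)) = hm y0 (hm a w) := by group
    rwa [h4] at h3

end Pool.Agent.Lib.MP4ccb00.BURM

namespace Pool.Agent.Lib.MP4ccb00

open Subgroup BURM

theorem specBUR (hX : SpecXFIN) (hA : SpecABP) : SpecBUR := by
  classical
  intro p d n hp C hC hsat
  have : Fact p.Prime := ⟨hp⟩
  have : NeZero p := ⟨hp.ne_zero⟩
  have hCfin : C.Finite := (hX p d n hp).subset hC
  set S : Set (Subgroup (FG d) × GLp p d) := {x | x.1 ∈ C ∧ x.2 ∈ ImA p x.1} with hS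
  have hSfin : S.Finite := by
    refine (hCfin.prod (Set.finite_univ (α := GLp p d))).subset ?_
    rintro x ⟨hx, -⟩
    exact ⟨hx, Set.mem_univ _⟩
  have hSf : Finite S := hSfin
  unfold ncl
  rw [← Nat.card_coe_set_eq, ← Nat.card_prod]
  -- the choice of a matrix
  let g0 : Subgroup (FG d) → Subgroup (FG d) → GLp p d := fun R R1 =>
    if h : ∃ g, Rg p R g = R1 then h.choose else 1
  have hg0 : ∀ R g, Rg p R (g0 R (Rg p R g)) = Rg p R g := by
    intro R g
    have h : ∃ g', Rg p R g' = Rg p R g := ⟨g, rfl⟩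
    show Rg p R (if h : ∃ g', Rg p R g' = Rg p R g then h.choose else 1) = _
    rw [dif_pos h]
    exact h.choose_spec
  have hmem : ∀ R ∈ C, ∀ g, Rg p R g ∈ C := by
    intro R hR g
    have h1 := Rg_mem hA hp (hC hR) g
    obtain ⟨y, h2, h3⟩ := h1.2
    obtain ⟨z, -, h4, h5⟩ := EQVM.symm_data (hC hR).1 y h2 h3
    exact hsat R hR _ h1.1 ⟨z, h4, h5⟩
  let f : Quot (fun R R' : C => Rel R.1 R'.1) × GLp p d → S := fun x =>
    ⟨(Rg p (x.1.out).1 x.2, x.2 * (g0 (x.1.out).1 (Rg p (x.1.out).1 x.2))⁻¹),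
      hmem _ (x.1.out).2 _, ImA_mem hA hp (hC (x.1.out).2) _ _ (hg0 _ _).symm⟩
  apply Nat.card_le_card_of_injective f
  rintro ⟨c, g⟩ ⟨c', g'⟩ h
  have h1 : Rg p c.out.1 g = Rg p c'.out.1 g' := congrArg (fun x : S => x.1.1) h
  have h2 : g * (g0 c.out.1 (Rg p c.out.1 g))⁻¹ = g' * (g0 c'.out.1 (Rg p c'.out.1 g'))⁻¹ :=
    congrArg (fun x : S => x.1.2) h
  have hcc : c = c' := by
    have e1 : Quot.mk (fun R R' : C => Rel R.1 R'.1) ⟨Rg p c.out.1 g, hmem _ c.out.2 _⟩ = c := by
      conv_rhs => rw [← Quot.out_eq c]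
      exact Quot.sound (Rg_mem hA hp (hC c.out.2) g).2
    have e2 : Quot.mk (fun R R' : C => Rel R.1 R'.1) ⟨Rg p c'.out.1 g', hmem _ c'.out.2 _⟩ = c' := by
      conv_rhs => rw [← Quot.out_eq c']
      exact Quot.sound (Rg_mem hA hp (hC c'.out.2) g').2
    rw [← e1, ← e2]
    congr 1
    exact Subtype.ext h1
  subst hcc
  rw [← h1] at h2
  rw [mul_right_cancel h2]

end Pool.Agent.Lib.MP4ccb00
end

section
set_option autoImplicit false

namespace Pool.Agent.Lib.MP4ccb00.CLSM

open Subgroup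

/-- `Rel` on a set of subgroups. -/
abbrev rr {d : ℕ} (C : Set (Subgroup (FG d))) : C → C → Prop := fun R R' => Rel R.1 R'.1

theorem ncl_eq {d : ℕ} (C : Set (Subgroup (FG d))) : ncl C = Nat.card (Quot (rr C)) := rfl

theorem rel_of_eq (hE : SpecEQV) {p d n : ℕ} (hp : p.Prime) {C : Set (Subgroup (FG d))}
    (hC : C ⊆ X p d n) {a b : C} (h : Quot.mk (rr C) a = Quot.mk (rr C) b) : Rel a.1 b.1 := by
  obtain ⟨h1, h2, h3, -, -⟩ := hE p d n hp
  have h4 := Quot.eqvGen_exact h
  clear h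
  induction h4 with
  | rel x y h => exact h
  | refl x => exact h1 _
  | symm x y _ ih => exact h2 _ (hC x.2) _ (hC y.2) ih
  | trans x y z _ _ ih1 ih2 => exact h3 _ _ _ ih1 ih2

theorem fin (hX : SpecXFIN) {p d n : ℕ} (hp : p.Prime) {C : Set (Subgroup (FG d))}
    (hC : C ⊆ X p d n) : Finite C := (Set.Finite.subset (hX p d n hp) hC).to_subtype

theorem finq (hX : SpecXFIN) {p d n : ℕ} (hp : p.Prime) {C : Set (Subgroup (FG d))}
    (hC : C ⊆ X p d n) : Finite (Quot (rr C)) := by
  have := fin hX hp hC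
  exact Finite.of_surjective (Quot.mk (rr C)) Quot.mk_surjective

/-- the map induced by an inclusion -/
def incl {d : ℕ} {C C' : Set (Subgroup (FG d))} (h : C ⊆ C') : Quot (rr C) → Quot (rr C') :=
  Quot.map (Set.inclusion h) (fun _ _ hab => hab)

theorem incl_inj (hE : SpecEQV) {p d n : ℕ} (hp : p.Prime) {C C' : Set (Subgroup (FG d))}
    (h : C ⊆ C') (hC' : C' ⊆ X p d n) : Function.Injective (incl h) := by
  intro a b
  induction a using Quot.ind with
  | mk a =>
    induction b using Quot.ind with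
    | mk b =>
      intro hab
      exact Quot.sound (rel_of_eq hE hp hC' hab)

end Pool.Agent.Lib.MP4ccb00.CLSM

namespace Pool.Agent.Lib.MP4ccb00

open Subgroup CLSM

theorem specCLS (hX : SpecXFIN) (hE : SpecEQV) : SpecCLS := by
  intro p d n hp
  have key3 : ∀ C1 C2 : Set (Subgroup (FG d)), C1 ∪ C2 ⊆ X p d n →
      ncl (C1 ∪ C2) ≤ ncl C1 + ncl C2 := by
    intro C1 C2 hC
    have hC1 : C1 ⊆ X p d n := Set.subset_union_left.trans hC
    have hC2 : C2 ⊆ X p d n := Set.subset_union_right.trans hC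
    have := finq hX hp hC1
    have := finq hX hp hC2
    rw [ncl_eq, ncl_eq, ncl_eq, ← Nat.card_sum]
    refine Nat.card_le_card_of_surjective
      (Sum.elim (incl (Set.subset_union_left : C1 ⊆ C1 ∪ C2))
        (incl (Set.subset_union_right : C2 ⊆ C1 ∪ C2))) ?_
    intro q
    induction q using Quot.ind with
    | mk a =>
      obtain ⟨a, ha⟩ := a
      rcases ha with ha | ha
      · exact ⟨Sum.inl (Quot.mk _ ⟨a, ha⟩), rfl⟩
      · exact ⟨Sum.inr (Quot.mk _ ⟨a, ha⟩), rfl⟩
  refine ⟨?_, ?_, key3, ?_, ?_⟩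
  · intro C C' h hC'
    have := finq hX hp hC'
    rw [ncl_eq, ncl_eq]
    exact Nat.card_le_card_of_injective (incl h) (incl_inj hE hp h hC')
  · intro C C' h hC' hs
    have hCX : C ⊆ X p d n := h.trans hC'
    have hDX : C' \ C ⊆ X p d n := Set.sdiff_subset.trans hC'
    have := finq hX hp hCX
    have := finq hX hp hDX
    rw [ncl_eq, ncl_eq, ncl_eq, ← Nat.card_sum]
    symm
    refine Nat.card_congr (Equiv.ofBijective
      (Sum.elim (incl h) (incl (Set.sdiff_subset : C' \ C ⊆ C'))) ⟨?_, ?_⟩)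
    · rintro (a | a) (b | b) hab
      · exact congrArg Sum.inl (incl_inj hE hp h hC' hab)
      · exfalso
        induction a using Quot.ind with
        | mk a =>
          induction b using Quot.ind with
          | mk b =>
            have := rel_of_eq hE hp hC' hab
            exact b.2.2 (hs a.1 a.2 b.1 b.2.1 this)
      · exfalso
        induction a using Quot.ind with
        | mk a =>
          induction b using Quot.ind with
          | mk b =>
            have := rel_of_eq hE hp hC' hab.symm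
            exact a.2.2 (hs b.1 b.2 a.1 a.2.1 this)
      · exact congrArg Sum.inr (incl_inj hE hp Set.sdiff_subset hC' hab)
    · intro q
      induction q using Quot.ind with
      | mk a =>
        obtain ⟨a, ha⟩ := a
        by_cases hc : a ∈ C
        · exact ⟨Sum.inl (Quot.mk _ ⟨a, hc⟩), rfl⟩
        · exact ⟨Sum.inr (Quot.mk _ ⟨a, ha, hc⟩), rfl⟩
  · intro C hC
    have := fin hX hp hC
    rw [ncl_eq, ← Nat.card_coe_set_eq]
    exact Nat.card_le_card_of_surjective _ Quot.mk_surjective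
  · intro ι s C
    classical
    induction s using Finset.induction_on with
    | empty =>
      intro _
      have : IsEmpty (Quot (rr (⋃ i ∈ (∅ : Finset ι), C i))) := by
        constructor
        intro q
        induction q using Quot.ind with
        | mk a =>
          obtain ⟨a, ha⟩ := a
          simp at ha
      rw [ncl_eq]
      simp
    | insert a s ha ih =>
      intro hC
      rw [Finset.set_biUnion_insert, Finset.sum_insert ha]
      have h1 : C a ⊆ X p d n := hC a (Finset.mem_insert_self a s)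
      have h2 : ∀ i ∈ s, C i ⊆ X p d n := fun i hi => hC i (Finset.mem_insert_of_mem hi)
      refine (key3 _ _ (Set.union_subset h1 (Set.iUnion₂_subset h2))).trans ?_
      exact Nat.add_le_add_left (ih h2) _

end Pool.Agent.Lib.MP4ccb00
end

section
/-!
Module CNT: the number of good marked groups.
-/
set_option autoImplicit false

namespace Pool.Agent.Lib.MP4ccb00

open Subgroup Module E

namespace CNTM

theorem YY_le (p d : ℕ) (R : Subgroup (FG d)) : YY p ⊤ (Phi p ⊤) R ≤ Ms p d := by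
  intro φ hφ
  obtain ⟨h1, h2, h3, _⟩ := hφ
  refine ⟨h1, h2, h3, ?_⟩
  intro x hx hx1
  rw [Subgroup.mem_bot] at hx1
  subst hx1
  have := h2 1 hx 1 hx
  rw [mul_one] at this
  have h : φ 1 + 0 = φ 1 + φ 1 := by rw [add_zero]; exact this
  exact (add_left_cancel h).symm

end CNTM

open CNTM in
theorem specCNT (hGOO : SpecGOO) (hDMS : SpecDMS) : SpecCNT := by
  intro p d n hp hdn
  have : Fact p.Prime := ⟨hp⟩
  obtain ⟨g1, g2, g3, -⟩ := hGOO p d n hp hdn
  obtain ⟨hfin, hdim⟩ := hDMS p d hp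
  set m := d * (d + 1) / 2 with hm
  have := hfin
  have he : finrank (ZMod p) (Ms p d) = finrank (ZMod p) (Fin m → ZMod p) := by
    rw [hdim, finrank_fin_fun]
  let e : Ms p d ≃ₗ[ZMod p] (Fin m → ZMod p) := LinearEquiv.ofFinrankEq _ _ he
  let Φ : Good p d n → {W : Submodule (ZMod p) (Fin m → ZMod p) // finrank (ZMod p) W = n - d} :=
    fun R => ⟨((YY p ⊤ (Phi p ⊤) R.1).comap (Ms p d).subtype).map e.toLinearMap, by
      have h1 : finrank (ZMod p) (((YY p ⊤ (Phi p ⊤) R.1).comap (Ms p d).subtype).map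
          e.toLinearMap) = finrank (ZMod p) ((YY p ⊤ (Phi p ⊤) R.1).comap (Ms p d).subtype) :=
        LinearEquiv.finrank_map_eq e _
      rw [h1]
      have h2 : finrank (ZMod p) ((YY p ⊤ (Phi p ⊤) R.1).comap (Ms p d).subtype) =
          finrank (ZMod p) (((YY p ⊤ (Phi p ⊤) R.1).comap (Ms p d).subtype).map
            (Ms p d).subtype) := (Submodule.finrank_map_subtype_eq _ _).symm
      rw [h2, Submodule.map_comap_subtype, inf_eq_right.2 (YY_le p d R.1)]
      exact g1 R.1 R.2⟩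
  have hΦ : Function.Bijective Φ := by
    constructor
    · intro R R' h
      have h1 := congrArg Subtype.val h
      have h2 : ((YY p ⊤ (Phi p ⊤) R.1).comap (Ms p d).subtype) =
          ((YY p ⊤ (Phi p ⊤) R'.1).comap (Ms p d).subtype) :=
        Submodule.map_injective_of_injective e.injective h1
      have h3 := congrArg (Submodule.map (Ms p d).subtype) h2
      rw [Submodule.map_comap_subtype, Submodule.map_comap_subtype, inf_eq_right.2 (YY_le p d R.1),
        inf_eq_right.2 (YY_le p d R'.1)] at h3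
      exact Subtype.ext (g2 R.1 R.2 R'.1 R'.2 h3)
    · rintro ⟨W, hW⟩
      have h1 : finrank (ZMod p) ((W.comap e.toLinearMap).map (Ms p d).subtype) = n - d := by
        rw [Submodule.finrank_map_subtype_eq]
        have h2 : (W.comap e.toLinearMap).map e.toLinearMap = W :=
          Submodule.map_comap_eq_of_surjective e.surjective _
        have h3 : finrank (ZMod p) ((W.comap e.toLinearMap).map e.toLinearMap) =
            finrank (ZMod p) (W.comap e.toLinearMap) := LinearEquiv.finrank_map_eq e _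
        rw [← h3, h2, hW]
      have h0 : (W.comap e.toLinearMap).map (Ms p d).subtype ≤ Ms p d :=
        Submodule.map_subtype_le _ _
      obtain ⟨R, hR, hRW⟩ := g3 _ h0 h1
      refine ⟨⟨R, hR⟩, Subtype.ext ?_⟩
      show ((YY p ⊤ (Phi p ⊤) R).comap (Ms p d).subtype).map e.toLinearMap = W
      rw [hRW, Submodule.comap_map_eq_of_injective (Submodule.injective_subtype _)]
      exact Submodule.map_comap_eq_of_surjective e.surjective _
  have h1 : (Good p d n).ncard = Nat.card (Good p d n) := (Nat.card_coe_set_eq _).symm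
  rw [h1, Nat.card_congr (Equiv.ofBijective Φ hΦ)]
  rfl

end Pool.Agent.Lib.MP4ccb00
end

section
/-!
# MP_4ccb00_al, library part: decomposition of the number of groups (DEC), also for an isomorphism
invariant property of groups (`DECM.gen`)
-/
set_option autoImplicit false

namespace Pool.Agent.Lib.MP4ccb00

open Subgroup
open scoped commutatorElement

namespace DECM

/-! ### An abstract count -/

theorem quot_exact {α : Type} {r : α → α → Prop} (hr : Equivalence r) {a b : α}
    (h : Quot.mk r a = Quot.mk r b) : r a b :=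
  hr.eqvGen_iff.1 (Quot.eqvGen_exact h)

theorem card_quot {α : Type} (r : α → α → Prop) (hr : Equivalence r) (n : ℕ) (β : ℕ → Type)
    (s : ∀ d, β d → β d → Prop) (f : ∀ d, β d → α) (h1 : ∀ d b b', s d b b' ↔ r (f d b) (f d b'))
    (h2 : ∀ d d' b b', r (f d b) (f d' b') → d = d')
    (h3 : ∀ a, ∃ d, d < n + 1 ∧ ∃ b : β d, r (f d b) a) (hfin : ∀ d, Finite (β d)) :
    Nat.card (Quot r) = ∑ d ∈ Finset.range (n + 1), Nat.card (Quot (s d)) := by
  let F : (Σ d : Fin (n + 1), Quot (s d)) → Quot r := fun x =>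
    Quot.map (f x.1) (fun b b' h => (h1 x.1 b b').1 h) x.2
  have hF : Function.Bijective F := by
    constructor
    · rintro ⟨d, x⟩ ⟨d', x'⟩ hx
      revert hx
      refine Quot.inductionOn x fun b => ?_
      refine Quot.inductionOn x' fun b' => ?_
      intro hx
      have hx' : r (f d b) (f d' b') := quot_exact hr hx
      have hd : d = d' := Fin.ext (h2 _ _ _ _ hx')
      subst hd
      exact congrArg (Sigma.mk d) (Quot.sound ((h1 _ _ _).2 hx'))
    · intro x
      refine Quot.inductionOn x fun a => ?_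
      obtain ⟨d, hd, b, hb⟩ := h3 a
      exact ⟨⟨⟨d, hd⟩, Quot.mk _ b⟩, Quot.sound hb⟩
  have hq : ∀ d, Finite (Quot (s d)) := fun d =>
    have := hfin d
    Finite.of_surjective (Quot.mk (s d)) Quot.mk_surjective
  rw [← Nat.card_congr (Equiv.ofBijective F hF)]
  have : ∀ d : Fin (n + 1), Finite (Quot (s d)) := fun d => hq d
  rw [Nat.card_sigma, Finset.sum_range]

/-! ### `Phi p ⊤` -/

theorem phi_map {p : ℕ} {G H : Type} [Group G] [Group H] (f : G →* H)
    (hf : Function.Surjective f) :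
    (Phi p (⊤ : Subgroup G)).map f = Phi p (⊤ : Subgroup H) := by
  have ht : (⊤ : Subgroup G).map f = ⊤ := Subgroup.map_top_of_surjective f hf
  show (⁅(⊤ : Subgroup G), ⊤⁆ ⊔ closure {x | ∃ y ∈ (⊤ : Subgroup G), x = y ^ p}).map f =
    ⁅(⊤ : Subgroup H), ⊤⁆ ⊔ closure {x | ∃ y ∈ (⊤ : Subgroup H), x = y ^ p}
  rw [Subgroup.map_sup, Subgroup.map_commutator, ht, MonoidHom.map_closure]
  congr 2
  ext x
  constructor
  · rintro ⟨_, ⟨y, -, rfl⟩, rfl⟩
    exact ⟨f y, Subgroup.mem_top _, by rw [map_pow]⟩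
  · rintro ⟨y, -, rfl⟩
    obtain ⟨z, rfl⟩ := hf y
    exact ⟨z ^ p, ⟨z, Subgroup.mem_top _, rfl⟩, by rw [map_pow]⟩

theorem phi_index {p : ℕ} {G H : Type} [Group G] [Group H] (f : G →* H)
    (hf : Function.Surjective f) (hk : f.ker ≤ Phi p (⊤ : Subgroup G)) :
    (Phi p (⊤ : Subgroup H)).index = (Phi p (⊤ : Subgroup G)).index := by
  have h1 : (Phi p (⊤ : Subgroup H)).comap f = Phi p (⊤ : Subgroup G) := by
    rw [← phi_map f hf, Subgroup.comap_map_eq, sup_eq_left.2 hk]
  rw [← h1, Subgroup.index_comap_of_surjective _ hf]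

/-- the number of generators is an invariant -/
theorem dinv (hABP : SpecABP) {p d d' n : ℕ} (hp : p.Prime) {R : Subgroup (FG d)}
    {R' : Subgroup (FG d')} [R.Normal] [R'.Normal] (hR : R ∈ X p d n) (hR' : R' ∈ X p d' n)
    (e : (FG d ⧸ R) ≃* (FG d' ⧸ R')) : d = d' := by
  have h1 : ∀ (d : ℕ) (R : Subgroup (FG d)) [R.Normal], R ∈ X p d n →
      (Phi p (⊤ : Subgroup (FG d ⧸ R))).index = p ^ d := by
    intro d R _ hR
    rw [phi_index (QuotientGroup.mk' R) (QuotientGroup.mk'_surjective R)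
      (by rw [QuotientGroup.ker_mk']; exact hR.2.1)]
    exact (hABP p d hp).2.2.2.2.2
  have h2 := phi_index (p := p) e.toMonoidHom e.surjective
    (by
      have : e.toMonoidHom.ker = ⊥ := (MonoidHom.ker_eq_bot_iff _).2 e.injective
      rw [this]
      exact bot_le)
  rw [h1 d R hR, h1 d' R' hR'] at h2
  exact (Nat.pow_right_injective hp.two_le h2).symm

/-! ### `Rel` and isomorphisms -/

theorem rel_iff {d : ℕ} (R R' : Subgroup (FG d)) [R.Normal] [R'.Normal] :
    Rel R R' ↔ Nonempty ((FG d ⧸ R) ≃* (FG d ⧸ R')) := by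
  constructor
  · rintro ⟨y, h1, h2⟩
    let f : (FG d ⧸ R) →* (FG d ⧸ R') := QuotientGroup.map R R' (hm y) h1.le
    refine ⟨MulEquiv.ofBijective f ⟨?_, ?_⟩⟩
    · rw [← MonoidHom.ker_eq_bot_iff, eq_bot_iff]
      intro x
      refine QuotientGroup.induction_on x fun w => ?_
      intro hw
      rw [MonoidHom.mem_ker] at hw
      have hw' : (QuotientGroup.mk (hm y w) : FG d ⧸ R') = 1 := hw
      rw [QuotientGroup.eq_one_iff] at hw'
      rw [Subgroup.mem_bot, QuotientGroup.eq_one_iff, h1, Subgroup.mem_comap]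
      exact hw'
    · intro x
      refine QuotientGroup.induction_on x fun v => ?_
      have hv : v ∈ R' ⊔ (hm y).range := by rw [h2]; exact Subgroup.mem_top _
      rw [Subgroup.mem_sup_of_normal_left] at hv
      obtain ⟨r, hr, s, ⟨w, rfl⟩, hrs⟩ := hv
      refine ⟨QuotientGroup.mk w, ?_⟩
      show (QuotientGroup.mk (hm y w) : FG d ⧸ R') = QuotientGroup.mk v
      rw [← hrs]
      show _ = (QuotientGroup.mk r : FG d ⧸ R') * QuotientGroup.mk (hm y w)
      rw [(QuotientGroup.eq_one_iff r).2 hr, one_mul]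
  · rintro ⟨e⟩
    have hex : ∀ i : Fin d, ∃ u : FG d, (QuotientGroup.mk u : FG d ⧸ R') =
        e (QuotientGroup.mk (FreeGroup.of i)) := fun i => QuotientGroup.mk_surjective _
    choose y hy using hex
    have key : (QuotientGroup.mk' R').comp (hm y) = e.toMonoidHom.comp (QuotientGroup.mk' R) := by
      refine FreeGroup.ext_hom _ _ fun i => ?_
      rw [MonoidHom.comp_apply, EQVM.hm_of]
      exact hy i
    have key' : ∀ w, (QuotientGroup.mk (hm y w) : FG d ⧸ R') = e (QuotientGroup.mk w) := fun w =>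
      DFunLike.congr_fun key w
    refine ⟨y, ?_, ?_⟩
    · ext w
      rw [Subgroup.mem_comap, ← QuotientGroup.eq_one_iff, ← QuotientGroup.eq_one_iff, key' w,
        map_eq_one_iff e e.injective]
    · rw [eq_top_iff]
      intro v _
      obtain ⟨w, hw⟩ := QuotientGroup.mk_surjective (e.symm (QuotientGroup.mk v))
      have h1 : (QuotientGroup.mk (hm y w) : FG d ⧸ R') = QuotientGroup.mk v := by
        rw [key' w, hw, MulEquiv.apply_symm_apply]
      have h2 : (hm y w)⁻¹ * v ∈ R' := QuotientGroup.eq.1 h1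
      have h3 : v = hm y w * ((hm y w)⁻¹ * v) := by group
      rw [h3]
      exact mul_mem (mem_sup_right ⟨w, rfl⟩) (mem_sup_left h2)

/-! ### Generators of a finite `p`-group -/

theorem coatom_phi {p : ℕ} [hp : Fact p.Prime] {G : Type} [Group G] [Finite G]
    (hG : IsPGroup p G) (M : Subgroup G) (hM : IsCoatom M) : Phi p (⊤ : Subgroup G) ≤ M := by
  have := hG.isNilpotent
  have hn : M.Normal :=
    Subgroup.NormalizerCondition.normal_of_coatom M Group.normalizerCondition_of_isNilpotent hM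
  -- an element of order `p` in the quotient
  have hQ : IsPGroup p (G ⧸ M) := hG.to_quotient M
  have hnt : Nontrivial (G ⧸ M) := by
    rw [QuotientGroup.nontrivial_iff]
    exact hM.1
  have hdvd : p ∣ Nat.card (G ⧸ M) := by
    obtain ⟨k, hk0, hk⟩ := (IsPGroup.nontrivial_iff_card hQ).1 hnt
    rw [hk]
    exact dvd_pow_self p hk0.ne'
  obtain ⟨g, hg⟩ := exists_prime_orderOf_dvd_card' (G := G ⧸ M) p hdvd
  have hgen : ∀ x : G ⧸ M, x ∈ zpowers g := by
    have hlt : M < (zpowers g).comap (QuotientGroup.mk' M) := by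
      refine lt_of_le_of_ne ?_ ?_
      · intro m hm'
        rw [Subgroup.mem_comap, QuotientGroup.mk'_apply, (QuotientGroup.eq_one_iff m).2 hm']
        exact one_mem _
      · intro h
        obtain ⟨a, ha⟩ := QuotientGroup.mk_surjective g
        have : a ∈ M := by
          rw [h, Subgroup.mem_comap, QuotientGroup.mk'_apply, ha]
          exact mem_zpowers g
        rw [← QuotientGroup.eq_one_iff, ha] at this
        rw [this, orderOf_one] at hg
        exact hp.out.one_lt.ne hg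
    have htop := hM.2 _ hlt
    intro x
    obtain ⟨a, rfl⟩ := QuotientGroup.mk_surjective x
    have : a ∈ (zpowers g).comap (QuotientGroup.mk' M) := by rw [htop]; exact Subgroup.mem_top _
    exact this
  have hgp : g ^ p = 1 := by rw [← hg]; exact pow_orderOf_eq_one g
  have hcomm : ∀ x y : G ⧸ M, x * y = y * x := by
    intro x y
    obtain ⟨a, rfl⟩ := mem_zpowers_iff.1 (hgen x)
    obtain ⟨b, rfl⟩ := mem_zpowers_iff.1 (hgen y)
    rw [← zpow_add, ← zpow_add, add_comm]
  show ⁅(⊤ : Subgroup G), ⊤⁆ ⊔ closure {x | ∃ y ∈ (⊤ : Subgroup G), x = y ^ p} ≤ M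
  rw [sup_le_iff, Subgroup.commutator_le, Subgroup.closure_le]
  constructor
  · intro a _ b _
    rw [← QuotientGroup.eq_one_iff]
    rw [commutatorElement_def]
    show (QuotientGroup.mk a : G ⧸ M) * QuotientGroup.mk b * (QuotientGroup.mk a)⁻¹ *
      (QuotientGroup.mk b)⁻¹ = 1
    rw [hcomm (QuotientGroup.mk a) (QuotientGroup.mk b)]
    group
  · rintro _ ⟨y, -, rfl⟩
    rw [SetLike.mem_coe, ← QuotientGroup.eq_one_iff]
    show (QuotientGroup.mk y : G ⧸ M) ^ p = 1
    obtain ⟨a, ha⟩ := mem_zpowers_iff.1 (hgen (QuotientGroup.mk y))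
    rw [← ha, ← zpow_natCast, ← zpow_mul, mul_comm, zpow_mul, zpow_natCast, hgp, one_zpow]

theorem frattini {p : ℕ} [hp : Fact p.Prime] {G : Type} [Group G] [Finite G]
    (hG : IsPGroup p G) (H : Subgroup G) (h : H ⊔ Phi p (⊤ : Subgroup G) = ⊤) : H = ⊤ := by
  rcases eq_top_or_exists_le_coatom H with h' | ⟨M, hM, hHM⟩
  · exact h'
  · exfalso
    apply hM.1
    rw [eq_top_iff, ← h, sup_le_iff]
    exact ⟨hHM, coatom_phi hG M hM⟩

theorem phi_normal (p : ℕ) (G : Type) [Group G] (K : Subgroup G) (h : Phi p (⊤ : Subgroup G) ≤ K) :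
    K.Normal := by
  constructor
  intro k hk g
  have h1 : ⁅g, k⁆ ∈ K := h (ABPM.mem_phi_comm g k)
  have h2 : g * k * g⁻¹ = ⁅g, k⁆ * k := by
    rw [commutatorElement_def]
    group
  rw [h2]
  exact mul_mem h1 hk

/-- a relation with a nonzero exponent sum makes a generator redundant -/
theorem redundant {p : ℕ} [hp : Fact p.Prime] {G : Type} [Group G] {d : ℕ} (t : Fin d → G)
    (i : Fin d) (K : Subgroup G) (hK : Phi p (⊤ : Subgroup G) ≤ K) (hj : ∀ j, j ≠ i → t j ∈ K)
    (w : FG d) (hw : FreeGroup.lift t w = 1)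
    (hi : Multiplicative.toAdd (ab p w) i ≠ 0) : t i ∈ K := by
  have := phi_normal p G K hK
  have hup : (QuotientGroup.mk (t i) : G ⧸ K) ^ p = 1 := by
    show (QuotientGroup.mk (t i ^ p) : G ⧸ K) = 1
    rw [QuotientGroup.eq_one_iff]
    exact hK (ABPM.mem_phi_pow (t i))
  let χ : ZMod p →+ Additive (G ⧸ K) :=
    ZMod.lift p ⟨zmultiplesHom _ (Additive.ofMul (QuotientGroup.mk (t i) : G ⧸ K)), by
      rw [zmultiplesHom_apply, natCast_zsmul, ← ofMul_pow, hup, ofMul_one]⟩
  have hχ1 : χ 1 = Additive.ofMul (QuotientGroup.mk (t i) : G ⧸ K) := by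
    have h := ZMod.lift_coe p ⟨zmultiplesHom _ (Additive.ofMul (QuotientGroup.mk (t i) : G ⧸ K)), by
      rw [zmultiplesHom_apply, natCast_zsmul, ← ofMul_pow, hup, ofMul_one]⟩ 1
    rw [Int.cast_one] at h
    rw [show χ 1 = _ from h]
    simp
  have key : ∀ v : FG d, Additive.ofMul (QuotientGroup.mk (FreeGroup.lift t v) : G ⧸ K) =
      χ (Multiplicative.toAdd (ab p v) i) := by
    intro v
    refine FreeGroup.induction_on v ?_ (fun j => ?_) (fun j ih => ?_) (fun x y hx hy => ?_)
    · rw [map_one, map_one, QuotientGroup.mk_one, toAdd_one, Pi.zero_apply, map_zero, ofMul_one]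
    · rw [FreeGroup.lift_apply_of, ABPM.ab_of, toAdd_ofAdd]
      by_cases h : j = i
      · subst h
        rw [Pi.single_eq_same, hχ1]
      · rw [Pi.single_eq_of_ne (Ne.symm h), map_zero, (QuotientGroup.eq_one_iff (t j)).2 (hj j h),
          ofMul_one]
    · rw [map_inv, map_inv, QuotientGroup.mk_inv, ofMul_inv, ih, toAdd_inv, Pi.neg_apply, map_neg]
    · rw [map_mul, map_mul, QuotientGroup.mk_mul, ofMul_mul, hx, hy, toAdd_mul, Pi.add_apply,
        map_add]
  have h0 : χ (Multiplicative.toAdd (ab p w) i) = 0 := by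
    rw [← key w, hw, QuotientGroup.mk_one, ofMul_one]
  set c := Multiplicative.toAdd (ab p w) i with hc
  have h1 : χ 1 = 0 := by
    have h2 : (1 : ZMod p) = (c⁻¹).val • c := by
      rw [nsmul_eq_mul, ZMod.natCast_zmod_val, inv_mul_cancel₀ hi]
    rw [h2, map_nsmul, h0, smul_zero]
  rw [hχ1] at h1
  have h3 : (QuotientGroup.mk (t i) : G ⧸ K) = 1 := h1
  exact (QuotientGroup.eq_one_iff (t i)).1 h3

theorem exists_pres (hABP : SpecABP) {p n : ℕ} (hp : p.Prime) (G : Type) [Group G]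
    (hG : Nat.card G = p ^ n) : ∃ d, d < n + 1 ∧ ∃ (R : Subgroup (FG d)) (_ : R.Normal),
      R ∈ X p d n ∧ Nonempty ((FG d ⧸ R) ≃* G) := by
  classical
  have : Fact p.Prime := ⟨hp⟩
  have : Finite G := Nat.finite_of_card_ne_zero (by rw [hG]; exact (pow_pos hp.pos n).ne')
  have hpg : IsPGroup p G := IsPGroup.of_card hG
  have hex : ∃ d, ∃ t : Fin d → G, closure (Set.range t) = ⊤ := by
    refine ⟨Nat.card G, (Finite.equivFin G).symm, ?_⟩
    rw [Set.range_eq_univ.2 (Equiv.surjective _), Subgroup.closure_univ]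
  obtain ⟨t, ht⟩ := Nat.find_spec hex
  have hmin : ∀ d < Nat.find hex, ¬ ∃ t : Fin d → G, closure (Set.range t) = ⊤ := fun d hd =>
    Nat.find_min hex hd
  generalize Nat.find hex = d at t ht hmin
  have hsurj : Function.Surjective (FreeGroup.lift t) := by
    rw [← MonoidHom.range_eq_top, FreeGroup.range_lift_eq_closure, ht]
  have hle : (FreeGroup.lift t).ker ≤ Phi p (⊤ : Subgroup (FG d)) := by
    rw [← (hABP p d hp).1]
    intro w hw
    rw [MonoidHom.mem_ker] at hw ⊢
    by_contra hne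
    have : ∃ i, Multiplicative.toAdd (ab p w) i ≠ 0 := by
      by_contra hcon
      push Not at hcon
      apply hne
      apply Multiplicative.toAdd.injective
      funext i
      exact hcon i
    obtain ⟨i, hi⟩ := this
    obtain _ | d := d
    · exact i.elim0
    set H : Subgroup G := closure (Set.range fun k => t (i.succAbove k)) with hH
    have hHne : H ≠ ⊤ := fun h => hmin d (Nat.lt_succ_self d) ⟨_, h⟩
    have hmem : ∀ j, j ≠ i → t j ∈ H ⊔ Phi p (⊤ : Subgroup G) := by
      intro j hj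
      obtain ⟨k, rfl⟩ := Fin.exists_succAbove_eq hj
      exact mem_sup_left (subset_closure ⟨k, rfl⟩)
    have hti := redundant t i (H ⊔ Phi p (⊤ : Subgroup G)) le_sup_right hmem w hw hi
    apply hHne
    apply frattini hpg
    rw [eq_top_iff]
    intro x _
    have hx : x ∈ closure (Set.range t) := by rw [ht]; exact Subgroup.mem_top _
    refine (Subgroup.closure_le _).2 ?_ hx
    rintro _ ⟨j, rfl⟩
    by_cases h : j = i
    · subst h
      exact hti
    · exact hmem j h
  have hidx : (FreeGroup.lift t).ker.index = p ^ n := by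
    rw [← hG]
    exact Nat.card_congr (QuotientGroup.quotientKerEquivOfSurjective _ hsurj).toEquiv
  have hdn : d ≤ n := by
    have h1 := Subgroup.index_dvd_of_le hle
    rw [hidx, (hABP p d hp).2.2.2.2.2] at h1
    exact (Nat.pow_dvd_pow_iff_le_right hp.one_lt).1 h1
  exact ⟨d, by omega, (FreeGroup.lift t).ker, inferInstance, ⟨inferInstance, hle, hidx⟩,
    ⟨QuotientGroup.quotientKerEquivOfSurjective _ hsurj⟩⟩

/-! ### Transport to `Fin (p ^ n)` -/

/-- isomorphic group structures, as in the definition of `numGroups` -/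
def NI {G G' : Type} (g : Group G) (g' : Group G') : Prop :=
  Nonempty (@MulEquiv G G'
    (@Semigroup.toMul _ (@Monoid.toSemigroup _ (@DivInvMonoid.toMonoid _ (@Group.toDivInvMonoid _ g))))
    (@Semigroup.toMul _ (@Monoid.toSemigroup _ (@DivInvMonoid.toMonoid _
      (@Group.toDivInvMonoid _ g')))))

theorem NI.refl {G : Type} (g : Group G) : NI g g := ⟨MulEquiv.refl G⟩

theorem NI.symm {G G' : Type} {g : Group G} {g' : Group G'} (h : NI g g') : NI g' g := by
  obtain ⟨e⟩ := h
  exact ⟨e.symm⟩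

theorem NI.trans {G G' G'' : Type} {g : Group G} {g' : Group G'} {g'' : Group G''} (h : NI g g')
    (h' : NI g' g'') : NI g g'' := by
  obtain ⟨e⟩ := h
  obtain ⟨e'⟩ := h'
  exact ⟨e.trans e'⟩

/-- the group of a normal subgroup -/
abbrev qg {d : ℕ} (R : Subgroup (FG d)) (h : R.Normal) : Group (FG d ⧸ R) :=
  @QuotientGroup.Quotient.group (FG d) _ R h

theorem exists_gr {p d n : ℕ} (hp : p.Prime) {R : Subgroup (FG d)} (hR : R ∈ X p d n) :
    ∃ g : Group (Fin (p ^ n)), NI g (qg R hR.1) := by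
  have hc : Nat.card (FG d ⧸ R) = p ^ n := hR.2.2
  have hne : Nat.card (FG d ⧸ R) ≠ 0 := by rw [hc]; exact (pow_pos hp.pos n).ne'
  let e : Fin (p ^ n) ≃ (FG d ⧸ R) := ((Nat.equivFinOfCardPos hne).trans (finCongr hc)).symm
  let _ := qg R hR.1
  exact ⟨e.group, ⟨e.mulEquiv⟩⟩

/-- **DEC for an isomorphism invariant property** -/
theorem gen (hABP : SpecABP) (hXFIN : SpecXFIN) {p : ℕ} (n : ℕ) (hp : p.Prime)
    (Q : (G : Type) → Group G → Prop)
    (hQ : ∀ (G G' : Type) (g : Group G) (g' : Group G'), NI g g' → Q G g → Q G' g') :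
    Nat.card (Quot (fun g h : {g : Group (Fin (p ^ n)) // Q (Fin (p ^ n)) g} => NI g.1 h.1)) =
      ∑ d ∈ Finset.range (n + 1),
        ncl {R : Subgroup (FG d) | R ∈ X p d n ∧ ∀ h : R.Normal, Q (FG d ⧸ R) (qg R h)} := by
  classical
  have hex : ∀ (d : ℕ)
      (R : {R : Subgroup (FG d) | R ∈ X p d n ∧ ∀ h : R.Normal, Q (FG d ⧸ R) (qg R h)}),
      ∃ g : {g : Group (Fin (p ^ n)) // Q (Fin (p ^ n)) g}, NI g.1 (qg R.1 R.2.1.1) := by
    intro d R
    obtain ⟨g, hg⟩ := exists_gr hp R.2.1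
    exact ⟨⟨g, hQ _ _ _ _ hg.symm (R.2.2 _)⟩, hg⟩
  choose f hf using hex
  refine card_quot (fun g h : {g : Group (Fin (p ^ n)) // Q (Fin (p ^ n)) g} => NI g.1 h.1)
    ⟨fun g => NI.refl _, fun h => h.symm, fun h h' => h.trans h'⟩ n
    (fun d => {R : Subgroup (FG d) | R ∈ X p d n ∧ ∀ h : R.Normal, Q (FG d ⧸ R) (qg R h)})
    (fun d R R' => Rel R.1 R'.1) f ?_ ?_ ?_ ?_
  · intro d R R'
    have := R.2.1.1
    have := R'.2.1.1
    rw [rel_iff]
    constructor
    · rintro ⟨e⟩
      exact ((hf d R).trans ⟨e⟩).trans (hf d R').symm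
    · intro h
      obtain ⟨e⟩ := ((hf d R).symm.trans h).trans (hf d R')
      exact ⟨e⟩
  · intro d d' R R' h
    have := R.2.1.1
    have := R'.2.1.1
    obtain ⟨e⟩ := ((hf d R).symm.trans h).trans (hf d' R')
    exact dinv hABP hp R.2.1 R'.2.1 e
  · rintro ⟨g, hg⟩
    obtain ⟨d, hd, R, hRn, hR, ⟨e⟩⟩ := exists_pres (n := n) hABP hp (Fin (p ^ n))
      (by rw [Nat.card_eq_fintype_card, Fintype.card_fin])
    have hni : NI (qg R hRn) g := ⟨e⟩
    refine ⟨d, hd, ⟨R, hR, fun h => hQ _ _ _ _ hni.symm hg⟩, ?_⟩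
    exact (hf d _).trans hni
  · intro d
    exact Set.Finite.to_subtype ((hXFIN p d n hp).subset fun R hR => hR.1)

end DECM

open DECM in
theorem specDEC (hABP : SpecABP) (hXFIN : SpecXFIN) : SpecDEC := by
  intro p n hp
  have h := gen hABP hXFIN n hp (fun _ _ => True) (fun _ _ _ _ _ _ => trivial)
  have h1 : numGroups (p ^ n) = Nat.card (Quot (fun g h : {g : Group (Fin (p ^ n)) // True} =>
      NI g.1 h.1)) := by
    unfold numGroups
    refine Nat.card_congr (Quot.congr (Equiv.subtypeUnivEquiv fun _ => trivial).symm ?_)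
    intro a b
    exact Iff.rfl
  rw [h1, h]
  refine Finset.sum_congr rfl fun d _ => ?_
  congr 1
  ext R
  simp

end Pool.Agent.Lib.MP4ccb00
end

section
/-!
Module SUP: the good quotient of a marked group.
-/
set_option autoImplicit false

namespace Pool.Agent.Lib.MP4ccb00

open Subgroup Module E

namespace SUPM

theorem phi_normal (p : ℕ) (G : Type) [Group G] : (Phi p (⊤ : Subgroup G)).Normal := by
  have h1 : (closure {x : G | ∃ y ∈ (⊤ : Subgroup G), x = y ^ p}).Normal := by
    refine ⟨fun n hn g => ?_⟩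
    induction hn using closure_induction with
    | mem x hx =>
      obtain ⟨y, -, rfl⟩ := hx
      apply Subgroup.subset_closure
      exact ⟨g * y * g⁻¹, mem_top _, by rw [conj_pow]⟩
    | one => simp [one_mem]
    | mul x y _ _ hx hy =>
      have : g * (x * y) * g⁻¹ = (g * x * g⁻¹) * (g * y * g⁻¹) := by group
      rw [this]
      exact mul_mem hx hy
    | inv x _ hx =>
      have : g * x⁻¹ * g⁻¹ = (g * x * g⁻¹)⁻¹ := by group
      rw [this]
      exact inv_mem hx
  show (⁅(⊤ : Subgroup G), (⊤ : Subgroup G)⁆ ⊔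
    closure {x : G | ∃ y ∈ (⊤ : Subgroup G), x = y ^ p}).Normal
  infer_instance

theorem phi_comap (p : ℕ) {G : Type} [Group G] (f : G →* G) :
    Phi p (⊤ : Subgroup G) ≤ (Phi p (⊤ : Subgroup G)).comap f := by
  show ⁅(⊤ : Subgroup G), (⊤ : Subgroup G)⁆ ⊔
    closure {x : G | ∃ y ∈ (⊤ : Subgroup G), x = y ^ p} ≤ _
  refine sup_le ?_ ?_
  · rw [commutator_le]
    intro a _ b _
    rw [mem_comap, map_commutatorElement]
    exact Subgroup.mem_sup_left (commutator_mem_commutator (mem_top _) (mem_top _))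
  · rw [closure_le]
    rintro x ⟨y, -, rfl⟩
    rw [SetLike.mem_coe, mem_comap, map_pow]
    exact Subgroup.mem_sup_right (Subgroup.subset_closure ⟨f y, mem_top _, rfl⟩)

theorem psi_normal (p : ℕ) (G : Type) [Group G] : (Psi p G).Normal := by
  have := phi_normal p G
  have h1 : (closure {x : G | ∃ h ∈ Phi p (⊤ : Subgroup G), x = h ^ p}).Normal := by
    refine ⟨fun n hn g => ?_⟩
    induction hn using closure_induction with
    | mem x hx =>
      obtain ⟨y, hy, rfl⟩ := hx
      apply Subgroup.subset_closure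
      exact ⟨g * y * g⁻¹, Normal.conj_mem inferInstance _ hy _, by rw [conj_pow]⟩
    | one => simp [one_mem]
    | mul x y _ _ hx hy =>
      have : g * (x * y) * g⁻¹ = (g * x * g⁻¹) * (g * y * g⁻¹) := by group
      rw [this]
      exact mul_mem hx hy
    | inv x _ hx =>
      have : g * x⁻¹ * g⁻¹ = (g * x * g⁻¹)⁻¹ := by group
      rw [this]
      exact inv_mem hx
  unfold Psi
  infer_instance

theorem psi_le (p : ℕ) (G : Type) [Group G] : Psi p G ≤ Phi p (⊤ : Subgroup G) := by
  have := phi_normal p G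
  unfold Psi
  refine sup_le (commutator_le_left _ _) ?_
  rw [closure_le]
  rintro x ⟨y, hy, rfl⟩
  exact pow_mem hy p

theorem psi_comap (p : ℕ) {G : Type} [Group G] (f : G →* G) :
    Psi p G ≤ (Psi p G).comap f := by
  unfold Psi
  refine sup_le ?_ ?_
  · rw [commutator_le]
    intro a ha b _
    rw [mem_comap, map_commutatorElement]
    exact Subgroup.mem_sup_left (commutator_mem_commutator (phi_comap p f ha) (mem_top _))
  · rw [closure_le]
    rintro x ⟨y, hy, rfl⟩
    rw [SetLike.mem_coe, mem_comap, map_pow]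
    exact Subgroup.mem_sup_right (Subgroup.subset_closure ⟨f y, phi_comap p f hy, rfl⟩)

end SUPM

open SUPM in
theorem specSUP (hABP : SpecABP) : SpecSUP := by
  intro p d n hp R hR
  obtain ⟨hRn, hRPhi, hRi⟩ := hR
  have := hRn
  have := psi_normal p (FG d)
  have hS : R ⊔ Psi p (FG d) ≤ Phi p (⊤ : Subgroup (FG d)) := sup_le hRPhi (psi_le p _)
  refine ⟨?_, ?_⟩
  · have h1 := relIndex_mul_index (le_sup_left : R ≤ R ⊔ Psi p (FG d))
    rw [hRi] at h1
    have h2 : (R ⊔ Psi p (FG d)).index ∣ p ^ n := ⟨_, by rw [← h1, mul_comm]⟩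
    obtain ⟨j, hj, hj'⟩ := (Nat.dvd_prime_pow hp).1 h2
    have h3 : p ^ d ∣ p ^ j := by
      rw [← hj', ← (hABP p d hp).2.2.2.2.2]
      exact index_dvd_of_le hS
    have h4 : d ≤ j := (Nat.pow_dvd_pow_iff_le_right hp.one_lt).1 h3
    refine ⟨n - j, by omega, ⟨⟨inferInstance, hS, ?_⟩, le_sup_right⟩, ?_⟩
    · rw [hj']
      congr 1
      omega
    · rw [hj'] at h1
      have h5 : p ^ n = p ^ (n - j) * p ^ j := by
        rw [← pow_add]
        congr 1
        omega
      rw [h5] at h1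
      exact Nat.eq_of_mul_eq_mul_right (pow_pos hp.pos j) h1
  · rintro g ⟨y, hy, hy'⟩
    refine ⟨y, hy, sup_le ?_ ?_⟩
    · exact hy'.trans (comap_mono le_sup_left)
    · exact (psi_comap p (hm y)).trans (comap_mono le_sup_right)

end Pool.Agent.Lib.MP4ccb00
end

section
/-!
# MP_4ccb00_al, module PUL: the pull back
-/
set_option autoImplicit false

namespace Pool.Agent.Lib.MP4ccb00.PULM

open Subgroup Module E E.Base
open scoped commutatorElement

/-- a homomorphism to a commutative group of exponent `p` kills `Phi p ⊤` -/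
theorem phi_le_ker (p : ℕ) {G : Type} [Group G] (f : G →* Multiplicative (ZMod p)) :
    Phi p (⊤ : Subgroup G) ≤ f.ker := by
  show ⁅(⊤ : Subgroup G), (⊤ : Subgroup G)⁆ ⊔
    closure {x : G | ∃ y ∈ (⊤ : Subgroup G), x = y ^ p} ≤ _
  refine sup_le ?_ ?_
  · rw [commutator_le]
    intro a _ b _
    rw [MonoidHom.mem_ker, map_commutatorElement, commutatorElement_eq_one_iff_mul_comm]
    exact mul_comm _ _
  · rw [closure_le]
    rintro x ⟨y, -, rfl⟩
    rw [SetLike.mem_coe, MonoidHom.mem_ker, map_pow]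
    apply Multiplicative.toAdd.injective
    rw [toAdd_pow, toAdd_one, nsmul_eq_mul, ZMod.natCast_self, zero_mul]

end Pool.Agent.Lib.MP4ccb00.PULM

namespace Pool.Agent.Lib.MP4ccb00

open Subgroup Module E E.Base PULM
open scoped commutatorElement

theorem specPUL (hABP : SpecABP) : SpecPUL := by
  intro p d hp
  obtain ⟨hker, -, hvec, -, -, -⟩ := hABP p d hp
  have hn : (Phi p (⊤ : Subgroup (FG d))).Normal := SUPM.phi_normal p (FG d)
  have hcm : ∀ (y : Fin d → FG d), ∀ x ∈ Phi p (⊤ : Subgroup (FG d)),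
      hm y x ∈ Phi p (⊤ : Subgroup (FG d)) := fun y x hx => SUPM.phi_comap p (hm y) hx
  have hin : ∀ (y : Fin d → FG d) (φ : FG d → ZMod p), ∀ x ∈ Phi p (⊤ : Subgroup (FG d)),
      pull p y φ x = φ (hm y x) := fun y φ x hx => if_pos hx
  have hout : ∀ (y : Fin d → FG d) (φ : FG d → ZMod p), ∀ x ∉ Phi p (⊤ : Subgroup (FG d)),
      pull p y φ x = 0 := fun y φ x hx => if_neg hx
  refine ⟨?_, ?_, ?_, ?_⟩
  · intro y φ hφ
    refine ⟨hout y φ, ?_, ?_, ?_⟩
    · intro x hx x' hx'
      rw [hin y φ _ (mul_mem hx hx'), hin y φ x hx, hin y φ x' hx', map_mul]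
      exact yy_mul hφ (hcm y x hx) (hcm y x' hx')
    · intro g _ x hx
      rw [hin y φ _ (hn.conj_mem x hx g), hin y φ x hx, map_mul, map_mul, map_inv]
      exact yy_conj hφ (mem_top _) (hcm y x hx)
    · intro x hx h1
      rw [hin y φ x hx, mem_bot.1 h1, map_one]
      exact yy_one hφ
  · intro y y' hyy φ hφ
    -- the difference
    have hu : ∀ w : FG d, (hm y' w)⁻¹ * hm y w ∈ Phi p (⊤ : Subgroup (FG d)) := by
      intro w
      rw [← hker, MonoidHom.mem_ker, map_mul, map_inv]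
      apply Multiplicative.toAdd.injective
      rw [toAdd_mul, toAdd_inv, toAdd_one, hvec y w, hvec y' w, hyy]
      exact neg_add_cancel _
    have hmul : ∀ w v : FG d, φ ((hm y' (w * v))⁻¹ * hm y (w * v)) =
        φ ((hm y' w)⁻¹ * hm y w) + φ ((hm y' v)⁻¹ * hm y v) := by
      intro w v
      have e1 : (hm y' (w * v))⁻¹ * hm y (w * v) =
          ((hm y' v)⁻¹ * ((hm y' w)⁻¹ * hm y w) * (hm y' v)⁻¹⁻¹) * ((hm y' v)⁻¹ * hm y v) := by
        rw [map_mul, map_mul]; group
      rw [e1, yy_mul hφ (hn.conj_mem _ (hu w) _) (hu v), yy_conj hφ (mem_top _) (hu w)]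
    have hone : φ ((hm y' (1 : FG d))⁻¹ * hm y 1) = 0 := by
      rw [map_one, map_one, inv_one, one_mul]
      exact yy_one hφ
    set δ : FG d →* Multiplicative (ZMod p) :=
      { toFun := fun w => Multiplicative.ofAdd (φ ((hm y' w)⁻¹ * hm y w))
        map_one' := by rw [hone]; rfl
        map_mul' := by
          intro w v
          rw [hmul w v]; rfl } with hδ
    funext x
    by_cases hx : x ∈ Phi p (⊤ : Subgroup (FG d))
    · rw [hin y φ x hx, hin y' φ x hx]
      have h1 : δ x = 1 := phi_le_ker p δ hx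
      have h2 : φ ((hm y' x)⁻¹ * hm y x) = 0 := Multiplicative.ofAdd.injective h1
      have h3 : hm y x = hm y' x * ((hm y' x)⁻¹ * hm y x) := by group
      rw [h3, yy_mul hφ (hcm y' x hx) (hu x), h2, add_zero]
    · rw [hout y φ x hx, hout y' φ x hx]
  · intro y z φ _
    funext x
    by_cases hx : x ∈ Phi p (⊤ : Subgroup (FG d))
    · rw [hin y _ x hx, hin z φ _ (hcm y x hx), hin _ φ x hx]
      congr 1
      have : (hm z).comp (hm y) = hm (fun i => hm z (y i)) := by
        apply FreeGroup.ext_hom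
        intro i
        simp [hm]
      exact DFunLike.congr_fun this x
    · rw [hout y _ x hx, hout _ φ x hx]
  · intro φ hφ
    funext x
    by_cases hx : x ∈ Phi p (⊤ : Subgroup (FG d))
    · rw [hin _ φ x hx]
      congr 1
      have : hm (fun i : Fin d => FreeGroup.of i) = MonoidHom.id (FG d) := by
        apply FreeGroup.ext_hom
        intro i
        simp [hm]
      exact DFunLike.congr_fun this x
    · rw [hout _ φ x hx, yy_out hφ hx]

end Pool.Agent.Lib.MP4ccb00
end

section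
/-!
# MP_4ccb00_al, module RKM: ranks on `Ms`
-/
set_option autoImplicit false

namespace Pool.Agent.Lib.MP4ccb00.RKMM

open Subgroup Module E E.Base
open scoped commutatorElement

variable {p d : ℕ}

theorem ab_of (i : Fin d) :
    ab p (FreeGroup.of i) = Multiplicative.ofAdd (Pi.single i (1 : ZMod p)) := by
  simp [ab]

theorem hm_of (y : Fin d → FG d) (i : Fin d) : hm y (FreeGroup.of i) = y i := by
  simp [hm]

/-- additive functions on the free group -/
theorem add_fun (c : FG d → ZMod p) (hc : ∀ v w, c (v * w) = c v + c w) (v : FG d) :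
    c v = ∑ i, Multiplicative.toAdd (ab p v) i * c (FreeGroup.of i) := by
  have h1 : c 1 = 0 := by
    have := hc 1 1
    rw [mul_one] at this
    exact left_eq_add.1 this
  induction v using FreeGroup.induction_on with
  | C1 => simp [h1]
  | of i =>
    rw [ab_of, Finset.sum_eq_single i]
    · simp
    · intro j _ hj
      simp [Pi.single_eq_of_ne hj]
    · intro h
      exact absurd (Finset.mem_univ i) h
  | inv_of i hi =>
    have h2 : c (FreeGroup.of i)⁻¹ = - c (FreeGroup.of i) := by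
      have := hc (FreeGroup.of i) (FreeGroup.of i)⁻¹
      rw [mul_inv_cancel, h1] at this
      exact (neg_eq_of_add_eq_zero_right this.symm).symm
    rw [h2, hi, map_inv, toAdd_inv, ← Finset.sum_neg_distrib]
    refine Finset.sum_congr rfl fun j _ => ?_
    rw [Pi.neg_apply, neg_mul]
  | mul a b ha hb =>
    rw [hc, ha, hb, map_mul, toAdd_mul, ← Finset.sum_add_distrib]
    refine Finset.sum_congr rfl fun j _ => ?_
    rw [Pi.add_apply, add_mul]

theorem comm_mem (v w : FG d) : ⁅v, w⁆ ∈ Phi p (⊤ : Subgroup (FG d)) :=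
  Subgroup.mem_sup_left (commutator_mem_commutator (mem_top _) (mem_top _))

theorem pow_mem' (v : FG d) : v ^ p ∈ Phi p (⊤ : Subgroup (FG d)) :=
  Subgroup.mem_sup_right (Subgroup.subset_closure ⟨v, mem_top _, rfl⟩)

theorem comm_left {φ : FG d → ZMod p} (hφ : φ ∈ Ms p d) (v v' w : FG d) :
    φ ⁅v * v', w⁆ = φ ⁅v, w⁆ + φ ⁅v', w⁆ := by
  have h1 : ⁅v * v', w⁆ = (v * ⁅v', w⁆ * v⁻¹) * ⁅v, w⁆ := by
    simp only [commutatorElement_def]; group
  have hn := SUPM.phi_normal p (FG d)
  rw [h1, yy_mul hφ (hn.conj_mem _ (comm_mem _ _) _) (comm_mem _ _),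
    yy_conj hφ (mem_top _) (comm_mem _ _), add_comm]

theorem comm_right {φ : FG d → ZMod p} (hφ : φ ∈ Ms p d) (v w w' : FG d) :
    φ ⁅v, w * w'⁆ = φ ⁅v, w⁆ + φ ⁅v, w'⁆ := by
  have h1 : ⁅v, w * w'⁆ = ⁅v, w⁆ * (w * ⁅v, w'⁆ * w⁻¹) := by
    simp only [commutatorElement_def]; group
  have hn := SUPM.phi_normal p (FG d)
  rw [h1, yy_mul hφ (comm_mem _ _) (hn.conj_mem _ (comm_mem _ _) _),
    yy_conj hφ (mem_top _) (comm_mem _ _)]

/-- the matrix of commutators -/
def beta (p d : ℕ) : (FG d → ZMod p) →ₗ[ZMod p] Matrix (Fin d) (Fin d) (ZMod p) where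
  toFun φ := fun i j => φ ⁅FreeGroup.of i, FreeGroup.of j⁆
  map_add' _ _ := rfl
  map_smul' _ _ := rfl

theorem beta_apply (φ : FG d → ZMod p) (i j : Fin d) :
    beta p d φ i j = φ ⁅FreeGroup.of i, FreeGroup.of j⁆ := rfl

theorem comm_form {φ : FG d → ZMod p} (hφ : φ ∈ Ms p d) (v w : FG d) :
    φ ⁅v, w⁆ = ∑ i, Multiplicative.toAdd (ab p v) i *
      ∑ j, Multiplicative.toAdd (ab p w) j * beta p d φ i j := by
  rw [add_fun (fun v => φ ⁅v, w⁆) (fun v v' => comm_left hφ v v' w) v]
  refine Finset.sum_congr rfl fun i _ => ?_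
  rw [add_fun (fun w => φ ⁅FreeGroup.of i, w⁆) (fun w w' => comm_right hφ _ w w') w]
  rfl

theorem beta_alt {φ : FG d → ZMod p} (hφ : φ ∈ Ms p d) : beta p d φ ∈ Alt2 p d := by
  refine ⟨fun i => ?_, fun i j => ?_⟩
  · rw [beta_apply, commutatorElement_self]
    exact yy_one hφ
  · rw [beta_apply, beta_apply, ← commutatorElement_inv, yy_inv hφ (comm_mem _ _)]

/-- an element of `Ms` is determined by the values on the basic commutators and powers -/
theorem ms_inj {φ : FG d → ZMod p} (hφ : φ ∈ Ms p d) (hb : beta p d φ = 0)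
    (hp : ∀ i, φ (FreeGroup.of i ^ p) = 0) : φ = 0 := by
  have hn := SUPM.phi_normal p (FG d)
  let K : Subgroup (FG d) :=
    { carrier := {x | x ∈ Phi p (⊤ : Subgroup (FG d)) ∧ φ x = 0}
      mul_mem' := by
        rintro a b ⟨ha, ha'⟩ ⟨hb, hb'⟩
        exact ⟨mul_mem ha hb, by rw [yy_mul hφ ha hb, ha', hb', add_zero]⟩
      one_mem' := ⟨one_mem _, yy_one hφ⟩
      inv_mem' := by
        rintro a ⟨ha, ha'⟩
        exact ⟨inv_mem ha, by rw [yy_inv hφ ha, ha', neg_zero]⟩ }
  have hKm : ∀ x, x ∈ K ↔ x ∈ Phi p (⊤ : Subgroup (FG d)) ∧ φ x = 0 := fun x => Iff.rfl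
  have hKn : K.Normal := by
    constructor
    intro x hx g
    obtain ⟨h1, h2⟩ := (hKm x).1 hx
    exact (hKm _).2 ⟨hn.conj_mem x h1 g, by rw [yy_conj hφ (mem_top _) h1, h2]⟩
  have hcomm : ∀ v w : FG d, ⁅v, w⁆ ∈ K := by
    intro v w
    refine (hKm _).2 ⟨comm_mem _ _, ?_⟩
    rw [comm_form hφ, hb]
    simp
  have hpow : ∀ w : FG d, w ^ p ∈ K := by
    intro w
    induction w using FreeGroup.induction_on with
    | C1 => rw [one_pow]; exact one_mem K
    | of i => exact (hKm _).2 ⟨pow_mem' _, hp i⟩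
    | inv_of i hi => rw [inv_pow]; exact inv_mem hi
    | mul a b ha hb =>
      have h1 : Commute (QuotientGroup.mk' K a) (QuotientGroup.mk' K b) := by
        rw [← commutatorElement_eq_one_iff_commute, ← map_commutatorElement]
        exact (QuotientGroup.eq_one_iff _).2 (hcomm a b)
      rw [← QuotientGroup.eq_one_iff] at ha hb ⊢
      have h2 : (QuotientGroup.mk' K (a * b)) ^ p = 1 := by
        rw [map_mul, h1.mul_pow]
        have e1 : (QuotientGroup.mk' K a) ^ p = 1 := ha
        have e2 : (QuotientGroup.mk' K b) ^ p = 1 := hb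
        rw [e1, e2, one_mul]
      exact h2
  have hle : Phi p (⊤ : Subgroup (FG d)) ≤ K := by
    show ⁅(⊤ : Subgroup (FG d)), (⊤ : Subgroup (FG d))⁆ ⊔
      closure {x : FG d | ∃ y ∈ (⊤ : Subgroup (FG d)), x = y ^ p} ≤ _
    refine sup_le ?_ ?_
    · rw [commutator_le]
      intro a _ b _
      exact hcomm a b
    · rw [closure_le]
      rintro x ⟨y, -, rfl⟩
      exact hpow y
  funext x
  by_cases hx : x ∈ Phi p (⊤ : Subgroup (FG d))
  · exact ((hKm x).1 (hle hx)).2
  · exact yy_out hφ hx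

/-- values on the powers -/
def gam (p d : ℕ) : (FG d → ZMod p) →ₗ[ZMod p] (Fin d → ZMod p) where
  toFun φ := fun i => φ (FreeGroup.of i ^ p)
  map_add' _ _ := rfl
  map_smul' _ _ := rfl

theorem tri (d : ℕ) : d * (d + 1) / 2 = d * (d - 1) / 2 + d := by
  cases d with
  | zero => rfl
  | succ n =>
    have h1 : (n + 1) * (n + 1 + 1) = (n + 1) * (n + 1 - 1) + 2 * (n + 1) := by
      rw [Nat.add_sub_cancel]; ring
    rw [h1, Nat.add_mul_div_left _ _ (by norm_num)]

theorem alt_dim [Fact p.Prime] : finrank (ZMod p) (Alt2 p d) ≤ d * (d - 1) / 2 := by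
  let f : Matrix (Fin d) (Fin d) (ZMod p) →ₗ[ZMod p] ((Σ i : Fin d, Fin i.1) → ZMod p) :=
    { toFun := fun B x => B x.1 ⟨x.2.1, x.2.2.trans x.1.2⟩
      map_add' := fun _ _ => rfl
      map_smul' := fun _ _ => rfl }
  have hinj : Function.Injective (f.domRestrict (Alt2 p d)) := by
    rw [← LinearMap.ker_eq_bot, LinearMap.ker_eq_bot']
    rintro ⟨B, hB1, hB2⟩ h
    have h1 : ∀ i j : Fin d, j < i → B i j = 0 := by
      intro i j hij
      exact congrFun h ⟨i, ⟨j.1, hij⟩⟩
    apply Subtype.ext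
    ext i j
    show B i j = 0
    rcases lt_trichotomy i j with hij | hij | hij
    · rw [hB2 i j, h1 j i hij, neg_zero]
    · rw [hij, hB1 j]
    · exact h1 i j hij
  have h2 := LinearMap.finrank_le_finrank_of_injective hinj
  rw [Module.finrank_fintype_fun_eq_card, Fintype.card_sigma] at h2
  simp only [Fintype.card_fin] at h2
  rw [Fin.sum_univ_eq_sum_range (fun i => i) d, Finset.sum_range_id] at h2
  exact h2

theorem ker_dim [Fact p.Prime] (hfin : Module.Finite (ZMod p) (Ms p d)) :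
    finrank (ZMod p) (LinearMap.ker ((beta p d).domRestrict (Ms p d))) ≤ d := by
  have hinj : Function.Injective (((gam p d).domRestrict (Ms p d)).domRestrict
      (LinearMap.ker ((beta p d).domRestrict (Ms p d)))) := by
    refine (injective_iff_map_eq_zero _).2 ?_
    rintro ⟨⟨φ, hφ⟩, hk⟩ h
    apply Subtype.ext
    apply Subtype.ext
    refine ms_inj hφ ?_ fun i => ?_
    · exact LinearMap.mem_ker.1 hk
    · exact congrFun h i
  have h2 := LinearMap.finrank_le_finrank_of_injective hinj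
  rwa [Module.finrank_fin_fun] at h2

theorem beta_dim [Fact p.Prime] (hfin : Module.Finite (ZMod p) (Ms p d))
    (hdim : finrank (ZMod p) (Ms p d) = d * (d + 1) / 2) :
    (Ms p d).map (beta p d) = Alt2 p d ∧ finrank (ZMod p) (Alt2 p d) = d * (d - 1) / 2 ∧
    finrank (ZMod p) (LinearMap.ker ((beta p d).domRestrict (Ms p d))) = d := by
  have h1 := LinearMap.finrank_range_add_finrank_ker ((beta p d).domRestrict (Ms p d))
  rw [LinearMap.range_domRestrict, hdim, tri] at h1
  have h2 := ker_dim (p := p) (d := d) hfin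
  have h3 := alt_dim (p := p) (d := d)
  have h4 : (Ms p d).map (beta p d) ≤ Alt2 p d := by
    rintro _ ⟨φ, hφ, rfl⟩
    exact beta_alt hφ
  have h5 := Submodule.finrank_mono h4
  refine ⟨Submodule.eq_of_le_of_finrank_le h4 (by omega), by omega, by omega⟩

/-- the pull back on the matrices of commutators -/
theorem beta_pull (y : Fin d → FG d) {φ : FG d → ZMod p} (hφ : φ ∈ Ms p d) :
    beta p d (pull p y φ) = mat p y * (beta p d φ * (mat p y).transpose) := by
  ext i j
  have h1 : beta p d (pull p y φ) i j = φ (hm y ⁅FreeGroup.of i, FreeGroup.of j⁆) :=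
    if_pos (comm_mem _ _)
  rw [h1, map_commutatorElement, hm_of, hm_of, comm_form hφ, Matrix.mul_apply]
  refine Finset.sum_congr rfl fun k _ => ?_
  rw [Matrix.mul_apply]
  congr 1
  refine Finset.sum_congr rfl fun l _ => ?_
  rw [Matrix.transpose_apply, mul_comm]
  rfl

end Pool.Agent.Lib.MP4ccb00.RKMM

namespace Pool.Agent.Lib.MP4ccb00

open Subgroup Module E E.Base RKMM
open scoped commutatorElement

theorem specRKM (hALT : SpecALT) (hDMS : SpecDMS) (hPUL : SpecPUL) (hABP : SpecABP) : SpecRKM := by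
  intro p d hp g hg
  have := Fact.mk hp
  obtain ⟨-, -, -, -, hcan, -⟩ := hABP p d hp
  obtain ⟨hfin, hdim⟩ := hDMS p d hp
  obtain ⟨hpul1, hpul2, -, -⟩ := hPUL p d hp
  obtain ⟨hb1, hb2, hb3⟩ := beta_dim hfin hdim
  have := hfin
  set G : Matrix (Fin d) (Fin d) (ZMod p) := (g : Matrix (Fin d) (Fin d) (ZMod p)) with hG
  -- the images
  have hmap : ∀ b : ZMod p, ((Ms p d).map (pull p (can p G) - b • LinearMap.id)).map (beta p d) =
      (Alt2 p d).map (LinearMap.mulLeft (ZMod p) G ∘ₗ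
        LinearMap.mulRight (ZMod p) G.transpose - b • LinearMap.id) := by
    intro b
    rw [← hb1, ← Submodule.map_comp, ← Submodule.map_comp]
    apply le_antisymm
    · rintro _ ⟨φ, hφ, rfl⟩
      refine ⟨φ, hφ, ?_⟩
      simp only [LinearMap.comp_apply, LinearMap.sub_apply, LinearMap.smul_apply, LinearMap.id_apply,
        map_sub, map_smul, LinearMap.mulLeft_apply, LinearMap.mulRight_apply]
      rw [beta_pull _ hφ, hcan]
    · rintro _ ⟨φ, hφ, rfl⟩
      refine ⟨φ, hφ, ?_⟩
      simp only [LinearMap.comp_apply, LinearMap.sub_apply, LinearMap.smul_apply, LinearMap.id_apply,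
        map_sub, map_smul, LinearMap.mulLeft_apply, LinearMap.mulRight_apply]
      rw [beta_pull _ hφ, hcan]
  have hfr : ∀ b : ZMod p, finrank (ZMod p) ((Alt2 p d).map (LinearMap.mulLeft (ZMod p) G ∘ₗ
        LinearMap.mulRight (ZMod p) G.transpose - b • LinearMap.id)) ≤
      finrank (ZMod p) ((Ms p d).map (pull p (can p G) - b • LinearMap.id)) := by
    intro b
    rw [← hmap b]
    exact Submodule.finrank_map_le _ _
  constructor
  · intro b
    by_cases hd : d < 2
    · have : d - 2 = 0 := by omega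
      rw [this]; exact Nat.zero_le _
    · by_cases hsc : ∃ a : ZMod p, G = Matrix.scalar (Fin d) a
      · obtain ⟨a, ha⟩ := hsc
        by_cases hba : a * a = b
        · -- the kernel of `beta`
          have ha0 : a ≠ 0 := by
            intro h0
            have h1 : G = 0 := by rw [ha, h0, map_zero]
            have h2 : IsUnit G := g.isUnit
            rw [h1] at h2
            have : Nonempty (Fin d) := ⟨⟨0, by omega⟩⟩
            exact not_isUnit_zero h2
          have ha1 : a ≠ 1 := by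
            intro h0
            apply hg
            apply Units.ext
            show G = 1
            rw [ha, h0, map_one]
          have hab : a - b ≠ 0 := by
            intro h0
            have h1 : a * a = a * 1 := by rw [hba, mul_one]; exact (sub_eq_zero.1 h0).symm
            exact ha1 (mul_left_cancel₀ ha0 h1)
          set y : Fin d → FG d := fun i => FreeGroup.of i ^ a.val with hy
          have hmat : mat p y = G := by
            rw [ha]
            ext i j
            show Multiplicative.toAdd (ab p (FreeGroup.of i ^ a.val)) j = _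
            rw [map_pow, ab_of, toAdd_pow, toAdd_ofAdd, Pi.smul_apply, Matrix.scalar_apply,
              Matrix.diagonal_apply, nsmul_eq_mul, ZMod.natCast_val, ZMod.cast_id]
            by_cases hij : i = j
            · subst hij; simp
            · rw [if_neg hij, Pi.single_eq_of_ne (Ne.symm hij), mul_zero]
          have hT : ∀ φ ∈ Ms p d, beta p d φ = 0 → pull p (can p G) φ = a • φ := by
            intro φ hφ hb0
            rw [hpul2 (can p G) y (by rw [hcan, hmat]) φ hφ]
            have h1 : pull p y φ - a • φ = 0 := by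
              refine ms_inj (Submodule.sub_mem _ (hpul1 y φ hφ) (Submodule.smul_mem _ _ hφ)) ?_ ?_
              · rw [map_sub, map_smul, beta_pull y hφ, hb0]
                simp
              · intro i
                have h2 : pull p y φ (FreeGroup.of i ^ p) = φ (hm y (FreeGroup.of i ^ p)) :=
                  if_pos (pow_mem' _)
                rw [Pi.sub_apply, Pi.smul_apply, h2, map_pow, RKMM.hm_of, hy]
                simp only
                rw [← pow_mul, mul_comm a.val p, pow_mul, yy_pow hφ (pow_mem' _), ZMod.natCast_val,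
                  ZMod.cast_id, smul_eq_mul, sub_self]
            exact sub_eq_zero.1 h1
          have hle : (LinearMap.ker ((beta p d).domRestrict (Ms p d))).map (Ms p d).subtype ≤
              (Ms p d).map (pull p (can p G) - b • LinearMap.id) := by
            rintro _ ⟨⟨φ, hφ⟩, hk, rfl⟩
            have hb0 : beta p d φ = 0 := LinearMap.mem_ker.1 hk
            refine ⟨(a - b)⁻¹ • φ, Submodule.smul_mem _ _ hφ, ?_⟩
            rw [map_smul, LinearMap.sub_apply, LinearMap.smul_apply, LinearMap.id_apply, hT φ hφ hb0,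
              ← sub_smul, smul_smul, inv_mul_cancel₀ hab, one_smul]
            rfl
          have h1 := Submodule.finrank_mono hle
          rw [Submodule.finrank_map_subtype_eq, hb3] at h1
          omega
        · -- full rank on the alternating matrices
          have h1 : Alt2 p d ≤ (Alt2 p d).map (LinearMap.mulLeft (ZMod p) G ∘ₗ
              LinearMap.mulRight (ZMod p) G.transpose - b • LinearMap.id) := by
            intro B hB
            have hab : a * a - b ≠ 0 := fun h => hba (sub_eq_zero.1 h)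
            refine ⟨(a * a - b)⁻¹ • B, Submodule.smul_mem _ _ hB, ?_⟩
            rw [map_smul]
            have h2 : (LinearMap.mulLeft (ZMod p) G ∘ₗ
              LinearMap.mulRight (ZMod p) G.transpose - b • LinearMap.id :
              Matrix (Fin d) (Fin d) (ZMod p) →ₗ[ZMod p] Matrix (Fin d) (Fin d) (ZMod p)) B =
                (a * a - b) • B := by
              rw [LinearMap.sub_apply, LinearMap.smul_apply, LinearMap.id_apply,
                LinearMap.comp_apply, LinearMap.mulLeft_apply, LinearMap.mulRight_apply, ha]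
              ext i j
              simp [Matrix.scalar_apply, Matrix.diagonal_transpose, sub_mul]
              ring
            rw [h2, smul_smul, inv_mul_cancel₀ hab, one_smul]
          have h2 := Submodule.finrank_mono h1
          rw [hb2] at h2
          have h3 : d - 2 ≤ d * (d - 1) / 2 := by
            rw [Nat.le_div_iff_mul_le (by norm_num)]
            have : d * (d - 1) = (d - 1) * d := mul_comm _ _
            have h4 : 2 ≤ d := by omega
            have h5 : (d - 1) * 2 ≤ (d - 1) * d := Nat.mul_le_mul_left _ h4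
            omega
          exact h3.trans (h2.trans (hfr b))
      · obtain ⟨s, hs1, hs2⟩ := hALT p d 1 hp (by omega) g (by
          intro a
          rw [Nat.mul_one]
          rw [Nat.one_le_iff_ne_zero]
          intro h0
          have h1 : G - Matrix.scalar (Fin d) a = 0 := by
            have h2 : (Matrix.mulVecLin (G - Matrix.scalar (Fin d) a)).range = ⊥ := by
              rw [← Submodule.finrank_eq_zero]
              exact h0
            rw [LinearMap.range_eq_bot] at h2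
            ext i j
            have h3 := congrFun (LinearMap.congr_fun h2 (Pi.single j 1)) i
            rw [Matrix.mulVecLin_apply, Matrix.mulVec_single_one] at h3
            exact h3
          exact hsc ⟨a, sub_eq_zero.1 h1⟩) b
        rw [hs2, one_mul] at hs1
        rw [Nat.mul_one] at hs1
        exact hs1.trans (hfr b)
  · intro h5 h6 b
    obtain ⟨s, hs1, hs2⟩ := hALT p d 3 hp (by omega) g (by
      intro a
      exact h5 a) b
    rw [hs2] at hs1
    exact hs1.trans (hfr b)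

end Pool.Agent.Lib.MP4ccb00
end

section
/-!
# MP_4ccb00_al, module DMS: the dimension of `Ms`
-/
set_option autoImplicit false

namespace Pool.Agent.Lib.MP4ccb00.DMSM

open Subgroup Module E E.Base
open scoped commutatorElement Matrix

variable {p d : ℕ}

/-! ### the group of pairs -/

/-- The set of pairs `(v, z)` with `(v,z)(v',z') = (v+v', z+z'+ v C v')`. -/
@[ext]
structure HG (C : Matrix (Fin d) (Fin d) (ZMod p)) where
  /-- first component -/
  v : Fin d → ZMod p
  /-- second component -/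
  z : ZMod p

/-- the bilinear form -/
def bf (C : Matrix (Fin d) (Fin d) (ZMod p)) (x y : Fin d → ZMod p) : ZMod p := x ⬝ᵥ (C *ᵥ y)

variable (C : Matrix (Fin d) (Fin d) (ZMod p))

theorem bf_al (x x' y : Fin d → ZMod p) : bf C (x + x') y = bf C x y + bf C x' y := by
  simp [bf, add_dotProduct]

theorem bf_ar (x y y' : Fin d → ZMod p) : bf C x (y + y') = bf C x y + bf C x y' := by
  simp [bf, Matrix.mulVec_add, dotProduct_add]

theorem bf_nl (x y : Fin d → ZMod p) : bf C (-x) y = - bf C x y := by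
  simp [bf]

theorem bf_nr (x y : Fin d → ZMod p) : bf C x (-y) = - bf C x y := by
  simp [bf, Matrix.mulVec_neg]

theorem bf_zl (y : Fin d → ZMod p) : bf C 0 y = 0 := by
  simp [bf]

theorem bf_zr (x : Fin d → ZMod p) : bf C x 0 = 0 := by
  simp [bf]

theorem bf_single (i j : Fin d) : bf C (Pi.single i 1) (Pi.single j 1) = C i j := by
  simp [bf]

instance : Mul (HG C) := ⟨fun x y => ⟨x.v + y.v, x.z + y.z + bf C x.v y.v⟩⟩
instance : One (HG C) := ⟨⟨0, 0⟩⟩
instance : Inv (HG C) := ⟨fun x => ⟨-x.v, -x.z + bf C x.v x.v⟩⟩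

theorem mul_v (x y : HG C) : (x * y).v = x.v + y.v := rfl
theorem mul_z (x y : HG C) : (x * y).z = x.z + y.z + bf C x.v y.v := rfl
theorem one_v : (1 : HG C).v = 0 := rfl
theorem one_z : (1 : HG C).z = 0 := rfl
theorem inv_v (x : HG C) : (x⁻¹).v = -x.v := rfl
theorem inv_z (x : HG C) : (x⁻¹).z = -x.z + bf C x.v x.v := rfl

instance : Group (HG C) := Group.ofLeftAxioms
  (by
    intro a b c
    apply HG.ext
    · rw [mul_v, mul_v, mul_v, mul_v, add_assoc]
    · rw [mul_z, mul_z, mul_z, mul_z, mul_v, mul_v, bf_al, bf_ar]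
      ring)
  (by
    intro a
    apply HG.ext
    · rw [mul_v, one_v, zero_add]
    · rw [mul_z, one_z, one_v, bf_zl]; ring)
  (by
    intro a
    apply HG.ext
    · rw [mul_v, inv_v, one_v, neg_add_cancel]
    · rw [mul_z, inv_z, inv_v, bf_nl, one_z]; ring)

/-- the `v`-component of a commutator is `0`, its `z`-component is alternating -/
theorem comm_z (a b : HG C) : (⁅a, b⁆).z = bf C a.v b.v - bf C b.v a.v := by
  rw [commutatorElement_def]
  simp only [mul_z, mul_v, inv_z, inv_v, bf_al, bf_ar, bf_nl, bf_nr]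
  ring

theorem pow_z {a : HG C} (h : bf C a.v a.v = 0) (hz : a.z = 0) (n : ℕ) :
    (a ^ n).z = 0 ∧ bf C (a ^ n).v a.v = 0 := by
  induction n with
  | zero => exact ⟨rfl, by rw [pow_zero, one_v, bf_zl]⟩
  | succ n ih =>
    rw [pow_succ, mul_z, mul_v, bf_al, ih.1, ih.2, hz, h]
    exact ⟨by ring, by ring⟩

/-- the homomorphism `x_i ↦ (e_i, 0)` -/
def th : FG d →* HG C := FreeGroup.lift fun i => ⟨Pi.single i 1, 0⟩

theorem th_of (i : Fin d) : th C (FreeGroup.of i) = ⟨Pi.single i 1, 0⟩ := by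
  simp [th]

theorem th_v (w : FG d) : (th C w).v = Multiplicative.toAdd (ab p w) := by
  have h : ∀ w : FG d, ∀ f : FG d →* Multiplicative (Fin d → ZMod p),
      (∀ i, f (FreeGroup.of i) = Multiplicative.ofAdd (Pi.single i 1)) → f w = ab p w := by
    intro w f hf
    have : f = ab p := by
      apply FreeGroup.ext_hom
      intro i
      rw [hf i]
      simp [ab]
    rw [this]
  let f : FG d →* Multiplicative (Fin d → ZMod p) :=
    { toFun := fun w => Multiplicative.ofAdd (th C w).v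
      map_one' := by rw [map_one]; rfl
      map_mul' := fun x y => by rw [map_mul]; rfl }
  have h1 := h w f (fun i => by
    show Multiplicative.ofAdd (th C (FreeGroup.of i)).v = _
    rw [th_of])
  exact congrArg Multiplicative.toAdd h1

open Classical in
/-- the element of `Ms` -/
noncomputable def ph (w : FG d) : ZMod p :=
  if w ∈ Phi p (⊤ : Subgroup (FG d)) then (th C w).z else 0

theorem ph_mem (hker : (ab p : FG d →* _).ker = Phi p (⊤ : Subgroup (FG d))) : ph C ∈ Ms p d := by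
  have hn := SUPM.phi_normal p (FG d)
  have hv : ∀ w ∈ Phi p (⊤ : Subgroup (FG d)), (th C w).v = 0 := by
    intro w hw
    rw [th_v]
    rw [← hker, MonoidHom.mem_ker] at hw
    rw [hw]; rfl
  have hin : ∀ w ∈ Phi p (⊤ : Subgroup (FG d)), ph C w = (th C w).z := fun w hw => if_pos hw
  refine ⟨fun w hw => if_neg hw, ?_, ?_, ?_⟩
  · intro x hx y hy
    rw [hin _ (mul_mem hx hy), hin x hx, hin y hy, map_mul, mul_z, hv x hx, bf_zl, add_zero]
  · intro g _ x hx
    rw [hin _ (hn.conj_mem x hx g), hin x hx, map_mul, map_mul, map_inv]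
    simp only [mul_z, mul_v, inv_z, inv_v, hv x hx, bf_zr, add_zero, bf_nr]
    ring
  · intro x hx h1
    rw [hin x hx, mem_bot.1 h1, map_one]
    rfl

theorem ph_comm (i j : Fin d) : ph C ⁅FreeGroup.of i, FreeGroup.of j⁆ = C i j - C j i := by
  have h := RKMM.comm_mem (p := p) (FreeGroup.of i) (FreeGroup.of j)
  rw [ph, if_pos h, map_commutatorElement, comm_z, th_of, th_of, bf_single, bf_single]

theorem ph_pow (hC : ∀ i, C i i = 0) (i : Fin d) : ph C (FreeGroup.of i ^ p) = 0 := by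
  have h := RKMM.pow_mem' (p := p) (FreeGroup.of i)
  rw [ph, if_pos h, map_pow, th_of]
  refine (pow_z C ?_ rfl p).1
  rw [bf_single, hC]

/-! ### powers -/

/-- exponent sums in `ℤ` -/
def se (i : Fin d) : FG d →* Multiplicative ℤ :=
  FreeGroup.lift fun j => Multiplicative.ofAdd (if j = i then 1 else 0)

theorem se_of (i j : Fin d) : se i (FreeGroup.of j) = Multiplicative.ofAdd (if j = i then 1 else 0) := by
  simp [se]

theorem se_dvd (i : Fin d) {w : FG d} (hw : w ∈ Phi p (⊤ : Subgroup (FG d))) :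
    (p : ℤ) ∣ Multiplicative.toAdd (se i w) := by
  let f : FG d →* Multiplicative (ZMod p) :=
    { toFun := fun w => Multiplicative.ofAdd ((Multiplicative.toAdd (se i w) : ℤ) : ZMod p)
      map_one' := by rw [map_one]; simp
      map_mul' := fun x y => by rw [map_mul, toAdd_mul, Int.cast_add]; rfl }
  have h1 : f w = 1 := PULM.phi_le_ker p f hw
  have h2 : ((Multiplicative.toAdd (se i w) : ℤ) : ZMod p) = 0 :=
    Multiplicative.ofAdd.injective h1
  exact (ZMod.intCast_zmod_eq_zero_iff_dvd _ _).1 h2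

open Classical in
/-- the element of `Ms` -/
noncomputable def pl (l : Fin d → ZMod p) (w : FG d) : ZMod p :=
  if w ∈ Phi p (⊤ : Subgroup (FG d)) then
    ∑ i, l i * ((Multiplicative.toAdd (se i w) / (p : ℤ) : ℤ) : ZMod p) else 0

theorem pl_mem (l : Fin d → ZMod p) : pl l ∈ Ms p d := by
  have hn := SUPM.phi_normal p (FG d)
  have hin : ∀ w ∈ Phi p (⊤ : Subgroup (FG d)), pl l w =
    ∑ i, l i * ((Multiplicative.toAdd (se i w) / (p : ℤ) : ℤ) : ZMod p) := fun w hw => if_pos hw
  refine ⟨fun w hw => if_neg hw, ?_, ?_, ?_⟩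
  · intro x hx y hy
    rw [hin _ (mul_mem hx hy), hin x hx, hin y hy, ← Finset.sum_add_distrib]
    refine Finset.sum_congr rfl fun i _ => ?_
    rw [map_mul, toAdd_mul, Int.add_ediv_of_dvd_left (se_dvd i hx), Int.cast_add, mul_add]
  · intro g _ x hx
    rw [hin _ (hn.conj_mem x hx g), hin x hx]
    refine Finset.sum_congr rfl fun i _ => ?_
    have h1 : se i (g * x * g⁻¹) = se i x := by
      rw [map_mul, map_mul, map_inv, mul_right_comm, mul_inv_cancel, one_mul]
    rw [h1]
  · intro x hx h1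
    rw [hin x hx, mem_bot.1 h1]
    apply Finset.sum_eq_zero
    intro i _
    rw [map_one, toAdd_one, Int.zero_ediv, Int.cast_zero, mul_zero]

theorem pl_comm (l : Fin d → ZMod p) (i j : Fin d) :
    pl l ⁅FreeGroup.of i, FreeGroup.of j⁆ = 0 := by
  have h := RKMM.comm_mem (p := p) (FreeGroup.of i) (FreeGroup.of j)
  rw [pl, if_pos h]
  apply Finset.sum_eq_zero
  intro k _
  have : se k ⁅FreeGroup.of i, FreeGroup.of j⁆ = 1 := by
    rw [map_commutatorElement, commutatorElement_eq_one_iff_mul_comm, mul_comm]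
  rw [this, toAdd_one, Int.zero_ediv, Int.cast_zero, mul_zero]

theorem pl_pow (hp : p.Prime) (l : Fin d → ZMod p) (i : Fin d) :
    pl l (FreeGroup.of i ^ p) = l i := by
  have h := RKMM.pow_mem' (p := p) (FreeGroup.of i)
  rw [pl, if_pos h]
  have hp0 : (p : ℤ) ≠ 0 := by exact_mod_cast hp.ne_zero
  rw [Finset.sum_eq_single i]
  · rw [map_pow, se_of, if_pos rfl, toAdd_pow, toAdd_ofAdd, nsmul_eq_mul, mul_one,
      Int.ediv_self hp0, Int.cast_one, mul_one]
  · intro k _ hk
    rw [map_pow, se_of, if_neg (Ne.symm hk), toAdd_pow, toAdd_ofAdd, smul_zero, Int.zero_ediv,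
      Int.cast_zero, mul_zero]
  · exact fun h => absurd (Finset.mem_univ _) h

/-- the coordinates on `Ms` -/
def co (p d : ℕ) : (FG d → ZMod p) →ₗ[ZMod p]
    (((Σ i : Fin d, Fin i.1) → ZMod p) × (Fin d → ZMod p)) where
  toFun φ := (fun x => φ ⁅FreeGroup.of x.1, FreeGroup.of ⟨x.2.1, x.2.2.trans x.1.2⟩⁆,
    fun i => φ (FreeGroup.of i ^ p))
  map_add' _ _ := rfl
  map_smul' _ _ := rfl

end Pool.Agent.Lib.MP4ccb00.DMSM

namespace Pool.Agent.Lib.MP4ccb00

open Subgroup Module E E.Base DMSM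
open scoped commutatorElement Matrix

theorem specDMS (hABP : SpecABP) : SpecDMS := by
  intro p d hp
  have : Fact p.Prime := ⟨hp⟩
  have hker := (hABP p d hp).1
  have hinj : Function.Injective ((co p d).domRestrict (Ms p d)) := by
    refine (injective_iff_map_eq_zero _).2 ?_
    rintro ⟨φ, hφ⟩ h
    apply Subtype.ext
    have h1 : ∀ x : (Σ i : Fin d, Fin i.1),
        φ ⁅FreeGroup.of x.1, FreeGroup.of ⟨x.2.1, x.2.2.trans x.1.2⟩⁆ = 0 := fun x =>
      congrFun (congrArg Prod.fst h) x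
    have h2 : ∀ i, φ (FreeGroup.of i ^ p) = 0 := fun i => congrFun (congrArg Prod.snd h) i
    refine RKMM.ms_inj hφ ?_ h2
    have halt := RKMM.beta_alt hφ
    have h3 : ∀ i j : Fin d, j < i → RKMM.beta p d φ i j = 0 := fun i j hij =>
      h1 ⟨i, ⟨j.1, hij⟩⟩
    ext i j
    show RKMM.beta p d φ i j = 0
    rcases lt_trichotomy i j with hij | hij | hij
    · rw [halt.2 i j, h3 j i hij, neg_zero]
    · rw [hij, halt.1 j]
    · exact h3 i j hij
  have hsurj : Function.Surjective ((co p d).domRestrict (Ms p d)) := by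
    rintro ⟨c, l⟩
    classical
    let C : Matrix (Fin d) (Fin d) (ZMod p) := fun i j =>
      if h : j.1 < i.1 then c ⟨i, ⟨j.1, h⟩⟩ else 0
    have hC0 : ∀ i, C i i = 0 := fun i => dif_neg (lt_irrefl _)
    refine ⟨⟨ph C + pl l, Submodule.add_mem _ (ph_mem C hker) (pl_mem l)⟩, ?_⟩
    apply Prod.ext
    · funext x
      show ph C ⁅FreeGroup.of x.1, FreeGroup.of ⟨x.2.1, x.2.2.trans x.1.2⟩⁆ +
        pl l ⁅FreeGroup.of x.1, FreeGroup.of ⟨x.2.1, x.2.2.trans x.1.2⟩⁆ = c x
      rw [ph_comm, pl_comm, add_zero]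
      have e1 : C x.1 ⟨x.2.1, x.2.2.trans x.1.2⟩ = c x := dif_pos x.2.2
      have e2 : C ⟨x.2.1, x.2.2.trans x.1.2⟩ x.1 = 0 := dif_neg (not_lt.2 x.2.2.le)
      rw [e1, e2, sub_zero]
    · funext i
      show ph C (FreeGroup.of i ^ p) + pl l (FreeGroup.of i ^ p) = l i
      rw [ph_pow C hC0, pl_pow hp, zero_add]
  let e := LinearEquiv.ofBijective ((co p d).domRestrict (Ms p d)) ⟨hinj, hsurj⟩
  refine ⟨Module.Finite.equiv e.symm, ?_⟩
  rw [e.finrank_eq, Module.finrank_prod, Module.finrank_fintype_fun_eq_card,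
    Module.finrank_fin_fun, Fintype.card_sigma, RKMM.tri]
  simp only [Fintype.card_fin]
  rw [Fin.sum_univ_eq_sum_range (fun i => i) d, Finset.sum_range_id]

end Pool.Agent.Lib.MP4ccb00
end

section
/-!
# MP_4ccb00_al, module GOO: good groups are subspaces
-/
set_option autoImplicit false
set_option linter.unusedSectionVars false

namespace Pool.Agent.Lib.MP4ccb00.GOOM

open Subgroup Module E E.Base
open scoped commutatorElement

/-- `Phi / Psi` as a vector space -/
theorem exists_quot (p d : ℕ) : ∃ (A : Type) (_ : AddCommGroup A)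
    (_ : Module (ZMod p) A) (π : Phi p (⊤ : Subgroup (FG d)) →* Multiplicative A),
    Function.Surjective π ∧ ∀ x, π x = 1 ↔ (x : FG d) ∈ Psi p (FG d) := by
  have : (Psi p (FG d)).Normal := SUPM.psi_normal p _
  set N := (Psi p (FG d)).subgroupOf (Phi p (⊤ : Subgroup (FG d))) with hN
  letI cg : CommGroup (Phi p (⊤ : Subgroup (FG d)) ⧸ N) :=
    { (inferInstance : Group (Phi p (⊤ : Subgroup (FG d)) ⧸ N)) with
      mul_comm := by
        intro a b
        induction a using QuotientGroup.induction_on with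
        | H a =>
        induction b using QuotientGroup.induction_on with
        | H b =>
        rw [← QuotientGroup.mk_mul, ← QuotientGroup.mk_mul, QuotientGroup.eq, hN, mem_subgroupOf]
        have h : ⁅((b : FG d))⁻¹, ((a : FG d))⁻¹⁆ ∈ Psi p (FG d) :=
          Subgroup.mem_sup_left (commutator_mem_commutator (inv_mem b.2) (mem_top _))
        simpa [commutatorElement_def, mul_assoc] using h }
  letI : Module (ZMod p) (Additive (Phi p (⊤ : Subgroup (FG d)) ⧸ N)) :=
    AddCommGroup.zmodModule (by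
      intro x
      induction x using Additive.rec with
      | ofMul x =>
      rw [← ofMul_pow]
      apply congrArg Additive.ofMul (?_ : x ^ p = 1)
      induction x using QuotientGroup.induction_on with
      | H x =>
      rw [← QuotientGroup.mk_pow, QuotientGroup.eq_one_iff, hN, mem_subgroupOf]
      exact Subgroup.mem_sup_right (Subgroup.subset_closure ⟨(x : FG d), x.2, rfl⟩))
  refine ⟨Additive (Phi p (⊤ : Subgroup (FG d)) ⧸ N), inferInstance, inferInstance,
    { toFun := fun x => Multiplicative.ofAdd (Additive.ofMul (QuotientGroup.mk x))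
      map_one' := rfl
      map_mul' := fun _ _ => rfl }, ?_, ?_⟩
  · intro a
    obtain ⟨x, hx⟩ := QuotientGroup.mk_surjective (Additive.toMul (Multiplicative.toAdd a))
    exact ⟨x, by
      show Multiplicative.ofAdd (Additive.ofMul (QuotientGroup.mk x)) = a
      rw [hx]; rfl⟩
  · intro x
    have h1 : (QuotientGroup.mk x : Phi p (⊤ : Subgroup (FG d)) ⧸ N) = 1 ↔ x ∈ N :=
      QuotientGroup.eq_one_iff x
    have h2 : x ∈ N ↔ (x : FG d) ∈ Psi p (FG d) := mem_subgroupOf
    exact h1.trans h2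

/-- functions of `Ms` kill `Psi` -/
theorem ms_psi {p d : ℕ} {φ : FG d → ZMod p} (hφ : φ ∈ Ms p d) {x : FG d} (hx : x ∈ Psi p (FG d)) :
    φ x = 0 := by
  have hn := SUPM.phi_normal p (FG d)
  let K : Subgroup (FG d) :=
    { carrier := {x | x ∈ Phi p (⊤ : Subgroup (FG d)) ∧ φ x = 0}
      mul_mem' := by
        rintro a b ⟨ha, ha'⟩ ⟨hb, hb'⟩
        exact ⟨mul_mem ha hb, by rw [yy_mul hφ ha hb, ha', hb', add_zero]⟩
      one_mem' := ⟨one_mem _, yy_one hφ⟩
      inv_mem' := by
        rintro a ⟨ha, ha'⟩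
        exact ⟨inv_mem ha, by rw [yy_inv hφ ha, ha', neg_zero]⟩ }
  have hK : Psi p (FG d) ≤ K := by
    unfold Psi
    refine sup_le ?_ ?_
    · rw [commutator_le]
      intro a ha b _
      have h1 : ⁅a, b⁆ = a * (b * a⁻¹ * b⁻¹) := by rw [commutatorElement_def]; group
      have h2 : b * a⁻¹ * b⁻¹ ∈ Phi p (⊤ : Subgroup (FG d)) := hn.conj_mem _ (inv_mem ha) _
      refine ⟨?_, ?_⟩
      · rw [h1]; exact mul_mem ha h2
      · rw [h1, yy_mul hφ ha h2, yy_conj hφ (mem_top _) (inv_mem ha), yy_inv hφ ha, add_neg_cancel]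
    · rw [closure_le]
      rintro _ ⟨y, hy, rfl⟩
      exact ⟨pow_mem hy p, yy_pow_p hφ hy⟩
  exact (hK hx).2

section

variable {p d : ℕ} {A : Type} [AddCommGroup A] [Module (ZMod p) A]
  (π : Phi p (⊤ : Subgroup (FG d)) →* Multiplicative A)

open Classical in
/-- functionals on `A` as functions on `FG d` -/
noncomputable def ev : Module.Dual (ZMod p) A →ₗ[ZMod p] (FG d → ZMod p) where
  toFun f := fun x => if hx : x ∈ Phi p (⊤ : Subgroup (FG d)) then
    f (Multiplicative.toAdd (π ⟨x, hx⟩)) else 0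
  map_add' f g := by
    funext x
    by_cases hx : x ∈ Phi p (⊤ : Subgroup (FG d))
    · simp [hx]
    · simp [hx]
  map_smul' c f := by
    funext x
    by_cases hx : x ∈ Phi p (⊤ : Subgroup (FG d))
    · simp [hx]
    · simp [hx]

theorem ev_in (f : Module.Dual (ZMod p) A) {x : FG d} (hx : x ∈ Phi p (⊤ : Subgroup (FG d))) :
    ev π f x = f (Multiplicative.toAdd (π ⟨x, hx⟩)) := by
  classical
  exact dif_pos hx

theorem ev_out (f : Module.Dual (ZMod p) A) {x : FG d} (hx : x ∉ Phi p (⊤ : Subgroup (FG d))) :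
    ev π f x = 0 := by
  classical
  exact dif_neg hx

variable {π} (hs : Function.Surjective π) (hk : ∀ x, π x = 1 ↔ (x : FG d) ∈ Psi p (FG d))

include hs in
theorem ev_inj : Function.Injective (ev π) := by
  intro f g h
  ext a
  obtain ⟨⟨x, hx⟩, hxa⟩ := hs (Multiplicative.ofAdd a)
  have h1 := congrFun h x
  rw [ev_in π f hx, ev_in π g hx, hxa] at h1
  exact h1

include hk in
theorem pi_conj (g x : FG d) (hx : x ∈ Phi p (⊤ : Subgroup (FG d)))
    (hgx : g * x * g⁻¹ ∈ Phi p (⊤ : Subgroup (FG d))) : π ⟨g * x * g⁻¹, hgx⟩ = π ⟨x, hx⟩ := by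
  have h1 : (⟨g * x * g⁻¹, hgx⟩ : Phi p (⊤ : Subgroup (FG d))) * ⟨x, hx⟩⁻¹ =
      ⟨g * x * g⁻¹ * x⁻¹, mul_mem hgx (inv_mem hx)⟩ := rfl
  have h2 : π (⟨g * x * g⁻¹, hgx⟩ * ⟨x, hx⟩⁻¹) = 1 := by
    rw [h1, hk]
    show g * x * g⁻¹ * x⁻¹ ∈ Psi p (FG d)
    have h3 : g * x * g⁻¹ * x⁻¹ = ⁅x, g⁆⁻¹ := by rw [commutatorElement_def]; group
    rw [h3]
    exact inv_mem (Subgroup.mem_sup_left (commutator_mem_commutator hx (mem_top _)))
  rw [map_mul, map_inv, mul_inv_eq_one] at h2
  exact h2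

include hs hk in
theorem ev_range : LinearMap.range (ev π) = Ms p d := by
  have hn := SUPM.phi_normal p (FG d)
  apply le_antisymm
  · rintro _ ⟨f, rfl⟩
    refine ⟨fun x hx => ev_out π f hx, ?_, ?_, ?_⟩
    · intro x hx y hy
      rw [ev_in π f (mul_mem hx hy), ev_in π f hx, ev_in π f hy, ← map_add]
      congr 1
      have : (⟨x * y, mul_mem hx hy⟩ : Phi p (⊤ : Subgroup (FG d))) = ⟨x, hx⟩ * ⟨y, hy⟩ := rfl
      rw [this, map_mul, toAdd_mul]
    · intro g _ x hx
      have hgx := hn.conj_mem x hx g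
      rw [ev_in π f hgx, ev_in π f hx, pi_conj hk g x hx hgx]
    · intro x hx h1
      rw [mem_bot] at h1
      subst h1
      rw [ev_in π f hx]
      have : (⟨1, hx⟩ : Phi p (⊤ : Subgroup (FG d))) = 1 := rfl
      rw [this, map_one, toAdd_one, map_zero]
  · intro φ hφ
    have hkill : ∀ x y : Phi p (⊤ : Subgroup (FG d)), π x = π y → φ x = φ y := by
      intro x y hxy
      have h1 : π (y⁻¹ * x) = 1 := by rw [map_mul, map_inv, hxy, inv_mul_cancel]
      rw [hk] at h1
      have h2 := ms_psi hφ h1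
      have h3 : (x : FG d) = y * ((y⁻¹ * x : Phi p (⊤ : Subgroup (FG d))) : FG d) := by
        push_cast; group
      rw [h3, yy_mul hφ y.2 (y⁻¹ * x).2, h2, add_zero]
    let s : A → Phi p (⊤ : Subgroup (FG d)) := fun a => Function.surjInv hs (Multiplicative.ofAdd a)
    have hsa : ∀ a, π (s a) = Multiplicative.ofAdd a := fun a => Function.surjInv_eq hs _
    let f : A →+ ZMod p :=
      { toFun := fun a => φ (s a)
        map_zero' := by
          rw [hkill (s 0) 1 (by rw [hsa, map_one]; rfl)]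
          exact yy_one hφ
        map_add' := by
          intro a b
          rw [hkill (s (a + b)) (s a * s b) (by rw [map_mul, hsa, hsa, hsa]; rfl)]
          exact yy_mul hφ (s a).2 (s b).2 }
    refine ⟨f.toZModLinearMap p, ?_⟩
    funext x
    by_cases hx : x ∈ Phi p (⊤ : Subgroup (FG d))
    · rw [ev_in π _ hx]
      show φ (s (Multiplicative.toAdd (π ⟨x, hx⟩))) = φ x
      exact hkill _ ⟨x, hx⟩ (by rw [hsa]; rfl)
    · rw [ev_out π _ hx, yy_out hφ hx]

variable (π) in
/-- the image of `R` in `A` -/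
def bar (R : Subgroup (FG d)) : Submodule (ZMod p) A :=
  AddSubgroup.toZModSubmodule p
    { carrier := {a | ∃ x : Phi p (⊤ : Subgroup (FG d)), (x : FG d) ∈ R ∧ π x = Multiplicative.ofAdd a}
      zero_mem' := ⟨1, one_mem R, by rw [map_one]; rfl⟩
      add_mem' := by
        rintro a b ⟨x, hx, hx'⟩ ⟨y, hy, hy'⟩
        exact ⟨x * y, mul_mem hx hy, by rw [map_mul, hx', hy']; rfl⟩
      neg_mem' := by
        rintro a ⟨x, hx, hx'⟩
        exact ⟨x⁻¹, inv_mem hx, by rw [map_inv, hx']; rfl⟩ }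

theorem mem_bar {R : Subgroup (FG d)} {a : A} : a ∈ bar π R ↔
    ∃ x : Phi p (⊤ : Subgroup (FG d)), (x : FG d) ∈ R ∧ π x = Multiplicative.ofAdd a := Iff.rfl

include hk in
theorem mem_bar' {R : Subgroup (FG d)} (hR : Psi p (FG d) ≤ R) (x : Phi p (⊤ : Subgroup (FG d))) :
    Multiplicative.toAdd (π x) ∈ bar π R ↔ (x : FG d) ∈ R := by
  rw [mem_bar]
  constructor
  · rintro ⟨y, hy, hyx⟩
    have h0 : π y = π x := hyx
    have h1 : π (y⁻¹ * x) = 1 := by rw [map_mul, map_inv, h0, inv_mul_cancel]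
    rw [hk] at h1
    have h2 : (x : FG d) = y * ((y⁻¹ * x : Phi p (⊤ : Subgroup (FG d))) : FG d) := by
      push_cast; group
    rw [h2]
    exact mul_mem hy (hR h1)
  · intro hx
    exact ⟨x, hx, rfl⟩

include hs hk in
theorem yy_eq {R : Subgroup (FG d)} (hR : Psi p (FG d) ≤ R) :
    YY p ⊤ (Phi p ⊤) R = (bar π R).dualAnnihilator.map (ev π) := by
  apply le_antisymm
  · intro φ hφ
    have h1 : φ ∈ Ms p d := yy_mono le_rfl bot_le hφ
    rw [← ev_range hs hk] at h1
    obtain ⟨f, rfl⟩ := h1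
    refine ⟨f, ?_, rfl⟩
    rw [SetLike.mem_coe, Submodule.mem_dualAnnihilator]
    intro a ha
    obtain ⟨x, hx, hxa⟩ := mem_bar.1 ha
    have h2 := yy_zero hφ x.2 hx
    rw [ev_in π f x.2] at h2
    have h3 : π ⟨(x : FG d), x.2⟩ = Multiplicative.ofAdd a := hxa
    rw [h3] at h2
    exact h2
  · rintro _ ⟨f, hf, rfl⟩
    have h1 : ev π f ∈ Ms p d := by
      rw [← ev_range hs hk]; exact ⟨f, rfl⟩
    refine ⟨h1.1, h1.2.1, h1.2.2.1, ?_⟩
    intro x hx hxR
    rw [ev_in π f hx]
    rw [SetLike.mem_coe, Submodule.mem_dualAnnihilator] at hf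
    exact hf _ ((mem_bar' hk hR ⟨x, hx⟩).2 hxR)

include hs hk in
theorem index_bar {R : Subgroup (FG d)} (hR : Psi p (FG d) ≤ R) :
    Nat.card (A ⧸ bar π R) = R.relIndex (Phi p (⊤ : Subgroup (FG d))) := by
  let H : Subgroup (Multiplicative A) := AddSubgroup.toSubgroup (bar π R).toAddSubgroup
  have h1 : R.subgroupOf (Phi p (⊤ : Subgroup (FG d))) = H.comap π := by
    ext x
    rw [mem_subgroupOf, mem_comap]
    exact (mem_bar' hk hR x).symm
  have h2 : R.relIndex (Phi p (⊤ : Subgroup (FG d))) = H.index := by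
    show (R.subgroupOf (Phi p (⊤ : Subgroup (FG d)))).index = _
    rw [h1, index_comap_of_surjective _ hs]
  rw [h2, AddSubgroup.index_toSubgroup]
  rfl

end

end Pool.Agent.Lib.MP4ccb00.GOOM

namespace Pool.Agent.Lib.MP4ccb00

open Subgroup Module E E.Base GOOM
open scoped commutatorElement

theorem specGOO (hABP : SpecABP) (hDMS : SpecDMS) (hPUL : SpecPUL) : SpecGOO := by
  intro p d n hp hdn
  have := Fact.mk hp
  have hn := SUPM.phi_normal p (FG d)
  obtain ⟨A, iA, iM, π, hs, hk⟩ := exists_quot p d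
  obtain ⟨hker, -, -, -, hcan, hind⟩ := hABP p d hp
  obtain ⟨hfin, -⟩ := hDMS p d hp
  obtain ⟨hpul1, hpul2, -, -⟩ := hPUL p d hp
  have := hfin
  -- finiteness of `A`
  have hfinD : Module.Finite (ZMod p) (Module.Dual (ZMod p) A) := by
    let e : Module.Dual (ZMod p) A →ₗ[ZMod p] Ms p d :=
      (ev π).codRestrict (Ms p d) (fun f => by rw [← ev_range hs hk]; exact ⟨f, rfl⟩)
    refine Module.Finite.of_injective e ?_
    intro f g h
    exact ev_inj hs (congrArg Subtype.val h)
  have hfinA : Module.Finite (ZMod p) A := by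
    refine Module.Finite.of_injective (Module.Dual.eval (ZMod p) A) ?_
    rw [← LinearMap.ker_eq_bot]
    exact Module.eval_ker (ZMod p) A
  have hcard : ∀ R : Subgroup (FG d), Psi p (FG d) ≤ R →
      R.relIndex (Phi p (⊤ : Subgroup (FG d))) = p ^ finrank (ZMod p) (YY p ⊤ (Phi p ⊤) R) := by
    intro R hR
    rw [← index_bar hs hk hR, yy_eq hs hk hR,
      ← (Submodule.equivMapOfInjective (ev π) (ev_inj hs) _).finrank_eq,
      Module.natCard_eq_pow_finrank (K := ZMod p), Nat.card_zmod]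
    congr 1
    have h1 := Subspace.finrank_add_finrank_dualAnnihilator_eq (bar π R)
    have h2 := Submodule.finrank_quotient_add_finrank (bar π R)
    omega
  have hsep : ∀ R : Subgroup (FG d), Psi p (FG d) ≤ R → ∀ x ∈ Phi p (⊤ : Subgroup (FG d)),
      (∀ φ ∈ YY p ⊤ (Phi p ⊤) R, φ x = 0) → x ∈ R := by
    intro R hR x hx h
    rw [← mem_bar' hk hR ⟨x, hx⟩]
    refine (Subspace.forall_mem_dualAnnihilator_apply_eq_zero_iff (bar π R) _).1 ?_
    intro f hf
    have h1 := h (ev π f) (by rw [yy_eq hs hk hR]; exact ⟨f, hf, rfl⟩)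
    rwa [ev_in π f hx] at h1
  refine ⟨?_, ?_, ?_, ?_⟩
  · rintro R ⟨⟨hRn, hRP, hRi⟩, hR⟩
    have h1 := relIndex_mul_index hRP
    rw [hRi, hind, hcard R hR, ← pow_add] at h1
    have h2 := Nat.pow_right_injective hp.two_le h1
    omega
  · rintro R ⟨⟨hRn, hRP, hRi⟩, hR⟩ R' ⟨⟨hRn', hRP', hRi'⟩, hR'⟩ h
    apply le_antisymm
    · intro x hx
      refine hsep R' hR' x (hRP hx) ?_
      rw [← h]
      intro φ hφ
      exact yy_zero hφ (hRP hx) hx
    · intro x hx
      refine hsep R hR x (hRP' hx) ?_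
      rw [h]
      intro φ hφ
      exact yy_zero hφ (hRP' hx) hx
  · intro W hW hWf
    set W' := W.comap (ev π) with hW'
    have hWW : W'.map (ev π) = W := by
      rw [hW', Submodule.map_comap_eq_self]
      rw [ev_range hs hk]; exact hW
    set U := W'.dualCoannihilator with hU
    have hUW : U.dualAnnihilator = W' := Subspace.dualCoannihilator_dualAnnihilator_eq
    let R : Subgroup (FG d) :=
      { carrier := {x | ∃ hx : x ∈ Phi p (⊤ : Subgroup (FG d)), Multiplicative.toAdd (π ⟨x, hx⟩) ∈ U}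
        mul_mem' := by
          rintro a b ⟨ha, ha'⟩ ⟨hb, hb'⟩
          refine ⟨mul_mem ha hb, ?_⟩
          have : (⟨a * b, mul_mem ha hb⟩ : Phi p (⊤ : Subgroup (FG d))) = ⟨a, ha⟩ * ⟨b, hb⟩ := rfl
          rw [this, map_mul, toAdd_mul]
          exact add_mem ha' hb'
        one_mem' := by
          refine ⟨one_mem _, ?_⟩
          have : (⟨1, one_mem _⟩ : Phi p (⊤ : Subgroup (FG d))) = 1 := rfl
          rw [this, map_one, toAdd_one]
          exact zero_mem _
        inv_mem' := by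
          rintro a ⟨ha, ha'⟩
          refine ⟨inv_mem ha, ?_⟩
          have : (⟨a⁻¹, inv_mem ha⟩ : Phi p (⊤ : Subgroup (FG d))) = ⟨a, ha⟩⁻¹ := rfl
          rw [this, map_inv, toAdd_inv]
          exact neg_mem ha' }
    have hRm : ∀ x, x ∈ R ↔ ∃ hx : x ∈ Phi p (⊤ : Subgroup (FG d)),
      Multiplicative.toAdd (π ⟨x, hx⟩) ∈ U := fun x => Iff.rfl
    have hRP : R ≤ Phi p (⊤ : Subgroup (FG d)) := fun x hx => ((hRm x).1 hx).1
    have hRPsi : Psi p (FG d) ≤ R := by
      intro x hx
      have hx' := SUPM.psi_le p _ hx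
      refine (hRm x).2 ⟨hx', ?_⟩
      rw [(hk ⟨x, hx'⟩).2 hx, toAdd_one]
      exact zero_mem _
    have hRn : R.Normal := by
      constructor
      intro x hx g
      obtain ⟨hx1, hx2⟩ := (hRm x).1 hx
      have hgx := hn.conj_mem x hx1 g
      refine (hRm _).2 ⟨hgx, ?_⟩
      rw [pi_conj hk g x hx1 hgx]
      exact hx2
    have hbar : bar π R = U := by
      ext a
      rw [mem_bar]
      constructor
      · rintro ⟨x, hx, hxa⟩
        obtain ⟨h1, h2⟩ := (hRm _).1 hx
        have h3 : π ⟨(x : FG d), h1⟩ = Multiplicative.ofAdd a := hxa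
        rw [h3] at h2
        exact h2
      · intro ha
        obtain ⟨x, hx⟩ := hs (Multiplicative.ofAdd a)
        refine ⟨x, (hRm _).2 ⟨x.2, ?_⟩, hx⟩
        have h3 : π ⟨(x : FG d), x.2⟩ = Multiplicative.ofAdd a := hx
        rw [h3]
        exact ha
    have hYR : YY p ⊤ (Phi p ⊤) R = W := by
      rw [yy_eq hs hk hRPsi, hbar, hUW, hWW]
    refine ⟨R, ⟨⟨hRn, hRP, ?_⟩, hRPsi⟩, hYR⟩
    have h1 := relIndex_mul_index hRP
    rw [hcard R hRPsi, hYR, hWf, hind, ← pow_add] at h1
    rw [← h1]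
    congr 1
    omega
  · rintro R ⟨⟨hRn, hRP, hRi⟩, hR⟩ g
    constructor
    · rintro ⟨y, hy, hyR⟩
      rintro _ ⟨φ, hφ, rfl⟩
      have hφ' : φ ∈ Ms p d := yy_mono le_rfl bot_le hφ
      have h1 : pull p (can p (g : Matrix (Fin d) (Fin d) (ZMod p))) φ = pull p y φ :=
        hpul2 _ _ (by rw [hcan, hy]) φ hφ'
      rw [h1]
      have h2 := hpul1 y φ hφ'
      refine ⟨h2.1, h2.2.1, h2.2.2.1, ?_⟩
      intro x hx hxR
      have h3 : pull p y φ x = φ (hm y x) := if_pos hx
      rw [h3]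
      exact yy_zero hφ (SUPM.phi_comap p (hm y) hx) (hyR hxR)
    · intro h
      refine ⟨can p (g : Matrix (Fin d) (Fin d) (ZMod p)), hcan _, ?_⟩
      intro r hr
      rw [mem_comap]
      refine hsep R hR _ (SUPM.phi_comap p (hm _) (hRP hr)) ?_
      intro φ hφ
      have h1 := h ⟨φ, hφ, rfl⟩
      have h2 := yy_zero h1 (hRP hr) hr
      have h3 : pull p (can p (g : Matrix (Fin d) (Fin d) (ZMod p))) φ r =
        φ (hm (can p (g : Matrix (Fin d) (Fin d) (ZMod p))) r) := if_pos (hRP hr)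
      rwa [h3] at h2

end Pool.Agent.Lib.MP4ccb00
end

section
set_option autoImplicit false

namespace Pool.Agent.Lib.MP4ccb00.LOWM

open Subgroup
open scoped commutatorElement

theorem phi_normal {p : ℕ} {G : Type} [Group G] : (Phi p (⊤ : Subgroup G)).Normal := by
  show (E.PhiP p (⊤ : Subgroup G)).Normal
  unfold E.PhiP
  have h1 : (⁅(⊤ : Subgroup G), (⊤ : Subgroup G)⁆).Normal := inferInstance
  have h2 : (Subgroup.closure {x | ∃ y ∈ (⊤ : Subgroup G), x = y ^ p}).Normal := by
    constructor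
    intro x hx g
    have h3 : Subgroup.closure {x | ∃ y ∈ (⊤ : Subgroup G), x = y ^ p} ≤
        (Subgroup.closure {x | ∃ y ∈ (⊤ : Subgroup G), x = y ^ p}).comap
          (MulAut.conj g).toMonoidHom := by
      rw [Subgroup.closure_le]
      rintro _ ⟨y, -, rfl⟩
      rw [SetLike.mem_coe, Subgroup.mem_comap, map_pow]
      exact Subgroup.subset_closure ⟨_, Subgroup.mem_top _, rfl⟩
    exact h3 hx
  exact Subgroup.sup_normal _ _

theorem psi_normal {p : ℕ} {G : Type} [Group G] : (Psi p G).Normal := by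
  unfold Psi
  have h0 : (Phi p (⊤ : Subgroup G)).Normal := phi_normal
  have h1 : (⁅Phi p (⊤ : Subgroup G), (⊤ : Subgroup G)⁆).Normal := inferInstance
  have h2 : (Subgroup.closure {x | ∃ h ∈ Phi p (⊤ : Subgroup G), x = h ^ p}).Normal := by
    constructor
    intro x hx g
    have h3 : Subgroup.closure {x | ∃ h ∈ Phi p (⊤ : Subgroup G), x = h ^ p} ≤
        (Subgroup.closure {x | ∃ h ∈ Phi p (⊤ : Subgroup G), x = h ^ p}).comap
          (MulAut.conj g).toMonoidHom := by
      rw [Subgroup.closure_le]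
      rintro _ ⟨y, hy, rfl⟩
      rw [SetLike.mem_coe, Subgroup.mem_comap, map_pow]
      exact Subgroup.subset_closure ⟨_, h0.conj_mem y hy g, rfl⟩
    exact h3 hx
  exact Subgroup.sup_normal _ _

/-- Two tuples with the same matrix induce the same map on `Phi` modulo `Psi`. -/
theorem same_mat (hA : SpecABP) {p d : ℕ} (hp : p.Prime) {y y' : Fin d → FG d}
    (h : mat p y = mat p y') {w : FG d} (hw : w ∈ Phi p (⊤ : Subgroup (FG d))) :
    (hm y' w)⁻¹ * hm y w ∈ Psi p (FG d) := by
  obtain ⟨hker, -, -, -, -, -⟩ := hA p d hp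
  have hN : (Psi p (FG d)).Normal := psi_normal
  let π : FG d →* FG d ⧸ Psi p (FG d) := QuotientGroup.mk' _
  have hcen : ∀ a ∈ Phi p (⊤ : Subgroup (FG d)), ∀ g : FG d ⧸ Psi p (FG d), g * π a = π a * g := by
    intro a ha g
    obtain ⟨b, rfl⟩ := QuotientGroup.mk'_surjective _ g
    have h1 : ⁅a, b⁆ ∈ Psi p (FG d) := Subgroup.mem_sup_left
      (Subgroup.commutator_mem_commutator ha (Subgroup.mem_top _))
    have h2 : π ⁅a, b⁆ = 1 := (QuotientGroup.eq_one_iff _).2 h1
    rw [map_commutatorElement, commutatorElement_eq_one_iff_mul_comm] at h2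
    exact h2.symm
  have hpow : ∀ a ∈ Phi p (⊤ : Subgroup (FG d)), π a ^ p = 1 := by
    intro a ha
    rw [← map_pow]
    exact (QuotientGroup.eq_one_iff _).2 (Subgroup.mem_sup_right
      (Subgroup.subset_closure ⟨a, ha, rfl⟩))
  have hgen : ∀ i, (y' i)⁻¹ * y i ∈ Phi p (⊤ : Subgroup (FG d)) := by
    intro i
    rw [← hker, MonoidHom.mem_ker, map_mul, map_inv, inv_mul_eq_one]
    have := congrFun h i
    exact (Multiplicative.toAdd.injective this).symm
  let δ : FG d →* Subgroup.center (FG d ⧸ Psi p (FG d)) :=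
    FreeGroup.lift (fun i => ⟨π ((y' i)⁻¹ * y i), Subgroup.mem_center_iff.2
      (hcen _ (hgen i))⟩)
  have hδc : ∀ (a : FG d) (g : FG d ⧸ Psi p (FG d)), g * (δ a : FG d ⧸ Psi p (FG d)) =
      (δ a : FG d ⧸ Psi p (FG d)) * g := fun a g => Subgroup.mem_center_iff.1 (δ a).2 g
  let f : FG d →* FG d ⧸ Psi p (FG d) :=
    { toFun := fun a => π (hm y' a) * (δ a : FG d ⧸ Psi p (FG d))
      map_one' := by simp
      map_mul' := by
        intro a b
        rw [map_mul, map_mul, map_mul, Subgroup.coe_mul, mul_assoc, mul_assoc,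
          ← mul_assoc (π (hm y' b)), hδc a (π (hm y' b)), mul_assoc] }
  have hf : π.comp (hm y) = f := by
    refine FreeGroup.ext_hom _ _ fun i => ?_
    show π (hm y (FreeGroup.of i)) = π (hm y' (FreeGroup.of i)) *
      ((δ (FreeGroup.of i) : _) : FG d ⧸ Psi p (FG d))
    have h1 : ((δ (FreeGroup.of i) : _) : FG d ⧸ Psi p (FG d)) = π ((y' i)⁻¹ * y i) := by
      simp [δ]
    rw [h1, EQVM.hm_of, EQVM.hm_of, ← map_mul, mul_inv_cancel_left]
  have hδp : ∀ a : FG d, (δ a) ^ p = 1 := by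
    intro a
    induction a using FreeGroup.induction_on with
    | C1 => rw [map_one, one_pow]
    | of i =>
      have h1 : δ (FreeGroup.of i) = ⟨π ((y' i)⁻¹ * y i), Subgroup.mem_center_iff.2
        (hcen _ (hgen i))⟩ := by simp [δ]
      rw [h1]
      ext
      exact hpow _ (hgen i)
    | inv_of i ih => rw [map_inv, inv_pow, ih, inv_one]
    | mul a b iha ihb =>
      have hc : Commute (δ a) (δ b) := by
        apply Subtype.ext
        exact (hδc a _).symm
      rw [map_mul, hc.mul_pow, iha, ihb, mul_one]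
  have hδw : w ∈ δ.ker := by
    have hle : Phi p (⊤ : Subgroup (FG d)) ≤ δ.ker := by
      show E.PhiP p (⊤ : Subgroup (FG d)) ≤ δ.ker
      unfold E.PhiP
      rw [sup_le_iff]
      constructor
      · rw [Subgroup.commutator_le]
        intro a _ b _
        rw [MonoidHom.mem_ker, map_commutatorElement, commutatorElement_eq_one_iff_mul_comm]
        apply Subtype.ext
        exact (hδc a _).symm
      · rw [Subgroup.closure_le]
        rintro _ ⟨a, -, rfl⟩
        rw [SetLike.mem_coe, MonoidHom.mem_ker, map_pow]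
        exact hδp a
    exact hle hw
  have h3 : π (hm y w) = π (hm y' w) := by
    have := DFunLike.congr_fun hf w
    rw [MonoidHom.comp_apply] at this
    rw [this]
    show π (hm y' w) * (δ w : FG d ⧸ Psi p (FG d)) = _
    rw [MonoidHom.mem_ker.1 hδw, Subgroup.coe_one, mul_one]
  exact QuotientGroup.eq.1 h3.symm

end Pool.Agent.Lib.MP4ccb00.LOWM

namespace Pool.Agent.Lib.MP4ccb00

open Subgroup

theorem specLOW (hX : SpecXFIN) (hE : SpecEQV) (hA : SpecABP) : SpecLOW := by
  intro p d n hp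
  have : Fact p.Prime := ⟨hp⟩
  have hGX : Good p d n ⊆ X p d n := fun R hR => hR.1
  have hfin := CLSM.fin hX hp hGX
  have hfq := CLSM.finq hX hp hGX
  have hrel : ∀ R : Good p d n, Rel R.1 (Quot.out (Quot.mk (CLSM.rr (Good p d n)) R)).1 := by
    intro R
    exact CLSM.rel_of_eq hE hp hGX (Quot.out_eq _).symm
  choose y hy1 hy2 using hrel
  have hu : ∀ R : Good p d n, IsUnit (mat p (y R)) := fun R =>
    (hE p d n hp).2.2.2.2 R.1 R.2.1 _
      (Quot.out (Quot.mk (CLSM.rr (Good p d n)) R)).2.1 (y R) (hy1 R) (hy2 R)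
  let F : Good p d n → Quot (CLSM.rr (Good p d n)) × GLp p d := fun R =>
    (Quot.mk _ R, (hu R).unit)
  have hF : Function.Injective F := by
    intro R R' h
    have h1 : Quot.mk (CLSM.rr (Good p d n)) R = Quot.mk (CLSM.rr (Good p d n)) R' :=
      congrArg Prod.fst h
    have h2 : mat p (y R) = mat p (y R') := by
      have := congrArg (fun u : Quot (CLSM.rr (Good p d n)) × GLp p d =>
        (u.2 : Matrix (Fin d) (Fin d) (ZMod p))) h
      exact this
    have key : ∀ w ∈ Phi p (⊤ : Subgroup (FG d)), (w ∈ R.1 ↔ w ∈ R'.1) := by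
      intro w hw
      rw [hy1 R, hy1 R', Subgroup.mem_comap, Subgroup.mem_comap, ← h1]
      have h3 : (hm (y R') w)⁻¹ * hm (y R) w ∈
          (Quot.out (Quot.mk (CLSM.rr (Good p d n)) R)).1 :=
        (Subtype.property (Quot.out (Quot.mk (CLSM.rr (Good p d n)) R))).2
          (LOWM.same_mat hA hp h2 hw)
      constructor
      · intro h4
        have := mul_mem h4 (inv_mem h3)
        have h5 : hm (y R) w * ((hm (y R') w)⁻¹ * hm (y R) w)⁻¹ = hm (y R') w := by group
        rwa [h5] at this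
      · intro h4
        have := mul_mem h4 h3
        rwa [mul_inv_cancel_left] at this
    apply Subtype.ext
    ext w
    constructor
    · intro hw
      exact (key w (R.2.1.2.1 hw)).1 hw
    · intro hw
      exact (key w (R'.2.1.2.1 hw)).2 hw
  rw [CLSM.ncl_eq, ← Nat.card_prod, ← Nat.card_coe_set_eq]
  exact Nat.card_le_card_of_injective F hF

end Pool.Agent.Lib.MP4ccb00
end

section
/-!
# MP_4ccb00_al, part N: DCB, the decomposition for the groups which are not `PhiCentral`
-/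
set_option autoImplicit false

namespace Pool.Agent.Lib.MP4ccb00

open Subgroup
open scoped commutatorElement

namespace DCBM

theorem phiCentral_iso (p : ℕ) (G G' : Type) (g : Group G) (g' : Group G') (h : DECM.NI g g')
    (hG : @PhiCentral p G g) : @PhiCentral p G' g' := by
  obtain ⟨e⟩ := h
  intro x y z
  obtain ⟨x, rfl⟩ := e.surjective x
  obtain ⟨y, rfl⟩ := e.surjective y
  obtain ⟨z, rfl⟩ := e.surjective z
  obtain ⟨h1, h2, h3, h4⟩ := hG x y z
  have e1 : e (x ^ p) = (e x) ^ p := map_pow e x p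
  have e2 : e ⁅x, y⁆ = ⁅e x, e y⁆ := map_commutatorElement e x y
  refine ⟨?_, ?_, ?_, ?_⟩
  · rw [← e1, ← map_mul, h1, map_mul]
  · rw [← e1, ← map_pow, h2, map_one]
  · rw [← e2, ← map_mul, h3, map_mul]
  · rw [← e2, ← map_pow, h4, map_one]

/-- `Psi ≤ R` implies that the quotient is `PhiCentral` -/
theorem phiCentral_of_psi (p d : ℕ) (R : Subgroup (FG d)) [R.Normal] (h : Psi p (FG d) ≤ R) :
    PhiCentral p (FG d ⧸ R) := by
  have hc : ∀ v ∈ Phi p (⊤ : Subgroup (FG d)), ∀ w : FG d,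
      (QuotientGroup.mk v : FG d ⧸ R) * QuotientGroup.mk w =
        QuotientGroup.mk w * QuotientGroup.mk v := by
    intro v hv w
    have h1 : ⁅v, w⁆ ∈ R := h (mem_sup_left (commutator_mem_commutator hv (mem_top w)))
    rw [← QuotientGroup.mk_mul, ← QuotientGroup.mk_mul, QuotientGroup.eq]
    have h2 : (v * w)⁻¹ * (w * v) = (w⁻¹ * v⁻¹) * ⁅v, w⁆⁻¹ * (w⁻¹ * v⁻¹)⁻¹ := by
      rw [commutatorElement_def]
      group
    rw [h2]
    exact Subgroup.Normal.conj_mem inferInstance _ (inv_mem h1) _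
  have hp' : ∀ v ∈ Phi p (⊤ : Subgroup (FG d)), (QuotientGroup.mk v : FG d ⧸ R) ^ p = 1 := by
    intro v hv
    show (QuotientGroup.mk (v ^ p) : FG d ⧸ R) = 1
    rw [QuotientGroup.eq_one_iff]
    exact h (mem_sup_right (subset_closure ⟨v, hv, rfl⟩))
  intro x y z
  obtain ⟨x, rfl⟩ := QuotientGroup.mk_surjective x
  obtain ⟨y, rfl⟩ := QuotientGroup.mk_surjective y
  obtain ⟨z, rfl⟩ := QuotientGroup.mk_surjective z
  have e1 : (QuotientGroup.mk x : FG d ⧸ R) ^ p = QuotientGroup.mk (x ^ p) := rfl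
  have e2 : ⁅(QuotientGroup.mk x : FG d ⧸ R), QuotientGroup.mk y⁆ = QuotientGroup.mk ⁅x, y⁆ :=
    (map_commutatorElement (QuotientGroup.mk' R) x y).symm
  refine ⟨?_, ?_, ?_, ?_⟩
  · rw [e1]
    exact hc _ (ABPM.mem_phi_pow x) z
  · rw [e1]
    exact hp' _ (ABPM.mem_phi_pow x)
  · rw [e2]
    exact hc _ (ABPM.mem_phi_comm x y) z
  · rw [e2]
    exact hp' _ (ABPM.mem_phi_comm x y)

/-- if the quotient is `PhiCentral` then `Psi ≤ R` -/
theorem psi_le (p d : ℕ) (R : Subgroup (FG d)) [R.Normal] (h : PhiCentral p (FG d ⧸ R)) :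
    Psi p (FG d) ≤ R := by
  -- the subgroup of the elements of `FG d` with central image of order dividing `p`
  let K : Subgroup (FG d) :=
    { carrier := {v | (∀ w : FG d, (QuotientGroup.mk v : FG d ⧸ R) * QuotientGroup.mk w =
          QuotientGroup.mk w * QuotientGroup.mk v) ∧ (QuotientGroup.mk v : FG d ⧸ R) ^ p = 1}
      mul_mem' := by
        rintro a b ⟨ha, ha'⟩ ⟨hb, hb'⟩
        refine ⟨fun w => ?_, ?_⟩
        · rw [QuotientGroup.mk_mul, mul_assoc, hb, ← mul_assoc, ha, mul_assoc]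
        · rw [QuotientGroup.mk_mul, (show Commute (QuotientGroup.mk a : FG d ⧸ R)
            (QuotientGroup.mk b) from ha b).mul_pow, ha', hb', one_mul]
      one_mem' := by
        refine ⟨fun w => ?_, ?_⟩
        · rw [QuotientGroup.mk_one, one_mul, mul_one]
        · rw [QuotientGroup.mk_one, one_pow]
      inv_mem' := by
        rintro a ⟨ha, ha'⟩
        refine ⟨fun w => ?_, ?_⟩
        · rw [QuotientGroup.mk_inv]
          exact ((show Commute (QuotientGroup.mk a : FG d ⧸ R) (QuotientGroup.mk w) from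
            ha w).inv_left)
        · rw [QuotientGroup.mk_inv, inv_pow, ha', inv_one] }
  have hK : Phi p (⊤ : Subgroup (FG d)) ≤ K := by
    show ⁅(⊤ : Subgroup (FG d)), ⊤⁆ ⊔ closure {x | ∃ y ∈ (⊤ : Subgroup (FG d)), x = y ^ p} ≤ K
    rw [sup_le_iff, commutator_le, closure_le]
    constructor
    · intro x _ y _
      have e2 : (QuotientGroup.mk ⁅x, y⁆ : FG d ⧸ R) =
          ⁅(QuotientGroup.mk x : FG d ⧸ R), QuotientGroup.mk y⁆ :=
        map_commutatorElement (QuotientGroup.mk' R) x y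
      refine ⟨fun w => ?_, ?_⟩
      · rw [e2]
        exact (h (QuotientGroup.mk x) (QuotientGroup.mk y) (QuotientGroup.mk w)).2.2.1
      · rw [e2]
        exact (h (QuotientGroup.mk x) (QuotientGroup.mk y) 1).2.2.2
    · rintro _ ⟨y, -, rfl⟩
      refine ⟨fun w => ?_, ?_⟩
      · exact (h (QuotientGroup.mk y) 1 (QuotientGroup.mk w)).1
      · exact (h (QuotientGroup.mk y) 1 1).2.1
  show ⁅Phi p (⊤ : Subgroup (FG d)), (⊤ : Subgroup (FG d))⁆ ⊔
    closure {x | ∃ h ∈ Phi p (⊤ : Subgroup (FG d)), x = h ^ p} ≤ R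
  rw [sup_le_iff, commutator_le, closure_le]
  constructor
  · intro v hv w _
    rw [← QuotientGroup.eq_one_iff]
    have e2 : (QuotientGroup.mk ⁅v, w⁆ : FG d ⧸ R) =
        ⁅(QuotientGroup.mk v : FG d ⧸ R), QuotientGroup.mk w⁆ :=
      map_commutatorElement (QuotientGroup.mk' R) v w
    rw [e2, commutatorElement_eq_one_iff_mul_comm]
    exact (hK hv).1 w
  · rintro _ ⟨v, hv, rfl⟩
    rw [SetLike.mem_coe, ← QuotientGroup.eq_one_iff]
    exact (hK hv).2

end DCBM

open DCBM in
theorem specDCB (hABP : SpecABP) (hXFIN : SpecXFIN) : SpecDCB := by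
  intro p n hp
  have h := DECM.gen hABP hXFIN n hp (fun G g => ¬ @PhiCentral p G g)
    (fun G G' g g' hg hG hG' => hG (phiCentral_iso p G' G g' g hg.symm hG'))
  refine le_of_eq ?_
  refine h.trans ?_
  refine Finset.sum_congr rfl fun d _ => ?_
  congr 1
  ext R
  constructor
  · rintro ⟨h1, h2⟩
    refine ⟨h1, fun hg => ?_⟩
    have := h1.1
    exact h2 h1.1 (phiCentral_of_psi p d R hg.2)
  · rintro ⟨h1, h2⟩
    refine ⟨h1, fun hn hc => ?_⟩
    exact h2 ⟨h1, psi_le p d R hc⟩

end Pool.Agent.Lib.MP4ccb00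
end

section
set_option autoImplicit false

namespace Pool.Agent.Lib.MP4ccb00.N.ND1M

open Subgroup E
open scoped commutatorElement

/-- the generators of `gen x` inside it -/
def xs {F : Type} [Group F] {s : ℕ} (x : Fin s → F) : Fin s → ↥(gen x) :=
  fun i => ⟨x i, Subgroup.subset_closure ⟨i, rfl⟩⟩

theorem gen_xs {F : Type} [Group F] {s : ℕ} (x : Fin s → F) : gen (xs x) = ⊤ := by
  have h1 : (gen (xs x)).map (gen x).subtype = gen x := by
    unfold gen
    rw [MonoidHom.map_closure]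
    congr 1
    ext y
    constructor
    · rintro ⟨_, ⟨i, rfl⟩, rfl⟩
      exact ⟨i, rfl⟩
    · rintro ⟨i, rfl⟩
      exact ⟨_, ⟨i, rfl⟩, rfl⟩
  rw [eq_top_iff]
  rintro ⟨y, hy⟩ -
  have h2 : y ∈ (gen (xs x)).map (gen x).subtype := by rw [h1]; exact hy
  obtain ⟨w, hw, hwy⟩ := h2
  have h3 : w = ⟨y, hy⟩ := Subtype.ext hwy
  rwa [h3] at hw

theorem gen_append {F : Type} [Group F] {s t : ℕ} (x : Fin s → F) (z : Fin t → F) :
    gen (Fin.append x z) = gen x ⊔ gen z := by
  unfold gen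
  rw [← Subgroup.closure_union]
  congr 1
  ext y
  constructor
  · rintro ⟨i, rfl⟩
    refine Fin.addCases (fun i => ?_) (fun i => ?_) i
    · left; exact ⟨i, (Fin.append_left x z i).symm⟩
    · right; exact ⟨i, (Fin.append_right x z i).symm⟩
  · rintro (⟨i, rfl⟩ | ⟨i, rfl⟩)
    · exact ⟨Fin.castAdd t i, Fin.append_left x z i⟩
    · exact ⟨Fin.natAdd s i, Fin.append_right x z i⟩

theorem empty_case {α : Type} {S : Set α} (h : ¬ S.Nonempty) (N : ℕ) : S.Finite ∧ S.ncard ≤ N := by
  rw [Set.not_nonempty_iff_eq_empty] at h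
  rw [h]
  simp

theorem mem_ded (hDED : SpecDED) {p : ℕ} [hp : Fact p.Prime] {F : Type} [Group F]
    {n f π a a₁ : ℕ} {S R₁ R : Subgroup F} (hR₁ : R₁.Normal) (hR : R ∈ SP p n f π a a₁ S R₁) :
    (Cz S R).Normal ∧ R ≤ Cz S R ∧ Cz S R ≤ ⁅(⊤ : Subgroup F), (⊤ : Subgroup F)⁆ ⊔ R ∧
    ⁅(Cz S R).subgroupOf S, (⊤ : Subgroup ↥S)⁆ ≤ R.subgroupOf S ∧
    (R.subgroupOf S).relIndex ((Cz S R ⊓ R₁).subgroupOf S) = R.relIndex (Cz S R ⊓ R₁) ∧
    ((Cz S R).subgroupOf S).relIndex ((⁅(⊤ : Subgroup F), (⊤ : Subgroup F)⁆ ⊔ R).subgroupOf S) =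
      (Cz S R).relIndex (⁅(⊤ : Subgroup F), (⊤ : Subgroup F)⁆ ⊔ R) ∧
    (⁅(⊤ : Subgroup F), (⊤ : Subgroup F)⁆ ⊔ R).subgroupOf S =
      ⁅(⊤ : Subgroup ↥S), (⊤ : Subgroup ↥S)⁆ ⊔ R.subgroupOf S ∧
    ((⁅(⊤ : Subgroup F), (⊤ : Subgroup F)⁆ ⊔ R).subgroupOf S).relIndex
      ((PhiP p ⊤ : Subgroup F).subgroupOf S) ∣
      (⁅(⊤ : Subgroup F), (⊤ : Subgroup F)⁆ ⊔ R).relIndex (PhiP p ⊤) :=
  hDED p F S R R₁ hR.1.1 hR₁ ⟨n, hR.1.2.2⟩ hR.2.2.1 hR.1.2.1 hR.2.1

end Pool.Agent.Lib.MP4ccb00.N.ND1M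

namespace Pool.Agent.Lib.MP4ccb00.N

open Subgroup E ND1M
open scoped commutatorElement

theorem specND1 (hFIB : SpecFIB) (hPHS : SpecPHS) (hDED : SpecDED) (hNDT : SpecNDT)
    (hNAA : SpecNAA) (hYFI : SpecYFI) (hCRS : SpecCRS) (hFBR : SpecFBR) : SpecND1 := by
  intro p hp F _ s t n f π a a₁ x z R₁ hxz hPhi hR₁
  obtain ⟨hP1, hP2⟩ := hPHS p F s t x z hxz hPhi
  have hp0 : 0 < p := hp.out.pos
  -- index of `T_s`
  have hTs : ∀ (T : Subgroup F) (R : Subgroup F), R ∈ SP p n f π a a₁ (gen x) R₁ →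
      ⁅(⊤ : Subgroup F), (⊤ : Subgroup F)⁆ ⊔ R = T →
      T.subgroupOf (gen x) ≤ PhiP p (⊤ : Subgroup ↥(gen x)) ∧
      ∃ k, k ≤ f ∧ (T.subgroupOf (gen x)).relIndex (PhiP p (⊤ : Subgroup ↥(gen x))) = p ^ k := by
    intro T R hR hRT
    have hd := mem_ded hDED hR₁ hR
    rw [hRT] at hd
    obtain ⟨-, -, -, -, -, -, -, hd8⟩ := hd
    rw [hP1] at hd8
    refine ⟨?_, ?_⟩
    · rw [← hP1]
      have h1 : T ≤ PhiP p (⊤ : Subgroup F) := by
        rw [← hRT]
        exact sup_le le_sup_left hR.1.2.1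
      intro y hy
      exact h1 hy
    · have h2 : T.relIndex (PhiP p (⊤ : Subgroup F)) = p ^ f := by
        rw [← hRT]; exact hR.2.2.2.1
      rw [h2] at hd8
      obtain ⟨k, hk, hk'⟩ := (Nat.dvd_prime_pow hp.out).1 hd8
      exact ⟨k, hk, hk'⟩
  -- stage 4
  have st4 : ∀ (T : Subgroup F) (As Rs : Subgroup ↥(gen x)),
      {R | R ∈ {R | R ∈ {R | R ∈ SP p n f π a a₁ (gen x) R₁ ∧
        ⁅(⊤ : Subgroup F), (⊤ : Subgroup F)⁆ ⊔ R = T} ∧
        (Cz (gen x) R).subgroupOf (gen x) = As} ∧ R.subgroupOf (gen x) = Rs}.Finite ∧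
      {R | R ∈ {R | R ∈ {R | R ∈ SP p n f π a a₁ (gen x) R₁ ∧
        ⁅(⊤ : Subgroup F), (⊤ : Subgroup F)⁆ ⊔ R = T} ∧
        (Cz (gen x) R).subgroupOf (gen x) = As} ∧ R.subgroupOf (gen x) = Rs}.ncard ≤
        p ^ ((a₁ + π) * (s * t) + a₁ * (t * (t + 1) / 2)) := by
    intro T As Rs
    obtain ⟨h1, h2⟩ := hFBR p F s t n f π a a₁ x z R₁ T (Rs.map (gen x).subtype) hxz hR₁
    have hsub : {R | R ∈ {R | R ∈ {R | R ∈ SP p n f π a a₁ (gen x) R₁ ∧
        ⁅(⊤ : Subgroup F), (⊤ : Subgroup F)⁆ ⊔ R = T} ∧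
        (Cz (gen x) R).subgroupOf (gen x) = As} ∧ R.subgroupOf (gen x) = Rs} ⊆
        {R : Subgroup F | R ∈ SP p n f π a a₁ (gen x) R₁ ∧
          ⁅(⊤ : Subgroup F), (⊤ : Subgroup F)⁆ ⊔ R = T ∧
          R ⊓ gen x = Rs.map (gen x).subtype} := by
      rintro R ⟨⟨⟨h3, h4⟩, -⟩, h5⟩
      refine ⟨h3, h4, ?_⟩
      rw [← h5, Subgroup.subgroupOf_map_subtype]
    exact ⟨h1.subset hsub, (Set.ncard_le_ncard hsub h1).trans h2⟩
  -- stage 3
  have st3 : ∀ (T : Subgroup F) (As : Subgroup ↥(gen x)),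
      {R | R ∈ {R | R ∈ SP p n f π a a₁ (gen x) R₁ ∧
        ⁅(⊤ : Subgroup F), (⊤ : Subgroup F)⁆ ⊔ R = T} ∧
        (Cz (gen x) R).subgroupOf (gen x) = As}.Finite ∧
      {R | R ∈ {R | R ∈ SP p n f π a a₁ (gen x) R₁ ∧
        ⁅(⊤ : Subgroup F), (⊤ : Subgroup F)⁆ ⊔ R = T} ∧
        (Cz (gen x) R).subgroupOf (gen x) = As}.ncard ≤
        p ^ (a₁ * (s * (s + 1) / 2 + (s + 1) * (f + π))) *
          p ^ ((a₁ + π) * (s * t) + a₁ * (t * (t + 1) / 2)) := by
    intro T As
    by_cases hne : {R | R ∈ {R | R ∈ SP p n f π a a₁ (gen x) R₁ ∧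
        ⁅(⊤ : Subgroup F), (⊤ : Subgroup F)⁆ ⊔ R = T} ∧
        (Cz (gen x) R).subgroupOf (gen x) = As}.Nonempty
    swap
    · exact empty_case hne _
    obtain ⟨R0, ⟨hR0, hR0T⟩, hR0A⟩ := hne
    have hd := mem_ded hDED hR₁ hR0
    rw [hR0T, hR0A] at hd
    obtain ⟨hd1, hd2, hd3, hd4, hd5, hd6, -, -⟩ := hd
    obtain ⟨hTP, k, hk, hk'⟩ := hTs T R0 hR0 hR0T
    have hAn : As.Normal := by rw [← hR0A]; exact hd1.subgroupOf _
    have hAT : As ≤ T.subgroupOf (gen x) := by
      rw [← hR0A]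
      intro y hy
      exact hd3 hy
    have hRA : R0.subgroupOf (gen x) ≤ As := by
      rw [← hR0A]
      intro y hy
      exact hd2 hy
    have hRs : ∀ B : Subgroup ↥(gen x), R0.subgroupOf (gen x) ≤ B → ∃ m, B.index = p ^ m := by
      intro B hB
      have h1 : B.index ∣ (R0.subgroupOf (gen x)).index := Subgroup.index_dvd_of_le hB
      have hRn : R0.Normal := hR0.1.1
      have h2 : (R0.subgroupOf (gen x)).index ∣ R0.index :=
        Subgroup.relIndex_dvd_index_of_normal R0 (gen x)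
      rw [hR0.1.2.2] at h2
      obtain ⟨m, -, hm⟩ := (Nat.dvd_prime_pow hp.out).1 (h1.trans h2)
      exact ⟨m, hm⟩
    have hle1 : R0.subgroupOf (gen x) ≤ As ⊓ R₁.subgroupOf (gen x) :=
      le_inf hRA (fun y hy => hR0.2.2.1 hy)
    have hj : As.relIndex (PhiP p (⊤ : Subgroup ↥(gen x))) = p ^ (π + k) := by
      rw [← Subgroup.relIndex_mul_relIndex As (T.subgroupOf (gen x)) _ hAT hTP, hk', hd6,
        ← hR0T, hR0.2.2.2.2.1, pow_add]
    have hdle : DLE (YY p ⊤ As ⊥) (s * (s + 1) / 2 + (s + 1) * (f + π)) := by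
      refine Base.dle_mono (hYFI p ↥(gen x) s (π + k) (xs x) As (gen_xs x) hAn
        (hAT.trans hTP) hj (hRs As hRA)) ?_
      have h1 : π + k ≤ f + π := by omega
      exact Nat.add_le_add_left (Nat.mul_le_mul_left _ h1) _
    obtain ⟨hc1, hc2⟩ := hCRS p ↥(gen x) (s * (s + 1) / 2 + (s + 1) * (f + π)) a₁ As
      (As ⊓ R₁.subgroupOf (gen x)) hAn (hd4.trans hle1) inf_le_left (hRs _ hle1) hdle
    refine hFIB (Subgroup F) (Subgroup ↥(gen x)) (fun R => R.subgroupOf (gen x)) _ _ _ _ hc1 hc2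
      ?_ (fun b _ => st4 T As b)
    rintro R ⟨⟨hR, hRT⟩, hRA'⟩
    have hd' := mem_ded hDED hR₁ hR
    rw [hRT, hRA'] at hd'
    obtain ⟨he1, he2, he3, he4, he5, he6, -, -⟩ := hd'
    refine ⟨he4, le_inf ?_ (fun y hy => hR.2.2.1 hy), ?_⟩
    · rw [← hRA']
      intro y hy
      exact he2 hy
    · have h1 : As ⊓ R₁.subgroupOf (gen x) = (Cz (gen x) R ⊓ R₁).subgroupOf (gen x) := by
        rw [← hRA']
        rfl
      rw [h1, he5]
      exact hR.2.2.2.2.2.2
  -- stage 2
  have st2 : ∀ T : Subgroup F, 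
      {R | R ∈ SP p n f π a a₁ (gen x) R₁ ∧ ⁅(⊤ : Subgroup F), (⊤ : Subgroup F)⁆ ⊔ R = T}.Finite ∧
      {R | R ∈ SP p n f π a a₁ (gen x) R₁ ∧
        ⁅(⊤ : Subgroup F), (⊤ : Subgroup F)⁆ ⊔ R = T}.ncard ≤
        p ^ (π * ((s + 1) * (s + f + π) + s)) *
        (p ^ (a₁ * (s * (s + 1) / 2 + (s + 1) * (f + π))) *
          p ^ ((a₁ + π) * (s * t) + a₁ * (t * (t + 1) / 2))) := by
    intro T
    by_cases hne : {R | R ∈ SP p n f π a a₁ (gen x) R₁ ∧
        ⁅(⊤ : Subgroup F), (⊤ : Subgroup F)⁆ ⊔ R = T}.Nonempty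
    swap
    · exact empty_case hne _
    obtain ⟨R0, hR0, hR0T⟩ := hne
    obtain ⟨hTP, k, hk, hk'⟩ := hTs T R0 hR0 hR0T
    have hTn : (T.subgroupOf (gen x)).Normal := by
      have hRn : R0.Normal := hR0.1.1
      have h1 : T.Normal := by rw [← hR0T]; exact Subgroup.sup_normal _ _
      exact h1.subgroupOf _
    have hTi : (T.subgroupOf (gen x)).index = p ^ (k + s) := by
      rw [← Subgroup.relIndex_mul_index hTP, hk', hP2, pow_add]
    obtain ⟨hn1, hn2⟩ := hNAA p ↥(gen x) s (k + s) π (xs x) (T.subgroupOf (gen x)) (gen_xs x)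
      hTn hTi
    have hn3 : p ^ (π * ((s + 1) * ((k + s) + π) + s)) ≤ p ^ (π * ((s + 1) * (s + f + π) + s)) := by
      refine Nat.pow_le_pow_right hp0 (Nat.mul_le_mul_left _ (Nat.add_le_add_right
        (Nat.mul_le_mul_left _ ?_) _))
      omega
    refine hFIB (Subgroup F) (Subgroup ↥(gen x)) (fun R => (Cz (gen x) R).subgroupOf (gen x)) _ _
      _ _ hn1 (hn2.trans hn3) ?_ (fun b _ => st3 T b)
    rintro R ⟨hR, hRT⟩
    have hd := mem_ded hDED hR₁ hR
    rw [hRT] at hd
    obtain ⟨hd1, hd2, hd3, hd4, hd5, hd6, -, -⟩ := hd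
    refine ⟨hd1.subgroupOf _, fun y hy => hd3 hy, ?_⟩
    show ((Cz (gen x) R).subgroupOf (gen x)).relIndex (T.subgroupOf (gen x)) = p ^ π
    rw [hd6, ← hRT]
    exact hR.2.2.2.2.1
  -- stage 1
  have hgen : gen (Fin.append x z) = ⊤ := by rw [gen_append, hxz]
  obtain ⟨h1, h2⟩ := hNDT p F (s + t) f (Fin.append x z) hgen hPhi
  have h3 := hFIB (Subgroup F) (Subgroup F)
    (fun R => ⁅(⊤ : Subgroup F), (⊤ : Subgroup F)⁆ ⊔ R) (SP p n f π a a₁ (gen x) R₁) _ _ _ h1 h2
    (by
      intro R hR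
      have hRn : R.Normal := hR.1.1
      refine ⟨Subgroup.sup_normal _ _, le_sup_left, sup_le le_sup_left hR.1.2.1, hR.2.2.2.1⟩)
    (fun b _ => st2 b)
  refine ⟨h3.1, h3.2.trans (le_of_eq ?_)⟩
  rw [← pow_add, ← pow_add, ← pow_add]
  congr 1
  unfold eX
  ring
  
end Pool.Agent.Lib.MP4ccb00.N
end

section
/-!
# MP_4ccb00_al, part (d), module ND2
-/
set_option autoImplicit false

namespace Pool.Agent.Lib.MP4ccb00.N

open Subgroup E ND1M
open scoped commutatorElement

namespace ND2M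

/-- the section of `S` embeds in the section of `F` -/
theorem section_le {p : ℕ} [hp : Fact p.Prime] {F : Type} [Group F] {S R : Subgroup F}
    {As : Subgroup ↥S} {m b : ℕ} (hR : R.index = p ^ m) (hA : ∀ y ∈ As, (y : F) ∈ Phi p (⊤ : Subgroup F))
    (hb : R.relIndex (R ⊔ Psi p F) ≤ p ^ b) :
    (R.subgroupOf S).relIndex (R.subgroupOf S ⊔ closure {w | ∃ u ∈ As, w = u ^ p}) ≤ p ^ b := by
  have hp0 : 0 < p := hp.out.pos
  have h0 : R.relIndex (R ⊔ Psi p F) ≠ 0 := by
    intro h
    have h1 := Subgroup.relIndex_mul_index (le_sup_left : R ≤ R ⊔ Psi p F)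
    rw [h, zero_mul, hR] at h1
    exact absurd h1.symm (pow_pos hp0 m).ne'
  have h1 : R.subgroupOf S ⊔ closure {w | ∃ u ∈ As, w = u ^ p} ≤
      ((R ⊔ Psi p F) ⊓ S).subgroupOf S := by
    rw [Subgroup.inf_subgroupOf_right]
    apply sup_le
    · intro y hy
      exact Subgroup.mem_sup_left hy
    · rw [Subgroup.closure_le]
      rintro _ ⟨u, hu, rfl⟩
      change ((u ^ p : ↥S) : F) ∈ R ⊔ Psi p F
      apply Subgroup.mem_sup_right
      apply Subgroup.mem_sup_right
      exact Subgroup.subset_closure ⟨u, hA u hu, by simp⟩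
  have h2 : (R.subgroupOf S).relIndex (((R ⊔ Psi p F) ⊓ S).subgroupOf S) =
      R.relIndex ((R ⊔ Psi p F) ⊓ S) := Subgroup.relIndex_subgroupOf inf_le_right
  have h3 : R.relIndex ((R ⊔ Psi p F) ⊓ S) ≤ R.relIndex (R ⊔ Psi p F) :=
    Subgroup.relIndex_le_of_le_right inf_le_left h0
  have h4 : R.relIndex ((R ⊔ Psi p F) ⊓ S) ≠ 0 := by
    intro h
    exact h0 (Subgroup.relIndex_eq_zero_of_le_right inf_le_left h)
  rw [← h2] at h4
  exact (Subgroup.relIndex_le_of_le_right h1 h4).trans ((le_of_eq h2).trans (h3.trans hb))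

end ND2M

open ND2M in
theorem specND2 (hFIB : SpecFIB) (hPHS : SpecPHS) (hDED : SpecDED) (hNDT : SpecNDT)
    (hNAA : SpecNAA) (hYFI : SpecYFI) (hCRG : SpecCRG) (hFBR : SpecFBR) : SpecND2 := by
  intro p hp F _ s t n f π a b x z hxz hPhi
  obtain ⟨hP1, hP2⟩ := hPHS p F s t x z hxz hPhi
  have hp0 : 0 < p := hp.out.pos
  have hR₁ : (⊤ : Subgroup F).Normal := inferInstance
  set SS : Set (Subgroup F) := {R | R ∈ SP p n f π a a (gen x) ⊤ ∧
    R.relIndex (R ⊔ Psi p F) ≤ p ^ b} with hSS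
  set y := s * (s + 1) / 2 + (s + 1) * (f + π) with hy
  set M3 := (4 * (b + 1) * p ^ (a * y)) / p ^ ((a - b) ^ 2) with hM3
  -- index of `T_s`
  have hTs : ∀ (T : Subgroup F) (R : Subgroup F), R ∈ SP p n f π a a (gen x) ⊤ →
      ⁅(⊤ : Subgroup F), (⊤ : Subgroup F)⁆ ⊔ R = T →
      T.subgroupOf (gen x) ≤ PhiP p (⊤ : Subgroup ↥(gen x)) ∧
      ∃ k, k ≤ f ∧ (T.subgroupOf (gen x)).relIndex (PhiP p (⊤ : Subgroup ↥(gen x))) = p ^ k := by
    intro T R hR hRT
    have hd := mem_ded hDED hR₁ hR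
    rw [hRT] at hd
    obtain ⟨-, -, -, -, -, -, -, hd8⟩ := hd
    rw [hP1] at hd8
    refine ⟨?_, ?_⟩
    · rw [← hP1]
      have h1 : T ≤ PhiP p (⊤ : Subgroup F) := by
        rw [← hRT]
        exact sup_le le_sup_left hR.1.2.1
      intro y hy
      exact h1 hy
    · have h2 : T.relIndex (PhiP p (⊤ : Subgroup F)) = p ^ f := by
        rw [← hRT]; exact hR.2.2.2.1
      rw [h2] at hd8
      obtain ⟨k, hk, hk'⟩ := (Nat.dvd_prime_pow hp.out).1 hd8
      exact ⟨k, hk, hk'⟩
  -- stage 4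
  have st4 : ∀ (T : Subgroup F) (As Rs : Subgroup ↥(gen x)),
      {R | R ∈ {R | R ∈ {R | R ∈ SS ∧
        ⁅(⊤ : Subgroup F), (⊤ : Subgroup F)⁆ ⊔ R = T} ∧
        (Cz (gen x) R).subgroupOf (gen x) = As} ∧ R.subgroupOf (gen x) = Rs}.Finite ∧
      {R | R ∈ {R | R ∈ {R | R ∈ SS ∧
        ⁅(⊤ : Subgroup F), (⊤ : Subgroup F)⁆ ⊔ R = T} ∧
        (Cz (gen x) R).subgroupOf (gen x) = As} ∧ R.subgroupOf (gen x) = Rs}.ncard ≤
        p ^ ((a + π) * (s * t) + a * (t * (t + 1) / 2)) := by
    intro T As Rs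
    obtain ⟨h1, h2⟩ := hFBR p F s t n f π a a x z ⊤ T (Rs.map (gen x).subtype) hxz hR₁
    have hsub : {R | R ∈ {R | R ∈ {R | R ∈ SS ∧
        ⁅(⊤ : Subgroup F), (⊤ : Subgroup F)⁆ ⊔ R = T} ∧
        (Cz (gen x) R).subgroupOf (gen x) = As} ∧ R.subgroupOf (gen x) = Rs} ⊆
        {R : Subgroup F | R ∈ SP p n f π a a (gen x) ⊤ ∧
          ⁅(⊤ : Subgroup F), (⊤ : Subgroup F)⁆ ⊔ R = T ∧
          R ⊓ gen x = Rs.map (gen x).subtype} := by
      rintro R ⟨⟨⟨h3, h4⟩, -⟩, h5⟩
      refine ⟨h3.1, h4, ?_⟩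
      rw [← h5, Subgroup.subgroupOf_map_subtype]
    exact ⟨h1.subset hsub, (Set.ncard_le_ncard hsub h1).trans h2⟩
  -- stage 3
  have st3 : ∀ (T : Subgroup F) (As : Subgroup ↥(gen x)),
      {R | R ∈ {R | R ∈ SS ∧
        ⁅(⊤ : Subgroup F), (⊤ : Subgroup F)⁆ ⊔ R = T} ∧
        (Cz (gen x) R).subgroupOf (gen x) = As}.Finite ∧
      {R | R ∈ {R | R ∈ SS ∧
        ⁅(⊤ : Subgroup F), (⊤ : Subgroup F)⁆ ⊔ R = T} ∧
        (Cz (gen x) R).subgroupOf (gen x) = As}.ncard ≤
        M3 * p ^ ((a + π) * (s * t) + a * (t * (t + 1) / 2)) := by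
    intro T As
    by_cases hne : {R | R ∈ {R | R ∈ SS ∧
        ⁅(⊤ : Subgroup F), (⊤ : Subgroup F)⁆ ⊔ R = T} ∧
        (Cz (gen x) R).subgroupOf (gen x) = As}.Nonempty
    swap
    · exact empty_case hne _
    obtain ⟨R0, ⟨⟨hR0, hR0b⟩, hR0T⟩, hR0A⟩ := hne
    have hd := mem_ded hDED hR₁ hR0
    rw [hR0T, hR0A] at hd
    obtain ⟨hd1, hd2, hd3, hd4, hd5, hd6, -, -⟩ := hd
    obtain ⟨hTP, k, hk, hk'⟩ := hTs T R0 hR0 hR0T
    have hAn : As.Normal := by rw [← hR0A]; exact hd1.subgroupOf _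
    have hAT : As ≤ T.subgroupOf (gen x) := by
      rw [← hR0A]
      intro y hy
      exact hd3 hy
    have hRA : R0.subgroupOf (gen x) ≤ As := by
      rw [← hR0A]
      intro y hy
      exact hd2 hy
    have hRs : ∀ B : Subgroup ↥(gen x), R0.subgroupOf (gen x) ≤ B → ∃ m, B.index = p ^ m := by
      intro B hB
      have h1 : B.index ∣ (R0.subgroupOf (gen x)).index := Subgroup.index_dvd_of_le hB
      have hRn : R0.Normal := hR0.1.1
      have h2 : (R0.subgroupOf (gen x)).index ∣ R0.index :=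
        Subgroup.relIndex_dvd_index_of_normal R0 (gen x)
      rw [hR0.1.2.2] at h2
      obtain ⟨m, -, hm⟩ := (Nat.dvd_prime_pow hp.out).1 (h1.trans h2)
      exact ⟨m, hm⟩
    have hj : As.relIndex (PhiP p (⊤ : Subgroup ↥(gen x))) = p ^ (π + k) := by
      rw [← Subgroup.relIndex_mul_relIndex As (T.subgroupOf (gen x)) _ hAT hTP, hk', hd6,
        ← hR0T, hR0.2.2.2.2.1, pow_add]
    have hdle : DLE (YY p ⊤ As ⊥) y := by
      refine Base.dle_mono (hYFI p ↥(gen x) s (π + k) (xs x) As (gen_xs x) hAn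
        (hAT.trans hTP) hj (hRs As hRA)) ?_
      have h1 : π + k ≤ f + π := by omega
      exact Nat.add_le_add_left (Nat.mul_le_mul_left _ h1) _
    obtain ⟨hc1, hc2⟩ := hCRG p ↥(gen x) y a b As hAn (hRs As hRA) hdle
    have hc3 := (Nat.le_div_iff_mul_le (pow_pos hp0 _)).2 hc2
    refine hFIB (Subgroup F) (Subgroup ↥(gen x)) (fun R => R.subgroupOf (gen x)) _ _ _ _ hc1 hc3
      ?_ (fun b _ => st4 T As b)
    rintro R ⟨⟨⟨hR, hRb⟩, hRT⟩, hRA'⟩
    have hd' := mem_ded hDED hR₁ hR
    rw [hRT, hRA'] at hd'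
    obtain ⟨he1, he2, he3, he4, he5, he6, -, -⟩ := hd'
    refine ⟨he4, ?_, ?_, ?_⟩
    · rw [← hRA']
      intro y hy
      exact he2 hy
    · have h1 : As = (Cz (gen x) R ⊓ ⊤).subgroupOf (gen x) := by
        rw [← hRA', inf_top_eq]
      rw [h1, he5]
      exact hR.2.2.2.2.2.2
    · refine section_le hR.1.2.2 ?_ hRb
      intro u hu
      have h1 : u ∈ T.subgroupOf (gen x) := hAT hu
      have h2 : (u : F) ∈ T := h1
      rw [← hRT] at h2
      exact (sup_le le_sup_left hR.1.2.1 :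
        ⁅(⊤ : Subgroup F), (⊤ : Subgroup F)⁆ ⊔ R ≤ PhiP p ⊤) h2
  -- stage 2
  have st2 : ∀ T : Subgroup F,
      {R | R ∈ SS ∧ ⁅(⊤ : Subgroup F), (⊤ : Subgroup F)⁆ ⊔ R = T}.Finite ∧
      {R | R ∈ SS ∧
        ⁅(⊤ : Subgroup F), (⊤ : Subgroup F)⁆ ⊔ R = T}.ncard ≤
        p ^ (π * ((s + 1) * (s + f + π) + s)) *
        (M3 * p ^ ((a + π) * (s * t) + a * (t * (t + 1) / 2))) := by
    intro T
    by_cases hne : {R | R ∈ SS ∧
        ⁅(⊤ : Subgroup F), (⊤ : Subgroup F)⁆ ⊔ R = T}.Nonempty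
    swap
    · exact empty_case hne _
    obtain ⟨R0, ⟨hR0, hR0b⟩, hR0T⟩ := hne
    obtain ⟨hTP, k, hk, hk'⟩ := hTs T R0 hR0 hR0T
    have hTn : (T.subgroupOf (gen x)).Normal := by
      have hRn : R0.Normal := hR0.1.1
      have h1 : T.Normal := by rw [← hR0T]; exact Subgroup.sup_normal _ _
      exact h1.subgroupOf _
    have hTi : (T.subgroupOf (gen x)).index = p ^ (k + s) := by
      rw [← Subgroup.relIndex_mul_index hTP, hk', hP2, pow_add]
    obtain ⟨hn1, hn2⟩ := hNAA p ↥(gen x) s (k + s) π (xs x) (T.subgroupOf (gen x)) (gen_xs x)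
      hTn hTi
    have hn3 : p ^ (π * ((s + 1) * ((k + s) + π) + s)) ≤ p ^ (π * ((s + 1) * (s + f + π) + s)) := by
      refine Nat.pow_le_pow_right hp0 (Nat.mul_le_mul_left _ (Nat.add_le_add_right
        (Nat.mul_le_mul_left _ ?_) _))
      omega
    refine hFIB (Subgroup F) (Subgroup ↥(gen x)) (fun R => (Cz (gen x) R).subgroupOf (gen x)) _ _
      _ _ hn1 (hn2.trans hn3) ?_ (fun b _ => st3 T b)
    rintro R ⟨⟨hR, hRb⟩, hRT⟩
    have hd := mem_ded hDED hR₁ hR
    rw [hRT] at hd
    obtain ⟨hd1, hd2, hd3, hd4, hd5, hd6, -, -⟩ := hd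
    refine ⟨hd1.subgroupOf _, fun y hy => hd3 hy, ?_⟩
    show ((Cz (gen x) R).subgroupOf (gen x)).relIndex (T.subgroupOf (gen x)) = p ^ π
    rw [hd6, ← hRT]
    exact hR.2.2.2.2.1
  -- stage 1
  have hgen : gen (Fin.append x z) = ⊤ := by rw [gen_append, hxz]
  obtain ⟨h1, h2⟩ := hNDT p F (s + t) f (Fin.append x z) hgen hPhi
  have h3 := hFIB (Subgroup F) (Subgroup F)
    (fun R => ⁅(⊤ : Subgroup F), (⊤ : Subgroup F)⁆ ⊔ R) SS _ _ _ h1 h2
    (by
      rintro R ⟨hR, -⟩
      have hRn : R.Normal := hR.1.1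
      refine ⟨Subgroup.sup_normal _ _, le_sup_left, sup_le le_sup_left hR.1.2.1, hR.2.2.2.1⟩)
    (fun b _ => st2 b)
  refine ⟨h3.1, ?_⟩
  have h4 : M3 * p ^ ((a - b) ^ 2) ≤ 4 * (b + 1) * p ^ (a * y) := Nat.div_mul_le_self _ _
  calc SS.ncard * p ^ ((a - b) ^ 2)
      ≤ (p ^ (f * (2 * (s + t) + f)) * (p ^ (π * ((s + 1) * (s + f + π) + s)) *
        (M3 * p ^ ((a + π) * (s * t) + a * (t * (t + 1) / 2))))) * p ^ ((a - b) ^ 2) :=
        Nat.mul_le_mul_right _ h3.2
    _ = (p ^ (f * (2 * (s + t) + f)) * (p ^ (π * ((s + 1) * (s + f + π) + s)) *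
        p ^ ((a + π) * (s * t) + a * (t * (t + 1) / 2)))) * (M3 * p ^ ((a - b) ^ 2)) := by ring
    _ ≤ (p ^ (f * (2 * (s + t) + f)) * (p ^ (π * ((s + 1) * (s + f + π) + s)) *
        p ^ ((a + π) * (s * t) + a * (t * (t + 1) / 2)))) * (4 * (b + 1) * p ^ (a * y)) :=
        Nat.mul_le_mul_left _ h4
    _ = 4 * (b + 1) * (p ^ (f * (2 * (s + t) + f)) * (p ^ (π * ((s + 1) * (s + f + π) + s)) *
        (p ^ (a * y) * p ^ ((a + π) * (s * t) + a * (t * (t + 1) / 2))))) := by ring
    _ = 4 * (b + 1) * p ^ eX s t f π a := by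
        rw [← pow_add, ← pow_add, ← pow_add]
        congr 2
        unfold eX
        rw [hy]
        ring

end Pool.Agent.Lib.MP4ccb00.N
end
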