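import Pool.Agent.Lib.MP_4ccb00_al.L.Spec
import Pool.Agent.Lib.MP_4ccb00_al.N.Spec
import Pool.Agent.Lib.MP_4ccb00_al.N.ND2

section
/-!
# MP_4ccb00_al, module END: the final deduction
-/
set_option autoImplicit false

namespace Pool.Agent.Lib.MP4ccb00

namespace ENDM

theorem mass_nonneg (p d n : ℕ) : 0 ≤ mass p d n := by
  unfold mass
  positivity

theorem mass_pos (hGBB : SpecGBB) (hGLB : SpecGLB) {p d n : ℕ} (hp : p.Prime)
    (h : n - d ≤ d * (d + 1) / 2) : 0 < mass p d n := by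
  have hpp : 0 < p := hp.pos
  have h1 := (hGBB p (d * (d + 1) / 2) (n - d) hp h).1
  have h2 : 0 < gb p (d * (d + 1) / 2) (n - d) := lt_of_lt_of_le (pow_pos hpp _) h1
  have h3 := (hGLB p d hp).2
  have h4 : 0 < 4 * Nat.card (GLp p d) := lt_of_lt_of_le (pow_pos hpp _) h3
  have h5 : 0 < Nat.card (GLp p d) := by omega
  unfold mass
  have h2' : (0 : ℝ) < (gb p (d * (d + 1) / 2) (n - d) : ℝ) := by exact_mod_cast h2
  have h5' : (0 : ℝ) < (Nat.card (GLp p d) : ℝ) := by exact_mod_cast h5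
  exact div_pos h2' h5'

theorem near_nonempty {n : ℕ} (hn : 300 ≤ n) : ∃ d ∈ near n, n - d ≤ d * (d + 1) / 2 := by
  refine ⟨201 * n / 300, ?_, ?_⟩
  · unfold near
    rw [Finset.mem_filter, Finset.mem_range]
    refine ⟨by omega, by omega, by omega⟩
  · have h1 : n - 201 * n / 300 ≤ 201 * n / 300 := by omega
    have h2 : 1 ≤ 201 * n / 300 := by omega
    refine le_trans h1 ?_
    rw [Nat.le_div_iff_mul_le (by norm_num)]
    generalize 201 * n / 300 = d at h2
    nlinarith

end ENDM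

open ENDM

theorem specEND (hMON : SpecMON) (hLBD : SpecLBD) (hGBB : SpecGBB) (hGLB : SpecGLB) : SpecEND := by
  rintro ⟨n1, hU⟩
  obtain ⟨n2, hM⟩ := hMON
  refine ⟨max (max n1 n2) 300, ?_⟩
  intro n hn p q hp hq hpq
  have hn1 : n1 ≤ n := le_trans (le_trans (le_max_left _ _) (le_max_left _ _)) hn
  have hn2 : n2 ≤ n := le_trans (le_trans (le_max_right _ _) (le_max_left _ _)) hn
  have hn3 : 300 ≤ n := le_trans (le_max_right _ _) hn
  have hpp : (0 : ℝ) < p := by exact_mod_cast hp.pos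
  have hp2 : (2 : ℝ) ≤ p := by exact_mod_cast hp.two_le
  -- the sum
  set S : ℝ := ∑ d ∈ near n, mass p d n with hS
  have hSpos : 0 < S := by
    obtain ⟨d, hd, hd2⟩ := near_nonempty hn3
    exact Finset.sum_pos' (fun i _ => mass_nonneg p i n) ⟨d, hd, mass_pos hGBB hGLB hp hd2⟩
  have hUp := hU n hn1 p hp
  -- lower bound
  have hk : 1 ≤ n ^ 3 / 20 := by
    rw [Nat.le_div_iff_mul_le (by norm_num)]
    calc 1 * 20 ≤ 300 ^ 3 := by norm_num
      _ ≤ n ^ 3 := Nat.pow_le_pow_left hn3 3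
  have hqp : 1 + 1 / (p : ℝ) ≤ (q : ℝ) / p := by
    have h1 : (p : ℝ) + 1 ≤ q := by exact_mod_cast hpq
    rw [le_div_iff₀ hpp]
    have : (1 + 1 / (p : ℝ)) * p = p + 1 := by field_simp
    linarith
  have hge1 : (1 : ℝ) ≤ (q : ℝ) / p := by
    have : (0 : ℝ) < 1 / (p : ℝ) := by positivity
    linarith
  have hpow : 1 + 1 / (p : ℝ) ≤ ((q : ℝ) / p) ^ (n ^ 3 / 20) :=
    le_trans hqp (le_self_pow₀ hge1 (by omega))
  have h1 : ((q : ℝ) / p) ^ (n ^ 3 / 20) * S ≤ ∑ d ∈ near n, mass q d n := by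
    rw [hS, Finset.mul_sum]
    exact Finset.sum_le_sum fun d hd => hM n hn2 p q hp hq hpq d hd
  have h2 : ∑ d ∈ near n, mass q d n ≤ ∑ d ∈ Finset.range (n + 1), mass q d n := by
    apply Finset.sum_le_sum_of_subset_of_nonneg
    · unfold near
      exact Finset.filter_subset _ _
    · intro i _ _
      exact mass_nonneg q i n
  have h3 := hLBD q n hq
  have h4 : (1 + 1 / (p : ℝ)) * S ≤ ((q : ℝ) / p) ^ (n ^ 3 / 20) * S :=
    mul_le_mul_of_nonneg_right hpow hSpos.le
  have h5 : (1 + 1 / (p : ℝ) ^ 2) * S < (1 + 1 / (p : ℝ)) * S := by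
    apply mul_lt_mul_of_pos_right _ hSpos
    have : 1 / (p : ℝ) ^ 2 < 1 / (p : ℝ) := by
      apply one_div_lt_one_div_of_lt hpp
      nlinarith
    linarith
  have h6 : (numGroups (p ^ n) : ℝ) < (numGroups (q ^ n) : ℝ) := by linarith
  exact_mod_cast h6

end Pool.Agent.Lib.MP4ccb00
end

section
/-!
# MP_4ccb00_al: module FIX (invariant subspaces of all `g ≠ 1`)
-/
set_option autoImplicit false

namespace Pool.Agent.Lib.MP4ccb00

open Subgroup Module E

namespace FIXM

/-! ## Numbers -/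

theorem pow_big : ∀ n : ℕ, 16 ≤ n → 16 * (n * n) ≤ 2 ^ n := by
  intro n hn
  induction n, hn using Nat.le_induction with
  | base => norm_num
  | succ n hn ih =>
    rw [pow_succ]
    nlinarith

theorem num_m {d n p : ℕ} (hp : 2 ≤ p) (hn : 1000 ≤ n) (hd : d + 1 ≤ n) :
    16 * (d * (d + 1) / 2) ≤ p ^ n := by
  have h1 : d * (d + 1) / 2 ≤ n * n := by
    calc d * (d + 1) / 2 ≤ d * (d + 1) := Nat.div_le_self _ _
      _ ≤ n * n := Nat.mul_le_mul (by omega) hd
  calc 16 * (d * (d + 1) / 2) ≤ 16 * (n * n) := Nat.mul_le_mul_left _ h1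
    _ ≤ 2 ^ n := pow_big n (by omega)
    _ ≤ p ^ n := Nat.pow_le_pow_left hp n

theorem numA {d e n K : ℕ} (hn : 1000 ≤ n) (h1 : 199 * n ≤ 300 * d) (h3 : 300 * e ≤ 101 * n)
    (h4 : 98 * n ≤ 300 * e) (hK : 20 * K ≤ n * n) :
    d * d + d * (d + 1) / 2 * (e - 3) + K + 2 ≤ e * (d * (d + 1) / 2 - e) ∧
      e ≤ d * (d + 1) / 2 := by
  obtain ⟨m, hm⟩ : ∃ m, d * (d + 1) = 2 * m := by
    obtain ⟨m, hm⟩ := Nat.even_mul_succ_self d
    exact ⟨m, by omega⟩
  have hdiv : d * (d + 1) / 2 = m := by omega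
  rw [hdiv]
  have h4 : 39601 * (n * n) ≤ 90000 * (d * d) := by nlinarith
  have h5 : 90000 * (e * e) ≤ 10201 * (n * n) := by nlinarith
  have h6 : d * d + d = 2 * m := by rw [← hm]; ring
  have h7 : n * 1000 ≤ n * n := Nat.mul_le_mul_left _ hn
  have hem : e ≤ m := by nlinarith
  refine ⟨?_, hem⟩
  obtain ⟨a, rfl⟩ : ∃ a, e = a + 3 := ⟨e - 3, by omega⟩
  obtain ⟨c, rfl⟩ : ∃ c, m = c + (a + 3) := ⟨m - (a + 3), by omega⟩
  simp only [Nat.add_sub_cancel]
  nlinarith

theorem numB {d e n K : ℕ} (hn : 1000 ≤ n) (h0 : 300 * d ≤ 201 * n) (h1 : 199 * n ≤ 300 * d)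
    (h4 : 98 * n ≤ 300 * e) (hK : 20 * K ≤ n * n) :
    d * d + n + K + 2 ≤ (e - 4) * (3 * (d - 6) - 4) := by
  obtain ⟨a, rfl⟩ : ∃ a, e = a + 4 := ⟨e - 4, by omega⟩
  obtain ⟨b, hb⟩ : ∃ b, 3 * d = b + 22 := ⟨3 * d - 22, by omega⟩
  have e1 : 3 * (d - 6) - 4 = b := by omega
  rw [e1, Nat.add_sub_cancel]
  have h2 : 90000 * (d * d) ≤ 40401 * (n * n) := by nlinarith
  obtain ⟨c, hc⟩ : ∃ c, 98 * n = c + 1200 := ⟨98 * n - 1200, by omega⟩
  obtain ⟨f, hf⟩ : ∃ f, 199 * n = f + 2200 := ⟨199 * n - 2200, by omega⟩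
  have h6 : c * f ≤ (300 * a) * (100 * b) := Nat.mul_le_mul (by omega) (by omega)
  have h7 : n * 1000 ≤ n * n := Nat.mul_le_mul_left _ hn
  have h8 : (98 * n) * (199 * n) = c * f + 2200 * c + 1200 * f + 1200 * 2200 := by
    rw [hc, hf]; ring
  nlinarith

theorem numC {d e n K : ℕ} (hn : 1000 ≤ n) (h0 : 300 * d ≤ 201 * n) (h1 : 199 * n ≤ 300 * d)
    (h4 : 98 * n ≤ 300 * e) (hK : 20 * K ≤ n * n) :
    8 * d + 1 + n + K + 2 ≤ (e - 4) * (d - 2 - 4) := by
  obtain ⟨a, rfl⟩ : ∃ a, e = a + 4 := ⟨e - 4, by omega⟩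
  obtain ⟨b, rfl⟩ : ∃ b, d = b + 6 := ⟨d - 6, by omega⟩
  have e1 : b + 6 - 2 - 4 = b := by omega
  rw [e1, Nat.add_sub_cancel]
  obtain ⟨c, hc⟩ : ∃ c, 98 * n = c + 1200 := ⟨98 * n - 1200, by omega⟩
  obtain ⟨f, hf⟩ : ∃ f, 199 * n = f + 1800 := ⟨199 * n - 1800, by omega⟩
  have h6 : c * f ≤ (300 * a) * (300 * b) := Nat.mul_le_mul (by omega) (by omega)
  have h7 : n * 1000 ≤ n * n := Nat.mul_le_mul_left _ hn
  have h8 : (98 * n) * (199 * n) = c * f + 1800 * c + 1200 * f + 1200 * 1800 := by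
    rw [hc, hf]; ring
  nlinarith

/-! ## Invariant subspaces of one `g` -/

section one
variable {p d : ℕ}

/-- the set of pairs, fibred over `g` -/
def Fib (p d e : ℕ) (g : GLp p d) : Type :=
  {W : Submodule (ZMod p) (FG d → ZMod p) // g ≠ 1 ∧ W ≤ Ms p d ∧ finrank (ZMod p) W = e ∧
    W.map (pull p (can p (g : Matrix (Fin d) (Fin d) (ZMod p)))) ≤ W}

/-- Invariant subspaces inside an invariant subspace `M`. -/
theorem one {V : Type} [AddCommGroup V] [Module (ZMod p) V] [Fact p.Prime]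
    (M : Submodule (ZMod p) V) [Module.Finite (ZMod p) M] (f : V →ₗ[ZMod p] V)
    (hf : ∀ x ∈ M, f x ∈ M) {e r m : ℕ} (hm : finrank (ZMod p) M = m) (hIVS : SpecIVS)
    (he : 6 ≤ e) (hem : e ≤ m) (hr : 4 ≤ r)
    (hrk : ∀ a : ZMod p, r ≤ finrank (ZMod p) (M.map (f - a • LinearMap.id))) :
    ∃ c1 c2 : ℕ, Finite {W : Submodule (ZMod p) V // W ≤ M ∧ finrank (ZMod p) W = e ∧ W.map f ≤ W} ∧
      Nat.card {W : Submodule (ZMod p) V // W ≤ M ∧ finrank (ZMod p) W = e ∧ W.map f ≤ W} ≤ c1 + c2 ∧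
      c1 ≤ p ^ (m * (e - 3)) ∧ c2 * p ^ ((e - 4) * (r - 4)) ≤ 16 * m * p ^ (e * (m - e)) := by
  have hp : p.Prime := Fact.out
  set T : M →ₗ[ZMod p] M := f.restrict hf with hT
  obtain ⟨c1, c2, h1, h2, h3⟩ := hIVS p m e r hp he hem hr M hm T (by
    intro a
    refine (hrk a).trans (le_of_eq ?_)
    have h1 : M.map (f - a • LinearMap.id) = (LinearMap.range (T - a • LinearMap.id)).map M.subtype := by
      rw [← LinearMap.range_comp]
      have h2 : M.subtype ∘ₗ (T - a • LinearMap.id) = (f - a • LinearMap.id) ∘ₗ M.subtype := by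
        ext x
        simp [hT]
      rw [h2, LinearMap.range_comp, Submodule.range_subtype]
    rw [h1]
    exact Submodule.finrank_map_subtype_eq _ _)
  have hfin : Finite M := Module.finite_of_finite (ZMod p)
  have hfin2 : Finite (Submodule (ZMod p) M) :=
    Finite.of_injective (fun W : Submodule (ZMod p) M => (W : Set M)) SetLike.coe_injective
  let F : {W : Submodule (ZMod p) V // W ≤ M ∧ finrank (ZMod p) W = e ∧ W.map f ≤ W} →
      {W : Submodule (ZMod p) M // finrank (ZMod p) W = e ∧ W.map T ≤ W} := fun W =>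
    ⟨W.1.comap M.subtype, by
      have h4 : (W.1.comap M.subtype).map M.subtype = W.1 := by
        rw [Submodule.map_comap_subtype, inf_eq_right.mpr W.2.1]
      rw [← Submodule.finrank_map_subtype_eq, h4]
      exact W.2.2.1, by
      rw [Submodule.map_le_iff_le_comap]
      intro x hx
      rw [Submodule.mem_comap] at hx ⊢
      rw [Submodule.mem_comap]
      have h5 : f (x : V) ∈ W.1 := W.2.2.2 (Submodule.mem_map_of_mem hx)
      exact h5⟩
  have hFinj : Function.Injective F := by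
    intro W W' h
    have h6 : W.1.comap M.subtype = W'.1.comap M.subtype := congrArg Subtype.val h
    have h4 : (W.1.comap M.subtype).map M.subtype = W.1 := by
      rw [Submodule.map_comap_subtype, inf_eq_right.mpr W.2.1]
    have h4' : (W'.1.comap M.subtype).map M.subtype = W'.1 := by
      rw [Submodule.map_comap_subtype, inf_eq_right.mpr W'.2.1]
    apply Subtype.ext
    rw [← h4, h6, h4']
  exact ⟨c1, c2, Finite.of_injective F hFinj, (Nat.card_le_card_of_injective F hFinj).trans h1, h2, h3⟩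

end one

theorem arith {p N c1 c2 a n K R A E : ℕ} (hp : 2 ≤ p) (hN : N ≤ c1 + c2) (h1 : c1 ≤ p ^ a) {m : ℕ}
    (h2 : c2 * p ^ R ≤ 16 * m * p ^ E) (hm : 16 * m ≤ p ^ n) (hA : A + a + K + 2 ≤ E)
    (hR : A + n + K + 2 ≤ R) : N * p ^ (K + 2) * p ^ A ≤ 2 * p ^ E := by
  have hp0 : 0 < p := by omega
  have e1 : c1 * (p ^ (K + 2) * p ^ A) ≤ p ^ E := by
    calc c1 * (p ^ (K + 2) * p ^ A) ≤ p ^ a * (p ^ (K + 2) * p ^ A) := Nat.mul_le_mul_right _ h1
      _ = p ^ (A + a + K + 2) := by rw [← pow_add, ← pow_add]; congr 1; omega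
      _ ≤ p ^ E := Nat.pow_le_pow_right hp0 hA
  have e2 : c2 * (p ^ (K + 2) * p ^ A) ≤ p ^ E := by
    have h3 : c2 * (p ^ (K + 2) * p ^ A) * p ^ n ≤ p ^ E * p ^ n := by
      calc c2 * (p ^ (K + 2) * p ^ A) * p ^ n = c2 * p ^ (A + n + K + 2) := by
            rw [mul_assoc, ← pow_add, ← pow_add]; congr 2; omega
        _ ≤ c2 * p ^ R := Nat.mul_le_mul_left _ (Nat.pow_le_pow_right hp0 hR)
        _ ≤ 16 * m * p ^ E := h2
        _ ≤ p ^ n * p ^ E := Nat.mul_le_mul_right _ hm
        _ = p ^ E * p ^ n := mul_comm _ _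
    exact Nat.le_of_mul_le_mul_right h3 (Nat.pow_pos hp0)
  calc N * p ^ (K + 2) * p ^ A = N * (p ^ (K + 2) * p ^ A) := mul_assoc _ _ _
    _ ≤ (c1 + c2) * (p ^ (K + 2) * p ^ A) := Nat.mul_le_mul_right _ hN
    _ = c1 * (p ^ (K + 2) * p ^ A) + c2 * (p ^ (K + 2) * p ^ A) := add_mul _ _ _
    _ ≤ 2 * p ^ E := by omega

/-- Sum over a set of `g`. -/
theorem sum_bd {ι : Type} (S : Finset ι) (f : ι → ℕ) {p K A E : ℕ} (hp : 0 < p)
    (hS : S.card ≤ p ^ A) (hf : ∀ i ∈ S, f i * p ^ (K + 2) * p ^ A ≤ 2 * p ^ E) :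
    (∑ i ∈ S, f i) * p ^ (K + 2) ≤ 2 * p ^ E := by
  have h1 : (∑ i ∈ S, f i) * p ^ (K + 2) * p ^ A ≤ 2 * p ^ E * p ^ A := by
    calc (∑ i ∈ S, f i) * p ^ (K + 2) * p ^ A = ∑ i ∈ S, f i * p ^ (K + 2) * p ^ A := by
          rw [Finset.sum_mul, Finset.sum_mul]
      _ ≤ ∑ i ∈ S, 2 * p ^ E := Finset.sum_le_sum hf
      _ = S.card * (2 * p ^ E) := by rw [Finset.sum_const, smul_eq_mul]
      _ ≤ p ^ A * (2 * p ^ E) := Nat.mul_le_mul_right _ hS
      _ = 2 * p ^ E * p ^ A := mul_comm _ _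
  exact Nat.le_of_mul_le_mul_right h1 (Nat.pow_pos hp)

end FIXM

open FIXM

/-- The invariant subspaces of all `g ≠ 1` together. -/
theorem specFIX (hIVS : SpecIVS) (hRKM : SpecRKM) (hSML : SpecSML) (hGLB : SpecGLB)
    (hDMS : SpecDMS) (hPUL : SpecPUL) : SpecFIX := by
  classical
  refine ⟨1000, fun n hn p hp d e h0 h1 h3 h4 => ?_⟩
  have := Fact.mk hp
  obtain ⟨hfinMs, hdimMs⟩ := hDMS p d hp
  have hK : 20 * (n ^ 2 / 20) ≤ n * n := by
    have := Nat.mul_div_le (n ^ 2) 20
    rw [pow_two] at this ⊢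
    exact this
  set K := n ^ 2 / 20 with hKdef
  obtain ⟨hA, hem⟩ := numA hn h1 h3 h4 hK
  have hB := numB hn h0 h1 h4 hK
  have hC := numC hn h0 h1 h4 hK
  have h16 : 16 * (d * (d + 1) / 2) ≤ p ^ n := num_m hp.two_le hn (by omega)
  set m := d * (d + 1) / 2 with hm
  set E := e * (m - e) with hE
  have key : ∀ g : GLp p d, g ≠ 1 → ∀ r, 4 ≤ r → (∀ b : ZMod p, r ≤ finrank (ZMod p) ((Ms p d).map
      (pull p (can p (g : Matrix (Fin d) (Fin d) (ZMod p))) - b • LinearMap.id))) →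
      ∃ c1 c2 : ℕ, Finite (Fib p d e g) ∧ Nat.card (Fib p d e g) ≤ c1 + c2 ∧
        c1 ≤ p ^ (m * (e - 3)) ∧ c2 * p ^ ((e - 4) * (r - 4)) ≤ 16 * m * p ^ E := by
    intro g hg r hr hrk
    obtain ⟨c1, c2, f1, f2, f3, f4⟩ := one (Ms p d)
      (pull p (can p (g : Matrix (Fin d) (Fin d) (ZMod p))))
      (fun x hx => (hPUL p d hp).1 _ x hx) hdimMs hIVS (e := e) (r := r) (by omega) hem hr hrk
    let F : Fib p d e g → {W : Submodule (ZMod p) (FG d → ZMod p) // W ≤ Ms p d ∧
        finrank (ZMod p) W = e ∧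
        W.map (pull p (can p (g : Matrix (Fin d) (Fin d) (ZMod p)))) ≤ W} := fun W => ⟨W.1, W.2.2⟩
    have hF : Function.Injective F := by
      intro W W' h
      have h' : (F W).1 = (F W').1 := congrArg Subtype.val h
      exact Subtype.ext h'
    exact ⟨c1, c2, Finite.of_injective F hF, (Nat.card_le_card_of_injective F hF).trans f2, f3, f4⟩
  have hfib : ∀ g : GLp p d, Finite (Fib p d e g) := by
    intro g
    by_cases hg : g = 1
    · have : IsEmpty (Fib p d e g) := ⟨fun W => W.2.1 hg⟩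
      infer_instance
    · obtain ⟨-, -, f, -⟩ := key g hg (d - 2) (by omega) (hRKM p d hp g hg).1
      exact f
  have hone : ∀ g : GLp p d, g = 1 → Nat.card (Fib p d e g) = 0 := by
    intro g hg
    have : IsEmpty (Fib p d e g) := ⟨fun W => W.2.1 hg⟩
    exact Nat.card_of_isEmpty
  let Q : GLp p d → Prop := fun g => ∃ a : ZMod p,
    ((g : Matrix (Fin d) (Fin d) (ZMod p)) - Matrix.scalar (Fin d) a).rank ≤ 4
  have hdd : 8 * d + 1 ≤ d * d := by nlinarith
  have b1 : ∀ g : GLp p d, ¬ Q g →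
      Nat.card (Fib p d e g) * p ^ (K + 2) * p ^ (d * d) ≤ 2 * p ^ E := by
    intro g hQ
    by_cases hg : g = 1
    · rw [hone g hg]; simp
    · obtain ⟨c1, c2, f1, f2, f3, f4⟩ := key g hg (3 * (d - 6)) (by omega)
        ((hRKM p d hp g hg).2 (by
          intro a
          by_contra hlt
          exact hQ ⟨a, by omega⟩) (by omega))
      exact arith hp.two_le f2 f3 f4 h16 (by omega) (by omega)
  have b2 : ∀ g : GLp p d, Q g →
      Nat.card (Fib p d e g) * p ^ (K + 2) * p ^ (8 * d + 1) ≤ 2 * p ^ E := by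
    intro g _
    by_cases hg : g = 1
    · rw [hone g hg]; simp
    · obtain ⟨c1, c2, f1, f2, f3, f4⟩ := key g hg (d - 2) (by omega) (hRKM p d hp g hg).1
      exact arith hp.two_le f2 f3 f4 h16 (by omega) (by omega)
  -- the total
  let G : {x : GLp p d × Submodule (ZMod p) (FG d → ZMod p) // x.1 ≠ 1 ∧ x.2 ≤ Ms p d ∧
      finrank (ZMod p) x.2 = e ∧
      x.2.map (pull p (can p (x.1 : Matrix (Fin d) (Fin d) (ZMod p)))) ≤ x.2} →
      (Σ g : GLp p d, Fib p d e g) := fun x => ⟨x.1.1, ⟨x.1.2, x.2⟩⟩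
  have hG : Function.Injective G := by
    rintro ⟨⟨g, W⟩, h⟩ ⟨⟨g', W'⟩, h'⟩ hGG
    have h1 : g = g' := congrArg Sigma.fst hGG
    subst h1
    have h2 : (⟨W, h⟩ : Fib p d e g) = ⟨W', h'⟩ := eq_of_heq (Sigma.mk.inj hGG).2
    have hW : W = W' := congrArg (fun z : Fib p d e g => z.1) h2
    subst hW
    rfl
  have hcard : Nat.card {x : GLp p d × Submodule (ZMod p) (FG d → ZMod p) // x.1 ≠ 1 ∧ x.2 ≤ Ms p d ∧
      finrank (ZMod p) x.2 = e ∧
      x.2.map (pull p (can p (x.1 : Matrix (Fin d) (Fin d) (ZMod p)))) ≤ x.2} ≤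
      ∑ g : GLp p d, Nat.card (Fib p d e g) := by
    refine (Nat.card_le_card_of_injective G hG).trans (le_of_eq ?_)
    rw [Nat.card_sigma]
  have hsplit := Finset.sum_filter_add_sum_filter_not (Finset.univ : Finset (GLp p d)) Q
    (fun g => Nat.card (Fib p d e g))
  have s1 := sum_bd (Finset.univ.filter fun g : GLp p d => ¬ Q g)
    (fun g => Nat.card (Fib p d e g)) (p := p) (K := K) (A := d * d) (E := E) hp.pos (by
      refine (Finset.card_le_univ _).trans ?_
      have := (hGLB p d hp).1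
      rwa [Nat.card_eq_fintype_card] at this)
    (fun g hg => b1 g (Finset.mem_filter.mp hg).2)
  have s2 := sum_bd (Finset.univ.filter fun g : GLp p d => Q g)
    (fun g => Nat.card (Fib p d e g)) (p := p) (K := K) (A := 8 * d + 1) (E := E) hp.pos (by
      have := hSML p d hp
      rwa [Nat.card_eq_fintype_card, Fintype.card_subtype] at this)
    (fun g hg => b2 g (Finset.mem_filter.mp hg).2)
  have hp4 : 4 ≤ p ^ 2 := by
    calc 4 = 2 ^ 2 := by norm_num
      _ ≤ p ^ 2 := Nat.pow_le_pow_left hp.two_le 2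
  have htot : (∑ g : GLp p d, Nat.card (Fib p d e g)) * p ^ K * p ^ 2 ≤ p ^ E * p ^ 2 := by
    calc (∑ g : GLp p d, Nat.card (Fib p d e g)) * p ^ K * p ^ 2
        = (∑ g : GLp p d, Nat.card (Fib p d e g)) * p ^ (K + 2) := by
          rw [mul_assoc, ← pow_add]
      _ = _ := by rw [← hsplit, add_mul]
      _ ≤ 2 * p ^ E + 2 * p ^ E := Nat.add_le_add s2 s1
      _ = p ^ E * 4 := by ring
      _ ≤ p ^ E * p ^ 2 := Nat.mul_le_mul_left _ hp4
  exact (Nat.mul_le_mul_right _ hcard).trans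
    (Nat.le_of_mul_le_mul_right htot (Nat.pow_pos hp.pos))

end Pool.Agent.Lib.MP4ccb00
end

section
/-!
# MP_4ccb00_al, modules GBB and GLB: bounds
-/
set_option autoImplicit false

namespace Pool.Agent.Lib.MP4ccb00

open Subgroup Module E

namespace GBBM

/-- `prod (q ^ j - 1) >= q ^ (1 + .. + e) / 4`, real version with the sharper induction -/
theorem prod_lower (x : ℝ) (hx : 2 ≤ x) (e : ℕ) :
    (1 / 4 + (1 / 2 : ℝ) ^ (e + 1)) * ∏ i ∈ Finset.range e, x ^ (i + 1) ≤
      ∏ i ∈ Finset.range e, (x ^ (i + 1) - 1) ∨ e = 0 := by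
  induction e with
  | zero => right; rfl
  | succ e ih =>
    left
    rw [Finset.prod_range_succ, Finset.prod_range_succ]
    have hx0 : (0 : ℝ) < x := by linarith
    have hP : 0 < ∏ i ∈ Finset.range e, x ^ (i + 1) := Finset.prod_pos fun i _ => pow_pos hx0 _
    have h2 : (2 : ℝ) ^ (e + 1) ≤ x ^ (e + 1) := pow_le_pow_left₀ (by norm_num) hx _
    have h1 : (1 : ℝ) ≤ x ^ (e + 1) := one_le_pow₀ (by linarith)
    rcases ih with ih | rfl
    · have h3 : (1 / 4 + (1 / 2 : ℝ) ^ (e + 1 + 1)) * x ^ (e + 1) ≤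
          (1 / 4 + (1 / 2 : ℝ) ^ (e + 1)) * (x ^ (e + 1) - 1) ∨ e = 0 := by
        rcases Nat.eq_zero_or_pos e with h0 | h0
        · right; exact h0
        left
        -- with y = (1/2)^(e+1), x^(e+1) ≥ 1/y, y ≤ 1/4
        set y : ℝ := (1 / 2 : ℝ) ^ (e + 1) with hy
        have hy0 : 0 < y := by positivity
        have hy4 : y ≤ 1 / 4 := by
          have : y ≤ (1 / 2 : ℝ) ^ 2 := pow_le_pow_of_le_one (by norm_num) (by norm_num) (by omega)
          norm_num at this
          exact this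
        have hyx : 1 ≤ y * x ^ (e + 1) := by
          have : y * 2 ^ (e + 1) = 1 := by rw [hy, ← mul_pow]; norm_num
          calc (1 : ℝ) = y * 2 ^ (e + 1) := this.symm
            _ ≤ y * x ^ (e + 1) := mul_le_mul_of_nonneg_left h2 hy0.le
        have h5 : (1 / 2 : ℝ) ^ (e + 1 + 1) = y / 2 := by rw [hy, pow_succ]; ring
        rw [h5]
        nlinarith
      rcases h3 with h3 | rfl
      · calc (1 / 4 + (1 / 2 : ℝ) ^ (e + 1 + 1)) * ((∏ i ∈ Finset.range e, x ^ (i + 1)) * x ^ (e + 1))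
            = (∏ i ∈ Finset.range e, x ^ (i + 1)) *
              ((1 / 4 + (1 / 2 : ℝ) ^ (e + 1 + 1)) * x ^ (e + 1)) := by ring
          _ ≤ (∏ i ∈ Finset.range e, x ^ (i + 1)) *
              ((1 / 4 + (1 / 2 : ℝ) ^ (e + 1)) * (x ^ (e + 1) - 1)) :=
            mul_le_mul_of_nonneg_left h3 hP.le
          _ = ((1 / 4 + (1 / 2 : ℝ) ^ (e + 1)) * ∏ i ∈ Finset.range e, x ^ (i + 1)) *
              (x ^ (e + 1) - 1) := by ring
          _ ≤ _ := mul_le_mul_of_nonneg_right ih (by linarith)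
      · simp
        nlinarith
    · simp
      norm_num
      nlinarith

theorem prod_upper (x : ℝ) (hx : 2 ≤ x) (e : ℕ) :
    ∏ i ∈ Finset.range e, (x ^ (i + 1) - 1) ≤ ∏ i ∈ Finset.range e, x ^ (i + 1) :=
  Finset.prod_le_prod (fun i _ => by
    have : (1 : ℝ) ≤ x ^ (i + 1) := one_le_pow₀ (by linarith)
    linarith) fun i _ => by linarith

theorem prod_lower' (x : ℝ) (hx : 2 ≤ x) (e : ℕ) :
    ∏ i ∈ Finset.range e, x ^ (i + 1) ≤ 4 * ∏ i ∈ Finset.range e, (x ^ (i + 1) - 1) := by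
  have hx0 : (0 : ℝ) < x := by linarith
  have hP : 0 < ∏ i ∈ Finset.range e, x ^ (i + 1) := Finset.prod_pos fun i _ => pow_pos hx0 _
  rcases prod_lower x hx e with h | rfl
  · have : 0 < (1 / 2 : ℝ) ^ (e + 1) := by positivity
    nlinarith
  · simp

theorem cast_prod (p a e : ℕ) (hp : 1 ≤ p) :
    ((∏ i ∈ Finset.range e, (p ^ (a - i) - 1) : ℕ) : ℝ) =
      ∏ i ∈ Finset.range e, ((p : ℝ) ^ (a - i) - 1) := by
  push_cast
  refine Finset.prod_congr rfl fun i _ => ?_
  rw [Nat.cast_sub (Nat.one_le_pow _ _ hp)]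
  push_cast
  ring

theorem cast_prod' (p e : ℕ) (hp : 1 ≤ p) :
    ((∏ i ∈ Finset.range e, (p ^ (i + 1) - 1) : ℕ) : ℝ) =
      ∏ i ∈ Finset.range e, ((p : ℝ) ^ (i + 1) - 1) := by
  push_cast
  refine Finset.prod_congr rfl fun i _ => ?_
  rw [Nat.cast_sub (Nat.one_le_pow _ _ hp)]
  push_cast
  ring

theorem reflect (x : ℝ) (e : ℕ) :
    ∏ i ∈ Finset.range e, (x ^ (i + 1) - 1) = ∏ i ∈ Finset.range e, (x ^ (e - i) - 1) := by
  rw [← Finset.prod_range_reflect]
  refine Finset.prod_congr rfl fun i hi => ?_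
  rw [Finset.mem_range] at hi
  congr 2
  omega

theorem reflect' (x : ℝ) (e : ℕ) :
    ∏ i ∈ Finset.range e, x ^ (i + 1) = ∏ i ∈ Finset.range e, x ^ (e - i) := by
  rw [← Finset.prod_range_reflect]
  refine Finset.prod_congr rfl fun i hi => ?_
  rw [Finset.mem_range] at hi
  congr 1
  omega

end GBBM

open GBBM in
theorem specGBB (hGBF : SpecGBF) : SpecGBB := by
  intro p m e hp h
  have hF := (hGBF p m e hp).1 h
  have hx : (2 : ℝ) ≤ p := by exact_mod_cast hp.two_le
  have hx0 : (0 : ℝ) < p := by linarith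
  have hF' : (gb p m e : ℝ) * ∏ i ∈ Finset.range e, ((p : ℝ) ^ (i + 1) - 1) =
      ∏ i ∈ Finset.range e, ((p : ℝ) ^ (m - i) - 1) := by
    rw [← cast_prod p m e hp.one_lt.le, ← cast_prod' p e hp.one_lt.le, ← Nat.cast_mul, hF]
  have hD : 0 < ∏ i ∈ Finset.range e, ((p : ℝ) ^ (i + 1) - 1) :=
    Finset.prod_pos fun i _ => by
      have : (1 : ℝ) < (p : ℝ) ^ (i + 1) := one_lt_pow₀ (by linarith) (by omega)
      linarith
  have hpow : ∏ i ∈ Finset.range e, (p : ℝ) ^ (m - e) = (p : ℝ) ^ (e * (m - e)) := by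
    rw [Finset.prod_const, Finset.card_range, ← pow_mul, mul_comm]
  constructor
  · have h1 : (p : ℝ) ^ (e * (m - e)) * ∏ i ∈ Finset.range e, ((p : ℝ) ^ (i + 1) - 1) ≤
        (gb p m e : ℝ) * ∏ i ∈ Finset.range e, ((p : ℝ) ^ (i + 1) - 1) := by
      rw [hF', reflect, ← hpow, ← Finset.prod_mul_distrib]
      refine Finset.prod_le_prod (fun i _ => ?_) fun i hi => ?_
      · have : (1 : ℝ) ≤ (p : ℝ) ^ (e - i) := one_le_pow₀ (by linarith)
        have : 0 ≤ (p : ℝ) ^ (m - e) := by positivity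
        nlinarith
      · rw [Finset.mem_range] at hi
        have h2 : (p : ℝ) ^ (m - i) = (p : ℝ) ^ (m - e) * (p : ℝ) ^ (e - i) := by
          rw [← pow_add]; congr 1; omega
        have h3 : (1 : ℝ) ≤ (p : ℝ) ^ (m - e) := one_le_pow₀ (by linarith)
        rw [h2]
        nlinarith
    have h2 := le_of_mul_le_mul_right h1 hD
    exact_mod_cast h2
  · have h1 : (gb p m e : ℝ) * ∏ i ∈ Finset.range e, ((p : ℝ) ^ (i + 1) - 1) ≤
        (4 * (p : ℝ) ^ (e * (m - e))) * ∏ i ∈ Finset.range e, ((p : ℝ) ^ (i + 1) - 1) := by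
      calc (gb p m e : ℝ) * ∏ i ∈ Finset.range e, ((p : ℝ) ^ (i + 1) - 1)
          = ∏ i ∈ Finset.range e, ((p : ℝ) ^ (m - i) - 1) := hF'
        _ ≤ ∏ i ∈ Finset.range e, (p : ℝ) ^ (m - i) :=
            Finset.prod_le_prod (fun i _ => by
              have : (1 : ℝ) ≤ (p : ℝ) ^ (m - i) := one_le_pow₀ (by linarith)
              linarith) fun i _ => by linarith
        _ = (p : ℝ) ^ (e * (m - e)) * ∏ i ∈ Finset.range e, (p : ℝ) ^ (i + 1) := by
            rw [reflect', ← hpow, ← Finset.prod_mul_distrib]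
            refine Finset.prod_congr rfl fun i hi => ?_
            rw [Finset.mem_range] at hi
            rw [← pow_add]; congr 1; omega
        _ ≤ (p : ℝ) ^ (e * (m - e)) * (4 * ∏ i ∈ Finset.range e, ((p : ℝ) ^ (i + 1) - 1)) :=
            mul_le_mul_of_nonneg_left (prod_lower' _ hx e) (by positivity)
        _ = _ := by ring
    have h2 := le_of_mul_le_mul_right h1 hD
    exact_mod_cast h2

end Pool.Agent.Lib.MP4ccb00
end

section
/-!
# MP_4ccb00_al, module GBF: the formula for the Gaussian binomial coefficients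
-/
set_option autoImplicit false

namespace Pool.Agent.Lib.MP4ccb00

open Subgroup Module E

namespace GBFM

variable {p : ℕ}

/-- the subspaces of dimension `e` of a vector space of dimension `m` -/
theorem card_eq_gb (hp : p.Prime) {m e : ℕ} (V : Type) [AddCommGroup V] [Module (ZMod p) V]
    [Module.Finite (ZMod p) V] (h : finrank (ZMod p) V = m) :
    Nat.card {W : Submodule (ZMod p) V // finrank (ZMod p) W = e} = gb p m e := by
  have := Fact.mk hp
  unfold gb
  have h2 : finrank (ZMod p) V = finrank (ZMod p) (Fin m → ZMod p) := by simp [h]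
  let f : V ≃ₗ[ZMod p] (Fin m → ZMod p) := LinearEquiv.ofFinrankEq _ _ h2
  refine Nat.card_congr ((Submodule.orderIsoMapComap f).toEquiv.subtypeEquiv ?_)
  intro W
  have h3 : finrank (ZMod p) (Submodule.map (f : V →ₗ[ZMod p] (Fin m → ZMod p)) W) =
      finrank (ZMod p) W := LinearEquiv.finrank_map_eq f W
  constructor
  · intro h4
    have : finrank (ZMod p) (Submodule.map (f : V →ₗ[ZMod p] (Fin m → ZMod p)) W) = e := by
      rw [h3, h4]
    exact this
  · intro h4
    have h5 : finrank (ZMod p) (Submodule.map (f : V →ₗ[ZMod p] (Fin m → ZMod p)) W) = e := h4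
    rw [← h3, h5]

/-- counting independent tuples by their span -/
theorem count (hp : p.Prime) (V : Type) [AddCommGroup V] [Module (ZMod p) V] [Finite V]
    {e : ℕ} (he : e ≤ finrank (ZMod p) V) :
    ∏ i : Fin e, (p ^ finrank (ZMod p) V - p ^ (i : ℕ)) =
      Nat.card {W : Submodule (ZMod p) V // finrank (ZMod p) W = e} *
        ∏ i : Fin e, (p ^ e - p ^ (i : ℕ)) := by
  classical
  have := Fact.mk hp
  have h1 := card_linearIndependent (K := ZMod p) (V := V) he
  rw [ZMod.card] at h1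
  rw [← h1]
  let g : {s : Fin e → V // LinearIndependent (ZMod p) s} →
      {W : Submodule (ZMod p) V // finrank (ZMod p) W = e} := fun s =>
    ⟨Submodule.span (ZMod p) (Set.range s.1), by
      rw [finrank_span_eq_card s.2, Fintype.card_fin]⟩
  have hfib : ∀ W : {W : Submodule (ZMod p) V // finrank (ZMod p) W = e},
      Nat.card {s // g s = W} = ∏ i : Fin e, (p ^ e - p ^ (i : ℕ)) := by
    intro W
    have h2 := card_linearIndependent (K := ZMod p) (V := W.1) (k := e) (le_of_eq W.2.symm)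
    rw [ZMod.card, W.2] at h2
    rw [← h2]
    refine Nat.card_congr ?_
    refine ⟨fun s => ⟨fun i => ⟨s.1.1 i, ?_⟩, ?_⟩, fun s => ⟨⟨fun i => (s.1 i : V), ?_⟩, ?_⟩, ?_, ?_⟩
    · have h3 : Submodule.span (ZMod p) (Set.range s.1.1) = W.1 := congrArg Subtype.val s.2
      exact (le_of_eq h3) (Submodule.subset_span ⟨i, rfl⟩)
    · have h3 := s.1.2
      refine LinearIndependent.of_comp (W.1.subtype) ?_
      exact h3
    · exact s.2.map' W.1.subtype (Submodule.ker_subtype _)
    · apply Subtype.ext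
      have hle : Submodule.span (ZMod p) (Set.range fun i => (s.1 i : V)) ≤ W.1 := by
        rw [Submodule.span_le]
        rintro _ ⟨i, rfl⟩
        exact (s.1 i).2
      exact Submodule.eq_of_le_of_finrank_eq hle
        ((g ⟨fun i => (s.1 i : V), s.2.map' W.1.subtype (Submodule.ker_subtype _)⟩).2.trans W.2.symm)
    · intro s
      rfl
    · intro s
      rfl
  have hfin : Finite (Submodule (ZMod p) V) :=
    Finite.of_injective (fun W => (W : Set V)) SetLike.coe_injective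
  letI : Fintype {W : Submodule (ZMod p) V // finrank (ZMod p) W = e} := Fintype.ofFinite _
  rw [Nat.card_congr (Equiv.sigmaFiberEquiv g).symm, Nat.card_sigma]
  simp only [hfib]
  rw [Finset.sum_const, smul_eq_mul, Finset.card_univ, Nat.card_eq_fintype_card]

theorem factor {a e : ℕ} (h : e ≤ a) :
    ∏ i : Fin e, (p ^ a - p ^ (i : ℕ)) =
      (∏ i ∈ Finset.range e, p ^ i) * ∏ i ∈ Finset.range e, (p ^ (a - i) - 1) := by
  rw [← Finset.prod_mul_distrib, ← Fin.prod_univ_eq_prod_range (fun i => p ^ i * (p ^ (a - i) - 1)) e]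
  refine Finset.prod_congr rfl fun i _ => ?_
  rw [Nat.mul_sub, mul_one, ← pow_add, Nat.add_sub_cancel' (by omega)]

end GBFM

open GBFM in
theorem specGBF : SpecGBF := by
  intro p m e hp
  have := Fact.mk hp
  refine ⟨fun h => ?_, fun h => ?_, fun V _ _ _ hV => card_eq_gb hp V hV⟩
  · have hf : finrank (ZMod p) (Fin m → ZMod p) = m := by simp
    have h1 := count hp (Fin m → ZMod p) (e := e) (by rw [hf]; exact h)
    rw [hf, factor h, factor (le_refl e)] at h1
    have h2 : ∏ i ∈ Finset.range e, (p ^ (e - i) - 1) = ∏ i ∈ Finset.range e, (p ^ (i + 1) - 1) := by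
      rw [← Finset.prod_range_reflect]
      refine Finset.prod_congr rfl fun i hi => ?_
      rw [Finset.mem_range] at hi
      congr 2
      omega
    rw [h2] at h1
    have h3 : 0 < ∏ i ∈ Finset.range e, p ^ i := Finset.prod_pos fun i _ => pow_pos hp.pos _
    have h4 : (∏ i ∈ Finset.range e, p ^ i) * ∏ i ∈ Finset.range e, (p ^ (m - i) - 1) =
        (∏ i ∈ Finset.range e, p ^ i) * (gb p m e * ∏ i ∈ Finset.range e, (p ^ (i + 1) - 1)) := by
      rw [h1]
      unfold gb
      ring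
    exact (Nat.eq_of_mul_eq_mul_left h3 h4).symm
  · unfold gb
    have : IsEmpty {W : Submodule (ZMod p) (Fin m → ZMod p) // finrank (ZMod p) W = e} := by
      refine ⟨fun W => ?_⟩
      have h1 := Submodule.finrank_le W.1
      rw [W.2] at h1
      simp at h1
      omega
    exact Nat.card_of_isEmpty

end Pool.Agent.Lib.MP4ccb00
end

section
/-!
# MP_4ccb00_al, module GLB: the order of `GL_d`
-/
set_option autoImplicit false

namespace Pool.Agent.Lib.MP4ccb00

open Subgroup Module E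

open GBBM in
theorem specGLB : SpecGLB := by
  intro p d hp
  have := Fact.mk hp
  have hx : (2 : ℝ) ≤ p := by exact_mod_cast hp.two_le
  have hc : Nat.card (GLp p d) = ∏ i : Fin d, (p ^ d - p ^ (i : ℕ)) := by
    have := Matrix.card_GL_field (𝔽 := ZMod p) d
    rw [ZMod.card] at this
    exact this
  have h1 : (Nat.card (GLp p d) : ℝ) =
      (∏ i ∈ Finset.range d, (p : ℝ) ^ i) * ∏ i ∈ Finset.range d, ((p : ℝ) ^ (i + 1) - 1) := by
    rw [hc, reflect, ← Finset.prod_mul_distrib,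
      ← Fin.prod_univ_eq_prod_range (fun i => (p : ℝ) ^ i * ((p : ℝ) ^ (d - i) - 1)) d]
    push_cast
    refine Finset.prod_congr rfl fun i _ => ?_
    rw [Nat.cast_sub (Nat.pow_le_pow_right hp.pos i.2.le)]
    push_cast
    rw [mul_sub, mul_one, ← pow_add, Nat.add_sub_cancel' i.2.le]
  have h2 : (∏ i ∈ Finset.range d, (p : ℝ) ^ i) * ∏ i ∈ Finset.range d, (p : ℝ) ^ (i + 1) =
      (p : ℝ) ^ (d * d) := by
    rw [reflect', ← Finset.prod_mul_distrib, pow_mul]
    rw [Finset.prod_congr rfl (g := fun _ => (p : ℝ) ^ d) fun i hi => ?_, Finset.prod_const,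
      Finset.card_range]
    rw [Finset.mem_range] at hi
    rw [← pow_add, Nat.add_sub_cancel' hi.le]
  have h3 : 0 < ∏ i ∈ Finset.range d, (p : ℝ) ^ i :=
    Finset.prod_pos fun i _ => pow_pos (by linarith) _
  constructor
  · have : (Nat.card (GLp p d) : ℝ) ≤ (p : ℝ) ^ (d * d) := by
      rw [h1, ← h2]
      exact mul_le_mul_of_nonneg_left (prod_upper _ hx d) h3.le
    exact_mod_cast this
  · have : (p : ℝ) ^ (d * d) ≤ 4 * (Nat.card (GLp p d) : ℝ) := by
      rw [h1, ← h2]
      have := mul_le_mul_of_nonneg_left (prod_lower' _ hx d) h3.le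
      linarith
    exact_mod_cast this

end Pool.Agent.Lib.MP4ccb00
end

section
/-!
# MP_4ccb00_al, library part: module IND (vectors `v_i` such that `v_i, g v_i` are independent)
-/
set_option autoImplicit false

namespace Pool.Agent.Lib.MP4ccb00.INDM

open Submodule Module

variable {K V : Type} [Field K] [AddCommGroup V] [Module K V] [Module.Finite K V]

/-- one more vector -/
theorem step (g : V →ₗ[K] V) (j : ℕ) (hV : 2 * j + 2 ≤ finrank K V)
    (hg : ∀ a : K, 2 * j + 1 ≤ finrank K (LinearMap.range (g - a • LinearMap.id)))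
    (v : Fin j → V) (hv : LinearIndependent K (Sum.elim v (fun i => g (v i)))) :
    ∃ w : Fin (j + 1) → V, LinearIndependent K (Sum.elim w (fun i => g (w i))) := by
  classical
  set T : Submodule K V := span K (Set.range (Sum.elim v (fun i => g (v i)))) with hT
  have hTdim : finrank K T = 2 * j := by
    rw [hT, finrank_span_eq_card hv, Fintype.card_sum, Fintype.card_fin]
    ring
  have hQdim : 2 ≤ finrank K (V ⧸ T) := by
    have := T.finrank_quotient_add_finrank
    omega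
  obtain ⟨u, hu⟩ : ∃ u : V, LinearIndependent K ![T.mkQ u, T.mkQ (g u)] := by
    by_contra hcon
    push Not at hcon
    -- scalars outside `T`
    have h1 : ∀ u : V, T.mkQ u ≠ 0 → ∃ c : K, T.mkQ (g u) = c • T.mkQ u := by
      intro u hu
      have h2 := hcon u
      rw [LinearIndependent.pair_iff' hu] at h2
      push Not at h2
      obtain ⟨a, ha⟩ := h2
      exact ⟨a, ha.symm⟩
    -- two independent classes
    obtain ⟨f, hf⟩ := exists_linearIndependent_of_le_finrank (R := K) (M := V ⧸ T) hQdim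
    obtain ⟨x, hx⟩ := T.mkQ_surjective (f 0)
    obtain ⟨y, hy⟩ := T.mkQ_surjective (f 1)
    have hxy : LinearIndependent K ![T.mkQ x, T.mkQ y] := by
      rw [hx, hy]
      have e : ![f 0, f 1] = f := by
        ext i
        fin_cases i <;> rfl
      rw [e]
      exact hf
    rw [LinearIndependent.pair_iff] at hxy
    have hx0 : T.mkQ x ≠ 0 := by
      intro h
      have := hxy 1 0 (by rw [h]; simp)
      exact one_ne_zero this.1
    have hy0 : T.mkQ y ≠ 0 := by
      intro h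
      have := hxy 0 1 (by rw [h]; simp)
      exact one_ne_zero this.2
    have h3 : ∀ z ∈ T, g z ∈ T := by
      intro z hz
      have hz0 : T.mkQ z = 0 := by
        rw [mkQ_apply, Submodule.Quotient.mk_eq_zero]
        exact hz
      have h4 : ∀ u : V, T.mkQ u ≠ 0 → ∃ c : K, T.mkQ (g z) = c • T.mkQ u := by
        intro u hu
        obtain ⟨c, hc⟩ := h1 u hu
        obtain ⟨c', hc'⟩ := h1 (u + z) (by rw [map_add, hz0, add_zero]; exact hu)
        refine ⟨c' - c, ?_⟩
        rw [map_add, map_add, map_add, hz0, add_zero, hc] at hc'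
        rw [sub_smul, ← hc']
        abel
      obtain ⟨α, hα⟩ := h4 x hx0
      obtain ⟨β, hβ⟩ := h4 y hy0
      have h5 := hxy α (-β) (by rw [neg_smul, ← hα, ← hβ, add_neg_cancel])
      have h6 : T.mkQ (g z) = 0 := by rw [hα, h5.1, zero_smul]
      rwa [mkQ_apply, Submodule.Quotient.mk_eq_zero] at h6
    have hle : T ≤ T.comap g := fun z hz => h3 z hz
    obtain ⟨a, ha⟩ := LinearMap.exists_eq_smul_id_of_forall_notLinearIndependent (R := K)
      (f := T.mapQ T g hle) (by
        intro q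
        obtain ⟨u, rfl⟩ := T.mkQ_surjective q
        have e : T.mapQ T g hle (T.mkQ u) = T.mkQ (g u) := rfl
        rw [e]
        exact hcon u)
    have h7 : LinearMap.range (g - a • LinearMap.id) ≤ T := by
      rintro _ ⟨u, rfl⟩
      have h8 : T.mapQ T g hle (T.mkQ u) = a • T.mkQ u := by
        rw [ha]
        rfl
      rw [mkQ_apply, mapQ_apply, ← Submodule.Quotient.mk_smul, Submodule.Quotient.eq] at h8
      exact h8
    have h9 := finrank_mono h7
    have h10 := hg a
    omega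
  -- the new family
  have hbig : LinearIndependent K (Sum.elim (Sum.elim v (fun i => g (v i))) ![u, g u]) := by
    have hTm : ∀ i, (Sum.elim v (fun i => g (v i))) i ∈ T := fun i => subset_span ⟨i, rfl⟩
    have h1 : LinearIndependent K (fun i => (⟨_, hTm i⟩ : T)) := by
      refine LinearIndependent.of_comp T.subtype ?_
      exact hv
    have e : (Submodule.Quotient.mk (p := T)) ∘ ![u, g u] = ![T.mkQ u, T.mkQ (g u)] := by
      ext i
      fin_cases i <;> rfl
    have h2 := LinearIndependent.sumElim_of_quotient h1 ![u, g u] (by rw [e]; exact hu)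
    exact h2
  refine ⟨Fin.cons u v, ?_⟩
  let e : Fin (j + 1) ⊕ Fin (j + 1) → (Fin j ⊕ Fin j) ⊕ Fin 2 :=
    Sum.elim (Fin.cons (Sum.inr 0) (fun i => Sum.inl (Sum.inl i)))
      (Fin.cons (Sum.inr 1) (fun i => Sum.inl (Sum.inr i)))
  have he : Function.Injective e := by
    intro a b hab
    rcases a with a | a <;> rcases b with b | b
    · induction a using Fin.cases with
      | zero =>
        induction b using Fin.cases with
        | zero => rfl
        | succ b => simp [e] at hab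
      | succ a =>
        induction b using Fin.cases with
        | zero => simp [e] at hab
        | succ b =>
          have : a = b := by simpa [e] using hab
          rw [this]
    · induction a using Fin.cases with
      | zero =>
        induction b using Fin.cases with
        | zero => simp [e] at hab
        | succ b => simp [e] at hab
      | succ a =>
        induction b using Fin.cases with
        | zero => simp [e] at hab
        | succ b => simp [e] at hab
    · induction a using Fin.cases with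
      | zero =>
        induction b using Fin.cases with
        | zero => simp [e] at hab
        | succ b => simp [e] at hab
      | succ a =>
        induction b using Fin.cases with
        | zero => simp [e] at hab
        | succ b => simp [e] at hab
    · induction a using Fin.cases with
      | zero =>
        induction b using Fin.cases with
        | zero => rfl
        | succ b => simp [e] at hab
      | succ a =>
        induction b using Fin.cases with
        | zero => simp [e] at hab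
        | succ b =>
          have : a = b := by simpa [e] using hab
          rw [this]
  have h := hbig.comp e he
  have e2 : (Sum.elim (Fin.cons u v) fun i => g ((Fin.cons u v : Fin (j + 1) → V) i)) =
      (Sum.elim (Sum.elim v (fun i => g (v i))) ![u, g u]) ∘ e := by
    ext a
    rcases a with a | a
    · induction a using Fin.cases with
      | zero => rfl
      | succ a => rfl
    · induction a using Fin.cases with
      | zero => rfl
      | succ a => rfl
  rw [e2]
  exact h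

theorem ind (g : V →ₗ[K] V) (k : ℕ) (hV : 2 * k ≤ finrank K V)
    (hg : ∀ a : K, 2 * k - 1 ≤ finrank K (LinearMap.range (g - a • LinearMap.id))) (j : ℕ)
    (hj : j ≤ k) : ∃ v : Fin j → V, LinearIndependent K (Sum.elim v (fun i => g (v i))) := by
  induction j with
  | zero =>
    refine ⟨Fin.elim0, ?_⟩
    haveI : IsEmpty (Fin 0 ⊕ Fin 0) := by infer_instance
    exact linearIndependent_empty_type
  | succ j ih =>
    obtain ⟨v, hv⟩ := ih (by omega)
    exact step g j (by omega) (fun a => by have := hg a; omega) v hv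

end Pool.Agent.Lib.MP4ccb00.INDM

namespace Pool.Agent.Lib.MP4ccb00

open Submodule Module

theorem specIND : SpecIND := by
  intro p k hp V _ _ _ hV g hg
  haveI : Fact p.Prime := ⟨hp⟩
  exact INDM.ind g k hV hg k le_rfl

end Pool.Agent.Lib.MP4ccb00
end

section
/-!
# MP_4ccb00_al, library part: module IVS (number of invariant subspaces)
-/
set_option autoImplicit false

namespace Pool.Agent.Lib.MP4ccb00.IVSM

open Submodule Module

section

variable {K V : Type} [Field K] [AddCommGroup V] [Module K V] [Module.Finite K V]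

/-- a subspace `W` with `6` independent vectors `v_i, T v_i` is generated by `e - 3` vectors and their
images -/
theorem tuple (T : V →ₗ[K] V) (W : Submodule K V) (hTW : W.map T ≤ W) (e : ℕ) (he : 6 ≤ e)
    (hW : finrank K W = e) (v : Fin 3 → V) (hvW : ∀ i, v i ∈ W)
    (hv : LinearIndependent K (Sum.elim v (fun i => T (v i)))) :
    ∃ s : Fin (e - 3) → V, W = span K (Set.range s) ⊔ (span K (Set.range s)).map T := by
  classical
  have hmem : ∀ i, (Sum.elim v (fun i => T (v i))) i ∈ W := by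
    rintro (i | i)
    · exact hvW i
    · exact hTW ⟨v i, hvW i, rfl⟩
  set f : Fin 3 ⊕ Fin 3 → W := fun i => ⟨_, hmem i⟩ with hf
  have hfi : LinearIndependent K f := LinearIndependent.of_comp W.subtype hv
  set N : Submodule K W := span K (Set.range f) with hN
  have hNd : finrank K N = 6 := by
    rw [hN, finrank_span_eq_card hfi]
    simp
  have hQ : finrank K (W ⧸ N) = e - 6 := by
    have := N.finrank_quotient_add_finrank
    omega
  let b : Basis (Fin (e - 6)) K (W ⧸ N) := finBasisOfFinrankEq K (W ⧸ N) hQ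
  choose u hu using fun i => N.mkQ_surjective (b i)
  -- all vectors
  obtain ⟨φ, hφ⟩ : ∃ φ : Fin (e - 3) ≃ Fin 3 ⊕ Fin (e - 6), True :=
    ⟨(finCongr (by omega : e - 3 = 3 + (e - 6))).trans finSumFinEquiv.symm, trivial⟩
  refine ⟨fun i => Sum.elim v (fun i => ((u i : W) : V)) (φ i), ?_⟩
  have hr : Set.range (fun i => Sum.elim v (fun i => ((u i : W) : V)) (φ i)) =
      Set.range (Sum.elim v (fun i => ((u i : W) : V))) := by
    rw [← φ.surjective.range_comp]
    rfl
  rw [hr]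
  set S : Submodule K V := span K (Set.range (Sum.elim v (fun i => ((u i : W) : V)))) with hS
  have hSW : S ≤ W := by
    rw [hS, span_le]
    rintro _ ⟨i, rfl⟩
    rcases i with i | i
    · exact hvW i
    · exact (u i).2
  refine le_antisymm ?_ (sup_le hSW ((map_mono hSW).trans hTW))
  intro x hx
  -- modulo `N`
  have h1 : ∃ y : W, y ∈ span K (Set.range u) ∧ (⟨x, hx⟩ : W) - y ∈ N := by
    refine ⟨∑ i, b.repr (N.mkQ ⟨x, hx⟩) i • u i, ?_, ?_⟩
    · exact Submodule.sum_mem _ fun i _ => Submodule.smul_mem _ _ (subset_span ⟨i, rfl⟩)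
    · rw [← Submodule.Quotient.mk_eq_zero, ← mkQ_apply, map_sub, map_sum]
      have : ∑ i, N.mkQ (b.repr (N.mkQ ⟨x, hx⟩) i • u i) = N.mkQ ⟨x, hx⟩ := by
        conv_rhs => rw [← b.sum_repr (N.mkQ ⟨x, hx⟩)]
        refine Finset.sum_congr rfl ?_
        intro i _
        rw [map_smul, hu]
      rw [this, sub_self]
  obtain ⟨y, hy, hyN⟩ := h1
  have hle1 : (span K (Set.range u)).map W.subtype ≤ S := by
    rw [map_span, span_le]
    rintro _ ⟨_, ⟨i, rfl⟩, rfl⟩
    exact subset_span ⟨Sum.inr i, rfl⟩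
  have hle2 : N.map W.subtype ≤ S ⊔ S.map T := by
    rw [hN, map_span, span_le]
    rintro _ ⟨_, ⟨i, rfl⟩, rfl⟩
    rcases i with i | i
    · exact mem_sup_left (subset_span ⟨Sum.inl i, rfl⟩)
    · exact mem_sup_right ⟨v i, subset_span ⟨Sum.inl i, rfl⟩, rfl⟩
  have hx2 : x = (y : V) + ((⟨x, hx⟩ : W) - y : W) := by
    simp
  rw [hx2]
  exact Submodule.add_mem _ (mem_sup_left (hle1 ⟨y, hy, rfl⟩)) (hle2 ⟨_, hyN, rfl⟩)

/-- rank-nullity on `W` -/
theorem rn {V' : Type} [AddCommGroup V'] [Module K V'] (f : V →ₗ[K] V') (W : Submodule K V) :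
    finrank K (W.map f) + finrank K (W ⊓ LinearMap.ker f : Submodule K V) = finrank K W := by
  have h1 := LinearMap.finrank_range_add_finrank_ker (f.domRestrict W)
  have h2 : LinearMap.range (f.domRestrict W) = W.map f := by
    ext x
    constructor
    · rintro ⟨y, rfl⟩
      exact ⟨y, y.2, rfl⟩
    · rintro ⟨y, hy, rfl⟩
      exact ⟨⟨y, hy⟩, rfl⟩
  have h3 : finrank K (LinearMap.ker (f.domRestrict W)) =
      finrank K (W ⊓ LinearMap.ker f : Submodule K V) := by
    have e : (LinearMap.ker (f.domRestrict W)).map W.subtype = W ⊓ LinearMap.ker f := by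
      ext x
      constructor
      · rintro ⟨y, hy, rfl⟩
        exact ⟨y.2, hy⟩
      · rintro ⟨hx, hx'⟩
        exact ⟨⟨x, hx⟩, hx', rfl⟩
    rw [← e]
    exact (finrank_map_subtype_eq _ _).symm
  rw [h2, h3] at h1
  exact h1

/-- a subspace of given dimension -/
theorem exists_sub (U : Submodule K V) (k : ℕ) (hk : k ≤ finrank K U) :
    ∃ W ≤ U, finrank K W = k := by
  obtain ⟨f, hf⟩ := exists_linearIndependent_of_le_finrank (R := K) (M := U) hk
  refine ⟨(span K (Set.range f)).map U.subtype, ?_, ?_⟩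
  · exact map_subtype_le _ _
  · rw [finrank_map_subtype_eq, finrank_span_eq_card hf, Fintype.card_fin]

end

end Pool.Agent.Lib.MP4ccb00.IVSM

namespace Pool.Agent.Lib.MP4ccb00.IVSM

open Submodule Module

section

theorem finite_V (p : ℕ) [Fact p.Prime] (V : Type) [AddCommGroup V] [Module (ZMod p) V]
    [Module.Finite (ZMod p) V] : Finite V := Module.finite_of_finite (ZMod p)

theorem finite_sub (p : ℕ) [Fact p.Prime] (V : Type) [AddCommGroup V] [Module (ZMod p) V]
    [Module.Finite (ZMod p) V] : Finite (Submodule (ZMod p) V) := by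
  have : Finite V := finite_V p V
  exact Finite.of_injective (fun W : Submodule (ZMod p) V => (W : Set V)) SetLike.coe_injective

variable {p : ℕ} [Fact p.Prime] {V : Type} [AddCommGroup V] [Module (ZMod p) V]
  [Module.Finite (ZMod p) V]

/-- the invariant subspaces on which all `T - a` have rank at least `5` -/
theorem cardA1 (hIND : SpecIND) (m e : ℕ) (he : 6 ≤ e) (hm : finrank (ZMod p) V = m)
    (T : V →ₗ[ZMod p] V) :
    Nat.card {W : Submodule (ZMod p) V // (finrank (ZMod p) W = e ∧ W.map T ≤ W) ∧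
      ∀ a : ZMod p, 5 ≤ finrank (ZMod p) (W.map (T - a • LinearMap.id))} ≤ p ^ (m * (e - 3)) := by
  classical
  have hVf : Finite V := finite_V p V
  have hex : ∀ W : {W : Submodule (ZMod p) V // (finrank (ZMod p) W = e ∧ W.map T ≤ W) ∧
      ∀ a : ZMod p, 5 ≤ finrank (ZMod p) (W.map (T - a • LinearMap.id))},
      ∃ s : Fin (e - 3) → V,
        W.1 = span (ZMod p) (Set.range s) ⊔ (span (ZMod p) (Set.range s)).map T := by
    rintro ⟨W, ⟨hW, hTW⟩, ha⟩
    -- the restriction of `T`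
    let g : W →ₗ[ZMod p] W := T.restrict (fun x hx => hTW ⟨x, hx, rfl⟩)
    have hg : ∀ a : ZMod p, 2 * 3 - 1 ≤ finrank (ZMod p) (LinearMap.range (g - a • LinearMap.id)) := by
      intro a
      have h1 : (LinearMap.range (g - a • LinearMap.id)).map W.subtype =
          W.map (T - a • LinearMap.id) := by
        ext x
        constructor
        · rintro ⟨_, ⟨y, rfl⟩, rfl⟩
          exact ⟨y, y.2, rfl⟩
        · rintro ⟨y, hy, rfl⟩
          exact ⟨_, ⟨⟨y, hy⟩, rfl⟩, rfl⟩
      have h2 := ha a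
      rw [← h1, finrank_map_subtype_eq] at h2
      exact h2
    obtain ⟨v, hv⟩ := hIND p 3 (Fact.out) W (by rw [hW]; omega) g hg
    refine tuple T W hTW e he hW (fun i => (v i : V)) (fun i => (v i).2) ?_
    have h3 := hv.map' W.subtype (Submodule.ker_subtype W)
    have e1 : W.subtype ∘ (Sum.elim v fun i => g (v i)) =
        Sum.elim (fun i => (v i : V)) (fun i => T (v i : V)) := by
      ext i
      rcases i with i | i <;> rfl
    rw [← e1]
    exact h3
  choose s hs using hex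
  have hinj : Function.Injective s := by
    intro W W' h
    apply Subtype.ext
    rw [hs W, hs W', h]
  have h1 := Nat.card_le_card_of_injective s hinj
  have h2 : Nat.card (Fin (e - 3)) = e - 3 := by simp
  rw [Nat.card_fun, Module.natCard_eq_pow_finrank (K := ZMod p) (V := V), Nat.card_zmod, hm,
    h2, ← pow_mul] at h1
  exact h1

/-- subspaces of dimension `e` containing a given one -/
theorem card_above (hGBF : SpecGBF) (m e k : ℕ) (hm : finrank (ZMod p) V = m)
    (U : Submodule (ZMod p) V) (hU : finrank (ZMod p) U = k) (hke : k ≤ e) :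
    Nat.card {W : Submodule (ZMod p) V // finrank (ZMod p) W = e ∧ U ≤ W} ≤ gb p (m - k) (e - k) := by
  classical
  have hVf : Finite V := finite_V p V
  have hQ : finrank (ZMod p) (V ⧸ U) = m - k := by
    have := U.finrank_quotient_add_finrank
    omega
  rw [← (hGBF p (m - k) (e - k) (Fact.out)).2.2 (V ⧸ U) hQ]
  have hf : Finite {W : Submodule (ZMod p) (V ⧸ U) // finrank (ZMod p) W = e - k} := by
    have := finite_sub p (V ⧸ U)
    exact Subtype.finite
  refine Nat.card_le_card_of_injective (fun W => ⟨W.1.map U.mkQ, ?_⟩) ?_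
  · have h1 := rn U.mkQ W.1
    rw [ker_mkQ, inf_eq_right.2 W.2.2, hU, W.2.1] at h1
    omega
  · intro W W' h
    have h1 : W.1.map U.mkQ = W'.1.map U.mkQ := congrArg Subtype.val h
    apply Subtype.ext
    have h2 : ∀ X : Submodule (ZMod p) V, U ≤ X → (X.map U.mkQ).comap U.mkQ = X := by
      intro X hX
      rw [comap_map_eq, ker_mkQ, sup_eq_left.2 hX]
    rw [← h2 W.1 W.2.2, h1, h2 W'.1 W'.2.2]

/-- the number of eigenvalues -/
theorem card_eig (m : ℕ) (hm : finrank (ZMod p) V = m) (T : V →ₗ[ZMod p] V) :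
    Nat.card {a : ZMod p // LinearMap.ker (T - a • LinearMap.id) ≠ ⊥} ≤ m := by
  classical
  have hex : ∀ a : {a : ZMod p // LinearMap.ker (T - a • LinearMap.id) ≠ ⊥},
      ∃ v : V, Module.End.HasEigenvector T a.1 v := by
    rintro ⟨a, ha⟩
    obtain ⟨v, hv, hv0⟩ := (Submodule.ne_bot_iff _).1 ha
    refine ⟨v, ?_, hv0⟩
    rw [Module.End.mem_eigenspace_iff]
    have h1 : T v - a • v = 0 := hv
    exact sub_eq_zero.1 h1
  choose v hv using hex
  have h1 := Module.End.eigenvectors_linearIndependent' T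
    (fun a : {a : ZMod p // LinearMap.ker (T - a • LinearMap.id) ≠ ⊥} => a.1)
    Subtype.coe_injective v hv
  rw [Nat.card_eq_fintype_card, ← hm]
  exact h1.fintype_card_le_finrank

/-- the invariant subspaces on which a given `T - a` has rank at most `4` -/
theorem cardA2 (hGBF : SpecGBF) (hGBB : SpecGBB) (m e r : ℕ) (he : 6 ≤ e) (hem : e ≤ m)
    (hr4 : 4 ≤ r) (hm : finrank (ZMod p) V = m) (T : V →ₗ[ZMod p] V) (a : ZMod p)
    (hr : r ≤ finrank (ZMod p) (LinearMap.range (T - a • LinearMap.id))) :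
    Nat.card {W : Submodule (ZMod p) V // finrank (ZMod p) W = e ∧
      finrank (ZMod p) (W.map (T - a • LinearMap.id)) ≤ 4} * p ^ ((e - 4) * (r - 4)) ≤
      16 * p ^ (e * (m - e)) := by
  classical
  have hVf : Finite V := finite_V p V
  have hp : p.Prime := Fact.out
  set U := LinearMap.ker (T - a • LinearMap.id) with hU
  obtain ⟨k, hk⟩ : ∃ k, finrank (ZMod p) U = k := ⟨_, rfl⟩
  have hkr : k + r ≤ m := by
    have h1 := LinearMap.finrank_range_add_finrank_ker (T - a • LinearMap.id)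
    rw [← hU, hk, hm] at h1
    omega
  -- the injection
  have hex : ∀ W : {W : Submodule (ZMod p) V // finrank (ZMod p) W = e ∧
      finrank (ZMod p) (W.map (T - a • LinearMap.id)) ≤ 4},
      ∃ W₁ : Submodule (ZMod p) U, finrank (ZMod p) W₁ = e - 4 ∧ W₁.map U.subtype ≤ W.1 := by
    rintro ⟨W, hW, h4⟩
    have h1 := rn (T - a • LinearMap.id) W
    rw [← hU] at h1
    obtain ⟨W₂, h2, h3⟩ := exists_sub (W ⊓ U) (e - 4) (by omega)
    refine ⟨W₂.comap U.subtype, ?_, ?_⟩
    · rw [← finrank_map_subtype_eq, map_comap_subtype, inf_eq_right.2 (h2.trans inf_le_right), h3]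
    · rw [map_comap_subtype]
      exact inf_le_right.trans (h2.trans inf_le_left)
  choose W₁ hW₁ using hex
  have hfU : Finite (Submodule (ZMod p) U) := finite_sub p U
  have hfV : Finite (Submodule (ZMod p) V) := finite_sub p V
  let ι := {X : Submodule (ZMod p) U // finrank (ZMod p) X = e - 4}
  let β : ι → Type := fun X => {W : Submodule (ZMod p) V // finrank (ZMod p) W = e ∧
    X.1.map U.subtype ≤ W}
  have hfι : Finite ι := Subtype.finite
  have hfβ : ∀ X, Finite (β X) := fun X => Subtype.finite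
  letI : Fintype ι := Fintype.ofFinite ι
  have hle : Nat.card {W : Submodule (ZMod p) V // finrank (ZMod p) W = e ∧
      finrank (ZMod p) (W.map (T - a • LinearMap.id)) ≤ 4} ≤ Nat.card (Σ X : ι, β X) := by
    refine Nat.card_le_card_of_injective
      (fun W => ⟨⟨W₁ W, (hW₁ W).1⟩, ⟨W.1, W.2.1, (hW₁ W).2⟩⟩) ?_
    intro W W' h
    apply Subtype.ext
    have h1 : ∀ x y : (Σ X : ι, β X), x = y → (x.2.1 : Submodule (ZMod p) V) = y.2.1 := by
      rintro x y rfl
      rfl
    exact h1 _ _ h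
  have hsum : Nat.card (Σ X : ι, β X) ≤ Nat.card ι * gb p (m - (e - 4)) 4 := by
    rw [Nat.card_sigma]
    refine (Finset.sum_le_card_nsmul _ _ (gb p (m - (e - 4)) 4) ?_).trans ?_
    · intro X _
      have h1 := card_above (p := p) (V := V) hGBF m e (e - 4) hm (X.1.map U.subtype)
        (by rw [finrank_map_subtype_eq]; exact X.2) (by omega)
      rw [show e - (e - 4) = 4 by omega] at h1
      exact h1
    · rw [smul_eq_mul, Finset.card_univ, Nat.card_eq_fintype_card]
  have hι : Nat.card ι = gb p k (e - 4) := (hGBF p k (e - 4) hp).2.2 U hk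
  have h4 : gb p (m - (e - 4)) 4 ≤ 4 * p ^ (4 * (m - e)) := by
    have := (hGBB p (m - (e - 4)) 4 hp (by omega)).2
    rwa [show m - (e - 4) - 4 = m - e by omega] at this
  rcases lt_or_ge k (e - 4) with hlt | hge
  · have h0 : gb p k (e - 4) = 0 := (hGBF p k (e - 4) hp).2.1 hlt
    rw [hι, h0, zero_mul] at hsum
    have : Nat.card {W : Submodule (ZMod p) V // finrank (ZMod p) W = e ∧
      finrank (ZMod p) (W.map (T - a • LinearMap.id)) ≤ 4} = 0 := by omega
    rw [this, zero_mul]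
    exact Nat.zero_le _
  · have h5 : gb p k (e - 4) ≤ 4 * p ^ ((e - 4) * (m - r - (e - 4))) := by
      refine ((hGBB p k (e - 4) hp hge).2).trans ?_
      refine Nat.mul_le_mul_left _ (Nat.pow_le_pow_right hp.pos ?_)
      exact Nat.mul_le_mul_left _ (by omega)
    have h6 := hle.trans hsum
    rw [hι] at h6
    have h7 := h6.trans (Nat.mul_le_mul h5 h4)
    have h8 := Nat.mul_le_mul_right (p ^ ((e - 4) * (r - 4))) h7
    refine h8.trans (le_of_eq ?_)
    have h9 : e * (m - e) = (e - 4) * (m - r - (e - 4)) + 4 * (m - e) + (e - 4) * (r - 4) := by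
      obtain ⟨E, rfl⟩ : ∃ E, e = E + 4 := ⟨e - 4, by omega⟩
      obtain ⟨Rr, rfl⟩ : ∃ Rr, r = Rr + 4 := ⟨r - 4, by omega⟩
      obtain ⟨M, rfl⟩ : ∃ M, m = M + (E + 4) + Rr := ⟨m - (E + 4) - Rr, by omega⟩
      have e1 : M + (E + 4) + Rr - (E + 4) = M + Rr := by omega
      have e2 : M + (E + 4) + Rr - (Rr + 4) - (E + 4 - 4) = M := by omega
      have e3 : E + 4 - 4 = E := by omega
      have e4 : Rr + 4 - 4 = Rr := by omega
      rw [e1, e2, e3, e4]
      ring
    rw [h9, pow_add, pow_add]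
    ring

end

end Pool.Agent.Lib.MP4ccb00.IVSM

namespace Pool.Agent.Lib.MP4ccb00

open Submodule Module IVSM

theorem specIVS (hIND : SpecIND) (hGBF : SpecGBF) (hGBB : SpecGBB) : SpecIVS := by
  intro p m e r hp he hem hr4 V _ _ _ hm T hr
  classical
  haveI : Fact p.Prime := ⟨hp⟩
  have hfV : Finite (Submodule (ZMod p) V) := finite_sub p V
  let A1 : Set (Submodule (ZMod p) V) := {W | (finrank (ZMod p) W = e ∧ W.map T ≤ W) ∧
      ∀ a : ZMod p, 5 ≤ finrank (ZMod p) (W.map (T - a • LinearMap.id))}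
  let A2 : Set (Submodule (ZMod p) V) := {W | (finrank (ZMod p) W = e ∧ W.map T ≤ W) ∧
      ∃ a : ZMod p, finrank (ZMod p) (W.map (T - a • LinearMap.id)) ≤ 4}
  refine ⟨A1.ncard, A2.ncard, ?_, ?_, ?_⟩
  · have h1 : Nat.card {W : Submodule (ZMod p) V // finrank (ZMod p) W = e ∧ W.map T ≤ W} =
        Set.ncard {W : Submodule (ZMod p) V | finrank (ZMod p) W = e ∧ W.map T ≤ W} := rfl
    rw [h1]
    refine (Set.ncard_le_ncard (t := A1 ∪ A2) ?_ (Set.toFinite _)).trans (Set.ncard_union_le _ _)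
    intro W hW
    by_cases h : ∀ a : ZMod p, 5 ≤ finrank (ZMod p) (W.map (T - a • LinearMap.id))
    · exact Or.inl ⟨hW, h⟩
    · right
      push Not at h
      obtain ⟨a, ha⟩ := h
      exact ⟨hW, a, by omega⟩
  · exact cardA1 hIND m e he hm T
  · -- sum over the eigenvalues
    let B : ZMod p → Set (Submodule (ZMod p) V) := fun a =>
      {W | finrank (ZMod p) W = e ∧ finrank (ZMod p) (W.map (T - a • LinearMap.id)) ≤ 4}
    let Eg : Finset (ZMod p) := Finset.univ.filter fun a => LinearMap.ker (T - a • LinearMap.id) ≠ ⊥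
    have hEg : Eg.card ≤ m := by
      have h1 := card_eig (p := p) (V := V) m hm T
      rw [Nat.card_eq_fintype_card, Fintype.card_subtype] at h1
      exact h1
    have hsub : A2 ⊆ ⋃ a ∈ Eg, B a := by
      rintro W ⟨⟨hW, hTW⟩, a, ha⟩
      rw [Set.mem_iUnion₂]
      refine ⟨a, ?_, hW, ha⟩
      rw [Finset.mem_filter]
      refine ⟨Finset.mem_univ _, ?_⟩
      intro hbot
      have h1 := rn (T - a • LinearMap.id) W
      rw [hbot, inf_bot_eq, finrank_bot, add_zero] at h1
      omega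
    have h2 : A2.ncard ≤ ∑ a ∈ Eg, (B a).ncard := by
      refine (Set.ncard_le_ncard hsub (Set.toFinite _)).trans ?_
      exact Finset.set_ncard_biUnion_le Eg B
    have h3 : ∀ a ∈ Eg, (B a).ncard * p ^ ((e - 4) * (r - 4)) ≤ 16 * p ^ (e * (m - e)) :=
      fun a _ => cardA2 hGBF hGBB m e r he hem hr4 hm T a (hr a)
    calc A2.ncard * p ^ ((e - 4) * (r - 4))
        ≤ (∑ a ∈ Eg, (B a).ncard) * p ^ ((e - 4) * (r - 4)) := Nat.mul_le_mul_right _ h2
      _ = ∑ a ∈ Eg, (B a).ncard * p ^ ((e - 4) * (r - 4)) := by rw [Finset.sum_mul]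
      _ ≤ Eg.card • (16 * p ^ (e * (m - e))) := Finset.sum_le_card_nsmul _ _ _ h3
      _ ≤ m * (16 * p ^ (e * (m - e))) := by
          rw [smul_eq_mul]
          exact Nat.mul_le_mul_right _ hEg
      _ = 16 * m * p ^ (e * (m - e)) := by ring

end Pool.Agent.Lib.MP4ccb00
end

section
/-!
# MP_4ccb00_al, module LBD: the lower bound for the number of groups
-/
set_option autoImplicit false

namespace Pool.Agent.Lib.MP4ccb00

theorem specLBD (hDEC : SpecDEC) (hCLS : SpecCLS) (hLOW : SpecLOW) (hCNT : SpecCNT) : SpecLBD := by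
  intro p n hp
  rw [hDEC p n hp]
  push_cast
  apply Finset.sum_le_sum
  intro d hd
  have hdn : d ≤ n := by
    have := Finset.mem_range.mp hd
    omega
  have h1 : ncl (Good p d n) ≤ ncl (X p d n) :=
    (hCLS p d n hp).1 (Good p d n) (X p d n) (fun R hR => hR.1) (le_refl _)
  have h2 : (Good p d n).ncard ≤ ncl (Good p d n) * Nat.card (GLp p d) := hLOW p d n hp
  rw [hCNT p d n hp hdn] at h2
  have h1' : (ncl (Good p d n) : ℝ) ≤ (ncl (X p d n) : ℝ) := by exact_mod_cast h1
  have h2' : (gb p (d * (d + 1) / 2) (n - d) : ℝ) ≤ (ncl (Good p d n) : ℝ) * (Nat.card (GLp p d) : ℝ) := by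
    exact_mod_cast h2
  refine le_trans ?_ h1'
  unfold mass
  rcases Nat.eq_zero_or_pos (Nat.card (GLp p d)) with h0 | h0
  · rw [h0]
    simp
  · have h0' : (0 : ℝ) < (Nat.card (GLp p d) : ℝ) := by exact_mod_cast h0
    rw [div_le_iff₀ h0']
    exact h2'

end Pool.Agent.Lib.MP4ccb00
end

section
/-!
# MP_4ccb00_al, module MAX: the largest mass
-/
set_option autoImplicit false

namespace Pool.Agent.Lib.MP4ccb00.MAXM

/-- the inequality between the exponents -/
theorem expo (n d e r s T F : ℕ) (hr : r < 3) (hn : 200 ≤ n) (h1 : 3 * d + r = 2 * n)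
    (h2 : e + d = n) (hT : 2 * T = d * (d + 1)) (hs : s + e = T) (hF : 27 * F ≤ 2 * n ^ 3) :
    F + d * d ≤ n ^ 2 + e * s := by
  zify at *
  have h3 : 3 * (d : ℤ) = 2 * n - r := by linarith
  have h4 : 3 * (e : ℤ) = n + r := by linarith
  have e1 : 27 * ((e : ℤ) * d ^ 2) = (n + r) * (2 * n - r) ^ 2 := by
    linear_combination (9 * (d : ℤ) ^ 2) * h4 + ((n : ℤ) + r) * (3 * d + (2 * n - r)) * h3
  have e2 : 9 * ((e : ℤ) * d) = (n + r) * (2 * n - r) := by
    linear_combination (3 * (d : ℤ)) * h4 + ((n : ℤ) + r) * h3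
  have e3 : 9 * ((e : ℤ) ^ 2) = (n + r) ^ 2 := by
    linear_combination (3 * (e : ℤ) + (n + r)) * h4
  have e4 : 9 * ((d : ℤ) * d) = (2 * n - r) ^ 2 := by
    linear_combination (3 * (d : ℤ) + (2 * n - r)) * h3
  have e5 : 2 * ((e : ℤ) * s) = e * d ^ 2 + e * d - 2 * e ^ 2 := by
    have : (s : ℤ) = T - e := by linarith
    rw [this]
    linear_combination (e : ℤ) * hT
  have key : 54 * ((F : ℤ) + d * d) ≤ 54 * ((n : ℤ) ^ 2 + e * s) := by
    have hn' : (200 : ℤ) ≤ n := by exact_mod_cast hn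
    have hr' : r = 0 ∨ r = 1 ∨ r = 2 := by omega
    rcases hr' with rfl | rfl | rfl
    all_goals
      push_cast at *
      nlinarith [e1, e2, e3, e4, e5, hF, mul_le_mul hn' hn' (by norm_num) (by linarith)]
  linarith

end Pool.Agent.Lib.MP4ccb00.MAXM

namespace Pool.Agent.Lib.MP4ccb00

open MAXM

theorem specMAX (hMLB : SpecMLB) : SpecMAX := by
  refine ⟨200, fun n hn p hp => ?_⟩
  obtain ⟨r, hr, h1⟩ : ∃ r, r < 3 ∧ 3 * (2 * n / 3) + r = 2 * n := ⟨2 * n % 3, by omega, by omega⟩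
  set d := 2 * n / 3 with hd
  refine ⟨d, ?_, ?_⟩
  · rw [near, Finset.mem_filter, Finset.mem_range]
    omega
  · have hdn : d ≤ n := by omega
    obtain ⟨e, he⟩ : ∃ e, e = n - d := ⟨_, rfl⟩
    have h2 : e + d = n := by omega
    have hT : 2 * (d * (d + 1) / 2) = d * (d + 1) :=
      Nat.mul_div_cancel' (Nat.even_mul_succ_self d).two_dvd
    have heT : e ≤ d * (d + 1) / 2 := by
      have : e ≤ d := by omega
      have h3 : 1 ≤ d := by omega
      have : 2 * d ≤ d * (d + 1) := by nlinarith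
      omega
    obtain ⟨s, hs⟩ : ∃ s, s = d * (d + 1) / 2 - e := ⟨_, rfl⟩
    have hs2 : s + e = d * (d + 1) / 2 := by omega
    have hF : 27 * (2 * n ^ 3 / 27) ≤ 2 * n ^ 3 := Nat.mul_div_le _ _
    have hx := expo n d e r s _ _ hr hn h1 h2 hT hs2 hF
    obtain ⟨h5, -⟩ := hMLB p d n hp hdn (by rw [← he]; exact heT)
    rw [← he, ← hs] at h5
    have hp1 : (1 : ℝ) ≤ p := by exact_mod_cast hp.one_lt.le
    have hp0 : (0 : ℝ) < p := by linarith
    have h6 : (p : ℝ) ^ (2 * n ^ 3 / 27) * (p : ℝ) ^ (d * d) ≤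
        ((p : ℝ) ^ (n ^ 2) * mass p d n) * (p : ℝ) ^ (d * d) := by
      calc (p : ℝ) ^ (2 * n ^ 3 / 27) * (p : ℝ) ^ (d * d) = (p : ℝ) ^ (2 * n ^ 3 / 27 + d * d) := by
            rw [pow_add]
        _ ≤ (p : ℝ) ^ (n ^ 2 + e * s) := pow_le_pow_right₀ hp1 hx
        _ = (p : ℝ) ^ (n ^ 2) * (p : ℝ) ^ (e * s) := by rw [pow_add]
        _ ≤ (p : ℝ) ^ (n ^ 2) * (mass p d n * (p : ℝ) ^ (d * d)) := by gcongr
        _ = _ := by ring
    exact le_of_mul_le_mul_right h6 (by positivity)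

end Pool.Agent.Lib.MP4ccb00
end

section
/-!
# MP_4ccb00_al: module MLB (size of the mass)
-/
set_option autoImplicit false

namespace Pool.Agent.Lib.MP4ccb00

/-- Size of the mass. -/
theorem specMLB (hGBB : SpecGBB) (hGLB : SpecGLB) : SpecMLB := by
  intro p d n hp hdn he
  obtain ⟨h1, h2⟩ := hGBB p (d * (d + 1) / 2) (n - d) hp he
  obtain ⟨h3, h4⟩ := hGLB p d hp
  unfold mass
  set m := d * (d + 1) / 2 with hm
  set e := n - d with he'
  set g := gb p m e with hg
  set c := Nat.card (GLp p d) with hc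
  have hpp : 0 < p ^ (d * d) := Nat.pow_pos hp.pos
  have hc0 : 0 < c := by
    rcases Nat.eq_zero_or_pos c with h | h
    · rw [h] at h4; omega
    · exact h
  have hcr : (0 : ℝ) < c := by exact_mod_cast hc0
  have h1' : (p : ℝ) ^ (e * (m - e)) ≤ g := by exact_mod_cast h1
  have h2' : (g : ℝ) ≤ 4 * (p : ℝ) ^ (e * (m - e)) := by exact_mod_cast h2
  have h3' : (c : ℝ) ≤ (p : ℝ) ^ (d * d) := by exact_mod_cast h3
  have h4' : (p : ℝ) ^ (d * d) ≤ 4 * c := by exact_mod_cast h4
  have hg0 : (0 : ℝ) ≤ g := Nat.cast_nonneg _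
  have hpr : (0 : ℝ) ≤ (p : ℝ) ^ (e * (m - e)) := by positivity
  rw [div_mul_eq_mul_div]
  constructor
  · rw [le_div_iff₀ hcr]
    exact mul_le_mul h1' h3' hcr.le hg0
  · rw [div_le_iff₀ hcr]
    calc (g : ℝ) * (p : ℝ) ^ (d * d) ≤ (4 * (p : ℝ) ^ (e * (m - e))) * (4 * c) :=
          mul_le_mul h2' h4' (by positivity) (by positivity)
      _ = 16 * (p : ℝ) ^ (e * (m - e)) * c := by ring

end Pool.Agent.Lib.MP4ccb00
end

section
/-!
# MP_4ccb00_al, module MON: monotonicity of the mass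
-/
set_option autoImplicit false

namespace Pool.Agent.Lib.MP4ccb00

open Subgroup Module E

namespace MONM

theorem ratio_lower {x y : ℝ} (hy : 2 ≤ y) (hxy : y ≤ x) (k : ℕ) :
    (x / y) ^ k * (y ^ k - 1) ≤ x ^ k - 1 := by
  have hy0 : 0 < y := by linarith
  have h1 : (1 : ℝ) ≤ (x / y) ^ k := one_le_pow₀ (by rw [le_div_iff₀ hy0]; linarith)
  have h2 : (x / y) ^ k * y ^ k = x ^ k := by
    rw [← mul_pow, div_mul_cancel₀ _ hy0.ne']
  rw [mul_sub, h2]
  linarith

theorem ratio_one {x y : ℝ} (hy : 2 ≤ y) (hxy : y ≤ x) :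
    x - 1 ≤ (x / y) ^ 2 * (y - 1) := by
  have hy0 : 0 < y := by linarith
  rw [div_pow, div_mul_eq_mul_div, le_div_iff₀ (by positivity)]
  have h1 : 0 ≤ x * y - x - y := by nlinarith
  nlinarith [mul_nonneg (sub_nonneg.2 hxy) h1]

theorem ratio_upper {x y : ℝ} (hy : 2 ≤ y) (hxy : y ≤ x) (k : ℕ) :
    x ^ (k + 1) - 1 ≤ (x / y) ^ (k + 2) * (y ^ (k + 1) - 1) := by
  have hy0 : 0 < y := by linarith
  have h0 := ratio_one hy hxy
  have hr : 1 ≤ x / y := by rw [le_div_iff₀ hy0]; linarith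
  induction k with
  | zero => simpa using h0
  | succ k ih =>
    have h3 : x - 1 ≤ (x / y) ^ (k + 1 + 2) * (y - 1) := by
      refine h0.trans (mul_le_mul_of_nonneg_right ?_ (by linarith))
      exact pow_le_pow_right₀ hr (by omega)
    have h4 : (x / y) ^ (k + 1 + 2) * y = (x / y) ^ (k + 2) * x := by
      rw [pow_succ (x / y) (k + 2)]
      field_simp
    calc x ^ (k + 1 + 1) - 1 = x * (x ^ (k + 1) - 1) + (x - 1) := by ring
      _ ≤ x * ((x / y) ^ (k + 2) * (y ^ (k + 1) - 1)) + (x / y) ^ (k + 1 + 2) * (y - 1) :=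
        add_le_add (mul_le_mul_of_nonneg_left ih (by linarith)) h3
      _ = ((x / y) ^ (k + 2) * x) * (y ^ (k + 1) - 1) + (x / y) ^ (k + 1 + 2) * (y - 1) := by ring
      _ = ((x / y) ^ (k + 1 + 2) * y) * (y ^ (k + 1) - 1) + (x / y) ^ (k + 1 + 2) * (y - 1) := by
        rw [h4]
      _ = (x / y) ^ (k + 1 + 2) * (y ^ (k + 1 + 1) - 1) := by ring

theorem prod_lower {x y : ℝ} (hy : 2 ≤ y) (hxy : y ≤ x) (m e : ℕ) :
    (x / y) ^ (∑ i ∈ Finset.range e, (m - i)) * ∏ i ∈ Finset.range e, (y ^ (m - i) - 1) ≤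
      ∏ i ∈ Finset.range e, (x ^ (m - i) - 1) := by
  have hy0 : 0 < y := by linarith
  rw [← Finset.prod_pow_eq_pow_sum, ← Finset.prod_mul_distrib]
  refine Finset.prod_le_prod (fun i _ => ?_) fun i _ => ratio_lower hy hxy _
  have h1 : (1 : ℝ) ≤ y ^ (m - i) := one_le_pow₀ (by linarith)
  have h2 : 0 ≤ (x / y) ^ (m - i) := pow_nonneg (div_nonneg (by linarith) hy0.le) _
  exact mul_nonneg h2 (by linarith)

theorem prod_upper {x y : ℝ} (hy : 2 ≤ y) (hxy : y ≤ x) (e : ℕ) :
    ∏ i ∈ Finset.range e, (x ^ (i + 1) - 1) ≤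
    (x / y) ^ (∑ i ∈ Finset.range e, (i + 2)) * ∏ i ∈ Finset.range e, (y ^ (i + 1) - 1) := by
  rw [← Finset.prod_pow_eq_pow_sum, ← Finset.prod_mul_distrib]
  refine Finset.prod_le_prod (fun i _ => ?_) fun i _ => ratio_upper hy hxy _
  have h1 : (1 : ℝ) ≤ x ^ (i + 1) := one_le_pow₀ (by linarith)
  linarith

theorem pow_prod {x y : ℝ} (hy : 2 ≤ y) (d : ℕ) :
    ∏ i ∈ Finset.range d, x ^ i =
    (x / y) ^ (∑ i ∈ Finset.range d, i) * ∏ i ∈ Finset.range d, y ^ i := by
  rw [← Finset.prod_pow_eq_pow_sum, ← Finset.prod_mul_distrib]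
  refine Finset.prod_congr rfl fun i _ => ?_
  rw [← mul_pow, div_mul_cancel₀ _ (by linarith : y ≠ 0)]

open GBBM in
/-- the order of `GL_d` as a product -/
theorem card_GL {p : ℕ} (hp : p.Prime) (d : ℕ) : (Nat.card (GLp p d) : ℝ) =
    (∏ i ∈ Finset.range d, (p : ℝ) ^ i) * ∏ i ∈ Finset.range d, ((p : ℝ) ^ (i + 1) - 1) := by
  have := Fact.mk hp
  have hc : Nat.card (GLp p d) = ∏ i : Fin d, (p ^ d - p ^ (i : ℕ)) := by
    have := Matrix.card_GL_field (𝔽 := ZMod p) d
    rw [ZMod.card] at this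
    exact this
  rw [hc, reflect, ← Finset.prod_mul_distrib,
    ← Fin.prod_univ_eq_prod_range (fun i => (p : ℝ) ^ i * ((p : ℝ) ^ (d - i) - 1)) d]
  push_cast
  refine Finset.prod_congr rfl fun i _ => ?_
  rw [Nat.cast_sub (Nat.pow_le_pow_right hp.pos i.2.le)]
  push_cast
  rw [mul_sub, mul_one, ← pow_add, Nat.add_sub_cancel' i.2.le]

theorem gb_mul (hGBF : SpecGBF) {p : ℕ} (hp : p.Prime) {m e : ℕ} (h : e ≤ m) :
    (gb p m e : ℝ) * ∏ i ∈ Finset.range e, ((p : ℝ) ^ (i + 1) - 1) =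
      ∏ i ∈ Finset.range e, ((p : ℝ) ^ (m - i) - 1) := by
  rw [← GBBM.cast_prod p m e hp.one_lt.le, ← GBBM.cast_prod' p e hp.one_lt.le, ← Nat.cast_mul,
    (hGBF p m e hp).1 h]

theorem sum_A (m e : ℕ) (h : e ≤ m) :
    2 * (∑ i ∈ Finset.range e, (m - i)) + e * e = 2 * (e * m) + e := by
  induction e with
  | zero => simp
  | succ e ih =>
    have ih := ih (by omega)
    rw [Finset.sum_range_succ]
    obtain ⟨c, rfl⟩ : ∃ c, m = e + c := ⟨m - e, by omega⟩
    rw [Nat.add_sub_cancel_left]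
    nlinarith

theorem sum_B (e : ℕ) : 2 * (∑ i ∈ Finset.range e, (i + 2)) = e * e + 3 * e := by
  induction e with
  | zero => simp
  | succ e ih =>
    rw [Finset.sum_range_succ]
    nlinarith

theorem sum_C (d : ℕ) : (∑ i ∈ Finset.range d, i) + ∑ i ∈ Finset.range d, (i + 2) = d * (d + 1) := by
  induction d with
  | zero => simp
  | succ e ih =>
    rw [Finset.sum_range_succ, Finset.sum_range_succ]
    nlinarith

theorem tri (d : ℕ) : 2 * (d * (d + 1) / 2) = d * (d + 1) :=
  Nat.mul_div_cancel' (Nat.even_mul_succ_self d).two_dvd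

/-- the arithmetic of the exponents -/
theorem arith {n d : ℕ} (hn : 100 ≤ n) (h1 : 300 * d ≤ 201 * n) (h2 : 199 * n ≤ 300 * d) :
    n - d ≤ d * (d + 1) / 2 ∧
    (∑ i ∈ Finset.range (n - d), (i + 2)) +
      ((∑ i ∈ Finset.range d, i) + ∑ i ∈ Finset.range d, (i + 2)) + n ^ 3 / 20 ≤
      ∑ i ∈ Finset.range (n - d), (d * (d + 1) / 2 - i) := by
  obtain ⟨e, rfl⟩ : ∃ e, n = d + e := ⟨n - d, by omega⟩
  rw [Nat.add_sub_cancel_left, sum_C]
  have ht := tri d
  set m := d * (d + 1) / 2 with hm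
  have hd : 60 ≤ d := by omega
  have hem : e ≤ m := by nlinarith
  refine ⟨hem, ?_⟩
  have hA := sum_A m e hem
  have hB := sum_B e
  set A := ∑ i ∈ Finset.range e, (m - i)
  set B := ∑ i ∈ Finset.range e, (i + 2)
  have h3 : 20 * ((d + e) ^ 3 / 20) ≤ (d + e) ^ 3 := Nat.mul_div_le _ _
  set N := (d + e) ^ 3 / 20
  -- 2 * A = e * d * (d + 1) - e * e + e
  have h4 : 2 * A + e * e = e * (d * (d + 1)) + e := by rw [hA, ← ht]; ring
  suffices h : 20 * (B + d * (d + 1)) + (d + e) ^ 3 ≤ 20 * A by omega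
  suffices h : 10 * (e * e + 3 * e) + 20 * (d * (d + 1)) + (d + e) ^ 3 + 10 * (e * e) ≤
      10 * (e * (d * (d + 1))) + 10 * e by nlinarith
  have h5 : 199 * (d + e) ≤ 300 * d := by omega
  have h6 : 99 * (d + e) ≤ 300 * e := by omega
  have h7 : (d + e) ^ 3 ≤ 7 * (e * (d * d)) := by
    have h8 : (199 * (d + e)) * (199 * (d + e)) ≤ (300 * d) * (300 * d) := Nat.mul_le_mul h5 h5
    have h9 := Nat.mul_le_mul h8 h6
    have h10 : 199 * (d + e) * (199 * (d + e)) * (99 * (d + e)) = 3920499 * (d + e) ^ 3 := by ring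
    have h11 : 300 * d * (300 * d) * (300 * e) = 27000000 * (e * (d * d)) := by ring
    rw [h10, h11] at h9
    omega
  have hed : e ≤ d := by omega
  have hde : d ≤ 3 * e := by omega
  have h12 : e * e ≤ e * d := Nat.mul_le_mul_left _ hed
  have h13 : d * d ≤ 3 * e * d := Nat.mul_le_mul_right _ hde
  have h14 : e * d * 60 ≤ e * d * d := Nat.mul_le_mul_left _ hd
  have h15 : e ≤ e * d := Nat.le_mul_of_pos_right _ (by omega)
  have h16 : d ≤ e * d := Nat.le_mul_of_pos_left _ (by omega)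
  have h17 : e * (d * (d + 1)) = e * d * d + e * d := by ring
  have h18 : e * (d * d) = e * d * d := by ring
  have h19 : d * (d + 1) = d * d + d := by ring
  have h20 : 3 * e * d = 3 * (e * d) := by ring
  rw [h17, h19]
  rw [h18] at h7
  rw [h20] at h13
  omega

end MONM

open MONM in
theorem specMON (hGBF : SpecGBF) : SpecMON := by
  refine ⟨100, fun n hn p q hp hq hpq d hd => ?_⟩
  unfold near at hd
  rw [Finset.mem_filter] at hd
  obtain ⟨he, hex⟩ := arith hn hd.2.1 hd.2.2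
  have hy : (2 : ℝ) ≤ p := by exact_mod_cast hp.two_le
  have hxy : (p : ℝ) ≤ q := by exact_mod_cast hpq.le
  have hy0 : (0 : ℝ) < p := by linarith
  have hr : 1 ≤ (q : ℝ) / p := by rw [le_div_iff₀ hy0]; linarith
  have hr0 : 0 < (q : ℝ) / p := by linarith
  unfold mass
  set m := d * (d + 1) / 2
  set e := n - d
  set A := ∑ i ∈ Finset.range e, (m - i)
  set B := ∑ i ∈ Finset.range e, (i + 2)
  set C1 := ∑ i ∈ Finset.range d, i
  set C2 := ∑ i ∈ Finset.range d, (i + 2)
  have hD : ∀ (z : ℝ) (e : ℕ), 2 ≤ z → 0 < ∏ i ∈ Finset.range e, (z ^ (i + 1) - 1) := by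
    intro z e hz
    refine Finset.prod_pos fun i _ => ?_
    have : (1 : ℝ) < z ^ (i + 1) := one_lt_pow₀ (by linarith) (by omega)
    linarith
  -- the Gaussian binomials
  have h1 : ((q : ℝ) / p) ^ A * (gb p m e : ℝ) ≤ (gb q m e : ℝ) * ((q : ℝ) / p) ^ B := by
    have h2 : (((q : ℝ) / p) ^ A * (gb p m e : ℝ)) * ∏ i ∈ Finset.range e, ((p : ℝ) ^ (i + 1) - 1) ≤
        ((gb q m e : ℝ) * ((q : ℝ) / p) ^ B) * ∏ i ∈ Finset.range e, ((p : ℝ) ^ (i + 1) - 1) := by
      calc (((q : ℝ) / p) ^ A * (gb p m e : ℝ)) * ∏ i ∈ Finset.range e, ((p : ℝ) ^ (i + 1) - 1)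
          = ((q : ℝ) / p) ^ A * ∏ i ∈ Finset.range e, ((p : ℝ) ^ (m - i) - 1) := by
            rw [mul_assoc, gb_mul hGBF hp he]
        _ ≤ ∏ i ∈ Finset.range e, ((q : ℝ) ^ (m - i) - 1) := prod_lower hy hxy m e
        _ = (gb q m e : ℝ) * ∏ i ∈ Finset.range e, ((q : ℝ) ^ (i + 1) - 1) :=
            (gb_mul hGBF hq he).symm
        _ ≤ (gb q m e : ℝ) * (((q : ℝ) / p) ^ B * ∏ i ∈ Finset.range e, ((p : ℝ) ^ (i + 1) - 1)) :=
            mul_le_mul_of_nonneg_left (prod_upper hy hxy e) (Nat.cast_nonneg _)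
        _ = _ := by ring
    exact le_of_mul_le_mul_right h2 (hD _ _ hy)
  have h3 : (Nat.card (GLp q d) : ℝ) ≤ ((q : ℝ) / p) ^ (C1 + C2) * (Nat.card (GLp p d) : ℝ) := by
    rw [card_GL hq, card_GL hp, pow_prod (x := (q : ℝ)) hy d]
    have h4 := prod_upper hy hxy d
    have h5 : 0 ≤ ((q : ℝ) / p) ^ C1 * ∏ i ∈ Finset.range d, (p : ℝ) ^ i :=
      mul_nonneg (pow_nonneg hr0.le _) (Finset.prod_nonneg fun i _ => pow_nonneg hy0.le _)
    calc _ ≤ (((q : ℝ) / p) ^ C1 * ∏ i ∈ Finset.range d, (p : ℝ) ^ i) *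
          (((q : ℝ) / p) ^ C2 * ∏ i ∈ Finset.range d, ((p : ℝ) ^ (i + 1) - 1)) :=
          mul_le_mul_of_nonneg_left h4 h5
      _ = _ := by rw [pow_add]; ring
  have hGp : (0 : ℝ) < Nat.card (GLp p d) := by
    rw [card_GL hp]
    exact mul_pos (Finset.prod_pos fun i _ => pow_pos hy0 _) (hD _ _ hy)
  have hGq : (0 : ℝ) < Nat.card (GLp q d) := by
    rw [card_GL hq]
    exact mul_pos (Finset.prod_pos fun i _ => pow_pos (by linarith) _) (hD _ _ (by linarith))
  rw [← mul_div_assoc, div_le_div_iff₀ hGp hGq]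
  have hBpos : 0 < ((q : ℝ) / p) ^ B := pow_pos hr0 _
  have h6 : (((q : ℝ) / p) ^ (n ^ 3 / 20) * (gb p m e : ℝ) * (Nat.card (GLp q d) : ℝ)) *
      ((q : ℝ) / p) ^ B ≤ ((gb q m e : ℝ) * (Nat.card (GLp p d) : ℝ)) * ((q : ℝ) / p) ^ B := by
    calc (((q : ℝ) / p) ^ (n ^ 3 / 20) * (gb p m e : ℝ) * (Nat.card (GLp q d) : ℝ)) *
          ((q : ℝ) / p) ^ B
        ≤ (((q : ℝ) / p) ^ (n ^ 3 / 20) * (gb p m e : ℝ) *
          (((q : ℝ) / p) ^ (C1 + C2) * (Nat.card (GLp p d) : ℝ))) * ((q : ℝ) / p) ^ B := by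
          refine mul_le_mul_of_nonneg_right (mul_le_mul_of_nonneg_left h3 ?_) hBpos.le
          exact mul_nonneg (pow_nonneg hr0.le _) (Nat.cast_nonneg _)
      _ = (((q : ℝ) / p) ^ (B + (C1 + C2) + n ^ 3 / 20) * (gb p m e : ℝ)) *
          (Nat.card (GLp p d) : ℝ) := by rw [pow_add, pow_add]; ring
      _ ≤ (((q : ℝ) / p) ^ A * (gb p m e : ℝ)) * (Nat.card (GLp p d) : ℝ) := by
          refine mul_le_mul_of_nonneg_right (mul_le_mul_of_nonneg_right ?_ (Nat.cast_nonneg _))
            hGp.le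
          exact pow_le_pow_right₀ hr hex
      _ ≤ ((gb q m e : ℝ) * ((q : ℝ) / p) ^ B) * (Nat.card (GLp p d) : ℝ) :=
          mul_le_mul_of_nonneg_right h1 hGp.le
      _ = _ := by ring
  exact le_of_mul_le_mul_right h6 hBpos

end Pool.Agent.Lib.MP4ccb00
end

section
/-!
# MP_4ccb00_al, module SML: few matrices have small rank after subtracting a scalar
-/
set_option autoImplicit false

namespace Pool.Agent.Lib.MP4ccb00.SMLM

open Module

/-- a subspace of dimension at most `k` lies in the span of `k` vectors -/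
theorem exists_span {K V : Type} [Field K] [AddCommGroup V] [Module K V] (k : ℕ)
    (W : Submodule K V) [Module.Finite K W] (h : finrank K W ≤ k) :
    ∃ v : Fin k → V, W ≤ Submodule.span K (Set.range v) := by
  let b := Module.finBasis K W
  refine ⟨fun i => if h : (i : ℕ) < finrank K W then (b ⟨i, h⟩ : V) else 0, ?_⟩
  intro x hx
  have hb : (⟨x, hx⟩ : W) = ∑ i, b.repr ⟨x, hx⟩ i • b i := (b.sum_repr _).symm
  have hx' : x = ∑ i, b.repr ⟨x, hx⟩ i • (b i : V) := by
    have := congrArg (Submodule.subtype W) hb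
    rw [map_sum] at this
    exact this
  rw [hx']
  refine Submodule.sum_mem _ fun i _ => Submodule.smul_mem _ _ (Submodule.subset_span ?_)
  refine ⟨⟨i, lt_of_lt_of_le i.2 h⟩, ?_⟩
  simp

/-- rank factorization -/
theorem exists_mul {K : Type} [Field K] {d k : ℕ} (M : Matrix (Fin d) (Fin d) K)
    (h : M.rank ≤ k) : ∃ (A : Matrix (Fin d) (Fin k) K) (B : Matrix (Fin k) (Fin d) K),
      M = A * B := by
  obtain ⟨v, hv⟩ := exists_span k (LinearMap.range M.mulVecLin) h
  have hc : ∀ i : Fin d, ∃ c : Fin k → K, ∑ l, c l • v l = fun j => M j i := by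
    intro i
    apply (Submodule.mem_span_range_iff_exists_fun K).1
    apply hv
    refine ⟨Pi.single i 1, ?_⟩
    rw [Matrix.mulVecLin_apply, Matrix.mulVec_single_one]
    rfl
  choose c hc using hc
  refine ⟨Matrix.of fun j l => v l j, Matrix.of fun l i => c i l, ?_⟩
  ext j i
  rw [Matrix.mul_apply]
  have := congrFun (hc i) j
  rw [Finset.sum_apply] at this
  rw [← this]
  refine Finset.sum_congr rfl fun l _ => ?_
  rw [Pi.smul_apply, smul_eq_mul, mul_comm, Matrix.of_apply, Matrix.of_apply]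

end Pool.Agent.Lib.MP4ccb00.SMLM

namespace Pool.Agent.Lib.MP4ccb00

open Module SMLM

theorem specSML : SpecSML := by
  intro p d hp
  have : Fact p.Prime := ⟨hp⟩
  classical
  have hex : ∀ g : {g : GLp p d // ∃ a : ZMod p,
      ((g : Matrix (Fin d) (Fin d) (ZMod p)) - Matrix.scalar (Fin d) a).rank ≤ 4},
      ∃ x : ZMod p × Matrix (Fin d) (Fin 4) (ZMod p) × Matrix (Fin 4) (Fin d) (ZMod p),
        (g.1 : Matrix (Fin d) (Fin d) (ZMod p)) = Matrix.scalar (Fin d) x.1 + x.2.1 * x.2.2 := by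
    rintro ⟨g, a, ha⟩
    obtain ⟨A, B, hAB⟩ := exists_mul _ ha
    exact ⟨(a, A, B), by rw [← hAB]; abel⟩
  choose f hf using hex
  have hinj : Function.Injective f := by
    intro g g' h
    apply Subtype.ext
    apply Units.ext
    rw [hf g, hf g', h]
  have h1 := Nat.card_le_card_of_injective f hinj
  refine h1.trans (le_of_eq ?_)
  rw [Nat.card_prod, Nat.card_prod]
  have h2 : ∀ m n : ℕ, Nat.card (Matrix (Fin m) (Fin n) (ZMod p)) = p ^ (m * n) := by
    intro m n
    show Nat.card (Fin m → Fin n → ZMod p) = _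
    rw [Nat.card_eq_fintype_card, Fintype.card_fun, Fintype.card_fun, ZMod.card, Fintype.card_fin,
      Fintype.card_fin, ← pow_mul, mul_comm n m]
  rw [h2, h2, Nat.card_eq_fintype_card, ZMod.card, ← pow_add, ← pow_succ']
  congr 1
  ring

end Pool.Agent.Lib.MP4ccb00
end

section
set_option autoImplicit false

namespace Pool.Agent.Lib.MP4ccb00.XFINM

open Subgroup

theorem fin_hom (d N : ℕ) : Finite (FG d →* Equiv.Perm (Fin N)) := by
  refine Finite.of_injective (fun f : FG d →* Equiv.Perm (Fin N) => fun i : Fin d => f (FreeGroup.of i)) ?_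
  intro f g h
  refine FreeGroup.ext_hom _ _ fun i => ?_
  exact congrFun h i

end Pool.Agent.Lib.MP4ccb00.XFINM

namespace Pool.Agent.Lib.MP4ccb00

open Subgroup

theorem specXFIN : SpecXFIN := by
  intro p d n hp
  have hN : 0 < p ^ n := pow_pos hp.pos n
  haveI := XFINM.fin_hom d (p ^ n)
  refine Set.Finite.subset (Set.finite_range (fun f : FG d →* Equiv.Perm (Fin (p ^ n)) => f.ker)) ?_
  rintro R ⟨hR, -, hidx⟩
  haveI : R.Normal := hR
  have hc : Nat.card (FG d ⧸ R) = p ^ n := hidx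
  haveI : Finite (FG d ⧸ R) := Nat.finite_of_card_ne_zero (by rw [hc]; exact hN.ne')
  let e : (FG d ⧸ R) ≃ Fin (p ^ n) := Finite.equivFinOfCardEq hc
  refine ⟨(e.permCongrHom.toMonoidHom).comp (MulAction.toPermHom (FG d) (FG d ⧸ R)), ?_⟩
  ext x
  rw [MonoidHom.mem_ker, MonoidHom.comp_apply]
  have : (e.permCongrHom.toMonoidHom (MulAction.toPermHom (FG d) (FG d ⧸ R) x) = 1) ↔
      (MulAction.toPermHom (FG d) (FG d ⧸ R) x = 1) := by
    constructor
    · intro h
      apply e.permCongrHom.injective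
      rw [map_one]
      exact h
    · intro h
      rw [h, map_one]
  rw [this]
  constructor
  · intro h
    have h1 := Equiv.congr_fun h (QuotientGroup.mk (1 : FG d))
    have h2 : (QuotientGroup.mk (x * 1) : FG d ⧸ R) = QuotientGroup.mk 1 := h1
    rw [mul_one, QuotientGroup.eq] at h2
    simpa using h2
  · intro hx
    ext q
    induction q using QuotientGroup.induction_on with
    | H z =>
      show (QuotientGroup.mk (x * z) : FG d ⧸ R) = QuotientGroup.mk z
      rw [QuotientGroup.eq]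
      have := hR.conj_mem _ (R.inv_mem hx) z⁻¹
      simpa [mul_assoc] using this

end Pool.Agent.Lib.MP4ccb00
end

section
/-!
# MP_4ccb00_al, part N, module NTR: classes with nontrivial `ImA`
-/
set_option autoImplicit false

namespace Pool.Agent.Lib.MP4ccb00.N

open Subgroup Module E

namespace NTRM

theorem fin_pairs (p d n : ℕ) (hp : p.Prime) (Q : Set (Subgroup (FG d))) (hQ : Q ⊆ X p d n)
    (P : Subgroup (FG d) × GLp p d → Prop) :
    {x : Subgroup (FG d) × GLp p d | x.1 ∈ Q ∧ P x}.Finite := by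
  haveI : Fact p.Prime := ⟨hp⟩
  have h1 : Q.Finite := (specXFIN p d n hp).subset hQ
  have h2 : (Set.univ : Set (GLp p d)).Finite := Set.finite_univ
  exact (h1.prod h2).subset (fun x hx => ⟨hx.1, trivial⟩)

end NTRM

open NTRM in
theorem specNTR (hBUR : SpecBUR) : SpecNTR := by
  intro p d n hp Q hQ hne
  haveI : Fact p.Prime := ⟨hp⟩
  refine (hBUR p d n hp Q hQ.1 hQ.2).trans ?_
  set A : Set (Subgroup (FG d) × GLp p d) := {x | x.1 ∈ Q ∧ x.2 ≠ 1 ∧ x.2 ∈ ImA p x.1} with hA
  have hAfin : A.Finite := fin_pairs p d n hp Q hQ.1 (fun x => x.2 ≠ 1 ∧ x.2 ∈ ImA p x.1)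
  have hQA : Q.ncard ≤ A.ncard := by
    have hch : ∀ R : Subgroup (FG d), ∃ g : GLp p d, R ∈ Q → g ∈ ImA p R ∧ g ≠ 1 := by
      intro R
      by_cases hR : R ∈ Q
      · obtain ⟨g, hg, hg1⟩ := hne R hR
        exact ⟨g, fun _ => ⟨hg, hg1⟩⟩
      · exact ⟨1, fun h => absurd h hR⟩
    choose g hg using hch
    refine Set.ncard_le_ncard_of_injOn (fun R => (R, g R)) ?_ ?_ hAfin
    · intro R hR
      exact ⟨hR, (hg R hR).2, (hg R hR).1⟩
    · intro R _ R' _ h
      exact congrArg Prod.fst h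
  have hsub : {x : Subgroup (FG d) × GLp p d | x.1 ∈ Q ∧ x.2 ∈ ImA p x.1} ⊆
      A ∪ (fun R : Subgroup (FG d) => (R, (1 : GLp p d))) '' Q := by
    rintro ⟨R, g⟩ ⟨hR, hg⟩
    by_cases h1 : g = 1
    · subst h1
      exact Or.inr ⟨R, hR, rfl⟩
    · exact Or.inl ⟨hR, h1, hg⟩
  have hQfin : Q.Finite := (specXFIN p d n hp).subset hQ.1
  calc {x : Subgroup (FG d) × GLp p d | x.1 ∈ Q ∧ x.2 ∈ ImA p x.1}.ncard
      ≤ (A ∪ (fun R : Subgroup (FG d) => (R, (1 : GLp p d))) '' Q).ncard :=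
        Set.ncard_le_ncard hsub (hAfin.union (hQfin.image _))
    _ ≤ A.ncard + ((fun R : Subgroup (FG d) => (R, (1 : GLp p d))) '' Q).ncard :=
        Set.ncard_union_le _ _
    _ ≤ A.ncard + Q.ncard := Nat.add_le_add_left (Set.ncard_image_le hQfin) _
    _ ≤ 2 * A.ncard := by omega

end Pool.Agent.Lib.MP4ccb00.N
end

section
/-!
# MP_4ccb00_al, part N, module FXG: from `FIX` to good groups
-/
set_option autoImplicit false

namespace Pool.Agent.Lib.MP4ccb00.N

open Subgroup Module E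

open NTRM in
theorem specFXG (hFIX : SpecFIX) (hGOO : SpecGOO) : SpecFXG := by
  obtain ⟨n0, h0⟩ := hFIX
  refine ⟨n0, ?_⟩
  intro n hn p hp d e h1 h2 h3 h4
  haveI : Fact p.Prime := ⟨hp⟩
  refine le_trans ?_ (h0 n hn p hp d e h1 h2 h3 h4)
  refine Nat.mul_le_mul_right _ ?_
  obtain ⟨g1, g2, g3, g4⟩ := hGOO p d (d + e) hp (Nat.le_add_right _ _)
  rw [Nat.add_sub_cancel_left] at g1 g3
  set A : Set (Subgroup (FG d) × GLp p d) :=
    {x | x.1 ∈ Good p d (d + e) ∧ x.2 ≠ 1 ∧ x.2 ∈ ImA p x.1} with hA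
  have hAfin : A.Finite := fin_pairs p d (d + e) hp (Good p d (d + e)) (fun R hR => hR.1)
    (fun x => x.2 ≠ 1 ∧ x.2 ∈ ImA p x.1)
  let B := {x : GLp p d × Submodule (ZMod p) (FG d → ZMod p) // x.1 ≠ 1 ∧ x.2 ≤ Ms p d ∧
    finrank (ZMod p) x.2 = e ∧
    x.2.map (pull p (can p (x.1 : Matrix (Fin d) (Fin d) (ZMod p)))) ≤ x.2}
  let Φ : A → B := fun x => ⟨(x.1.2, YY p ⊤ (Phi p ⊤) x.1.1), x.2.2.1, CNTM.YY_le p d x.1.1,
    g1 x.1.1 x.2.1, (g4 x.1.1 x.2.1 x.1.2).1 x.2.2.2⟩
  have hinj : Function.Injective Φ := by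
    rintro ⟨⟨R, g⟩, hR⟩ ⟨⟨R', g'⟩, hR'⟩ h
    have h5 := congrArg Subtype.val h
    have h6 : g = g' := congrArg Prod.fst h5
    have h7 : YY p ⊤ (Phi p ⊤) R = YY p ⊤ (Phi p ⊤) R' := congrArg Prod.snd h5
    have h8 : R = R' := g2 R hR.1 R' hR'.1 h7
    subst h6
    subst h8
    rfl
  have hsurj : Function.Surjective Φ := by
    rintro ⟨⟨g, W⟩, k1, k2, k3, k4⟩
    obtain ⟨R, hR, hRW⟩ := g3 W k2 k3
    have hg : g ∈ ImA p R := by
      rw [g4 R hR g, hRW]
      exact k4
    refine ⟨⟨(R, g), hR, k1, hg⟩, ?_⟩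
    apply Subtype.ext
    exact Prod.ext rfl hRW
  rw [← Nat.card_coe_set_eq, Nat.card_congr (Equiv.ofBijective Φ ⟨hinj, hsurj⟩)]

end Pool.Agent.Lib.MP4ccb00.N
end

section
/-!
# MP_4ccb00_al, part N, module MGD: the good groups
-/
set_option autoImplicit false

namespace Pool.Agent.Lib.MP4ccb00.N

open Subgroup Module E

open NTRM in
theorem specMGD (hBUR : SpecBUR) (hFXG : SpecFXG) (hCNT : SpecCNT) (hEQV : SpecEQV)
    (hGBB : SpecGBB) : SpecMGD := by
  obtain ⟨n0, h0⟩ := hFXG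
  refine ⟨n0, ?_⟩
  intro n hn p hp d hd
  haveI : Fact p.Prime := ⟨hp⟩
  unfold near at hd
  rw [Finset.mem_filter, Finset.mem_range] at hd
  obtain ⟨hdn, hd1, hd2⟩ := hd
  obtain ⟨e, rfl⟩ : ∃ e, n = d + e := ⟨n - d, by omega⟩
  have hX := h0 (d + e) hn p hp d e hd1 hd2 (by omega) (by omega)
  obtain ⟨-, -, -, hsat, -⟩ := hEQV p d (d + e) hp
  have hB := hBUR p d (d + e) hp (Good p d (d + e)) (fun R hR => hR.1) hsat
  have hC := hCNT p d (d + e) hp (Nat.le_add_right _ _)
  rw [Nat.add_sub_cancel_left] at hC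
  have hem : e ≤ d * (d + 1) / 2 := by
    have h1 : e ≤ d := by omega
    refine h1.trans ?_
    rw [Nat.le_div_iff_mul_le (by norm_num)]
    rcases Nat.eq_zero_or_pos d with h | h
    · subst h
      simp
    · nlinarith
  obtain ⟨hG, -⟩ := hGBB p (d * (d + 1) / 2) e hp hem
  set A : Set (Subgroup (FG d) × GLp p d) :=
    {x | x.1 ∈ Good p d (d + e) ∧ x.2 ≠ 1 ∧ x.2 ∈ ImA p x.1} with hA
  have hAfin : A.Finite := fin_pairs p d (d + e) hp (Good p d (d + e)) (fun R hR => hR.1)
    (fun x => x.2 ≠ 1 ∧ x.2 ∈ ImA p x.1)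
  have hGfin : (Good p d (d + e)).Finite :=
    (specXFIN p d (d + e) hp).subset (fun R hR => hR.1)
  have hsub : {x : Subgroup (FG d) × GLp p d | x.1 ∈ Good p d (d + e) ∧ x.2 ∈ ImA p x.1} ⊆
      A ∪ (fun R : Subgroup (FG d) => (R, (1 : GLp p d))) '' (Good p d (d + e)) := by
    rintro ⟨R, g⟩ ⟨hR, hg⟩
    by_cases h1 : g = 1
    · subst h1
      exact Or.inr ⟨R, hR, rfl⟩
    · exact Or.inl ⟨hR, h1, hg⟩
  have hcard : {x : Subgroup (FG d) × GLp p d | x.1 ∈ Good p d (d + e) ∧
      x.2 ∈ ImA p x.1}.ncard ≤ A.ncard + (Good p d (d + e)).ncard :=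
    calc {x : Subgroup (FG d) × GLp p d | x.1 ∈ Good p d (d + e) ∧ x.2 ∈ ImA p x.1}.ncard
        ≤ (A ∪ (fun R : Subgroup (FG d) => (R, (1 : GLp p d))) '' (Good p d (d + e))).ncard :=
          Set.ncard_le_ncard hsub (hAfin.union (hGfin.image _))
      _ ≤ A.ncard +
            ((fun R : Subgroup (FG d) => (R, (1 : GLp p d))) '' (Good p d (d + e))).ncard :=
          Set.ncard_union_le _ _
      _ ≤ A.ncard + (Good p d (d + e)).ncard :=
          Nat.add_le_add_left (Set.ncard_image_le hGfin) _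
  rw [hC] at hcard
  have hmain := hB.trans hcard
  have hA2 : A.ncard * p ^ ((d + e) ^ 2 / 20) ≤ gb p (d * (d + 1) / 2) e := hX.trans hG
  -- real arithmetic
  have hGL : (0 : ℝ) < (Nat.card (GLp p d) : ℝ) := by
    exact_mod_cast Nat.card_pos
  have hpp : (0 : ℝ) < (p : ℝ) ^ ((d + e) ^ 2 / 20) := by
    have : (0 : ℝ) < p := by exact_mod_cast hp.pos
    positivity
  unfold mass
  rw [Nat.add_sub_cancel_left]
  have h1 : (ncl (Good p d (d + e)) : ℝ) * (Nat.card (GLp p d) : ℝ) ≤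
      (A.ncard : ℝ) + (gb p (d * (d + 1) / 2) e : ℝ) := by exact_mod_cast hmain
  have h2 : (A.ncard : ℝ) * (p : ℝ) ^ ((d + e) ^ 2 / 20) ≤ (gb p (d * (d + 1) / 2) e : ℝ) := by
    exact_mod_cast hA2
  have h3 : (A.ncard : ℝ) ≤ (gb p (d * (d + 1) / 2) e : ℝ) / (p : ℝ) ^ ((d + e) ^ 2 / 20) := by
    rw [le_div_iff₀ hpp]
    exact h2
  rw [← mul_div_assoc, le_div_iff₀ hGL]
  calc (ncl (Good p d (d + e)) : ℝ) * (Nat.card (GLp p d) : ℝ)
      ≤ (A.ncard : ℝ) + (gb p (d * (d + 1) / 2) e : ℝ) := h1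
    _ ≤ (gb p (d * (d + 1) / 2) e : ℝ) / (p : ℝ) ^ ((d + e) ^ 2 / 20) +
        (gb p (d * (d + 1) / 2) e : ℝ) := by linarith
    _ = (1 + 1 / (p : ℝ) ^ ((d + e) ^ 2 / 20)) * (gb p (d * (d + 1) / 2) e : ℝ) := by ring

end Pool.Agent.Lib.MP4ccb00.N
end

section
/-!
# MP_4ccb00_al, part (d), module REP
-/
set_option autoImplicit false

namespace Pool.Agent.Lib.MP4ccb00.N

open Subgroup Module E

/-- Representatives of classes. -/
theorem specREP (hXFIN : SpecXFIN) : SpecREP := by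
  intro p d n hp C P hC h
  have hfin : {R | R ∈ C ∧ R ∈ P}.Finite :=
    (hXFIN p d n hp).subset (fun R hR => hC.1 hR.1)
  have : Finite {R | R ∈ C ∧ R ∈ P} := hfin
  rw [← Nat.card_coe_set_eq]
  refine Nat.card_le_card_of_surjective
    (fun x : {R | R ∈ C ∧ R ∈ P} => Quot.mk (fun R R' : C => Rel R.1 R'.1) ⟨x.1, x.2.1⟩) ?_
  intro q
  induction q using Quot.ind with
  | mk R =>
    obtain ⟨R', hP, hC', hr⟩ := h R.1 R.2
    exact ⟨⟨R', hC', hP⟩, Quot.sound hr⟩

end Pool.Agent.Lib.MP4ccb00.N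
end

section
/-!
# MP_4ccb00_al, part (d), module TRI
-/
set_option autoImplicit false

namespace Pool.Agent.Lib.MP4ccb00.N

open Subgroup Module E

/-- Groups without automorphisms acting on `F/Phi`. -/
theorem specTRI (hTWI : SpecTWI) (hSPT : SpecSPT) (hGLV : SpecGLV) (hXFIN : SpecXFIN)
    (hEQV : SpecEQV) : SpecTRI := by
  intro p d n k s hp hk hns hsd C hC hRC
  have hpf : Fact p.Prime := ⟨hp⟩
  classical
  have hCfin : C.Finite := (hXFIN p d n hp).subset hC.1
  have : Finite C := hCfin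
  have hSfin : {R | R ∈ C ∧ Spl (gen (xg d s)) R}.Finite := hCfin.subset (fun R hR => hR.1)
  have : Finite {R | R ∈ C ∧ Spl (gen (xg d s)) R} := hSfin
  let Q := Quot (fun R R' : C => Rel R.1 R'.1)
  have : Finite Q := Finite.of_surjective (Quot.mk _) Quot.mk_surjective
  have := Fintype.ofFinite Q
  let r : Q → C := Quot.out
  have hr : ∀ q, Quot.mk _ (r q) = q := Quot.out_eq
  have hv : ∀ q : Q, ∃ v : Fin s → (Fin d → ZMod p), LinearIndependent (ZMod p) v ∧
    ∀ g : GLp p d, (∀ (i : Fin s) (h : i.1 < d),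
      (g : Matrix (Fin d) (Fin d) (ZMod p)) ⟨i.1, h⟩ = v i) →
      Spl (gen (xg d s)) (tw p g (r q).1) := fun q =>
    hSPT p d n k s hp hk hns hsd _ (hC.1 (r q).2) (hRC _ (r q).2).1
  choose v hli hspl using hv
  let G : Q → Type := fun q => {g : GLp p d // ∀ (i : Fin s) (h : i.1 < d),
    (g : Matrix (Fin d) (Fin d) (ZMod p)) ⟨i.1, h⟩ = v q i}
  have hin : ∀ (q : Q) (g : GLp p d), tw p g (r q).1 ∈ C ∧ Rel (tw p g (r q).1) (r q).1 := by
    intro q g
    obtain ⟨h1, h2, -⟩ := hTWI p d n hp _ (hC.1 (r q).2) g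
    have h3 : Rel (r q).1 (tw p g (r q).1) :=
      (hEQV p d n hp).2.1 _ h1 _ (hC.1 (r q).2) h2
    exact ⟨hC.2 _ (r q).2 _ h1 h3, h2⟩
  let Φ : (Σ q : Q, G q) → {R | R ∈ C ∧ Spl (gen (xg d s)) R} := fun x =>
    ⟨tw p x.2.1 (r x.1).1, (hin x.1 x.2.1).1, hspl x.1 x.2.1 x.2.2⟩
  have hΦ : Function.Injective Φ := by
    rintro ⟨q, g, hg⟩ ⟨q', g', hg'⟩ hgg
    have h1 : tw p g (r q).1 = tw p g' (r q').1 := congrArg Subtype.val hgg
    have h2 : ∀ (q : Q) (g : GLp p d),
        (Quot.mk _ ⟨tw p g (r q).1, (hin q g).1⟩ : Q) = q := by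
      intro q g
      rw [← hr q]
      have h3 : (Quot.mk _ ⟨tw p g (r (Quot.mk _ (r q))).1, (hin (Quot.mk _ (r q)) g).1⟩ : Q) =
          Quot.mk _ (r (Quot.mk _ (r q))) := Quot.sound (hin (Quot.mk _ (r q)) g).2
      rw [h3, hr]
    have h4 : q = q' := by
      rw [← h2 q g, ← h2 q' g']
      congr 1
      exact Subtype.ext h1
    subst h4
    have h5 : g⁻¹ * g' ∈ ImA p (r q).1 :=
      (hTWI p d n hp _ (hC.1 (r q).2) g).2.2.2.2.2.1 g' h1
    have h6 : g⁻¹ * g' = 1 := (hRC _ (r q).2).2 h5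
    have h7 : g = g' := inv_mul_eq_one.1 h6
    subst h7
    rfl
  have h1 : Nat.card (Σ q : Q, G q) ≤ Nat.card {R | R ∈ C ∧ Spl (gen (xg d s)) R} :=
    Nat.card_le_card_of_injective Φ hΦ
  rw [Nat.card_coe_set_eq] at h1
  have : ∀ q, Finite (G q) := fun q => inferInstance
  rw [Nat.card_sigma] at h1
  have h2 : ncl C = Fintype.card Q := by
    change Nat.card Q = _
    exact Nat.card_eq_fintype_card
  calc ncl C * Nat.card (GLp p d) = ∑ _q : Q, Nat.card (GLp p d) := by
        rw [Finset.sum_const, Finset.card_univ, smul_eq_mul, h2]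
    _ ≤ ∑ q : Q, p ^ (d * s) * Nat.card (G q) :=
        Finset.sum_le_sum (fun q _ => (hGLV p d s hp hsd (v q) (hli q)).1)
    _ = p ^ (d * s) * ∑ q : Q, Nat.card (G q) := by rw [Finset.mul_sum]
    _ ≤ _ := Nat.mul_le_mul_left _ h1

end Pool.Agent.Lib.MP4ccb00.N
end

section
/-!
# MP_4ccb00_al, part N, module WRD: relators
-/
set_option autoImplicit false

namespace Pool.Agent.Lib.MP4ccb00.N

open Subgroup Module E

open scoped commutatorElement

namespace WRDM

/-- subgroups of a commutative group generated by `t` elements are generated by `t` elements -/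
theorem fin_gen {Q : Type} [CommGroup Q] (t : ℕ) (z : Fin t → Q)
    (hz : Subgroup.closure (Set.range z) = ⊤) (M : Subgroup Q) :
    ∃ w : Fin t → Q, (∀ j, w j ∈ M) ∧ M ≤ Subgroup.closure (Set.range w) := by
  let L : (Fin t → ℤ) →ₗ[ℤ] Additive Q :=
    Fintype.linearCombination ℤ (fun i => Additive.ofMul (z i))
  have hLsingle : ∀ i, L (Pi.single i 1) = Additive.ofMul (z i) := by
    intro i
    simp [L, Fintype.linearCombination_apply_single]
  have hLsurj : ∀ q : Q, ∃ a, L a = Additive.ofMul q := by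
    intro q
    have hq : q ∈ Subgroup.closure (Set.range z) := by rw [hz]; trivial
    induction hq using Subgroup.closure_induction with
    | mem x hx =>
      obtain ⟨i, rfl⟩ := hx
      exact ⟨_, hLsingle i⟩
    | one => exact ⟨0, by rw [map_zero]; rfl⟩
    | mul x y _ _ hx hy =>
      obtain ⟨a, ha⟩ := hx
      obtain ⟨b, hb⟩ := hy
      exact ⟨a + b, by rw [map_add, ha, hb]; rfl⟩
    | inv x _ hx =>
      obtain ⟨a, ha⟩ := hx
      exact ⟨-a, by rw [map_neg, ha]; rfl⟩
  let P : Submodule ℤ (Fin t → ℤ) :=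
    { carrier := {a | Additive.toMul (L a) ∈ M}
      zero_mem' := by
        change Additive.toMul (L 0) ∈ M
        rw [map_zero]
        exact one_mem _
      add_mem' := by
        intro a b ha hb
        change Additive.toMul (L (a + b)) ∈ M
        rw [map_add, toMul_add]
        exact mul_mem ha hb
      smul_mem' := by
        intro c a ha
        change Additive.toMul (L (c • a)) ∈ M
        rw [map_smul, toMul_zsmul]
        exact zpow_mem ha c }
  have hn : Module.finrank ℤ P ≤ t := by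
    have := Submodule.finrank_le P
    simpa using this
  let b := Module.finBasis ℤ P
  let v : Fin t → P := fun i => if h : i.1 < Module.finrank ℤ P then b ⟨i.1, h⟩ else 0
  refine ⟨fun i => Additive.toMul (L (v i).1), fun i => (v i).2, ?_⟩
  intro m hm
  obtain ⟨a, ha⟩ := hLsurj m
  have haP : a ∈ P := by
    change Additive.toMul (L a) ∈ M
    rw [ha]
    exact hm
  have hspan : (⟨a, haP⟩ : P) ∈ Submodule.span ℤ (Set.range v) := by
    have h1 : Set.range b ⊆ Set.range v := by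
      rintro _ ⟨i, rfl⟩
      refine ⟨⟨i.1, lt_of_lt_of_le i.2 hn⟩, ?_⟩
      simp only [v]
      rw [dif_pos i.2]
    have h2 := Submodule.span_mono (R := ℤ) h1
    rw [b.span_eq] at h2
    exact h2 trivial
  have key : ∀ c : P, c ∈ Submodule.span ℤ (Set.range v) →
      Additive.toMul (L c.1) ∈
        Subgroup.closure (Set.range fun i => Additive.toMul (L (v i).1)) := by
    intro c hc
    induction hc using Submodule.span_induction with
    | mem x hx =>
      obtain ⟨i, rfl⟩ := hx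
      exact Subgroup.subset_closure ⟨i, rfl⟩
    | zero =>
      rw [Submodule.coe_zero, map_zero]
      exact one_mem _
    | add x y _ _ hx hy =>
      rw [Submodule.coe_add, map_add, toMul_add]
      exact mul_mem hx hy
    | smul c x _ hx =>
      rw [Submodule.coe_smul, map_smul, toMul_zsmul]
      exact zpow_mem hx c
  have h3 := key ⟨a, haP⟩ hspan
  have h4 : Additive.toMul (L a) = m := by rw [ha]; rfl
  rw [← h4]
  exact h3

end WRDM

open WRDM in
theorem specWRD : SpecWRD := by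
  intro F _ s t x z T hgen hDT
  set N : Subgroup F := gen x ⊔ ⁅(⊤ : Subgroup F), (⊤ : Subgroup F)⁆ with hN
  have hDN : ⁅(⊤ : Subgroup F), (⊤ : Subgroup F)⁆ ≤ N := le_sup_right
  have hNn : N.Normal := by
    constructor
    intro n hn g
    have h1 : g * n * g⁻¹ = ⁅g, n⁆ * n := by
      rw [commutatorElement_def]
      group
    rw [h1]
    exact mul_mem (hDN (Subgroup.commutator_mem_commutator trivial trivial)) hn
  letI : CommGroup (F ⧸ N) :=
    { (inferInstance : Group (F ⧸ N)) with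
      mul_comm := by
        intro a b
        induction a using QuotientGroup.induction_on with | _ a => ?_
        induction b using QuotientGroup.induction_on with | _ b => ?_
        rw [← QuotientGroup.mk_mul, ← QuotientGroup.mk_mul, QuotientGroup.eq]
        apply hDN
        have h1 : (a * b)⁻¹ * (b * a) = ⁅b⁻¹, a⁻¹⁆ := by
          rw [commutatorElement_def]
          group
        rw [h1]
        exact Subgroup.commutator_mem_commutator trivial trivial }
  have hz : Subgroup.closure (Set.range fun i => (QuotientGroup.mk' N (z i) : F ⧸ N)) = ⊤ := by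
    have h1 : (gen z).map (QuotientGroup.mk' N) = ⊤ := by
      have h2 : (gen x ⊔ gen z).map (QuotientGroup.mk' N) = ⊤ := by
        rw [hgen]
        exact Subgroup.map_top_of_surjective _ (QuotientGroup.mk'_surjective N)
      rw [Subgroup.map_sup] at h2
      have h3 : (gen x).map (QuotientGroup.mk' N) = ⊥ := by
        rw [Subgroup.map_eq_bot_iff, QuotientGroup.ker_mk']
        exact le_sup_left
      rwa [h3, bot_sup_eq] at h2
    unfold gen at h1
    rw [MonoidHom.map_closure, ← Set.range_comp] at h1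
    exact h1
  obtain ⟨w', hw', hw''⟩ := fin_gen t _ hz (T.map (QuotientGroup.mk' N))
  have hchoose : ∀ j, ∃ w ∈ T, QuotientGroup.mk' N w = w' j := fun j => hw' j
  choose w hwT hww using hchoose
  refine ⟨w, hwT, le_antisymm ?_ ?_⟩
  · refine sup_le (sup_le le_sup_left (hDT.trans le_sup_right)) ?_
    unfold gen
    rw [Subgroup.closure_le]
    rintro _ ⟨j, rfl⟩
    exact Subgroup.mem_sup_right (hwT j)
  · refine sup_le (le_sup_left.trans le_sup_left) ?_
    intro τ hτ
    have h1 : QuotientGroup.mk' N τ ∈ (gen w).map (QuotientGroup.mk' N) := by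
      have h2 := hw'' ⟨τ, hτ, rfl⟩
      have h3 : Set.range w' = QuotientGroup.mk' N '' Set.range w := by
        rw [← Set.range_comp]
        congr 1
        funext j
        exact (hww j).symm
      rw [h3, ← MonoidHom.map_closure] at h2
      exact h2
    obtain ⟨y, hy, hyτ⟩ := h1
    have h4 : y⁻¹ * τ ∈ N := by
      rw [← QuotientGroup.eq]
      exact hyτ
    have h5 : τ = y * (y⁻¹ * τ) := by group
    rw [h5]
    exact mul_mem (Subgroup.mem_sup_right hy) (Subgroup.mem_sup_left h4)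

end Pool.Agent.Lib.MP4ccb00.N
end

section
/-!
# MP_4ccb00_al, part (d), module XZG
-/
set_option autoImplicit false

namespace Pool.Agent.Lib.MP4ccb00.N

open Subgroup Module E

/-- The generators of `FG d` are the values of `xg` and `zg`. -/
theorem specXZG : SpecXZG := by
  intro d s hs
  rw [eq_top_iff, ← FreeGroup.closure_range_of, Subgroup.closure_le]
  rintro _ ⟨i, rfl⟩
  by_cases hi : i.1 < s
  · apply Subgroup.mem_sup_left
    apply Subgroup.subset_closure
    refine ⟨⟨i.1, hi⟩, ?_⟩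
    simp [xg, i.2]
  · apply Subgroup.mem_sup_right
    apply Subgroup.subset_closure
    refine ⟨⟨i.1 - s, by have := i.2; omega⟩, ?_⟩
    have h1 : s + (i.1 - s) = i.1 := by omega
    simp [zg, h1, i.2]

end Pool.Agent.Lib.MP4ccb00.N
end
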