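import Pool.Agent.Lib.MP_4ccb00_al.N.Spec
import Pool.Agent.Lib.MP_4ccb00_al.N.ND2
import Pool.Agent.Lib.MP_4ccb00_al.N.YFI
import Pool.Agent.Lib.MP_4ccb00_al.N.XZG

section
/-!
Module TWI: twists of marked groups by matrices.
-/
set_option autoImplicit false

namespace Pool.Agent.Lib.MP4ccb00.N

open Subgroup Module E

open scoped commutatorElement

namespace TWIM

/-- Frattini argument -/
theorem frat (p : ℕ) [hp : Fact p.Prime] {F : Type} [Group F] (K : Subgroup F)
    (hK : K ⊔ PhiP p ⊤ = ⊤) :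
    ∀ (m : ℕ) (S : Subgroup F), S.Normal → S.index = p ^ m → K ⊔ S = ⊤ := by
  intro m
  induction m with
  | zero =>
    intro S _ hS
    rw [pow_zero, Subgroup.index_eq_one] at hS
    rw [hS, sup_top_eq]
  | succ m ih =>
    intro S hSn hS
    have hprime : p.Prime := hp.out
    have hSlt : S < ⊤ := by
      rw [lt_top_iff_ne_top]
      intro h
      rw [h, Subgroup.index_top] at hS
      exact absurd hS.symm (Nat.one_lt_pow (by omega) hprime.one_lt).ne'
    obtain ⟨R1, hR1, hSR1, -, hrel⟩ := specBOT p F S ⊤ hSn inferInstance ⟨_, hS⟩ hSlt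
    have hidx : R1.index = p ^ m := by
      have h1 := Subgroup.relIndex_mul_index hSR1.le
      rw [hrel, hS, pow_succ'] at h1
      exact Nat.eq_of_mul_eq_mul_left hprime.pos h1
    have hKR := ih R1 hR1 hidx
    obtain ⟨hpow, hcomm, hcyc⟩ := specCYC p F S R1 hSn hR1 ⟨_, hS⟩ hSR1.le hrel
    by_contra hne
    set M := K ⊔ S with hM
    have hKM : K ≤ M := le_sup_left
    have hSM : S ≤ M := le_sup_right
    -- elements of F
    have hdec : ∀ x : F, ∃ r ∈ R1, ∃ k ∈ K, x = r * k := by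
      intro x
      have hx : x ∈ R1 ⊔ K := by rw [sup_comm, hKR]; exact mem_top _
      rw [Subgroup.mem_sup_of_normal_left] at hx
      obtain ⟨r, hr, k, hk, h⟩ := hx
      exact ⟨r, hr, k, hk, h.symm⟩
    have hcm : ∀ r ∈ R1, ∀ g : F, ⁅r, g⁆ ∈ S := fun r hr g =>
      hcomm (commutator_mem_commutator hr (mem_top _))
    have hMn : M.Normal := by
      constructor
      intro n hn g
      obtain ⟨r, hr, k, hk, rfl⟩ := hdec g
      have h1 : k * n * k⁻¹ ∈ M := mul_mem (mul_mem (hKM hk) hn) (inv_mem (hKM hk))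
      have h2 : r * k * n * (r * k)⁻¹ = ⁅r, k * n * k⁻¹⁆ * (k * n * k⁻¹) := by
        rw [commutatorElement_def]; group
      rw [h2]
      exact mul_mem (hSM (hcm r hr _)) h1
    obtain ⟨z, hz, hzM⟩ : ∃ z ∈ R1, z ∉ M := by
      by_contra hcon
      push Not at hcon
      apply hne
      rw [eq_top_iff, ← hKR]
      exact sup_le hKM hcon
    have hzS : z ∉ S := fun h => hzM (hSM h)
    have hgen : ∀ x : F, ∃ i : ℕ, (z ^ i)⁻¹ * x ∈ M := by
      intro x
      obtain ⟨r, hr, k, hk, rfl⟩ := hdec x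
      obtain ⟨i, hi⟩ := hcyc z hz hzS r hr
      refine ⟨i, ?_⟩
      rw [← mul_assoc]
      exact mul_mem (hSM hi) (hKM hk)
    apply hne
    rw [eq_top_iff, ← hK]
    refine sup_le hKM ?_
    refine sup_le ?_ ?_
    · rw [commutator_le]
      intro a _ b _
      obtain ⟨i, hi⟩ := hgen a
      obtain ⟨j, hj⟩ := hgen b
      rw [← QuotientGroup.eq_one_iff (N := M)]
      have ha : (a : F ⧸ M) = (z : F ⧸ M) ^ i := by
        rw [← QuotientGroup.mk_pow]
        exact (QuotientGroup.eq.2 hi).symm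
      have hb : (b : F ⧸ M) = (z : F ⧸ M) ^ j := by
        rw [← QuotientGroup.mk_pow]
        exact (QuotientGroup.eq.2 hj).symm
      have : ((⁅a, b⁆ : F) : F ⧸ M) = ⁅(a : F ⧸ M), (b : F ⧸ M)⁆ := rfl
      rw [this, ha, hb, commutatorElement_eq_one_iff_mul_comm]
      exact (Commute.refl (z : F ⧸ M)).pow_pow i j
    · rw [closure_le]
      rintro _ ⟨a, -, rfl⟩
      obtain ⟨i, hi⟩ := hgen a
      rw [SetLike.mem_coe, ← QuotientGroup.eq_one_iff (N := M)]
      have ha : (a : F ⧸ M) = (z : F ⧸ M) ^ i := by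
        rw [← QuotientGroup.mk_pow]
        exact (QuotientGroup.eq.2 hi).symm
      rw [QuotientGroup.mk_pow, ha, ← pow_mul, mul_comm, pow_mul, ← QuotientGroup.mk_pow,
        (QuotientGroup.eq_one_iff (N := M) (z ^ p)).2 (hSM (hpow z hz)), one_pow]

section

variable {p d : ℕ}

theorem mem_phi_iff (hp : p.Prime) {w : FG d} :
    w ∈ Phi p (⊤ : Subgroup (FG d)) ↔ ab p w = 1 := by
  rw [← (specABP p d hp).1, MonoidHom.mem_ker]

theorem mat_mul_one (hp : p.Prime) {y z : Fin d → FG d}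
    (h : ∀ w, w⁻¹ * hm y (hm z w) ∈ Phi p (⊤ : Subgroup (FG d))) : mat p z * mat p y = 1 := by
  obtain ⟨hker, -, -, hmul, -, -⟩ := specABP p d hp
  rw [← hmul]
  ext i j
  have h4 := h (FreeGroup.of i)
  rw [EQVM.hm_of, ← hker, MonoidHom.mem_ker, map_mul, map_inv, inv_mul_eq_one] at h4
  show Multiplicative.toAdd (ab p (hm y (z i))) j = _
  rw [← h4]
  simp [ab, Matrix.one_apply, Pi.single_apply, eq_comm]

theorem mat_of (p d : ℕ) : mat p (fun i : Fin d => FreeGroup.of i) = 1 := by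
  ext i j
  simp [mat, ab, Matrix.one_apply, Pi.single_apply, eq_comm]

variable (g : GLp p d)

/-- the endomorphism -/
noncomputable abbrev ff : FG d →* FG d := hm (can p (g : Matrix (Fin d) (Fin d) (ZMod p)))

theorem ab_ff (hp : p.Prime) (w : FG d) : Multiplicative.toAdd (ab p (ff g w)) =
    Matrix.vecMul (Multiplicative.toAdd (ab p w)) (g : Matrix (Fin d) (Fin d) (ZMod p)) := by
  obtain ⟨-, -, h3, -, h5, -⟩ := specABP p d hp
  rw [h3, h5]

theorem phi_ff (hp : p.Prime) (w : FG d) :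
    ff g w ∈ Phi p (⊤ : Subgroup (FG d)) ↔ w ∈ Phi p (⊤ : Subgroup (FG d)) := by
  rw [mem_phi_iff hp, mem_phi_iff hp]
  have h1 := ab_ff g hp w
  constructor
  · intro h
    rw [h, toAdd_one] at h1
    have h2 : Matrix.vecMul (Matrix.vecMul (Multiplicative.toAdd (ab p w))
        (g : Matrix (Fin d) (Fin d) (ZMod p))) (g⁻¹ : GLp p d).1 = 0 := by
      rw [← h1, Matrix.zero_vecMul]
    rw [Matrix.vecMul_vecMul, ← Units.val_mul, mul_inv_cancel, Units.val_one,
      Matrix.vecMul_one] at h2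
    exact Multiplicative.toAdd.injective (h2.trans toAdd_one.symm)
  · intro h
    rw [h, toAdd_one, Matrix.zero_vecMul] at h1
    exact Multiplicative.toAdd.injective (h1.trans toAdd_one.symm)

theorem range_ff (hp : p.Prime) : (ff g).range ⊔ PhiP p ⊤ = ⊤ := by
  rw [eq_top_iff]
  intro v _
  obtain ⟨w, hw⟩ := (specABP p d hp).2.1 (Multiplicative.ofAdd
    (Matrix.vecMul (Multiplicative.toAdd (ab p v)) (g⁻¹ : GLp p d).1))
  have h1 := ab_ff g hp w
  rw [hw, toAdd_ofAdd, Matrix.vecMul_vecMul, ← Units.val_mul, inv_mul_cancel, Units.val_one,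
    Matrix.vecMul_one] at h1
  have h2 : ab p (ff g w) = ab p v := Multiplicative.toAdd.injective h1
  have h3 : (ff g w)⁻¹ * v ∈ Phi p (⊤ : Subgroup (FG d)) := by
    rw [mem_phi_iff hp, map_mul, map_inv, h2, inv_mul_cancel]
  have h4 : v = ff g w * ((ff g w)⁻¹ * v) := by group
  rw [h4]
  exact mul_mem (mem_sup_left ⟨w, rfl⟩) (mem_sup_right h3)

theorem sup_range (hp : p.Prime) {R : Subgroup (FG d)} (hR : R.Normal) {n : ℕ}
    (hn : R.index = p ^ n) : R ⊔ (ff g).range = ⊤ := by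
  have : Fact p.Prime := ⟨hp⟩
  rw [sup_comm]
  exact frat p _ (range_ff g hp) n R hR hn

theorem index_comap_ff (hp : p.Prime) {R : Subgroup (FG d)} (hR : R.Normal) {n : ℕ}
    (hn : R.index = p ^ n) : (R.comap (ff g)).index = R.index := by
  rw [Subgroup.index_comap, ← Subgroup.relIndex_sup_right, sup_comm, sup_range g hp hR hn,
    Subgroup.relIndex_top_right]

/-- inverse modulo `R` -/
theorem inv_ff (hp : p.Prime) {R : Subgroup (FG d)} (hR : R.Normal) {n : ℕ}
    (hn : R.index = p ^ n) : ∃ z : Fin d → FG d, ∀ w, w⁻¹ * ff g (hm z w) ∈ R := by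
  obtain ⟨z, hz, -, -⟩ := EQVM.symm_data hR _ rfl (sup_range g hp hR hn)
  exact ⟨z, hz⟩

theorem comm_hm (z : Fin d → FG d) : ⁅(⊤ : Subgroup (FG d)), (⊤ : Subgroup (FG d))⁆ ≤
    (⁅(⊤ : Subgroup (FG d)), (⊤ : Subgroup (FG d))⁆).comap (hm z) := by
  rw [commutator_le]
  intro a _ b _
  rw [mem_comap, map_commutatorElement]
  exact commutator_mem_commutator (mem_top _) (mem_top _)

theorem map_gen {F F' : Type} [Group F] [Group F'] (f : F →* F') {s : ℕ} (h : Fin s → F) :
    (gen h).map f = gen (fun i => f (h i)) := by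
  unfold gen
  rw [MonoidHom.map_closure, ← Set.range_comp]
  rfl

end

end TWIM

open TWIM in
theorem specTWI : SpecTWI := by
  intro p d n hp R hR g
  have : Fact p.Prime := ⟨hp⟩
  obtain ⟨hRn, hRPhi, hRi⟩ := hR
  have hsup := sup_range g hp hRn hRi
  obtain ⟨z, hz⟩ := inv_ff g hp hRn hRi
  have hpsin : (Psi p (FG d)).Normal := by
    have h1 := ABPM.phi_normal (p := p) (F := FG d)
    unfold Psi
    have h2 : (closure {x : FG d | ∃ h ∈ Phi p (⊤ : Subgroup (FG d)), x = h ^ p}).Normal := by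
      refine ⟨fun n hn g => ?_⟩
      induction hn using closure_induction with
      | mem x hx =>
        obtain ⟨y, hy, rfl⟩ := hx
        apply Subgroup.subset_closure
        exact ⟨g * y * g⁻¹, h1.conj_mem _ hy _, by rw [conj_pow]⟩
      | one => simp [one_mem]
      | mul x y _ _ hx hy =>
        have : g * (x * y) * g⁻¹ = (g * x * g⁻¹) * (g * y * g⁻¹) := by group
        rw [this]
        exact mul_mem hx hy
      | inv x _ hx =>
        have : g * x⁻¹ * g⁻¹ = (g * x * g⁻¹)⁻¹ := by group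
        rw [this]
        exact inv_mem hx
    infer_instance
  have hQn : (R ⊔ Psi p (FG d)).Normal := inferInstance
  obtain ⟨j, hj, hjQ⟩ : ∃ j ≤ n, (R ⊔ Psi p (FG d)).index = p ^ j := by
    have h1 := Subgroup.index_dvd_of_le (le_sup_left : R ≤ R ⊔ Psi p (FG d))
    rw [hRi] at h1
    exact (Nat.dvd_prime_pow hp).1 h1
  have hC : tw p g R ⊔ Psi p (FG d) = tw p g (R ⊔ Psi p (FG d)) := by
    apply le_antisymm
    · refine sup_le (comap_mono le_sup_left) ?_
      exact (EQVM.psi_hm _).trans (comap_mono le_sup_right)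
    · intro w hw
      have hw' : ff g w ∈ R ⊔ Psi p (FG d) := hw
      rw [Subgroup.mem_sup_of_normal_left] at hw'
      obtain ⟨r, hr, q, hq, hrq⟩ := hw'
      have h1 : ff g (hm z q) ∈ Psi p (FG d) := EQVM.psi_hm _ (EQVM.psi_hm z hq)
      have h2 : w * (hm z q)⁻¹ ∈ tw p g R := by
        show ff g (w * (hm z q)⁻¹) ∈ R
        rw [map_mul, map_inv, ← hrq]
        have h3 := hz q
        have h4 : r * q * (ff g (hm z q))⁻¹ = r * (q * (q⁻¹ * ff g (hm z q))⁻¹ * q⁻¹) := by group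
        rw [h4]
        exact mul_mem hr (hRn.conj_mem _ (inv_mem h3) _)
      have h3 : w = (w * (hm z q)⁻¹) * hm z q := by group
      rw [h3]
      exact mul_mem (mem_sup_left h2) (mem_sup_right (EQVM.psi_hm z hq))
  refine ⟨⟨hRn.comap _, ?_, ?_⟩, ⟨_, rfl, hsup⟩, hC, ?_, ?_, ?_, ?_⟩
  · intro w hw
    exact (phi_ff g hp w).1 (hRPhi hw)
  · exact (index_comap_ff g hp hRn hRi).trans hRi
  · rw [hC]
    have h1 := Subgroup.relIndex_mul_index
      (comap_mono (f := ff g) (le_sup_left : R ≤ R ⊔ Psi p (FG d)))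
    rw [index_comap_ff g hp hRn hRi, index_comap_ff g hp hQn hjQ,
      ← Subgroup.relIndex_mul_index (le_sup_left : R ≤ R ⊔ Psi p (FG d)), hjQ] at h1
    exact Nat.eq_of_mul_eq_mul_right (pow_pos hp.pos j) h1
  · intro s
    rw [← map_gen (ff g) (xg d s)]
    unfold Spl
    rw [← map_commutator]
    have htwn : (tw p g R).Normal := hRn.comap _
    constructor
    · intro h w hw
      have h1 := comm_hm z hw
      have h2 := h h1
      rw [Subgroup.mem_sup_of_normal_right] at h2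
      obtain ⟨a, ha, b, hb, hab⟩ := h2
      have h3 := hz w
      have h4 : w = ff g (hm z w) * (w⁻¹ * ff g (hm z w))⁻¹ := by group
      rw [h4, ← hab, map_mul]
      refine mul_mem (mul_mem (mem_sup_left ⟨a, ha, rfl⟩) (mem_sup_right hb)) (mem_sup_right ?_)
      rw [← map_mul, hab]
      exact inv_mem h3
    · intro h w hw
      have h1 := h (comm_hm (can p (g : Matrix (Fin d) (Fin d) (ZMod p))) hw)
      rw [Subgroup.mem_sup_of_normal_right] at h1
      obtain ⟨_, ⟨a, ha, rfl⟩, b, hb, hab⟩ := h1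
      have h2 : a⁻¹ * w ∈ tw p g R := by
        show ff g (a⁻¹ * w) ∈ R
        rw [map_mul, map_inv]
        have h3 : (ff g a)⁻¹ * ff g w = b := by
          rw [inv_mul_eq_iff_eq_mul]
          exact hab.symm
        rw [h3]
        exact hb
      have h3 : w = a * (a⁻¹ * w) := by group
      rw [h3]
      exact mul_mem (mem_sup_left ha) (mem_sup_right h2)
  · intro g' hgg
    have h1 : mat p z * (g : Matrix (Fin d) (Fin d) (ZMod p)) = 1 := by
      have h2 := mat_mul_one hp (y := can p (g : Matrix (Fin d) (Fin d) (ZMod p))) (z := z)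
        (fun w => hRPhi (hz w))
      rwa [(specABP p d hp).2.2.2.2.1] at h2
    have h2 : mat p z = (g⁻¹ : GLp p d).1 := by
      calc mat p z = mat p z * ((g : Matrix (Fin d) (Fin d) (ZMod p)) * (g⁻¹ : GLp p d).1) := by
            rw [← Units.val_mul, mul_inv_cancel, Units.val_one, mul_one]
        _ = (mat p z * (g : Matrix (Fin d) (Fin d) (ZMod p))) * (g⁻¹ : GLp p d).1 := by
            rw [mul_assoc]
        _ = _ := by rw [h1, one_mul]
    refine ⟨fun i => hm (can p (g' : Matrix (Fin d) (Fin d) (ZMod p))) (z i), ?_, ?_⟩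
    · rw [(specABP p d hp).2.2.2.1, (specABP p d hp).2.2.2.2.1, h2]
      rfl
    · intro r hr
      rw [mem_comap, EQVM.hm_comp]
      show ff g' (hm z r) ∈ R
      have h3 : hm z r ∈ tw p g' R := by
        rw [← hgg]
        show ff g (hm z r) ∈ R
        have h4 := mul_mem hr (hz r)
        have h5 : r * (r⁻¹ * ff g (hm z r)) = ff g (hm z r) := by group
        rwa [h5] at h4
      exact h3
  · refine ⟨fun i => FreeGroup.of i, ?_, ?_⟩
    · rw [mat_of]; rfl
    · rw [EQVM.hm_id, comap_id]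

end Pool.Agent.Lib.MP4ccb00.N
end

section
/-!
Module OVR: classes over a class of `R ⊔ Psi`.
-/
set_option autoImplicit false

namespace Pool.Agent.Lib.MP4ccb00.N

open Subgroup Module E

namespace OVRM

/-- pull back of `R ⊔ Psi` -/
theorem sup_psi {p d : ℕ} {R : Subgroup (FG d)} (hR : R.Normal) (y : Fin d → FG d)
    (h : R ⊔ (hm y).range = ⊤) :
    (R ⊔ Psi p (FG d)).comap (hm y) = R.comap (hm y) ⊔ Psi p (FG d) := by
  obtain ⟨z, hz, -, -⟩ := EQVM.symm_data hR y rfl h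
  apply le_antisymm
  · intro w hw
    have hw' : hm y w ∈ R ⊔ Psi p (FG d) := hw
    rw [Subgroup.mem_sup_of_normal_left] at hw'
    obtain ⟨r, hr, q, hq, hrq⟩ := hw'
    have h2 : w * (hm z q)⁻¹ ∈ R.comap (hm y) := by
      show hm y (w * (hm z q)⁻¹) ∈ R
      rw [map_mul, map_inv, ← hrq]
      have h3 := hz q
      have h4 : r * q * (hm y (hm z q))⁻¹ = r * (q * (q⁻¹ * hm y (hm z q))⁻¹ * q⁻¹) := by group
      rw [h4]
      exact mul_mem hr (hR.conj_mem _ (inv_mem h3) _)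
    have h3 : w = (w * (hm z q)⁻¹) * hm z q := by group
    rw [h3]
    exact mul_mem (mem_sup_left h2) (mem_sup_right (EQVM.psi_hm z hq))
  · exact sup_le (comap_mono le_sup_left) ((EQVM.psi_hm _).trans (comap_mono le_sup_right))

theorem rel_sup {p d : ℕ} {R R' : Subgroup (FG d)} (hR' : R'.Normal) (h : Rel R R') :
    Rel (R ⊔ Psi p (FG d)) (R' ⊔ Psi p (FG d)) := by
  obtain ⟨y, h1, h2⟩ := h
  refine ⟨y, ?_, ?_⟩
  · rw [sup_psi hR' y h2, ← h1]
  · rw [eq_top_iff, ← h2]
    exact sup_le_sup le_sup_left le_rfl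

end OVRM

open OVRM in
theorem specOVR (hFIB : SpecFIB) (hSPT : SpecSPT) (hGLV : SpecGLV) : SpecOVR := by
  intro p d n k s κ M hp hk hnk hs C hC hCC hM
  classical
  have hfp : Fact p.Prime := ⟨hp⟩
  have hE : SpecEQV := specEQV specABP
  have hX : SpecXFIN := specXFIN
  have hS : SpecSUP := specSUP specABP
  obtain ⟨hCX, hCS⟩ := hC
  obtain ⟨hrefl, hsymm, htrans, -, -⟩ := hE p d n hp
  -- the set of quotients
  set QS : Set (Subgroup (FG d)) := {Q | ∃ R ∈ C, Q = R ⊔ Psi p (FG d)} with hQS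
  have hgood : ∀ R ∈ C, R ⊔ Psi p (FG d) ∈ Good p d (n - κ) := by
    intro R hR
    obtain ⟨⟨j, hj, hg, hrel⟩, -⟩ := hS p d n hp R (hCX hR)
    have h1 := (hCC R hR).2
    rw [hrel] at h1
    have h2 : j = κ := Nat.pow_right_injective hp.two_le h1
    rwa [h2] at hg
  have hQSX : QS ⊆ X p d (n - κ) := by
    rintro _ ⟨R, hR, rfl⟩
    exact (hgood R hR).1
  -- matrices
  have hgv : ∀ v : Fin s → (Fin d → ZMod p), ∃ g : GLp p d, LinearIndependent (ZMod p) v →
      ∀ (i : Fin s) (h : i.1 < d), (g : Matrix (Fin d) (Fin d) (ZMod p)) ⟨i.1, h⟩ = v i := by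
    intro v
    by_cases hv : LinearIndependent (ZMod p) v
    · obtain ⟨-, g, hg⟩ := hGLV p d s hp hs v hv
      exact ⟨g, fun _ => hg⟩
    · exact ⟨1, fun h => absurd h hv⟩
  choose gv hgv using hgv
  -- the map on classes
  let q : Quot (CLSM.rr C) → Quot (CLSM.rr QS) :=
    Quot.map (fun R => ⟨R.1 ⊔ Psi p (FG d), R.1, R.2, rfl⟩)
      (fun R R' h => rel_sup (hCX R'.2).1 h)
  have key : ∀ K : Quot (CLSM.rr C), ∃ v : Fin s → (Fin d → ZMod p), ∃ R : C,
      Quot.mk (CLSM.rr C) R = K ∧ Spl (gen (xg d s)) R.1 ∧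
      R.1 ⊔ Psi p (FG d) = tw p (gv v) (Quot.out (q K)).1 := by
    intro K
    induction K using Quot.ind with
    | mk R1 =>
      set Q0 := Quot.out (q (Quot.mk _ R1)) with hQ0
      have h1 : Quot.mk (CLSM.rr QS) Q0 = Quot.mk (CLSM.rr QS)
          ⟨R1.1 ⊔ Psi p (FG d), R1.1, R1.2, rfl⟩ := Quot.out_eq _
      have h2 : Rel Q0.1 (R1.1 ⊔ Psi p (FG d)) := CLSM.rel_of_eq hE hp hQSX h1
      obtain ⟨y, hy1, hy2⟩ := h2
      obtain ⟨hR1n, hR1P, hR1i⟩ := hCX R1.2
      have hsup : R1.1 ⊔ (hm y).range = ⊤ := by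
        rw [sup_comm]
        refine TWIM.frat p _ ?_ n R1.1 hR1n hR1i
        have hle : R1.1 ⊔ Psi p (FG d) ≤ PhiP p ⊤ := (hgood R1.1 R1.2).1.2.1
        have h3 : (R1.1 ⊔ Psi p (FG d)) ⊔ (hm y).range ≤ (hm y).range ⊔ PhiP p ⊤ :=
          sup_le (hle.trans le_sup_right) le_sup_left
        rw [hy2] at h3
        exact top_le_iff.1 h3
      set R2 := R1.1.comap (hm y) with hR2
      have hrel : Rel R2 R1.1 := ⟨y, rfl, hsup⟩
      have hR2Q : R2 ⊔ Psi p (FG d) = Q0.1 := by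
        rw [hR2, ← sup_psi hR1n y hsup, hy1]
      have hR2X : R2 ∈ X p d n := by
        refine ⟨hR1n.comap _, ?_, ?_⟩
        · exact (le_sup_left.trans hR2Q.le).trans (hQSX Q0.2).2.1
        · rw [hR2, Subgroup.index_comap, ← Subgroup.relIndex_sup_right, sup_comm, hsup,
            Subgroup.relIndex_top_right, hR1i]
      have hR2C : R2 ∈ C := hCS R1.1 R1.2 R2 hR2X (hsymm _ hR2X _ (hCX R1.2) hrel)
      obtain ⟨v, hv, hvg⟩ := hSPT p d n k s hp hk hnk hs R2 hR2X (hCC R2 hR2C).1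
      obtain ⟨t1, t2, t3, -, -, -, -⟩ := specTWI p d n hp R2 hR2X (gv v)
      have hR3C : tw p (gv v) R2 ∈ C := hCS R2 hR2C _ t1 (hsymm _ t1 _ hR2X t2)
      refine ⟨v, ⟨_, hR3C⟩, ?_, hvg _ (hgv v hv), ?_⟩
      · exact Quot.sound (htrans _ _ _ t2 hrel)
      · rw [t3, hR2Q]
  choose vK RK hRK using key
  have hCfin : C.Finite := (hX p d n hp).subset hCX
  have hf1 : Finite (Quot (CLSM.rr C)) := CLSM.finq hX hp hCX
  have hf2 : Finite (Quot (CLSM.rr QS)) := CLSM.finq hX hp hQSX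
  have hfib := hFIB (Quot (CLSM.rr C)) (Quot (CLSM.rr QS) × (Fin s → (Fin d → ZMod p)))
    (fun K => (q K, vK K)) Set.univ Set.univ (p ^ (d * s) * ncl QS) M Set.finite_univ ?_
    (fun _ _ => Set.mem_univ _) ?_
  · have h1 := hfib.2
    rw [Set.ncard_univ] at h1
    calc ncl C = Nat.card (Quot (CLSM.rr C)) := rfl
      _ ≤ p ^ (d * s) * ncl QS * M := h1
      _ = p ^ (d * s) * M * ncl QS := by ring
  · rw [Set.ncard_univ, Nat.card_prod, mul_comm]
    refine Nat.mul_le_mul ?_ le_rfl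
    rw [Nat.card_fun, Nat.card_fun, Nat.card_eq_fintype_card, Nat.card_eq_fintype_card,
      Nat.card_eq_fintype_card, ZMod.card, Fintype.card_fin, Fintype.card_fin, ← pow_mul]
  · rintro ⟨K0, v⟩ -
    set S0 : Set (Subgroup (FG d)) := {R | R ∈ C ∧ Spl (gen (xg d s)) R ∧
      R ⊔ Psi p (FG d) = tw p (gv v) (Quot.out K0).1} with hS0
    refine ⟨Set.toFinite _, ?_⟩
    by_cases hne : {a | a ∈ (Set.univ : Set (Quot (CLSM.rr C))) ∧ (q a, vK a) = (K0, v)}.Nonempty
    · obtain ⟨a, -, ha⟩ := hne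
      obtain ⟨ha1, ha2⟩ := Prod.mk.inj ha
      have hS0M : S0.ncard ≤ M := by
        refine hM _ ?_
        rw [← ha1, ← ha2, ← (hRK a).2.2]
        exact hgood _ (RK a).2
      refine le_trans ?_ hS0M
      refine Set.ncard_le_ncard_of_injOn (fun K => (RK K).1) ?_ ?_ (hCfin.subset (fun R hR => hR.1))
      · rintro K ⟨-, hK⟩
        obtain ⟨hK1, hK2⟩ := Prod.mk.inj hK
        refine ⟨(RK K).2, (hRK K).2.1, ?_⟩
        rw [(hRK K).2.2, hK1, hK2]
      · rintro K - K' - hKK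
        have h1 : RK K = RK K' := Subtype.ext hKK
        rw [← (hRK K).1, ← (hRK K').1, h1]
    · rw [Set.not_nonempty_iff_eq_empty] at hne
      rw [hne, Set.ncard_empty]
      exact Nat.zero_le _

end Pool.Agent.Lib.MP4ccb00.N
end
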