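import Pool.Agent.Lib.MP_4ccb00_al.N.Spec
import Pool.Agent.Lib.MP_4ccb00_al.N.ND2
import Pool.Agent.Lib.MP_4ccb00_al.N.YFI

/-!
# MP_4ccb00_al, module SNG: saturation
-/

set_option autoImplicit false

namespace Pool.Agent.Lib.MP4ccb00.N

open Subgroup Module E

open scoped commutatorElement

namespace SNGM

/-- The elements of `PhiP p ⊤` are non-generators modulo a normal subgroup of `p`-power index. -/
theorem nongen (p : ℕ) [Fact p.Prime] (F : Type) [Group F] (H : Subgroup F)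
    (hH : H ⊔ PhiP p (⊤ : Subgroup F) = ⊤) (k : ℕ) (S : Subgroup F) (hS : S.Normal)
    (hk : S.index = p ^ k) : H ⊔ S = ⊤ := by
  have hp : p.Prime := Fact.out
  induction k generalizing S with
  | zero =>
    have : S = ⊤ := Subgroup.index_eq_one.1 (by simpa using hk)
    rw [this, sup_top_eq]
  | succ k ih =>
    have hne : S ≠ ⊤ := by
      intro h
      rw [h, Subgroup.index_top] at hk
      have : 1 < p ^ (k + 1) := Nat.one_lt_pow (Nat.succ_ne_zero k) hp.one_lt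
      omega
    obtain ⟨S₁, hS₁, hlt, -, hidx⟩ := specBOT p F S ⊤ hS inferInstance ⟨k + 1, hk⟩
      (lt_top_iff_ne_top.2 hne)
    obtain ⟨hpow, hcom, -⟩ := specCYC p F S S₁ hS hS₁ ⟨k + 1, hk⟩ hlt.le hidx
    have h1 : p * S₁.index = p ^ (k + 1) := by
      rw [← hk, ← hidx]
      exact Subgroup.relIndex_mul_index hlt.le
    have h2 : S₁.index = p ^ k := by
      rw [pow_succ, mul_comm] at h1
      exact Nat.eq_of_mul_eq_mul_right hp.pos h1
    have h3 := ih S₁ hS₁ h2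
    -- every element is a product
    have hdec : ∀ g : F, ∃ h ∈ H, ∃ s ∈ S₁, h * s = g := by
      intro g
      have hg : g ∈ H ⊔ S₁ := by
        rw [h3]
        trivial
      rwa [Subgroup.mem_sup_of_normal_right] at hg
    have hc : ∀ s ∈ S₁, ∀ x, ⁅s, x⁆ ∈ H ⊔ S := fun s hs x =>
      Subgroup.mem_sup_right (hcom (Subgroup.commutator_mem_commutator hs (Subgroup.mem_top x)))
    have hn : (H ⊔ S).Normal := by
      refine ⟨fun x hx g => ?_⟩
      obtain ⟨h, hh, s, hs, rfl⟩ := hdec g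
      have e : h * s * x * (h * s)⁻¹ = h * (⁅s, x⁆ * x) * h⁻¹ := by
        rw [commutatorElement_def]
        group
      rw [e]
      exact mul_mem (mul_mem (Subgroup.mem_sup_left hh) (mul_mem (hc s hs x) hx))
        (inv_mem (Subgroup.mem_sup_left hh))
    -- the quotient
    have hq : ∀ g : F, ∃ s ∈ S₁, QuotientGroup.mk' (H ⊔ S) g = QuotientGroup.mk' (H ⊔ S) s := by
      intro g
      obtain ⟨h, hh, s, hs, rfl⟩ := hdec g
      refine ⟨s, hs, ?_⟩
      rw [map_mul]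
      have : QuotientGroup.mk' (H ⊔ S) h = 1 :=
        (QuotientGroup.eq_one_iff h).2 (Subgroup.mem_sup_left hh)
      rw [this, one_mul]
    have hle : PhiP p (⊤ : Subgroup F) ≤ (QuotientGroup.mk' (H ⊔ S)).ker := by
      unfold PhiP
      refine sup_le ?_ ?_
      · rw [Subgroup.commutator_le]
        intro a _ b _
        obtain ⟨s, hs, hs'⟩ := hq a
        rw [MonoidHom.mem_ker, map_commutatorElement, hs', ← map_commutatorElement]
        exact (QuotientGroup.eq_one_iff _).2 (hc s hs b)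
      · rw [Subgroup.closure_le]
        rintro _ ⟨y, -, rfl⟩
        obtain ⟨s, hs, hs'⟩ := hq y
        rw [SetLike.mem_coe, MonoidHom.mem_ker, map_pow, hs', ← map_pow]
        exact (QuotientGroup.eq_one_iff _).2 (Subgroup.mem_sup_right (hpow s hs))
    rw [QuotientGroup.ker_mk'] at hle
    rw [eq_top_iff, ← hH]
    exact sup_le le_sup_left hle

/-- `R ⊔ Psi` is the preimage of `R' ⊔ Psi`. -/
theorem sup_psi {p d : ℕ} {R R' : Subgroup (FG d)} (_hR : R.Normal) (hR' : R'.Normal)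
    (y : Fin d → FG d) (h1 : R = R'.comap (hm y)) (h2 : R' ⊔ (hm y).range = ⊤) :
    R ⊔ Psi p (FG d) = (R' ⊔ Psi p (FG d)).comap (hm y) := by
  obtain ⟨z, hz, h3, -⟩ := EQVM.symm_data hR' y h1 h2
  apply le_antisymm
  · refine sup_le ?_ ?_
    · rw [h1]
      exact Subgroup.comap_mono le_sup_left
    · exact (EQVM.psi_hm y).trans (Subgroup.comap_mono le_sup_right)
  · intro w hw
    rw [Subgroup.mem_comap, Subgroup.mem_sup_of_normal_left] at hw
    obtain ⟨r, hr, ψ, hψ, hrψ⟩ := hw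
    have h4 : w⁻¹ * hm z (hm y w) ∈ R := by
      rw [h1, Subgroup.mem_comap, map_mul, map_inv]
      exact hz (hm y w)
    have h5 : hm z (hm y w) ∈ R ⊔ Psi p (FG d) := by
      rw [← hrψ, map_mul]
      refine mul_mem (Subgroup.mem_sup_left ?_) (Subgroup.mem_sup_right (EQVM.psi_hm z hψ))
      rw [h3] at hr
      exact hr
    have h6 : w = hm z (hm y w) * (w⁻¹ * hm z (hm y w))⁻¹ := by group
    rw [h6]
    exact mul_mem h5 (inv_mem (Subgroup.mem_sup_left h4))

theorem rel_psi {p d : ℕ} {R R' : Subgroup (FG d)} (_hR : R.Normal) (_hR' : R'.Normal)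
    (y : Fin d → FG d) (_h1 : R = R'.comap (hm y)) (h2 : R' ⊔ (hm y).range = ⊤) :
    (R' ⊔ Psi p (FG d)) ⊔ (hm y).range = ⊤ := by
  rw [eq_top_iff, ← h2]
  exact sup_le (le_sup_left.trans le_sup_left) le_sup_right

/-- the relative index of `R` in `R ⊔ Psi` is an invariant -/
theorem relIndex_psi {p d : ℕ} {R R' : Subgroup (FG d)} (hR : R.Normal) (hR' : R'.Normal)
    (y : Fin d → FG d) (h1 : R = R'.comap (hm y)) (h2 : R' ⊔ (hm y).range = ⊤) :
    R.relIndex (R ⊔ Psi p (FG d)) = R'.relIndex (R' ⊔ Psi p (FG d)) := by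
  obtain ⟨z, hz, h3, -⟩ := EQVM.symm_data hR' y h1 h2
  have e1 : R.relIndex (R ⊔ Psi p (FG d)) = R'.relIndex ((R ⊔ Psi p (FG d)).map (hm y)) := by
    conv_lhs => rw [h1]
    rw [Subgroup.relIndex_comap, ← h1]
  have e2 : (R ⊔ Psi p (FG d)).map (hm y) ⊔ R' = R' ⊔ Psi p (FG d) := by
    apply le_antisymm
    · refine sup_le ?_ le_sup_left
      rw [Subgroup.map_le_iff_le_comap, sup_psi hR hR' y h1 h2]
    · refine sup_le le_sup_right ?_
      intro ψ hψ
      have h4 : hm y (hm z ψ) ∈ (R ⊔ Psi p (FG d)).map (hm y) :=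
        Subgroup.mem_map_of_mem _ (Subgroup.mem_sup_right (EQVM.psi_hm z hψ))
      have h5 : ψ = hm y (hm z ψ) * (ψ⁻¹ * hm y (hm z ψ))⁻¹ := by group
      rw [h5]
      exact mul_mem (Subgroup.mem_sup_left h4) (inv_mem (Subgroup.mem_sup_right (hz ψ)))
  rw [e1, ← e2, Subgroup.relIndex_sup_right]

theorem gen_map {d s : ℕ} (y : Fin d → FG d) (h : Fin s → FG d) :
    (gen h).map (hm y) = gen (fun j => hm y (h j)) := by
  unfold gen
  rw [MonoidHom.map_closure, ← Set.range_comp]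
  rfl

/-- `NonDeg` is an invariant -/
theorem nonDeg_inv {d k n : ℕ} {R R' : Subgroup (FG d)} (hR' : R'.Normal)
    (y : Fin d → FG d) (h1 : R = R'.comap (hm y)) (h2 : R' ⊔ (hm y).range = ⊤)
    (hR : R.Normal) (h : NonDeg k n R) : NonDeg k n R' := by
  obtain ⟨z, hz, h3, -⟩ := EQVM.symm_data hR' y h1 h2
  obtain ⟨s, g, hs, hg⟩ := h
  refine ⟨s, fun j => hm y (g j), hs, ?_⟩
  intro w hw
  have hw' : hm z w ∈ ⁅(⊤ : Subgroup (FG d)), (⊤ : Subgroup (FG d))⁆ := by
    have : (⁅(⊤ : Subgroup (FG d)), (⊤ : Subgroup (FG d))⁆).map (hm z) ≤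
        ⁅(⊤ : Subgroup (FG d)), (⊤ : Subgroup (FG d))⁆ := by
      rw [Subgroup.map_commutator]
      exact Subgroup.commutator_mono le_top le_top
    exact this (Subgroup.mem_map_of_mem _ hw)
  have hw2 := hg hw'
  rw [Subgroup.mem_sup_of_normal_right] at hw2
  obtain ⟨κ, hκ, r, hr, hκr⟩ := hw2
  have h5 : hm y κ ∈ ⁅gen (fun j => hm y (g j)), gen (fun j => hm y (g j))⁆ := by
    rw [← gen_map, ← Subgroup.map_commutator]
    exact Subgroup.mem_map_of_mem _ hκ
  have h6 : hm y r ∈ R' := by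
    rw [h1] at hr
    exact hr
  have h7 : w = hm y (hm z w) * (w⁻¹ * hm y (hm z w))⁻¹ := by group
  rw [h7, ← hκr, map_mul]
  refine mul_mem (mul_mem (Subgroup.mem_sup_left h5) (Subgroup.mem_sup_right h6))
    (inv_mem (Subgroup.mem_sup_right ?_))
  rw [← map_mul, hκr]
  exact hz w

/-- triviality of `ImA` is an invariant -/
theorem imA_inv {p d : ℕ} (hA : SpecABP) (hp : p.Prime) {Q Q' : Subgroup (FG d)} (hQ' : Q'.Normal)
    (hQP : Q' ≤ PhiP p ⊤)
    (y : Fin d → FG d) (h1 : Q = Q'.comap (hm y)) (h2 : Q' ⊔ (hm y).range = ⊤)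
    (h : ImA p Q ⊆ {1}) : ImA p Q' ⊆ {1} := by
  obtain ⟨hker, -, -, hmul, -, -⟩ := hA p d hp
  obtain ⟨z, hz, h3, -⟩ := EQVM.symm_data hQ' y h1 h2
  have hzy : mat p z * mat p y = 1 := by
    rw [← hmul]
    ext i j
    have h4 := hz (FreeGroup.of i)
    rw [EQVM.hm_of] at h4
    have h5 : (FreeGroup.of i)⁻¹ * hm y (z i) ∈ Phi p (⊤ : Subgroup (FG d)) := hQP h4
    rw [← hker, MonoidHom.mem_ker, map_mul, map_inv, inv_mul_eq_one] at h5
    show Multiplicative.toAdd (ab p (hm y (z i))) j = _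
    rw [← h5]
    simp [ab, Matrix.one_apply, Pi.single_apply, eq_comm]
  have hyz : mat p y * mat p z = 1 := mul_eq_one_comm.1 hzy
  rintro g ⟨a, ha, ha'⟩
  -- the conjugate matrix
  let Y : GLp p d := ⟨mat p y, mat p z, hyz, hzy⟩
  have hb : Y * g * Y⁻¹ ∈ ImA p Q := by
    refine ⟨fun i => hm z (hm a (y i)), ?_, ?_⟩
    · rw [hmul (fun i => hm a (y i)) z, hmul y a, ha]
      rfl
    · intro w hw
      rw [Subgroup.mem_comap]
      have e : hm (fun i => hm z (hm a (y i))) w = hm z (hm a (hm y w)) := by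
        have := EQVM.hm_comp (fun i => hm a (y i)) z
        rw [this, MonoidHom.comp_apply, EQVM.hm_comp y a, MonoidHom.comp_apply]
      rw [e]
      have e1 : hm y w ∈ Q' := by
        rw [h1] at hw
        exact hw
      have e2 : hm a (hm y w) ∈ Q' := ha' e1
      rw [h3] at e2
      exact e2
  have h6 : Y * g * Y⁻¹ = 1 := h hb
  have h7 : g = 1 := by
    have : g = Y⁻¹ * (Y * g * Y⁻¹) * Y := by group
    rw [this, h6]
    group
  exact h7

end SNGM

open SNGM in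
theorem specSNG (hEQV : SpecEQV) (hSUP : SpecSUP) (hABP : SpecABP) : SpecSNG := by
  intro p d n hp
  have hp' : Fact p.Prime := ⟨hp⟩
  obtain ⟨-, hsymm, htrans, -, -⟩ := hEQV p d n hp
  have hPn : (Psi p (FG d)).Normal := SUPM.psi_normal p (FG d)
  refine ⟨?_, ?_, ?_, ?_, ?_⟩
  · -- `ND0`
    refine ⟨fun R hR => hR.1, ?_⟩
    rintro R ⟨hR, hnd, hpsi⟩ R' hR' ⟨y, h1, h2⟩
    refine ⟨hR', nonDeg_inv hR'.1 y h1 h2 hR.1 hnd, ?_⟩
    intro hle
    apply hpsi
    rw [h1]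
    exact (EQVM.psi_hm y).trans (Subgroup.comap_mono hle)
  · -- the relative index
    rintro C ⟨hC, hC'⟩ κ
    refine ⟨fun R hR => hC hR.1, ?_⟩
    rintro R ⟨hR, hκ⟩ R' hR' hrel
    refine ⟨hC' R hR R' hR' hrel, ?_⟩
    obtain ⟨y, h1, h2⟩ := hrel
    rw [← relIndex_psi (hC hR).1 hR'.1 y h1 h2]
    exact hκ
  · -- `ImA`
    rintro C ⟨hC, hC'⟩
    have key : ∀ R ∈ X p d n, ∀ R' ∈ X p d n, Rel R R' → ImA p (R ⊔ Psi p (FG d)) ⊆ {1} →
        ImA p (R' ⊔ Psi p (FG d)) ⊆ {1} := by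
      rintro R hR R' hR' ⟨y, h1, h2⟩ h
      have hRn := hR.1
      have hRn' := hR'.1
      exact imA_inv hABP hp inferInstance (sup_le hR'.2.1 (SUPM.psi_le p _)) y
        (sup_psi hR.1 hR'.1 y h1 h2) (rel_psi hR.1 hR'.1 y h1 h2) h
    refine ⟨⟨fun R hR => hC hR.1, ?_⟩, ⟨fun R hR => hC hR.1, ?_⟩⟩
    · rintro R ⟨hR, h⟩ R' hR' hrel
      exact ⟨hC' R hR R' hR' hrel, key R (hC hR) R' hR' hrel h⟩
    · rintro R ⟨hR, h⟩ R' hR' hrel
      refine ⟨hC' R hR R' hR' hrel, fun h' => h ?_⟩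
      exact key R' hR' R (hC hR) (hsymm R (hC hR) R' hR' hrel) h'
  · -- classes which meet `P`
    rintro C P ⟨hC, hC'⟩
    refine ⟨⟨fun R hR => hC hR.1, ?_⟩, ⟨fun R hR => hC hR.1, ?_⟩⟩
    · rintro R ⟨hR, R₀, hP, hR₀, hrel₀⟩ R' hR' hrel
      exact ⟨hC' R hR R' hR' hrel, R₀, hP, hR₀, htrans _ _ _ hrel₀ hrel⟩
    · rintro R ⟨hR, h⟩ R' hR' hrel
      refine ⟨hC' R hR R' hR' hrel, ?_⟩
      rintro ⟨R₀, hP, hR₀, hrel₀⟩
      exact h ⟨R₀, hP, hR₀, htrans _ _ _ hrel₀ (hsymm R (hC hR) R' hR' hrel)⟩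
  · -- the good quotients
    rintro C κ hκ ⟨hC, hC'⟩ hrelκ
    have hgood : {Q | ∃ R ∈ C, Q = R ⊔ Psi p (FG d)} ⊆ Good p d (n - κ) := by
      rintro Q ⟨R, hR, rfl⟩
      obtain ⟨⟨k, -, hk1, hk2⟩, -⟩ := hSUP p d n hp R (hC hR)
      have : k = κ := by
        rw [hrelκ R hR] at hk2
        exact (Nat.pow_right_injective hp.two_le hk2).symm
      rw [this] at hk1
      exact hk1
    refine ⟨⟨fun Q hQ => (hgood hQ).1, ?_⟩, hgood⟩
    rintro Q ⟨R, hR, rfl⟩ Q' hQ' ⟨y, h1, h2⟩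
    obtain ⟨z, hz, h3, h4⟩ := EQVM.symm_data hQ'.1 y h1 h2
    have hRX := hC hR
    have hRn := hRX.1
    -- `R ⊔ range = ⊤`
    have h5 : R ⊔ (hm z).range = ⊤ := by
      rw [sup_comm]
      have e : ((hm z).range ⊔ R) ⊔ PhiP p (⊤ : Subgroup (FG d)) = ⊤ := by
        refine top_le_iff.1 (h4.symm.le.trans (sup_le (sup_le ?_ ?_) ?_))
        · exact le_sup_right.trans le_sup_left
        · exact (SUPM.psi_le p (FG d)).trans le_sup_right
        · exact le_sup_left.trans le_sup_left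
      have := nongen p (FG d) _ e n R hRn hRX.2.2
      rwa [sup_assoc, sup_idem] at this
    have h6 : (R.comap (hm z)).index = p ^ n := by
      have e8 : R.relIndex ((hm z).range ⊔ R) = R.relIndex (hm z).range :=
        Subgroup.relIndex_sup_right _ _
      have e9 : (hm z).range ⊔ R = ⊤ := by
        rw [sup_comm]
        exact h5
      rw [e9, Subgroup.relIndex_top_right, hRX.2.2] at e8
      rw [Subgroup.index_comap]
      exact e8.symm
    have h7 : R.comap (hm z) ∈ X p d n := by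
      refine ⟨inferInstance, ?_, h6⟩
      refine le_trans ?_ hQ'.2.1
      rw [h3]
      exact Subgroup.comap_mono le_sup_left
    have h8 : Rel (R.comap (hm z)) R := ⟨z, rfl, h5⟩
    refine ⟨R.comap (hm z), hC' R hR _ h7 (hsymm _ h7 _ hRX h8), ?_⟩
    rw [sup_psi h7.1 hRn z rfl h5, h3]

end Pool.Agent.Lib.MP4ccb00.N
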