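import Pool.Agent.Lib.MP_4ccb00_al.N.Spec
import Pool.Agent.Lib.MP_4ccb00_al.N.YFI

/-!
# MP_4ccb00_al, module YPH: the base of the fine bound
-/

set_option autoImplicit false

namespace Pool.Agent.Lib.MP4ccb00.N

open Subgroup Module E

open scoped commutatorElement

namespace YPHM

/-- a homomorphism under which the images of the generators commute has a commutative image -/
theorem comm_all {Γ Q : Type} [Group Γ] [Group Q] (f : Γ →* Q) {s : ℕ} (x : Fin s → Γ)
    (hx : gen x = ⊤) (h : ∀ i j, Commute (f (x i)) (f (x j))) : ∀ a b, Commute (f a) (f b) := by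
  have hmem : ∀ a : Γ, a ∈ Subgroup.closure (Set.range x) := by
    intro a
    have : a ∈ gen x := by
      rw [hx]
      trivial
    exact this
  have h1 : ∀ a i, Commute (f a) (f (x i)) := by
    intro a i
    induction hmem a using Subgroup.closure_induction with
    | mem y hy =>
      obtain ⟨j, rfl⟩ := hy
      exact h j i
    | one =>
      rw [map_one]
      exact Commute.one_left _
    | mul y z _ _ hy hz =>
      rw [map_mul]
      exact hy.mul_left hz
    | inv y _ hy =>
      rw [map_inv]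
      exact hy.inv_left
  intro a b
  induction hmem b using Subgroup.closure_induction with
  | mem y hy =>
    obtain ⟨j, rfl⟩ := hy
    exact h1 a j
  | one =>
    rw [map_one]
    exact Commute.one_right _
  | mul y z _ _ hy hz =>
    rw [map_mul]
    exact hy.mul_right hz
  | inv y _ hy =>
    rw [map_inv]
    exact hy.inv_right

theorem pow_all {Γ Q : Type} [Group Γ] [Group Q] (f : Γ →* Q) {s : ℕ} (x : Fin s → Γ)
    (hx : gen x = ⊤) (h : ∀ a b, Commute (f a) (f b)) (p : ℕ) (hp : ∀ i, f (x i) ^ p = 1) :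
    ∀ a, f a ^ p = 1 := by
  intro a
  have ha : a ∈ Subgroup.closure (Set.range x) := by
    have : a ∈ gen x := by
      rw [hx]
      trivial
    exact this
  induction ha using Subgroup.closure_induction with
  | mem y hy =>
    obtain ⟨j, rfl⟩ := hy
    exact hp j
  | one => rw [map_one, one_pow]
  | mul y z _ _ hy hz => rw [map_mul, (h y z).mul_pow, hy, hz, one_mul]
  | inv y _ hy => rw [map_inv, inv_pow, hy, inv_one]

/-- A homomorphism `Γ → Q` which kills the `p`-th powers and the commutators of the generators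
kills `PhiP p ⊤`. -/
theorem phi_le_ker {Γ Q : Type} [Group Γ] [Group Q] (f : Γ →* Q) {s : ℕ} (x : Fin s → Γ)
    (hx : gen x = ⊤) (p : ℕ) (h : ∀ i j, f ⁅x i, x j⁆ = 1) (hp : ∀ i, f (x i ^ p) = 1) :
    PhiP p (⊤ : Subgroup Γ) ≤ f.ker := by
  have h1 : ∀ i j, Commute (f (x i)) (f (x j)) := by
    intro i j
    have := h i j
    rw [map_commutatorElement] at this
    exact commutatorElement_eq_one_iff_commute.1 this
  have h2 := comm_all f x hx h1
  have h3 := pow_all f x hx h2 p (fun i => by rw [← map_pow]; exact hp i)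
  unfold PhiP
  refine sup_le ?_ ?_
  · rw [Subgroup.commutator_le]
    intro a _ b _
    rw [MonoidHom.mem_ker, map_commutatorElement]
    exact commutatorElement_eq_one_iff_commute.2 (h2 a b)
  · rw [Subgroup.closure_le]
    rintro _ ⟨y, -, rfl⟩
    rw [SetLike.mem_coe, MonoidHom.mem_ker, map_pow]
    exact h3 y

theorem phi_normal (p : ℕ) (G : Type) [Group G] : (PhiP p (⊤ : Subgroup G)).Normal := by
  have h1 : (Subgroup.closure {x : G | ∃ y ∈ (⊤ : Subgroup G), x = y ^ p}).Normal := by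
    refine ⟨fun n hn g => ?_⟩
    induction hn using closure_induction with
    | mem x hx =>
      obtain ⟨y, -, rfl⟩ := hx
      apply Subgroup.subset_closure
      exact ⟨g * y * g⁻¹, mem_top _, by rw [conj_pow]⟩
    | one => simp [one_mem]
    | mul x y _ _ hx hy =>
      have : g * (x * y) * g⁻¹ = (g * x * g⁻¹) * (g * y * g⁻¹) := by group
      rw [this]
      exact mul_mem hx hy
    | inv x _ hx =>
      have : g * x⁻¹ * g⁻¹ = (g * x * g⁻¹)⁻¹ := by group
      rw [this]
      exact inv_mem hx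
  show (⁅(⊤ : Subgroup G), (⊤ : Subgroup G)⁆ ⊔
    Subgroup.closure {x : G | ∃ y ∈ (⊤ : Subgroup G), x = y ^ p}).Normal
  infer_instance

/-- the zero set of an invariant function is a normal subgroup -/
def zs {p : ℕ} {Γ : Type} [Group Γ] {R D : Subgroup Γ} {φ : Γ → ZMod p} (h : φ ∈ YY p ⊤ R D) :
    Subgroup Γ where
  carrier := {r | r ∈ R ∧ φ r = 0}
  one_mem' := ⟨one_mem _, Base.yy_one h⟩
  mul_mem' := fun {a b} ha hb =>
    ⟨mul_mem ha.1 hb.1, by rw [Base.yy_mul h ha.1 hb.1, ha.2, hb.2, add_zero]⟩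
  inv_mem' := fun {a} ha => ⟨inv_mem ha.1, by rw [Base.yy_inv h ha.1, ha.2, neg_zero]⟩

theorem zs_normal {p : ℕ} {Γ : Type} [Group Γ] {R D : Subgroup Γ} (hR : R.Normal) {φ : Γ → ZMod p}
    (h : φ ∈ YY p ⊤ R D) : (zs h).Normal :=
  ⟨fun n hn g => ⟨hR.conj_mem n hn.1 g, by
    rw [Base.yy_conj h (Subgroup.mem_top g) hn.1]; exact hn.2⟩⟩

theorem card_idx (s : ℕ) : Fintype.card (Σ j : Fin s, Fin (j.1 + 1)) = s * (s + 1) / 2 := by
  rw [Fintype.card_sigma]
  simp only [Fintype.card_fin]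
  rw [Fin.sum_univ_eq_sum_range (fun j => j + 1) s]
  have h := Finset.sum_range_id_mul_two (s + 1)
  rw [Finset.sum_range_succ'] at h
  simp only [add_zero, Nat.add_sub_cancel] at h
  rw [mul_comm s, ← h, Nat.mul_div_cancel _ (by norm_num)]

end YPHM

open YPHM in
theorem specYPH : SpecYPH := by
  intro p hp Γ _ s x hx
  have hPn := phi_normal p Γ
  have hxp : ∀ i, x i ^ p ∈ PhiP p (⊤ : Subgroup Γ) := fun i =>
    Subgroup.mem_sup_right (Subgroup.subset_closure ⟨x i, Subgroup.mem_top _, rfl⟩)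
  have hxc : ∀ i j, ⁅x i, x j⁆ ∈ PhiP p (⊤ : Subgroup Γ) := fun i j =>
    Subgroup.mem_sup_left (Subgroup.commutator_mem_commutator (Subgroup.mem_top _)
      (Subgroup.mem_top _))
  let Ψ : YY p ⊤ (PhiP p (⊤ : Subgroup Γ)) ⊥ →ₗ[ZMod p] ((Σ j : Fin s, Fin (j.1 + 1)) → ZMod p) :=
    { toFun := fun φ q => if q.2.1 = q.1.1 then φ.1 (x q.1 ^ p)
        else φ.1 ⁅x ⟨q.2.1, lt_of_le_of_lt (Nat.lt_succ_iff.1 q.2.2) q.1.2⟩, x q.1⁆
      map_add' := fun φ ψ => by
        funext q
        by_cases h : q.2.1 = q.1.1 <;> simp [h]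
      map_smul' := fun c φ => by
        funext q
        by_cases h : q.2.1 = q.1.1 <;> simp [h] }
  have htop : DLE (⊤ : Submodule (ZMod p) ((Σ j : Fin s, Fin (j.1 + 1)) → ZMod p))
      (s * (s + 1) / 2) := by
    refine ⟨inferInstance, ?_⟩
    rw [finrank_top, Module.finrank_fintype_fun_eq_card, card_idx]
  refine Base.dle_inj Ψ (fun _ => Submodule.mem_top) htop ?_
  intro φ hφ
  have h1 : ∀ i, φ.1 (x i ^ p) = 0 := by
    intro i
    have := congrFun hφ ⟨i, ⟨i.1, Nat.lt_succ_self _⟩⟩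
    simpa [Ψ] using this
  have h2 : ∀ i j : Fin s, i < j → φ.1 ⁅x i, x j⁆ = 0 := by
    intro i j hij
    have := congrFun hφ ⟨j, ⟨i.1, Nat.lt_succ_of_lt hij⟩⟩
    have hne : i.1 ≠ j.1 := ne_of_lt hij
    simpa [Ψ, hne] using this
  have h3 : ∀ i j : Fin s, φ.1 ⁅x i, x j⁆ = 0 := by
    intro i j
    rcases lt_trichotomy i j with h | h | h
    · exact h2 i j h
    · subst h
      rw [commutatorElement_self]
      exact Base.yy_one φ.2
    · have := h2 j i h
      rw [← commutatorElement_inv, Base.yy_inv φ.2 (hxc j i), this, neg_zero]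
  have hN := zs_normal hPn φ.2
  have h4 : PhiP p (⊤ : Subgroup Γ) ≤ (QuotientGroup.mk' (zs φ.2)).ker := by
    apply phi_le_ker (QuotientGroup.mk' (zs φ.2)) x hx p
    · intro i j
      exact (QuotientGroup.eq_one_iff _).2 ⟨hxc i j, h3 i j⟩
    · intro i
      exact (QuotientGroup.eq_one_iff _).2 ⟨hxp i, h1 i⟩
  rw [QuotientGroup.ker_mk'] at h4
  apply Subtype.ext
  funext y
  by_cases hy : y ∈ PhiP p (⊤ : Subgroup Γ)
  · exact (h4 hy).2
  · exact Base.yy_out φ.2 hy

end Pool.Agent.Lib.MP4ccb00.N
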