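import Pool.Agent.Lib.MP_4ccb00_al.LA.Spec
import Pool.Agent.Lib.MP_4ccb00_al.E.Spec2
import Pool.Agent.Lib.MP_4ccb00_al.N.YFI
import Pool.Agent.Lib.MP_4ccb00_al.E.INV
import Pool.Agent.Lib.MP_4ccb00_al.E.SMD
import Pool.Agent.Lib.MP_4ccb00_al.E.STR
import Pool.Agent.Lib.MP_4ccb00_al.LA.Dich
import Pool.Agent.Lib.MP_4ccb00_al.N.ND2
import Pool.Agent.Lib.MP_4ccb00_al.N.XZG
import Pool.Agent.Lib.MP_4ccb00_al.N.SPT
import Pool.Agent.Lib.MP_4ccb00_al.N.KKK
import Pool.Agent.Lib.MP_4ccb00_al.N.RNK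
import Pool.Agent.Lib.MP_4ccb00_al.N.OVR
import Pool.Agent.Lib.MP_4ccb00_al.N.SNG
import Pool.Agent.Lib.MP_4ccb00_al.N.YPH

section
/-!
# MP_4ccb00_al, part (e), module LAD: the interface with the linear algebra
-/
namespace Pool.Agent.Lib.MP4ccb00.E

open scoped commutatorElement

theorem specLAD (hDICH : LA.SpecDICH) : SpecLAD := by
  intro k hk
  obtain ⟨N', B, n₀, h⟩ := hDICH k hk
  refine ⟨B, N' + 1, n₀, Nat.le_add_left 1 N', ?_⟩
  intro n hn p _ V _ _ _ S hS hSn hVn
  have hS' : S ≤ LA.Alt p V := fun β hβ => hS β hβ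
  rcases h p V S n hn hS' hSn hVn with ⟨T, hT, hvan⟩ | ⟨U, hU, ht, hinv⟩
  · left
    refine ⟨Submodule.span (ZMod p) (T : Set V), ?_, ?_⟩
    · have h1 := finrank_span_finset_le_card (R := ZMod p) T
      calc Module.finrank (ZMod p) (Submodule.span (ZMod p) (T : Set V)) * k ≤ T.card * k :=
            Nat.mul_le_mul_right k h1
        _ = k * T.card := Nat.mul_comm _ _
        _ ≤ n := hT
    · intro β hβ hz
      have h2 : β ∈ LA.van S (Submodule.span (ZMod p) (T : Set V)) := ⟨hβ, hz⟩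
      rw [hvan] at h2
      exact (Submodule.mem_bot _).1 h2
  · right
    refine ⟨U, ?_, ?_, LA.van S U, fun β hβ => hβ.1, fun β hβ => hβ.2, ?_⟩
    · have h1 := Submodule.finrank_quotient_add_finrank U
      omega
    · intro g hg x hx
      have h2 := hinv g hg
      rw [← h2]
      exact ⟨x, hx, rfl⟩
    · calc n ≤ N' * Module.finrank (ZMod p) (LA.van S U) := ht
        _ ≤ (N' + 1) * Module.finrank (ZMod p) (LA.van S U) :=
          Nat.mul_le_mul_right _ (Nat.le_succ N')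

end Pool.Agent.Lib.MP4ccb00.E
end

section
/-!
# MP_4ccb00_al: all modules together
-/
set_option autoImplicit false

namespace Pool.Agent.Lib.MP4ccb00.N

open E

namespace All

theorem abp : SpecABP := specABP

theorem xfin : SpecXFIN := specXFIN

theorem eqv : SpecEQV := specEQV abp

theorem cls : SpecCLS := specCLS xfin eqv

theorem dec : SpecDEC := specDEC abp xfin

theorem gbf : SpecGBF := specGBF

theorem gbb : SpecGBB := specGBB gbf

theorem glb : SpecGLB := specGLB

theorem mlb : SpecMLB := specMLB gbb glb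

theorem mon : SpecMON := specMON gbf

theorem max : SpecMAX := specMAX mlb

theorem pul : SpecPUL := specPUL abp

theorem dms : SpecDMS := specDMS abp

theorem goo : SpecGOO := specGOO abp dms pul

theorem sup : SpecSUP := specSUP abp

theorem cnt : SpecCNT := specCNT goo dms

theorem low : SpecLOW := specLOW xfin eqv abp

theorem lbd : SpecLBD := specLBD dec cls low cnt

theorem bur : SpecBUR := specBUR xfin abp

theorem ind : SpecIND := specIND

theorem alt : SpecALT := specALT ind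

theorem rkm : SpecRKM := specRKM alt dms pul abp

theorem ivs : SpecIVS := specIVS ind gbf gbb

theorem fix : SpecFIX := specFIX ivs rkm specSML glb dms pul

theorem e3 : SpecE3 := specE3

theorem inv : SpecINV := specINV specCEN specGEN specHOM

theorem e1 : SpecE1 := specE1 inv

theorem del : SpecDEL := specDEL e3

theorem e4 : SpecE4 := specE4 e1 del

theorem str : SpecSTR := specSTR e4

theorem lad : SpecLAD := specLAD LA.specDICH

theorem e5 : SpecE5 := specE5 lad specBF specHOM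

theorem e6 : SpecE6 := specE6 e5

theorem smd : SpecSMD := specSMD specCNTA

theorem e7 : SpecE7 := specE7 e5 e6 str specDIM specNUM smd

theorem e8 : SpecE8 := specE8 e6 str specDIM specNUM smd

theorem fib : SpecFIB := specFIB

theorem phs : SpecPHS := specPHS abp

theorem ded : SpecDED := specDED

theorem yfi : SpecYFI := specYFI specYPH

theorem crs : SpecCRS := specCRS specRNK

theorem crg : SpecCRG := specCRG fib crs gbf gbb

theorem det : SpecDET := specDET specACT

theorem fbr : SpecFBR := specFBR fib det specWRD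

theorem nd1 : SpecND1 := specND1 fib phs ded specNDT specNAA yfi crs fbr

theorem nd2 : SpecND2 := specND2 fib phs ded specNDT specNAA yfi crg fbr

theorem kkk : SpecKKK := specKKK abp specBOT specCYC

theorem kap : SpecKAP := specKAP kkk ded phs

theorem adj : SpecADJ := specADJ specBF

theorem spt : SpecSPT := specSPT specTWI adj abp

theorem tri : SpecTRI := specTRI specTWI spt specGLV xfin eqv

theorem ovr : SpecOVR := specOVR fib spt specGLV

theorem ntr : SpecNTR := specNTR bur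

theorem fxg : SpecFXG := specFXG fix goo

theorem nsd : SpecNSD := specNSD ded kap specXZG abp

theorem sng : SpecSNG := specSNG eqv sup abp

theorem rep : SpecREP := specREP xfin

theorem pt3 : SpecPT3 := specPT3 abp eqv mlb specXZG rep sng nsd nd1

theorem ptt : SpecPTT := specPTT abp eqv sup gbb specXZG tri sng nsd nd2

theorem ptm : SpecPTM := specPTM abp eqv specXZG nsd nd1

theorem ptn : SpecPTN := specPTN xfin eqv sup cls gbb specTWI spt specGLV ovr ntr fxg ptm sng nsd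

theorem mgd : SpecMGD := specMGD bur fxg cnt eqv gbb

/-- The main bound. -/
theorem sharp : ∃ n0 : ℕ, ∀ n ≥ n0, ∀ p : ℕ, p.Prime →
    (numGroups (p ^ n) : ℝ) ≤ (1 + 2 / (p : ℝ) ^ (n ^ 2 / 200)) * ∑ d ∈ near n, mass p d n :=
  MUPM.sharp dec cls eqv pt3 ptt ptn mgd e7 e8 max abp

theorem mainUpper : MainUpper := specMUP dec cls eqv pt3 ptt ptn mgd e7 e8 max abp

/-- The monotonicity theorem. -/
theorem monotone : ∃ n0 : ℕ, ∀ n ≥ n0, ∀ p q : ℕ, p.Prime → q.Prime → p < q →
    numGroups (p ^ n) < numGroups (q ^ n) :=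
  specEND mon lbd gbb glb mainUpper

/-- Almost all groups of order `p ^ n` have a central elementary abelian Frattini subgroup. -/
theorem almost : SpecALM := specALM (specDCB abp xfin) lbd cls pt3 ptt ptn e7 e8 max abp

end All

end Pool.Agent.Lib.MP4ccb00.N
end

section
/-!
# MP_4ccb00_al: the theorems in final form
-/
set_option autoImplicit false

namespace Pool.Agent.Lib.MP4ccb00.N

open E

namespace FinalM

/-- The quantitative form of the monotonicity theorem. -/
theorem ratio : ∃ n0 : ℕ, ∀ n ≥ n0, ∀ p q : ℕ, p.Prime → q.Prime → p < q →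
    numGroups (p ^ n) < numGroups (q ^ n) ∧
    numGroups (p ^ n) * q ^ (n ^ 3 / 21) < numGroups (q ^ n) * p ^ (n ^ 3 / 21) := by
  obtain ⟨n1, hU⟩ := All.mainUpper
  obtain ⟨n2, hM⟩ := All.mon
  refine ⟨Nat.max (Nat.max n1 n2) 300, ?_⟩
  intro n hn p q hp hq hpq
  have hn1 : n1 ≤ n := le_trans (le_trans (Nat.le_max_left _ _) (Nat.le_max_left _ _)) hn
  have hn2 : n2 ≤ n := le_trans (le_trans (Nat.le_max_right _ _) (Nat.le_max_left _ _)) hn
  have hn3 : 300 ≤ n := le_trans (Nat.le_max_right _ _) hn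
  have hpp : (0 : ℝ) < p := by exact_mod_cast hp.pos
  have hqq : (0 : ℝ) < q := by exact_mod_cast hq.pos
  have hp2 : (2 : ℝ) ≤ p := by exact_mod_cast hp.two_le
  set S : ℝ := ∑ d ∈ near n, mass p d n with hS
  have hSpos : 0 < S := by
    obtain ⟨d, hd, hd2⟩ := ENDM.near_nonempty hn3
    exact Finset.sum_pos' (fun i _ => ENDM.mass_nonneg p i n)
      ⟨d, hd, ENDM.mass_pos All.gbb All.glb hp hd2⟩
  have hUp := hU n hn1 p hp
  have hk : n ^ 3 / 21 + 1 ≤ n ^ 3 / 20 := by
    have h1 : 300 ^ 3 ≤ n ^ 3 := Nat.pow_le_pow_left hn3 3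
    omega
  have hqp : 1 + 1 / (p : ℝ) ≤ (q : ℝ) / p := by
    have h1 : (p : ℝ) + 1 ≤ q := by exact_mod_cast hpq
    rw [le_div_iff₀ hpp]
    have : (1 + 1 / (p : ℝ)) * p = p + 1 := by field_simp
    linarith
  have hge1 : (1 : ℝ) ≤ (q : ℝ) / p := by
    have : (0 : ℝ) < 1 / (p : ℝ) := by positivity
    linarith
  have h1 : ((q : ℝ) / p) ^ (n ^ 3 / 20) * S ≤ ∑ d ∈ near n, mass q d n := by
    rw [hS, Finset.mul_sum]
    exact Finset.sum_le_sum fun d hd => hM n hn2 p q hp hq hpq d hd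
  have h2 : ∑ d ∈ near n, mass q d n ≤ ∑ d ∈ Finset.range (n + 1), mass q d n := by
    apply Finset.sum_le_sum_of_subset_of_nonneg
    · unfold near
      exact Finset.filter_subset _ _
    · intro i _ _
      exact ENDM.mass_nonneg q i n
  have h3 := All.lbd q n hq
  have h4 : ((q : ℝ) / p) ^ (n ^ 3 / 21) * ((q : ℝ) / p) ≤ ((q : ℝ) / p) ^ (n ^ 3 / 20) := by
    rw [← pow_succ]
    exact pow_le_pow_right₀ hge1 hk
  have h5 : (numGroups (p ^ n) : ℝ) < (q : ℝ) / p * S := by
    have h6 : (1 + 1 / (p : ℝ) ^ 2) * S < (1 + 1 / (p : ℝ)) * S := by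
      apply mul_lt_mul_of_pos_right _ hSpos
      have : 1 / (p : ℝ) ^ 2 < 1 / (p : ℝ) := by
        apply one_div_lt_one_div_of_lt hpp
        nlinarith
      linarith
    have h7 : (1 + 1 / (p : ℝ)) * S ≤ (q : ℝ) / p * S := mul_le_mul_of_nonneg_right hqp hSpos.le
    linarith
  have hpos : (0 : ℝ) < ((q : ℝ) / p) ^ (n ^ 3 / 21) := by positivity
  have h8 : (numGroups (p ^ n) : ℝ) * ((q : ℝ) / p) ^ (n ^ 3 / 21) < (numGroups (q ^ n) : ℝ) := by
    calc (numGroups (p ^ n) : ℝ) * ((q : ℝ) / p) ^ (n ^ 3 / 21)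
        < ((q : ℝ) / p * S) * ((q : ℝ) / p) ^ (n ^ 3 / 21) := mul_lt_mul_of_pos_right h5 hpos
      _ = (((q : ℝ) / p) ^ (n ^ 3 / 21) * ((q : ℝ) / p)) * S := by ring
      _ ≤ ((q : ℝ) / p) ^ (n ^ 3 / 20) * S := mul_le_mul_of_nonneg_right h4 hSpos.le
      _ ≤ _ := by linarith
  have h9 : (numGroups (p ^ n) : ℝ) * (q : ℝ) ^ (n ^ 3 / 21) <
      (numGroups (q ^ n) : ℝ) * (p : ℝ) ^ (n ^ 3 / 21) := by
    have hpk : (0 : ℝ) < (p : ℝ) ^ (n ^ 3 / 21) := by positivity
    have h10 := mul_lt_mul_of_pos_right h8 hpk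
    rw [div_pow, mul_assoc, div_mul_cancel₀ _ hpk.ne'] at h10
    exact h10
  have h11 : numGroups (p ^ n) * q ^ (n ^ 3 / 21) < numGroups (q ^ n) * p ^ (n ^ 3 / 21) := by
    exact_mod_cast h9
  refine ⟨?_, h11⟩
  have h12 : p ^ (n ^ 3 / 21) ≤ q ^ (n ^ 3 / 21) := Nat.pow_le_pow_left hpq.le _
  have h13 : numGroups (p ^ n) * p ^ (n ^ 3 / 21) < numGroups (q ^ n) * p ^ (n ^ 3 / 21) :=
    lt_of_le_of_lt (Nat.mul_le_mul_left _ h12) h11
  exact lt_of_mul_lt_mul_right h13 (Nat.zero_le _)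

/-- The asymptotic formula. -/
theorem asymptotic : ∃ n0 : ℕ, ∀ n ≥ n0, ∀ p : ℕ, p.Prime →
    ∑ d ∈ near n, mass p d n ≤ (numGroups (p ^ n) : ℝ) ∧
    (numGroups (p ^ n) : ℝ) ≤ (1 + 2 / (p : ℝ) ^ (n ^ 2 / 200)) * ∑ d ∈ near n, mass p d n := by
  obtain ⟨n0, h⟩ := All.sharp
  refine ⟨n0, fun n hn p hp => ⟨?_, h n hn p hp⟩⟩
  refine le_trans ?_ (All.lbd p n hp)
  apply Finset.sum_le_sum_of_subset_of_nonneg
  · unfold near
    exact Finset.filter_subset _ _
  · intro i _ _
    exact ENDM.mass_nonneg p i n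

end FinalM

end Pool.Agent.Lib.MP4ccb00.N
end
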