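import Pool.Agent.Lib.MP_4ccb00_al.N.ND2

/-!
# MP_4ccb00_al, part N, module RGA: rigid groups

`Rigid p n G`: all automorphisms of `G` act trivially on `G / Phi (G)`, `|G : Phi (G)| = p ^ d` with
`d` near `2 n / 3`, and the automorphism group has order `p ^ (d (n - d))`.
-/

set_option autoImplicit false

namespace Pool.Agent.Lib.MP4ccb00

open Subgroup

open scoped commutatorElement

/-- The subgroup generated by the `p`-th powers and the commutators. -/
def Frat (p : ℕ) (G : Type) [Group G] : Subgroup G :=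
  Subgroup.closure {z | (∃ x : G, z = x ^ p) ∨ ∃ x y : G, z = ⁅x, y⁆}

/-- All automorphisms of `G` act trivially on `G / Phi (G)`, `|G : Phi (G)| = p ^ d` with `d` near
`2 n / 3`, and the automorphism group has order `p ^ (d (n - d))`. -/
def Rigid (p n : ℕ) (G : Type) [Group G] : Prop :=
  (∀ (α : MulAut G) (x : G), x⁻¹ * α x ∈ Frat p G) ∧
  ∃ d : ℕ, 199 * n ≤ 300 * d ∧ 300 * d ≤ 201 * n ∧ (Frat p G).index = p ^ d ∧
    Nat.card (MulAut G) = p ^ (d * (n - d))

namespace RGAM

theorem frat_eq (p : ℕ) (G : Type) [Group G] : Frat p G = Phi p (⊤ : Subgroup G) := by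
  apply le_antisymm
  · unfold Frat
    rw [closure_le]
    rintro z (⟨x, rfl⟩ | ⟨x, y, rfl⟩)
    · exact ABPM.mem_phi_pow x
    · exact ABPM.mem_phi_comm x y
  · show ⁅(⊤ : Subgroup G), ⊤⁆ ⊔ closure {x | ∃ y ∈ (⊤ : Subgroup G), x = y ^ p} ≤ Frat p G
    rw [sup_le_iff, commutator_le, closure_le]
    constructor
    · intro x _ y _
      exact subset_closure (Or.inr ⟨x, y, rfl⟩)
    · rintro _ ⟨y, -, rfl⟩
      exact subset_closure (Or.inl ⟨y, rfl⟩)

theorem rigid_iso (p n : ℕ) (G G' : Type) (g : Group G) (g' : Group G') (h : DECM.NI g g')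
    (hG : @Rigid p n G g) : @Rigid p n G' g' := by
  obtain ⟨e⟩ := h
  have hmap : (Frat p G).map e.toMonoidHom = Frat p G' := by
    rw [frat_eq, frat_eq]
    exact DECM.phi_map e.toMonoidHom e.surjective
  obtain ⟨h1, d, h2, h3, h4, h5⟩ := hG
  refine ⟨?_, d, h2, h3, ?_, ?_⟩
  · intro α x
    obtain ⟨x, rfl⟩ := e.surjective x
    have h6 := h1 ((MulAut.congr e).symm α) x
    have h7 : e (x⁻¹ * (MulAut.congr e).symm α x) = (e x)⁻¹ * α (e x) := by
      rw [map_mul, map_inv]
      congr 1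
      show e (e.symm (α (e x))) = _
      rw [MulEquiv.apply_symm_apply]
    rw [← h7, ← hmap]
    exact mem_map_of_mem e.toMonoidHom h6
  · rw [← h4, ← hmap]
    exact index_map_equiv (Frat p G) e
  · rw [← h5]
    exact (Nat.card_congr (MulAut.congr e).toEquiv).symm

/-! ### Automorphisms of the group of a marked group -/

section

variable {p d n : ℕ}

/-- an automorphism is induced by a tuple -/
theorem lift_aut {R : Subgroup (FG d)} [R.Normal] (α : MulAut (FG d ⧸ R)) :
    ∃ y : Fin d → FG d, (∀ w : FG d, (QuotientGroup.mk (hm y w) : FG d ⧸ R) =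
      α (QuotientGroup.mk w)) ∧ R = R.comap (hm y) ∧ R ⊔ (hm y).range = ⊤ := by
  have hex : ∀ i : Fin d, ∃ u : FG d, (QuotientGroup.mk u : FG d ⧸ R) =
      α (QuotientGroup.mk (FreeGroup.of i)) := fun i => QuotientGroup.mk_surjective _
  choose y hy using hex
  have key : (QuotientGroup.mk' R).comp (hm y) =
      (MulEquiv.toMonoidHom α).comp (QuotientGroup.mk' R) := by
    refine FreeGroup.ext_hom _ _ fun i => ?_
    rw [MonoidHom.comp_apply, EQVM.hm_of]
    exact hy i
  have key' : ∀ w, (QuotientGroup.mk (hm y w) : FG d ⧸ R) = α (QuotientGroup.mk w) := fun w =>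
    DFunLike.congr_fun key w
  refine ⟨y, key', ?_, ?_⟩
  · ext w
    rw [Subgroup.mem_comap, ← QuotientGroup.eq_one_iff, ← QuotientGroup.eq_one_iff, key' w,
      map_eq_one_iff α (MulEquiv.injective α)]
  · rw [eq_top_iff]
    intro v _
    obtain ⟨w, hw⟩ := QuotientGroup.mk_surjective ((MulEquiv.symm α) (QuotientGroup.mk v))
    have h1 : (QuotientGroup.mk (hm y w) : FG d ⧸ R) = QuotientGroup.mk v := by
      rw [key' w, hw]
      exact MulEquiv.apply_symm_apply α _
    have h2 : (hm y w)⁻¹ * v ∈ R := QuotientGroup.eq.1 h1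
    have h3 : v = hm y w * ((hm y w)⁻¹ * v) := by group
    rw [h3]
    exact mul_mem (mem_sup_right ⟨w, rfl⟩) (mem_sup_left h2)

/-- a tuple with matrix `1` moves the elements by elements of `Phi` -/
theorem move (hABP : SpecABP) (hp : p.Prime) (y : Fin d → FG d) (h : mat p y = 1) (w : FG d) :
    w⁻¹ * hm y w ∈ Phi p (⊤ : Subgroup (FG d)) := by
  obtain ⟨hker, -, hvec, -, -, -⟩ := hABP p d hp
  rw [← hker, MonoidHom.mem_ker, map_mul, map_inv, inv_mul_eq_one]
  apply Multiplicative.toAdd.injective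
  rw [hvec, h, Matrix.vecMul_one]

/-- if `ImA` is trivial then automorphisms act trivially modulo `Phi` -/
theorem trivial_act (hABP : SpecABP) (hEQV : SpecEQV) (hp : p.Prime) {R : Subgroup (FG d)}
    [R.Normal] (hR : R ∈ X p d n) (hI : ImA p R ⊆ {1}) (α : MulAut (FG d ⧸ R))
    (x : FG d ⧸ R) : x⁻¹ * α x ∈ Phi p (⊤ : Subgroup (FG d ⧸ R)) := by
  obtain ⟨y, hy, h1, h2⟩ := lift_aut α
  obtain ⟨w, rfl⟩ := QuotientGroup.mk_surjective x
  have hu := (hEQV p d n hp).2.2.2.2 R hR R hR y h1 h2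
  have hg : hu.unit ∈ ImA p R := ⟨y, (IsUnit.unit_spec hu).symm, h1.le⟩
  have hg1 : hu.unit = 1 := hI hg
  have hm1 : mat p y = 1 := by
    rw [← IsUnit.unit_spec hu, hg1]
    rfl
  rw [← hy w]
  have h3 : (QuotientGroup.mk w : FG d ⧸ R)⁻¹ * QuotientGroup.mk (hm y w) =
      QuotientGroup.mk' R (w⁻¹ * hm y w) := rfl
  rw [h3, ← DECM.phi_map (QuotientGroup.mk' R) (QuotientGroup.mk'_surjective R)]
  exact mem_map_of_mem _ (move hABP hp y hm1 w)

theorem index_phi (hABP : SpecABP) (hp : p.Prime) {R : Subgroup (FG d)}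
    [R.Normal] (hR : R ∈ X p d n) : (Phi p (⊤ : Subgroup (FG d ⧸ R))).index = p ^ d := by
  rw [DECM.phi_index (QuotientGroup.mk' R) (QuotientGroup.mk'_surjective R)
      (by rw [QuotientGroup.ker_mk']; exact hR.2.1)]
  exact (hABP p d hp).2.2.2.2.2

/-- a tuple `x_i z_i` with `z_i ∈ Phi` induces an automorphism -/
theorem exists_aut (hABP : SpecABP) (hp : p.Prime) {R : Subgroup (FG d)}
    [R.Normal] (hR : R ∈ Good p d n) (z : Fin d → Phi p (⊤ : Subgroup (FG d ⧸ R))) :
    ∃ α : MulAut (FG d ⧸ R), ∀ i, α (QuotientGroup.mk (FreeGroup.of i)) =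
      QuotientGroup.mk (FreeGroup.of i) * (z i : FG d ⧸ R) := by
  have : Fact p.Prime := ⟨hp⟩
  obtain ⟨hker, -, hvec, -, -, -⟩ := hABP p d hp
  have hex : ∀ i : Fin d, ∃ u ∈ Phi p (⊤ : Subgroup (FG d)),
      (QuotientGroup.mk' R u : FG d ⧸ R) = z i := by
    intro i
    exact mem_map.1 ((DECM.phi_map (p := p) (QuotientGroup.mk' R)
      (QuotientGroup.mk'_surjective R)).ge (z i).2)
  choose u hu1 hu2 using hex
  let y : Fin d → FG d := fun i => FreeGroup.of i * u i
  have hmat : mat p y = mat p (fun i : Fin d => FreeGroup.of i) := by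
    funext i
    show Multiplicative.toAdd (ab p (FreeGroup.of i * u i)) =
      Multiplicative.toAdd (ab p (FreeGroup.of i))
    have h1 : ab p (u i) = 1 := by
      rw [← MonoidHom.mem_ker, hker]
      exact hu1 i
    rw [map_mul, h1, mul_one]
  have hmat1 : mat p y = 1 := by
    rw [hmat]
    ext i j
    show Multiplicative.toAdd (ab p (FreeGroup.of i)) j = _
    simp [ab, Matrix.one_apply, Pi.single_apply, eq_comm]
  have hPsi : ∀ w ∈ Phi p (⊤ : Subgroup (FG d)), w⁻¹ * hm y w ∈ R := by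
    intro w hw
    have h1 := LOWM.same_mat hABP hp hmat hw
    rw [EQVM.hm_id, MonoidHom.id_apply] at h1
    exact hR.2 h1
  have hle : R ≤ R.comap (hm y) := by
    intro w hw
    rw [mem_comap]
    have h1 : hm y w = w * (w⁻¹ * hm y w) := by group
    rw [h1]
    exact mul_mem hw (hPsi w (hR.1.2.1 hw))
  let f : (FG d ⧸ R) →* (FG d ⧸ R) := QuotientGroup.map R R (hm y) hle
  have hf : ∀ w : FG d, f (QuotientGroup.mk w) = QuotientGroup.mk (hm y w) := fun w => rfl
  have hc : Nat.card (FG d ⧸ R) = p ^ n := hR.1.2.2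
  have hfin : Finite (FG d ⧸ R) := Nat.finite_of_card_ne_zero (by
    rw [hc]; exact (pow_pos hp.pos n).ne')
  have hpg : IsPGroup p (FG d ⧸ R) := IsPGroup.of_card hc
  have hsurj : Function.Surjective f := by
    rw [← MonoidHom.range_eq_top]
    apply DECM.frattini hpg
    rw [eq_top_iff]
    intro x _
    obtain ⟨w, rfl⟩ := QuotientGroup.mk_surjective x
    have h1 : (QuotientGroup.mk w : FG d ⧸ R) =
        f (QuotientGroup.mk w) * (QuotientGroup.mk' R (w⁻¹ * hm y w))⁻¹ := by
      rw [hf, QuotientGroup.mk'_apply, QuotientGroup.mk_mul, QuotientGroup.mk_inv]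
      group
    rw [h1]
    refine mul_mem (mem_sup_left ⟨_, rfl⟩) (inv_mem (mem_sup_right ?_))
    rw [← DECM.phi_map (QuotientGroup.mk' R) (QuotientGroup.mk'_surjective R)]
    exact mem_map_of_mem _ (move hABP hp y hmat1 w)
  have hbij : Function.Bijective f := hsurj.bijective_of_finite
  refine ⟨MulEquiv.ofBijective f hbij, fun i => ?_⟩
  show f (QuotientGroup.mk (FreeGroup.of i)) = _
  rw [hf, EQVM.hm_of, ← hu2 i]
  rfl

/-- automorphisms are determined by their values on generators -/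
theorem aut_ext {R : Subgroup (FG d)} [R.Normal] (α β : MulAut (FG d ⧸ R))
    (h : ∀ i : Fin d, α (QuotientGroup.mk (FreeGroup.of i)) = β (QuotientGroup.mk (FreeGroup.of i))) :
    α = β := by
  have key : (MulEquiv.toMonoidHom α).comp (QuotientGroup.mk' R) =
      (MulEquiv.toMonoidHom β).comp (QuotientGroup.mk' R) := by
    refine FreeGroup.ext_hom _ _ fun i => ?_
    exact h i
  apply MulEquiv.ext
  intro x
  obtain ⟨w, rfl⟩ := QuotientGroup.mk_surjective x
  exact DFunLike.congr_fun key w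

theorem card_aut (hABP : SpecABP) (hEQV : SpecEQV) (hp : p.Prime) (hdn : d ≤ n)
    {R : Subgroup (FG d)} [R.Normal] (hR : R ∈ Good p d n) (hI : ImA p R ⊆ {1}) :
    Nat.card (MulAut (FG d ⧸ R)) = p ^ (d * (n - d)) := by
  have hc : Nat.card (FG d ⧸ R) = p ^ n := hR.1.2.2
  have hphi : Nat.card (Phi p (⊤ : Subgroup (FG d ⧸ R))) = p ^ (n - d) := by
    have h1 := Subgroup.card_mul_index (Phi p (⊤ : Subgroup (FG d ⧸ R)))
    rw [index_phi hABP hp hR.1, hc] at h1
    have h2 : p ^ n = p ^ (n - d) * p ^ d := by rw [← pow_add, Nat.sub_add_cancel hdn]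
    rw [h2] at h1
    exact Nat.eq_of_mul_eq_mul_right (pow_pos hp.pos d) h1
  let F : MulAut (FG d ⧸ R) → (Fin d → Phi p (⊤ : Subgroup (FG d ⧸ R))) := fun α i =>
    ⟨(QuotientGroup.mk (FreeGroup.of i))⁻¹ * α (QuotientGroup.mk (FreeGroup.of i)),
      trivial_act hABP hEQV hp hR.1 hI α _⟩
  have hF : Function.Bijective F := by
    constructor
    · intro α β h
      refine aut_ext α β fun i => ?_
      have h1 := congrArg Subtype.val (congrFun h i)
      exact mul_left_cancel h1
    · intro z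
      obtain ⟨α, hα⟩ := exists_aut hABP hp hR z
      refine ⟨α, ?_⟩
      funext i
      apply Subtype.ext
      show (QuotientGroup.mk (FreeGroup.of i))⁻¹ * α (QuotientGroup.mk (FreeGroup.of i)) = _
      rw [hα i, inv_mul_cancel_left]
  rw [Nat.card_congr (Equiv.ofBijective F hF), Nat.card_fun, hphi, Nat.card_fin, ← pow_mul,
    mul_comm]

theorem rigid_of (hABP : SpecABP) (hEQV : SpecEQV) (hp : p.Prime) (hd : d ∈ near n)
    {R : Subgroup (FG d)} [R.Normal] (hR : R ∈ Good p d n) (hI : ImA p R ⊆ {1}) :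
    Rigid p n (FG d ⧸ R) := by
  unfold near at hd
  rw [Finset.mem_filter, Finset.mem_range] at hd
  obtain ⟨hdn, hd1, hd2⟩ := hd
  refine ⟨fun α x => ?_, d, hd2, hd1, ?_, ?_⟩
  · rw [frat_eq]
    exact trivial_act hABP hEQV hp hR.1 hI α x
  · rw [frat_eq]
    exact index_phi hABP hp hR.1
  · exact card_aut hABP hEQV hp (by omega) hR hI

end

end RGAM

end Pool.Agent.Lib.MP4ccb00
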