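import Pool.Agent.Lib.MP_4ccb00_al.N.RGA
import Pool.Agent.Lib.MP_4ccb00_al.N.Final

/-!
# MP_4ccb00_al, part N, module RGB: almost all groups of order `p ^ n` are rigid
-/

set_option autoImplicit false

namespace Pool.Agent.Lib.MP4ccb00

open Subgroup Module E N

/-- The number of isomorphism classes of groups of order `p ^ n` which are not rigid. -/
noncomputable def numFlexible (p n : ℕ) : ℕ :=
  Nat.card (Quot (fun g h : {g : Group (Fin (p ^ n)) // ¬ @Rigid p n (Fin (p ^ n)) g} =>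
    Nonempty (@MulEquiv (Fin (p ^ n)) (Fin (p ^ n))
      (@Semigroup.toMul _ (@Monoid.toSemigroup _ (@DivInvMonoid.toMonoid _ (@Group.toDivInvMonoid _ g.1))))
      (@Semigroup.toMul _ (@Monoid.toSemigroup _ (@DivInvMonoid.toMonoid _ (@Group.toDivInvMonoid _ h.1)))))))

namespace RGBM

/-- the good marked groups with an automorphism acting non-trivially modulo `Phi` -/
def Sym (p d n : ℕ) : Set (Subgroup (FG d)) := {R | R ∈ Good p d n ∧ ¬ ImA p R ⊆ {1}}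

theorem sat_good (hEQV : SpecEQV) (p d n : ℕ) (hp : p.Prime) : Sat p d n (Good p d n) :=
  ⟨fun _ hR => hR.1, fun R hR R' hR' h => (hEQV p d n hp).2.2.2.1 R hR R' hR' h⟩

theorem sat_sym (hEQV : SpecEQV) (hSNG : SpecSNG) (p d n : ℕ) (hp : p.Prime) :
    Sat p d n (Sym p d n) := by
  have h := ((hSNG p d n hp).2.2.1 (Good p d n) (sat_good hEQV p d n hp)).2
  have h1 : {R | R ∈ Good p d n ∧ ¬ ImA p (R ⊔ Psi p (FG d)) ⊆ {1}} = Sym p d n := by
    ext R
    constructor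
    · rintro ⟨h1, h2⟩
      rw [sup_eq_left.2 h1.2] at h2
      exact ⟨h1, h2⟩
    · rintro ⟨h1, h2⟩
      refine ⟨h1, ?_⟩
      rw [sup_eq_left.2 h1.2]
      exact h2
  rw [h1] at h
  exact h

theorem ncl_sym (hEQV : SpecEQV) (hSNG : SpecSNG) (hNTR : SpecNTR) (hFXG : SpecFXG)
    (hGBB : SpecGBB) : ∃ n0 : ℕ, ∀ n ≥ n0, ∀ p : ℕ, p.Prime → ∀ d ∈ near n,
    (ncl (Sym p d n) : ℝ) * (p : ℝ) ^ (n ^ 2 / 20) ≤ 2 * mass p d n := by
  obtain ⟨n0, h0⟩ := hFXG
  refine ⟨n0, ?_⟩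
  intro n hn p hp d hd
  have : Fact p.Prime := ⟨hp⟩
  unfold near at hd
  rw [Finset.mem_filter, Finset.mem_range] at hd
  obtain ⟨hdn, hd1, hd2⟩ := hd
  obtain ⟨e, rfl⟩ : ∃ e, n = d + e := ⟨n - d, by omega⟩
  have hX := h0 (d + e) hn p hp d e hd1 hd2 (by omega) (by omega)
  have hem : e ≤ d * (d + 1) / 2 := by
    have h1 : e ≤ d := by omega
    refine h1.trans ?_
    rw [Nat.le_div_iff_mul_le (by norm_num)]
    rcases Nat.eq_zero_or_pos d with h | h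
    · subst h
      simp
    · nlinarith
  obtain ⟨hG, -⟩ := hGBB p (d * (d + 1) / 2) e hp hem
  set A : Set (Subgroup (FG d) × GLp p d) :=
    {x | x.1 ∈ Good p d (d + e) ∧ x.2 ≠ 1 ∧ x.2 ∈ ImA p x.1} with hA
  have hAfin : A.Finite := NTRM.fin_pairs p d (d + e) hp (Good p d (d + e)) (fun R hR => hR.1)
    (fun x => x.2 ≠ 1 ∧ x.2 ∈ ImA p x.1)
  have hN := hNTR p d (d + e) hp (Sym p d (d + e)) (sat_sym hEQV hSNG p d (d + e) hp)
    (fun R hR => by
      have h1 := hR.2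
      rw [Set.not_subset] at h1
      obtain ⟨g, hg, hg1⟩ := h1
      exact ⟨g, hg, hg1⟩)
  have hcard : {x : Subgroup (FG d) × GLp p d | x.1 ∈ Sym p d (d + e) ∧ x.2 ≠ 1 ∧
      x.2 ∈ ImA p x.1}.ncard ≤ A.ncard :=
    Set.ncard_le_ncard (fun x hx => ⟨hx.1.1, hx.2⟩) hAfin
  have hA2 : A.ncard * p ^ ((d + e) ^ 2 / 20) ≤ gb p (d * (d + 1) / 2) e := hX.trans hG
  have hmain : ncl (Sym p d (d + e)) * Nat.card (GLp p d) * p ^ ((d + e) ^ 2 / 20) ≤
      2 * gb p (d * (d + 1) / 2) e := by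
    calc ncl (Sym p d (d + e)) * Nat.card (GLp p d) * p ^ ((d + e) ^ 2 / 20)
        ≤ 2 * A.ncard * p ^ ((d + e) ^ 2 / 20) :=
          Nat.mul_le_mul_right _ (hN.trans (Nat.mul_le_mul_left 2 hcard))
      _ = 2 * (A.ncard * p ^ ((d + e) ^ 2 / 20)) := by ring
      _ ≤ 2 * gb p (d * (d + 1) / 2) e := Nat.mul_le_mul_left 2 hA2
  have hGL : (0 : ℝ) < (Nat.card (GLp p d) : ℝ) := by
    exact_mod_cast Nat.card_pos
  unfold mass
  rw [Nat.add_sub_cancel_left, ← mul_div_assoc, le_div_iff₀ hGL]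
  have h1 : (ncl (Sym p d (d + e)) : ℝ) * (Nat.card (GLp p d) : ℝ) * (p : ℝ) ^ ((d + e) ^ 2 / 20) ≤
      2 * (gb p (d * (d + 1) / 2) e : ℝ) := by exact_mod_cast hmain
  calc (ncl (Sym p d (d + e)) : ℝ) * (p : ℝ) ^ ((d + e) ^ 2 / 20) * (Nat.card (GLp p d) : ℝ)
      = (ncl (Sym p d (d + e)) : ℝ) * (Nat.card (GLp p d) : ℝ) * (p : ℝ) ^ ((d + e) ^ 2 / 20) := by
        ring
    _ ≤ 2 * (gb p (d * (d + 1) / 2) e : ℝ) := h1

/-- the numbers -/
theorem numeric (p : ℝ) (hp : 2 ≤ p) (n : ℕ) (hn : 100 ≤ n) (S A B : ℝ) (hS : 0 ≤ S)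
    (hA : A * p ^ (n ^ 2 / 200) ≤ S) (hB : B * p ^ (n ^ 2 / 20) ≤ 2 * S) :
    (A + B) * p ^ (n ^ 2 / 250) ≤ S := by
  have hp0 : (0 : ℝ) < p := by linarith
  have hp1 : (1 : ℝ) ≤ p := by linarith
  set k := n ^ 2 / 250 with hk
  have hn2 : 10000 ≤ n ^ 2 := by nlinarith
  have h1 : k + 1 ≤ n ^ 2 / 200 := by omega
  have h2 : k + 2 ≤ n ^ 2 / 20 := by omega
  have e1 : p ^ k * 2 ≤ p ^ (n ^ 2 / 200) := by
    calc p ^ k * 2 ≤ p ^ k * p := mul_le_mul_of_nonneg_left hp (by positivity)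
      _ = p ^ (k + 1) := (pow_succ p k).symm
      _ ≤ p ^ (n ^ 2 / 200) := pow_le_pow_right₀ hp1 h1
  have e2 : p ^ k * 4 ≤ p ^ (n ^ 2 / 20) := by
    calc p ^ k * 4 ≤ p ^ k * p ^ 2 := mul_le_mul_of_nonneg_left (by nlinarith) (by positivity)
      _ = p ^ (k + 2) := (pow_add p k 2).symm
      _ ≤ p ^ (n ^ 2 / 20) := pow_le_pow_right₀ hp1 h2
  have hpk : (0 : ℝ) < p ^ k := by positivity
  have f1 : A * (p ^ k * 2) ≤ S := by
    rcases le_or_gt 0 A with h | h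
    · exact (mul_le_mul_of_nonneg_left e1 h).trans hA
    · have : A * (p ^ k * 2) ≤ 0 := mul_nonpos_of_nonpos_of_nonneg h.le (by positivity)
      linarith
  have f2 : B * (p ^ k * 4) ≤ 2 * S := by
    rcases le_or_gt 0 B with h | h
    · exact (mul_le_mul_of_nonneg_left e2 h).trans hB
    · have : B * (p ^ k * 4) ≤ 0 := mul_nonpos_of_nonpos_of_nonneg h.le (by positivity)
      linarith
  linarith

end RGBM

open RGBM in
theorem specRGD (hABP : SpecABP) (hXFIN : SpecXFIN) (hEQV : SpecEQV) (hSNG : SpecSNG)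
    (hNTR : SpecNTR) (hFXG : SpecFXG) (hGBB : SpecGBB)
    (hLBD : SpecLBD) (hCLS : SpecCLS) (hPT3 : SpecPT3)
    (hPTT : SpecPTT) (hPTN : SpecPTN) (hE7 : SpecE7) (hE8 : SpecE8) (hMAX : SpecMAX) :
    ∃ n0 : ℕ, ∀ n ≥ n0, ∀ p : ℕ, p.Prime →
      numFlexible p n * p ^ (n ^ 2 / 250) ≤ numGroups (p ^ n) := by
  obtain ⟨n0, h0⟩ := MUPM.bad hCLS hPT3 hPTT hPTN hE7 hE8 hMAX hABP
  obtain ⟨n1, h1⟩ := ncl_sym hEQV hSNG hNTR hFXG hGBB
  refine ⟨max (max n0 n1) 100, fun n hn p hp => ?_⟩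
  simp only [ge_iff_le, max_le_iff] at hn
  obtain ⟨⟨g0, g1⟩, g2⟩ := hn
  have hmass : ∀ d, 0 ≤ mass p d n := fun d => by unfold mass; positivity
  have hbad := h0 n g0 p hp
  have hdec := DECM.gen hABP hXFIN n hp (fun G g => ¬ @Rigid p n G g)
    (fun G G' g g' hg hG hG' => hG (RGAM.rigid_iso p n G' G g' g hg.symm hG'))
  have hnum : numFlexible p n = ∑ d ∈ Finset.range (n + 1),
      ncl {R : Subgroup (FG d) | R ∈ X p d n ∧ ∀ h : R.Normal, ¬ @Rigid p n (FG d ⧸ R)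
        (DECM.qg R h)} := hdec
  set T : ℕ → ℝ := fun d =>
    (if d ∈ near n then (ncl (X p d n \ Good p d n) : ℝ) else (ncl (X p d n) : ℝ)) with hT
  set U : ℕ → ℝ := fun d => if d ∈ near n then (ncl (Sym p d n) : ℝ) else 0 with hU
  have hterm : ∀ d ∈ Finset.range (n + 1),
      (ncl {R : Subgroup (FG d) | R ∈ X p d n ∧ ∀ h : R.Normal, ¬ @Rigid p n (FG d ⧸ R)
        (DECM.qg R h)} : ℝ) ≤ T d + U d := by
    intro d _
    by_cases hd : d ∈ near n
    · simp only [hT, hU, hd, if_true]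
      have hsub : {R : Subgroup (FG d) | R ∈ X p d n ∧ ∀ h : R.Normal, ¬ @Rigid p n (FG d ⧸ R)
          (DECM.qg R h)} ⊆ (X p d n \ Good p d n) ∪ Sym p d n := by
        rintro R ⟨hR, hR2⟩
        by_cases hg : R ∈ Good p d n
        · right
          refine ⟨hg, fun hI => ?_⟩
          have := hR.1
          exact hR2 hR.1 (RGAM.rigid_of hABP hEQV hp hd hg hI)
        · exact Or.inl ⟨hR, hg⟩
      have hsubX : (X p d n \ Good p d n) ∪ Sym p d n ⊆ X p d n := by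
        rintro R (h | h)
        · exact h.1
        · exact h.1.1
      have c1 := (hCLS p d n hp).1 _ _ hsub hsubX
      have c2 := (hCLS p d n hp).2.2.1 _ _ hsubX
      have c3 := c1.trans c2
      exact_mod_cast c3
    · simp only [hT, hU, hd, if_false, add_zero]
      have hc := (hCLS p d n hp).1 {R : Subgroup (FG d) | R ∈ X p d n ∧ ∀ h : R.Normal,
        ¬ @Rigid p n (FG d ⧸ R) (DECM.qg R h)} (X p d n) (fun R h => h.1) (le_refl _)
      exact_mod_cast hc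
  have hsum : (numFlexible p n : ℝ) ≤ ∑ d ∈ Finset.range (n + 1), T d +
      ∑ d ∈ Finset.range (n + 1), U d := by
    rw [hnum, ← Finset.sum_add_distrib]
    push_cast
    exact Finset.sum_le_sum hterm
  have hflt : (Finset.range (n + 1)).filter (fun d => d ∈ near n) = near n := by
    ext d
    simp only [Finset.mem_filter, near]
    tauto
  have hUsum : (∑ d ∈ Finset.range (n + 1), U d) * (p : ℝ) ^ (n ^ 2 / 20) ≤
      2 * ∑ d ∈ near n, mass p d n := by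
    rw [hU, ← Finset.sum_filter, hflt, Finset.sum_mul, Finset.mul_sum]
    exact Finset.sum_le_sum fun d hd => h1 n g1 p hp d hd
  have hS : 0 ≤ ∑ d ∈ near n, mass p d n := Finset.sum_nonneg fun d _ => hmass d
  have hfin := numeric (p : ℝ) (by exact_mod_cast hp.two_le) n g2 _ _ _ hS hbad hUsum
  have h3 := hLBD p n hp
  have h5 : ∑ d ∈ near n, mass p d n ≤ ∑ d ∈ Finset.range (n + 1), mass p d n :=
    Finset.sum_le_sum_of_subset_of_nonneg (Finset.filter_subset _ _) (fun d _ _ => hmass d)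
  have hpp : (0 : ℝ) < (p : ℝ) ^ (n ^ 2 / 250) := by
    have : (0 : ℝ) < p := by exact_mod_cast hp.pos
    positivity
  have h6 : (numFlexible p n : ℝ) * (p : ℝ) ^ (n ^ 2 / 250) ≤ (numGroups (p ^ n) : ℝ) :=
    le_trans (le_trans (mul_le_mul_of_nonneg_right hsum hpp.le) hfin) (le_trans h5 h3)
  exact_mod_cast h6

namespace RGBM

/-- Almost all groups of order `p ^ n` are rigid. -/
theorem almost : ∃ n0 : ℕ, ∀ n ≥ n0, ∀ p : ℕ, p.Prime →
    numFlexible p n * p ^ (n ^ 2 / 250) ≤ numGroups (p ^ n) :=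
  specRGD All.abp All.xfin All.eqv All.sng All.ntr All.fxg All.gbb All.lbd All.cls All.pt3
    All.ptt All.ptn All.e7 All.e8 All.max

end RGBM

end Pool.Agent.Lib.MP4ccb00
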