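import Pool.Agent.Lib.MP_4ccb00_al.N.Spec
import Pool.Agent.Lib.MP_4ccb00_al.N.YFI

section
/-!
# MP_4ccb00_al, part N, modules NAA and NDT: counting normal subgroups by chains
-/
set_option autoImplicit false

namespace Pool.Agent.Lib.MP4ccb00.N

open Subgroup Module E

open scoped commutatorElement

namespace NAAM

/-- the counting lemma -/
theorem chain (p : ℕ) [Fact p.Prime] (Γ : Type) [Group Γ] (T D : Subgroup Γ) (hT : T.Normal)
    (m : ℕ) (hm : T.index = p ^ m) (k : ℕ → ℕ) (j : ℕ)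
    (hk : ∀ i < j, ∀ A : Subgroup Γ, A.Normal → D ≤ A → A ≤ T → A.index = p ^ (m + i) →
      DLE (YY p ⊤ A D) (k i)) :
    {A : Subgroup Γ | A.Normal ∧ D ≤ A ∧ A ≤ T ∧ A.relIndex T = p ^ j}.Finite ∧
    {A : Subgroup Γ | A.Normal ∧ D ≤ A ∧ A ≤ T ∧ A.relIndex T = p ^ j}.ncard ≤
      p ^ (∑ i ∈ Finset.range j, k i) := by
  have hprime : p.Prime := Fact.out
  induction j with
  | zero =>
    have hsub : {A : Subgroup Γ | A.Normal ∧ D ≤ A ∧ A ≤ T ∧ A.relIndex T = p ^ 0} ⊆ {T} := by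
      rintro A ⟨-, -, hA, hi⟩
      rw [pow_zero, Subgroup.relIndex_eq_one] at hi
      exact le_antisymm hA hi
    refine ⟨(Set.finite_singleton T).subset hsub, ?_⟩
    refine (Set.ncard_le_ncard hsub (Set.finite_singleton T)).trans ?_
    simp
  | succ j ih =>
    obtain ⟨h1, h2⟩ := ih (fun i hi => hk i (by omega))
    let f : Subgroup Γ → Set (Subgroup Γ) := fun A₁ =>
      {R' : Subgroup Γ | R'.Normal ∧ R' ≤ A₁ ∧ R'.relIndex A₁ = p ∧ A₁ ⊓ D ≤ R'}
    obtain ⟨h3, h4⟩ := E4M.union_bound _ h1 f _ (p ^ (k j)) h2 (by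
      rintro A₁ ⟨hA₁, hDA, hAT, hi⟩
      have hidx : A₁.index = p ^ (m + j) := by
        rw [← Subgroup.relIndex_mul_index hAT, hi, hm, ← pow_add, add_comm]
      exact specNXT p Γ A₁ D (k j) hA₁ ⟨_, hidx⟩ (hk j (by omega) A₁ hA₁ hDA hAT hidx))
    have hsub : {A : Subgroup Γ | A.Normal ∧ D ≤ A ∧ A ≤ T ∧ A.relIndex T = p ^ (j + 1)} ⊆
        ⋃ A₁ ∈ {A : Subgroup Γ | A.Normal ∧ D ≤ A ∧ A ≤ T ∧ A.relIndex T = p ^ j}, f A₁ := by
      rintro A ⟨hA, hDA, hAT, hi⟩
      have hlt : A < T := by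
        refine lt_of_le_of_ne hAT ?_
        rintro rfl
        rw [Subgroup.relIndex_self] at hi
        have : 1 < p ^ (j + 1) := Nat.one_lt_pow (Nat.succ_ne_zero j) hprime.one_lt
        omega
      have hAidx : A.index = p ^ (m + (j + 1)) := by
        rw [← Subgroup.relIndex_mul_index hAT, hi, hm, ← pow_add, add_comm]
      obtain ⟨R1, hR1, hlt1, hle1, hidx⟩ := specBOT p Γ A T hA hT ⟨_, hAidx⟩ hlt
      simp only [Set.mem_iUnion]
      refine ⟨R1, ⟨hR1, hDA.trans hlt1.le, hle1, ?_⟩, hA, hlt1.le, hidx, inf_le_right.trans hDA⟩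
      have h5 := Subgroup.relIndex_mul_relIndex A R1 T hlt1.le hle1
      rw [hidx, hi, pow_succ, mul_comm] at h5
      exact Nat.eq_of_mul_eq_mul_right hprime.pos h5
    refine ⟨h3.subset hsub, (Set.ncard_le_ncard hsub h3).trans (h4.trans (le_of_eq ?_))⟩
    rw [← pow_add, Finset.sum_range_succ]

end NAAM

open NAAM in
theorem specNAA : SpecNAA := by
  intro p hp Γ _ s m π x T hx hT hm
  have hprime : p.Prime := Fact.out
  obtain ⟨h1, h2⟩ := chain p Γ T ⊥ hT m hm (fun i => (s + 1) * (m + i) + s) π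
    (fun i _ A hA _ _ hi => specAY p Γ s (m + i) x A hx hA hi)
  have heq : {A : Subgroup Γ | A.Normal ∧ A ≤ T ∧ A.relIndex T = p ^ π} =
      {A : Subgroup Γ | A.Normal ∧ ⊥ ≤ A ∧ A ≤ T ∧ A.relIndex T = p ^ π} := by
    ext A
    simp
  rw [heq]
  refine ⟨h1, h2.trans (Nat.pow_le_pow_right hprime.pos ?_)⟩
  calc ∑ i ∈ Finset.range π, ((s + 1) * (m + i) + s)
      ≤ ∑ _i ∈ Finset.range π, ((s + 1) * (m + π) + s) := by
        apply Finset.sum_le_sum
        intro i hi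
        have := Finset.mem_range.1 hi
        gcongr
    _ = π * ((s + 1) * (m + π) + s) := by
        rw [Finset.sum_const, Finset.card_range, smul_eq_mul]

open NAAM in
theorem specNDT : SpecNDT := by
  intro p hp F _ d f x hx hd
  have hprime : p.Prime := Fact.out
  have hP : (PhiP p (⊤ : Subgroup F)).Normal := by
    constructor
    intro n hn g
    have h1 : g * n * g⁻¹ = ⁅g, n⁆ * n := by
      rw [commutatorElement_def]
      group
    rw [h1]
    exact mul_mem (Subgroup.mem_sup_left (Subgroup.commutator_mem_commutator trivial trivial)) hn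
  obtain ⟨h1, h2⟩ := chain p F (PhiP p (⊤ : Subgroup F)) ⁅(⊤ : Subgroup F), (⊤ : Subgroup F)⁆ hP d
    hd (fun i => (0 + 1) * (d + i) + (d + ((0 + 1) * 0 + 0))) f
    (fun i _ A hA _ _ hi => specE2 p F d 0 (d + i) x ⊤ A hx inferInstance hA le_top
      (by simp) hi)
  refine ⟨h1, h2.trans (Nat.pow_le_pow_right hprime.pos ?_)⟩
  calc ∑ i ∈ Finset.range f, ((0 + 1) * (d + i) + (d + ((0 + 1) * 0 + 0)))
      ≤ ∑ _i ∈ Finset.range f, (2 * d + f) := by
        apply Finset.sum_le_sum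
        intro i hi
        have := Finset.mem_range.1 hi
        omega
    _ = f * (2 * d + f) := by
        rw [Finset.sum_const, Finset.card_range, smul_eq_mul]

end Pool.Agent.Lib.MP4ccb00.N
end

section
/-!
# MP_4ccb00_al, part N, module CRS: the count of `R ⊓ S`
-/
set_option autoImplicit false

namespace Pool.Agent.Lib.MP4ccb00.N

open Subgroup Module E

open scoped commutatorElement

namespace CRSM

theorem normal_between {Γ : Type} [Group Γ] {A B : Subgroup Γ} (h1 : ⁅A, (⊤ : Subgroup Γ)⁆ ≤ B)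
    (h2 : B ≤ A) : B.Normal := by
  constructor
  intro n hn g
  have h3 : g * n * g⁻¹ = ⁅n, g⁆⁻¹ * n := by
    rw [commutatorElement_def]
    group
  rw [h3]
  exact mul_mem (inv_mem (h1 (Subgroup.commutator_mem_commutator (h2 hn) trivial))) hn

theorem rank_le (hRNK : SpecRNK) (p : ℕ) [Fact p.Prime] (Γ : Type) [Group Γ] (y : ℕ)
    (A : Subgroup Γ) (hA : A.Normal) (hy : DLE (YY p ⊤ A ⊥) y) (j : ℕ) (T : Subgroup Γ)
    (h1 : ⁅A, (⊤ : Subgroup Γ)⁆ ≤ T) (h2 : T ≤ A) (hm : ∃ m, T.index = p ^ m)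
    (hj : T.relIndex A = p ^ j) : DLE (YY p ⊤ T ⁅A, (⊤ : Subgroup Γ)⁆) y := by
  have hprime : p.Prime := Fact.out
  induction j generalizing T with
  | zero =>
    rw [pow_zero, Subgroup.relIndex_eq_one] at hj
    have : T = A := le_antisymm h2 hj
    subst this
    exact Base.dle_le (Base.yy_mono le_rfl bot_le) hy
  | succ j ih =>
    have hT := normal_between h1 h2
    have hlt : T < A := by
      refine lt_of_le_of_ne h2 ?_
      rintro rfl
      rw [Subgroup.relIndex_self] at hj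
      have : 1 < p ^ (j + 1) := Nat.one_lt_pow (Nat.succ_ne_zero j) hprime.one_lt
      omega
    obtain ⟨m, hm⟩ := hm
    obtain ⟨R1, m1, hR1, hlt1, hle1, hidx, hmm, hR1i, -⟩ := AYM.step p Γ T A hT hA m hm hlt
    have hj1 : R1.relIndex A = p ^ j := by
      have h5 := Subgroup.relIndex_mul_relIndex T R1 _ hlt1.le hle1
      rw [hidx, hj, pow_succ, mul_comm] at h5
      exact Nat.eq_of_mul_eq_mul_right hprime.pos h5
    exact hRNK p Γ y A _ R1 T hA inferInstance hR1 hT le_rfl h1 hlt1.le hle1 ⟨m, hm⟩ hidx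
      (ih R1 (h1.trans hlt1.le) hle1 ⟨m1, hR1i⟩ hj1)

end CRSM

open CRSM in
theorem specCRS (hRNK : SpecRNK) : SpecCRS := by
  intro p hp Γ _ y c A T hA h1 h2 hm hy
  have hprime : p.Prime := Fact.out
  obtain ⟨m, hm⟩ := hm
  obtain ⟨h3, h4⟩ := NAAM.chain p Γ T ⁅A, (⊤ : Subgroup Γ)⁆ (normal_between h1 h2) m hm
    (fun _ => y) c (by
      intro i _ B _ hDB hBT hi
      have h5 : B.relIndex A ∣ p ^ (m + i) := by
        rw [← hi]
        exact Subgroup.relIndex_dvd_index_of_le (hBT.trans h2)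
      obtain ⟨j, -, hj⟩ := (Nat.dvd_prime_pow hprime).1 h5
      exact rank_le hRNK p Γ y A hA hy j B hDB (hBT.trans h2) ⟨_, hi⟩ hj)
  have heq : {R : Subgroup Γ | ⁅A, (⊤ : Subgroup Γ)⁆ ≤ R ∧ R ≤ T ∧ R.relIndex T = p ^ c} =
      {R : Subgroup Γ | R.Normal ∧ ⁅A, (⊤ : Subgroup Γ)⁆ ≤ R ∧ R ≤ T ∧ R.relIndex T = p ^ c} := by
    ext R
    constructor
    · rintro ⟨k1, k2, k3⟩
      exact ⟨normal_between k1 (k2.trans h2), k1, k2, k3⟩
    · rintro ⟨-, k1, k2, k3⟩
      exact ⟨k1, k2, k3⟩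
  rw [heq]
  refine ⟨h3, h4.trans (le_of_eq ?_)⟩
  rw [Finset.sum_const, Finset.card_range, smul_eq_mul]

end Pool.Agent.Lib.MP4ccb00.N
end

section
/-!
# MP_4ccb00_al, part N, module NDT: see `specNDT` in `N/NAA.lean`
-/
end

section
/-!
# MP_4ccb00_al, part (d), module RNK: the `p`-rank of an abelian section
-/
set_option autoImplicit false

namespace Pool.Agent.Lib.MP4ccb00.N

open Subgroup Module E

open scoped commutatorElement

theorem specRNK : SpecRNK := by
  intro p hp F _ y A D T T' hA hD hT hT' hAD hDT' hle hTA hm hidx hY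
  classical
  have hprime : p.Prime := Fact.out
  obtain ⟨hpow, hcomT, hcyc⟩ := specCYC p F T' T hT' hT hm hle hidx
  have hne : ¬ T ≤ T' := by
    intro h
    have : T' = T := le_antisymm hle h
    rw [this, Subgroup.relIndex_self] at hidx
    exact hprime.one_lt.ne hidx
  obtain ⟨z, hz, hz'⟩ := SetLike.not_le_iff_exists.1 hne
  obtain ⟨f0, hf0, hf0'⟩ := NXTM.exists_hom p F T' T D hT' hT hm hle hidx
    (inf_le_right.trans hDT')
  have hf0z : f0 z ≠ 0 := fun h => hz' ((hf0' z).2 ⟨hz, h⟩)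
  choose! κ hκ using hcyc z hz hz'
  have hzp : z ^ p ∈ T' := hpow z hz
  have hcomD : ∀ g, ⁅z, g⁆ ∈ D := fun g =>
    hAD (Subgroup.commutator_mem_commutator (hTA hz) (Subgroup.mem_top g))
  have hcom : ∀ g, ⁅z, g⁆ ∈ T' := fun g => hDT' (hcomD g)
  -- the subspace of the functions which vanish at `z`
  let ev : (F → ZMod p) →ₗ[ZMod p] ZMod p := LinearMap.proj z
  have hY0 : DLE (YY p ⊤ T D ⊓ LinearMap.ker ev) (y - 1) := by
    obtain ⟨h1, h2⟩ := hY
    have hlt : YY p ⊤ T D ⊓ LinearMap.ker ev < YY p ⊤ T D := by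
      refine lt_of_le_of_ne inf_le_left ?_
      intro h
      have h3 : f0 ∈ YY p ⊤ T D ⊓ LinearMap.ker ev := by
        rw [h]
        exact hf0
      exact hf0z (LinearMap.mem_ker.1 h3.2)
    have h4 : Module.Finite (ZMod p) (YY p ⊤ T D ⊓ LinearMap.ker ev : Submodule _ _) :=
      Submodule.finiteDimensional_of_le inf_le_left
    refine ⟨h4, ?_⟩
    have h5 := Submodule.finrank_lt_finrank_of_lt hlt
    omega
  have hy : 1 ≤ y := by
    obtain ⟨h1, h2⟩ := hY
    by_contra hy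
    have h3 : Module.finrank (ZMod p) (YY p ⊤ T D) = 0 := by omega
    have h4 : YY p ⊤ T D = ⊥ := Submodule.finrank_eq_zero.1 h3
    rw [h4, Submodule.mem_bot] at hf0
    exact hf0z (by rw [hf0]; rfl)
  let Ψ : YY p ⊤ T' D →ₗ[ZMod p] ZMod p :=
    { toFun := fun φ => φ.1 (z ^ p)
      map_add' := fun φ ψ => rfl
      map_smul' := fun c φ => rfl }
  let E : LinearMap.ker Ψ →ₗ[ZMod p] (F → ZMod p) :=
    { toFun := fun φ x => if x ∈ T then φ.1.1 ((z ^ κ x)⁻¹ * x) else 0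
      map_add' := fun φ ψ => by
        funext x
        by_cases hx : x ∈ T
        · simp [hx]
        · simp [hx]
      map_smul' := fun c φ => by
        funext x
        by_cases hx : x ∈ T
        · simp [hx]
        · simp [hx] }
  have hval : ∀ φ : LinearMap.ker Ψ, ∀ (i : ℕ) (r : F), r ∈ T' → E φ (z ^ i * r) = φ.1.1 r := by
    intro φ i r hr
    have h2 : φ.1.1 (z ^ p) = 0 := LinearMap.mem_ker.1 φ.2
    have hx : z ^ i * r ∈ T := mul_mem (pow_mem hz i) (hle hr)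
    change (if z ^ i * r ∈ T then φ.1.1 ((z ^ κ (z ^ i * r))⁻¹ * (z ^ i * r)) else 0) = _
    rw [if_pos hx]
    have hw := hκ _ hx
    apply EXTM.val_indep hT' hz' hzp φ.1.2 h2 hw hr (i := κ (z ^ i * r)) (j := i)
    group
  have hrep : ∀ x ∈ T, ∃ (i : ℕ) (r : F), r ∈ T' ∧ x = z ^ i * r := by
    intro x hx
    exact ⟨κ x, _, hκ x hx, by group⟩
  have hbase : ∀ φ : LinearMap.ker Ψ, E φ ∈ YY p ⊥ T ⊥ := by
    intro φ
    have hf := φ.1.2
    refine ⟨?_, ?_, ?_, ?_⟩
    · intro x hx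
      change (if x ∈ T then φ.1.1 ((z ^ κ x)⁻¹ * x) else 0) = 0
      rw [if_neg hx]
    · intro x hx y hy
      obtain ⟨i, r, hr, rfl⟩ := hrep x hx
      obtain ⟨j, s, hs, rfl⟩ := hrep y hy
      have h1 : z ^ i * r * (z ^ j * s) = z ^ (i + j) * (((z ^ j)⁻¹ * r * (z ^ j)⁻¹⁻¹) * s) := by
        rw [pow_add]
        group
      have h2 : (z ^ j)⁻¹ * r * (z ^ j)⁻¹⁻¹ ∈ T' := hT'.conj_mem r hr _
      rw [h1, hval φ _ _ (mul_mem h2 hs), hval φ _ _ hr, hval φ _ _ hs,
        Base.yy_mul hf h2 hs, Base.yy_conj hf (Subgroup.mem_top _) hr]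
    · intro y hy x hx
      rw [Subgroup.mem_bot] at hy
      subst hy
      simp
    · intro x hx hx1
      rw [Subgroup.mem_bot] at hx1
      subst hx1
      have := hval φ 0 1 (one_mem T')
      simpa [Base.yy_one hf] using this
  have hE : ∀ φ : LinearMap.ker Ψ, E φ ∈ YY p ⊤ T D ⊓ LinearMap.ker ev := by
    intro φ
    have hf := φ.1.2
    have hb := hbase φ
    have hall : ∀ g, φ.1.1 ⁅z, g⁆ = 0 := fun g => Base.yy_zero hf (hcom g) (hcomD g)
    refine ⟨⟨hb.1, hb.2.1, ?_, ?_⟩, ?_⟩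
    · intro y _ x hx
      obtain ⟨i, r, hr, rfl⟩ := hrep x hx
      have hyz : y * z * y⁻¹ ∈ T := hT.conj_mem z hz y
      have h2 : y * (z ^ i * r) * y⁻¹ = (y * z * y⁻¹) ^ i * (y * r * y⁻¹) := by
        rw [conj_pow]
        group
      have h3 : E φ (y * z * y⁻¹) = 0 := by
        have h4 : y * z * y⁻¹ = z ^ 1 * (z⁻¹ * ⁅z, y⁆⁻¹ * z⁻¹⁻¹) := by
          simp only [commutatorElement_def]
          group
        have h5 : z⁻¹ * ⁅z, y⁆⁻¹ * z⁻¹⁻¹ ∈ T' := hT'.conj_mem _ (inv_mem (hcom y)) _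
        rw [h4, hval φ _ _ h5, Base.yy_conj hf (Subgroup.mem_top _) (inv_mem (hcom y)),
          Base.yy_inv hf (hcom y), hall y, neg_zero]
      have hyr : y * r * y⁻¹ ∈ T' := hT'.conj_mem r hr y
      have h6 : E φ (y * r * y⁻¹) = φ.1.1 r := by
        have h7 := hval φ 0 _ hyr
        rw [pow_zero, one_mul] at h7
        rw [h7, Base.yy_conj hf (Subgroup.mem_top _) hr]
      rw [h2, Base.yy_mul hb (pow_mem hyz i) (hle hyr), Base.yy_pow hb hyz, h3, mul_zero,
        zero_add, h6, hval φ i r hr]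
    · intro x hx hxD
      have hx' : x ∈ T' := hDT' hxD
      have h7 := hval φ 0 x hx'
      rw [pow_zero, one_mul] at h7
      rw [h7]
      exact Base.yy_zero hf hx' hxD
    · have h7 := hval φ 1 1 (one_mem T')
      rw [pow_one, mul_one, Base.yy_one hf] at h7
      exact h7
  have h1 : DLE (⊤ : Submodule (ZMod p) (ZMod p)) 1 := by
    refine ⟨inferInstance, ?_⟩
    rw [finrank_top, Module.finrank_self]
  have h2 := Base.dle_add Ψ (fun _ => Submodule.mem_top) h1 E hE hY0 (by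
    intro φ hφ
    have h : φ.1.1 = 0 := by
      funext x
      by_cases hx : x ∈ T'
      · have h7 := hval φ 0 x hx
        rw [pow_zero, one_mul, hφ] at h7
        exact h7.symm
      · exact Base.yy_out φ.1.2 hx
    exact Subtype.ext (Subtype.ext h))
  exact Base.dle_mono h2 (by omega)

end Pool.Agent.Lib.MP4ccb00.N
end
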